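import Pool.Agent.Work.MP_5cb0a4_pr.Z.Harm

-- merged part: Pool.Agent.Work.MP_5cb0a4_pr.N.GramA
section
/-! Sums of squares in the group algebra of the square of the lattice. -/

open Finset
open scoped Classical

namespace Pool.Agent.Work.MP_5cb0a4_pr.Z

noncomputable section

/-- The group algebra. -/
abbrev NGram_R : Type := AddMonoidAlgebra ℝ (V × V)

/-- The translations. -/
def NGram_T (w : V × V) : NGram_R := AddMonoidAlgebra.single w 1

lemma NGram_T_add (v w : V × V) : NGram_T (v + w) = NGram_T v * NGram_T w := by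
  simp [NGram_T, AddMonoidAlgebra.single_mul_single]

lemma NGram_T_zero : NGram_T 0 = 1 := rfl

/-- The involution. -/
def NGram_s : NGram_R →ₐ[ℝ] NGram_R :=
  AddMonoidAlgebra.mapDomainAlgHom ℝ ℝ (negAddMonoidHom : V × V →+ V × V)

lemma NGram_s_T (w : V × V) : NGram_s (NGram_T w) = NGram_T (-w) := by
  simp [NGram_s, NGram_T]

lemma NGram_s_T_mul (w : V × V) : NGram_s (NGram_T w) * NGram_T w = 1 := by
  rw [NGram_s_T, ← NGram_T_add, neg_add_cancel, NGram_T_zero]

/-- The functional given by a function. -/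
def NGram_f (F : V × V → ℝ) : NGram_R →ₗ[ℝ] ℝ :=
  Finsupp.linearCombination ℝ F ∘ₗ (AddMonoidAlgebra.coeffLinearEquiv ℝ).toLinearMap

lemma NGram_f_T (F : V × V → ℝ) (w : V × V) : NGram_f F (NGram_T w) = F w := by
  simp [NGram_f, NGram_T]

/-- Pairs of even vectors. -/
def NGram_E (w : V × V) : Prop := IsEven w.1 ∧ IsEven w.2

/-- Positive definite functions. -/
def NGram_PD (F : V × V → ℝ) : Prop :=
  ∀ (I : Type) [Fintype I] (c : I → ℝ) (g : I → V × V), (∀ i, NGram_E (g i)) →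
    0 ≤ ∑ i, ∑ j, c i * c j * F (g j - g i)

/-- The even part. -/
def NGram_S : Subalgebra ℝ NGram_R := Algebra.adjoin ℝ (NGram_T '' {w | NGram_E w})

lemma NGram_T_mem {w : V × V} (h : NGram_E w) : NGram_T w ∈ NGram_S :=
  Algebra.subset_adjoin ⟨w, h, rfl⟩

lemma NGram_even_zero : IsEven 0 := by simp [IsEven]

lemma NGram_rep {r : NGram_R} (h : r ∈ NGram_S) : ∃ (I : Type) (_ : Fintype I) (c : I → ℝ)
    (g : I → V × V), (∀ i, NGram_E (g i)) ∧ r = ∑ i, c i • NGram_T (g i) := by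
  induction h using Algebra.adjoin_induction with
  | mem x hx =>
    obtain ⟨w, hw, rfl⟩ := hx
    exact ⟨Unit, inferInstance, fun _ => 1, fun _ => w, fun _ => hw, by simp⟩
  | algebraMap a =>
    exact ⟨Unit, inferInstance, fun _ => a, fun _ => 0, fun _ => ⟨NGram_even_zero, NGram_even_zero⟩,
      by rw [Fintype.sum_unique, NGram_T_zero, Algebra.algebraMap_eq_smul_one]⟩
  | add x y _ _ hx hy =>
    obtain ⟨I, _, c, g, h, rfl⟩ := hx
    obtain ⟨I', _, c', g', h', rfl⟩ := hy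
    refine ⟨I ⊕ I', inferInstance, Sum.elim c c', Sum.elim g g', ?_,
      by rw [Fintype.sum_sum_type]; rfl⟩
    rintro (i | i)
    · exact h i
    · exact h' i
  | mul x y _ _ hx hy =>
    obtain ⟨I, _, c, g, h, rfl⟩ := hx
    obtain ⟨I', _, c', g', h', rfl⟩ := hy
    refine ⟨I × I', inferInstance, fun p => c p.1 * c' p.2, fun p => g p.1 + g' p.2, fun p =>
      ⟨isEven_add.2 (iff_of_true (h _).1 (h' _).1), isEven_add.2 (iff_of_true (h _).2 (h' _).2)⟩,
      ?_⟩
    rw [Fintype.sum_prod_type, sum_mul_sum]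
    exact sum_congr rfl fun i _ => sum_congr rfl fun j _ => by
      rw [NGram_T_add, smul_mul_smul_comm]

/-- Sums of squares. -/
def NGram_C : AddSubmonoid NGram_R :=
  AddSubmonoid.closure {x | ∃ r ∈ NGram_S, x = NGram_s r * r}

lemma NGram_sq {r : NGram_R} (h : r ∈ NGram_S) : NGram_s r * r ∈ NGram_C :=
  AddSubmonoid.subset_closure ⟨r, h, rfl⟩

lemma NGram_f_nonneg {F : V × V → ℝ} (hF : NGram_PD F) {x : NGram_R} (h : x ∈ NGram_C) :
    0 ≤ NGram_f F x := by
  induction h using AddSubmonoid.closure_induction with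
  | mem x hx =>
    obtain ⟨r, hr, rfl⟩ := hx
    obtain ⟨I, _, c, g, h, rfl⟩ := NGram_rep hr
    refine (hF I c g h).trans_eq ?_
    rw [map_sum, sum_mul_sum, map_sum]
    refine sum_congr rfl fun i _ => ?_
    rw [map_sum]
    refine sum_congr rfl fun j _ => ?_
    rw [map_smul, NGram_s_T, smul_mul_smul_comm, ← NGram_T_add, map_smul, NGram_f_T,
      neg_add_eq_sub, smul_eq_mul]
  | zero => rw [map_zero]
  | add x y _ _ hx hy => rw [map_add]; exact add_nonneg hx hy

lemma NGram_mul {x y : NGram_R} (hx : x ∈ NGram_C) (hy : y ∈ NGram_C) : x * y ∈ NGram_C := by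
  induction hx using AddSubmonoid.closure_induction with
  | mem x hx =>
    obtain ⟨r, hr, rfl⟩ := hx
    induction hy using AddSubmonoid.closure_induction with
    | mem y hy =>
      obtain ⟨r', hr', rfl⟩ := hy
      have h := NGram_sq (mul_mem hr hr')
      rwa [map_mul, mul_mul_mul_comm] at h
    | zero => rw [mul_zero]; exact zero_mem _
    | add y z _ _ h1 h2 => rw [mul_add]; exact add_mem h1 h2
  | zero => rw [zero_mul]; exact zero_mem _
  | add x z _ _ h1 h2 => rw [add_mul]; exact add_mem h1 h2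

lemma NGram_one : (1 : NGram_R) ∈ NGram_C := by
  have h := NGram_sq (one_mem NGram_S)
  rwa [map_one, mul_one] at h

lemma NGram_smul {a : ℝ} (ha : 0 ≤ a) {x : NGram_R} (hx : x ∈ NGram_C) : a • x ∈ NGram_C := by
  have h := NGram_mul (NGram_sq (NGram_S.algebraMap_mem √a)) hx
  rwa [AlgHom.commutes, ← map_mul, Real.mul_self_sqrt ha, ← Algebra.smul_def] at h

lemma NGram_pow {x : NGram_R} (hx : x ∈ NGram_C) (n : ℕ) : x ^ n ∈ NGram_C := by
  induction n with
  | zero => rw [pow_zero]; exact NGram_one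
  | succ n ih => rw [pow_succ]; exact NGram_mul ih hx

lemma NGram_pow_sub {x z : NGram_R} (hx : x ∈ NGram_C) (hz : z ∈ NGram_C) (h : x - z ∈ NGram_C)
    (n : ℕ) : x ^ n - z ^ n ∈ NGram_C := by
  induction n with
  | zero => rw [pow_zero, pow_zero, sub_self]; exact zero_mem _
  | succ n ih =>
    rw [show x ^ (n + 1) - z ^ (n + 1) = x * (x ^ n - z ^ n) + (x - z) * z ^ n by ring]
    exact add_mem (NGram_mul hx ih) (NGram_mul h (NGram_pow hz n))

variable (u : V →+ V × V)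

/-- One step of the walk. -/
def NGram_y : NGram_R := (1 / 6 : ℝ) • ∑ d : Dir, NGram_T (u (dv d))

lemma NGram_walk (n : ℕ) (l : NGram_R →ₗ[ℝ] ℝ) :
    l (NGram_y u ^ n) = ∑ z ∈ box n, pk n z * l (NGram_T (u z)) := by
  have h : ∀ l : NGram_R →ₗ[ℝ] ℝ, Harm_ip (fun z => l (NGram_T (u z)))
      ((Harm_Q ^ n) (Finsupp.single 0 1)) = l (NGram_y u ^ n) := by
    induction n with
    | zero => intro l; rw [pow_zero, pow_zero, Module.End.one_apply, Harm_ip_single, map_zero,
        NGram_T_zero]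
    | succ n ih =>
      intro l
      rw [pow_succ', Module.End.mul_apply, Harm_ip_Q, pow_succ]
      refine Eq.trans (congrArg (fun φ => Harm_ip φ _) (funext fun z => ?_))
        (ih (l ∘ₗ LinearMap.mulRight ℝ (NGram_y u)))
      simp only [Harm_P, NGram_y, LinearMap.comp_apply, LinearMap.mulRight_apply, map_add,
        NGram_T_add, mul_smul_comm, mul_sum, map_smul, map_sum, smul_eq_mul]
      rw [← mul_sum]
      ring
  rw [← h, Harm_ip_eq _ _ (S := box n)]
  · simp only [Harm_pow_single, sub_zero]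
  · intro x hx
    by_contra hb
    exact hx (by rw [Harm_pow_single, sub_zero, pk_eq_zero hb])

lemma NGram_s_y : NGram_s (NGram_y u) = NGram_y u := by
  rw [NGram_y, map_smul, map_sum]
  refine congrArg _ (Fintype.sum_equiv (Equiv.prodCongr (Equiv.refl _) Equiv.boolNot) _ _
    fun d => ?_)
  rw [NGram_s_T, ← map_neg, ← dv_not]
  rfl

/-- Two steps. -/
def NGram_t (p : Dir × Dir) : NGram_R := NGram_T (u (dv p.1 + dv p.2))

lemma NGram_W : ∑ p, NGram_t u p = (36 : ℝ) • NGram_y u ^ 2 := by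
  rw [NGram_y, smul_pow, smul_smul, pow_two (∑ d : Dir, _), sum_mul_sum, Fintype.sum_prod_type,
    show (36 : ℝ) * (1 / 6) ^ 2 = 1 by norm_num, one_smul]
  simp only [NGram_t, map_add, NGram_T_add]

lemma NGram_W' : ∑ p, NGram_s (NGram_t u p) = (36 : ℝ) • NGram_y u ^ 2 := by
  rw [← map_sum, NGram_W, map_smul, map_pow, NGram_s_y]

lemma NGram_even_dv (a b : Dir) : IsEven (dv a + dv b) := isEven_add_dv.2 (not_isEven_dv a)

variable {u}

lemma NGram_t_mem (hu : ∀ z, IsEven z → NGram_E (u z)) (p : Dir × Dir) : NGram_t u p ∈ NGram_S :=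
  NGram_T_mem (hu _ (NGram_even_dv _ _))

lemma NGram_y_sq (hu : ∀ z, IsEven z → NGram_E (u z)) : NGram_y u ^ 2 ∈ NGram_C := by
  have h1 : NGram_y u * NGram_T (u (dv (0, true))) ∈ NGram_S := by
    rw [NGram_y, smul_mul_assoc, sum_mul]
    refine Subalgebra.smul_mem _ (Subalgebra.sum_mem _ fun d _ => ?_) _
    rw [← NGram_T_add, ← map_add]
    exact NGram_T_mem (hu _ (NGram_even_dv _ _))
  have h := NGram_sq h1
  rwa [map_mul, mul_mul_mul_comm, NGram_s_T_mul, mul_one, NGram_s_y, ← pow_two] at h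

lemma NGram_card (x : NGram_R) : ∑ _p : Dir × Dir, x = (36 : ℝ) • x := by
  rw [sum_const, ← Nat.cast_smul_eq_nsmul ℝ]
  simp

lemma NGram_e (hu : ∀ z, IsEven z → NGram_E (u z)) : 1 - NGram_y u ^ 2 ∈ NGram_C := by
  have h : ∑ p, NGram_s (1 - NGram_t u p) * (1 - NGram_t u p) ∈ NGram_C :=
    sum_mem fun p _ => NGram_sq (sub_mem (one_mem _) (NGram_t_mem hu p))
  have e : ∀ p, NGram_s (1 - NGram_t u p) * (1 - NGram_t u p) =
      (1 + 1) - NGram_t u p - NGram_s (NGram_t u p) := fun p => by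
    have h1 : NGram_s (NGram_t u p) * NGram_t u p = 1 := NGram_s_T_mul _
    rw [map_sub, map_one]
    linear_combination h1
  simp only [e, sum_sub_distrib, NGram_W, NGram_W', NGram_card] at h
  have h2 := NGram_smul (a := 1 / 72) (by norm_num) h
  refine (congrArg (· ∈ NGram_C) ?_).mp h2
  module

/-- The three embeddings. -/
abbrev NGram_u1 : V →+ V × V := AddMonoidHom.inl V V

abbrev NGram_u2 : V →+ V × V := AddMonoidHom.inr V V

abbrev NGram_ud : V →+ V × V := (AddMonoidHom.id V).prod (AddMonoidHom.id V)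

lemma NGram_h1 (z : V) (h : IsEven z) : NGram_E (NGram_u1 z) := ⟨h, NGram_even_zero⟩

lemma NGram_h2 (z : V) (h : IsEven z) : NGram_E (NGram_u2 z) := ⟨NGram_even_zero, h⟩

lemma NGram_hd (z : V) (h : IsEven z) : NGram_E (NGram_ud z) := ⟨h, h⟩

lemma NGram_mix : (3 : ℝ) • (1 : NGram_R) - (2 : ℝ) • NGram_y NGram_u1 ^ 2 -
    (2 : ℝ) • NGram_y NGram_u2 ^ 2 + NGram_y NGram_ud ^ 2 ∈ NGram_C := by
  have h : ∑ p, NGram_s (1 - NGram_t NGram_u1 p - NGram_t NGram_u1 p + NGram_t NGram_ud p) *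
      (1 - NGram_t NGram_u1 p - NGram_t NGram_u1 p + NGram_t NGram_ud p) ∈ NGram_C :=
    sum_mem fun p _ => NGram_sq (add_mem (sub_mem (sub_mem (one_mem _) (NGram_t_mem NGram_h1 p))
      (NGram_t_mem NGram_h1 p)) (NGram_t_mem NGram_hd p))
  have e : ∀ p, NGram_s (1 - NGram_t NGram_u1 p - NGram_t NGram_u1 p + NGram_t NGram_ud p) *
      (1 - NGram_t NGram_u1 p - NGram_t NGram_u1 p + NGram_t NGram_ud p) =
      (1 + 1 + 1 + 1 + 1 + 1) - NGram_t NGram_u1 p - NGram_t NGram_u1 p -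
        NGram_s (NGram_t NGram_u1 p) - NGram_s (NGram_t NGram_u1 p) - NGram_t NGram_u2 p -
        NGram_t NGram_u2 p - NGram_s (NGram_t NGram_u2 p) - NGram_s (NGram_t NGram_u2 p) +
        NGram_t NGram_ud p + NGram_s (NGram_t NGram_ud p) := fun p => by
    have h1 : NGram_s (NGram_t NGram_u1 p) * NGram_t NGram_u1 p = 1 := NGram_s_T_mul _
    have h2 : NGram_s (NGram_t NGram_u2 p) * NGram_t NGram_u2 p = 1 := NGram_s_T_mul _
    have h3 : NGram_t NGram_ud p = NGram_t NGram_u1 p * NGram_t NGram_u2 p := by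
      rw [NGram_t, NGram_t, NGram_t, ← NGram_T_add]
      simp
    rw [h3]
    simp only [map_add, map_sub, map_one, map_mul]
    linear_combination (4 - 2 * NGram_t NGram_u2 p - 2 * NGram_s (NGram_t NGram_u2 p) +
      NGram_s (NGram_t NGram_u2 p) * NGram_t NGram_u2 p) * h1 + h2
  simp only [e, sum_add_distrib, sum_sub_distrib, NGram_W, NGram_W', NGram_card] at h
  have h2 := NGram_smul (a := 1 / 72) (by norm_num) h
  refine (congrArg (· ∈ NGram_C) ?_).mp h2
  module

theorem NGram_main {F : V × V → ℝ} (hF : NGram_PD F) (N : ℕ) :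
    ∑ z ∈ box (2 * N), pk (2 * N) z * ∑ z' ∈ box (2 * N), pk (2 * N) z' * F (z, z') ≤
      ∑ j ∈ range (N + 1), (N.choose j : ℝ) * (3 / 4) ^ (N - j) * (1 / 4) ^ j *
        ∑ z ∈ box (2 * j), pk (2 * j) z * F (z, z) := by
  have hX : (1 / 4 : ℝ) • NGram_y NGram_ud ^ 2 + (3 / 4 : ℝ) • 1 ∈ NGram_C :=
    add_mem (NGram_smul (by norm_num) (NGram_y_sq NGram_hd)) (NGram_smul (by norm_num) NGram_one)
  have hZ := NGram_mul (NGram_y_sq NGram_h1) (NGram_y_sq NGram_h2)
  have hD : (1 / 4 : ℝ) • NGram_y NGram_ud ^ 2 + (3 / 4 : ℝ) • 1 -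
      NGram_y NGram_u1 ^ 2 * NGram_y NGram_u2 ^ 2 ∈ NGram_C := by
    have h := add_mem (NGram_smul (a := 1 / 2) (by norm_num) (add_mem
      (NGram_mul (NGram_e NGram_h1) (NGram_y_sq NGram_h2))
      (NGram_mul (NGram_e NGram_h2) (NGram_y_sq NGram_h1))))
      (NGram_smul (a := 1 / 4) (by norm_num) NGram_mix)
    refine (congrArg (· ∈ NGram_C) ?_).mp h
    rw [sub_mul, sub_mul, one_mul, one_mul, mul_comm (NGram_y NGram_u2 ^ 2)]
    module
  have h := NGram_f_nonneg hF (NGram_pow_sub hX hZ hD N)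
  rw [map_sub, sub_nonneg] at h
  refine le_of_eq_of_le ?_ (h.trans_eq ?_)
  · rw [mul_pow, ← pow_mul, ← pow_mul]
    refine Eq.trans ?_ (NGram_walk NGram_u1 (2 * N)
      (NGram_f F ∘ₗ LinearMap.mulRight ℝ (NGram_y NGram_u2 ^ (2 * N)))).symm
    refine sum_congr rfl fun z _ => congrArg _ ?_
    refine Eq.trans ?_ (NGram_walk NGram_u2 (2 * N)
      (NGram_f F ∘ₗ LinearMap.mulLeft ℝ (NGram_T (NGram_u1 z)))).symm
    refine sum_congr rfl fun z' _ => congrArg _ ?_
    rw [LinearMap.comp_apply, LinearMap.mulLeft_apply, ← NGram_T_add, NGram_f_T]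
    simp
  · rw [add_pow, map_sum]
    refine sum_congr rfl fun j _ => ?_
    rw [smul_pow, smul_pow, one_pow, ← pow_mul, smul_mul_smul_comm, mul_one, ← nsmul_eq_mul',
      map_nsmul, map_smul, NGram_walk, nsmul_eq_mul, smul_eq_mul]
    simp only [NGram_f_T, AddMonoidHom.prod_apply, AddMonoidHom.id_apply]
    ring

end

end Pool.Agent.Work.MP_5cb0a4_pr.Z
end

-- merged part: Pool.Agent.Work.MP_5cb0a4_pr.N.Ind
section
-- merged part: Pool.Agent.Work.MP_5cb0a4_pr.N.Ker
section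
open MeasureTheory Finset Filter Topology
open scoped Classical

namespace Pool.Agent.Work.MP_5cb0a4_pr.Z

theorem Kq_symm (G G' : V → V → ℝ) (D : Finset (V × Dir)) (t : V × Dir → ℝ) :
    Kq G G' D t = Kq G' G D t := by
  unfold Kq
  rw [sum_comm]
  exact sum_congr rfl fun e _ => sum_congr rfl fun f _ => by ring

theorem PSD.symm {G G' : V → V → ℝ} {a : ℝ} (h : PSD G G' a) : PSD G' G a := by
  intro D hD t
  rw [Kq_symm]
  exact h D hD t

theorem PSD.mono {G G' : V → V → ℝ} {a a' : ℝ} (h : PSD G G' a) (ha : a ≤ a') : PSD G G' a' := by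
  intro D hD t
  have h1 := mul_le_mul_of_nonneg_right ha (sum_nonneg fun e (_ : e ∈ D) => sq_nonneg (t e))
  linarith only [h1, h, hD, h D hD t]

theorem PSD.congr {G G' H H' : V → V → ℝ} {a : ℝ} (h : PSD G G' a)
    (e : ∀ x y, IsEven x → ¬ IsEven y → H x y = G x y)
    (e' : ∀ x y, IsEven x → ¬ IsEven y → H' x y = G' x y) : PSD H H' a := by
  intro D hD t
  have ho : ∀ f ∈ D, ¬ IsEven (oe f) := fun f hf h' => isEven_add_dv.1 h' (hD f hf)
  have : Kq H H' D t = Kq G G' D t := sum_congr rfl fun x hx => sum_congr rfl fun y hy => by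
    rw [e _ _ (hD x hx) (ho y hy), e' _ _ (hD y hy) (ho x hx)]
  rw [this]
  exact h D hD t

theorem PSD.trunc {G G' : V → V → ℝ} {a : ℝ} (h : PSD G G' a) (ha : 0 ≤ a) (x₀ y₀ : V) :
    PSD (trunc G x₀ y₀) (trunc G' x₀ y₀) a := by
  intro D hD t
  have h1 := h D hD fun e => if e.1 = x₀ ∨ oe e = y₀ then 0 else t e
  have h2 : Kq (Z.trunc G x₀ y₀) (Z.trunc G' x₀ y₀) D t =
      Kq G G' D fun e => if e.1 = x₀ ∨ oe e = y₀ then 0 else t e :=
    sum_congr rfl fun e _ => sum_congr rfl fun f _ => by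
      by_cases a1 : e.1 = x₀ <;> by_cases a2 : oe e = y₀ <;> by_cases a3 : f.1 = x₀ <;>
        by_cases a4 : oe f = y₀ <;> simp [Z.trunc, a1, a2, a3, a4]
  have h3 : ∑ e ∈ D, (if e.1 = x₀ ∨ oe e = y₀ then 0 else t e) ^ 2 ≤ ∑ e ∈ D, t e ^ 2 :=
    sum_le_sum fun e _ => by
      split_ifs
      · simpa using sq_nonneg (t e)
      · exact le_rfl
  rw [h2]
  linarith [mul_le_mul_of_nonneg_left h3 ha]

theorem NKer_hd (g : Fin 3 → ℝ) (d : Dir) : -hd g (dv d) ≤ n1 g := by
  rw [hd, ← sum_neg_distrib]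
  refine sum_le_sum fun i _ => (neg_le_abs _).trans ?_
  rw [abs_mul]
  refine mul_le_of_le_one_right (abs_nonneg _) ?_
  simp only [dv, Pi.single_apply]
  split_ifs <;> simp

/-- Gauge covariance. -/
theorem PSD.gauge {G G' : V → V → ℝ} {a : ℝ} (h : PSD G G' a) (ha : 0 ≤ a) (g : Fin 3 → ℝ)
    {r r' : ℝ} (hr : 0 ≤ r) (hr' : 0 ≤ r') :
    PSD (fun x y => G x y * (r * Real.exp (-hd g (y - x))))
      (fun x y => G' x y * (r' * Real.exp (-hd g (y - x)))) (a * (r * r' * Real.exp (2 * n1 g))) := by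
  intro D hD t
  have h1 := h D hD fun e => t e * Real.exp (-hd g (dv e.2))
  have h2 : Kq (fun x y => G x y * (r * Real.exp (-hd g (y - x))))
      (fun x y => G' x y * (r' * Real.exp (-hd g (y - x)))) D t =
      r * r' * Kq G G' D fun e => t e * Real.exp (-hd g (dv e.2)) := by
    unfold Kq
    rw [mul_sum]
    refine sum_congr rfl fun e _ => ?_
    rw [mul_sum]
    refine sum_congr rfl fun f _ => ?_
    have e1 : -hd g (oe f - e.1) + -hd g (oe e - f.1) = -hd g (dv e.2) + -hd g (dv f.2) := by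
      simp only [hd, oe, Pi.sub_apply, Pi.add_apply, ← sum_neg_distrib, ← sum_add_distrib]
      refine sum_congr rfl fun i _ => ?_
      push_cast
      ring
    have e2 := congrArg Real.exp e1
    rw [Real.exp_add, Real.exp_add] at e2
    beta_reduce
    linear_combination (t e * t f * G e.1 (oe f) * G' f.1 (oe e) * r * r') * e2
  have h3 : ∑ e ∈ D, (t e * Real.exp (-hd g (dv e.2))) ^ 2 ≤
      Real.exp (2 * n1 g) * ∑ e ∈ D, t e ^ 2 := by
    rw [mul_sum]
    refine sum_le_sum fun e _ => ?_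
    rw [mul_pow, mul_comm, ← Real.exp_nat_mul]
    refine mul_le_mul_of_nonneg_right (Real.exp_le_exp.2 ?_) (sq_nonneg _)
    push_cast
    linarith only [NKer_hd g e.2]
  have h4 := mul_nonneg (mul_nonneg hr hr') h1
  have h5 := mul_le_mul_of_nonneg_left h3 (mul_nonneg (mul_nonneg hr hr') ha)
  rw [h2]
  linarith

theorem PSD.lim {ι : Type} {l : Filter ι} [l.NeBot] {F F' : ι → V → V → ℝ} {G G' : V → V → ℝ}
    {b : ι → ℝ} {a : ℝ} (h : ∀ i, PSD (F i) (F' i) (b i))
    (hF : ∀ x y, Tendsto (fun i => F i x y) l (𝓝 (G x y)))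
    (hF' : ∀ x y, Tendsto (fun i => F' i x y) l (𝓝 (G' x y))) (hb : Tendsto b l (𝓝 a)) :
    PSD G G' a := by
  intro D hD t
  refine ge_of_tendsto' (x := l) (f := fun i => Kq (F i) (F' i) D t + b i * ∑ e ∈ D, t e ^ 2) ?_
    fun i => h i D hD t
  exact (tendsto_finsetSum _ fun e _ => tendsto_finsetSum _ fun f _ =>
    ((hF _ _).mul (hF' _ _)).const_mul _).add (hb.mul_const _)

theorem Kq_add (G G' : V → V → ℝ) (D : Finset (V × Dir)) (t : V × Dir → ℝ) :
    Kq (fun x y => G x y + G' x y) (fun x y => G x y + G' x y) D t =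
      Kq G G D t + Kq G' G' D t + 2 * Kq G G' D t := by
  rw [two_mul]
  nth_rewrite 2 [Kq_symm G G']
  simp only [Kq, ← sum_add_distrib]
  exact sum_congr rfl fun e _ => sum_congr rfl fun f _ => by ring

/-- A column of the symmetrised kernel. -/
noncomputable def colK (G G' : V → V → ℝ) (a : ℝ) (f e : V × Dir) : ℝ :=
  (G e.1 (oe f) * G' f.1 (oe e) + G' e.1 (oe f) * G f.1 (oe e)) / 2 + if e = f then a else 0

theorem NKer_symm (G G' : V → V → ℝ) (a : ℝ) (f e : V × Dir) :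
    colK G G' a f e = colK G G' a e f := by
  by_cases h : e = f
  · rw [h]
  · rw [colK, colK, if_neg h, if_neg (Ne.symm h)]
    ring

theorem NKer_form (G G' : V → V → ℝ) (a : ℝ) (D : Finset (V × Dir)) (t : V × Dir → ℝ) :
    Kq G G' D t + a * ∑ e ∈ D, t e ^ 2 = ∑ e ∈ D, ∑ f ∈ D, t e * t f * colK G G' a f e := by
  have h1 : ∀ e ∈ D, ∑ f ∈ D, t e * t f * colK G G' a f e =
      (∑ f ∈ D, t e * t f * (G e.1 (oe f) * G' f.1 (oe e)) +
        ∑ f ∈ D, t e * t f * (G' e.1 (oe f) * G f.1 (oe e))) / 2 + a * t e ^ 2 := fun e he => by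
    have : ∑ f ∈ D, t e * t f * (if e = f then a else 0) = a * t e ^ 2 := by
      simp only [mul_ite, mul_zero, sum_ite_eq, he, if_true]
      ring
    rw [← this, ← sum_add_distrib, sum_div, ← sum_add_distrib]
    refine sum_congr rfl fun f _ => ?_
    rw [colK]
    ring
  rw [sum_congr rfl h1, sum_add_distrib, ← sum_div, sum_add_distrib, ← mul_sum]
  change _ = (Kq G G' D t + Kq G' G D t) / 2 + _
  rw [Kq_symm G' G]
  ring

theorem NKer_push {J α : Type} [Fintype J] (p : J → α) (c : J → ℝ) (F : α → ℝ) :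
    ∑ e ∈ univ.image p, (∑ j, if p j = e then c j else 0) * F e = ∑ j, c j * F (p j) := by
  simp only [sum_mul]
  rw [sum_comm]
  refine sum_congr rfl fun j _ => ?_
  simp only [ite_mul, zero_mul, sum_ite_eq, mem_image_of_mem p (mem_univ j), if_true]

theorem NKer_push2 {J α : Type} [Fintype J] (p : J → α) (c : J → ℝ) (K : α → α → ℝ) :
    ∑ e ∈ univ.image p, ∑ f ∈ univ.image p, (∑ j, if p j = e then c j else 0) *
      (∑ j, if p j = f then c j else 0) * K e f = ∑ j, ∑ j', c j * c j' * K (p j) (p j') := by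
  simp only [mul_assoc, ← mul_sum, NKer_push]

theorem NKer_even {J : Type} [Fintype J] {p : J → V × Dir} (hp : ∀ j, IsEven (p j).1)
    {i : DecidableEq (V × Dir)} : ∀ e ∈ univ.image p, IsEven e.1 := fun e he => by
  obtain ⟨j, -, rfl⟩ := mem_image.1 he
  exact hp j

theorem NKer_psd {G G' : V → V → ℝ} {a : ℝ} (h : PSD G G' a) {J : Type} [Fintype J]
    {p : J → V × Dir} (hp : ∀ j, IsEven (p j).1) (c : J → ℝ) :
    0 ≤ ∑ j, ∑ j', c j * c j' * colK G G' a (p j') (p j) := by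
  rw [← NKer_push2 p c fun e f => colK G G' a f e, ← NKer_form]
  exact h _ (NKer_even hp) _

theorem NKer_dom {H : V → V → ℝ} {a : ℝ} {u : V × Dir → ℝ} (h : Dom H a u) {J : Type} [Fintype J]
    {p : J → V × Dir} (hp : ∀ j, IsEven (p j).1) (c : J → ℝ) :
    (∑ j, c j * u (p j)) ^ 2 ≤ ∑ j, ∑ j', c j * c j' * colK H H a (p j') (p j) := by
  rw [← NKer_push2 p c fun e f => colK H H a f e, ← NKer_form, ← NKer_push p c u]
  exact h _ (NKer_even hp) _

/-- Cauchy-Schwarz for a column. -/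
theorem col_sq {G G' : V → V → ℝ} {a : ℝ} (h : PSD G G' a) {f : V × Dir} (hf : IsEven f.1)
    (D : Finset (V × Dir)) (hD : ∀ e ∈ D, IsEven e.1) (t : V × Dir → ℝ) :
    (∑ e ∈ D, t e * colK G G' a f e) ^ 2 ≤
      (Kq G G' D t + a * ∑ e ∈ D, t e ^ 2) * (G f.1 (oe f) * G' f.1 (oe f) + a) := by
  have e1 : ∑ e : D, t e * colK G G' a f e = ∑ e ∈ D, t e * colK G G' a f e :=
    sum_coe_sort D fun e => t e * colK G G' a f e
  have e2 : ∑ e : D, ∑ e' : D, t e * t e' * colK G G' a e' e =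
      Kq G G' D t + a * ∑ e ∈ D, t e ^ 2 := by
    rw [NKer_form, ← sum_coe_sort D]
    exact sum_congr rfl fun e _ => sum_coe_sort D fun e' => t e * t e' * colK G G' a e' e
  have e3 : colK G G' a f f = G f.1 (oe f) * G' f.1 (oe f) + a := by
    rw [colK, if_pos rfl]
    ring
  have key := discrim_le_zero (a := G f.1 (oe f) * G' f.1 (oe f) + a)
    (b := 2 * ∑ e ∈ D, t e * colK G G' a f e) (c := Kq G G' D t + a * ∑ e ∈ D, t e ^ 2) fun s => by
    have h1 := NKer_psd h (J := Option D) (p := fun j => j.elim f Subtype.val)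
      (fun j => by
        cases j with
        | none => exact hf
        | some e => exact hD e.1 e.2) fun j => j.elim s fun e => t e
    simp only [Fintype.sum_option, Option.elim, sum_add_distrib] at h1
    have e4 : ∑ e : D, s * t e * colK G G' a e f = s * ∑ e ∈ D, t e * colK G G' a f e := by
      rw [← e1, mul_sum]
      exact sum_congr rfl fun e _ => by rw [NKer_symm, mul_assoc]
    have e5 : ∑ e : D, t e * s * colK G G' a f e = s * ∑ e ∈ D, t e * colK G G' a f e := by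
      rw [← e1, mul_sum]
      exact sum_congr rfl fun e _ => by ring
    rw [e2, e3, e4, e5] at h1
    linarith only [h1]
  rw [discrim] at key
  linarith only [key]

theorem NKer_comm3 {I J : Type} [Fintype I] [Fintype J] (f : I → J → J → ℝ) :
    ∑ i, ∑ j, ∑ j', f i j j' = ∑ j, ∑ j', ∑ i, f i j j' := by
  rw [sum_comm]
  exact sum_congr rfl fun _ _ => sum_comm

theorem NKer_tensor {J : Type} [Fintype J] {K K' : J → J → ℝ} (hs : ∀ i j, K i j = K j i)
    {u k : J → ℝ} (hu : ∀ c : J → ℝ, (∑ j, c j * u j) ^ 2 ≤ ∑ j, ∑ j', c j * c j' * K j j')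
    (hk : ∀ c : J → ℝ, (∑ j, c j * k j) ^ 2 ≤ ∑ j, ∑ j', c j * c j' * K' j j') (w : J → ℝ) :
    (∑ j, w j * (u j * k j)) ^ 2 ≤ ∑ j, ∑ j', w j * w j' * (K j j' * K' j j') := by
  obtain ⟨m, v, hv⟩ := Matrix.posSemidef_iff_eq_sum_vecMulVec.1
    (Matrix.PosSemidef.of_dotProduct_mulVec_nonneg (M := Matrix.of K)
      (Matrix.IsHermitian.ext fun i j => hs j i) fun x => by
        refine ((sq_nonneg _).trans (hu x)).trans_eq (sum_congr rfl fun j _ => ?_)
        simp only [Matrix.mulVec, dotProduct, Matrix.of_apply, star_trivial, mul_sum]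
        exact sum_congr rfl fun j' _ => by ring)
  have hv' : ∀ j j', K j j' = ∑ i, v i j * v i j' := fun j j' => by
    have := congrFun (congrFun hv j) j'
    rw [Matrix.sum_apply] at this
    exact this
  calc (∑ j, w j * (u j * k j)) ^ 2 = (∑ j, w j * k j * u j) ^ 2 :=
        congrArg (· ^ 2) (sum_congr rfl fun j _ => by ring)
    _ ≤ ∑ j, ∑ j', w j * k j * (w j' * k j') * K j j' := hu _
    _ = ∑ i, (∑ j, w j * v i j * k j) ^ 2 := by
        simp only [pow_two, sum_mul_sum]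
        rw [NKer_comm3]
        refine sum_congr rfl fun j _ => sum_congr rfl fun j' _ => ?_
        rw [hv', mul_sum]
        exact sum_congr rfl fun i _ => by ring
    _ ≤ ∑ i, ∑ j, ∑ j', w j * v i j * (w j' * v i j') * K' j j' := sum_le_sum fun i _ => hk _
    _ = _ := by
        rw [NKer_comm3]
        refine sum_congr rfl fun j _ => sum_congr rfl fun j' _ => ?_
        rw [hv', sum_mul, mul_sum]
        exact sum_congr rfl fun i _ => by ring

theorem NKer_anti {w : Dir → Dir → ℝ} (hw : ∀ d d', w d d' = -w d' d) (F : Dir → Dir → ℝ) :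
    ∑ d, ∑ d', w d d' * (F d d' - F d' d) = 2 * ∑ d, ∑ d', w d d' * F d d' := by
  have : ∑ d, ∑ d', w d d' * F d' d = -∑ d, ∑ d', w d d' * F d d' := by
    rw [sum_comm, ← sum_neg_distrib]
    refine sum_congr rfl fun d _ => ?_
    rw [← sum_neg_distrib]
    exact sum_congr rfl fun d' _ => by rw [hw, neg_mul]
  simp only [mul_sub, sum_sub_distrib]
  rw [this]
  ring

theorem NKer_loc {w : Dir → Dir → ℝ} (hw : ∀ d d', w d d' = -w d' d) (p : Dir → ℝ) (r r' b : ℝ)
    (d d' : Dir) : ∑ c, ∑ c', w c c' *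
      ((p c * r + if d = c then b else 0) * (p c' * r' + if d' = c' then b else 0)) =
    b * (r' * ∑ c, w d c * p c - r * ∑ c, w d' c * p c) + b ^ 2 * w d d' := by
  have h1 : ∀ c, ∑ c', w c c' *
      ((p c * r + if d = c then b else 0) * (p c' * r' + if d' = c' then b else 0)) =
      (p c * r + if d = c then b else 0) * (r' * ∑ c', w c c' * p c' + b * w c d') := fun c => by
    have : ∑ c', w c c' * (if d' = c' then b else 0) = b * w c d' := by
      simp only [mul_ite, mul_zero, sum_ite_eq, mem_univ, if_true]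
      ring
    rw [← this, mul_sum, ← sum_add_distrib, mul_sum]
    exact sum_congr rfl fun c' _ => by ring
  have h2 : ∑ c, p c * ∑ c', w c c' * p c' = 0 := by
    have := NKer_anti hw fun c c' => p c * p c'
    rw [sum_eq_zero fun c _ => sum_eq_zero fun c' _ => by ring] at this
    have e : ∑ c, p c * ∑ c', w c c' * p c' = ∑ c, ∑ c', w c c' * (p c * p c') :=
      sum_congr rfl fun c _ => by
        rw [mul_sum]
        exact sum_congr rfl fun c' _ => by ring
    linarith only [this, e]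
  have h3 : ∑ c, p c * w c d' = -∑ c, w d' c * p c := by
    rw [← sum_neg_distrib]
    exact sum_congr rfl fun c _ => by rw [hw]; ring
  have h4 : ∑ c, (if d = c then b else 0) * (r' * ∑ c', w c c' * p c' + b * w c d') =
      b * (r' * ∑ c', w d c' * p c' + b * w d d') := by
    simp only [ite_mul, zero_mul, sum_ite_eq, mem_univ, if_true]
  have h5 : ∑ c, p c * r * (r' * ∑ c', w c c' * p c' + b * w c d') =
      r * r' * ∑ c, p c * ∑ c', w c c' * p c' + r * b * ∑ c, p c * w c d' := by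
    rw [mul_sum, mul_sum, ← sum_add_distrib]
    exact sum_congr rfl fun c _ => by ring
  rw [sum_congr rfl fun c _ => h1 c]
  simp only [add_mul, sum_add_distrib]
  rw [h4, h5, h2, h3]
  ring

theorem NKer_diag {w : Dir → Dir → ℝ} (hw : ∀ d d', w d d' = -w d' d) {p : Dir → ℝ} {a C₀ : ℝ}
    (ha : 0 ≤ a) (hC : ∀ d, |p d| ≤ C₀) :
    ∑ d, ∑ d', w d d' * (a * (p d' * ∑ c, w d c * p c - p d * ∑ c, w d' c * p c) + a ^ 2 * w d d') ≤
      (a ^ 2 + 12 * a * C₀ ^ 2) * ∑ d, ∑ d', w d d' ^ 2 := by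
  have h1 := NKer_anti hw fun d d' => p d' * ∑ c, w d c * p c
  have h2 : ∑ d, ∑ d', w d d' * (p d' * ∑ c, w d c * p c) = ∑ d, (∑ c, w d c * p c) ^ 2 :=
    sum_congr rfl fun d _ => by
      rw [pow_two, sum_mul]
      exact sum_congr rfl fun d' _ => by ring
  have h3 : ∑ c, p c ^ 2 ≤ 6 * C₀ ^ 2 := by
    refine (sum_le_card_nsmul _ _ (C₀ ^ 2) fun c _ => ?_).trans_eq (by simp)
    rw [← sq_abs]
    exact pow_le_pow_left₀ (abs_nonneg _) (hC c) 2
  have h4 : ∑ d, (∑ c, w d c * p c) ^ 2 ≤ (∑ d, ∑ d', w d d' ^ 2) * (6 * C₀ ^ 2) := by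
    rw [sum_mul]
    exact sum_le_sum fun d _ => (sum_mul_sq_le_sq_mul_sq _ _ _).trans
      (mul_le_mul_of_nonneg_left h3 (sum_nonneg fun _ _ => sq_nonneg _))
  have h5 : ∑ d, ∑ d', w d d' *
      (a * (p d' * ∑ c, w d c * p c - p d * ∑ c, w d' c * p c) + a ^ 2 * w d d') =
      a * ∑ d, ∑ d', w d d' * (p d' * ∑ c, w d c * p c - p d * ∑ c, w d' c * p c) +
        a ^ 2 * ∑ d, ∑ d', w d d' ^ 2 := by
    rw [mul_sum, mul_sum, ← sum_add_distrib]
    refine sum_congr rfl fun d _ => ?_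
    rw [mul_sum, mul_sum, ← sum_add_distrib]
    exact sum_congr rfl fun d' _ => by ring
  rw [h5, h1, h2]
  linarith only [h4, ha, mul_le_mul_of_nonneg_left h4 ha]

theorem NKer_wedge {X : Type} [Fintype X] {H : V → V → ℝ} {a C₀ : ℝ} (ha : 0 ≤ a)
    {u k : V × Dir → ℝ} (hu : Dom H a u) (hk : Dom H a k) (ε : X → Dir → V × Dir)
    (hev : ∀ x d, IsEven (ε x d).1) (hi : ∀ x d x' c, ε x d = ε x' c → x = x' ∧ d = c)
    (P : X → X → Dir → ℝ) (hP : ∀ x d x' c,
      H (ε x d).1 (oe (ε x' c)) * H (ε x' c).1 (oe (ε x d)) = P x x' c * P x' x d)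
    (hC : ∀ x d, |P x x d| ≤ C₀) :
    ∑ x, ∑ d, ∑ d', (u (ε x d) * k (ε x d') - u (ε x d') * k (ε x d)) ^ 2 ≤
      4 * (a ^ 2 + 12 * a * C₀ ^ 2) := by
  obtain ⟨w, hw⟩ : ∃ w : X → Dir → Dir → ℝ,
      ∀ x d d', u (ε x d) * k (ε x d') - u (ε x d') * k (ε x d) = w x d d' := ⟨_, fun _ _ _ => rfl⟩
  have hw' : ∀ x d d', w x d d' = -w x d' d := fun x d d' => by rw [← hw, ← hw, neg_sub]
  have hK : ∀ x d x' c, colK H H a (ε x' c) (ε x d) =
      P x x' c * P x' x d + if d = c then (if x = x' then a else 0) else 0 := fun x d x' c => by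
    rw [colK, hP, add_self_div_two]
    by_cases h : ε x d = ε x' c
    · rw [if_pos h, if_pos (hi _ _ _ _ h).2, if_pos (hi _ _ _ _ h).1]
    · rw [if_neg h]
      by_cases h1 : d = c
      · rw [if_pos h1, if_neg fun h2 => h (by rw [h1, h2])]
      · rw [if_neg h1]
  have T := NKer_tensor (J := X × Dir × Dir) (fun i j => NKer_symm H H a _ _)
    (NKer_dom hu (p := fun j => ε j.1 j.2.1) fun j => hev _ _)
    (NKer_dom hk (p := fun j => ε j.1 j.2.2) fun j => hev _ _) fun j => w j.1 j.2.1 j.2.2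
  simp only [Fintype.sum_prod_type (α₂ := Dir × Dir), Fintype.sum_prod_type (α₁ := Dir), hK] at T
  simp only [hw]
  have e1 : ∑ x, ∑ d, ∑ d', w x d d' ^ 2 =
      2 * ∑ x, ∑ d, ∑ d', w x d d' * (u (ε x d) * k (ε x d')) := by
    rw [mul_sum]
    refine sum_congr rfl fun x _ => ?_
    rw [← NKer_anti (hw' x) fun d d' => u (ε x d) * k (ε x d')]
    simp only [hw, pow_two]
  have e2 := T.trans (c := (a ^ 2 + 12 * a * C₀ ^ 2) * ∑ x, ∑ d, ∑ d', w x d d' ^ 2) (by
    rw [mul_sum]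
    refine sum_le_sum fun x _ => le_trans (le_of_eq ?_) (NKer_diag (hw' x) ha (hC x))
    refine sum_congr rfl fun d _ => sum_congr rfl fun d' _ => ?_
    simp only [mul_assoc (w x d d'), ← mul_sum]
    refine congrArg _ ?_
    refine (sum_congr rfl fun x' _ => NKer_loc (hw' x') (P x x') (P x' x d) (P x' x d')
      (if x = x' then a else 0) d d').trans ?_
    rw [sum_eq_single x (fun x' _ hx' => by rw [if_neg (Ne.symm hx')]; ring)
      (fun h => absurd (mem_univ x) h), if_pos rfl])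
  have hS : 0 ≤ ∑ x, ∑ d, ∑ d', w x d d' ^ 2 :=
    sum_nonneg fun _ _ => sum_nonneg fun _ _ => sum_nonneg fun _ _ => sq_nonneg _
  have hM : 0 ≤ a ^ 2 + 12 * a * C₀ ^ 2 := by positivity
  by_contra hn
  rw [e1] at e2 hS hn
  linarith only [e2, hM, hn, mul_nonneg_of_nonpos_of_nonpos (Mathlib.Tactic.Linarith.sub_nonpos_of_le hM) (le_of_lt (Mathlib.Tactic.Linarith.sub_neg_of_lt (lt_of_not_ge hn))), mul_pos_of_neg_of_neg (Mathlib.Tactic.Linarith.sub_neg_of_lt (lt_of_not_ge hn)) (Mathlib.Tactic.Linarith.sub_neg_of_lt (lt_of_not_ge hn))]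

/-- The exterior square bound at even vertices (`Matrix.PosSemidef.kronecker`; the blocks of the
kernel have rank one). -/
theorem wedge_even {H : V → V → ℝ} {a C₀ : ℝ} (ha : 0 ≤ a) (h : PSD H H a)
    (hC : ∀ e : V × Dir, IsEven e.1 → |H e.1 (oe e)| ≤ C₀) {u k : V × Dir → ℝ} (hu : Dom H a u)
    (hk : Dom H a k) (X : Finset V) (hX : ∀ x ∈ X, IsEven x) :
    ∑ x ∈ X, ∑ d : Dir, ∑ d' : Dir, (u (x, d) * k (x, d') - u (x, d') * k (x, d)) ^ 2 ≤
      4 * (a ^ 2 + 12 * a * C₀ ^ 2) := by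
  rw [← sum_coe_sort X]
  exact NKer_wedge ha hu hk (fun (x : X) d => (x.1, d)) (fun x _ => hX x.1 x.2)
    (fun x d x' c e => ⟨Subtype.ext (congrArg Prod.fst e), congrArg Prod.snd e⟩)
    (fun x x' c => H x.1 (oe (x'.1, c))) (fun _ _ _ _ => rfl) fun x d => hC (x.1, d) (hX x.1 x.2)

/-- The edge from the odd vertex `y` in direction `d`. -/
def eo (y : V) (d : Dir) : V × Dir := (y + dv d, (d.1, !d.2))

theorem oe_eo (y : V) (d : Dir) : oe (eo y d) = y := by
  rw [oe, eo, dv_not, add_neg_cancel_right]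

/-- The exterior square bound at odd vertices. -/
theorem wedge_odd {H : V → V → ℝ} {a C₀ : ℝ} (ha : 0 ≤ a) (h : PSD H H a)
    (hC : ∀ e : V × Dir, IsEven e.1 → |H e.1 (oe e)| ≤ C₀) {u k : V × Dir → ℝ} (hu : Dom H a u)
    (hk : Dom H a k) (Y : Finset V) (hY : ∀ y ∈ Y, ¬ IsEven y) :
    ∑ y ∈ Y, ∑ d : Dir, ∑ d' : Dir, (u (eo y d) * k (eo y d') - u (eo y d') * k (eo y d)) ^ 2 ≤
      4 * (a ^ 2 + 12 * a * C₀ ^ 2) := by
  rw [← sum_coe_sort Y]
  have hev : ∀ (y : Y) d, IsEven (eo y.1 d).1 := fun y _ => isEven_add_dv.2 (hY y.1 y.2)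
  refine NKer_wedge ha hu hk (fun (y : Y) d => eo y.1 d) hev (fun y d y' c e => ?_)
    (fun y y' c => H (eo y'.1 c).1 y.1) (fun _ _ _ _ => by rw [oe_eo, oe_eo, mul_comm])
    fun y d => ?_
  · have h1 := congrArg oe e
    rw [oe_eo, oe_eo] at h1
    have h2 : y.1 + dv d = y'.1 + dv c := congrArg Prod.fst e
    rw [h1] at h2
    exact ⟨Subtype.ext h1, dv_injective (add_left_cancel h2)⟩
  · have := hC _ (hev y d)
    rwa [oe_eo] at this

end Pool.Agent.Work.MP_5cb0a4_pr.Z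
end

-- merged part: Pool.Agent.Work.MP_5cb0a4_pr.N.Gram
section
open MeasureTheory Finset Filter Topology
open scoped Classical

namespace Pool.Agent.Work.MP_5cb0a4_pr.Z

/-- Return probabilities of the lazy walk. -/
noncomputable def xN (N : ℕ) : ℝ :=
  ∑ j ∈ range (N + 1), (N.choose j : ℝ) * (3 / 4) ^ (N - j) * (1 / 4) ^ j * pk (2 * j) 0

theorem xN_nonneg (N : ℕ) : 0 ≤ xN N :=
  sum_nonneg fun j _ => mul_nonneg (by positivity) (pk_nonneg _ _)

theorem summable_xN : Summable xN := by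
  refine summable_of_sum_range_le (c := 4 * ∑' j, pk (2 * j) 0) xN_nonneg fun M => ?_
  have h1 : ∑ N ∈ range M, xN N = ∑ j ∈ range M, ∑ i ∈ range (M - j),
      ((i + j).choose j : ℝ) * (3 / 4) ^ i * ((1 / 4) ^ j * pk (2 * j) 0) := by
    rw [← sum_range_diag_flip M fun j i =>
      ((i + j).choose j : ℝ) * (3 / 4) ^ i * ((1 / 4) ^ j * pk (2 * j) 0)]
    refine sum_congr rfl fun N _ => sum_congr rfl fun j hj => ?_
    rw [Nat.sub_add_cancel (Nat.lt_succ_iff.1 (mem_range.1 hj)), ← mul_assoc]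
  rw [h1]
  refine le_trans (sum_le_sum fun j _ => ?_) ((mul_sum _ _ _).ge.trans (mul_le_mul_of_nonneg_left
    (Harm_summable.sum_le_tsum (range M) fun j _ => pk_nonneg _ _) (by norm_num)))
  have h2 := hasSum_choose_mul_geometric_of_norm_lt_one (𝕜 := ℝ) j (r := 3 / 4)
    (by rw [Real.norm_eq_abs, abs_of_pos] <;> norm_num)
  have h3 := sum_le_hasSum (range (M - j)) (fun i _ => by positivity) h2
  rw [← sum_mul]
  refine (mul_le_mul_of_nonneg_right h3 (mul_nonneg (by positivity) (pk_nonneg _ _))).trans_eq ?_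
  rw [show (1 : ℝ) - 3 / 4 = 1 / 4 by norm_num, pow_succ]
  field_simp

/-- The kernel with its diagonal between the edges `(0, d)` and `(z, d')`. -/
noncomputable def kG (G : V → ℝ) (d d' : Dir) (z : V) : ℝ :=
  G (z + dv d') * G (dv d - z) + if z = 0 ∧ d = d' then 2 else 0

/-- The smoothed kernel. -/
noncomputable def mK (G : V → ℝ) (N : ℕ) (d d' : Dir) (g : V) : ℝ :=
  ∑ z ∈ box (2 * N), pk (2 * N) z * kG G d d' (z + g)

lemma NGram_kG_symm (G : V → ℝ) (d d' : Dir) (z : V) : kG G d' d (-z) = kG G d d' z := by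
  rw [kG, kG, neg_add_eq_sub, sub_neg_eq_add, add_comm (dv d'), mul_comm]
  simp only [neg_eq_zero, eq_comm (a := d')]

/-- The kernel on the edges at even vertices. -/
noncomputable def NGram_K (G : V → ℝ) :
    Matrix {e : V × Dir // IsEven e.1} {e : V × Dir // IsEven e.1} ℝ :=
  Matrix.of fun e f => kG G e.1.2 f.1.2 (f.1.1 - e.1.1)

lemma NGram_psd {G : V → ℝ} (h : PSD (TG G) (TG G) 2) : (NGram_K G).PosSemidef := by
  refine ⟨Matrix.ext fun e f => ?_, fun x => ?_⟩
  · rw [Matrix.conjTranspose_apply, star_trivial, NGram_K, Matrix.of_apply, Matrix.of_apply,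
      ← NGram_kG_symm, neg_sub]
  have h1 := h (x.support.map (Function.Embedding.subtype _))
    (fun e he => by
      obtain ⟨f, -, rfl⟩ := mem_map.1 he
      exact f.2) fun e => if he : IsEven e.1 then x ⟨e, he⟩ else 0
  refine h1.trans_eq ?_
  simp only [Kq, sum_map, Function.Embedding.coe_subtype, Finsupp.sum, star_trivial, mul_sum]
  rw [← sum_add_distrib]
  refine sum_congr rfl fun e he => ?_
  simp only [dif_pos e.2, NGram_K, Matrix.of_apply, kG, mul_add, add_mul, sum_add_distrib]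
  congr 1
  · refine sum_congr rfl fun f _ => ?_
    rw [dif_pos f.2, TG, TG, oe, oe, add_sub_right_comm,
      show e.1.1 + dv e.1.2 - f.1.1 = dv e.1.2 - (f.1.1 - e.1.1) by abel]
    ring
  · rw [sum_eq_single_of_mem e he fun f _ hf => ?_, if_pos ⟨sub_self _, rfl⟩]
    · ring
    · rw [if_neg fun hh => hf (Subtype.ext (Prod.ext (sub_eq_zero.1 hh.1) hh.2.symm)), mul_zero,
        zero_mul]

/-- The matrix coefficient of the antisymmetric vector. -/
noncomputable def NGram_P (G : V → ℝ) (d d' : Dir) (g : V) (w : V × V) : ℝ :=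
  kG G d d w.1 * kG G d' d' w.2 - kG G d d' (w.1 + g) * kG G d d' (-w.2 + g) -
    kG G d d' (-w.1 + g) * kG G d d' (w.2 + g) + kG G d' d' w.1 * kG G d d w.2

lemma NGram_pd {G : V → ℝ} (h : PSD (TG G) (TG G) 2) (d d' : Dir) {g : V} (hg : IsEven g) :
    NGram_PD (NGram_P G d d' g) := by
  intro I _ c x hx
  let p : I ⊕ I → {e : V × Dir // IsEven e.1} := Sum.elim (fun i => ⟨((x i).1, d), (hx i).1⟩)
    fun i => ⟨((x i).1 + g, d'), isEven_add.2 (iff_of_true (hx i).1 hg)⟩
  let q : I ⊕ I → {e : V × Dir // IsEven e.1} :=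
    Sum.elim (fun i => ⟨((x i).2 + g, d'), isEven_add.2 (iff_of_true (hx i).2 hg)⟩)
      fun i => ⟨((x i).2, d), (hx i).2⟩
  have h1 := (((NGram_psd h).submatrix p).hadamard
    ((NGram_psd h).submatrix q)).dotProduct_mulVec_nonneg (Sum.elim c fun i => -c i)
  refine h1.trans_eq ?_
  simp only [dotProduct, Matrix.mulVec, Fintype.sum_sum_type, star_trivial, Sum.elim_inl,
    Sum.elim_inr, Matrix.hadamard_apply, Matrix.submatrix_apply, NGram_K, Matrix.of_apply, p, q,
    mul_add, mul_sum, ← sum_add_distrib]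
  refine sum_congr rfl fun i _ => sum_congr rfl fun j _ => ?_
  rw [NGram_P, Prod.fst_sub, Prod.snd_sub, ← NGram_kG_symm G d d' (-((x j).2 - (x i).2) + g),
    ← NGram_kG_symm G d d' (-((x j).1 - (x i).1) + g), add_sub_add_right_eq_sub,
    add_sub_add_right_eq_sub, add_sub_right_comm, add_sub_right_comm,
    show (x j).2 - ((x i).2 + g) = -(-((x j).2 - (x i).2) + g) by abel,
    show (x j).1 - ((x i).1 + g) = -(-((x j).1 - (x i).1) + g) by abel]
  ring

lemma NGram_neg (n : ℕ) (φ : V → ℝ) :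
    ∑ z ∈ box n, pk n z * φ (-z) = ∑ z ∈ box n, pk n z * φ z := by
  refine sum_equiv (Equiv.neg V) (fun z => ?_) fun z _ => by
    rw [Equiv.neg_apply, Harm_pk_neg]
  simp only [mem_box, Equiv.neg_apply, Pi.neg_apply]
  exact forall_congr' fun i => by omega

/-- Gram determinants of the smoothed edge vectors at an even vertex (`g = 0`) and at an odd vertex
(`g = dv d - dv d'`): sums of squares in the group algebra of the square of the even lattice. -/
theorem gram {G : V → ℝ} (h0 : ∀ w, 0 ≤ G w) (h1 : ∀ d, G (dv d) ≤ 1) (h : PSD (TG G) (TG G) 2)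
    (N : ℕ) (d d' : Dir) {g : V} (hg : g = 0 ∨ g = dv d - dv d') :
    mK G N d d 0 * mK G N d' d' 0 - mK G N d d' g ^ 2 ≤ 9 * xN N := by
  have hx := xN_nonneg N
  by_cases hd : d = d'
  · subst hd
    obtain rfl : g = 0 := hg.elim id fun h => h.trans (sub_self _)
    linarith only [hx]
  have he : IsEven g := by
    rcases hg with rfl | rfl
    · exact NGram_even_zero
    · rw [sub_eq_add_neg, ← dv_not]
      exact NGram_even_dv _ _
  have h2 := NGram_main (NGram_pd h d d' he) N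
  have e1 : ∑ z ∈ box (2 * N), pk (2 * N) z * ∑ z' ∈ box (2 * N), pk (2 * N) z' *
      NGram_P G d d' g (z, z') = 2 * (mK G N d d 0 * mK G N d' d' 0 - mK G N d d' g ^ 2) := by
    have e2 := NGram_neg (2 * N) fun z => kG G d d' (z + g)
    have e3 : ∀ z, ∑ z' ∈ box (2 * N), pk (2 * N) z' * NGram_P G d d' g (z, z') =
        kG G d d z * mK G N d' d' 0 - kG G d d' (z + g) * mK G N d d' g -
          kG G d d' (-z + g) * mK G N d d' g + kG G d' d' z * mK G N d d 0 := fun z => by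
      simp only [NGram_P, mul_add, mul_sub, sum_add_distrib, sum_sub_distrib, mul_left_comm
        (pk (2 * N) _), ← mul_sum, e2, mK, add_zero]
    simp only [e3, mul_add, mul_sub, sum_add_distrib, sum_sub_distrib, ← mul_assoc, ← sum_mul, e2]
    simp only [mK, add_zero]
    ring
  have e4 : ∀ z, z ≠ 0 → NGram_P G d d' g (z, z) = 0 := fun z hz => by
    simp only [NGram_P, kG, hz, hd, false_and, and_false, if_false, add_zero]
    rcases hg with rfl | rfl
    · rw [add_zero, add_zero, neg_add_eq_sub, sub_neg_eq_add, add_comm (dv d)]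
      ring
    · rw [show z + (dv d - dv d') + dv d' = z + dv d by abel,
        show dv d - (z + (dv d - dv d')) = dv d' - z by abel,
        show -z + (dv d - dv d') + dv d' = dv d - z by abel,
        show dv d - (-z + (dv d - dv d')) = z + dv d' by abel]
      ring
  have e5 : NGram_P G d d' g (0, 0) ≤ 18 := by
    have a1 := mul_le_one₀ (h1 d) (h0 _) (h1 d)
    have a2 := mul_le_one₀ (h1 d') (h0 _) (h1 d')
    simp only [NGram_P, kG, hd, and_false, if_false, add_zero, neg_zero, zero_add, sub_zero,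
      and_self, if_true]
    rcases hg with rfl | rfl
    · rw [zero_add, sub_zero]
      linarith only [a1, a2]
    · rw [sub_add_cancel, sub_sub_cancel]
      linarith only [a1, a2]
  have e6 : ∀ j, ∑ z ∈ box (2 * j), pk (2 * j) z * NGram_P G d d' g (z, z) ≤
      pk (2 * j) 0 * 18 := fun j => by
    rw [sum_eq_single_of_mem 0 (mem_box.2 fun i => by simp) fun z _ hz => by
      rw [e4 z hz, mul_zero]]
    exact mul_le_mul_of_nonneg_left e5 (pk_nonneg _ _)
  have e7 := h2.trans (sum_le_sum fun j _ => mul_le_mul_of_nonneg_left (e6 j) (by positivity))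
  simp only [← mul_assoc, ← sum_mul] at e7
  rw [e1] at e7
  change _ ≤ xN N * 18 at e7
  linarith only [e7]

end Pool.Agent.Work.MP_5cb0a4_pr.Z
end

-- merged part: Pool.Agent.Work.MP_5cb0a4_pr.N.Scale
section
open MeasureTheory Finset Filter Topology
open scoped Classical

namespace Pool.Agent.Work.MP_5cb0a4_pr.Z

theorem mK_nonneg {G : V → ℝ} (h0 : ∀ w, 0 ≤ G w) (N : ℕ) (d d' : Dir) (g : V) :
    0 ≤ mK G N d d' g := by
  refine sum_nonneg fun z _ => mul_nonneg (pk_nonneg _ _) (add_nonneg (mul_nonneg (h0 _) (h0 _)) ?_)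
  split_ifs <;> norm_num

theorem mK_eq (G : V → ℝ) (N : ℕ) (d : Dir) : mK G N d d 0 = mN G N d + 2 * pk (2 * N) 0 := by
  have h : (0 : V) ∈ box (2 * N) := mem_box.2 fun i => by simp
  simp only [mK, mN, kG, add_zero, and_true, mul_add, sum_add_distrib, mul_ite, mul_zero,
    sum_ite_eq', if_pos h, mul_comm (2 : ℝ)]

lemma NScale_W (ψ : V → ℝ) (n : ℕ) :
    ∑ z ∈ box (n + 1), pk (n + 1) z * ψ z = ∑ z ∈ box n, pk n z * Harm_P ψ z := by
  have e : ∀ (φ : V → ℝ) (k : ℕ), ∑ z ∈ box k, pk k z * φ z =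
      Harm_ip φ ((Harm_Q ^ k) (Finsupp.single 0 1)) := fun φ k => by
    rw [Harm_ip_eq _ _ (S := box k)]
    · simp only [Harm_pow_single, sub_zero]
    · intro x hx
      by_contra hb
      exact hx (by rw [Harm_pow_single, sub_zero, pk_eq_zero hb])
  rw [e, e, pow_succ', Module.End.mul_apply, Harm_ip_Q]

lemma NScale_zero (G : V → ℝ) (d d' : Dir) (g : V) : mK G 0 d d' g = kG G d d' g := by
  have h : (0 : V) ∈ box 0 := mem_box.2 fun i => by simp
  simp only [mK, mul_zero, pk, ite_mul, one_mul, zero_mul, sum_ite_eq', if_pos h, zero_add]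

theorem mK_succ (G : V → ℝ) (N : ℕ) (d d' : Dir) (g : V) :
    mK G (N + 1) d d' g = (∑ a : Dir, ∑ a' : Dir, mK G N d d' (g + (dv a - dv a'))) / 36 := by
  rw [mK, show 2 * (N + 1) = 2 * N + 1 + 1 by ring, NScale_W, NScale_W]
  simp only [mK, Harm_P, mul_div_assoc', ← sum_div, mul_sum, div_div]
  rw [sum_comm]
  norm_num only
  congr 1
  refine sum_congr rfl fun a _ => ?_
  rw [sum_comm, ← Harm_sum_neg fun v => ∑ z ∈ box (2 * N), pk (2 * N) z * kG G d d' (z + dv a + v + g)]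
  refine sum_congr rfl fun a' _ => sum_congr rfl fun z _ => ?_
  congr 2
  abel

lemma NScale_ev (a a' : Dir) : IsEven (dv a - dv a') := by
  rw [sub_eq_add_neg, isEven_add, isEven_neg]
  exact iff_of_false (not_isEven_dv a) (not_isEven_dv a')

/-- Positive kernels on even edges. -/
def NScale_P (k : Dir → Dir → V → ℝ) : Prop :=
  ∀ D : Finset (V × Dir), (∀ e ∈ D, IsEven e.1) → ∀ t : V × Dir → ℝ,
    0 ≤ ∑ e ∈ D, ∑ f ∈ D, t e * t f * k e.2 f.2 (f.1 - e.1)

/-- The form between `t` and a translate. -/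
noncomputable def NScale_S (k : Dir → Dir → V → ℝ) (D : Finset (V × Dir)) (t : V × Dir → ℝ)
    (g : V) : ℝ := ∑ e ∈ D, ∑ f ∈ D, t e * t f * k e.2 f.2 (f.1 - e.1 + g)

lemma NScale_fam {k : Dir → Dir → V → ℝ} (h : NScale_P k) {ι : Type} (s : Finset ι)
    (p : ι → V × Dir) (hp : ∀ i ∈ s, IsEven (p i).1) (t : ι → ℝ) :
    0 ≤ ∑ i ∈ s, ∑ j ∈ s, t i * t j * k (p i).2 (p j).2 ((p j).1 - (p i).1) := by
  have key : ∀ φ : V × Dir → ℝ,
      ∑ e ∈ s.image p, (∑ i ∈ s with p i = e, t i) * φ e = ∑ i ∈ s, t i * φ (p i) := fun φ => by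
    rw [← sum_fiberwise_of_maps_to (g := p) (t := s.image p) fun i hi => mem_image_of_mem p hi]
    refine sum_congr rfl fun e _ => ?_
    rw [sum_mul]
    exact sum_congr rfl fun i hi => by rw [(mem_filter.1 hi).2]
  have := h (s.image p) (fun e he => by
    obtain ⟨i, hi, rfl⟩ := mem_image.1 he
    exact hp i hi) fun e => ∑ i ∈ s with p i = e, t i
  simp only [mul_assoc, ← mul_sum] at this ⊢
  rw [key fun e => ∑ f ∈ s.image p, (∑ i ∈ s with p i = f, t i) * k e.2 f.2 (f.1 - e.1)] at this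
  refine this.trans_eq (sum_congr rfl fun i _ => ?_)
  rw [key fun f => k (p i).2 f.2 (f.1 - (p i).1)]

lemma NScale_two {k : Dir → Dir → V → ℝ} (h : NScale_P k) {D : Finset (V × Dir)}
    (hD : ∀ e ∈ D, IsEven e.1) (t : V × Dir → ℝ) {g : V} (hg : IsEven g) :
    NScale_S k D t g + NScale_S k D t (-g) ≤ 2 * NScale_S k D t 0 := by
  have := NScale_fam h ((univ : Finset Bool) ×ˢ D)
    (fun q => (if q.1 then q.2.1 + g else q.2.1, q.2.2)) (fun q hq => by
      have := hD _ (mem_product.1 hq).2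
      dsimp only
      split_ifs
      exacts [isEven_add.2 (iff_of_true this hg), this]) fun q => if q.1 then -t q.2 else t q.2
  simp only [sum_product, Fintype.sum_bool, if_true, Bool.false_eq_true, if_false, sum_add_distrib,
    neg_mul, mul_neg, sum_neg_distrib, add_sub_right_comm, ← sub_sub, sub_add_cancel] at this
  simp only [NScale_S, add_zero, ← sub_eq_add_neg]
  linarith only [this]

lemma NScale_form0 (G : V → ℝ) (D : Finset (V × Dir)) (t : V × Dir → ℝ) :
    Kq (TG G) (TG G) D t + 2 * ∑ e ∈ D, t e ^ 2 =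
      ∑ e ∈ D, ∑ f ∈ D, t e * t f * mK G 0 e.2 f.2 (f.1 - e.1) := by
  simp only [Kq, mul_sum, ← sum_add_distrib, NScale_zero, kG, mul_add, TG, oe]
  refine sum_congr rfl fun e he => ?_
  rw [sum_add_distrib]
  congr 1
  · refine sum_congr rfl fun f _ => ?_
    congr 3 <;> abel
  · rw [sum_eq_single_of_mem e he, if_pos ⟨sub_self _, rfl⟩]
    · ring
    · intro f _ hf
      rw [if_neg fun k => hf (Prod.ext (sub_eq_zero.1 k.1) k.2.symm), mul_zero]

lemma NScale_form (G : V → ℝ) (N : ℕ) (D : Finset (V × Dir)) (t : V × Dir → ℝ) :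
    ∑ e ∈ D, ∑ f ∈ D, t e * t f * mK G (N + 1) e.2 f.2 (f.1 - e.1) =
      (∑ a : Dir, ∑ a' : Dir, NScale_S (mK G N) D t (dv a - dv a')) / 36 := by
  simp only [mK_succ, NScale_S, mul_div_assoc', ← sum_div, mul_sum,
    sum_comm (s := D) (t := (univ : Finset Dir))]

/-- The smoothed kernel is a positive form on translates. -/
theorem mK_psd {G : V → ℝ} (h : PSD (TG G) (TG G) 2) (N : ℕ) (D : Finset (V × Dir))
    (hD : ∀ e ∈ D, IsEven e.1) (t : V × Dir → ℝ) :
    0 ≤ ∑ e ∈ D, ∑ f ∈ D, t e * t f * mK G N e.2 f.2 (f.1 - e.1) := by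
  induction N generalizing D t with
  | zero => exact NScale_form0 G D t ▸ h D hD t
  | succ N ih =>
    rw [NScale_form]
    refine div_nonneg (le_of_le_of_eq (NScale_fam (k := mK G N) ih ((univ : Finset Dir) ×ˢ D)
      (fun q => (q.2.1 + (dv q.1 - e0), q.2.2)) (fun q hq => ?_) fun q => t q.2) ?_) (by norm_num)
    · exact isEven_add.2 (iff_of_true (hD _ (mem_product.1 hq).2) (e0_eq ▸ NScale_ev _ _))
    · simp only [sum_product, NScale_S]
      rw [sum_comm (s := (univ : Finset Dir)) (t := (univ : Finset Dir))]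
      refine sum_congr rfl fun a _ => ?_
      rw [sum_comm]
      refine sum_congr rfl fun a' _ => sum_congr rfl fun e _ => sum_congr rfl fun f _ => ?_
      congr 2
      abel

theorem mK_symm (G : V → ℝ) (N : ℕ) (d d' : Dir) (g : V) :
    mK G N d d' g = mK G N d' d (-g) := by
  induction N generalizing g with
  | zero =>
    simp only [NScale_zero, kG, neg_eq_zero, sub_neg_eq_add, eq_comm (a := d)]
    rw [mul_comm, add_comm g, neg_add_eq_sub]
  | succ N ih =>
    rw [mK_succ, mK_succ, sum_comm]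
    simp only [ih (g + _), neg_add, neg_sub]

/-- The forms decrease. -/
lemma NScale_dec {G : V → ℝ} (h : PSD (TG G) (TG G) 2) (N : ℕ) {D : Finset (V × Dir)}
    (hD : ∀ e ∈ D, IsEven e.1) (t : V × Dir → ℝ) :
    ∑ e ∈ D, ∑ f ∈ D, t e * t f * mK G (N + 1) e.2 f.2 (f.1 - e.1) ≤
      ∑ e ∈ D, ∑ f ∈ D, t e * t f * mK G N e.2 f.2 (f.1 - e.1) := by
  have h1 := sum_le_sum fun a (_ : a ∈ univ) => sum_le_sum fun a' (_ : a' ∈ univ) =>
    NScale_two (mK_psd h N) hD t (NScale_ev a a')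
  simp only [sum_add_distrib, neg_sub, sum_const, card_univ, Fintype.card_prod, Fintype.card_fin,
    Fintype.card_bool, nsmul_eq_mul] at h1
  rw [sum_comm (f := fun a a' => NScale_S (mK G N) D t (dv a' - dv a))] at h1
  have h2 : NScale_S (mK G N) D t 0 =
      ∑ e ∈ D, ∑ f ∈ D, t e * t f * mK G N e.2 f.2 (f.1 - e.1) := by
    simp only [NScale_S, add_zero]
  rw [NScale_form, ← h2]
  push_cast at h1
  linarith only [h1]

lemma NScale_ev0 : IsEven 0 := by simp [IsEven]

lemma NScale_anti {G : V → ℝ} (h : PSD (TG G) (TG G) 2) (d : Dir) :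
    Antitone fun N => mK G N d d 0 :=
  antitone_nat_of_succ_le fun N => by
    simpa using NScale_dec h N (D := {(0, d)}) (by simpa using NScale_ev0) fun _ => 1

lemma NScale_three {G : V → ℝ} (h : PSD (TG G) (TG G) 2) (N : ℕ) (d d' d'' : Dir) {g g' : V}
    (hg : IsEven g) (hg' : IsEven g') (α β γ : ℝ) :
    0 ≤ α ^ 2 * mK G N d d 0 + β ^ 2 * mK G N d' d' 0 + γ ^ 2 * mK G N d'' d'' 0 +
      2 * α * β * mK G N d d' g + 2 * β * γ * mK G N d' d'' g' +
        2 * α * γ * mK G N d d'' (g + g') := by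
  have := NScale_fam (mK_psd h N) univ ![(0, d), (g, d'), (g + g', d'')] (fun i _ => by
    fin_cases i
    exacts [NScale_ev0, hg, isEven_add.2 (iff_of_true hg hg')]) ![α, β, γ]
  simp only [Fin.sum_univ_three, Matrix.cons_val_zero, Matrix.cons_val_one, Matrix.cons_val,
    sub_self, sub_zero, zero_sub, add_sub_cancel_left, sub_add_cancel_left, ← mK_symm] at this
  linarith only [this]

theorem mK_le {G : V → ℝ} (h0 : ∀ w, 0 ≤ G w) (h1 : ∀ d, G (dv d) ≤ 1) (h : PSD (TG G) (TG G) 2)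
    (N : ℕ) (d d' : Dir) {g : V} (hg : IsEven g) : mK G N d d' g ≤ 3 := by
  have e : ∀ c, mK G N c c 0 ≤ 3 := fun c => by
    refine (NScale_anti h c (Nat.zero_le N)).trans ?_
    simp only [NScale_zero, kG, zero_add, sub_zero, and_self, if_true]
    linarith only [h1, h0, h0 (dv c), h1 c, mul_nonneg_of_nonpos_of_nonpos (Mathlib.Tactic.Linarith.sub_nonpos_of_le (h0 (dv c))) (Mathlib.Tactic.Linarith.sub_nonpos_of_le (h1 c))]
  have := NScale_three h N d d' d' hg NScale_ev0 1 (-1) 0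
  linarith only [this, e, e d, e d']

/-- Half the squared distance of the normalised vectors. -/
noncomputable def NScale_D (G : V → ℝ) (N : ℕ) (d d' : Dir) (g : V) : ℝ :=
  1 - mK G N d d' g / (√(mK G N d d 0) * √(mK G N d' d' 0))

lemma NScale_three' {G : V → ℝ} (h : PSD (TG G) (TG G) 2) {N : ℕ} (p : ∀ c, 0 < mK G N c c 0)
    (d d' d'' : Dir) {g g' : V} (hg : IsEven g) (hg' : IsEven g') (α β γ : ℝ) :
    0 ≤ (α + β + γ) ^ 2 - 2 * α * β * NScale_D G N d d' g - 2 * β * γ * NScale_D G N d' d'' g' -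
      2 * α * γ * NScale_D G N d d'' (g + g') := by
  have q : ∀ c, √(mK G N c c 0) ≠ 0 := fun c => (Real.sqrt_pos.2 (p c)).ne'
  have r : ∀ (c : Dir) (x : ℝ), (x / √(mK G N c c 0)) ^ 2 * mK G N c c 0 = x ^ 2 := fun c x => by
    rw [div_pow, Real.sq_sqrt (p c).le, div_mul_cancel₀ _ (p c).ne']
  have := NScale_three h N d d' d'' hg hg' (α / √(mK G N d d 0)) (β / √(mK G N d' d' 0))
    (γ / √(mK G N d'' d'' 0))
  rw [r, r, r] at this
  convert this using 1
  simp only [NScale_D]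
  have q1 := q d
  have q2 := q d'
  have q3 := q d''
  field_simp
  ring

lemma NScale_tri {G : V → ℝ} (h : PSD (TG G) (TG G) 2) {N : ℕ} (p : ∀ c, 0 < mK G N c c 0)
    (d d' d'' : Dir) {g g' : V} (hg : IsEven g) (hg' : IsEven g') :
    NScale_D G N d d'' (g + g') ≤ 2 * NScale_D G N d d' g + 2 * NScale_D G N d' d'' g' := by
  linarith only [h, p, hg, hg', NScale_three' h p d d' d'' hg hg' 1 (-2) 1]

lemma NScale_D0 {G : V → ℝ} (h : PSD (TG G) (TG G) 2) {N : ℕ} (p : ∀ c, 0 < mK G N c c 0)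
    (d d' : Dir) {g : V} (hg : IsEven g) : 0 ≤ NScale_D G N d d' g := by
  linarith only [h, p, hg, NScale_three' h p d d' d' hg NScale_ev0 1 (-1) 0]

lemma NScale_adj {G : V → ℝ} (h0 : ∀ w, 0 ≤ G w) (h1 : ∀ d, G (dv d) ≤ 1) (h : PSD (TG G) (TG G) 2)
    {N : ℕ} (p : ∀ c, 0 < mK G N c c 0) (d d' : Dir) {g : V} (hg : g = 0 ∨ g = dv d - dv d') :
    NScale_D G N d d' g ≤ 9 * xN N / (mK G N d d 0 * mK G N d' d' 0) := by
  have e : IsEven g := by
    rcases hg with rfl | rfl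
    exacts [NScale_ev0, NScale_ev _ _]
  have a := NScale_D0 h p d d' e
  have b := gram h0 h1 h N d d' hg
  have c := mK_nonneg h0 N d d' g
  have q := mul_pos (p d) (p d')
  have r : (mK G N d d' g / (√(mK G N d d 0) * √(mK G N d' d' 0))) ^ 2 *
      (mK G N d d 0 * mK G N d' d' 0) = mK G N d d' g ^ 2 := by
    rw [div_pow, mul_pow, Real.sq_sqrt (p d).le, Real.sq_sqrt (p d').le, div_mul_cancel₀ _ q.ne']
  have s : 0 ≤ mK G N d d' g / (√(mK G N d d 0) * √(mK G N d' d' 0)) := by positivity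
  rw [le_div_iff₀ q]
  unfold NScale_D at a ⊢
  linarith only [b, r, a, s, q, mul_nonneg (mul_nonneg a s) q.le]

/-- One step of the scale. -/
theorem mK_step {G : V → ℝ} (h0 : ∀ w, 0 ≤ G w) (h1 : ∀ d, G (dv d) ≤ 1) (h : PSD (TG G) (TG G) 2)
    (N : ℕ) {m : ℝ} (hm : 0 < m) (hN : ∀ d, m ≤ mK G N d d 0) (d a a' : Dir) :
    mK G N d d 0 - mK G N d d (dv a - dv a') ≤ 144 * xN N / m := by
  have p : ∀ c, 0 < mK G N c c 0 := fun c => hm.trans_le (hN c)
  have x := xN_nonneg N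
  have b : ∀ c, 9 * xN N / (mK G N d d 0 * mK G N c c 0) ≤ 9 * xN N / (mK G N d d 0 * m) :=
    fun c => div_le_div_of_nonneg_left (by positivity) (mul_pos (p d) hm)
      (mul_le_mul_of_nonneg_left (hN c) (p d).le)
  have t1 := NScale_tri h p d a d NScale_ev0 (NScale_ev a d)
  have t2 := NScale_tri h p d a' d (NScale_ev d a') NScale_ev0
  have t3 := NScale_tri h p d d d (NScale_ev a d) (NScale_ev d a')
  have a1 := (NScale_adj h0 h1 h p d a (.inl rfl)).trans (b a)
  have a2 := (NScale_adj h0 h1 h p a d (.inr rfl)).trans (mul_comm (mK G N d d 0) _ ▸ b a)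
  have a3 := (NScale_adj h0 h1 h p d a' (.inr rfl)).trans (b a')
  have a4 := (NScale_adj h0 h1 h p a' d (.inl rfl)).trans (mul_comm (mK G N d d 0) _ ▸ b a')
  rw [zero_add] at t1
  rw [add_zero] at t2
  rw [sub_add_sub_cancel] at t3
  have e : NScale_D G N d d (dv a - dv a') ≤ 16 * (9 * xN N / (mK G N d d 0 * m)) := by linarith only [t1, t2, t3, a1, a2, a3, a4]
  have := mul_le_mul_of_nonneg_left e (p d).le
  rw [NScale_D, Real.mul_self_sqrt (p d).le] at this
  have q := (p d).ne'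
  refine (Eq.trans_le ?_ this).trans_eq ?_
  · field_simp
  · field_simp
    ring

/-- The finite size criterion for long range order. -/
theorem scale_step {m₀ : ℝ} (hm : 0 < m₀) : ∃ N₀ : ℕ, ∀ N₁ ≥ N₀, ∀ G : V → ℝ, (∀ w, 0 ≤ G w) →
    (∀ d, G (dv d) ≤ 1) → PSD (TG G) (TG G) 2 → (∀ d, m₀ ≤ mN G N₁ d) → LRO G := by
  obtain ⟨s, hs⟩ := summable_iff_vanishing_norm.1 summable_xN (m₀ ^ 2 / 576) (by positivity)
  obtain ⟨n₀, hn⟩ := pk_small (ε := m₀ / 8) (by positivity)
  refine ⟨s.sup id + 1, fun N₁ hN G h0 h1 h hG => ?_⟩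
  have tail : ∀ N, 288 / m₀ * ∑ j ∈ Ico N₁ N, xN j ≤ m₀ / 2 := fun N => by
    have := (le_abs_self _).trans (hs (Ico N₁ N) (disjoint_left.2 fun j hj hj' => by
      have := (mem_Ico.1 hj).1
      have : j ≤ s.sup id := le_sup (f := id) hj'
      omega)).le
    refine (mul_le_mul_of_nonneg_left this (by positivity)).trans_eq ?_
    field_simp
    norm_num
  have key : ∀ N, N₁ ≤ N → ∀ d, m₀ - 288 / m₀ * ∑ j ∈ Ico N₁ N, xN j ≤ mK G N d d 0 := by
    intro N hN
    induction N, hN using Nat.le_induction with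
    | base =>
      intro d
      rw [Ico_self, sum_empty, mK_eq]
      linarith only [hG, hG d, pk_nonneg (2 * N₁) 0]
    | succ N hN ih =>
      intro d
      have a := sum_le_sum fun a (_ : a ∈ univ) => sum_le_sum fun a' (_ : a' ∈ univ) =>
        mK_step h0 h1 h N (half_pos hm) (fun c => by linarith only [ih, tail, ih c, tail N]) d a a'
      simp only [sum_sub_distrib, sum_const, card_univ, Fintype.card_prod, Fintype.card_fin,
        Fintype.card_bool, nsmul_eq_mul] at a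
      have e : 144 * xN N / (m₀ / 2) = 288 / m₀ * xN N := by
        field_simp
        ring
      rw [sum_Ico_succ_top hN, mK_succ]
      simp only [zero_add]
      rw [e] at a
      push_cast at a
      linarith only [a, ih, ih d]
  refine ⟨m₀ / 4, by positivity, max N₁ n₀, fun N hN d => ?_⟩
  have a := key N (le_of_max_le_left hN) d
  rw [mK_eq] at a
  linarith only [a, tail, hn, hN, tail N, hn (2 * N) (by have := le_of_max_le_right hN; omega) 0]

/-- A translation invariant positive function below the kernel. -/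
theorem gauge_u {G : V → ℝ} (h0 : ∀ w, 0 ≤ G w) (h1 : ∀ d, G (dv d) ≤ 1)
    (h : PSD (TG G) (TG G) 2) (hl : LRO G) :
    ∃ u : Dir → ℝ, (∀ d, 0 < u d) ∧ Dom (TG G) 2 fun e => u e.2 := by
  obtain ⟨m, hm, N₁, hl⟩ := hl
  have low : ∀ N d, m ≤ mK G N d d 0 := fun N d => by
    refine le_trans ?_ (NScale_anti h d (le_max_left N N₁))
    simp only [mK_eq]
    linarith only [hl, hl _ (le_max_right N N₁) d, pk_nonneg (2 * max N N₁) 0]
  have p : ∀ N c, 0 < mK G N c c 0 := fun N c => hm.trans_le (low N c)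
  have lim : ∀ d, Tendsto (fun N => √(mK G N d d 0)) atTop (𝓝 √(⨅ N, mK G N d d 0)) := fun d =>
    (tendsto_atTop_ciInf (NScale_anti h d) ⟨m, Set.forall_mem_range.2 fun N => low N d⟩).sqrt
  have adj : ∀ (d d' : Dir) {g : V}, g = 0 ∨ g = dv d - dv d' →
      Tendsto (fun N => NScale_D G N d d' g) atTop (𝓝 0) := fun d d' g hg => by
    have t := (summable_xN.tendsto_atTop_zero.const_mul 9).div_const (m * m)
    rw [mul_zero, zero_div] at t
    refine squeeze_zero (fun N => NScale_D0 h (p N) d d' ?_) (fun N => ?_) t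
    · rcases hg with rfl | rfl
      exacts [NScale_ev0, NScale_ev _ _]
    · exact (NScale_adj h0 h1 h (p N) d d' hg).trans (div_le_div_of_nonneg_left
        (mul_nonneg (by norm_num) (xN_nonneg N)) (mul_pos hm hm)
        (mul_le_mul (low N d) (low N d') hm.le (p N d).le))
  have tri : ∀ (d d' d'' : Dir) {g g' : V}, IsEven g → IsEven g' →
      Tendsto (fun N => NScale_D G N d d' g) atTop (𝓝 0) →
      Tendsto (fun N => NScale_D G N d' d'' g') atTop (𝓝 0) →
      Tendsto (fun N => NScale_D G N d d'' (g + g')) atTop (𝓝 0) := fun d d' d'' g g' a b x y => by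
    have t := (x.const_mul 2).add (y.const_mul 2)
    rw [mul_zero, add_zero] at t
    exact squeeze_zero (fun N => NScale_D0 h (p N) d d'' (isEven_add.2 (iff_of_true a b)))
      (fun N => NScale_tri h (p N) d d' d'' a b) t
  let S : AddSubgroup V :=
    { carrier := {g | IsEven g ∧ ∀ d d', Tendsto (fun N => NScale_D G N d d' g) atTop (𝓝 0)}
      zero_mem' := ⟨NScale_ev0, fun d d' => adj d d' (.inl rfl)⟩
      add_mem' := fun a b => ⟨isEven_add.2 (iff_of_true a.1 b.1),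
        fun d d' => tri d d d' a.1 b.1 (a.2 d d) (b.2 d d')⟩
      neg_mem' := fun a => ⟨isEven_neg.2 a.1, fun d d' => (a.2 d' d).congr fun N => by
        rw [NScale_D, NScale_D, mK_symm, mul_comm]⟩ }
  have hd : ∀ a a' : Dir, dv a - dv a' ∈ S := fun a a' => ⟨NScale_ev a a', fun d d' => by
    have t1 := tri d a a' NScale_ev0 (NScale_ev a a') (adj d a (.inl rfl)) (adj a a' (.inr rfl))
    rw [zero_add] at t1
    simpa only [add_zero] using tri d a' d' (NScale_ev a a') NScale_ev0 t1 (adj a' d' (.inl rfl))⟩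
  have hv : ∀ v, IsEven v → v ∈ S := by
    rintro v ⟨k, hk⟩
    rw [Fin.sum_univ_three] at hk
    have : v = k • (dv (0, true) - dv (0, false)) + v 1 • (dv (1, true) - dv (0, true)) +
        v 2 • (dv (2, true) - dv (0, true)) := by
      funext i
      fin_cases i <;> simp [dv]
      omega
    rw [this]
    exact add_mem (add_mem (zsmul_mem (hd _ _) _) (zsmul_mem (hd _ _) _)) (zsmul_mem (hd _ _) _)
  refine ⟨fun d => √(⨅ N, mK G N d d 0),
    fun d => Real.sqrt_pos.2 (hm.trans_le (le_ciInf fun N => low N d)), fun D hD t => ?_⟩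
  have A : Antitone fun N => ∑ e ∈ D, ∑ f ∈ D, t e * t f * mK G N e.2 f.2 (f.1 - e.1) :=
    antitone_nat_of_succ_le fun N => NScale_dec h N hD t
  rw [NScale_form0, pow_two, sum_mul_sum]
  refine le_of_tendsto' (x := atTop) (tendsto_finsetSum _ fun e he =>
    tendsto_finsetSum _ fun f hf => ?_) fun N => A (Nat.zero_le N)
  have ev : IsEven (f.1 - e.1) := by
    rw [sub_eq_add_neg, isEven_add, isEven_neg]
    exact iff_of_true (hD f hf) (hD e he)
  have T := ((((hv _ ev).2 e.2 f.2).const_sub 1).mul ((lim e.2).mul (lim f.2))).const_mul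
    (t e * t f)
  rw [sub_zero, one_mul, mul_mul_mul_comm] at T
  refine T.congr fun N => ?_
  rw [NScale_D, sub_sub_cancel, div_mul_cancel₀ _
    (mul_pos (Real.sqrt_pos.2 (p N _)) (Real.sqrt_pos.2 (p N _))).ne']

end Pool.Agent.Work.MP_5cb0a4_pr.Z
end

-- merged part: Pool.Agent.Work.MP_5cb0a4_pr.N.EL
section
open MeasureTheory Finset Filter Topology
open scoped Classical

namespace Pool.Agent.Work.MP_5cb0a4_pr.Z

theorem NEL_point {c C N p a a' b b' : ℝ} (hc : 0 < c) (hN : 0 < N) (hp : c ≤ p) (ha : c ≤ a)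
    (hb : 0 ≤ b) (hbC : b ≤ C) :
    (b - b') ^ 2 ≤ 8 * N ^ 2 / c ^ 6 * (p ^ 2 / (2 * N) * (a * b' - a' * b)) ^ 2 +
      2 * C ^ 2 / c ^ 2 * (a - a') ^ 2 := by
  have h1 : c ^ 2 * (b - b') ^ 2 ≤ a ^ 2 * (b - b') ^ 2 :=
    mul_le_mul_of_nonneg_right (pow_le_pow_left₀ hc.le ha 2) (sq_nonneg _)
  have h2 : a ^ 2 * (b - b') ^ 2 ≤ 2 * (a * b' - a' * b) ^ 2 + 2 * (b ^ 2 * (a - a') ^ 2) := by
    linarith only [sq_nonneg ((a * b' - a' * b) - (a' - a) * b), sq_nonneg (a * b' - a' * b - (a' - a) * b)]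
  have h3 : b ^ 2 * (a - a') ^ 2 ≤ C ^ 2 * (a - a') ^ 2 :=
    mul_le_mul_of_nonneg_right (pow_le_pow_left₀ hb hbC 2) (sq_nonneg _)
  have h4 : c ^ 4 * (a * b' - a' * b) ^ 2 ≤ p ^ 4 * (a * b' - a' * b) ^ 2 :=
    mul_le_mul_of_nonneg_right (pow_le_pow_left₀ hc.le hp 4) (sq_nonneg _)
  have e : 8 * N ^ 2 / c ^ 6 * (p ^ 2 / (2 * N) * (a * b' - a' * b)) ^ 2 +
      2 * C ^ 2 / c ^ 2 * (a - a') ^ 2 =
      (2 * (p ^ 4 * (a * b' - a' * b) ^ 2) + 2 * c ^ 4 * (C ^ 2 * (a - a') ^ 2)) / c ^ 6 := by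
    field_simp
    ring
  rw [e, le_div_iff₀ (by positivity)]
  have h5 : c ^ 2 * (b - b') ^ 2 ≤ 2 * (a * b' - a' * b) ^ 2 + 2 * (C ^ 2 * (a - a') ^ 2) := by
    linarith only [h1, h2, h3]
  have h6 := mul_le_mul_of_nonneg_left h5 (show (0 : ℝ) ≤ c ^ 4 by positivity)
  linarith only [h4, h6]

theorem NEL_core (b : Prop) {C E c N W : ℝ} (hc : 0 < c) (hN : 0 < N) {K : ℕ} (A B p : V → ℝ)
    (x₀ : V) (F₁ F₂ : Finset V) (h1 : F₁.card ≤ K) (h2 : F₂.card ≤ K) (hA : En b E A)
    (hAc : ∀ y ∉ F₁, (¬ IsEven y ↔ b) → c ≤ A y)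
    (hB : ∀ y, (¬ IsEven y ↔ b) → 0 ≤ B y ∧ B y ≤ C)
    (hp : ∀ x ∉ F₂, (IsEven x ↔ b) → c ≤ p x)
    (hw : ∀ X : Finset V, (∀ x ∈ X, (IsEven x ↔ b) ∧ x ≠ x₀) →
      ∑ x ∈ X, ∑ d : Dir, ∑ d' : Dir, (p x ^ 2 / (2 * N) *
        (A (x + dv d) * B (x + dv d') - A (x + dv d') * B (x + dv d))) ^ 2 ≤ W) :
    En b (8 * N ^ 2 / c ^ 6 * W + 2 * C ^ 2 / c ^ 2 * E + 36 * C ^ 2 * (7 * K + 1)) B := by
  intro Y hY
  set Bad : Finset V := insert x₀ (F₂ ∪ univ.biUnion fun d : Dir => tr (-dv d) F₁) with hBad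
  have hcard : Bad.card ≤ 7 * K + 1 := by
    refine (card_insert_le _ _).trans ?_
    have k1 := card_union_le F₂ (univ.biUnion fun d : Dir => tr (-dv d) F₁)
    have k2 : (univ.biUnion fun d : Dir => tr (-dv d) F₁).card ≤ 6 * K := by
      refine card_biUnion_le.trans ?_
      refine (sum_le_sum fun d _ => (card_tr _ _).le.trans h1).trans ?_
      simp
    omega
  have par : ∀ y ∈ Y, ∀ d : Dir, (¬ IsEven (y + dv d) ↔ b) := fun y hy d => by
    rw [isEven_add_dv, not_not]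
    exact hY y hy
  rw [← sum_filter_add_sum_filter_not Y (fun x => x ∈ Bad)]
  have kb : ∑ y ∈ Y.filter (fun x => x ∈ Bad), ∑ d : Dir, ∑ d' : Dir,
      (B (y + dv d) - B (y + dv d')) ^ 2 ≤ 36 * C ^ 2 * (7 * K + 1) := by
    have k1 : ∀ y ∈ Y.filter (fun x => x ∈ Bad), ∑ d : Dir, ∑ d' : Dir,
        (B (y + dv d) - B (y + dv d')) ^ 2 ≤ 36 * C ^ 2 := fun y hy => by
      have hy' := (mem_filter.1 hy).1
      have k : ∀ d d' : Dir, (B (y + dv d) - B (y + dv d')) ^ 2 ≤ C ^ 2 := fun d d' => by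
        have a1 := hB _ (par y hy' d)
        have a2 := hB _ (par y hy' d')
        exact sq_le_sq' (by linarith only [a1, a2, a1.1, a2.2]) (by linarith only [a1, a2, a1.2, a2.1])
      refine (sum_le_sum fun d _ => sum_le_sum fun d' _ => k d d').trans_eq ?_
      simp only [sum_const, card_univ, Fintype.card_prod, Fintype.card_fin, Fintype.card_bool,
        nsmul_eq_mul]
      push_cast
      ring
    refine (sum_le_sum k1).trans ?_
    rw [sum_const, nsmul_eq_mul, mul_comm]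
    refine mul_le_mul_of_nonneg_left ?_ (by positivity)
    have : (Y.filter (fun x => x ∈ Bad)).card ≤ 7 * K + 1 :=
      (card_le_card fun x hx => (mem_filter.1 hx).2).trans hcard
    exact_mod_cast this
  have hg : ∀ y ∈ Y.filter (fun x => x ∉ Bad), y ∈ Y ∧ y ≠ x₀ ∧ y ∉ F₂ ∧
      ∀ d : Dir, y + dv d ∉ F₁ := fun y hy => by
    obtain ⟨q1, q2⟩ := mem_filter.1 hy
    simp only [hBad, mem_insert, mem_union, mem_biUnion, mem_univ, true_and, mem_tr,
      sub_neg_eq_add, not_or, not_exists] at q2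
    exact ⟨q1, q2.1, q2.2.1, q2.2.2⟩
  have kg : ∑ y ∈ Y.filter (fun x => x ∉ Bad), ∑ d : Dir, ∑ d' : Dir,
      (B (y + dv d) - B (y + dv d')) ^ 2 ≤ 8 * N ^ 2 / c ^ 6 * W + 2 * C ^ 2 / c ^ 2 * E := by
    have k1 := hw (Y.filter fun x => x ∉ Bad) fun x hx => ⟨hY x (hg x hx).1, (hg x hx).2.1⟩
    have k2 := hA (Y.filter fun x => x ∉ Bad) fun x hx => hY x (hg x hx).1
    have k3 := add_le_add
      (mul_le_mul_of_nonneg_left k1 (show (0 : ℝ) ≤ 8 * N ^ 2 / c ^ 6 by positivity))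
      (mul_le_mul_of_nonneg_left k2 (show (0 : ℝ) ≤ 2 * C ^ 2 / c ^ 2 by positivity))
    refine le_trans ?_ k3
    simp only [mul_sum, ← sum_add_distrib]
    refine sum_le_sum fun y hy => sum_le_sum fun d _ => sum_le_sum fun d' _ => ?_
    obtain ⟨q1, -, q3, q4⟩ := hg y hy
    have a1 := hB _ (par y q1 d)
    exact NEL_point hc hN (hp y q3 (hY y q1)) (hAc _ (q4 d) (par y q1 d)) a1.1 a1.2
  linarith only [kb, kg]

theorem NEL_dom {G G' H : V → V → ℝ} {a a' C : ℝ} (ha : 0 < a) (h : PSD G G' a) (hG : Bd C G)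
    (hG' : Bd C G') (hH : ∀ D : Finset (V × Dir), (∀ e ∈ D, IsEven e.1) → ∀ t : V × Dir → ℝ,
      Kq G G' D t + a * ∑ e ∈ D, t e ^ 2 ≤ Kq H H D t + a' * ∑ e ∈ D, t e ^ 2)
    {f : V × Dir} (hf : IsEven f.1) : Dom H a' fun e => colK G G' a f e / √(C ^ 2 + a) := by
  intro D hD t
  have hN : 0 < C ^ 2 + a := by positivity
  have ho : ¬ IsEven (oe f) := by
    rw [oe, isEven_add_dv, not_not]
    exact hf
  have k1 := col_sq h hf D hD t
  have k2 := h D hD t
  have k3 := hH D hD t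
  have b1 := hG _ _ hf ho
  have b2 := hG' _ _ hf ho
  have k4 : G f.1 (oe f) * G' f.1 (oe f) + a ≤ C ^ 2 + a := by
    have := mul_le_mul b1.2 b2.2 b2.1 (b1.1.trans b1.2)
    linarith only [this]
  have e : (∑ e ∈ D, t e * (colK G G' a f e / √(C ^ 2 + a))) ^ 2 =
      (∑ e ∈ D, t e * colK G G' a f e) ^ 2 / (C ^ 2 + a) := by
    simp only [← mul_div_assoc, ← sum_div]
    rw [div_pow, Real.sq_sqrt hN.le]
  rw [e, div_le_iff₀ hN]
  exact k1.trans (mul_le_mul k3 k4 (by linarith only [ha, b1, b2, mul_nonneg b1.1 b2.1]) (k2.trans k3))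

theorem NEL_wedge {N p q a a' b b' : ℝ} (hN : 0 < N) :
    p ^ 2 / (2 * N) * (a * b' - a' * b) =
      (p * a + p * a) / 2 / √N * ((p * b' + q * a') / 2 / √N) -
        (p * a' + p * a') / 2 / √N * ((p * b + q * a) / 2 / √N) := by
  have h1 : √N * √N = N := Real.mul_self_sqrt hN.le
  have h2 : √N ≠ 0 := (Real.sqrt_pos.2 hN).ne'
  generalize √N = s at h1 h2
  subst h1
  field_simp
  ring

/-- The energy lemma: cone `G₀ + G₁`, a column of the kernel of `G₀`, a column of the cross kernel,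
and the exterior square bounds. -/
theorem energy_lemma (C E a : ℝ) {c : ℝ} (hc : 0 < c) (ha : 0 < a) (K : ℕ) :
    ∃ E' : ℝ, ∀ G₀ G₁ : V → V → ℝ, Bd C G₀ → Bd C G₁ → Nice c E K G₀ → PSD G₀ G₀ a →
      PSD G₁ G₁ a → PSD G₀ G₁ a → EnM E' (2 * K) G₁ := by
  refine ⟨8 * (C ^ 2 + a) ^ 2 / c ^ 6 * (4 * ((4 * a) ^ 2 + 12 * (4 * a) * (2 * C) ^ 2)) +
    2 * C ^ 2 / c ^ 2 * E + 36 * C ^ 2 * (7 * K + 1), ?_⟩
  intro G₀ G₁ b0 b1 hn p00 p11 p01
  obtain ⟨F, hF, hrow, hcol⟩ := hn
  have hN : 0 < C ^ 2 + a := by positivity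
  have ha4 : 0 ≤ 4 * a := by positivity
  have hH : PSD (fun x y => G₀ x y + G₁ x y) (fun x y => G₀ x y + G₁ x y) (4 * a) :=
    fun D hD t => by
      rw [Kq_add]
      linarith only [p00, hD, p11, p01, p00 D hD t, p11 D hD t, p01 D hD t]
  have hC : ∀ e : V × Dir, IsEven e.1 → |G₀ e.1 (oe e) + G₁ e.1 (oe e)| ≤ 2 * C := fun e he => by
    have ho : ¬ IsEven (oe e) := by
      rw [oe, isEven_add_dv, not_not]
      exact he
    have q0 := b0 _ _ he ho
    have q1 := b1 _ _ he ho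
    rw [abs_of_nonneg (by linarith only [q0, q1, q0.1, q1.1])]
    linarith only [q0, q1, q0.2, q1.2]
  have du : ∀ f : V × Dir, IsEven f.1 → Dom (fun x y => G₀ x y + G₁ x y) (4 * a)
      fun e => colK G₀ G₀ a f e / √(C ^ 2 + a) := fun f hf =>
    NEL_dom ha p00 b0 b0 (fun D hD t => by
      rw [Kq_add]
      linarith only [p11, hD, p01, p00 D hD t, p11 D hD t, p01 D hD t]) hf
  have dk : ∀ f : V × Dir, IsEven f.1 → Dom (fun x y => G₀ x y + G₁ x y) (4 * a)
      fun e => colK G₀ G₁ a f e / √(C ^ 2 + a) := fun f hf =>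
    NEL_dom ha p01 b0 b1 (fun D hD t => by
      rw [Kq_add]
      linarith only [p00, hD, p11, p01, p00 D hD t, p11 D hD t, p01 D hD t]) hf
  have hout : ∀ z ∉ F ∪ tr (-dv (0, true)) F, z ∉ F ∧ z + dv (0, true) ∉ F := fun z hz => by
    simpa only [mem_union, mem_tr, sub_neg_eq_add, not_or] using hz
  refine ⟨F ∪ tr (-dv (0, true)) F, ?_, fun x₀ hx hev => ?_, fun y₀ hy hodd => ?_⟩
  · have := card_union_le F (tr (-dv (0, true)) F)
    rw [card_tr] at this
    omega
  · obtain ⟨n1, n2⟩ := hout x₀ hx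
    have ho : ¬ IsEven (x₀ + dv (0, true)) := by
      rw [isEven_add_dv, not_not]
      exact hev
    obtain ⟨r1, F₁, c1, r2⟩ := hrow x₀ n1 hev
    obtain ⟨-, F₂, c2, r3⟩ := hcol _ n2 ho
    refine NEL_core True hc hN (G₀ x₀) (G₁ x₀) (fun x => G₀ x (x₀ + dv (0, true))) x₀ F₁ F₂ c1 c2
      r1 (fun y h h' => r2 y h (h'.2 trivial)) (fun y h' => b1 _ _ hev (h'.2 trivial))
      (fun x h h' => r3 x h (h'.2 trivial)) fun X hX => ?_
    have w := wedge_even ha4 hH hC (du (x₀, (0, true)) hev) (dk (x₀, (0, true)) hev) X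
      fun x hx => (hX x hx).1.2 trivial
    refine le_of_eq_of_le (sum_congr rfl fun x hx => sum_congr rfl fun d _ =>
      sum_congr rfl fun d' _ => ?_) w
    have ne : ∀ d : Dir, ((x, d) : V × Dir) ≠ (x₀, (0, true)) := fun d e =>
      (hX x hx).2 (congrArg Prod.fst e)
    simp only [colK, if_neg (ne d), if_neg (ne d'), add_zero, oe]
    rw [NEL_wedge (q := G₁ x (x₀ + dv (0, true))) hN]
  · obtain ⟨n1, n2⟩ := hout y₀ hy
    have hev : IsEven (y₀ + dv (0, true)) := isEven_add_dv.2 hodd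
    obtain ⟨r1, F₁, c1, r2⟩ := hcol y₀ n1 hodd
    obtain ⟨-, F₂, c2, r3⟩ := hrow _ n2 hev
    refine NEL_core False hc hN (fun x => G₀ x y₀) (fun x => G₁ x y₀) (G₀ (y₀ + dv (0, true))) y₀
      F₁ F₂ c1 c2 r1 (fun y h h' => r2 y h (not_not.1 h'.1))
      (fun y h' => b1 _ _ (not_not.1 h'.1) hodd) (fun x h h' => r3 x h h'.1) fun X hX => ?_
    have w := wedge_odd ha4 hH hC (du (eo y₀ (0, true)) hev) (dk (eo y₀ (0, true)) hev) X
      fun x hx => (hX x hx).1.1
    refine le_of_eq_of_le (sum_congr rfl fun x hx => sum_congr rfl fun d _ =>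
      sum_congr rfl fun d' _ => ?_) w
    have ne : ∀ d : Dir, eo x d ≠ eo y₀ (0, true) := fun d e =>
      (hX x hx).2 (by rw [← oe_eo x d, e, oe_eo])
    have e1 : ∀ (y : V) (d : Dir), (eo y d).1 = y + dv d := fun _ _ => rfl
    simp only [colK, if_neg (ne d), if_neg (ne d'), add_zero, oe_eo, e1]
    rw [NEL_wedge (q := G₁ (y₀ + dv (0, true)) x) hN]
    ring

theorem nice_trunc (C E : ℝ) : ∃ E' : ℝ, ∀ (c : ℝ) (K : ℕ) (G : V → V → ℝ) (x₀ y₀ : V), Bd C G →
    Nice c E K G → Nice c E' (K + 2) (trunc G x₀ y₀) := by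
  refine ⟨2 * E + 1000 * C ^ 2, fun c K G x₀ y₀ hb hn => ?_⟩
  obtain ⟨F, hF, hrow, hcol⟩ := hn
  have hbd : ∀ x y, IsEven x → ¬ IsEven y → |trunc G x₀ y₀ x y - G x y| ≤ C := fun x y hx hy => by
    have := hb x y hx hy
    unfold trunc
    split_ifs
    · rw [zero_sub, abs_neg, abs_of_nonneg this.1]
      exact this.2
    · rw [sub_self, abs_zero]
      exact this.1.trans this.2
  refine ⟨insert x₀ (insert y₀ F), ?_, fun x hx hev => ?_, fun y hy hodd => ?_⟩
  · have h1 := card_insert_le x₀ (insert y₀ F)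
    have h2 := card_insert_le y₀ F
    omega
  · simp only [mem_insert, not_or] at hx
    obtain ⟨r1, F', c1, r2⟩ := hrow x hx.2.2 hev
    have e : ∀ y, y ≠ y₀ → trunc G x₀ y₀ x y = G x y := fun y hy =>
      if_neg (not_or.2 ⟨hx.1, hy⟩)
    refine ⟨?_, insert y₀ F', ?_, fun y hy hodd => ?_⟩
    · have := r1.change (ψ := trunc G x₀ y₀ x) (C := C) {y₀}
        (fun y hy _ => e y (by simpa using hy)) fun y hy => hbd x y hev (hy.2 trivial)
      simpa using this
    · have h2 := card_insert_le y₀ F'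
      omega
    · simp only [mem_insert, not_or] at hy
      rw [e y hy.1]
      exact r2 y hy.2 hodd
  · simp only [mem_insert, not_or] at hy
    obtain ⟨r1, F', c1, r2⟩ := hcol y hy.2.2 hodd
    have e : ∀ x, x ≠ x₀ → trunc G x₀ y₀ x y = G x y := fun x hx =>
      if_neg (not_or.2 ⟨hx, hy.2.1⟩)
    refine ⟨?_, insert x₀ F', ?_, fun x hx hev => ?_⟩
    · have := r1.change (ψ := fun x => trunc G x₀ y₀ x y) (C := C) {x₀}
        (fun x hx _ => e x (by simpa using hx)) fun x hx => hbd x y (not_not.1 hx.1) hodd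
      simpa using this
    · have h2 := card_insert_le x₀ F'
      omega
    · simp only [mem_insert, not_or] at hx
      rw [e x hx.1]
      exact r2 x hx.2 hev

theorem Bd.trunc {C : ℝ} {G : V → V → ℝ} (h : Bd C G) (x₀ y₀ : V) : Bd C (trunc G x₀ y₀) := by
  intro x y hx hy
  have := h x y hx hy
  unfold Z.trunc
  split_ifs
  exacts [⟨le_rfl, this.1.trans this.2⟩, this]

/-- Convexity of the energy. -/
theorem NEL_mean {b : Prop} {E : ℝ} (W : Finset V) (hW : 0 < W.card) (g : V → V → ℝ)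
    (h : ∀ y ∈ W, En b E fun x => g x y) : En b E fun x => (∑ y ∈ W, g x y) / W.card := by
  intro Y hY
  have hn : (0 : ℝ) < W.card := Nat.cast_pos.2 hW
  have k : ∀ x x' : V, ((∑ y ∈ W, g x y) / W.card - (∑ y ∈ W, g x' y) / W.card) ^ 2 ≤
      (∑ y ∈ W, (g x y - g x' y) ^ 2) / W.card := fun x x' => by
    rw [← sub_div, ← sum_sub_distrib, div_pow, div_le_div_iff₀ (by positivity) hn]
    have := sq_sum_le_card_mul_sum_sq (s := W) (f := fun y => g x y - g x' y)
    linarith only [this, hn, mul_le_mul_of_nonneg_right this hn.le]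
  refine (sum_le_sum fun z _ => sum_le_sum fun d _ => sum_le_sum fun d' _ => k _ _).trans ?_
  simp only [← sum_div]
  rw [div_le_iff₀ hn]
  have e : ∑ z ∈ Y, ∑ d : Dir, ∑ d' : Dir, ∑ y ∈ W, (g (z + dv d) y - g (z + dv d') y) ^ 2 =
      ∑ y ∈ W, ∑ z ∈ Y, ∑ d : Dir, ∑ d' : Dir, (g (z + dv d) y - g (z + dv d') y) ^ 2 := by
    rw [sum_comm (s := W)]
    refine sum_congr rfl fun z _ => ?_
    rw [sum_comm (s := W)]
    refine sum_congr rfl fun d _ => ?_
    rw [sum_comm (s := W)]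
  rw [e]
  refine (sum_le_sum fun y hy => h y hy Y hY).trans_eq ?_
  rw [sum_const, nsmul_eq_mul, mul_comm]

theorem NEL_half {C E c : ℝ} (hc : 0 < c) {K₀ K K₁ : ℕ} (hK1 : 1 ≤ K)
    (hK : ∀ (b : Prop) (φ : V → ℝ), En b E φ →
      ∀ A' : Finset V, (∀ x ∈ A', ¬ IsEven x ↔ b) → K ≤ A'.card → ∃ F : Finset V,
        F.card ≤ 2 * K ∧ ∀ x ∉ F, (¬ IsEven x ↔ b) → |φ x - (∑ x ∈ A', φ x) / A'.card| ≤ c)
    (h1 : K + K₀ ≤ K₁) (h2 : K₀ * |C| ≤ c * K₁) (b : Prop) (g : V → V → ℝ) (F : Finset V)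
    (hF : F.card ≤ K₀) (hbd : ∀ x y, (IsEven x ↔ b) → (¬ IsEven y ↔ b) → g x y ≤ C)
    (hrow : ∀ x ∉ F, (IsEven x ↔ b) → En b E (g x))
    (hcol : ∀ y ∉ F, (¬ IsEven y ↔ b) → En (¬ b) E fun x => g x y) (U W : Finset V)
    (hU : ∀ x ∈ U, IsEven x ↔ b) (hW : ∀ y ∈ W, ¬ IsEven y ↔ b) (cU : K₁ ≤ U.card)
    (cW : K₁ ≤ W.card) (hs : 4 * c * U.card * W.card ≤ ∑ x ∈ U, ∑ y ∈ W, g x y) :
    ∃ F₁ : Finset V, F₁.card ≤ 2 * K ∧ ∀ x ∉ F, x ∉ F₁ → (IsEven x ↔ b) →
      ∃ F' : Finset V, F'.card ≤ 2 * K ∧ ∀ y ∉ F', (¬ IsEven y ↔ b) → c ≤ g x y := by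
  have c1 : K ≤ (W \ F).card := by
    have := le_card_sdiff F W
    omega
  have c2 : (W \ F).card ≤ W.card := card_le_card sdiff_subset
  have hW' : ∀ y ∈ W \ F, ¬ IsEven y ↔ b := fun y hy => hW y (mem_sdiff.1 hy).1
  have pW : (0 : ℝ) < (W \ F).card := Nat.cast_pos.2 (by omega)
  have pU : (0 : ℝ) < U.card := Nat.cast_pos.2 (by omega)
  have hρ : En (¬ b) E fun x => (∑ y ∈ W \ F, g x y) / (W \ F).card :=
    NEL_mean (W \ F) (by omega) g fun y hy => hcol y (mem_sdiff.1 hy).2 (hW' y hy)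
  obtain ⟨F₁, d1, d2⟩ := hK (¬ b) _ hρ U (fun x hx => not_congr (hU x hx)) (by omega)
  have hm : 3 * c ≤ (∑ x ∈ U, (∑ y ∈ W \ F, g x y) / (W \ F).card) / U.card := by
    rw [le_div_iff₀ pU, ← sum_div, le_div_iff₀ pW]
    have k1 : ∀ x ∈ U, ∑ y ∈ W, g x y ≤ ∑ y ∈ W \ F, g x y + c * W.card := fun x hx => by
      rw [← sum_sdiff (inter_subset_left (s₁ := W) (s₂ := F)), sdiff_inter_self_left]
      have k2 : ∑ y ∈ W ∩ F, g x y ≤ (W ∩ F).card * |C| := by
        rw [← nsmul_eq_mul, ← sum_const]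
        exact sum_le_sum fun y hy =>
          (hbd x y (hU x hx) (hW y (mem_inter.1 hy).1)).trans (le_abs_self C)
      have k3 : ((W ∩ F).card : ℝ) ≤ K₀ :=
        Nat.cast_le.2 ((card_le_card inter_subset_right).trans hF)
      have k4 := mul_le_mul_of_nonneg_right k3 (abs_nonneg C)
      have k5 : c * K₁ ≤ c * W.card := mul_le_mul_of_nonneg_left (Nat.cast_le.2 cW) hc.le
      linarith only [h2, k2, k4, k5]
    have k6 := hs.trans (sum_le_sum k1)
    rw [sum_add_distrib, sum_const, nsmul_eq_mul] at k6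
    have k7 : 3 * c * U.card * (W \ F).card ≤ 3 * c * U.card * W.card :=
      mul_le_mul_of_nonneg_left (Nat.cast_le.2 c2) (by positivity)
    linarith only [k6, k7]
  refine ⟨F₁, d1, fun x hx hx1 hp => ?_⟩
  obtain ⟨F', e1, e2⟩ := hK b _ (hrow x hx hp) (W \ F) hW' c1
  refine ⟨F', e1, fun y hy hq => ?_⟩
  have a1 := abs_le.1 (d2 x hx1 (not_congr hp))
  have a2 := abs_le.1 (e2 y hy hq)
  linarith only [hm, a1, a2, a1.1, a2.1]

/-- Bounded energy and one large mean give lower bounds at most points. -/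
theorem nice_of (C E : ℝ) {c : ℝ} (hc : 0 < c) (K₀ : ℕ) : ∃ K₁ K' : ℕ, ∀ G : V → V → ℝ, Bd C G →
    EnM E K₀ G → ∀ U W : Finset V, (∀ x ∈ U, IsEven x) → (∀ y ∈ W, ¬ IsEven y) → K₁ ≤ U.card →
      K₁ ≤ W.card → 4 * c * U.card * W.card ≤ ∑ x ∈ U, ∑ y ∈ W, G x y → Nice c E K' G := by
  obtain ⟨K, hK1, hK⟩ := En_few E hc
  refine ⟨K + K₀ + ⌈K₀ * |C| / c⌉₊, K₀ + 4 * K, fun G hb hE U W hU hW cU cW hs => ?_⟩
  obtain ⟨F, hF, hrow, hcol⟩ := hE
  have h2 : K₀ * |C| ≤ c * ((K + K₀ + ⌈K₀ * |C| / c⌉₊ : ℕ) : ℝ) := by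
    have k1 := Nat.le_ceil (K₀ * |C| / c)
    rw [div_le_iff₀ hc] at k1
    push_cast
    have k2 : (0 : ℝ) ≤ c * (K + K₀) := by positivity
    linarith only [k1, k2]
  obtain ⟨F₁, c1, r1⟩ := NEL_half hc hK1 hK (Nat.le_add_right _ _) h2 True G F hF
    (fun x y hx hy => (hb x y (hx.2 trivial) (hy.2 trivial)).2)
    (fun x hx hp => hrow x hx (hp.2 trivial))
    (fun y hy hp => (hcol y hy (hp.2 trivial)).iff (by simp)) U W
    (fun x hx => iff_true_intro (hU x hx)) (fun y hy => iff_true_intro (hW y hy)) cU cW hs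
  obtain ⟨F₂, c2, r2⟩ := NEL_half hc hK1 hK (Nat.le_add_right _ _) h2 False (fun y x => G x y) F hF
    (fun y x hy hx => (hb x y (not_not.1 hx.1) hy.1).2)
    (fun y hy hp => hcol y hy hp.1)
    (fun x hx hp => (hrow x hx (not_not.1 hp.1)).iff (by simp)) W U
    (fun y hy => iff_false_intro (hW y hy)) (fun x hx => iff_false_intro (not_not.2 (hU x hx)))
    cW cU (by rw [sum_comm]; linarith only [hs])
  refine ⟨F ∪ (F₁ ∪ F₂), ?_, fun x hx hp => ?_, fun y hy hp => ?_⟩
  · have k1 := card_union_le F (F₁ ∪ F₂)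
    have k2 := card_union_le F₁ F₂
    omega
  · simp only [mem_union, not_or] at hx
    obtain ⟨F', e1, e2⟩ := r1 x hx.1 hx.2.1 (iff_true_intro hp)
    exact ⟨hrow x hx.1 hp, F', by omega, fun y hy hq => e2 y hy (iff_true_intro hq)⟩
  · simp only [mem_union, not_or] at hy
    obtain ⟨F', e1, e2⟩ := r2 y hy.1 hy.2.2 (iff_false_intro hp)
    exact ⟨hcol y hy.1 hp, F', by omega, fun x hx hq => e2 x hx (iff_false_intro (not_not.2 hq))⟩

theorem NEL_avg {ι α : Type} [Fintype ι] [DecidableEq ι] (A : ι → Finset α) (i : ι)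
    (g : (ι → α) → ℝ) : (A i).card * ∑ t ∈ Fintype.piFinset A, g t =
      ∑ t ∈ Fintype.piFinset A, ∑ v ∈ A i, g (Function.update t i v) := by
  have hm : ∀ q ∈ Fintype.piFinset A ×ˢ A i,
      (Function.update q.1 i q.2, q.1 i) ∈ Fintype.piFinset A ×ˢ A i := fun q hq => by
    obtain ⟨h1, h2⟩ := mem_product.1 hq
    refine mem_product.2 ⟨Fintype.mem_piFinset.2 fun j => ?_, Fintype.mem_piFinset.1 h1 i⟩
    rcases eq_or_ne j i with rfl | h
    · simpa using h2
    · simpa [h] using Fintype.mem_piFinset.1 h1 j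
  rw [mul_sum, sum_congr rfl fun t _ => (nsmul_eq_mul _ _).symm.trans (sum_const (g t)).symm,
    ← sum_product', ← sum_product']
  exact sum_nbij' (fun q => (Function.update q.1 i q.2, q.1 i))
    (fun q => (Function.update q.1 i q.2, q.1 i)) hm hm (fun q _ => by simp) (fun q _ => by simp)
    fun q _ => by simp

/-- Exchange of the coordinates in `s`. -/
theorem NEL_swap {ι α : Type} [Fintype ι] [DecidableEq ι] (A A' : ι → Finset α) (s : Finset ι)
    (g : (ι → α) → ℝ) :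
    ∑ t ∈ Fintype.piFinset A, ∑ t' ∈ Fintype.piFinset A', g (s.piecewise t' t) =
      (Fintype.piFinset (s.piecewise A A')).card *
        ∑ u ∈ Fintype.piFinset (s.piecewise A' A), g u := by
  rw [mul_sum, sum_congr rfl fun t _ => (nsmul_eq_mul _ _).symm.trans (sum_const (g t)).symm,
    ← sum_product', ← sum_product']
  refine sum_nbij' (fun q => (s.piecewise q.2 q.1, s.piecewise q.1 q.2))
    (fun q => (s.piecewise q.2 q.1, s.piecewise q.1 q.2)) (fun q hq => ?_) (fun q hq => ?_)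
    (fun q _ => ?_) (fun q _ => ?_) fun q _ => rfl
  · obtain ⟨h1, h2⟩ := mem_product.1 hq
    rw [Fintype.mem_piFinset] at h1 h2
    refine mem_product.2 ⟨Fintype.mem_piFinset.2 fun j => ?_, Fintype.mem_piFinset.2 fun j => ?_⟩ <;>
      by_cases hj : j ∈ s <;> simp [piecewise, hj, h1 j, h2 j]
  · obtain ⟨h1, h2⟩ := mem_product.1 hq
    rw [Fintype.mem_piFinset] at h1 h2
    refine mem_product.2 ⟨Fintype.mem_piFinset.2 fun j => ?_, Fintype.mem_piFinset.2 fun j => ?_⟩
    · by_cases hj : j ∈ s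
      · simpa [piecewise, hj] using h2 j
      · simpa [piecewise, hj] using h1 j
    · by_cases hj : j ∈ s
      · simpa [piecewise, hj] using h1 j
      · simpa [piecewise, hj] using h2 j
  · refine Prod.ext (funext fun j => ?_) (funext fun j => ?_) <;>
      by_cases hj : j ∈ s <;> simp [piecewise, hj]
  · refine Prod.ext (funext fun j => ?_) (funext fun j => ?_) <;>
      by_cases hj : j ∈ s <;> simp [piecewise, hj]

theorem NEL_hyb {ι α : Type} [Fintype ι] [DecidableEq ι] (A A' : ι → Finset α)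
    (F : (ι → α) → ℝ) {ε : ℝ} (hA : ∀ i, 0 < (A i).card) (hA' : ∀ i, 0 < (A' i).card)
    (h : ∀ (s : Finset ι) (i : ι), ∑ t ∈ Fintype.piFinset (s.piecewise A' A), ∑ v ∈ A i,
      ∑ v' ∈ A' i, |F (Function.update t i v) - F (Function.update t i v')| ≤
      ε * (A i).card * (A' i).card * (Fintype.piFinset (s.piecewise A' A)).card) (s : Finset ι) :
    ∑ t ∈ Fintype.piFinset A, ∑ t' ∈ Fintype.piFinset A', |F t - F (s.piecewise t' t)| ≤
      s.card * ε * ((Fintype.piFinset A).card * (Fintype.piFinset A').card) := by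
  induction s using Finset.induction_on with
  | empty => simp
  | insert i s hi ih =>
    have e1 : ∀ (t t' : ι → α) v v', s.piecewise (Function.update t' i v') (Function.update t i v) =
        Function.update (s.piecewise t' t) i v := fun t t' v v' => funext fun j => by
      rcases eq_or_ne j i with rfl | hj
      · simp [hi]
      · simp [piecewise, hj]
    have e2 : ∀ (t t' : ι → α) v v',
        (insert i s).piecewise (Function.update t' i v') (Function.update t i v) =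
        Function.update (s.piecewise t' t) i v' := fun t t' v v' => funext fun j => by
      rcases eq_or_ne j i with rfl | hj
      · simp
      · simp [piecewise, hj]
    have e3 : ((Fintype.piFinset A).card : ℝ) * (Fintype.piFinset A').card =
        (Fintype.piFinset (s.piecewise A A')).card *
          (Fintype.piFinset (s.piecewise A' A)).card := by
      have := NEL_swap A A' s fun _ => 1
      simpa only [sum_const, nsmul_eq_mul, mul_one] using this
    have k1 : ((A i).card : ℝ) * ((A' i).card * ∑ t ∈ Fintype.piFinset A,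
        ∑ t' ∈ Fintype.piFinset A', |F (s.piecewise t' t) - F ((insert i s).piecewise t' t)|) ≤
        (A i).card * ((A' i).card *
          (ε * ((Fintype.piFinset A).card * (Fintype.piFinset A').card))) := by
      rw [mul_sum, sum_congr rfl fun t _ => NEL_avg A' i _, NEL_avg A i]
      simp only [e1, e2]
      rw [sum_congr rfl fun t _ => sum_comm, NEL_swap A A' s fun u => ∑ v ∈ A i, ∑ v' ∈ A' i,
        |F (Function.update u i v) - F (Function.update u i v')|, e3]
      refine (mul_le_mul_of_nonneg_left (h s i) (Nat.cast_nonneg _)).trans_eq ?_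
      ring
    have k2 := le_of_mul_le_mul_left (le_of_mul_le_mul_left k1 (Nat.cast_pos.2 (hA i)))
      (Nat.cast_pos.2 (hA' i))
    refine (sum_le_sum fun t _ => sum_le_sum fun t' _ =>
      abs_sub_le _ (F (s.piecewise t' t)) _).trans ?_
    simp only [sum_add_distrib]
    rw [card_insert_of_notMem hi]
    push_cast
    linarith only [ih, k2]

/-- The hybrid argument. -/
theorem hybrid (ι : Type) [Fintype ι] [DecidableEq ι] (par : ι → Prop) (E C : ℝ) {ε : ℝ}
    (hε : 0 < ε) : ∃ δ : ℝ, 0 < δ ∧ ∃ K₁ : ℕ, ∀ K ≥ K₁, ∀ f : (ι → V) → ℝ,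
      (∀ t, 0 ≤ f t ∧ f t ≤ C) →
      (∀ A : ι → Finset V, (∀ i, (∀ v ∈ A i, IsEven v ↔ par i) ∧ K ≤ (A i).card) → ∀ i,
        (((Fintype.piFinset A).filter fun t =>
          ¬ En (¬ par i) E fun v => f (Function.update t i v)).card : ℝ) ≤
          δ * (Fintype.piFinset A).card) →
      ∀ A A' : ι → Finset V, (∀ i, (∀ v ∈ A i, IsEven v ↔ par i) ∧ K ≤ (A i).card) →
        (∀ i, (∀ v ∈ A' i, IsEven v ↔ par i) ∧ K ≤ (A' i).card) →
        ∑ t ∈ Fintype.piFinset A, ∑ t' ∈ Fintype.piFinset A', |f t - f t'| ≤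
          ε * (Fintype.piFinset A).card * (Fintype.piFinset A').card := by
  set η : ℝ := ε / (2 * (Fintype.card ι + 1)) with hη
  have pη : 0 < η := by positivity
  obtain ⟨K₁, hK1, hK⟩ := En_l1 E C pη
  refine ⟨η / (|C| + 1), by positivity, K₁, fun K hKK f hf hfr A A' hA hA' => ?_⟩
  have key := NEL_hyb A A' f (ε := 2 * η) (fun i => by have := (hA i).2; omega)
    (fun i => by have := (hA' i).2; omega) (fun s i => by
      have hB : ∀ j, (∀ v ∈ s.piecewise A' A j, IsEven v ↔ par j) ∧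
          K ≤ (s.piecewise A' A j).card := fun j => by
        by_cases hj : j ∈ s
        · rw [piecewise_eq_of_mem _ _ _ hj]
          exact hA' j
        · rw [piecewise_eq_of_notMem _ _ _ hj]
          exact hA j
      have hbad := hfr _ hB i
      generalize Fintype.piFinset (s.piecewise A' A) = P at hbad ⊢
      have k1 : ∀ t ∈ P, ∑ v ∈ A i, ∑ v' ∈ A' i,
          |f (Function.update t i v) - f (Function.update t i v')| ≤
          η * (A i).card * (A' i).card + (if ¬ En (¬ par i) E fun v => f (Function.update t i v)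
            then 1 else 0) * (|C| * (A i).card * (A' i).card) := fun t _ => by
        by_cases hg : En (¬ par i) E fun v => f (Function.update t i v)
        · rw [if_neg (not_not.2 hg), zero_mul, add_zero]
          exact hK _ _ hg (fun x _ => hf _) (A i) (A' i) (fun x hx => not_congr ((hA i).1 x hx))
            (fun x hx => not_congr ((hA' i).1 x hx)) (hKK.trans (hA i).2) (hKK.trans (hA' i).2)
        · rw [if_pos hg, one_mul]
          have k2 : ∀ v v', |f (Function.update t i v) - f (Function.update t i v')| ≤ |C| :=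
            fun v v' => by
              have a1 := hf (Function.update t i v)
              have a2 := hf (Function.update t i v')
              have a3 := le_abs_self C
              exact abs_le.2 ⟨by linarith only [a1, a2, a3, a1.1, a2.2], by linarith only [a1, a2, a3, a1.2, a2.1]⟩
          refine (sum_le_sum fun v _ => sum_le_sum fun v' _ => k2 v v').trans ?_
          simp only [sum_const, nsmul_eq_mul]
          have : 0 ≤ η * (A i).card * (A' i).card := by positivity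
          linarith only [this]
      refine (sum_le_sum k1).trans ?_
      rw [sum_add_distrib, sum_const, nsmul_eq_mul, ← sum_mul, sum_boole]
      have k3 := mul_le_mul_of_nonneg_right hbad
        (show (0 : ℝ) ≤ |C| * (A i).card * (A' i).card by positivity)
      have k4 : η / (|C| + 1) * |C| ≤ η := by
        rw [div_mul_eq_mul_div, div_le_iff₀ (by positivity)]
        linarith only [pη]
      have k5 := mul_le_mul_of_nonneg_right k4
        (show (0 : ℝ) ≤ (A i).card * (A' i).card * P.card by positivity)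
      linarith only [k3, k5]) univ
  simp only [piecewise_univ, card_univ] at key
  refine key.trans ?_
  rw [mul_assoc ε]
  refine mul_le_mul_of_nonneg_right ?_ (by positivity)
  rw [hη, mul_div_assoc', mul_div_assoc', div_le_iff₀ (by positivity)]
  linarith only [hε]

end Pool.Agent.Work.MP_5cb0a4_pr.Z
end

-- merged part: Pool.Agent.Work.MP_5cb0a4_pr.N.IndA
section
open MeasureTheory Finset Filter Topology
open scoped Classical

namespace Pool.Agent.Work.MP_5cb0a4_pr.Z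

/-- Insert a value at position `i`. -/
def NInd_ins {α : Type} {j : ℕ} (i : Fin (j + 1)) (u : α) (x : Fin j → α) : Fin (j + 1) → α :=
  Fin.insertNth (α := fun _ => α) i u x

/-- Remove the value at position `i`. -/
def NInd_rem {α : Type} {j : ℕ} (i : Fin (j + 1)) (x : Fin (j + 1) → α) : Fin j → α :=
  fun k => x (i.succAbove k)

theorem NInd_ins_same {α : Type} {j : ℕ} (i : Fin (j + 1)) (u : α) (x : Fin j → α) :
    NInd_ins i u x i = u := by simp [NInd_ins]

theorem NInd_ins_succ {α : Type} {j : ℕ} (i : Fin (j + 1)) (u : α) (x : Fin j → α) (k : Fin j) :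
    NInd_ins i u x (i.succAbove k) = x k := by simp [NInd_ins]

theorem NInd_rem_ins {α : Type} {j : ℕ} (i : Fin (j + 1)) (u : α) (x : Fin j → α) :
    NInd_rem i (NInd_ins i u x) = x := funext fun k => NInd_ins_succ i u x k

theorem NInd_ins_rem {α : Type} {j : ℕ} (i : Fin (j + 1)) (x : Fin (j + 1) → α) :
    NInd_ins i (x i) (NInd_rem i x) = x := Fin.insertNth_self_removeNth i x

theorem NInd_update {α : Type} {j : ℕ} (i : Fin (j + 1)) (u v : α) (x : Fin j → α) :
    Function.update (NInd_ins i u x) i v = NInd_ins i v x :=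
  Fin.update_insertNth (α := fun _ => α) i u v x

theorem NInd_image {j : ℕ} (i : Fin (j + 1)) (u : V) (x : Fin j → V) :
    univ.image (NInd_ins i u x) = insert u (univ.image x) := by
  ext v
  simp only [mem_image, mem_univ, true_and, mem_insert, Fin.exists_iff_succAbove i, NInd_ins_same,
    NInd_ins_succ, eq_comm]

theorem NInd_inj {j : ℕ} (i : Fin (j + 1)) (u : V) (x : Fin j → V) :
    Function.Injective (NInd_ins i u x) ↔ Function.Injective x ∧ u ∉ univ.image x := by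
  constructor
  · intro h
    refine ⟨fun a b e => Fin.succAbove_right_injective (p := i) (h ?_), fun hu => ?_⟩
    · rwa [NInd_ins_succ, NInd_ins_succ]
    · obtain ⟨a, -, e⟩ := mem_image.1 hu
      exact Fin.succAbove_ne i a (h (by rwa [NInd_ins_succ, NInd_ins_same]))
  · rintro ⟨h, hu⟩ a b e
    rcases Fin.eq_self_or_eq_succAbove i a with ha | ⟨a, ha⟩ <;>
      rcases Fin.eq_self_or_eq_succAbove i b with hb | ⟨b, hb⟩
    · exact ha.trans hb.symm
    · rw [ha, hb, NInd_ins_succ, NInd_ins_same] at e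
      exact absurd (mem_image.2 ⟨b, mem_univ _, e.symm⟩) hu
    · rw [ha, hb, NInd_ins_succ, NInd_ins_same] at e
      exact absurd (mem_image.2 ⟨a, mem_univ _, e⟩) hu
    · rw [ha, hb, NInd_ins_succ, NInd_ins_succ] at e
      rw [ha, hb, h e]

theorem NInd_sum_ins {α : Type} {j : ℕ} (i : Fin (j + 1)) (U : Fin (j + 1) → Finset α)
    (f : (Fin (j + 1) → α) → ℝ) : ∑ x ∈ Fintype.piFinset U, f x =
      ∑ x ∈ Fintype.piFinset (NInd_rem i U), ∑ u ∈ U i, f (NInd_ins i u x) := by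
  rw [← sum_product']
  refine sum_nbij' (fun x => (NInd_rem i x, x i)) (fun q => NInd_ins i q.2 q.1) (fun x hx => ?_)
    (fun q hq => ?_) (fun x _ => NInd_ins_rem i x) (fun q _ => ?_) fun x _ => ?_
  · have := Fintype.mem_piFinset.1 hx
    exact mem_product.2 ⟨Fintype.mem_piFinset.2 fun k => this _, this i⟩
  · obtain ⟨h1, h2⟩ := mem_product.1 hq
    refine Fintype.mem_piFinset.2 fun k => ?_
    rcases Fin.eq_self_or_eq_succAbove i k with rfl | ⟨k, rfl⟩
    · rwa [NInd_ins_same]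
    · rw [NInd_ins_succ]
      exact Fintype.mem_piFinset.1 h1 k
  · simp only [NInd_rem_ins, NInd_ins_same]
  · simp only [NInd_ins_rem]

theorem NInd_fsz {j : ℕ} (i : Fin (j + 1)) (U W : Fin (j + 1) → Finset V) :
    fsz U W = fsz (NInd_rem i U) (NInd_rem i W) * ((U i).card * (W i).card) := by
  simp only [fsz, Fin.prod_univ_succAbove _ i, NInd_rem]
  ring

theorem NInd_fsz_nonneg {j : ℕ} (U W : Fin j → Finset V) : 0 ≤ fsz U W :=
  mul_nonneg (prod_nonneg fun _ _ => Nat.cast_nonneg _) (prod_nonneg fun _ _ => Nat.cast_nonneg _)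

theorem NInd_fsz_sum {j : ℕ} (U W : Fin j → Finset V) (a : ℝ) :
    ∑ _x ∈ Fintype.piFinset U, ∑ _y ∈ Fintype.piFinset W, a = a * fsz U W := by
  simp only [sum_const, Fintype.card_piFinset, nsmul_eq_mul, fsz]
  push_cast
  ring

theorem Fam.NInd_mono {j K K' : ℕ} {U W : Fin j → Finset V} (h : Fam K U W) (hK : K' ≤ K) :
    Fam K' U W := fun i => ⟨(h i).1, (h i).2.1, hK.trans (h i).2.2.1, hK.trans (h i).2.2.2⟩

theorem Fam.NInd_rem {j K : ℕ} {U W : Fin (j + 1) → Finset V} (h : Fam K U W) (i : Fin (j + 1)) :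
    Fam K (NInd_rem i U) (NInd_rem i W) := fun _ => h _

theorem Fam.NInd_pos {j K : ℕ} {U W : Fin j → Finset V} (h : Fam K U W) (hK : 1 ≤ K) :
    0 < fsz U W :=
  mul_pos (prod_pos fun i _ => Nat.cast_pos.2 (hK.trans (h i).2.2.1))
    (prod_pos fun i _ => Nat.cast_pos.2 (hK.trans (h i).2.2.2))

/-- The two point function in the background of a pair of tuples. -/
noncomputable def NInd_T {j : ℕ} (G : Finset V → ℝ) (x y : Fin j → V) (u v : V) : ℝ :=
  if (Function.Injective x ∧ u ∉ univ.image x) ∧ (Function.Injective y ∧ v ∉ univ.image y) then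
    G (insert u (univ.image x) ∪ insert v (univ.image y)) else 0

theorem NInd_Gam {j : ℕ} (G : Finset V → ℝ) (i : Fin (j + 1)) (x y : Fin j → V) (u v : V) :
    Gam G (NInd_ins i u x) (NInd_ins i v y) = NInd_T G x y u v := by
  simp only [Gam, NInd_T, NInd_inj, NInd_image]

theorem NInd_T_Gb {j : ℕ} (G : Finset V → ℝ) {x y : Fin j → V} (hx : ∀ i, IsEven (x i))
    (hy : ∀ i, ¬ IsEven (y i)) (ix : Function.Injective x) (iy : Function.Injective y) {u v : V}
    (hu : IsEven u) (hv : ¬ IsEven v) :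
    NInd_T G x y u v = Gb G (univ.image x ∪ univ.image y) u v := by
  have h1 : u ∉ univ.image y := fun h => by
    obtain ⟨i, -, e⟩ := mem_image.1 h
    exact hy i (e ▸ hu)
  have h2 : v ∉ univ.image x := fun h => by
    obtain ⟨i, -, e⟩ := mem_image.1 h
    exact hv (e ▸ hx i)
  simp only [NInd_T, Gb, mem_union, ix, iy, h1, h2, true_and, or_false, false_or]
  by_cases a : u ∈ univ.image x
  · simp only [a, not_true, false_and, true_or, if_true, if_false]
  by_cases b : v ∈ univ.image y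
  · simp only [b, not_true, and_false, or_true, if_true, if_false]
  simp only [a, b, not_false_iff, and_self, or_self, if_true, if_false]
  rw [insert_union, union_insert]

/-- A bound for all sets with at most `n` points. -/
noncomputable def NInd_C (C : ℕ → ℝ) (n : ℕ) : ℝ := ∑ i ∈ range (n + 1), |C i|

theorem NInd_C_nonneg (C : ℕ → ℝ) (n : ℕ) : 0 ≤ NInd_C C n := sum_nonneg fun _ _ => abs_nonneg _

theorem QS.NInd_le {C cs : ℕ → ℝ} {a : ℝ} {G₀ : V → V → ℝ} {G : Finset V → ℝ}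
    (h : QS C cs a G₀ G) {X : Finset V} {n : ℕ} (hX : X.card ≤ n) : G X ≤ NInd_C C n :=
  ((h.bdd X).trans (le_abs_self _)).trans (single_le_sum (f := fun i => |C i|)
    (fun _ _ => abs_nonneg _) (mem_range.2 (by omega)))

theorem NInd_card {j : ℕ} (x y : Fin j → V) : (univ.image x ∪ univ.image y).card ≤ 2 * j := by
  have h1 := card_union_le (univ.image x) (univ.image y)
  have h2 := card_image_le (s := univ) (f := x)
  have h3 := card_image_le (s := univ) (f := y)
  simp only [card_univ, Fintype.card_fin] at h2 h3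
  omega

theorem QS.NInd_Gam_mem {C cs : ℕ → ℝ} {a : ℝ} {G₀ : V → V → ℝ} {G : Finset V → ℝ}
    (h : QS C cs a G₀ G) {j : ℕ} (x y : Fin j → V) :
    0 ≤ Gam G x y ∧ Gam G x y ≤ NInd_C C (2 * j) := by
  unfold Gam
  split_ifs
  exacts [⟨h.nonneg _, h.NInd_le (NInd_card x y)⟩, ⟨le_rfl, NInd_C_nonneg _ _⟩]

theorem QS.NInd_bd {C cs : ℕ → ℝ} {a : ℝ} {G₀ : V → V → ℝ} {G : Finset V → ℝ}
    (h : QS C cs a G₀ G) {j : ℕ} (x y : Fin j → V) :
    Bd (NInd_C C (2 * (j + 1))) (NInd_T G x y) := fun u v _ _ => by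
  rw [← NInd_Gam G 0]
  exact h.NInd_Gam_mem _ _

theorem NInd_bd_mono {C C' : ℝ} {G : V → V → ℝ} (h : Bd C G) (hC : C ≤ C') : Bd C' G :=
  fun x y a b => ⟨(h x y a b).1, (h x y a b).2.trans hC⟩

theorem NInd_C_mono (C : ℕ → ℝ) {n n' : ℕ} (h : n ≤ n') : NInd_C C n ≤ NInd_C C n' :=
  sum_le_sum_of_subset_of_nonneg (range_mono (by omega)) fun _ _ _ => abs_nonneg _

theorem NInd_enm_zero {E : ℝ} (hE : 0 ≤ E) (K : ℕ) : EnM E K fun _ _ => 0 :=
  ⟨∅, by simp, fun _ _ _ Y _ => by simpa using hE, fun _ _ _ Y _ => by simpa using hE⟩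

theorem NInd_enm_mono {E E' : ℝ} {K : ℕ} {G : V → V → ℝ} (h : EnM E K G) (hE : E ≤ E') :
    EnM E' K G := by
  obtain ⟨F, a, b, c⟩ := h
  exact ⟨F, a, fun x p q => (b x p q).mono hE, fun y p q => (c y p q).mono hE⟩

/-- Indicator of a proposition. -/
noncomputable def NInd_i (p : Prop) : ℝ := if p then 1 else 0

theorem NInd_i_pos {p : Prop} (h : p) : NInd_i p = 1 := if_pos h

theorem NInd_i_neg {p : Prop} (h : ¬ p) : NInd_i p = 0 := if_neg h

theorem NInd_i_nonneg (p : Prop) : 0 ≤ NInd_i p := by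
  unfold NInd_i
  split_ifs <;> norm_num

theorem NInd_card_filter {α : Type} (s : Finset α) (p : α → Prop) [DecidablePred p] :
    ((s.filter p).card : ℝ) = ∑ x ∈ s, NInd_i (p x) := by
  rw [← sum_boole]
  exact sum_congr rfl fun x _ => by
    by_cases h : p x
    · rw [if_pos h, NInd_i_pos h]
    · rw [if_neg h, NInd_i_neg h]

/-- Number of pairs of tuples with a property. -/
noncomputable def NInd_cnt {j : ℕ} (U W : Fin j → Finset V)
    (p : (Fin j → V) → (Fin j → V) → Prop) : ℝ :=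
  ∑ x ∈ Fintype.piFinset U, ∑ y ∈ Fintype.piFinset W, NInd_i (p x y)

theorem NInd_cnt_ins {j : ℕ} (i : Fin (j + 1)) (U W : Fin (j + 1) → Finset V)
    (f : (Fin (j + 1) → V) → (Fin (j + 1) → V) → ℝ) :
    ∑ x ∈ Fintype.piFinset U, ∑ y ∈ Fintype.piFinset W, f x y =
      ∑ x ∈ Fintype.piFinset (NInd_rem i U), ∑ y ∈ Fintype.piFinset (NInd_rem i W),
        ∑ u ∈ U i, ∑ v ∈ W i, f (NInd_ins i u x) (NInd_ins i v y) := by
  rw [NInd_sum_ins i]
  refine sum_congr rfl fun x _ => ?_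
  simp only [NInd_sum_ins i W]
  exact sum_comm

theorem NInd_sum_elim {j : ℕ} (A : Fin j ⊕ Fin j → Finset V) (f : (Fin j ⊕ Fin j → V) → ℝ) :
    ∑ t ∈ Fintype.piFinset A, f t = ∑ x ∈ Fintype.piFinset (fun i => A (Sum.inl i)),
      ∑ y ∈ Fintype.piFinset (fun i => A (Sum.inr i)), f (Sum.elim x y) := by
  rw [← sum_product']
  refine sum_nbij' (fun t => (fun i => t (Sum.inl i), fun i => t (Sum.inr i)))
    (fun q => Sum.elim q.1 q.2) (fun x hx => ?_)
    (fun q hq => ?_) (fun x _ => ?_) (fun q _ => rfl) fun x _ => ?_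
  · have := Fintype.mem_piFinset.1 hx
    exact mem_product.2 ⟨Fintype.mem_piFinset.2 fun k => this _,
      Fintype.mem_piFinset.2 fun k => this _⟩
  · obtain ⟨h1, h2⟩ := mem_product.1 hq
    refine Fintype.mem_piFinset.2 fun k => ?_
    rcases k with k | k
    exacts [Fintype.mem_piFinset.1 h1 k, Fintype.mem_piFinset.1 h2 k]
  · funext k
    rcases k with k | k <;> rfl
  · congr 1
    funext k
    rcases k with k | k <;> rfl

theorem NInd_card_elim {j : ℕ} (A : Fin j ⊕ Fin j → Finset V) :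
    ((Fintype.piFinset A).card : ℝ) = fsz (fun i => A (Sum.inl i)) fun i => A (Sum.inr i) := by
  have := NInd_sum_elim A fun _ => 1
  rw [NInd_fsz_sum, one_mul, sum_const, nsmul_eq_mul, mul_one] at this
  exact this

end Pool.Agent.Work.MP_5cb0a4_pr.Z
end

-- merged part: Pool.Agent.Work.MP_5cb0a4_pr.N.Ind
section
open MeasureTheory Finset Filter Topology
open scoped Classical

namespace Pool.Agent.Work.MP_5cb0a4_pr.Z

/-- A property holds for most pairs of tuples, uniformly in the state. -/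
def NInd_Most (C cs : ℕ → ℝ) (a : ℝ) (G₀ : V → V → ℝ) (j : ℕ)
    (p : (Finset V → ℝ) → (Fin j → V) → (Fin j → V) → Prop) : Prop :=
  ∀ δ : ℝ, 0 < δ → ∃ K : ℕ, ∀ G, QS C cs a G₀ G → ∀ U W : Fin j → Finset V, Fam K U W →
    NInd_cnt U W (fun x y => ¬ p G x y) ≤ δ * fsz U W

theorem NInd_few (A F : Finset V) (p : V → Prop) (h : ∀ u ∈ A, u ∉ F → ¬ p u) :
    ∑ u ∈ A, NInd_i (p u) ≤ F.card := by
  rw [← NInd_card_filter]
  exact Nat.cast_le.2 (card_le_card fun u hu => by
    by_contra hn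
    exact h u (mem_filter.1 hu).1 hn (mem_filter.1 hu).2)

theorem NInd_ind_le (A : Finset V) (p : V → Prop) :
    ∑ u ∈ A, NInd_i (p u) ≤ A.card := by
  rw [← NInd_card_filter]
  exact Nat.cast_le.2 (card_filter_le _ _)

section

variable {C cs : ℕ → ℝ} {a : ℝ} {G₀ : V → V → ℝ}

/-- Counting with one more pair. -/
theorem NInd_more {j : ℕ} (i : Fin (j + 1)) (U W : Fin (j + 1) → Finset V)
    (f : (Fin (j + 1) → V) → (Fin (j + 1) → V) → ℝ) (p : (Fin j → V) → (Fin j → V) → Prop)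
    {δ δ' : ℝ} (hp : NInd_cnt (NInd_rem i U) (NInd_rem i W) p ≤
      δ * fsz (NInd_rem i U) (NInd_rem i W))
    (h : ∀ x ∈ Fintype.piFinset (NInd_rem i U), ∀ y ∈ Fintype.piFinset (NInd_rem i W),
      ∑ u ∈ U i, ∑ v ∈ W i, f (NInd_ins i u x) (NInd_ins i v y) ≤
        (δ' + NInd_i (p x y)) * (((U i).card : ℝ) * (W i).card)) :
    ∑ x ∈ Fintype.piFinset U, ∑ y ∈ Fintype.piFinset W, f x y ≤ (δ' + δ) * fsz U W := by
  rw [NInd_cnt_ins i, NInd_fsz i]
  refine (sum_le_sum fun x hx => sum_le_sum fun y hy => h x hx y hy).trans ?_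
  simp only [← sum_mul, sum_add_distrib]
  rw [NInd_fsz_sum]
  have h0 : (0 : ℝ) ≤ ((U i).card : ℝ) * (W i).card := by positivity
  have : NInd_cnt (NInd_rem i U) (NInd_rem i W) p = ∑ x ∈ Fintype.piFinset (NInd_rem i U),
    ∑ y ∈ Fintype.piFinset (NInd_rem i W), NInd_i (p x y) := rfl
  rw [← this]
  linarith only [hp, h0, mul_le_mul_of_nonneg_right hp h0]

theorem NInd_close {j K₀ : ℕ} {E : ℝ}
    (hE : NInd_Most C cs a G₀ j fun G x y => EnM E K₀ (NInd_T G x y)) {ε : ℝ} (hε : 0 < ε) :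
    ∃ K : ℕ, ∀ G, QS C cs a G₀ G → ∀ U W U' W' : Fin (j + 1) → Finset V, Fam K U W → Fam K U' W' →
      ∑ x ∈ Fintype.piFinset U, ∑ y ∈ Fintype.piFinset W, ∑ x' ∈ Fintype.piFinset U',
        ∑ y' ∈ Fintype.piFinset W', |Gam G x y - Gam G x' y'| ≤ ε * fsz U W * fsz U' W' := by
  obtain ⟨δ, hδ, K₁, hyb⟩ := hybrid (Fin (j + 1) ⊕ Fin (j + 1))
    (Sum.elim (fun _ => True) fun _ => False) E (NInd_C C (2 * (j + 1))) hε
  obtain ⟨K₂, h₂⟩ := hE (δ / 2) (by positivity)
  obtain ⟨K₃, h₃⟩ := exists_nat_ge (K₀ / (δ / 2))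
  rw [div_le_iff₀ (by positivity)] at h₃
  refine ⟨K₁ + K₂ + K₃, fun G hG U W U' W' hU hU' => ?_⟩
  have fam : ∀ U W : Fin (j + 1) → Finset V, Fam (K₁ + K₂ + K₃) U W →
      ∀ i : Fin (j + 1) ⊕ Fin (j + 1), (∀ v ∈ Sum.elim U W i, IsEven v ↔
        Sum.elim (fun _ => True) (fun _ => False) i) ∧ K₁ + K₂ + K₃ ≤ (Sum.elim U W i).card := by
    rintro U W h (i | i)
    · exact ⟨fun v hv => iff_true_intro ((h i).1 v hv), (h i).2.2.1⟩
    · exact ⟨fun v hv => iff_false_intro ((h i).2.1 v hv), (h i).2.2.2⟩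
  have key := hyb (K₁ + K₂ + K₃) (by omega)
    (fun t => Gam G (fun i => t (Sum.inl i)) fun i => t (Sum.inr i))
    (fun t => hG.NInd_Gam_mem _ _) (fun A hA i => ?_) (Sum.elim U W) (Sum.elim U' W') (fam U W hU)
    (fam U' W' hU')
  · rw [NInd_card_elim, NInd_card_elim, NInd_sum_elim] at key
    simp only [NInd_sum_elim (Sum.elim U' W')] at key
    exact key
  have hF : Fam (K₁ + K₂ + K₃) (fun i => A (Sum.inl i)) fun i => A (Sum.inr i) := fun i =>
    ⟨fun v hv => ((hA (Sum.inl i)).1 v hv).2 trivial, fun v hv => ((hA (Sum.inr i)).1 v hv).1,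
      (hA (Sum.inl i)).2, (hA (Sum.inr i)).2⟩
  rw [NInd_card_filter, NInd_sum_elim, NInd_card_elim, ← add_halves δ]
  have hK : ∀ i, (K₀ : ℝ) ≤ δ / 2 * (A i).card := fun i => by
    have h1 : (K₃ : ℝ) ≤ (A i).card := Nat.cast_le.2 (by have := (hA i).2; omega)
    linarith only [h₃, hδ, h1, mul_nonneg_of_nonpos_of_nonpos (le_of_lt (Mathlib.Tactic.Linarith.sub_neg_of_lt hδ)) (Mathlib.Tactic.Linarith.sub_nonpos_of_le h1)]
  rcases i with i | i
  · refine NInd_more i _ _ _ _ (h₂ G hG _ _ ((hF.NInd_rem i).NInd_mono (by omega)))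
      fun x _ y _ => ?_
    simp only [Sum.update_elim_inl, Sum.elim_inl, Sum.elim_inr]
    simp only [NInd_update, NInd_Gam]
    rw [sum_comm, sum_comm, sum_const, nsmul_eq_mul]
    have c1 : (0 : ℝ) ≤ (A (Sum.inl i)).card := Nat.cast_nonneg _
    have c2 : (0 : ℝ) ≤ (A (Sum.inr i)).card := Nat.cast_nonneg _
    by_cases h : EnM E K₀ (NInd_T G x y)
    · obtain ⟨F, f1, -, f2⟩ := id h
      have h4 := NInd_few (A (Sum.inr i)) F (fun v => ¬ En (¬ True) E fun u => NInd_T G x y u v)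
        fun v hv hF' => not_not.2 ((f2 v hF' ((hF i).2.1 v hv)).iff (by simp))
      have h5 : (F.card : ℝ) ≤ K₀ := Nat.cast_le.2 f1
      rw [NInd_i_neg (not_not.2 h)]
      linarith only [h4, h5, hK, c1, mul_le_mul_of_nonneg_left (h4.trans (h5.trans (hK (Sum.inr i)))) c1]
    · have h4 := NInd_ind_le (A (Sum.inr i)) fun v => ¬ En (¬ True) E fun u => NInd_T G x y u v
      rw [NInd_i_pos h]
      refine (mul_le_mul_of_nonneg_left h4 c1).trans ?_
      linarith only [hδ, c1, c2, mul_nonneg hδ.le (mul_nonneg c1 c2)]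
  · refine NInd_more i _ _ _ _ (h₂ G hG _ _ ((hF.NInd_rem i).NInd_mono (by omega)))
      fun x _ y _ => ?_
    simp only [Sum.update_elim_inr, Sum.elim_inl, Sum.elim_inr]
    simp only [NInd_update, NInd_Gam]
    rw [sum_comm, sum_const, nsmul_eq_mul]
    have c1 : (0 : ℝ) ≤ (A (Sum.inl i)).card := Nat.cast_nonneg _
    have c2 : (0 : ℝ) ≤ (A (Sum.inr i)).card := Nat.cast_nonneg _
    by_cases h : EnM E K₀ (NInd_T G x y)
    · obtain ⟨F, f1, f2, -⟩ := id h
      have h4 := NInd_few (A (Sum.inl i)) F (fun u => ¬ En (¬ False) E fun v => NInd_T G x y u v)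
        fun v hv hF' => not_not.2 ((f2 v hF' ((hF i).1 v hv)).iff (by simp))
      have h5 : (F.card : ℝ) ≤ K₀ := Nat.cast_le.2 f1
      rw [NInd_i_neg (not_not.2 h)]
      linarith only [h4, h5, hK, c2, mul_le_mul_of_nonneg_left (h4.trans (h5.trans (hK (Sum.inl i)))) c2]
    · have h4 := NInd_ind_le (A (Sum.inl i)) fun u => ¬ En (¬ False) E fun v => NInd_T G x y u v
      rw [NInd_i_pos h]
      refine (mul_le_mul_of_nonneg_left h4 c2).trans ?_
      linarith only [hδ, c1, c2, mul_nonneg hδ.le (mul_nonneg c1 c2)]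

theorem NInd_good {j K₀ : ℕ} {E : ℝ} (hcs : 0 < cs (j + 1))
    (hE : NInd_Most C cs a G₀ j fun G x y => EnM E K₀ (NInd_T G x y)) :
    NInd_Most C cs a G₀ (j + 1) fun G x y => cs (j + 1) / 2 ≤ Gam G x y := by
  intro δ hδ
  obtain ⟨K, hK⟩ := NInd_close hE (ε := δ * (cs (j + 1) / 2)) (by positivity)
  refine ⟨K, fun G hG U W hU => ?_⟩
  obtain ⟨U', W', hU', hr⟩ := hG.ref (j + 1) (K + 1)
  have key := hK G hG U W U' W' hU (hU'.NInd_mono (by omega))
  have hp := hU'.NInd_pos (by omega)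
  have h1 : NInd_cnt U W (fun x y => ¬ cs (j + 1) / 2 ≤ Gam G x y) * (cs (j + 1) / 2 * fsz U' W') ≤
      δ * fsz U W * (cs (j + 1) / 2 * fsz U' W') := by
    refine le_trans ?_ (key.trans_eq (by ring))
    simp only [NInd_cnt, sum_mul]
    refine sum_le_sum fun x _ => sum_le_sum fun y _ => ?_
    by_cases h : cs (j + 1) / 2 ≤ Gam G x y
    · rw [NInd_i_neg (not_not.2 h), zero_mul]
      exact sum_nonneg fun _ _ => sum_nonneg fun _ _ => abs_nonneg _
    · rw [NInd_i_pos h]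
      have h2 : ∑ x' ∈ Fintype.piFinset U', ∑ y' ∈ Fintype.piFinset W',
          (Gam G x' y' - cs (j + 1) / 2) ≤ ∑ x' ∈ Fintype.piFinset U',
          ∑ y' ∈ Fintype.piFinset W', |Gam G x y - Gam G x' y'| :=
        sum_le_sum fun x' _ => sum_le_sum fun y' _ => by
          linarith only [h, neg_abs_le (Gam G x y - Gam G x' y'), not_le.1 h]
      simp only [sum_sub_distrib] at h2
      rw [NInd_fsz_sum] at h2
      linarith only [hr, h2]
  exact le_of_mul_le_mul_right h1 (by positivity)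

theorem NInd_nice {j K₀ : ℕ} {E c : ℝ} (hc : 0 < c)
    (hE : NInd_Most C cs a G₀ j fun G x y => EnM E K₀ (NInd_T G x y))
    (hg : NInd_Most C cs a G₀ (j + 1) fun G x y => c ≤ Gam G x y) :
    ∃ K', NInd_Most C cs a G₀ j fun G x y => Nice (c / 8) E K' (NInd_T G x y) := by
  obtain ⟨K₁, K', hn⟩ := nice_of (NInd_C C (2 * (j + 1))) E (c := c / 8) (by positivity) K₀
  refine ⟨K', fun δ hδ => ?_⟩
  obtain ⟨K₂, h₂⟩ := hE (δ / 2) (by positivity)
  obtain ⟨K₃, h₃⟩ := hg (δ / 4) (by positivity)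
  refine ⟨K₁ + K₂ + K₃ + 1, fun G hG U W hU => ?_⟩
  obtain ⟨U₁, u1, u2⟩ := exists_large True (K₁ + K₂ + K₃ + 1) ∅
  obtain ⟨W₁, w1, w2⟩ := exists_large False (K₁ + K₂ + K₃ + 1) ∅
  have hF : Fam K₃ (NInd_ins 0 U₁ U) (NInd_ins 0 W₁ W) := fun i => by
    rcases Fin.eq_self_or_eq_succAbove 0 i with rfl | ⟨i, rfl⟩
    · simp only [NInd_ins_same]
      exact ⟨fun v hv => (u1 v hv).1.2 trivial, fun v hv => (w1 v hv).1.1, by omega, by omega⟩
    · simp only [NInd_ins_succ]
      exact (hU.NInd_mono (by omega)) i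
  have k1 := h₃ G hG _ _ hF
  rw [NInd_cnt, NInd_cnt_ins 0, NInd_fsz 0] at k1
  simp only [NInd_rem_ins, NInd_ins_same, NInd_Gam] at k1
  have k2 := h₂ G hG U W (hU.NInd_mono (by omega))
  have c1 : (0 : ℝ) < U₁.card := Nat.cast_pos.2 (by omega)
  have c2 : (0 : ℝ) < W₁.card := Nat.cast_pos.2 (by omega)
  have hpos := mul_pos c1 c2
  refine le_of_mul_le_mul_right ?_ hpos
  have k3 : NInd_cnt U W (fun x y => ¬ Nice (c / 8) E K' (NInd_T G x y)) * (U₁.card * W₁.card) ≤
      NInd_cnt U W (fun x y => ¬ EnM E K₀ (NInd_T G x y)) * (U₁.card * W₁.card) +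
      2 * ∑ x ∈ Fintype.piFinset U, ∑ y ∈ Fintype.piFinset W, ∑ u ∈ U₁, ∑ v ∈ W₁,
        NInd_i (¬ c ≤ NInd_T G x y u v) := by
    simp only [NInd_cnt, sum_mul]
    rw [mul_sum, ← sum_add_distrib]
    refine sum_le_sum fun x _ => ?_
    rw [mul_sum, ← sum_add_distrib]
    refine sum_le_sum fun y _ => ?_
    have b0 : 0 ≤ ∑ u ∈ U₁, ∑ v ∈ W₁, NInd_i (¬ c ≤ NInd_T G x y u v) :=
      sum_nonneg fun _ _ => sum_nonneg fun _ _ => NInd_i_nonneg _
    by_cases e1 : Nice (c / 8) E K' (NInd_T G x y)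
    · rw [NInd_i_neg (not_not.2 e1)]
      linarith only [b0, hpos, mul_nonneg (NInd_i_nonneg (¬ EnM E K₀ (NInd_T G x y))) hpos.le]
    rw [NInd_i_pos e1]
    by_cases e2 : EnM E K₀ (NInd_T G x y)
    swap
    · rw [NInd_i_pos e2]
      linarith only [b0]
    rw [NInd_i_neg (not_not.2 e2)]
    by_contra hlt
    refine e1 (hn _ (hG.NInd_bd x y) e2 U₁ W₁ (fun v hv => (u1 v hv).1.2 trivial)
      (fun v hv => (w1 v hv).1.1) (by omega) (by omega) ?_)
    have b1 : ∑ u ∈ U₁, ∑ v ∈ W₁, c * (1 - NInd_i (¬ c ≤ NInd_T G x y u v)) ≤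
        ∑ u ∈ U₁, ∑ v ∈ W₁, NInd_T G x y u v :=
      sum_le_sum fun u hu => sum_le_sum fun v hv => by
        have := (hG.NInd_bd x y u v ((u1 u hu).1.2 trivial) (w1 v hv).1.1).1
        by_cases h : c ≤ NInd_T G x y u v
        · rw [NInd_i_neg (not_not.2 h)]
          linarith only [h]
        · rw [NInd_i_pos h]
          linarith only [this]
    simp only [← mul_sum, sum_sub_distrib, sum_const, nsmul_eq_mul, mul_one] at b1
    linarith only [b1, hc, hlt, mul_pos_of_neg_of_neg (Mathlib.Tactic.Linarith.sub_neg_of_lt hc) (Mathlib.Tactic.Linarith.sub_neg_of_lt (lt_of_not_ge hlt))]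
  linarith only [k1, k3, k2, hpos, mul_le_mul_of_nonneg_right k2 hpos.le]

theorem NInd_step {j K : ℕ} {E c : ℝ} (hc : 0 < c) (ha : 0 < a)
    (hn : NInd_Most C cs a G₀ j fun G x y => Nice c E K (NInd_T G x y)) :
    ∃ (E' : ℝ) (K' : ℕ), NInd_Most C cs a G₀ (j + 1) fun G x y => EnM E' K' (NInd_T G x y) := by
  set B := NInd_C C (2 * (j + 1 + 1)) with hB
  have B0 : 0 ≤ B := NInd_C_nonneg _ _
  obtain ⟨E₁, h₁⟩ := nice_trunc B E
  obtain ⟨E₂, h₂⟩ := energy_lemma B E₁ (a * (B ^ 2 + 1)) hc (by positivity) (K + 2)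
  refine ⟨max E₂ 0, 2 * (K + 2), fun δ hδ => ?_⟩
  obtain ⟨K₁, h₃⟩ := hn δ hδ
  refine ⟨K₁, fun G hG U W hU => ?_⟩
  rw [← zero_add δ]
  refine NInd_more 0 U W _ _ (h₃ G hG _ _ (hU.NInd_rem 0)) fun x hx y hy => ?_
  have key : Nice c E K (NInd_T G x y) → ∀ u ∈ U 0, ∀ v ∈ W 0,
      EnM (max E₂ 0) (2 * (K + 2)) (NInd_T G (NInd_ins 0 u x) (NInd_ins 0 v y)) := by
    intro hN u hu v hv
    by_cases hi : Function.Injective (NInd_ins 0 u x) ∧ Function.Injective (NInd_ins 0 v y)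
    swap
    · have : NInd_T G (NInd_ins 0 u x) (NInd_ins 0 v y) = fun _ _ => 0 := by
        funext p q
        exact if_neg fun h => hi ⟨h.1.1, h.2.1⟩
      rw [this]
      exact NInd_enm_zero (le_max_right _ _) _
    have px : ∀ i, IsEven (x i) := fun i => (hU _).1 _ (Fintype.mem_piFinset.1 hx i)
    have py : ∀ i, ¬ IsEven (y i) := fun i => (hU _).2.1 _ (Fintype.mem_piFinset.1 hy i)
    have pu : IsEven u := (hU 0).1 u hu
    have pv : ¬ IsEven v := (hU 0).2.1 v hv
    have px' : ∀ i, IsEven (NInd_ins 0 u x i) := fun i => by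
      rcases Fin.eq_self_or_eq_succAbove 0 i with rfl | ⟨i, rfl⟩
      · rwa [NInd_ins_same]
      · rw [NInd_ins_succ]
        exact px i
    have py' : ∀ i, ¬ IsEven (NInd_ins 0 v y i) := fun i => by
      rcases Fin.eq_self_or_eq_succAbove 0 i with rfl | ⟨i, rfl⟩
      · rwa [NInd_ins_same]
      · rw [NInd_ins_succ]
        exact py i
    obtain ⟨ix, nu⟩ := (NInd_inj 0 u x).1 hi.1
    obtain ⟨iy, nv⟩ := (NInd_inj 0 v y).1 hi.2
    set bg := univ.image x ∪ univ.image y with hbg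
    have e1 : univ.image (NInd_ins 0 u x) ∪ univ.image (NInd_ins 0 v y) =
        insert u (insert v bg) := by
      rw [NInd_image, NInd_image, insert_union, union_insert]
    have t1 : ∀ p q, IsEven p → ¬ IsEven q →
        trunc (NInd_T G x y) u v p q = trunc (Gb G bg) u v p q := fun p q hp hq => by
      simp only [trunc, NInd_T_Gb G px py ix iy hp hq, hbg]
    have t2 : ∀ p q, IsEven p → ¬ IsEven q → NInd_T G (NInd_ins 0 u x) (NInd_ins 0 v y) p q =
        Gb G (insert u (insert v bg)) p q := fun p q hp hq => by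
      rw [NInd_T_Gb G px' py' hi.1 hi.2 hp hq, e1]
    have nu' : u ∉ bg := fun h => (mem_union.1 h).elim nu fun h => by
      obtain ⟨i, -, e⟩ := mem_image.1 h
      exact py i (e ▸ pu)
    have nv' : v ∉ bg := fun h => (mem_union.1 h).elim (fun h => by
      obtain ⟨i, -, e⟩ := mem_image.1 h
      exact pv (e ▸ px i)) nv
    have g1 : G bg ≤ B := hG.NInd_le ((NInd_card x y).trans (by omega))
    have g2 : G (insert u (insert v bg)) ≤ B :=
      hG.NInd_le (by rw [← e1]; exact (NInd_card _ _).trans (by omega))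
    have g3 := hG.nonneg bg
    have g4 := hG.nonneg (insert u (insert v bg))
    have bd1 : Bd B (NInd_T G x y) := NInd_bd_mono (hG.NInd_bd x y) (NInd_C_mono C (by omega))
    refine NInd_enm_mono (h₂ (trunc (NInd_T G x y) u v) _ (bd1.trunc u v) (hG.NInd_bd _ _)
      (h₁ c K _ u v bd1 hN) ?_ ?_ ?_) (le_max_left _ _)
    · exact (((hG.self bg).trunc (by positivity) u v).congr t1 t1).mono
        (mul_le_mul_of_nonneg_left (by linarith only [B0, g1, g3, mul_nonneg_of_nonpos_of_nonpos (Mathlib.Tactic.Linarith.sub_nonpos_of_le B0) (Mathlib.Tactic.Linarith.sub_nonpos_of_le g1), mul_nonneg_of_nonpos_of_nonpos (Mathlib.Tactic.Linarith.sub_nonpos_of_le g1) (Mathlib.Tactic.Linarith.sub_nonpos_of_le g3)]) ha.le)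
    · exact ((hG.self _).congr t2 t2).mono (mul_le_mul_of_nonneg_left (by linarith only [B0, g2, g4, mul_nonneg_of_nonpos_of_nonpos (Mathlib.Tactic.Linarith.sub_nonpos_of_le B0) (Mathlib.Tactic.Linarith.sub_nonpos_of_le g2), mul_nonneg_of_nonpos_of_nonpos (Mathlib.Tactic.Linarith.sub_nonpos_of_le g2) (Mathlib.Tactic.Linarith.sub_nonpos_of_le g4)]) ha.le)
    · exact ((hG.cross bg u v pu pv nu' nv').congr t1 t2).mono
        (mul_le_mul_of_nonneg_left (by linarith only [g1, g2, g4, B0, mul_le_mul g1 g2 g4 B0]) ha.le)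
  rw [zero_add]
  by_cases h : Nice c E K (NInd_T G x y)
  · rw [NInd_i_neg (not_not.2 h), zero_mul]
    exact (sum_eq_zero fun u hu => sum_eq_zero fun v hv =>
      NInd_i_neg (not_not.2 (key h u hu v hv))).le
  · rw [NInd_i_pos h, one_mul]
    refine (sum_le_sum fun u _ => NInd_ind_le (W 0) _).trans_eq ?_
    rw [sum_const, nsmul_eq_mul]

theorem NInd_base {C₀ c₀ E₀ : ℝ} {K₀ : ℕ} (ha : 0 < a) (hc₀ : 0 < c₀) (hb : Bd C₀ G₀)
    (hn : Nice c₀ E₀ K₀ G₀) (hp : PSD G₀ G₀ a) :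
    ∃ (E' : ℝ) (K' : ℕ), NInd_Most C cs a G₀ 0 fun G x y => EnM E' K' (NInd_T G x y) := by
  obtain ⟨E, hE⟩ := energy_lemma (max C₀ (NInd_C C (2 * (0 + 1)))) E₀ a hc₀ ha K₀
  refine ⟨E, 2 * K₀, fun δ hδ => ⟨0, fun G hG U W _ => ?_⟩⟩
  refine le_trans (sum_eq_zero fun x _ => sum_eq_zero fun y _ => NInd_i_neg (not_not.2 ?_)).le
    (mul_nonneg hδ.le (NInd_fsz_nonneg U W))
  have t : ∀ p q, IsEven p → ¬ IsEven q → NInd_T G x y p q = Gb G ∅ p q := fun p q hp hq => by
    rw [NInd_T_Gb G (fun i => i.elim0) (fun i => i.elim0) (fun i => i.elim0) (fun i => i.elim0)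
      hp hq]
    simp
  refine hE G₀ _ (NInd_bd_mono hb (le_max_left _ _))
    (NInd_bd_mono (hG.NInd_bd x y) (le_max_right _ _)) hn hp ?_
    (hG.link.congr (fun _ _ _ _ => rfl) t)
  have := (hG.self ∅).congr t t
  rwa [hG.one, one_pow, mul_one] at this

end

/-- Lower bound for most tuples in every quenched state. -/
theorem qstates (C cs : ℕ → ℝ) (hcs : ∀ j, 0 < cs j) {a : ℝ} (ha : 0 < a) {G₀ : V → V → ℝ}
    {C₀ c₀ E₀ : ℝ} {K₀ : ℕ} (hc₀ : 0 < c₀) (hb : Bd C₀ G₀) (hn : Nice c₀ E₀ K₀ G₀)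
    (hp : PSD G₀ G₀ a) (k : ℕ) : ∃ c : ℝ, 0 < c ∧ ∃ K : ℕ, ∀ G, QS C cs a G₀ G →
      ∀ U W : Fin k → Finset V, Fam K U W →
        (((Fintype.piFinset U ×ˢ Fintype.piFinset W).filter fun p => Gam G p.1 p.2 < c).card : ℝ) ≤
          fsz U W / 4 := by
  have hE : ∀ j, ∃ (E' : ℝ) (K' : ℕ),
      NInd_Most C cs a G₀ j fun G x y => EnM E' K' (NInd_T G x y) := by
    intro j
    induction j with
    | zero => exact NInd_base ha hc₀ hb hn hp
    | succ j ih =>
      obtain ⟨E, K, ih⟩ := ih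
      obtain ⟨K', h⟩ := NInd_nice (half_pos (hcs (j + 1))) ih (NInd_good (hcs _) ih)
      exact NInd_step (by have := hcs (j + 1); positivity) ha h
  rcases k with _ | k
  · refine ⟨1, one_pos, 0, fun G hG U W _ => ?_⟩
    rw [filter_false_of_mem fun p _ => ?_]
    · have := NInd_fsz_nonneg U W
      rw [card_empty, Nat.cast_zero]
      linarith only [this]
    · have : Gam G p.1 p.2 = 1 := by
        rw [Gam, if_pos ⟨fun i => i.elim0, fun i => i.elim0⟩, ← hG.one]
        simp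
      rw [this]
      exact lt_irrefl _
  · obtain ⟨E, K, h⟩ := hE k
    obtain ⟨K', h'⟩ := NInd_good (hcs (k + 1)) h (1 / 4) (by norm_num)
    refine ⟨cs (k + 1) / 2, half_pos (hcs _), K', fun G hG U W hU => ?_⟩
    have := h' G hG U W hU
    rw [NInd_card_filter, sum_product]
    simp only [NInd_cnt, not_le] at this
    linarith only [this]

end Pool.Agent.Work.MP_5cb0a4_pr.Z
end
end
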