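import Pool.Agent.Work.MP_5cb0a4_pr.Z.Ergo
import Pool.Agent.Work.MP_5cb0a4_pr.Z.Paths
import Pool.Agent.Work.MP_5cb0a4_pr.N.Ind
import Pool.Agent.Work.MP_5cb0a4_pr.Z.Harm

-- merged part: Pool.Agent.Work.MP_5cb0a4_pr.N.ErgoP
section
open MeasureTheory Finset Filter Topology
open scoped Classical

namespace Pool.Agent.Work.MP_5cb0a4_pr.Z

/-- `Ergo_hil` for the vectors centred at the projection on the invariant subspace. -/
theorem NErgoP_hil {H : Type} [NormedAddCommGroup H] [InnerProductSpace ℝ H] [CompleteSpace H]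
    {φ : V → H} {i : Fin 3} (U : ∀ v, IsEven v → H →ₗᵢ[ℝ] H)
    (h2 : ∀ v hv x, U v hv (φ x) = φ (x + v)) (h3 : ∀ x, ‖φ x‖ ≤ 1)
    (h4 : ∀ c l, ‖∑ x ∈ sq i (c + Pi.single i 1) l, φ x - ∑ x ∈ sq i c l, φ x‖ ≤ 8 * l + 4) :
    ∃ G : H, (∀ v hv, U v hv G = G) ∧ ∀ ε : ℝ, 0 < ε → ∀ᶠ l : ℕ in atTop, ∀ c,
      ‖∑ x ∈ sq i c l, φ x - ((l : ℝ) ^ 2 / 2) • G‖ ≤ ε * l ^ 2 := by
  let K : Submodule ℝ H :=
    { carrier := {G | ∀ v hv, U v hv G = G}
      add_mem' := fun a b v hv => by rw [map_add, a, b]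
      zero_mem' := fun v hv => map_zero _
      smul_mem' := fun c _ a v hv => by rw [map_smul, a] }
  have hK : IsClosed (K : Set H) := by
    have : (K : Set H) = ⋂ v, ⋂ hv, {G | U v hv G = G} := Set.ext fun G => by
      simp only [Set.mem_iInter]; rfl
    rw [this]
    exact isClosed_iInter fun v => isClosed_iInter fun hv => isClosed_eq (U v hv).continuous continuous_id
  have := hK.completeSpace_coe
  have hG : K.starProjection (φ 0 + φ e0) ∈ K := K.starProjection_apply_mem _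
  have hn : ‖K.starProjection (φ 0 + φ e0)‖ ≤ 2 := (K.norm_starProjection_apply_le _).trans
    ((norm_add_le _ _).trans (by linarith only [h3, h3 0, h3 e0]))
  have ho := K.starProjection_inner_eq_zero (φ 0 + φ e0)
  generalize K.starProjection (φ 0 + φ e0) = G at hG hn ho
  have e : ∀ c l, ∑ x ∈ sq i c l, (1 / 2 : ℝ) • (φ x - (1 / 2 : ℝ) • G) =
      (1 / 2 : ℝ) • (∑ x ∈ sq i c l, φ x - ((l : ℝ) ^ 2 / 2) • G) := fun c l => by
    rw [← smul_sum, sum_sub_distrib, sum_const, card_sq, ← Nat.cast_smul_eq_nsmul ℝ, smul_smul,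
      Nat.cast_pow, mul_one_div]
  have e' : ∀ y : H, ‖(1 / 2 : ℝ) • y‖ = ‖y‖ / 2 := fun y => by
    rw [norm_smul, Real.norm_of_nonneg (by norm_num), mul_comm, mul_one_div]
  refine ⟨G, hG, fun ε hε => (Ergo_hil (φ := fun x => (1 / 2 : ℝ) • (φ x - (1 / 2 : ℝ) • G)) (i := i)
    (fun v hv => (U v hv).toContinuousLinearMap)
    (fun _ _ => LinearIsometry.norm_toContinuousLinearMap_le _) (fun v hv x => ?_) (fun x => ?_)
    (fun c l => ?_) (fun G' hG' x => ?_) (half_pos hε)).mono fun l hl c => ?_⟩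
  · rw [LinearIsometry.coe_toContinuousLinearMap, map_smul, map_sub, map_smul, h2, hG]
  · have := norm_sub_le (φ x) ((1 / 2 : ℝ) • G)
    rw [e'] at this ⊢
    linarith only [hn, this, h3, h3 x]
  · rw [e, e, ← smul_sub, sub_sub_sub_cancel_right, e']
    linarith only [h4, h4 c l, norm_nonneg (∑ x ∈ sq i (c + Pi.single i 1) l, φ x - ∑ x ∈ sq i c l, φ x)]
  · have k : ∀ v, IsEven v → ∀ y, Inner.inner ℝ G' (φ (y + v)) = Inner.inner ℝ G' (φ y) := fun v hv y => by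
      rw [← h2 v hv, ← (U v hv).inner_map_map G' (φ y), show U v hv G' = G' from hG' v hv]
    have k1 : Inner.inner ℝ G' (φ x) + Inner.inner ℝ G' (φ (x + e0)) =
        Inner.inner ℝ G' (φ 0) + Inner.inner ℝ G' (φ e0) := by
      by_cases hx : IsEven x
      · rw [← k x hx 0, ← k x hx e0, zero_add, add_comm e0]
      · have a1 : IsEven (x + e0) := by rwa [e0_eq, isEven_add_dv]
        have a2 : IsEven (x - e0) := by rwa [e0_eq, sub_eq_add_neg, ← dv_not, isEven_add_dv]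
        rw [← k _ a1 0, ← k _ a2 e0, zero_add, add_sub_cancel, add_comm]
    have k2 := ho G' hG'
    rw [real_inner_comm, inner_sub_right, inner_add_right] at k2
    simp only [inner_add_right, inner_smul_right, inner_sub_right]
    linarith only [k1, k2]
  · have := hl c
    rw [e, e'] at this
    linarith only [this]

theorem NErgoP_sh {ν : Measure Dimer} (h : IM ν) {B : Set Dimer} (hB : AInv ν B) {f : Dimer → ℝ}
    (hf : Measurable f) {v : V} (hv : IsEven v) : ∫ τ in B, f (shift v τ) ∂ν = ∫ τ in B, f τ ∂ν := by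
  have h1 := setIntegral_map (μ := ν) hB.1 hf.aestronglyMeasurable (measurable_shift v).aemeasurable
  rw [(h.inv v hv).map_eq, setIntegral_congr_set (hB.2 v hv)] at h1
  exact h1.symm

theorem NErgoP_loc (x y : V) : Local {x} fun σ => fl σ x y := fun _ _ _ _ h => by
  simp only [fl, h x (mem_singleton_self x)]

theorem NErgoP_mem (ν : Measure Dimer) [IsFiniteMeasure ν] (d : Dir) (c : V) (l : ℕ) :
    MemLp (fun τ : Dimer => FQ τ.1 d c l) 2 ν :=
  .of_bound (local_FQ d c l).measurable.aestronglyMeasurable _ (.of_forall fun _ => abs_FQ_le ..)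

theorem NErgoP_pair {ν : Measure Dimer} (h : IM ν) {B : Set Dimer} (hB : AInv ν B) (i : Fin 3) (x : V) :
    ∫ τ in B, fl τ.1 x (x + dv (i, true)) ∂ν + ∫ τ in B, fl τ.1 (x + e0) (x + e0 + dv (i, true)) ∂ν =
      ∫ τ in B, ((τ.1 0 i : ℤ) : ℝ) ∂ν := by
  have := h.prob
  have h1 : ∀ v, IsEven v → ∀ d, ∫ τ in B, fl τ.1 v (v + d) ∂ν = ∫ τ in B, fl τ.1 0 (0 + d) ∂ν :=
    fun v hv d => by
      rw [← NErgoP_sh h hB (NErgoP_loc 0 (0 + d)).measurable (isEven_neg.2 hv)]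
      simp only [Ergo_sh hv, zero_add v]
  have h2 : ∀ y, ¬ IsEven y → ∫ τ in B, fl τ.1 y (y + dv (i, true)) ∂ν =
      -∫ τ in B, fl τ.1 0 (0 + dv (i, false)) ∂ν := fun y hy => by
    rw [← h1 _ ((isEven_add_dv (d := (i, true))).2 hy), ← integral_neg]
    simp only [Ergo_anti (isExt_dimer _), neg_neg]
  have h3 : ∫ τ in B, fl τ.1 0 (0 + dv (i, true)) ∂ν - ∫ τ in B, fl τ.1 0 (0 + dv (i, false)) ∂ν =
      ∫ τ in B, ((τ.1 0 i : ℤ) : ℝ) ∂ν := by
    rw [← integral_sub ((Ergo_mem _ _ _).integrable one_le_two) ((Ergo_mem _ _ _).integrable one_le_two)]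
    refine integral_congr_ae (.of_forall fun τ => ?_)
    obtain ⟨⟨j, b⟩, hd⟩ := nbr_iff.1 (τ.2 0).1
    simp only [fl, hd, add_right_inj, dv_injective.eq_iff]
    rcases eq_or_ne j i with rfl | hj <;> cases b <;> simp [sg, IsEven, dv, *, Pi.single_eq_of_ne']
    norm_num
  have h4 : IsEven (x + e0) ↔ ¬ IsEven x := by rw [e0_eq, isEven_add_dv]
  by_cases hx : IsEven x
  · rw [h1 x hx, h2 _ fun k => h4.1 k hx, ← h3, sub_eq_add_neg]
  · rw [h2 x hx, h1 _ (h4.2 hx), ← h3, neg_add_eq_sub]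

theorem NErgoP_abs {ν : Measure Dimer} [IsProbabilityMeasure ν] {u : Dimer → ℝ} (hu : MemLp u 2 ν)
    {t : ℝ} (ht : 0 < t) (h : ∫ τ, u τ ^ 2 ∂ν ≤ t ^ 2) (B : Set Dimer) : |∫ τ in B, u τ ∂ν| ≤ t := by
  have h1 := hu.integrable one_le_two
  have h2 := hu.integrable_sq
  calc _ ≤ ∫ τ in B, |u τ| ∂ν := abs_integral_le_integral_abs
    _ ≤ ∫ τ, |u τ| ∂ν := setIntegral_le_integral h1.abs (.of_forall fun _ => abs_nonneg _)
    _ ≤ ∫ τ, (u τ ^ 2 / (2 * t) + t / 2) ∂ν :=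
        integral_mono h1.abs ((h2.div_const _).add (integrable_const _)) fun τ => by
          simp only
          rw [← sub_le_iff_le_add, le_div_iff₀ (by positivity), ← sq_abs]
          linarith only [sq_nonneg (|u τ| - t), sq_nonneg (|u τ| - t)]
    _ ≤ t := by
        rw [integral_add (h2.div_const _) (integrable_const _), integral_div, integral_const,
          probReal_univ, one_smul, ← le_sub_iff_add_le, div_le_iff₀ (by positivity)]
        linarith only [h]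

theorem im_of_eg {ν : Measure Dimer} (h : IsErgodicGibbs ν) : IM ν := by
  exact ⟨h.prob, h.invariant, fun Λ _ _ hg => dlr h Λ hg⟩

theorem IM.integral_sh {ν : Measure Dimer} (h : IM ν) {Λ : Finset V} {g : (V → V) → ℝ}
    (hg : Local Λ g) {v : V} (hv : IsEven v) : ∫ τ, g (sh v τ.1) ∂ν = ∫ τ, g τ.1 ∂ν := by
  have h1 := integral_map (μ := ν) (measurable_shift v).aemeasurable
    hg.measurable.aestronglyMeasurable
  rw [(h.inv v hv).map_eq] at h1
  exact h1.symm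

theorem IM.setIntegral_sh {ν : Measure Dimer} (h : IM ν) {B : Set Dimer} (hB : AInv ν B)
    {Λ : Finset V} {g : (V → V) → ℝ} (hg : Local Λ g) {v : V} (hv : IsEven v) :
    ∫ τ in B, g (sh v τ.1) ∂ν = ∫ τ in B, g τ.1 ∂ν := by
  exact NErgoP_sh h hB hg.measurable hv

/-- The local current field exists (port of `Ergo_hil` that keeps the limit). -/
theorem exists_J {ν : Measure Dimer} (h : IM ν) : ∃ J, IsJ ν J := by
  have := h.prob
  have key : ∀ i : Fin 3, ∃ G : Lp ℝ 2 ν, (∀ v, IsEven v → (fun τ => G (shift v τ)) =ᵐ[ν] G) ∧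
      ∀ η : ℝ, 0 < η → ∀ᶠ l : ℕ in atTop, ∀ c,
        ∫ τ, (FQ τ.1 (i, true) c l - G τ * (l : ℝ) ^ 2 / 2) ^ 2 ∂ν ≤ η * (l : ℝ) ^ 4 := fun i => by
    let φ : V → Lp ℝ 2 ν := fun x => (Ergo_mem ν x (x + dv (i, true))).toLp _
    have hφ : ∀ x, φ x =ᵐ[ν] fun τ => fl τ.1 x (x + dv (i, true)) := fun x => MemLp.coeFn_toLp _
    have hF : ∀ c l, (∑ x ∈ sq i c l, φ x : Lp ℝ 2 ν) =ᵐ[ν] fun τ => FQ τ.1 (i, true) c l :=
      fun c l => by
        filter_upwards [Lp.coeFn_fun_finsetSum (sq i c l) φ, ae_all_iff.2 hφ] with τ a b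
        rw [a]
        exact sum_congr rfl fun x _ => b x
    have hb : ∀ (f : Lp ℝ 2 ν) (C : ℝ), 0 ≤ C → (∀ᵐ τ ∂ν, ‖f τ‖ ≤ C) → ‖f‖ ≤ C := fun f C hC hf => by
      simpa [measureUnivNNReal] using Lp.norm_le_of_ae_bound hC hf
    obtain ⟨G, h1, h2⟩ := NErgoP_hil (φ := φ) (i := i) (fun v hv => Lp.compMeasurePreservingₗᵢ ℝ
      (shift (-v)) (h.inv _ (isEven_neg.2 hv)))
      (fun v hv x => (Lp.toLp_compMeasurePreserving (Ergo_mem ..) _).trans
        (MemLp.toLp_congr _ _ (.of_forall fun τ => Ergo_sh hv τ x _)))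
      (fun x => hb _ _ one_pos.le ((hφ x).mono fun τ e => e ▸ Ergo_fl ..)) fun c l => by
        refine hb _ _ (by positivity) ?_
        filter_upwards [Lp.coeFn_sub (∑ x ∈ sq i (c + Pi.single i 1) l, φ x) (∑ x ∈ sq i c l, φ x),
          hF (c + Pi.single i 1) l, hF c l] with τ a1 a2 a3
        rw [a1, Pi.sub_apply, a2, a3]
        exact Ergo_normal τ i c l
    refine ⟨G, fun v hv => ?_, fun η hη => (h2 _ (Real.sqrt_pos.2 hη)).mono fun l hl c => ?_⟩
    · have := Lp.coeFn_compMeasurePreserving G (h.inv _ (isEven_neg.2 (isEven_neg.2 hv)))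
      rw [show Lp.compMeasurePreserving _ _ G = G from h1 _ (isEven_neg.2 hv), neg_neg] at this
      exact this.symm
    · calc _ = ‖∑ x ∈ sq i c l, φ x - ((l : ℝ) ^ 2 / 2) • G‖ ^ 2 := by
            rw [← real_inner_self_eq_norm_sq, L2.inner_def]
            refine integral_congr_ae ?_
            filter_upwards [hF c l, Lp.coeFn_sub (∑ x ∈ sq i c l, φ x) (((l : ℝ) ^ 2 / 2) • G),
              Lp.coeFn_smul ((l : ℝ) ^ 2 / 2) G] with τ a1 a2 a3
            rw [a2, Pi.sub_apply, a1, a3, real_inner_self_eq_norm_sq, Real.norm_eq_abs, sq_abs,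
              Pi.smul_apply, smul_eq_mul]
            ring
        _ ≤ (√η * l ^ 2) ^ 2 := pow_le_pow_left₀ (norm_nonneg _) (hl c) 2
        _ = _ := by rw [mul_pow, Real.sq_sqrt hη.le]; ring
  choose G h1 h2 using key
  refine ⟨fun τ i => G i τ, measurable_pi_lambda _ fun i => (Lp.stronglyMeasurable (G i)).measurable,
    fun v hv => ?_, fun i => Lp.memLp (G i), fun η hη =>
      eventually_atTop.1 (eventually_all.2 fun i => h2 i η hη)⟩
  filter_upwards [ae_all_iff.2 fun i => h1 i v hv] with τ a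
  exact funext a

theorem IsJ.aInv {ν : Measure Dimer} {J : Dimer → Fin 3 → ℝ} (hJ : IsJ ν J)
    {S : Set (Fin 3 → ℝ)} (hS : MeasurableSet S) : AInv ν (J ⁻¹' S) := by
  exact ⟨hJ.meas hS, fun v hv => (hJ.inv v hv).preimage S⟩

theorem IsJ.mean {ν : Measure Dimer} (h : IM ν) {J : Dimer → Fin 3 → ℝ} (hJ : IsJ ν J)
    {B : Set Dimer} (hB : AInv ν B) (i : Fin 3) :
    ∫ τ in B, J τ i ∂ν = ∫ τ in B, ((τ.1 0 i : ℤ) : ℝ) ∂ν := by
  have := h.prob
  refine eq_of_forall_dist_le fun δ hδ => ?_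
  obtain ⟨l₀, hl⟩ := hJ.flux _ (pow_pos (half_pos hδ) 2)
  obtain ⟨l, l1, l2⟩ : ∃ l : ℕ, l₀ ≤ l ∧ (0 : ℝ) < (l : ℝ) ^ 2 := ⟨l₀ + 1, by omega, by positivity⟩
  have k : ∀ c, |∫ τ in B, FQ τ.1 (i, true) c l ∂ν - (∫ τ in B, J τ i ∂ν) * (l : ℝ) ^ 2 / 2| ≤
      δ / 2 * (l : ℝ) ^ 2 := fun c => by
    have m1 := NErgoP_mem ν (i, true) c l
    have m2 : MemLp (fun τ => J τ i * (l : ℝ) ^ 2 / 2) 2 ν := by
      simpa only [mul_div_assoc] using (hJ.mem i).mul_const ((l : ℝ) ^ 2 / 2)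
    rw [← integral_mul_const, ← integral_div, ← integral_sub (m1.integrable one_le_two).integrableOn
      (m2.integrable one_le_two).integrableOn]
    exact NErgoP_abs (m1.sub m2) (by positivity) ((hl l l1 i c).trans_eq (by ring)) B
  have e : ∫ τ in B, FQ τ.1 (i, true) 0 l ∂ν + ∫ τ in B, FQ τ.1 (i, true) (0 + e0) l ∂ν =
      (∫ τ in B, ((τ.1 0 i : ℤ) : ℝ) ∂ν) * (l : ℝ) ^ 2 := by
    simp only [FQ]
    rw [integral_finsetSum _ fun x _ => (Ergo_mem _ _ _).integrable one_le_two,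
      integral_finsetSum _ fun x _ => (Ergo_mem _ _ _).integrable one_le_two, Ergo_tr, ← sum_add_distrib,
      sum_congr rfl fun x _ => NErgoP_pair h hB i x, sum_const, card_sq, nsmul_eq_mul, Nat.cast_pow,
      mul_comm]
  have k1 := abs_le.1 (k 0)
  have k2 := abs_le.1 (k (0 + e0))
  rw [Real.dist_eq, abs_le]
  constructor <;> refine le_of_mul_le_mul_right ?_ l2 <;> linarith only [e, k1, k2, k1.1, k1.2, k2.1, k2.2]

/-- On a set where `J` is close to `s` the fluxes are close to their centred value. -/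
theorem IsJ.cell {ν : Measure Dimer} (h : IM ν) {J : Dimer → Fin 3 → ℝ} (hJ : IsJ ν J)
    {η : ℝ} (hη : 0 < η) : ∃ l₀ : ℕ, ∀ l ≥ l₀, ∀ (B : Set Dimer) (s : Fin 3 → ℝ) (η' : ℝ),
      MeasurableSet B → n1 s ≤ 1 → (∀ τ ∈ B, ∀ i, |J τ i - s i| ≤ η') → ∀ (d : Dir) (c : V),
      ∫ τ in B, FQp s τ.1 d c l ^ 2 ∂ν ≤ (η' ^ 2 * ν.real B + η) * (l : ℝ) ^ 4 := by
  have := h.prob
  obtain ⟨l₀, hl⟩ := hJ.flux (η / 8) (by positivity)
  obtain ⟨l₁, hl₁⟩ := exists_nat_ge (8 / η)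
  refine ⟨l₀ + l₁ + 1, fun l l1 B s η' hB hs hη' => ?_⟩
  have l2 : 8 ≤ η * (l : ℝ) ^ 4 := by
    have a1 : (l₁ : ℝ) ≤ l := by exact_mod_cast (by omega)
    have a2 : (l : ℝ) ≤ (l : ℝ) ^ 4 := by exact_mod_cast Nat.le_self_pow (by norm_num) l
    rw [div_le_iff₀' hη] at hl₁
    linarith only [hl₁, hη, a1, a2, mul_nonneg_of_nonpos_of_nonpos (le_of_lt (Mathlib.Tactic.Linarith.sub_neg_of_lt hη)) (Mathlib.Tactic.Linarith.sub_nonpos_of_le a1), mul_nonneg_of_nonpos_of_nonpos (le_of_lt (Mathlib.Tactic.Linarith.sub_neg_of_lt hη)) (Mathlib.Tactic.Linarith.sub_nonpos_of_le a2)]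
  have key : ∀ (i : Fin 3) (c : V), ∫ τ in B, FQp s τ.1 (i, true) c l ^ 2 ∂ν ≤
      (η' ^ 2 * ν.real B + η) * (l : ℝ) ^ 4 := fun i c => by
    have m2 : MemLp (fun τ => J τ i * (l : ℝ) ^ 2 / 2) 2 ν := by
      simpa only [mul_div_assoc] using (hJ.mem i).mul_const ((l : ℝ) ^ 2 / 2)
    have m3 : Integrable (fun τ : Dimer => (FQ τ.1 (i, true) c l - J τ i * (l : ℝ) ^ 2 / 2) ^ 2) ν :=
      ((NErgoP_mem ν (i, true) c l).sub m2).integrable_sq
    have m4 : Integrable (fun τ : Dimer => FQp s τ.1 (i, true) c l ^ 2) ν :=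
      Local.integrable (g := fun σ => FQp s σ (i, true) c l ^ 2)
        (fun σ σ' a a' e => congrArg (· ^ 2) (local_FQp s _ c l σ σ' a a' e)) ν
    have b1 : ν.real B ≤ 1 := measureReal_le_one
    have b2 := (setIntegral_le_integral (s := B) m3 (.of_forall fun _ => sq_nonneg _)).trans
      (hl l (by omega) i c)
    calc _ ≤ ∫ τ in B, (4 * (FQ τ.1 (i, true) c l - J τ i * (l : ℝ) ^ 2 / 2) ^ 2 +
          (η' ^ 2 * (l : ℝ) ^ 4 + 4)) ∂ν := by
          refine setIntegral_mono_on m4.integrableOn ((m3.const_mul 4).add (integrable_const _)).integrableOn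
            hB fun τ hτ => ?_
          have a1 := sq_le_sq' (abs_le.1 (FQp_sub_FQ hs τ.1 (i, true) c l)).1
            (abs_le.1 (FQp_sub_FQ hs τ.1 (i, true) c l)).2
          have a2 := mul_le_mul_of_nonneg_right (sq_le_sq' (abs_le.1 (hη' τ hτ i)).1
            (abs_le.1 (hη' τ hτ i)).2) (show (0 : ℝ) ≤ (l : ℝ) ^ 4 by positivity)
          rw [show sd s (i, true) = s i from rfl] at a1
          generalize FQp s τ.1 (i, true) c l = x at a1 ⊢
          generalize FQ τ.1 (i, true) c l = y at a1 ⊢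
          have a3 : ∀ A E Y : ℝ, (A + E + Y) ^ 2 ≤ 4 * A ^ 2 + (2 * Y ^ 2 + 4 * E ^ 2) := fun A E Y => by
            linarith only [sq_nonneg (A - E), sq_nonneg (A + E - Y), sq_nonneg (A + E - Y), sq_nonneg (A - E)]
          have a4 := a3 (y - J τ i * (l : ℝ) ^ 2 / 2) (x - (y - s i * (l : ℝ) ^ 2 / 2))
            ((J τ i - s i) * (l : ℝ) ^ 2 / 2)
          rw [show y - J τ i * (l : ℝ) ^ 2 / 2 + (x - (y - s i * (l : ℝ) ^ 2 / 2)) +
            (J τ i - s i) * (l : ℝ) ^ 2 / 2 = x by ring, show ((J τ i - s i) * (l : ℝ) ^ 2 / 2) ^ 2 =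
              (J τ i - s i) ^ 2 * (l : ℝ) ^ 4 / 4 by ring] at a4
          linarith only [a2, a1, a4, show 0 ≤ η' ^ 2 * (l : ℝ) ^ 4 by positivity]
      _ ≤ _ := by
          rw [integral_add (m3.const_mul 4).integrableOn (integrable_const _), integral_const_mul,
            setIntegral_const, smul_eq_mul]
          linarith only [l2, b1, b2]
  rintro ⟨i, b⟩ c
  cases b
  · refine le_of_eq_of_le (integral_congr_ae (.of_forall fun τ => ?_)) (key i (c - dv (i, true)))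
    have := FQp_rev (isExt_dimer τ) s (i, true) (c - dv (i, true)) l
    rw [sub_add_cancel] at this
    exact (congrArg (· ^ 2) this).trans (neg_sq _)
  · exact key i c

theorem n1_mean_le {ν : Measure Dimer} (h : IM ν) : n1 (meanCurrent ν) ≤ 1 := by
  have := h.prob
  have hi : ∀ i, Integrable (fun τ : Dimer => |((τ.1 0 i : ℤ) : ℝ)|) ν := fun i =>
    Local.integrable (Λ := {0}) (g := fun σ => |((σ 0 i : ℤ) : ℝ)|)
      (fun _ _ _ _ e => by simp only [e 0 (mem_singleton_self 0)]) ν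
  refine (sum_le_sum fun i _ => abs_integral_le_integral_abs).trans (le_of_eq ?_)
  rw [← integral_finsetSum _ fun i _ => hi i, integral_congr_ae (g := fun _ => (1 : ℝ))
    (.of_forall fun τ => ?_), integral_const, probReal_univ, one_smul]
  have := (τ.2 0).1
  simp only [Nbr, Pi.zero_apply, zero_sub, abs_neg] at this
  simp only
  exact_mod_cast this

theorem fluxAt_eg {ν : Measure Dimer} (h : IsErgodicGibbs ν) : FluxAt ν (meanCurrent ν) := by
  have := h.prob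
  obtain ⟨J, hJ⟩ := exists_J (im_of_eg h)
  obtain ⟨κ, hκ⟩ : ∃ κ, J =ᵐ[ν] Function.const _ κ := by
    refine exists_eventuallyEq_const_of_forall_separating MeasurableSet fun S hS => ?_
    exact (h.ergodic _ (hJ.meas hS) (hJ.aInv hS).2).symm.imp (mem_ae_iff_prob_eq_one (hJ.meas hS)).2
      measure_eq_zero_iff_ae_notMem.1
  have e : meanCurrent ν = κ := funext fun i => by
    have := hJ.mean (im_of_eg h) ⟨MeasurableSet.univ, fun _ _ => .rfl⟩ i
    rw [Measure.restrict_univ, integral_congr_ae (g := fun _ => κ i) (hκ.mono fun τ e => congrFun e i),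
      integral_const, probReal_univ, one_smul] at this
    exact this.symm
  intro η hη
  obtain ⟨l₀, hl⟩ := hJ.cell (im_of_eg h) hη
  refine ⟨l₀, fun l l1 d c => ?_⟩
  have := hl l l1 (J ⁻¹' {κ}) _ 0 (hJ.meas (measurableSet_singleton κ)) (n1_mean_le (im_of_eg h))
    (fun τ hτ i => by rw [show J τ = κ from hτ, e, sub_self, abs_zero]) d c
  rwa [Measure.restrict_eq_self_of_ae_mem (s := J ⁻¹' {κ}) hκ, zero_pow two_ne_zero, zero_mul,
    zero_add] at this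

theorem int_Psp (μ : Measure Dimer) [IsFiniteMeasure μ] {s : Fin 3 → ℝ} {η : ℝ} (hη : 0 ≤ η)
    {l : ℕ} (h : ∀ (d : Dir) (c : V), ∫ τ, FQp s τ.1 d c l ^ 2 ∂μ ≤ η * (l : ℝ) ^ 4) (lo hi : ℕ) :
    ∫ τ, Psp s lo hi l τ.1 ∂μ ≤ 24 * η * (hi : ℝ) ^ 3 * (l : ℝ) ^ 2 := by
  have hi' : ∀ d c, Integrable (fun τ : Dimer => FQp s τ.1 d c l ^ 2) μ := fun d c =>
    Local.integrable (g := fun σ => FQp s σ d c l ^ 2)
      (fun σ σ' a a' e => congrArg (· ^ 2) (local_FQp s d c l σ σ' a a' e)) μ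
  calc _ = lsum lo hi l fun d c => ∫ τ, FQp s τ.1 d c l ^ 2 ∂μ := by
        unfold Psp lsum
        rw [integral_finsetSum _ fun t _ => integrable_finsetSum _ fun d _ =>
          integrable_finsetSum _ fun p _ => hi' _ _]
        refine sum_congr rfl fun t _ => ?_
        rw [integral_finsetSum _ fun d _ => integrable_finsetSum _ fun p _ => hi' _ _]
        exact sum_congr rfl fun d _ => integral_finsetSum _ fun p _ => hi' _ _
    _ ≤ lsum lo hi l fun _ _ => η * (l : ℝ) ^ 2 * (l : ℝ) ^ 2 :=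
        lsum_mono fun _ _ d _ _ => (h d _).trans_eq (by ring)
    _ ≤ _ := (lsum_const lo hi l (by positivity)).trans_eq (by ring)

end Pool.Agent.Work.MP_5cb0a4_pr.Z
end

-- merged part: Pool.Agent.Work.MP_5cb0a4_pr.N.Rec0
section
open MeasureTheory Finset Filter Topology
open scoped Classical

namespace Pool.Agent.Work.MP_5cb0a4_pr.Z

lemma NRec0_even {ρ₁ ρ₂ : V → V} {x : V} (h : IsEven x) : pi2 ρ₁ ρ₂ x = ρ₁ x := if_pos h

lemma NRec0_odd {ρ₁ ρ₂ : V → V} {x : V} (h : ¬ IsEven x) : pi2 ρ₁ ρ₂ x = ρ₂ x := if_neg h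

theorem pi2_nbr {ρ₁ ρ₂ : V → V} (h₁ : IsExt ρ₁) (h₂ : IsExt ρ₂) (x : V) :
    pi2 ρ₁ ρ₂ x = x ∨ Nbr x (pi2 ρ₁ ρ₂ x) := by
  by_cases h : IsEven x
  · rw [NRec0_even h]; exact (h₁ x).1
  · rw [NRec0_odd h]; exact (h₂ x).1

theorem pi2_inj {ρ₁ ρ₂ : V → V} (h₁ : IsExt ρ₁) (h₂ : IsExt ρ₂) {a b : V}
    (ha : pi2 ρ₁ ρ₂ a ≠ a) (hb : pi2 ρ₁ ρ₂ b ≠ b) (h : pi2 ρ₁ ρ₂ a = pi2 ρ₁ ρ₂ b) : a = b := by
  have pa := nbr_parity ((pi2_nbr h₁ h₂ a).resolve_left ha)
  have pb := nbr_parity ((pi2_nbr h₁ h₂ b).resolve_left hb)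
  rw [h] at pa
  by_cases e : IsEven a
  · have e' : IsEven b := by tauto
    rw [NRec0_even e, NRec0_even e'] at h
    exact h₁.inj h
  · have e' : ¬ IsEven b := by tauto
    rw [NRec0_odd e, NRec0_odd e'] at h
    exact h₂.inj h

/-- The inverse step is the step of the exchanged pair. -/
theorem pi2_swap {ρ₁ ρ₂ : V → V} (h₁ : IsExt ρ₁) (h₂ : IsExt ρ₂) {x : V}
    (h : pi2 ρ₂ ρ₁ x ≠ x) : pi2 ρ₁ ρ₂ (pi2 ρ₂ ρ₁ x) = x := by
  have p := nbr_parity ((pi2_nbr h₂ h₁ x).resolve_left h)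
  by_cases e : IsEven x
  · have e' : ¬ IsEven (pi2 ρ₂ ρ₁ x) := by tauto
    rw [NRec0_odd e', NRec0_even e, (h₂ x).2]
  · have e' : IsEven (pi2 ρ₂ ρ₁ x) := by tauto
    rw [NRec0_even e', NRec0_odd e, (h₁ x).2]

theorem conn_pi2 (ρ₁ ρ₂ : V → V) (x : V) (n : ℕ) : Conn ρ₁ ρ₂ x ((pi2 ρ₁ ρ₂)^[n] x) := by
  induction n with
  | zero => exact Relation.ReflTransGen.refl
  | succ n ih =>
    rw [Function.iterate_succ_apply']
    refine Relation.ReflTransGen.tail ih ?_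
    by_cases e : IsEven ((pi2 ρ₁ ρ₂)^[n] x)
    · exact Or.inl (NRec0_even e).symm
    · exact Or.inr (NRec0_odd e).symm

lemma NRec0_step {ρ₁ ρ₂ : V → V} (h₁ : IsExt ρ₁) (h₂ : IsExt ρ₂) {y z : V}
    (h : ρ₁ y = z ∨ ρ₂ y = z) : z = y ∨ z = pi2 ρ₁ ρ₂ y ∨ (pi2 ρ₁ ρ₂ z = y ∧ z ≠ y) := by
  by_cases hz : z = y
  · exact Or.inl hz
  right
  rcases h with h | h
  · by_cases e : IsEven y
    · left; rw [NRec0_even e, h]
    · right
      refine ⟨?_, hz⟩
      have := pi2_swap h₁ h₂ (x := y) (by rw [NRec0_odd e, h]; exact hz)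
      rwa [NRec0_odd e, h] at this
  · by_cases e : IsEven y
    · right
      refine ⟨?_, hz⟩
      have := pi2_swap h₁ h₂ (x := y) (by rw [NRec0_even e, h]; exact hz)
      rwa [NRec0_even e, h] at this
    · left; rw [NRec0_odd e, h]

lemma NRec0_back {ρ₁ ρ₂ : V → V} (h₁ : IsExt ρ₁) (h₂ : IsExt ρ₂) {x y z : V}
    (hz : pi2 ρ₁ ρ₂ z = y) (hne : z ≠ y) (n : ℕ) (hn : (pi2 ρ₁ ρ₂)^[n] x = y) :
    ∃ n, (pi2 ρ₁ ρ₂)^[n] x = z ∨ (pi2 ρ₁ ρ₂)^[n] z = x := by
  induction n with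
  | zero => exact ⟨1, Or.inr (hz.trans hn.symm)⟩
  | succ n ih =>
    rw [Function.iterate_succ_apply'] at hn
    by_cases e : pi2 ρ₁ ρ₂ ((pi2 ρ₁ ρ₂)^[n] x) = (pi2 ρ₁ ρ₂)^[n] x
    · exact ih (e.symm.trans hn)
    · exact ⟨n, Or.inl (pi2_inj h₁ h₂ e (by rw [hz]; exact hne.symm) (hn.trans hz.symm))⟩

/-- Connected points are on one orbit. -/
theorem conn_orbit {ρ₁ ρ₂ : V → V} (h₁ : IsExt ρ₁) (h₂ : IsExt ρ₂) {x y : V}
    (h : Conn ρ₁ ρ₂ x y) : ∃ n, (pi2 ρ₁ ρ₂)^[n] x = y ∨ (pi2 ρ₁ ρ₂)^[n] y = x := by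
  induction h with
  | refl => exact ⟨0, Or.inl rfl⟩
  | @tail y z _ hs ih =>
    obtain ⟨n, hn⟩ := ih
    rcases NRec0_step h₁ h₂ hs with e | e | ⟨e, hne⟩
    · rw [e]; exact ⟨n, hn⟩
    · rcases hn with hn | hn
      · exact ⟨n + 1, Or.inl (by rw [Function.iterate_succ_apply', hn, e])⟩
      · cases n with
        | zero => exact ⟨1, Or.inl (by rw [e, ← (show y = x from hn)]; rfl)⟩
        | succ m => exact ⟨m, Or.inr (by rw [e, ← Function.iterate_succ_apply]; exact hn)⟩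
    · rcases hn with hn | hn
      · exact NRec0_back h₁ h₂ e hne n hn
      · exact ⟨n + 1, Or.inr (by rw [Function.iterate_succ_apply, e, hn])⟩

lemma NRec0_box {ρ₁ ρ₂ : V → V} (h₁ : IsExt ρ₁) (h₂ : IsExt ρ₂) {t : ℕ} {x : V}
    (hx : x ∈ box t) : pi2 ρ₁ ρ₂ x ∈ box (t + 1) := by
  rcases pi2_nbr h₁ h₂ x with e | e
  · rw [e]; exact box_mono (Nat.le_succ t) hx
  · obtain ⟨d, hd⟩ := nbr_iff.1 e
    rw [hd]; exact add_dv_mem_box hx d

lemma NRec0_ne {ρ₁ ρ₂ : V → V} {x : V} (h : ρ₁ x ≠ x ∧ ρ₂ x ≠ x) : pi2 ρ₁ ρ₂ x ≠ x := by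
  by_cases e : IsEven x
  · rw [NRec0_even e]; exact h.1
  · rw [NRec0_odd e]; exact h.2

theorem iterate_box {ρ₁ ρ₂ : V → V} (h₁ : IsExt ρ₁) (h₂ : IsExt ρ₂) {t : ℕ} {x : V}
    (hx : x ∈ box t) (n : ℕ) : (pi2 ρ₁ ρ₂)^[n] x ∈ box (t + n) := by
  induction n with
  | zero => exact hx
  | succ n ih =>
    rw [Function.iterate_succ_apply']
    exact NRec0_box h₁ h₂ ih

theorem iterate_dist {ρ₁ ρ₂ : V → V} (h₁ : IsExt ρ₁) (h₂ : IsExt ρ₂) (x : V) (n : ℕ) :
    ∑ i, |((pi2 ρ₁ ρ₂)^[n] x) i - x i| ≤ (n : ℤ) := by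
  induction n with
  | zero => simp
  | succ n ih =>
    rw [Function.iterate_succ_apply']
    set y := (pi2 ρ₁ ρ₂)^[n] x
    have a : ∑ i, |pi2 ρ₁ ρ₂ y i - y i| ≤ 1 := by
      rcases pi2_nbr h₁ h₂ y with e | e
      · rw [e]; simp
      · exact (nbr_symm e).le
    have b : ∑ i, |pi2 ρ₁ ρ₂ y i - x i| ≤ ∑ i, (|pi2 ρ₁ ρ₂ y i - y i| + |y i - x i|) :=
      sum_le_sum fun i _ => abs_sub_le _ _ _
    rw [sum_add_distrib] at b
    push_cast
    linarith only [ih, a, b]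

theorem iterate_injOn {ρ₁ ρ₂ : V → V} (h₁ : IsExt ρ₁) (h₂ : IsExt ρ₂) {r t n : ℕ}
    (hm : ∀ x ∈ box r, ρ₁ x ≠ x ∧ ρ₂ x ≠ x) (h : t + n ≤ r + 1) :
    Set.InjOn (pi2 ρ₁ ρ₂)^[n] (box t) := by
  induction n with
  | zero => exact fun a _ b _ e => e
  | succ n ih =>
    intro a ha b hb e
    rw [Function.iterate_succ_apply', Function.iterate_succ_apply'] at e
    refine ih (by omega) ha hb (pi2_inj h₁ h₂ ?_ ?_ e)
    · exact NRec0_ne (hm _ (box_mono (by omega) (iterate_box h₁ h₂ (mem_coe.1 ha) n)))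
    · exact NRec0_ne (hm _ (box_mono (by omega) (iterate_box h₁ h₂ (mem_coe.1 hb) n)))

theorem iterate_surj {ρ₁ ρ₂ : V → V} (h₁ : IsExt ρ₁) (h₂ : IsExt ρ₂) {r t n : ℕ}
    (hm : ∀ x ∈ box r, ρ₁ x ≠ x ∧ ρ₂ x ≠ x) (h : t + n ≤ r + 1) {z : V} (hz : z ∈ box t) :
    ∃ x ∈ box (t + n), (pi2 ρ₁ ρ₂)^[n] x = z := by
  induction n with
  | zero => exact ⟨z, hz, rfl⟩
  | succ n ih =>
    obtain ⟨x, hx, e⟩ := ih (by omega)
    refine ⟨pi2 ρ₂ ρ₁ x, NRec0_box h₂ h₁ hx, ?_⟩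
    rw [Function.iterate_succ_apply,
      pi2_swap h₁ h₂ (NRec0_ne (hm x (box_mono (by omega) hx)).symm), e]

theorem aT_nonneg (ρ₁ ρ₂ : V → V) (T : ℕ) (x : V) : 0 ≤ aT ρ₁ ρ₂ T x := by
  exact div_nonneg (sum_nonneg fun _ _ => abs_nonneg _) (Nat.cast_nonneg _)

theorem aT_le_one {ρ₁ ρ₂ : V → V} (h₁ : IsExt ρ₁) (h₂ : IsExt ρ₂) (T : ℕ) (x : V) :
    aT ρ₁ ρ₂ T x ≤ 1 := by
  refine div_le_one_of_le₀ ?_ (Nat.cast_nonneg _)
  have := iterate_dist h₁ h₂ x T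
  exact_mod_cast this

lemma NRec0_tel (f : V → V) (T r : ℕ) (x : V) :
    ∑ j, |(((f^[r * T] x) j - x j : ℤ) : ℝ)| ≤
      ∑ i ∈ range r, ∑ j, |(((f^[T] (f^[i * T] x)) j - (f^[i * T] x) j : ℤ) : ℝ)| := by
  induction r with
  | zero => simp
  | succ r ih =>
    rw [sum_range_succ, Nat.succ_mul, add_comm (r * T) T, Function.iterate_add_apply]
    have b : ∑ j, |(((f^[T] (f^[r * T] x)) j - x j : ℤ) : ℝ)| ≤
        ∑ j, (|(((f^[T] (f^[r * T] x)) j - (f^[r * T] x) j : ℤ) : ℝ)| +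
          |(((f^[r * T] x) j - x j : ℤ) : ℝ)|) :=
      sum_le_sum fun j _ => by push_cast; exact abs_sub_le _ _ _
    rw [sum_add_distrib] at b
    linarith only [ih, b]

theorem aT_sub (ρ₁ ρ₂ : V → V) (T r : ℕ) (x : V) :
    aT ρ₁ ρ₂ (r * T) x ≤ (∑ i ∈ range r, aT ρ₁ ρ₂ T ((pi2 ρ₁ ρ₂)^[i * T] x)) / r := by
  simp only [aT]
  rw [← sum_div, div_div, Nat.cast_mul, mul_comm (T : ℝ) r]
  exact div_le_div_of_nonneg_right (NRec0_tel _ T r x) (by positivity)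

theorem Jd_pi {ρ₁ ρ₂ : V → V} (h₁ : IsExt ρ₁) (h₂ : IsExt ρ₂) (x : V) (d : Dir) :
    Jd ρ₁ ρ₂ x d = (if pi2 ρ₁ ρ₂ x = x + dv d then 1 else 0) -
      if pi2 ρ₁ ρ₂ (x + dv d) = x then 1 else 0 := by
  have k : ∀ {ρ : V → V}, IsExt ρ → (ρ (x + dv d) = x ↔ ρ x = x + dv d) := fun {ρ} h =>
    ⟨fun e => by rw [← (h (x + dv d)).2, e], fun e => by rw [← e, (h x).2]⟩
  by_cases e : IsEven x
  · have e' : ¬ IsEven (x + dv d) := by rw [isEven_add_dv]; exact not_not.2 e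
    rw [NRec0_even e, NRec0_odd e']
    simp only [Jd, sg, if_pos e, k h₂, one_mul]
  · have e' : IsEven (x + dv d) := isEven_add_dv.2 e
    rw [NRec0_odd e, NRec0_even e']
    simp only [Jd, sg, if_neg e, k h₁]
    ring

theorem isExt_cel {ρ : V → V} (h : IsExt ρ) (b : ℕ) (c : V) : IsExt (cel b c ρ) := by
  exact Cls_isExt_res (isExt_sh h _) _

theorem cel_mem_cls {ρ : V → V} (h : IsExt ρ) (b : ℕ) (c : V) : cel b c ρ ∈ cls (box b) id := by
  exact mem_cls.2 ⟨isExt_cel h b c, fun x hx => if_neg fun k => hx k.1⟩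

theorem cel_apply {ρ : V → V} (h : IsExt ρ) {b : ℕ} (hb : 1 ≤ b) (c : V) {x : V}
    (hx : x ∈ box (b - 1)) : cel b c ρ x = ρ (x + c) - c := by
  have a : sh (-c) ρ x ∈ box b := by
    rcases (isExt_sh h (-c) x).1 with e | e
    · rw [e]; exact box_mono (Nat.sub_le _ _) hx
    · obtain ⟨d, hd⟩ := nbr_iff.1 e
      rw [hd]
      exact box_mono (by omega) (add_dv_mem_box hx d)
  have e : cel b c ρ x = sh (-c) ρ x := if_pos ⟨box_mono (Nat.sub_le _ _) hx, a⟩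
  rw [e, sh, sub_neg_eq_add, sub_eq_add_neg]

theorem cel_mem_PL {ρ : V → V} (h : IsExt ρ) {b : ℕ} (hb : 1 ≤ b) {c : V}
    (hm : ∀ x ∈ tr c (box b), ρ x ≠ x) : cel b c ρ ∈ PL b := by
  refine mem_filter.2 ⟨cel_mem_cls h b c, fun x hx => ?_⟩
  obtain ⟨a, e⟩ := mem_mon.1 hx
  refine mem_lev.2 ⟨a, fun k => ?_⟩
  rw [cel_apply h hb c k, sub_eq_iff_eq_add] at e
  exact hm (x + c) (mem_tr.2 (by rwa [add_sub_cancel_right])) e

theorem PL_ne {L : ℕ} {κ : V → V} (h : κ ∈ PL L) {x : V} (hx : x ∈ box (L - 1)) : κ x ≠ x := by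
  intro e
  exact (mem_lev.1 ((mem_filter.1 h).2 (mem_mon.2 ⟨box_mono (Nat.sub_le _ _) hx, e⟩))).2 hx

theorem PL_isExt {L : ℕ} {κ : V → V} (h : κ ∈ PL L) : IsExt κ := by
  exact (mem_cls.1 (mem_filter.1 h).1).1

theorem aT_cel {ρ₁ ρ₂ : V → V} (h₁ : IsExt ρ₁) (h₂ : IsExt ρ₂) {b t T : ℕ} (h : t + T ≤ b)
    {c : V} (hc : IsEven c) {x : V} (hx : x ∈ box t) :
    aT (cel b c ρ₁) (cel b c ρ₂) T x = aT ρ₁ ρ₂ T (x + c) := by
  have k : ∀ n, n ≤ T → (pi2 (cel b c ρ₁) (cel b c ρ₂))^[n] x = (pi2 ρ₁ ρ₂)^[n] (x + c) - c := by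
    intro n
    induction n with
    | zero => intro _; simp
    | succ n ih =>
      intro hn
      have a : (pi2 (cel b c ρ₁) (cel b c ρ₂))^[n] x ∈ box (b - 1) :=
        box_mono (by omega) (iterate_box (isExt_cel h₁ b c) (isExt_cel h₂ b c) hx n)
      have e : (pi2 ρ₁ ρ₂)^[n] (x + c) = (pi2 (cel b c ρ₁) (cel b c ρ₂))^[n] x + c := by
        rw [ih (by omega), sub_add_cancel]
      rw [Function.iterate_succ_apply', Function.iterate_succ_apply', e]
      generalize (pi2 (cel b c ρ₁) (cel b c ρ₂))^[n] x = y at a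
      by_cases p : IsEven y
      · rw [NRec0_even p, NRec0_even (isEven_add.2 (iff_of_true p hc)),
          cel_apply h₁ (by omega) c a]
      · rw [NRec0_odd p, NRec0_odd (fun q => p ((isEven_add.1 q).2 hc)),
          cel_apply h₂ (by omega) c a]
  simp only [aT, k T le_rfl, Pi.sub_apply, Pi.add_apply, sub_sub, add_comm (c _)]

theorem FQp_cel (s : Fin 3 → ℝ) {ρ : V → V} (h : IsExt ρ) {b : ℕ} (hb : 1 ≤ b) {c : V}
    (hc : IsEven c) (d : Dir) (q : V) (l : ℕ) (hq : sq d.1 q l ⊆ box (b - 1)) :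
    FQp s (cel b c ρ) d q l = FQp s ρ d (q + c) l := by
  unfold FQp
  refine sum_nbij' (fun x => x + c) (fun x => x - c) (fun x hx => ?_) (fun x hx => ?_)
    (fun x _ => add_sub_cancel_right x c) (fun x _ => sub_add_cancel x c) fun x hx => ?_
  · obtain ⟨a, e⟩ := mem_sq.1 hx
    refine mem_sq.2 ⟨by simp only [Pi.add_apply, a], fun j hj => ?_⟩
    have := e j hj
    simp only [Pi.add_apply]
    omega
  · obtain ⟨a, e⟩ := mem_sq.1 hx
    refine mem_sq.2 ⟨by simp only [Pi.sub_apply, a, Pi.add_apply, add_sub_cancel_right],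
      fun j hj => ?_⟩
    have := e j hj
    simp only [Pi.add_apply] at this
    simp only [Pi.sub_apply]
    omega
  · have p : IsEven (x + c) ↔ IsEven x := by rw [isEven_add]; tauto
    have e : ρ (x + c) - c = x + dv d ↔ ρ (x + c) = x + c + dv d := by
      rw [sub_eq_iff_eq_add, add_right_comm]
    simp only [flp, sg, pe, cel_apply h hb c (hq hx), p, e]

end Pool.Agent.Work.MP_5cb0a4_pr.Z
end

-- merged part: Pool.Agent.Work.MP_5cb0a4_pr.N.Rec1
section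
open MeasureTheory Finset Filter Topology
open scoped Classical

namespace Pool.Agent.Work.MP_5cb0a4_pr.Z

theorem self_mem_cpl {Λ : Finset V} {κ₁ κ₂ : V → V} (h₁ : κ₁ ∈ cls Λ id) (h₂ : κ₂ ∈ cls Λ id) :
    (κ₁, κ₂) ∈ cpl Λ κ₁ κ₂ := by
  exact mem_filter.2 ⟨mem_product.2 ⟨h₁, h₂⟩, rfl⟩

theorem cpl_eq {Λ : Finset V} {κ₁ κ₂ : V → V} {p : (V → V) × (V → V)} (h : p ∈ cpl Λ κ₁ κ₂) :
    cpl Λ p.1 p.2 = cpl Λ κ₁ κ₂ := by
  unfold cpl
  rw [(mem_filter.1 h).2]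

theorem cpl_PL {L : ℕ} {κ₁ κ₂ : V → V} (h₁ : κ₁ ∈ PL L) (h₂ : κ₂ ∈ PL L) :
    cpl (box L) κ₁ κ₂ ⊆ PL L ×ˢ PL L := by
  intro p hp
  obtain ⟨hp, e⟩ := mem_filter.1 hp
  obtain ⟨p₁, p₂⟩ := mem_product.1 hp
  have key : ∀ x ∈ box L, x ∈ un2 κ₁ κ₂ x → x ∈ lev L := fun x hx hm => by
    rcases Sym2.mem_iff.1 hm with h | h
    · exact (mem_filter.1 h₁).2 (mem_mon.2 ⟨hx, h.symm⟩)
    · exact (mem_filter.1 h₂).2 (mem_mon.2 ⟨hx, h.symm⟩)
  refine mem_product.2 ⟨mem_filter.2 ⟨p₁, fun x hx => key x (mem_mon.1 hx).1 ?_⟩,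
    mem_filter.2 ⟨p₂, fun x hx => key x (mem_mon.1 hx).1 ?_⟩⟩
  · rw [← e]
    exact Sym2.mem_iff.2 (Or.inl (mem_mon.1 hx).2.symm)
  · rw [← e]
    exact Sym2.mem_iff.2 (Or.inr (mem_mon.1 hx).2.symm)

theorem NRec1_alt {κ₁ κ₂ ρ₁ ρ₂ : V → V} (h : un2 ρ₁ ρ₂ = un2 κ₁ κ₂) (v : V) :
    (ρ₁ v = κ₁ v ∧ ρ₂ v = κ₂ v) ∨ (ρ₁ v = κ₂ v ∧ ρ₂ v = κ₁ v) :=
  Sym2.eq_iff.1 (congrFun h v)

theorem NRec1_un2_swap (κ₁ κ₂ : V → V) : un2 κ₁ κ₂ = un2 κ₂ κ₁ :=
  funext fun _ => Sym2.eq_swap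

theorem NRec1_conn {κ₁ κ₂ ρ₁ ρ₂ : V → V} (h : un2 ρ₁ ρ₂ = un2 κ₁ κ₂) :
    Conn ρ₁ ρ₂ = Conn κ₁ κ₂ := by
  unfold Conn
  congr 1
  funext u v
  rcases NRec1_alt h u with a | a
  · rw [a.1, a.2]
  · rw [a.1, a.2]
    exact propext Or.comm

theorem NRec1_prop {κ₁ κ₂ ρ₁ ρ₂ : V → V} (h₁ : IsExt κ₁) (h₂ : IsExt κ₂) (h₁' : IsExt ρ₁)
    (h₂' : IsExt ρ₂) (h : un2 ρ₁ ρ₂ = un2 κ₁ κ₂) {x y : V} (hc : Conn κ₁ κ₂ x y)
    (hx : ρ₁ x = κ₁ x ∧ ρ₂ x = κ₂ x) : ρ₁ y = κ₁ y ∧ ρ₂ y = κ₂ y := by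
  induction hc with
  | refl => exact hx
  | @tail u v _ hs ih =>
    rcases NRec1_alt h v with a | a
    · exact a
    · rcases hs with e | e
      · have b : κ₁ v = u := by rw [← e, (h₁ u).2]
        have b' : ρ₁ v = u := by rw [← e, ← ih.1, (h₁' u).2]
        exact ⟨b'.trans b.symm, a.2.trans (b.trans (b'.symm.trans a.1))⟩
      · have b : κ₂ v = u := by rw [← e, (h₂ u).2]
        have b' : ρ₂ v = u := by rw [← e, ← ih.2, (h₂' u).2]
        exact ⟨a.1.trans (b.trans (b'.symm.trans a.2)), b'.trans b.symm⟩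

/-- The sum over the components does not depend on the colouring: on a component two colourings
agree or are exchanged. -/
theorem J2_congr {κ₁ κ₂ ρ₁ ρ₂ : V → V} (h₁ : IsExt κ₁) (h₂ : IsExt κ₂) (h₁' : IsExt ρ₁)
    (h₂' : IsExt ρ₂) (h : un2 ρ₁ ρ₂ = un2 κ₁ κ₂) (d : Dir) (c : V) (l : ℕ) :
    J2 ρ₁ ρ₂ d c l = J2 κ₁ κ₂ d c l := by
  unfold J2
  rw [NRec1_conn h]
  refine sum_congr rfl fun x _ => sum_congr rfl fun x' _ => ?_
  split_ifs with hc
  · rcases NRec1_alt h x with a | a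
    · have a' := NRec1_prop h₁ h₂ h₁' h₂' h hc a
      simp only [Jd, a.1, a.2, a'.1, a'.2]
    · have a' := NRec1_prop h₂ h₁ h₁' h₂' (h.trans (NRec1_un2_swap κ₁ κ₂)) hc.swap a
      simp only [Jd, a.1, a.2, a'.1, a'.2]
      ring
  · rfl

theorem NRec1_sum (s : Fin 3 → ℝ) {κ₁ κ₂ ρ₁ ρ₂ : V → V} (h : un2 ρ₁ ρ₂ = un2 κ₁ κ₂) (d : Dir)
    (c : V) (l : ℕ) :
    FQp s ρ₁ d c l + FQp s ρ₂ d c l = FQp s κ₁ d c l + FQp s κ₂ d c l := by
  unfold FQp
  rw [← sum_add_distrib, ← sum_add_distrib]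
  refine sum_congr rfl fun x _ => ?_
  rcases NRec1_alt h x with a | a
  · simp only [flp, a.1, a.2]
  · simp only [flp, a.1, a.2]
    ring

theorem NRec1_sq (s : Fin 3 → ℝ) (ρ₁ ρ₂ : V → V) (d : Dir) (c : V) (l : ℕ) :
    (FQp s ρ₁ d c l - FQp s ρ₂ d c l) ^ 2 = J2 ρ₁ ρ₂ d c l +
      ∑ x ∈ sq d.1 c l, ∑ x' ∈ sq d.1 c l,
        if Conn ρ₁ ρ₂ x x' then 0 else Jd ρ₁ ρ₂ x d * Jd ρ₁ ρ₂ x' d := by
  have e : FQp s ρ₁ d c l - FQp s ρ₂ d c l = ∑ x ∈ sq d.1 c l, Jd ρ₁ ρ₂ x d := by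
    unfold FQp
    rw [← sum_sub_distrib]
    refine sum_congr rfl fun x _ => ?_
    simp only [flp, Jd]
    ring
  rw [e, pow_two, sum_mul_sum, J2, ← sum_add_distrib]
  refine sum_congr rfl fun x _ => ?_
  rw [← sum_add_distrib]
  refine sum_congr rfl fun x' _ => ?_
  split_ifs
  · rw [add_zero]
  · rw [zero_add]

theorem NRec1_un2_switch (x : V) (p : (V → V) × (V → V)) :
    un2 (Switch_map x p).1 (Switch_map x p).2 = un2 p.1 p.2 := by
  funext v
  simp only [un2, Switch_map, swp]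
  split_ifs
  · exact Sym2.eq_swap
  · rfl

theorem NRec1_switch_mem {Λ : Finset V} {κ₁ κ₂ : V → V} (x : V) {p : (V → V) × (V → V)}
    (hp : p ∈ cpl Λ κ₁ κ₂) : Switch_map x p ∈ cpl Λ κ₁ κ₂ := by
  obtain ⟨hp, e⟩ := mem_filter.1 hp
  obtain ⟨p₁, p₂⟩ := mem_product.1 hp
  rw [mem_cls] at p₁ p₂
  have k1 : ∀ v ∈ {v | Conn p.1 p.2 x v}, p.1 v ∈ {v | Conn p.1 p.2 x v} := fun v hv =>
    Relation.ReflTransGen.tail hv (Or.inl rfl)
  have k2 : ∀ v ∈ {v | Conn p.1 p.2 x v}, p.2 v ∈ {v | Conn p.1 p.2 x v} := fun v hv =>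
    Relation.ReflTransGen.tail hv (Or.inr rfl)
  refine mem_filter.2 ⟨mem_product.2 ⟨mem_cls.2 ⟨isExt_swp p₁.1 p₂.1 k1 k2, fun v hv => ?_⟩,
    mem_cls.2 ⟨isExt_swp p₂.1 p₁.1 k2 k1, fun v hv => ?_⟩⟩, (NRec1_un2_switch x p).trans e⟩
  · simp only [Switch_map, swp]
    split_ifs
    exacts [p₂.2 v hv, p₁.2 v hv]
  · simp only [Switch_map, swp]
    split_ifs
    exacts [p₁.2 v hv, p₂.2 v hv]

theorem NRec1_zero (Λ : Finset V) (κ₁ κ₂ : V → V) (d : Dir) (x x' : V) :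
    ∑ p ∈ cpl Λ κ₁ κ₂,
      (if Conn p.1 p.2 x x' then 0 else Jd p.1 p.2 x d * Jd p.1 p.2 x' d) = 0 := by
  have key : ∀ p : (V → V) × (V → V),
      (if Conn p.1 p.2 x x' then 0 else Jd p.1 p.2 x d * Jd p.1 p.2 x' d) +
      (if Conn (Switch_map x p).1 (Switch_map x p).2 x x' then 0 else
        Jd (Switch_map x p).1 (Switch_map x p).2 x d *
          Jd (Switch_map x p).1 (Switch_map x p).2 x' d) = 0 := by
    intro p
    rw [NRec1_conn (NRec1_un2_switch x p)]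
    split_ifs with hc
    · rw [add_zero]
    · have hx : Conn p.1 p.2 x x := Relation.ReflTransGen.refl
      have a1 : (Switch_map x p).1 x = p.2 x := if_pos hx
      have a2 : (Switch_map x p).2 x = p.1 x := if_pos hx
      have a3 : (Switch_map x p).1 x' = p.1 x' := if_neg hc
      have a4 : (Switch_map x p).2 x' = p.2 x' := if_neg hc
      simp only [Jd, a1, a2, a3, a4]
      ring
  refine sum_involution (fun p _ => Switch_map x p) (fun p _ => key p) (fun p _ hne he => hne ?_)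
    (fun p hp => NRec1_switch_mem x hp) fun p _ => Switch_invol x p
  have := key p
  rw [show Switch_map x p = p from he] at this
  linarith only [this]

/-- Second moment over the recolourings (exchange on one component, `Switch_map`). -/
theorem class_mean (s : Fin 3 → ℝ) {Λ : Finset V} {κ₁ κ₂ : V → V} (h₁ : κ₁ ∈ cls Λ id)
    (h₂ : κ₂ ∈ cls Λ id) (d : Dir) (c : V) (l : ℕ) :
    ∑ p ∈ cpl Λ κ₁ κ₂, (FQp s p.1 d c l ^ 2 + FQp s p.2 d c l ^ 2) =
      (cpl Λ κ₁ κ₂).card * (((FQp s κ₁ d c l + FQp s κ₂ d c l) ^ 2 + J2 κ₁ κ₂ d c l) / 2) := by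
  have e₁ := (mem_cls.1 h₁).1
  have e₂ := (mem_cls.1 h₂).1
  have key : ∀ p ∈ cpl Λ κ₁ κ₂, FQp s p.1 d c l ^ 2 + FQp s p.2 d c l ^ 2 =
      ((FQp s κ₁ d c l + FQp s κ₂ d c l) ^ 2 + J2 κ₁ κ₂ d c l) / 2 +
        (∑ x ∈ sq d.1 c l, ∑ x' ∈ sq d.1 c l,
          if Conn p.1 p.2 x x' then 0 else Jd p.1 p.2 x d * Jd p.1 p.2 x' d) / 2 := by
    intro p hp
    obtain ⟨hp, e⟩ := mem_filter.1 hp
    obtain ⟨p₁, p₂⟩ := mem_product.1 hp
    rw [← NRec1_sum s e d c l, ← J2_congr e₁ e₂ (mem_cls.1 p₁).1 (mem_cls.1 p₂).1 e d c l]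
    have := NRec1_sq s p.1 p.2 d c l
    linarith only [this]
  rw [sum_congr rfl key, sum_add_distrib, sum_const, nsmul_eq_mul, ← sum_div, sum_comm]
  rw [sum_eq_zero fun x _ => ?_, zero_div, add_zero]
  rw [sum_comm]
  exact sum_eq_zero fun x' _ => NRec1_zero Λ κ₁ κ₂ d x x'

/-- Counting through the classes: if every class that meets `A` has mean of `F` at least `a`, then
`a * card A ≤ ∑ F`. -/
theorem cpl_count {L : ℕ} (A : Finset ((V → V) × (V → V))) (hA : A ⊆ PL L ×ˢ PL L)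
    (F : (V → V) × (V → V) → ℝ) (hF : ∀ p, 0 ≤ F p) {a : ℝ}
    (h : ∀ κ ∈ A, a * (cpl (box L) κ.1 κ.2).card ≤ ∑ p ∈ cpl (box L) κ.1 κ.2, F p) :
    a * A.card ≤ ∑ p ∈ PL L ×ˢ PL L, F p := by
  rcases le_or_gt a 0 with ha | ha
  · exact (mul_nonpos_of_nonpos_of_nonneg ha (Nat.cast_nonneg _)).trans
      (sum_nonneg fun p _ => hF p)
  let u : (V → V) × (V → V) → V → Sym2 V := fun p => un2 p.1 p.2
  rw [card_eq_sum_card_image u A, Nat.cast_sum, mul_sum]
  refine le_trans (sum_le_sum fun U hU => ?_)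
    (sum_fiberwise_le_sum_of_sum_fiber_nonneg (t := A.image u) (g := u)
      fun _ _ => sum_nonneg fun p _ => hF p)
  obtain ⟨κ, hκ, rfl⟩ := mem_image.1 hU
  obtain ⟨k₁, k₂⟩ := mem_product.1 (hA hκ)
  refine le_trans (mul_le_mul_of_nonneg_left (Nat.cast_le.2 (card_le_card fun p hp => ?_)) ha.le)
    ((h κ hκ).trans (sum_le_sum_of_subset_of_nonneg (fun p hp => ?_) fun p _ _ => hF p))
  · obtain ⟨hp, e⟩ := mem_filter.1 hp
    obtain ⟨p₁, p₂⟩ := mem_product.1 (hA hp)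
    exact mem_filter.2 ⟨mem_product.2 ⟨(mem_filter.1 p₁).1, (mem_filter.1 p₂).1⟩, e⟩
  · exact mem_filter.2 ⟨cpl_PL k₁ k₂ hp, (mem_filter.1 hp).2⟩

theorem NRec1_Psp_nonneg (s : Fin 3 → ℝ) (lo hi l : ℕ) (σ : V → V) : 0 ≤ Psp s lo hi l σ := by
  unfold Psp lsum
  exact sum_nonneg fun _ _ => sum_nonneg fun _ _ => sum_nonneg fun _ _ => sq_nonneg _

theorem NRec1_mean (s : Fin 3 → ℝ) (lo hi l : ℕ) {Λ : Finset V} {κ₁ κ₂ : V → V}
    (h₁ : κ₁ ∈ cls Λ id) (h₂ : κ₂ ∈ cls Λ id) :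
    ∑ p ∈ cpl Λ κ₁ κ₂, (Psp s lo hi l p.1 + Psp s lo hi l p.2) =
      (cpl Λ κ₁ κ₂).card * Rq s lo hi l κ₁ κ₂ := by
  unfold Psp Rq lsum
  simp only [← sum_add_distrib, mul_sum]
  rw [sum_comm]
  refine sum_congr rfl fun t _ => ?_
  rw [sum_comm]
  refine sum_congr rfl fun d _ => ?_
  rw [sum_comm]
  exact sum_congr rfl fun q _ => class_mean s h₁ h₂ d _ l

theorem rec_count (s : Fin 3 → ℝ) (b lo hi l : ℕ) {θ : ℝ} (hθ : 0 < θ) :
    ((PL b ×ˢ PL b).filter fun κ => 2 * Rq s lo hi l κ.1 κ.2 ≤ θ).card ≤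
      2 * ((PL b).filter fun κ => Psp s lo hi l κ < θ).card ^ 2 := by
  let F : (V → V) × (V → V) → ℝ := fun p =>
    (if Psp s lo hi l p.1 < θ then 1 else 0) * if Psp s lo hi l p.2 < θ then 1 else 0
  have hF : ∀ p, 0 ≤ F p := fun p => by
    simp only [F]
    split_ifs <;> norm_num
  have h := cpl_count (L := b) ((PL b ×ˢ PL b).filter fun κ => 2 * Rq s lo hi l κ.1 κ.2 ≤ θ)
    (filter_subset _ _) F hF (a := 1 / 2) fun κ hκ => by
      obtain ⟨hκ, hR⟩ := mem_filter.1 hκ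
      obtain ⟨k₁, k₂⟩ := mem_product.1 hκ
      have m := NRec1_mean s lo hi l (mem_filter.1 k₁).1 (mem_filter.1 k₂).1
      have m2 : ∑ p ∈ cpl (box b) κ.1 κ.2, θ * (1 - F p) ≤
          ∑ p ∈ cpl (box b) κ.1 κ.2, (Psp s lo hi l p.1 + Psp s lo hi l p.2) :=
        sum_le_sum fun p _ => by
          have a := NRec1_Psp_nonneg s lo hi l p.1
          have a' := NRec1_Psp_nonneg s lo hi l p.2
          simp only [F]
          split_ifs <;> linarith
      rw [m, ← mul_sum, sum_sub_distrib, sum_const, nsmul_eq_mul, mul_one] at m2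
      have c0 : (0 : ℝ) ≤ (cpl (box b) κ.1 κ.2).card := Nat.cast_nonneg _
      refine le_of_mul_le_mul_left ?_ hθ
      linarith only [m2, hR, c0, mul_le_mul_of_nonneg_left hR c0]
  have e : ∑ p ∈ PL b ×ˢ PL b, F p =
      (((PL b).filter fun κ => Psp s lo hi l κ < θ).card : ℝ) ^ 2 := by
    rw [sum_product, card_filter, pow_two]
    push_cast
    rw [sum_mul_sum]
  rw [e] at h
  have h' : ((((PL b ×ˢ PL b).filter fun κ => 2 * Rq s lo hi l κ.1 κ.2 ≤ θ).card : ℕ) : ℝ) ≤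
      2 * (((PL b).filter fun κ => Psp s lo hi l κ < θ).card : ℝ) ^ 2 := by linarith only [h]
  exact_mod_cast h'

end Pool.Agent.Work.MP_5cb0a4_pr.Z
end

-- merged part: Pool.Agent.Work.MP_5cb0a4_pr.N.LP1
section
open MeasureTheory Finset Filter Topology
open scoped Classical

namespace Pool.Agent.Work.MP_5cb0a4_pr.Z

lemma NLP1_ne (τ : Dimer) (x : V) : τ.1 x ≠ x := Cls2_nbr_ne (τ.2 x).1

lemma NLP1_two {A B : Finset V} (h : Disjoint A B) {σ : V → V} (hσ : IsExt σ) :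
    zz A σ * zz B σ ≤ zz (A ∪ B) σ := by
  rw [zz, zz, ← card_product]
  refine card_le_card_of_injOn (fun p x => if x ∈ A then p.1 x else p.2 x) ?_ ?_
  · rintro ⟨ρ, ρ'⟩ hp
    obtain ⟨h1, h2⟩ := mem_product.1 (mem_coe.1 hp)
    obtain ⟨a1, a2⟩ := mem_perf.1 h1
    obtain ⟨⟨b1, b2⟩, b3⟩ := mem_perf.1 h2
    have g := mem_cls.1 (Cls_glue hσ b1 (fun x hx => (b2 x (disjoint_left.1 h hx)).symm)
      (mem_cls.2 a1))
    refine mem_coe.2 (mem_perf.2 ⟨⟨g.1, fun x hx => ?_⟩, fun x hx => ?_⟩)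
    · rw [notMem_union] at hx
      simp only [if_neg hx.1]
      exact b2 x hx.2
    · by_cases hA : x ∈ A
      · simp only [if_pos hA]
        exact a2 x hA
      · simp only [if_neg hA]
        exact b3 x ((mem_union.1 hx).resolve_left hA)
  · rintro ⟨ρ₁, ρ₂⟩ hp ⟨ρ₁', ρ₂'⟩ hp' e
    obtain ⟨h1, h2⟩ := mem_product.1 (mem_coe.1 hp)
    obtain ⟨h1', h2'⟩ := mem_product.1 (mem_coe.1 hp')
    refine Prod.ext (funext fun x => ?_) (funext fun x => ?_) <;> have := congrFun e x <;>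
      by_cases hA : x ∈ A
    · simpa only [if_pos hA] using this
    · exact ((mem_perf.1 h1).1.2 x hA).trans ((mem_perf.1 h1').1.2 x hA).symm
    · exact ((mem_perf.1 h2).1.2 x (disjoint_left.1 h hA)).trans
        ((mem_perf.1 h2').1.2 x (disjoint_left.1 h hA)).symm
    · simpa only [if_neg hA] using this

lemma NLP1_mono {A B : Finset V} (h : A ⊆ B) (τ : Dimer) : zz A τ.1 ≤ zz B τ.1 := by
  refine card_le_card fun ρ hρ => ?_
  obtain ⟨⟨a1, a2⟩, a3⟩ := mem_perf.1 hρ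
  refine mem_perf.2 ⟨⟨a1, fun x hx => a2 x fun k => hx (h k)⟩, fun x _ => ?_⟩
  by_cases hA : x ∈ A
  · exact a3 x hA
  · rw [a2 x hA]
    exact NLP1_ne τ x

theorem zz_prod (S : Finset V) (Λ : V → Finset V) (U : Finset V) (hsub : ∀ c ∈ S, Λ c ⊆ U)
    (hdisj : ∀ i ∈ S, ∀ j ∈ S, i ≠ j → Disjoint (Λ i) (Λ j)) (τ : Dimer) :
    ∏ c ∈ S, zz (Λ c) τ.1 ≤ zz U τ.1 := by
  refine le_trans ?_ (NLP1_mono (biUnion_subset.2 hsub) τ)
  clear hsub
  induction S using Finset.induction_on with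
  | empty => exact zz_dimer_pos _ τ
  | insert c S hc ih =>
    rw [prod_insert hc, biUnion_insert]
    refine (Nat.mul_le_mul_left _ (ih fun i hi j hj =>
      hdisj i (mem_insert_of_mem hi) j (mem_insert_of_mem hj))).trans (NLP1_two ?_ (isExt_dimer τ))
    exact (disjoint_biUnion_right _ _ _).2 fun j hj =>
      hdisj c (mem_insert_self _ _) j (mem_insert_of_mem hj) fun e => hc (e ▸ hj)

theorem local_log_zz (Λ : Finset V) : Local Λ fun σ => Real.log (zz Λ σ) := by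
  intro σ σ' a b c
  exact congrArg (fun n : ℕ => Real.log n) (local_Zm Λ ∅ σ σ' a b c)

lemma NLP1_seven (k : ℕ) : Real.log (7 ^ k) ≤ 2 * k := by
  have e1 : (2.7 : ℝ) ≤ Real.exp 1 := by linarith only [Real.exp_one_gt_d9]
  have e2 : (7 : ℝ) ≤ Real.exp 2 := by
    rw [show (2 : ℝ) = 1 + 1 by norm_num, Real.exp_add]
    linarith only [e1, mul_nonneg_of_nonpos_of_nonpos (Mathlib.Tactic.Linarith.sub_nonpos_of_le e1) (Mathlib.Tactic.Linarith.sub_nonpos_of_le e1)]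
  rw [Real.log_pow, mul_comm]
  exact mul_le_mul_of_nonneg_right ((Real.log_le_iff_le_exp (by norm_num)).2 e2) (Nat.cast_nonneg k)

lemma NLP1_log {n k : ℕ} (h : n ≤ 7 ^ k) : Real.log (max (n : ℝ) 1) ≤ 2 * k :=
  (Real.log_le_log (lt_max_of_lt_right one_pos)
    (max_le (by exact_mod_cast h) (one_le_pow₀ (by norm_num)))).trans (NLP1_seven k)

theorem log_zz_le (Λ : Finset V) (σ : V → V) : Real.log (zz Λ σ) ≤ 2 * Λ.card := by
  refine le_trans ?_ (NLP1_log (n := zz Λ σ) ((card_filter_le _ _).trans (card_cls_le Λ σ)))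
  rcases Nat.eq_zero_or_pos (zz Λ σ) with h | h
  · simp [h]
  · rw [max_eq_left (by exact_mod_cast h)]

lemma NLP1_sh (c : V) (Λ : Finset V) (ρ : V → V) : zz (tr c Λ) ρ = zz Λ (sh (-c) ρ) := by
  have := Zm_sh c Λ (sh (-c) ρ) ∅
  rwa [sh_sh, add_neg_cancel, sh_zero, Cls_tr_empty] at this

lemma NLP1_int {ν : Measure Dimer} (h : IM ν) (b J : ℕ) :
    ∫ τ, ∑ c ∈ grid b J, Real.log (zz (tr c (box b)) τ.1) ∂ν =
      (grid b J).card * ∫ τ, Real.log (zz (box b) τ.1) ∂ν := by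
  have := h.prob
  rw [integral_finsetSum _ fun c _ => (local_log_zz _).integrable ν, ← nsmul_eq_mul, ← sum_const]
  refine sum_congr rfl fun c hc => ?_
  simp only [NLP1_sh]
  exact h.integral_sh (local_log_zz (box b)) (isEven_neg.2 (grid_even hc))

theorem lp_box {ν : Measure Dimer} (h : IM ν) {b J L : ℕ}
    (hL : ∀ c ∈ grid b J, tr c (box b) ⊆ box L) :
    (grid b J).card * ∫ τ, Real.log (zz (box b) τ.1) ∂ν ≤ ∫ τ, Real.log (zz (box L) τ.1) ∂ν := by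
  have := h.prob
  rw [← NLP1_int h]
  refine integral_mono (integrable_finsetSum _ fun c _ => (local_log_zz _).integrable ν)
    ((local_log_zz _).integrable ν) fun τ => ?_
  have h0 : ∀ c ∈ grid b J, (0 : ℝ) < zz (tr c (box b)) τ.1 := fun c _ => by
    exact_mod_cast zz_dimer_pos _ τ
  simp only
  rw [← Real.log_prod fun c hc => (h0 c hc).ne']
  refine Real.log_le_log (prod_pos h0) ?_
  exact_mod_cast zz_prod (grid b J) (fun c => tr c (box b)) (box L) hL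
    (fun i hi j hj => grid_disj hi hj) τ

/-- Patching the inner parts of the configurations counted by `Nn`. -/
theorem zz_ge_Nn {s : Fin 3 → ℝ} {k C : ℕ} {c : ℝ} (hp : PatchAt s k c C) {b l : ℕ} (hl : 1 ≤ l)
    (hb : C * l ^ 3 ≤ b ^ 2) (τ : Dimer)
    (h : PsO s b k l τ.1 < c * (b : ℝ) ^ 3 * (l : ℝ) ^ 2) :
    Nn s b k l c ≤ zz (box b) τ.1 * 7 ^ (box b \ box (rin b k)).card := by
  have h0 : mon (box (rin b k)) τ.1 = ∅ :=
    eq_empty_of_forall_notMem fun x hx => NLP1_ne τ x (mem_mon.1 hx).2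
  have key : ∀ κ ∈ (PL b).filter fun κ => PsI s b k l κ < c * (b : ℝ) ^ 3 * (l : ℝ) ^ 2,
      ∃ ρ ∈ perf (box b) τ.1, ∀ x ∈ box (rin b k), ρ x = κ x := fun κ hκ =>
    hp l b hl hb τ.1 κ (isExt_dimer τ) (PL_isExt (mem_filter.1 hκ).1)
      (fun x hx => PL_ne (mem_filter.1 hκ).1 hx) (fun x _ _ => NLP1_ne τ x) (by rw [h0, sum_empty]) h
      (mem_filter.1 hκ).2
  choose! f hf hf' using key
  rw [mul_comm]
  refine card_le_mul_card_image_of_maps_to hf _ fun ρ _ => le_trans (card_le_card fun κ hκ => ?_)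
    (card_cls_le _ fun x => if x ∈ box (rin b k) then ρ x else x)
  obtain ⟨h1, rfl⟩ := mem_filter.1 hκ
  obtain ⟨h2, h3⟩ := mem_cls.1 (mem_filter.1 (mem_filter.1 h1).1).1
  refine mem_cls.2 ⟨h2, fun x hx => ?_⟩
  by_cases hr : x ∈ box (rin b k)
  · rw [if_pos hr, hf' κ h1 x hr]
  · rw [if_neg hr]
    exact h3 x fun k => hx (mem_sdiff.2 ⟨k, hr⟩)

theorem lp_cell {ν : Measure Dimer} (h : IM ν) {s : Fin 3 → ℝ} {k C : ℕ} {c η : ℝ} (hc : 0 < c)
    (hp : PatchAt s k c C) {b l : ℕ} (hl : 1 ≤ l) (hb1 : 1 ≤ b) (hb : C * l ^ 3 ≤ b ^ 2)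
    (hη : ∫ τ, PsO s b k l τ.1 ∂ν ≤ η * (c * (b : ℝ) ^ 3 * (l : ℝ) ^ 2)) :
    Real.log (max (Nn s b k l c : ℝ) 1) ≤ ∫ τ, Real.log (zz (box b) τ.1) ∂ν +
      2 * η * (2 * (b : ℝ) + 1) ^ 3 + 2 * (box b \ box (rin b k)).card := by
  have := h.prob
  have hA : 0 < c * (b : ℝ) ^ 3 * (l : ℝ) ^ 2 := by positivity
  generalize hA' : c * (b : ℝ) ^ 3 * (l : ℝ) ^ 2 = A at hA hη
  have hK : 0 ≤ 2 * (2 * (b : ℝ) + 1) ^ 3 / A := by positivity
  have i1 := (local_log_zz (box b)).integrable ν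
  have i2 : Integrable (fun τ : Dimer => PsO s b k l τ.1) ν := (local_Psp s _ b l).integrable ν
  have key : ∀ τ : Dimer, Real.log (max (Nn s b k l c : ℝ) 1) ≤ Real.log (zz (box b) τ.1) +
      2 * (2 * (b : ℝ) + 1) ^ 3 / A * PsO s b k l τ.1 + 2 * (box b \ box (rin b k)).card := by
    intro τ
    have z1 : (1 : ℝ) ≤ zz (box b) τ.1 := by exact_mod_cast zz_dimer_pos _ τ
    have p0 : 0 ≤ PsO s b k l τ.1 := Psp_nonneg _ _ _ _ _
    rcases lt_or_ge (PsO s b k l τ.1) A with hτ | hτ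
    · have h1 : (Nn s b k l c : ℝ) ≤ zz (box b) τ.1 * 7 ^ (box b \ box (rin b k)).card := by
        exact_mod_cast zz_ge_Nn hp hl hb τ (hA' ▸ hτ)
      have h2 := Real.log_le_log (lt_max_of_lt_right one_pos)
        (max_le h1 (one_le_mul_of_one_le_of_one_le z1 (one_le_pow₀ (by norm_num))))
      rw [Real.log_mul (by positivity) (by positivity)] at h2
      linarith only [h2, hK, p0, NLP1_seven (box b \ box (rin b k)).card, mul_nonneg hK p0]
    · have h1 := NLP1_log (n := Nn s b k l c)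
        ((card_filter_le _ _).trans ((card_filter_le _ _).trans (card_cls_le (box b) id)))
      rw [card_box] at h1
      push_cast at h1
      have h2 := mul_le_mul_of_nonneg_left hτ hK
      rw [div_mul_cancel₀ _ hA.ne'] at h2
      have h3 : (0 : ℝ) ≤ (box b \ box (rin b k)).card := Nat.cast_nonneg _
      linarith only [h1, h2, z1, Real.log_nonneg z1]
  have i3 : Integrable (fun τ : Dimer => Real.log (zz (box b) τ.1) +
      2 * (2 * (b : ℝ) + 1) ^ 3 / A * PsO s b k l τ.1) ν := i1.add (i2.const_mul _)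
  have h1 := integral_mono (μ := ν) (integrable_const _) (i3.add (integrable_const _)) key
  simp only [Pi.add_apply] at h1
  rw [integral_add i3 (integrable_const _), integral_add i1 (i2.const_mul _),
    integral_const_mul, integral_const, integral_const, probReal_univ, one_smul, one_smul] at h1
  have h2 := mul_le_mul_of_nonneg_left hη hK
  rw [mul_comm η, ← mul_assoc, div_mul_cancel₀ _ hA.ne'] at h2
  linarith only [h1, h2]

theorem card_shell {b k : ℕ} (hb : 1 ≤ b) (hk : 1 ≤ k) :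
    ((box b \ box (rin b k)).card : ℝ) ≤ 216 * (b : ℝ) ^ 3 / k := by
  have h1 : rin b k ≤ b := Nat.sub_le _ _
  have h2 : b ≤ rin b k + 4 * (b / k) := by
    unfold rin
    omega
  rw [cast_card_sdiff (box_mono h1), card_box, card_box]
  have h3 : ((b / k : ℕ) : ℝ) ≤ b / k := Nat.cast_div_le
  have h4 : (b : ℝ) ≤ rin b k + 4 * ((b : ℝ) / k) := by
    have : (b : ℝ) ≤ rin b k + 4 * ((b / k : ℕ) : ℝ) := by exact_mod_cast h2
    linarith only [h3, this]
  have h5 : (rin b k : ℝ) ≤ b := by exact_mod_cast h1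
  have h6 : (1 : ℝ) ≤ b := by exact_mod_cast hb
  have h7 : (0 : ℝ) ≤ rin b k := Nat.cast_nonneg _
  have e : 216 * (b : ℝ) ^ 3 / k = 27 * (b : ℝ) ^ 2 * (8 * ((b : ℝ) / k)) := by ring
  rw [e]
  push_cast
  generalize (rin b k : ℝ) = r at *
  generalize (b : ℝ) / k = q at *
  generalize (b : ℝ) = x at *
  calc (2 * x + 1) ^ 3 - (2 * r + 1) ^ 3
      = ((2 * x + 1) ^ 2 + (2 * x + 1) * (2 * r + 1) + (2 * r + 1) ^ 2) * (2 * (x - r)) := by ring
    _ ≤ _ := mul_le_mul (by linarith only [h6, h5, h7, mul_nonneg_of_nonpos_of_nonpos (Mathlib.Tactic.Linarith.sub_nonpos_of_le h7) (Mathlib.Tactic.Linarith.sub_nonpos_of_le h5), mul_nonneg_of_nonpos_of_nonpos (Mathlib.Tactic.Linarith.sub_nonpos_of_le h6) (Mathlib.Tactic.Linarith.sub_nonpos_of_le h6), mul_nonneg_of_nonpos_of_nonpos (Mathlib.Tactic.Linarith.sub_nonpos_of_le h6) (Mathlib.Tactic.Linarith.sub_nonpos_of_le h5)]) (by linarith only [h4]) (by linarith only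 [h5]) (by positivity)

lemma NLP1_cnt (U W : Finset V) (σ : V → V) (T : Finset (V → V))
    (hT : ∀ ρ ∈ T, ρ ∈ cls U σ ∧ ∀ x ∈ W, ρ x ∈ W → ρ x = x) : T.card ≤ 7 ^ (U \ W).card := by
  have h1 : T.card ≤ ((U \ W).pi Cls_N).card := by
    refine card_le_card_of_injOn (fun ρ x _ => ρ x) (fun ρ hρ => ?_) fun ρ hρ ρ' hρ' e => ?_
    · exact mem_coe.2 (mem_pi.2 fun x _ => Cls_mem_N (mem_cls.1 (hT ρ hρ).1).1 x)
    · obtain ⟨a1, a2⟩ := mem_cls.1 (hT ρ hρ).1
      obtain ⟨b1, b2⟩ := mem_cls.1 (hT ρ' hρ').1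
      have k : ∀ x ∉ W, ρ x = ρ' x := fun x hx => by
        by_cases hU : x ∈ U
        · exact congrFun (congrFun e x) (mem_sdiff.2 ⟨hU, hx⟩)
        · rw [a2 x hU, b2 x hU]
      funext x
      by_cases hx : x ∈ W
      · by_cases c1 : ρ x ∈ W
        · by_cases c2 : ρ' x ∈ W
          · rw [(hT ρ hρ).2 x hx c1, (hT ρ' hρ').2 x hx c2]
          · exact Cls_out b1 a1 k c2
        · exact (Cls_out a1 b1 (fun y hy => (k y hy).symm) c1).symm
      · exact k x hx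
  rw [card_pi] at h1
  exact h1.trans (prod_le_pow_card _ _ _ fun x _ => Cls_card_N x)

lemma NLP1_gap {m J : ℕ} {c x : V} (hc : c ∈ grid m J) (hx : x ∈ tr c (box m)) (d : Dir)
    (h : x + dv d ∉ tr c (box m)) : Gap m (x + dv d) := by
  obtain ⟨q, -, rfl⟩ := mem_image.1 hc
  rw [mem_tr, mem_box] at hx h
  obtain ⟨i, hi⟩ := not_forall.1 h
  have h1 := hx i
  refine ⟨i, ?_⟩
  simp only [Pi.sub_apply, Pi.add_apply, dv, Pi.single_apply] at hi h1 ⊢
  split_ifs at hi ⊢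
  · exact ⟨q i, by omega⟩
  · exact ⟨q i - 1, by rw [mul_sub]; omega⟩
  · omega

lemma NLP1_emp {Λ : Finset V} {ρ : V → V} (h : IsExt ρ) :
    ∃ ρ' ∈ cls Λ ρ, mon Λ ρ' = free Λ ρ' := by
  refine ⟨fun x => if x ∈ Λ ∧ ρ x ∈ Λ then x else ρ x, mem_cls.2 ⟨fun x => ?_, fun x hx => ?_⟩, ?_⟩
  · by_cases hx : x ∈ Λ ∧ ρ x ∈ Λ
    · simp only [if_pos hx]
      exact ⟨Or.inl trivial, trivial⟩
    · have : ¬ (ρ x ∈ Λ ∧ ρ (ρ x) ∈ Λ) := by
        rw [(h x).2, and_comm]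
        exact hx
      simp only [if_neg hx, if_neg this]
      exact h x
  · exact if_neg fun k => hx k.1
  · ext x
    rw [mem_mon, mem_free]
    refine and_congr_right fun hx => ⟨fun e => ?_, fun e => ?_⟩
    · rw [e]
      exact hx
    · by_cases k : x ∈ Λ ∧ ρ x ∈ Λ
      · exact if_pos k
      · rw [if_neg k] at e
        exact absurd ⟨hx, e⟩ k

lemma NLP1_sum (m J : ℕ) {U : Finset V} (hU : ∀ c ∈ grid m J, tr c (box m) ⊆ U) (σ : V → V) :
    ∑ ρ ∈ perf U σ, Real.exp (-∑ c ∈ grid m J, Real.log (zz (tr c (box m)) ρ)) ≤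
      7 ^ (U \ (grid m J).biUnion fun c => tr c (box m)).card := by
  have h1 := class_replace U σ (grid m J) (fun c => tr c (box m)) hU (fun i hi j hj => grid_disj hi hj)
    (fun c ρ => if mon (tr c (box m)) ρ = free (tr c (box m)) ρ then 1 else 0)
    (fun c _ ρ ρ' a b e => by
      have : free (tr c (box m)) ρ = free (tr c (box m)) ρ' := filter_congr fun x hx => by rw [e x hx]
      simp only [local_mon _ ρ ρ' a b e, this])
    (fun c _ ρ _ => sum_nonneg fun _ _ => by positivity) (fun _ => 1) (fun _ _ => zero_le_one)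
    fun _ _ _ _ _ => rfl
  simp only [one_mul, prod_boole, sum_boole] at h1
  refine (sum_le_sum fun ρ hρ => ?_).trans (h1.trans ?_)
  · obtain ⟨⟨a1, -⟩, a2⟩ := mem_perf.1 hρ
    rw [← sum_neg_distrib, Real.exp_sum]
    refine prod_le_prod (fun _ _ => (Real.exp_pos _).le) fun c hc => ?_
    have h0 : (0 : ℝ) < zz (tr c (box m)) ρ := Nat.cast_pos.2 (card_pos.2
      ⟨ρ, mem_perf.2 ⟨⟨a1, fun _ _ => rfl⟩, fun x hx => a2 x (hU c hc hx)⟩⟩)
    rw [Real.exp_neg, Real.exp_log h0, inv_eq_one_div]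
    refine div_le_div_of_nonneg_right (Nat.one_le_cast.2 (card_pos.2 ?_)) h0.le
    obtain ⟨ρ', b1, b2⟩ := NLP1_emp (Λ := tr c (box m)) a1
    exact ⟨ρ', mem_filter.2 ⟨b1, b2⟩⟩
  · refine (Nat.cast_le.2 (NLP1_cnt U ((grid m J).biUnion fun c => tr c (box m)) σ _
      fun ρ hρ => ?_)).trans_eq (by push_cast; rfl)
    obtain ⟨a1, a2⟩ := mem_filter.1 hρ
    have a3 := (mem_filter.1 a1).1
    refine ⟨a3, fun x hx hx' => ?_⟩
    obtain ⟨c, hc, hx⟩ := mem_biUnion.1 hx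
    obtain ⟨c', hc', hx'⟩ := mem_biUnion.1 hx'
    rcases ((mem_cls.1 a3).1 x).1 with e | e
    · exact e
    · obtain ⟨d, hd⟩ := nbr_iff.1 e
      have : ρ x ∈ tr c (box m) := by
        by_contra k
        rw [hd] at k hx'
        exact grid_not_gap hc' hx' (NLP1_gap hc hx d k)
      exact (mem_mon.1 (a2 c hc ▸ mem_free.2 ⟨hx, this⟩)).2

/-- Upper bound for the entropy of a big box (`class_replace` with emptied cells and Jensen). -/
theorem lp_up {ν : Measure Dimer} (h : IM ν) (m J : ℕ) :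
    ∫ τ, Real.log (zz (box (gL m J)) τ.1) ∂ν ≤
      (grid m J).card * ∫ τ, Real.log (zz (box m) τ.1) ∂ν +
        2 * (((box (gL m J)).card : ℝ) - (grid m J).card * (2 * (m : ℝ) + 1) ^ 3) := by
  have := h.prob
  have hU : ∀ c ∈ grid m J, tr c (box m) ⊆ box (gL m J) := fun c hc =>
    (grid_sub hc).trans (box_mono (Nat.le_succ _))
  have hW : (((box (gL m J) \ (grid m J).biUnion fun c => tr c (box m)).card : ℕ) : ℝ) =
      ((box (gL m J)).card : ℝ) - (grid m J).card * (2 * (m : ℝ) + 1) ^ 3 := by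
    rw [cast_card_sdiff (biUnion_subset.2 hU), card_biUnion fun i hi j hj => grid_disj hi hj]
    simp only [card_tr, sum_const, smul_eq_mul, card_box m]
    push_cast
    rfl
  have hG : Local (box (gL m J)) fun ρ => -∑ c ∈ grid m J, Real.log (zz (tr c (box m)) ρ) :=
    fun ρ ρ' a b e => congrArg Neg.neg (sum_congr rfl fun c hc =>
      (local_log_zz _).mono (hU c hc) ρ ρ' a b e)
  have i1 := (local_log_zz (box (gL m J))).integrable ν
  have key : ∀ τ : Dimer, gam (box (gL m J))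
      (fun ρ => -∑ c ∈ grid m J, Real.log (zz (tr c (box m)) ρ)) τ.1 ≤
      2 * (((box (gL m J)).card : ℝ) - (grid m J).card * (2 * (m : ℝ) + 1) ^ 3) -
        Real.log (zz (box (gL m J)) τ.1) := by
    intro τ
    have hz := zz_dimer_pos (box (gL m J)) τ
    have hz' : (0 : ℝ) < zz (box (gL m J)) τ.1 := Nat.cast_pos.2 hz
    have h1 := gam_log_le hz (fun ρ => Real.exp (-∑ c ∈ grid m J, Real.log (zz (tr c (box m)) ρ)))
      fun _ _ => Real.exp_pos _
    simp only [Real.log_exp] at h1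
    have h2 : 0 < ∑ ρ ∈ perf (box (gL m J)) τ.1,
        Real.exp (-∑ c ∈ grid m J, Real.log (zz (tr c (box m)) ρ)) :=
      sum_pos (fun _ _ => Real.exp_pos _) (card_pos.1 hz)
    refine h1.trans ?_
    rw [gam, Real.log_div h2.ne' hz'.ne', ← hW]
    exact sub_le_sub_right ((Real.log_le_log h2 (NLP1_sum m J hU τ.1)).trans (NLP1_seven _)) _
  have h1 := integral_mono (μ := ν) ((local_gam hG).integrable ν) ((integrable_const _).sub i1) key
  simp only [Pi.sub_apply] at h1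
  rw [h.dlr _ _ _ hG, integral_neg, NLP1_int h, integral_sub (integrable_const _) i1, integral_const,
    probReal_univ, one_smul] at h1
  linarith only [h1]

end Pool.Agent.Work.MP_5cb0a4_pr.Z
end

-- merged part: Pool.Agent.Work.MP_5cb0a4_pr.N.Rec3
section
open MeasureTheory Finset Filter Topology
open scoped Classical

namespace Pool.Agent.Work.MP_5cb0a4_pr.Z

theorem Dl_le {ρ₁ ρ₂ : V → V} (h₁ : IsExt ρ₁) (h₂ : IsExt ρ₂) {r₀ t T r : ℕ}
    (hm : ∀ x ∈ box r₀, ρ₁ x ≠ x ∧ ρ₂ x ≠ x) (hr : 1 ≤ r) (h : t + r * T ≤ r₀) :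
    Dl ρ₁ ρ₂ T r (box t) ≤ ∑ x ∈ box t, aT ρ₁ ρ₂ T x - ∑ x ∈ box t, aT ρ₁ ρ₂ (r * T) x +
      (box (t + r * T) \ box t).card := by
  have key : ∀ i ∈ range r, ∑ x ∈ box t, aT ρ₁ ρ₂ T ((pi2 ρ₁ ρ₂)^[i * T] x) ≤
      ∑ x ∈ box t, aT ρ₁ ρ₂ T x + (box (t + r * T) \ box t).card := by
    intro i hi
    have hi' : i * T ≤ r * T := Nat.mul_le_mul_right _ (mem_range.1 hi).le
    have h1 := iterate_injOn h₁ h₂ (t := t) (n := i * T) hm (by omega)
    rw [← sum_image (f := aT ρ₁ ρ₂ T) h1]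
    have h2 : (box t).image (pi2 ρ₁ ρ₂)^[i * T] ⊆ box (t + r * T) := by
      intro z hz
      obtain ⟨x, hx, rfl⟩ := mem_image.1 hz
      exact box_mono (by omega) (iterate_box h₁ h₂ hx _)
    refine (sum_le_sum_of_subset_of_nonneg h2 fun x _ _ => aT_nonneg _ _ _ x).trans ?_
    rw [← sum_sdiff (box_mono (Nat.le_add_right t (r * T))), add_comm]
    have h3 := sum_le_card_nsmul (box (t + r * T) \ box t) (aT ρ₁ ρ₂ T) 1
      fun x _ => aT_le_one h₁ h₂ T x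
    rw [nsmul_eq_mul, mul_one] at h3
    linarith only [h3]
  have hr' : (0 : ℝ) < r := by exact_mod_cast hr
  have h4 := sum_le_card_nsmul _ _ _ key
  rw [card_range, nsmul_eq_mul, sum_comm, ← div_le_iff₀' hr', sum_div] at h4
  rw [Dl, sum_sub_distrib]
  linarith only [h4]

/-- Pigeonhole over the time scales. -/
theorem exists_scale {ρ₁ ρ₂ : V → V} (h₁ : IsExt ρ₁) (h₂ : IsExt ρ₂) {r₀ t J : ℕ}
    (hm : ∀ x ∈ box r₀, ρ₁ x ≠ x ∧ ρ₂ x ≠ x) (T r : ℕ → ℕ) (hr : ∀ j, 1 ≤ r j)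
    (hT : ∀ j, T (j + 1) = r j * T j) (hJ : 1 ≤ J) (h : t + T J ≤ r₀) :
    ∃ j < J, Dl ρ₁ ρ₂ (T j) (r j) (box t) ≤
      (box t).card / (J : ℝ) + (box (t + T J) \ box t).card := by
  have hmono : Monotone T := monotone_nat_of_le_succ fun j => by
    rw [hT]; exact Nat.le_mul_of_pos_left _ (hr j)
  have hJ' : (0 : ℝ) < J := by exact_mod_cast hJ
  have h1 : ∑ j ∈ range J, (∑ x ∈ box t, aT ρ₁ ρ₂ (T j) x - ∑ x ∈ box t, aT ρ₁ ρ₂ (T (j + 1)) x) ≤
      ∑ _j ∈ range J, ((box t).card / (J : ℝ)) := by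
    rw [sum_range_sub' fun j => ∑ x ∈ box t, aT ρ₁ ρ₂ (T j) x, sum_const, card_range, nsmul_eq_mul,
      mul_div_cancel₀ _ hJ'.ne']
    have h2 := sum_le_card_nsmul (box t) (aT ρ₁ ρ₂ (T 0)) 1 fun x _ => aT_le_one h₁ h₂ _ x
    have h3 : 0 ≤ ∑ x ∈ box t, aT ρ₁ ρ₂ (T J) x := sum_nonneg fun x _ => aT_nonneg _ _ _ x
    rw [nsmul_eq_mul, mul_one] at h2
    linarith only [h2, h3]
  obtain ⟨j, hj, h2⟩ := exists_le_of_sum_le (nonempty_range_iff.2 (by omega)) h1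
  have hj' := mem_range.1 hj
  have h3 : r j * T j ≤ T J := hT j ▸ hmono hj'
  have h4 := Dl_le h₁ h₂ (t := t) (T := T j) hm (hr j) (by omega)
  have h5 : ((box (t + r j * T j) \ box t).card : ℝ) ≤ (box (t + T J) \ box t).card := by
    exact_mod_cast card_le_card (sdiff_subset_sdiff (box_mono (by omega)) Subset.rfl)
  rw [hT j] at h2
  exact ⟨j, hj', by linarith only [h2, h4, h5]⟩

/-- The walk from `y` moves during the first `n` steps. -/
def NRec3_st (κ₁ κ₂ : V → V) (n : ℕ) (y : V) : Prop :=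
  ∀ m < n, pi2 κ₁ κ₂ ((pi2 κ₁ κ₂)^[m] y) ≠ (pi2 κ₁ κ₂)^[m] y

theorem NRec3_mono {κ₁ κ₂ : V → V} {n n' : ℕ} {y : V} (h : NRec3_st κ₁ κ₂ n y) (hn : n' ≤ n) :
    NRec3_st κ₁ κ₂ n' y := fun m hm => h m (hm.trans_le hn)

theorem NRec3_inj {κ₁ κ₂ : V → V} (h₁ : IsExt κ₁) (h₂ : IsExt κ₂) {y y' : V} (n : ℕ)
    (hy : NRec3_st κ₁ κ₂ n y) (hy' : NRec3_st κ₁ κ₂ n y')
    (e : (pi2 κ₁ κ₂)^[n] y = (pi2 κ₁ κ₂)^[n] y') : y = y' := by
  induction n with
  | zero => exact e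
  | succ n ih =>
    rw [Function.iterate_succ_apply', Function.iterate_succ_apply'] at e
    exact ih (NRec3_mono hy n.le_succ) (NRec3_mono hy' n.le_succ)
      (pi2_inj h₁ h₂ (hy n n.lt_succ_self) (hy' n n.lt_succ_self) e)

theorem NRec3_long {κ₁ κ₂ : V → V} (h₁ : IsExt κ₁) (h₂ : IsExt κ₂) {Λ : Finset V} {M : ℕ} {x y : V}
    (h : Conn κ₁ κ₂ x y) (hx : Long Λ M κ₁ κ₂ x) : Long Λ M κ₁ κ₂ y :=
  hx.trans_le (card_le_card fun _ hz =>
    mem_filter.2 ⟨(mem_filter.1 hz).1, (Conn.symm h₁ h₂ h).trans (mem_filter.1 hz).2⟩)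

/-- There are few sinks in long components. -/
theorem NRec3_fix {κ₁ κ₂ : V → V} (h₁ : IsExt κ₁) (h₂ : IsExt κ₂) (Λ : Finset V) (M : ℕ) :
    ((Λ.filter (Long Λ M κ₁ κ₂)).filter fun z => pi2 κ₁ κ₂ z = z).card * M ≤ Λ.card := by
  set F := (Λ.filter (Long Λ M κ₁ κ₂)).filter fun z => pi2 κ₁ κ₂ z = z with hF
  have hs : ∀ z ∈ F, (IsEven z ∧ κ₁ z = z) ∨ (¬ IsEven z ∧ κ₂ z = z) := fun z hz => by
    have h := (mem_filter.1 hz).2
    by_cases e : IsEven z
    · exact Or.inl ⟨e, by simpa [pi2, e] using h⟩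
    · exact Or.inr ⟨e, by simpa [pi2, e] using h⟩
  have hd : (F : Set V).PairwiseDisjoint fun z => Λ.filter fun y => Conn κ₁ κ₂ z y := by
    intro z hz z' hz' hne
    refine disjoint_left.2 fun y hy hy' => hne ?_
    exact sinks_not_conn h₁ h₂ (hs z hz) (hs z' hz')
      ((mem_filter.1 hy).2.trans (Conn.symm h₁ h₂ (mem_filter.1 hy').2))
  have h1 := card_nsmul_le_sum F (fun z => (Λ.filter fun y => Conn κ₁ κ₂ z y).card) M
    fun z hz => (mem_filter.1 (mem_filter.1 hz).1).2.le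
  rw [← card_biUnion hd, smul_eq_mul] at h1
  exact h1.trans (card_le_card (biUnion_subset.2 fun _ _ => filter_subset _ _))

theorem NRec3_cel {ρ : V → V} {b : ℕ} {c y : V} (h : cel b c ρ y ≠ y) :
    cel b c ρ y ∈ box b ∧ ρ (y + c) = cel b c ρ y + c := by
  by_cases e : y ∈ box b ∧ sh (-c) ρ y ∈ box b
  · have e1 : cel b c ρ y = sh (-c) ρ y := if_pos e
    rw [e1]
    exact ⟨e.2, by simp [sh]⟩
  · exact absurd (if_neg e) h

theorem NRec3_step {ρ₁ ρ₂ : V → V} {b : ℕ} {c y : V} (hc : IsEven c)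
    (h : pi2 (cel b c ρ₁) (cel b c ρ₂) y ≠ y) : pi2 (cel b c ρ₁) (cel b c ρ₂) y ∈ box b ∧
      pi2 ρ₁ ρ₂ (y + c) = pi2 (cel b c ρ₁) (cel b c ρ₂) y + c := by
  have e : IsEven (y + c) ↔ IsEven y := by rw [isEven_add]; tauto
  by_cases k : IsEven y
  · simp only [pi2, e, if_pos k] at h ⊢
    exact NRec3_cel h
  · simp only [pi2, e, if_neg k] at h ⊢
    exact NRec3_cel h

theorem NRec3_iter {ρ₁ ρ₂ : V → V} {b : ℕ} {c y : V} (hc : IsEven c) (hy : y ∈ box b) (n : ℕ)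
    (h : NRec3_st (cel b c ρ₁) (cel b c ρ₂) n y) :
    (pi2 (cel b c ρ₁) (cel b c ρ₂))^[n] y ∈ box b ∧
      (pi2 ρ₁ ρ₂)^[n] (y + c) = (pi2 (cel b c ρ₁) (cel b c ρ₂))^[n] y + c := by
  induction n with
  | zero => exact ⟨hy, rfl⟩
  | succ n ih =>
    rw [Function.iterate_succ_apply', Function.iterate_succ_apply', (ih (NRec3_mono h n.le_succ)).2]
    exact NRec3_step hc (h n n.lt_succ_self)

/-- Few points of long components stop early. -/
theorem NRec3_count {ρ₁ ρ₂ : V → V} (h₁ : IsExt ρ₁) (h₂ : IsExt ρ₂) {b : ℕ} {c : V} (hc : IsEven c)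
    (M N : ℕ) : (((box b).filter (Long (box b) M (cel b c ρ₁) (cel b c ρ₂))).filter
      fun y => ¬ NRec3_st (cel b c ρ₁) (cel b c ρ₂) N y).card * M ≤ N * (box b).card := by
  have k₁ := isExt_cel h₁ b c
  have k₂ := isExt_cel h₂ b c
  set L := (box b).filter (Long (box b) M (cel b c ρ₁) (cel b c ρ₂)) with hL
  set p := pi2 (cel b c ρ₁) (cel b c ρ₂) with hp
  have h1 : (L.filter fun y => ¬ NRec3_st (cel b c ρ₁) (cel b c ρ₂) N y) ⊆
      (range N).biUnion fun n => L.filter fun y =>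
        NRec3_st (cel b c ρ₁) (cel b c ρ₂) n y ∧ p (p^[n] y) = p^[n] y := by
    intro y hy
    obtain ⟨hy1, hy2⟩ := mem_filter.1 hy
    have ex : ∃ m, m < N ∧ p (p^[m] y) = p^[m] y := by
      by_contra hn
      exact hy2 fun m hm e => hn ⟨m, hm, e⟩
    refine mem_biUnion.2 ⟨Nat.find ex, mem_range.2 (Nat.find_spec ex).1,
      mem_filter.2 ⟨hy1, fun m hm e => ?_, (Nat.find_spec ex).2⟩⟩
    exact Nat.find_min ex hm ⟨hm.trans (Nat.find_spec ex).1, e⟩
  have h2 := card_biUnion_le_card_mul (range N) (fun n => L.filter fun y =>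
      NRec3_st (cel b c ρ₁) (cel b c ρ₂) n y ∧ p (p^[n] y) = p^[n] y)
    (L.filter fun z => p z = z).card fun n _ => by
      refine card_le_card_of_injOn p^[n] (fun y hy => ?_) fun y hy y' hy' e => ?_
      · obtain ⟨hy1, hy2, hy3⟩ := mem_filter.1 hy
        obtain ⟨hy4, hy5⟩ := mem_filter.1 hy1
        exact mem_filter.2 ⟨mem_filter.2 ⟨(NRec3_iter hc hy4 n hy2).1,
          NRec3_long k₁ k₂ (conn_pi2 _ _ y n) hy5⟩, hy3⟩
      · exact NRec3_inj k₁ k₂ n (mem_filter.1 hy).2.1 (mem_filter.1 hy').2.1 e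
  have h3 := NRec3_fix k₁ k₂ (box b) M
  rw [card_range] at h2
  calc _ ≤ N * (L.filter fun z => p z = z).card * M :=
        Nat.mul_le_mul_right _ ((card_le_card h1).trans h2)
    _ ≤ _ := by rw [mul_assoc]; exact Nat.mul_le_mul_left _ h3

/-- The estimate in one cell. -/
theorem NRec3_one {ρ₁ ρ₂ : V → V} (h₁ : IsExt ρ₁) (h₂ : IsExt ρ₂) {b T r M : ℕ} {c : V}
    (hc : IsEven c) (hr : 1 ≤ r) (hT : 1 ≤ T) (hM : 1 ≤ M) :
    ∑ x ∈ (box b).filter (Long (box b) M (cel b c ρ₁) (cel b c ρ₂)), aT ρ₁ ρ₂ T (x + c) ≤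
      Dl ρ₁ ρ₂ T r (tr c (box b)) +
        (2 * (b : ℝ) + 1) ^ 3 * (6 * b / (r * T : ℝ) + (r * T : ℝ) / M) := by
  have k₁ := isExt_cel h₁ b c
  have k₂ := isExt_cel h₂ b c
  have hcnt := NRec3_count h₁ h₂ (b := b) hc M (r * T)
  set L := (box b).filter (Long (box b) M (cel b c ρ₁) (cel b c ρ₂)) with hL
  set p := pi2 (cel b c ρ₁) (cel b c ρ₂) with hp
  set S := L.filter fun y => NRec3_st (cel b c ρ₁) (cel b c ρ₂) (r * T) y with hS
  set B := L.filter fun y => ¬ NRec3_st (cel b c ρ₁) (cel b c ρ₂) (r * T) y with hB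
  have hr' : (0 : ℝ) < r := by exact_mod_cast hr
  have hT' : (0 : ℝ) < T := by exact_mod_cast hT
  have hM' : (0 : ℝ) < M := by exact_mod_cast hM
  have hbox : ((box b).card : ℝ) = (2 * (b : ℝ) + 1) ^ 3 := by rw [card_box]; push_cast; ring
  have hSb : S ⊆ box b := (filter_subset _ _).trans (filter_subset _ _)
  have hSB : S.card + B.card = L.card := card_filter_add_card_filter_not _
  have h1 : (B.card : ℝ) ≤ (2 * (b : ℝ) + 1) ^ 3 * ((r * T : ℝ) / M) := by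
    rw [← mul_div_assoc, le_div_iff₀ hM', ← hbox, mul_comm ((box b).card : ℝ)]
    exact_mod_cast hcnt
  have h2 : ∀ y ∈ S, aT ρ₁ ρ₂ (r * T) (y + c) ≤ 6 * b / (r * T : ℝ) := fun y hy => by
    obtain ⟨k1, k2⟩ := NRec3_iter (ρ₁ := ρ₁) (ρ₂ := ρ₂) hc (hSb hy) _ (mem_filter.1 hy).2
    rw [aT, k2, Nat.cast_mul]
    refine div_le_div_of_nonneg_right ?_ (by positivity)
    have k3 : ∀ i ∈ (univ : Finset (Fin 3)),
        |(((p^[r * T] y + c) i - (y + c) i : ℤ) : ℝ)| ≤ 2 * (b : ℝ) := fun i _ => by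
      have a1 := mem_box.1 k1 i
      have a2 := mem_box.1 (hSb hy) i
      have a3 : |(p^[r * T] y + c) i - (y + c) i| ≤ 2 * (b : ℤ) := by
        simp only [Pi.add_apply]
        rw [abs_le]
        constructor <;> linarith only [a1, a2, a1.1, a1.2, a2.1, a2.2]
      exact_mod_cast a3
    have k4 := sum_le_card_nsmul _ _ _ k3
    rw [card_univ, Fintype.card_fin, nsmul_eq_mul] at k4
    push_cast at k4 ⊢
    linarith only [k4]
  have h3 : ∀ i ∈ range r, ∑ x ∈ L, aT ρ₁ ρ₂ T (x + c) - B.card ≤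
      ∑ y ∈ S, aT ρ₁ ρ₂ T ((pi2 ρ₁ ρ₂)^[i * T] (y + c)) := fun i hi => by
    have hi' : i * T ≤ r * T := Nat.mul_le_mul_right _ (mem_range.1 hi).le
    have a1 : Set.InjOn p^[i * T] S := fun y hy y' hy' e =>
      NRec3_inj k₁ k₂ _ (NRec3_mono (mem_filter.1 hy).2 hi') (NRec3_mono (mem_filter.1 hy').2 hi') e
    have a2 : S.image p^[i * T] ⊆ L := by
      intro z hz
      obtain ⟨y, hy, rfl⟩ := mem_image.1 hz
      exact mem_filter.2 ⟨(NRec3_iter hc (hSb hy) _ (NRec3_mono (mem_filter.1 hy).2 hi')).1,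
        NRec3_long k₁ k₂ (conn_pi2 _ _ y _) (mem_filter.1 (mem_filter.1 hy).1).2⟩
    have a3 : ∑ y ∈ S, aT ρ₁ ρ₂ T ((pi2 ρ₁ ρ₂)^[i * T] (y + c)) =
        ∑ z ∈ S.image p^[i * T], aT ρ₁ ρ₂ T (z + c) := by
      rw [sum_image a1]
      exact sum_congr rfl fun y hy => by
        rw [(NRec3_iter hc (hSb hy) _ (NRec3_mono (mem_filter.1 hy).2 hi')).2]
    have a4 := sum_le_card_nsmul (L \ S.image p^[i * T]) (fun z => aT ρ₁ ρ₂ T (z + c)) 1
      fun x _ => aT_le_one h₁ h₂ T _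
    have a5 : (L \ S.image p^[i * T]).card = B.card := by
      rw [card_sdiff_of_subset a2, card_image_of_injOn a1]
      omega
    rw [a5, nsmul_eq_mul, mul_one] at a4
    rw [a3, ← sum_sdiff a2]
    linarith only [a4]
  have h4 := card_nsmul_le_sum _ _ _ h3
  rw [card_range, nsmul_eq_mul, sum_comm, ← le_div_iff₀' hr', sum_div] at h4
  have h5 := sum_le_card_nsmul _ _ _ h2
  have h6 : (S.card : ℝ) * (6 * b / (r * T : ℝ)) ≤ (2 * (b : ℝ) + 1) ^ 3 * (6 * b / (r * T : ℝ)) := by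
    refine mul_le_mul_of_nonneg_right ?_ (by positivity)
    rw [← hbox]
    exact_mod_cast card_le_card hSb
  have h7 := sum_le_sum_of_subset_of_nonneg (f := fun y =>
    (∑ i ∈ range r, aT ρ₁ ρ₂ T ((pi2 ρ₁ ρ₂)^[i * T] (y + c))) / r - aT ρ₁ ρ₂ (r * T) (y + c)) hSb
    fun y _ _ => sub_nonneg.2 (aT_sub ρ₁ ρ₂ T r _)
  rw [nsmul_eq_mul] at h5
  rw [sum_sub_distrib] at h7
  rw [Dl, tr, sum_image fun _ _ _ _ e => add_left_injective c e, mul_add]
  linarith only [h1, h4, h5, h6, h7]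

/-- Long components of the cells are slow: all but `r T` points of a component stay in the cell
for `r T` steps (one sink per component, `sinks_not_conn`). -/
theorem long_slow {ρ₁ ρ₂ : V → V} (h₁ : IsExt ρ₁) (h₂ : IsExt ρ₂) {r₀ t T r b J M : ℕ}
    (hm : ∀ x ∈ box r₀, ρ₁ x ≠ x ∧ ρ₂ x ≠ x) (hr : 1 ≤ r) (hT : 1 ≤ T) (hM : 1 ≤ M)
    (h : t + r * T ≤ r₀) (hb : ∀ c ∈ grid b J, tr c (box b) ⊆ box t) :
    ∑ c ∈ grid b J, ∑ x ∈ (box b).filter (Long (box b) M (cel b c ρ₁) (cel b c ρ₂)),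
        aT ρ₁ ρ₂ T (x + c) ≤
      Dl ρ₁ ρ₂ T r (box t) +
        (grid b J).card * (2 * (b : ℝ) + 1) ^ 3 * (6 * b / (r * T : ℝ) + (r * T : ℝ) / M) := by
  refine (sum_le_sum fun c hc => NRec3_one h₁ h₂ (grid_even hc) hr hT hM).trans ?_
  rw [sum_add_distrib, sum_const, nsmul_eq_mul, mul_assoc]
  refine add_le_add_left ?_ _
  have hd : (grid b J : Set V).PairwiseDisjoint fun c => tr c (box b) :=
    fun c hc c' hc' hne => grid_disj hc hc' hne
  unfold Dl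
  rw [← sum_biUnion hd]
  exact sum_le_sum_of_subset_of_nonneg (biUnion_subset.2 hb)
    fun y _ _ => sub_nonneg.2 (aT_sub ρ₁ ρ₂ T r _)

end Pool.Agent.Work.MP_5cb0a4_pr.Z
end

-- merged part: Pool.Agent.Work.MP_5cb0a4_pr.N.GaugeA
section
/-! Square summable functions on a parity class. -/

open MeasureTheory Finset Filter Topology
open scoped Classical

namespace Pool.Agent.Work.MP_5cb0a4_pr.Z

/-- Square summable on the parity class `b`. -/
def NGauge_S (b : Prop) (f : V → ℝ) : Prop :=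
  Summable fun x : {x : V // IsEven x ↔ b} => f x ^ 2

/-- Cofinitely many points of the parity class `b`. -/
def NGauge_L (b : Prop) : Filter V := cofinite ⊓ 𝓟 {x | IsEven x ↔ b}

theorem NGauge_ev {b : Prop} {p : V → Prop} :
    (∀ᶠ x in NGauge_L b, p x) ↔ ∃ F : Finset V, ∀ x ∉ F, (IsEven x ↔ b) → p x := by
  rw [NGauge_L, eventually_inf_principal, eventually_cofinite]
  refine ⟨fun h => ⟨h.toFinset, fun x hx => ?_⟩, fun ⟨F, h⟩ => F.finite_toSet.subset fun x hx => ?_⟩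
  · by_contra k
    exact hx (h.mem_toFinset.2 k)
  · by_contra k
    exact hx (h x k)

theorem NGauge_neBot (b : Prop) : (NGauge_L b).NeBot := by
  refine ⟨fun h => ?_⟩
  obtain ⟨F, hF⟩ := NGauge_ev.1 (eventually_false_iff_eq_bot.2 h)
  obtain ⟨A, h1, h2⟩ := exists_large b 1 F
  obtain ⟨x, hx⟩ := card_pos.1 h2
  exact hF x (h1 x hx).2 (h1 x hx).1

theorem NGauge_par (b : Prop) : ∀ᶠ x in NGauge_L b, (IsEven x ↔ b) :=
  NGauge_ev.2 ⟨∅, fun _ _ h => h⟩

theorem NGauge_val (b : Prop) :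
    Tendsto (Subtype.val : {x : V // IsEven x ↔ b} → V) cofinite (NGauge_L b) :=
  tendsto_inf.2 ⟨Subtype.val_injective.tendsto_cofinite,
    tendsto_principal.2 (Eventually.of_forall fun x => x.2)⟩

theorem NGauge_of_le {b : Prop} {f : V → ℝ} {C : ℝ}
    (h : ∀ X : Finset V, (∀ x ∈ X, IsEven x ↔ b) → ∑ x ∈ X, f x ^ 2 ≤ C) : NGauge_S b f :=
  summable_of_sum_le (c := C) (fun _ => sq_nonneg _) fun s => by
    have := h (s.map (Function.Embedding.subtype _)) fun x hx => by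
      obtain ⟨y, -, rfl⟩ := mem_map.1 hx
      exact y.2
    rwa [sum_map] at this

theorem NGauge_S.le {b : Prop} {f : V → ℝ} (h : NGauge_S b f) :
    ∃ C, ∀ X : Finset V, (∀ x ∈ X, IsEven x ↔ b) → ∑ x ∈ X, f x ^ 2 ≤ C :=
  ⟨_, fun X hX => by
    rw [← sum_subtype_of_mem (fun x => f x ^ 2) hX]
    exact Summable.sum_le_tsum _ (fun _ _ => sq_nonneg _) h⟩

theorem NGauge_S.dom {b : Prop} {f g : V → ℝ} (h : NGauge_S b f) (c : ℝ)
    (e : ∀ᶠ x in NGauge_L b, |g x| ≤ c * |f x|) : NGauge_S b g :=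
  Summable.of_norm_bounded_eventually (Summable.mul_left (c ^ 2) h)
    (((NGauge_val b).eventually e).mono fun x k => by
      rw [Real.norm_of_nonneg (sq_nonneg _), ← sq_abs, ← sq_abs (f x), ← mul_pow]
      exact pow_le_pow_left₀ (abs_nonneg _) k 2)

theorem NGauge_S.congr {b : Prop} {f g : V → ℝ} (h : NGauge_S b f)
    (e : ∀ᶠ x in NGauge_L b, g x = f x) : NGauge_S b g :=
  h.dom 1 (e.mono fun x k => by rw [k, one_mul])

theorem NGauge_S.add {b : Prop} {f g : V → ℝ} (h : NGauge_S b f) (h' : NGauge_S b g) :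
    NGauge_S b fun x => f x + g x :=
  Summable.of_nonneg_of_le (fun _ => sq_nonneg _)
    (fun x => by linarith only [sq_nonneg (f x - g x), sq_nonneg (f ↑x - g ↑x)])
    ((Summable.mul_left 2 h).add (Summable.mul_left 2 h'))

theorem NGauge_S.comp {b b' : Prop} {f : V → ℝ} (h : NGauge_S b f) {σ : V → V}
    (hσ : Function.Injective σ) (p : ∀ x, (IsEven x ↔ b') → (IsEven (σ x) ↔ b)) :
    NGauge_S b' fun x => f (σ x) :=
  Summable.comp_injective (i := fun x : {x : V // IsEven x ↔ b'} =>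
    (⟨σ x, p x x.2⟩ : {x : V // IsEven x ↔ b})) h
    fun _ _ e => Subtype.ext (hσ (congrArg Subtype.val e))

theorem NGauge_S.lim {b : Prop} {f : V → ℝ} (h : NGauge_S b f) : Tendsto f (NGauge_L b) (𝓝 0) := by
  refine Metric.tendsto_nhds.2 fun ε hε => ?_
  have := Metric.tendsto_nhds.1 (Summable.tendsto_cofinite_zero h) (ε ^ 2) (by positivity)
  rw [eventually_cofinite] at this
  refine NGauge_ev.2 ⟨this.toFinset.map (Function.Embedding.subtype _), fun x hx k => ?_⟩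
  by_contra e
  refine hx (mem_map.2 ⟨⟨x, k⟩, this.mem_toFinset.2 fun e' => e ?_, rfl⟩)
  rw [Real.dist_eq, sub_zero, abs_of_nonneg (sq_nonneg _)] at e'
  rw [Real.dist_eq, sub_zero]
  exact abs_lt_of_sq_lt_sq e' hε.le

theorem NGauge_S.const {b : Prop} {c : ℝ} (h : NGauge_S b fun _ => c) : c = 0 :=
  have := NGauge_neBot b
  tendsto_nhds_unique tendsto_const_nhds h.lim

theorem NGauge_en {b : Prop} {φ : V → ℝ}
    (h : ∀ d d' : Dir, NGauge_S b fun y => φ (y + dv d) - φ (y + dv d')) : ∃ E, En b E φ := by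
  choose C hC using fun d d' => (h d d').le
  refine ⟨∑ d, ∑ d', C d d', fun Y hY => ?_⟩
  rw [sum_comm]
  refine sum_le_sum fun d _ => ?_
  rw [sum_comm]
  exact sum_le_sum fun d' _ => hC d d' Y hY

theorem NGauge_of_sum {b : Prop} {f : V → Dir → Dir → ℝ} {C : ℝ}
    (h : ∀ X : Finset V, (∀ x ∈ X, IsEven x ↔ b) → ∑ x ∈ X, ∑ d, ∑ d', f x d d' ^ 2 ≤ C)
    (d d' : Dir) : NGauge_S b fun x => f x d d' :=
  NGauge_of_le fun X hX => le_trans (sum_le_sum fun x _ =>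
    (single_le_sum (f := fun d' => f x d d' ^ 2) (fun _ _ => sq_nonneg _) (mem_univ d')).trans
      (single_le_sum (f := fun d => ∑ d', f x d d' ^ 2)
        (fun _ _ => sum_nonneg fun _ _ => sq_nonneg _) (mem_univ d))) (h X hX)

theorem NGauge_lim {b b' : Prop} (e : b' ↔ ¬ b) {φ : V → ℝ} {E : ℝ} (h : En b E φ) :
    ∃ a, Tendsto φ (NGauge_L b') (𝓝 a) := by
  obtain ⟨a, ha⟩ := h.lim
  refine ⟨a, Metric.tendsto_nhds.2 fun ε hε => ?_⟩
  obtain ⟨F, hF⟩ := ha (ε / 2) (half_pos hε)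
  exact NGauge_ev.2 ⟨F, fun x hx k => (hF x hx (by tauto)).trans_lt (half_lt_self hε)⟩

theorem NGauge_bdd {b : Prop} {φ : V → ℝ} {a : ℝ} (h : Tendsto φ (NGauge_L b) (𝓝 a)) :
    ∃ B, ∀ x, (IsEven x ↔ b) → |φ x| ≤ B := by
  obtain ⟨F, hF⟩ := NGauge_ev.1 (h.abs.eventually (Iic_mem_nhds (lt_add_one |a|)))
  refine ⟨|a| + 1 + ∑ x ∈ F, |φ x|, fun x k => ?_⟩
  by_cases hx : x ∈ F
  · have := single_le_sum (f := fun x => |φ x|) (fun _ _ => abs_nonneg _) hx
    linarith only [this, abs_nonneg a]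
  · exact (hF x hx k).trans (le_add_of_nonneg_right (sum_nonneg fun _ _ => abs_nonneg _))

/-- Means over the random walk are asymptotically below the limit. -/
theorem NGauge_mean {W : V → ℝ} (hW : ∀ z, 0 ≤ W z) {a m : ℝ}
    (h : Tendsto W (NGauge_L True) (𝓝 a)) {N₁ : ℕ}
    (hm : ∀ N ≥ N₁, m ≤ ∑ z ∈ box (2 * N), pk (2 * N) z * W z) : m ≤ a := by
  have := NGauge_neBot True
  have ha : 0 ≤ a := ge_of_tendsto' h hW
  refine le_of_forall_pos_le_add fun ε hε => ?_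
  obtain ⟨F, hF⟩ := NGauge_ev.1 (h.eventually (Iic_mem_nhds (lt_add_of_pos_right a (half_pos hε))))
  have s0 : 0 ≤ ∑ z ∈ F, W z := sum_nonneg fun z _ => hW z
  obtain ⟨n₀, hn⟩ := pk_small (ε := ε / 2 / (∑ z ∈ F, W z + 1)) (by positivity)
  set δ := ε / 2 / (∑ z ∈ F, W z + 1) with hδ
  have d0 : 0 ≤ δ := by positivity
  have k : ∀ z ∈ box (2 * (N₁ + n₀)), pk (2 * (N₁ + n₀)) z * W z ≤
      pk (2 * (N₁ + n₀)) z * (a + ε / 2) + if z ∈ F then δ * W z else 0 := fun z _ => by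
    have p0 := pk_nonneg (2 * (N₁ + n₀)) z
    split_ifs with hz
    · have := mul_le_mul_of_nonneg_right (hn (2 * (N₁ + n₀)) (by omega) z) (hW z)
      have : 0 ≤ pk (2 * (N₁ + n₀)) z * (a + ε / 2) := by positivity
      linarith
    · rw [add_zero]
      rcases p0.eq_or_lt with e | e
      · rw [← e, zero_mul, zero_mul]
      · exact mul_le_mul_of_nonneg_left
          (hF z hz (iff_true_intro ((pk_parity e.ne').2 (even_two_mul _)))) p0
  have k1 := (hm (N₁ + n₀) (by omega)).trans (sum_le_sum k)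
  rw [sum_add_distrib, ← sum_mul, sum_pk, one_mul, sum_ite_mem, ← mul_sum] at k1
  have k2 : ∑ z ∈ box (2 * (N₁ + n₀)) ∩ F, W z ≤ ∑ z ∈ F, W z + 1 :=
    (sum_le_sum_of_subset_of_nonneg inter_subset_right fun z _ _ => hW z).trans
      (le_add_of_nonneg_right zero_le_one)
  have k3 := mul_le_mul_of_nonneg_left k2 d0
  rw [hδ, div_mul_cancel₀ _ (by positivity)] at k3
  linarith only [k1, k3]

theorem NGauge_log {a b c : ℝ} (hc : 0 < c) (ha : c ≤ a) (hb : c ≤ b) :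
    |Real.log a - Real.log b| ≤ c⁻¹ * |a - b| := by
  have key : ∀ a b : ℝ, c ≤ a → c ≤ b → Real.log a - Real.log b ≤ c⁻¹ * |a - b| := fun a b ha hb => by
    have a0 := hc.trans_le ha
    have b0 := hc.trans_le hb
    rw [← Real.log_div a0.ne' b0.ne']
    refine (Real.log_le_sub_one_of_pos (div_pos a0 b0)).trans ?_
    rw [div_sub_one b0.ne', inv_mul_eq_div]
    exact (div_le_div_of_nonneg_right (le_abs_self _) b0.le).trans
      (div_le_div_of_nonneg_left (abs_nonneg _) hc hb)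
  refine abs_le.2 ⟨?_, key a b ha hb⟩
  have := key b a hb ha
  rw [abs_sub_comm] at this
  linarith only [this]

theorem NGauge_exp {a b B : ℝ} (ha : a ≤ B) (hb : b ≤ B) :
    |Real.exp a - Real.exp b| ≤ Real.exp B * |a - b| := by
  have key : ∀ a b : ℝ, a ≤ B → Real.exp a - Real.exp b ≤ Real.exp B * |a - b| := fun a b ha => by
    have e : Real.exp b = Real.exp a * Real.exp (b - a) := by rw [← Real.exp_add]; ring_nf
    have h1 := mul_le_mul_of_nonneg_left (Real.add_one_le_exp (b - a)) (Real.exp_pos a).le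
    have h2 := mul_le_mul (Real.exp_le_exp.2 ha) (le_abs_self (a - b))
    rcases le_total a b with k | k
    · have := Real.exp_le_exp.2 k
      have : 0 ≤ Real.exp B * |a - b| := by positivity
      linarith
    · have := h2 (sub_nonneg.2 k) (Real.exp_pos B).le
      linarith only [e, h1, this]
  refine abs_le.2 ⟨?_, key a b ha⟩
  have := key b a hb
  rw [abs_sub_comm] at this
  linarith

theorem NGauge_int {δ B : ℝ} (h : ∀ n : ℤ, n * δ ≤ B) : δ = 0 := by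
  by_contra k
  obtain ⟨n, hn⟩ := exists_int_gt (B / |δ|)
  rw [div_lt_iff₀ (abs_pos.2 k)] at hn
  rcases abs_choice δ with e | e
  · exact (h n).not_gt (by rwa [e] at hn)
  · refine (h (-n)).not_gt ?_
    rw [e] at hn
    push_cast
    linarith only [hn]

theorem NGauge_hd_add (g : Fin 3 → ℝ) (v w : V) : hd g (v + w) = hd g v + hd g w := by
  simp only [hd, Pi.add_apply, Int.cast_add, mul_add, sum_add_distrib]

theorem NGauge_hd_sub (g : Fin 3 → ℝ) (v w : V) : hd g (v - w) = hd g v - hd g w := by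
  simp only [hd, Pi.sub_apply, Int.cast_sub, mul_sub, sum_sub_distrib]

theorem NGauge_hd_single (g : Fin 3 → ℝ) (i : Fin 3) (n : ℤ) : hd g (Pi.single i n) = g i * n := by
  rw [hd, sum_eq_single i (fun j _ h => by rw [Pi.single_eq_of_ne h]; simp) (by simp),
    Pi.single_eq_same]

theorem NGauge_sub {x y : V} : IsEven (x - y) ↔ (IsEven x ↔ IsEven y) := by
  rw [sub_eq_add_neg, isEven_add, isEven_neg]

/-- Transport of the energy bound. -/
theorem NGauge_En {b : Prop} {E : ℝ} {φ ψ : V → ℝ} (h : En True E φ) {σ : V → V}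
    (hσ : Function.Injective σ) (τ : Dir ≃ Dir) (p : ∀ y, (IsEven y ↔ b) → IsEven (σ y))
    (e : ∀ y d, ψ (y + dv d) = φ (σ y + dv (τ d))) : En b E ψ := fun Y hY => by
  have := h (Y.image σ) fun x hx => by
    obtain ⟨y, hy, rfl⟩ := mem_image.1 hx
    exact iff_true_intro (p y (hY y hy))
  rw [sum_image fun _ _ _ _ k => hσ k] at this
  refine le_trans (le_of_eq (sum_congr rfl fun y _ => ?_)) this
  simp only [e]
  exact (sum_congr rfl fun d _ => τ.sum_comp fun d' =>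
    (φ (σ y + dv (τ d)) - φ (σ y + dv d')) ^ 2).trans
    (τ.sum_comp fun d => ∑ d', (φ (σ y + dv d) - φ (σ y + dv d')) ^ 2)

end Pool.Agent.Work.MP_5cb0a4_pr.Z
end

-- merged part: Pool.Agent.Work.MP_5cb0a4_pr.N.Gauge
section
open MeasureTheory Finset Filter Topology
open scoped Classical

namespace Pool.Agent.Work.MP_5cb0a4_pr.Z

theorem NGauge_ne (b : Prop) (v : V) : ∀ᶠ x in NGauge_L b, x ≠ v :=
  NGauge_ev.2 ⟨{v}, fun _ h _ => notMem_singleton.1 h⟩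

theorem NGauge_quot {a a' p p' : ℝ} (ha : 0 < a) (ha' : 0 < a') :
    |p / a - p' / a'| ≤ 2 / (a * a') * |a * (p' / 2) - a' * (p / 2)| := by
  rw [← abs_of_pos (show 0 < 2 / (a * a') by positivity), ← abs_mul, abs_sub_comm]
  exact le_of_eq (congrArg _ (by field_simp))

/-- The ratios of a column of the kernel to `u` have square summable differences. -/
theorem NGauge_rho {G : V → ℝ} (h0 : ∀ w, 0 ≤ G w) (h1 : ∀ d, G (dv d) ≤ 1)
    (h : PSD (TG G) (TG G) 2) {u : Dir → ℝ} (hu : ∀ d, 0 < u d)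
    (hd : Dom (TG G) 2 fun e => u e.2) (d₀ : Dir) (ρ : Dir → V → ℝ)
    (hρ : ∀ d x, ρ d x = G (dv d₀ - x) * G (x + dv d) / u d) :
    (∀ d d', NGauge_S True fun x => ρ d x - ρ d' x) ∧
      ∀ d d' : Dir, NGauge_S False fun y => ρ (d.1, !d.2) (y + dv d) - ρ (d'.1, !d'.2) (y + dv d') := by
  have hk : Dom (TG G) 2 fun e => colK (TG G) (TG G) 2 (0, d₀) e / 2 := fun D hD t => by
    have c := col_sq h (f := (0, d₀)) (by simp [IsEven]) D hD t
    have p := h D hD t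
    have e : TG G 0 (oe (0, d₀)) = G (dv d₀) := by simp [TG, oe]
    have q : G (dv d₀) * G (dv d₀) + 2 ≤ 4 := by linarith only [h1, h0, h0 (dv d₀), h1 d₀, mul_nonneg_of_nonpos_of_nonpos (Mathlib.Tactic.Linarith.sub_nonpos_of_le (h0 (dv d₀))) (Mathlib.Tactic.Linarith.sub_nonpos_of_le (h1 d₀))]
    simp only [e] at c
    simp only [← mul_div_assoc, ← sum_div]
    have := mul_le_mul_of_nonneg_left q p
    rw [div_pow]
    linarith only [c, this]
  have hC : ∀ e : V × Dir, IsEven e.1 → |TG G e.1 (oe e)| ≤ 1 := fun e _ => by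
    rw [TG, oe, add_sub_cancel_left, abs_of_nonneg (h0 _)]
    exact h1 _
  have ek : ∀ e : V × Dir, e ≠ (0, d₀) → colK (TG G) (TG G) 2 (0, d₀) e =
      G (dv d₀ - e.1) * G (e.1 + dv e.2) := fun e k => by
    rw [colK, if_neg k]
    simp [TG, oe]
  refine ⟨fun d d' => ?_, fun d d' => ?_⟩
  · refine (NGauge_of_sum (fun X hX => wedge_even zero_le_two h hC hd hk X
      fun x k => (hX x k).2 trivial) d d').dom (2 / (u d * u d')) ((NGauge_ne _ 0).mono fun x k => ?_)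
    rw [ek _ fun e => k (congrArg Prod.fst e), ek _ fun e => k (congrArg Prod.fst e), hρ, hρ]
    exact NGauge_quot (hu d) (hu d')
  · refine (NGauge_of_sum (fun X hX => wedge_odd zero_le_two h hC hd hk X
      fun x k => (hX x k).1) d d').dom (2 / (u (d.1, !d.2) * u (d'.1, !d'.2)))
      ((NGauge_ne _ (oe (0, d₀))).mono fun x k => ?_)
    rw [ek _ fun e => k (by rw [← e, oe_eo]), ek _ fun e => k (by rw [← e, oe_eo]), hρ, hρ]
    exact NGauge_quot (hu _) (hu _)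

/-- The logarithmic ratios are square summable. -/
theorem NGauge_logs {G : V → ℝ} (h0 : ∀ w, 0 ≤ G w) (hp : ∀ w, ¬ IsEven w → 0 < G w)
    (h1 : ∀ d, G (dv d) ≤ 1) (h : PSD (TG G) (TG G) 2) (hl : LRO G) : ∃ v : Dir → ℝ, ∀ d d',
      NGauge_S True fun x => Real.log (G (x + dv d)) - Real.log (G (x + dv d')) - (v d - v d') := by
  obtain ⟨u, hu, hd⟩ := gauge_u h0 h1 h hl
  obtain ⟨m, hm, N₁, hN⟩ := hl
  let d₀ : Dir := (0, true)
  let ρ : Dir → V → ℝ := fun d x => G (dv d₀ - x) * G (x + dv d) / u d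
  obtain ⟨k1, k2⟩ := NGauge_rho h0 h1 h hu hd d₀ ρ fun _ _ => rfl
  have p : ∀ (d : Dir) (y : V), (IsEven y ↔ False) → (IsEven (y + dv d) ↔ True) := fun d y k => by
    rw [isEven_add_dv]
    tauto
  obtain ⟨E, hE⟩ := NGauge_en (b := False) (φ := ρ d₀) fun d d' =>
    ((((k1 d₀ (d.1, !d.2)).comp (add_left_injective (dv d)) (p d)).add (k2 d d')).add
      ((k1 (d'.1, !d'.2) d₀).comp (add_left_injective (dv d')) (p d'))).congr
      (Eventually.of_forall fun y => by ring)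
  obtain ⟨a, ha⟩ := NGauge_lim (b' := True) (by tauto) hE
  have la : ∀ d, Tendsto (ρ d) (NGauge_L True) (𝓝 a) := fun d => by
    simpa using (k1 d d₀).lim.add ha
  have a0 : 0 < a := by
    have := NGauge_mean (W := fun z => G (z + dv d₀) * G (dv d₀ - z))
      (fun _ => mul_nonneg (h0 _) (h0 _)) (a := a * u d₀) ((ha.mul_const (u d₀)).congr fun z => by
        simp only [ρ]
        rw [div_mul_cancel₀ _ (hu _).ne', mul_comm]) fun N k => hN N k d₀
    exact (mul_pos_iff_of_pos_right (hu _)).1 (hm.trans_le this)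
  refine ⟨fun d => Real.log (u d), fun d d' => (k1 d d').dom (a / 2)⁻¹ ?_⟩
  filter_upwards [(la d).eventually (Ici_mem_nhds (half_lt_self a0)),
    (la d').eventually (Ici_mem_nhds (half_lt_self a0)), NGauge_par True] with x e e' hx
  have n1 : G (dv d₀ - x) ≠ 0 := (hp _ (by
    rw [NGauge_sub]
    have := not_isEven_dv d₀
    tauto)).ne'
  have n2 : ∀ d, G (x + dv d) ≠ 0 := fun d => (hp _ (by
    rw [isEven_add_dv]
    tauto)).ne'
  have el : ∀ d, Real.log (ρ d x) =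
      Real.log (G (dv d₀ - x)) + Real.log (G (x + dv d)) - Real.log (u d) := fun d => by
    simp only [ρ]
    rw [Real.log_div (mul_ne_zero n1 (n2 d)) (hu d).ne', Real.log_mul n1 (n2 d)]
  have := NGauge_log (half_pos a0) e e'
  rw [el, el] at this
  exact le_trans (le_of_eq (congrArg _ (by ring))) this

/-- The gauge: `wedge_even` and `wedge_odd` with a column of the kernel give a limit of
`G (dv d₀ - z) * G (z + dv d)`, square summable logarithmic ratios, and the form of `u`. -/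
theorem gauge_h {G : V → ℝ} (h0 : ∀ w, 0 ≤ G w) (hp : ∀ w, ¬ IsEven w → 0 < G w)
    (h1 : ∀ d, G (dv d) ≤ 1) (h : PSD (TG G) (TG G) 2) (hl : LRO G) : ∃ g, Gauged G g := by
  obtain ⟨v, hv⟩ := NGauge_logs h0 hp h1 h hl
  have lp : ∀ i j : Fin 3, v (i, true) + v (i, false) = v (j, true) + v (j, false) := fun i j => by
    have e : ∀ i : Fin 3, dv (i, false) = -dv (i, true) := fun i => dv_not (i, true)
    have := (((hv (i, true) (j, true)).add ((hv (i, false) (j, false)).comp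
      (add_left_injective (dv (i, true) + dv (j, true))) fun x k => by
        rw [← add_assoc, isEven_add_dv, isEven_add_dv]
        tauto)).congr
      (g := fun _ => v (j, true) + v (j, false) - (v (i, true) + v (i, false)))
      (Eventually.of_forall fun x => by
        rw [e i, e j, show x + (dv (i, true) + dv (j, true)) + -dv (i, true) = x + dv (j, true) by abel,
          show x + (dv (i, true) + dv (j, true)) + -dv (j, true) = x + dv (i, true) by abel]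
        ring)).const
    linarith only [this]
  let g : Fin 3 → ℝ := fun i => (v (i, true) - v (i, false)) / 2
  have eg : ∀ d, hd g (dv d) = v d - (v (0, true) + v (0, false)) / 2 := fun ⟨i, s⟩ => by
    rw [dv, NGauge_hd_single, ← lp i 0]
    cases s
    · simp [g]
      ring
    · simp [g]
      ring
  let χ : V → ℝ := fun w => Real.log (G w) - hd g w
  have k : ∀ d d', NGauge_S True fun x => χ (x + dv d) - χ (x + dv d') := fun d d' =>
    (hv d d').congr (Eventually.of_forall fun x => by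
      simp only [χ, NGauge_hd_add, eg]
      ring)
  obtain ⟨E, hE⟩ := NGauge_en k
  obtain ⟨a, ha⟩ := NGauge_lim (b' := False) (by tauto) hE
  obtain ⟨B, hB⟩ := NGauge_bdd ha
  have ex : ∀ w, ¬ IsEven w → G w * Real.exp (-hd g w) = Real.exp (χ w) := fun w hw => by
    simp only [χ]
    rw [sub_eq_add_neg, Real.exp_add, Real.exp_log (hp w hw)]
  obtain ⟨E', hE'⟩ := NGauge_en (φ := fun w => G w * Real.exp (-hd g w)) fun d d' =>
    (k d d').dom (Real.exp B) ((NGauge_par True).mono fun x hx => by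
      have o : ∀ d, ¬ IsEven (x + dv d) := fun d => by
        rw [isEven_add_dv]
        tauto
      rw [ex _ (o d), ex _ (o d')]
      exact NGauge_exp (abs_le.1 (hB _ (iff_false_intro (o d)))).2
        (abs_le.1 (hB _ (iff_false_intro (o d')))).2)
  refine ⟨g, Real.exp (-B), Real.exp B, E', Real.exp_pos _, fun w hw => ?_, hE'⟩
  rw [ex w hw]
  exact (abs_le.1 (hB w (iff_false_intro hw))).imp Real.exp_le_exp.2 Real.exp_le_exp.2

theorem gauge_eq {G₁ G₂ : V → ℝ} {g₁ g₂ : Fin 3 → ℝ} (h₁ : Gauged G₁ g₁) (h₂ : Gauged G₂ g₂)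
    (h : ∀ w, ¬ IsEven w → G₁ w * G₂ (e0 + e0 - w) ≤ 1) : g₁ = g₂ := by
  obtain ⟨c₁, C₁, E₁, p₁, k₁, -⟩ := h₁
  obtain ⟨c₂, C₂, E₂, p₂, k₂, -⟩ := h₂
  have o0 : ¬ IsEven e0 := e0_eq ▸ not_isEven_dv _
  funext i
  refine sub_eq_zero.1 (NGauge_int
    (B := (-Real.log (c₁ * c₂) - hd g₁ e0 - hd g₂ e0) / 2) fun n => ?_)
  have ev : IsEven (Pi.single i (2 * n) : V) := by simp [IsEven]
  have o1 : ¬ IsEven (e0 + Pi.single i (2 * n)) := by
    rw [isEven_add]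
    tauto
  have o2 : ¬ IsEven (e0 + e0 - (e0 + Pi.single i (2 * n))) := by
    rw [add_sub_add_left_eq_sub, NGauge_sub]
    tauto
  have a := (k₁ _ o1).1
  have b := (k₂ _ o2).1
  have c := mul_le_mul a b p₂.le (p₁.le.trans a)
  rw [mul_mul_mul_comm, ← Real.exp_add] at c
  have d := Real.log_le_log (mul_pos p₁ p₂)
    (c.trans (mul_le_of_le_one_left (Real.exp_pos _).le (h _ o1)))
  rw [Real.log_exp, add_sub_add_left_eq_sub, NGauge_hd_add, NGauge_hd_sub, NGauge_hd_single,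
    NGauge_hd_single] at d
  push_cast at d
  linarith only [d]

/-- The kernel in the gauge `g`. -/
noncomputable def Gt (G : V → ℝ) (g : Fin 3 → ℝ) (x y : V) : ℝ :=
  G (y - x) * Real.exp (-hd g (y - x))

theorem nice_gauged {G : V → ℝ} {g : Fin 3 → ℝ} (h : Gauged G g) :
    ∃ C c E : ℝ, 0 < c ∧ Bd C (Gt G g) ∧ Nice c E 0 (Gt G g) ∧
      ∀ x y, IsEven x → ¬ IsEven y → c ≤ Gt G g x y := by
  obtain ⟨c, C, E, p, k, hE⟩ := h
  have k' : ∀ x y, IsEven x → ¬ IsEven y → c ≤ Gt G g x y ∧ Gt G g x y ≤ C := fun x y hx hy =>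
    k _ (by
      rw [NGauge_sub]
      tauto)
  refine ⟨C, c, E, p, fun x y hx hy => ⟨p.le.trans (k' x y hx hy).1, (k' x y hx hy).2⟩,
    ⟨∅, le_rfl, fun x _ hx => ⟨?_, ∅, le_rfl, fun y _ hy => (k' x y hx hy).1⟩,
      fun y _ hy => ⟨?_, ∅, le_rfl, fun x _ hx => (k' x y hx hy).1⟩⟩,
    fun x y hx hy => (k' x y hx hy).1⟩
  · refine NGauge_En hE (σ := fun y => y - x) sub_left_injective (Equiv.refl _) (fun y hy => ?_)
      fun y d => ?_
    · rw [NGauge_sub]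
      tauto
    · rw [Gt, add_sub_right_comm]
      rfl
  · refine NGauge_En hE (σ := fun x => y - x) sub_right_injective
      (Function.Involutive.toPerm (fun d : Dir => (d.1, !d.2)) fun d => by simp) (fun x hx => ?_)
      fun x d => ?_
    · rw [NGauge_sub]
      tauto
    · rw [Gt, Function.Involutive.coe_toPerm, dv_not, ← sub_sub, ← sub_eq_add_neg]

theorem gz_pos (g : Fin 3 → ℝ) (X : Finset V) : 0 < gz g X :=
  prod_pos fun _ _ => Real.exp_pos _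

theorem gz_empty (g : Fin 3 → ℝ) : gz g ∅ = 1 :=
  prod_empty

theorem gz_insert (g : Fin 3 → ℝ) {bg : Finset V} {x y : V} (hx : IsEven x) (hy : ¬ IsEven y)
    (hx' : x ∉ bg) (hy' : y ∉ bg) :
    gz g (insert x (insert y bg)) = gz g bg * Real.exp (-hd g (y - x)) := by
  have n : x ∉ insert y bg := fun k => (mem_insert.1 k).elim (fun e => hy (e ▸ hx)) hx'
  rw [gz, prod_insert n, prod_insert hy', sg, sg, if_pos hx, if_neg hy, ← mul_assoc, ← Real.exp_add,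
    NGauge_hd_sub, mul_comm, gz]
  exact congrArg _ (congrArg _ (by ring))

theorem NGauge_gz (g : Fin 3 → ℝ) {k : ℕ} {x y : Fin k → V} (hx : ∀ i, IsEven (x i))
    (hy : ∀ i, ¬ IsEven (y i)) (i1 : Function.Injective x) (i2 : Function.Injective y) :
    gz g (univ.image x ∪ univ.image y) = ∏ i, Real.exp (hd g (x i) - hd g (y i)) := by
  rw [gz, prod_union (disjoint_left.2 fun v h1 h2 => by
      obtain ⟨i, -, rfl⟩ := mem_image.1 h1
      obtain ⟨j, -, e⟩ := mem_image.1 h2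
      exact hy j (e ▸ hx i)),
    prod_image fun _ _ _ _ e => i1 e, prod_image fun _ _ _ _ e => i2 e, ← prod_mul_distrib]
  refine prod_congr rfl fun i _ => ?_
  rw [← Real.exp_add, sg, sg, if_pos (hx i), if_neg (hy i)]
  exact congrArg _ (by ring)

/-- The gauge factors of the two copies cancel. -/
theorem gz_cancel (g : Fin 3 → ℝ) {k : ℕ} {x y : Fin k → V} (hx : ∀ i, IsEven (x i))
    (hy : ∀ i, ¬ IsEven (y i)) (G₁ G₂ : Finset V → ℝ) :
    Gam (fun X => G₁ X * gz g X) x y *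
        Gam (fun X => G₂ X * gz g X) (fun i => y i + e0) (fun i => x i + e0) =
      Gam G₁ x y * Gam G₂ (fun i => y i + e0) (fun i => x i + e0) := by
  have o0 : ¬ IsEven e0 := e0_eq ▸ not_isEven_dv _
  simp only [Gam]
  by_cases i1 : Function.Injective x ∧ Function.Injective y
  · by_cases i2 : (Function.Injective fun i => y i + e0) ∧ Function.Injective fun i => x i + e0
    · rw [if_pos i1, if_pos i1, if_pos i2, if_pos i2, NGauge_gz g hx hy i1.1 i1.2,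
        NGauge_gz g (fun i => by
          have := hy i
          rw [isEven_add]
          tauto) (fun i => by
          have := hx i
          rw [isEven_add]
          tauto) i2.1 i2.2, mul_mul_mul_comm, ← prod_mul_distrib, prod_eq_one fun i _ => by
          rw [← Real.exp_add, NGauge_hd_add, NGauge_hd_add, Real.exp_eq_one_iff]
          ring, mul_one]
    · rw [if_neg i2, if_neg i2, mul_zero, mul_zero]
  · rw [if_neg i1, if_neg i1, zero_mul, zero_mul]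

end Pool.Agent.Work.MP_5cb0a4_pr.Z
end
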