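import Pool.Agent.Work.MP_5cb0a4_pr.Z.Harm
import Pool.Agent.Work.MP_5cb0a4_pr.Z.Paths
import Pool.Agent.Work.MP_5cb0a4_pr.Z.Ergo

-- merged part: Pool.Agent.Work.MP_5cb0a4_pr.N.Bil
section
open MeasureTheory Finset Filter Topology
open scoped Classical

namespace Pool.Agent.Work.MP_5cb0a4_pr.Z

theorem bExt_emb {ρ₁ ρ₂ : V → V} (h₁ : IsExt ρ₁) (h₂ : IsExt ρ₂) : BExt (emb ρ₁ ρ₂) := by
  rintro ⟨v, i⟩
  cases i
  · refine ⟨(h₁ v).1.imp (fun e => Prod.ext e rfl) id, Prod.ext (h₁ v).2 rfl⟩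
  · refine ⟨(h₂ v).1.imp (fun e => Prod.ext e rfl) id, Prod.ext (h₂ v).2 rfl⟩

theorem isExt_prj {μ : HE → HE} (h : BExt μ) (i : Bool) : IsExt (prj μ i) := by
  intro v
  by_cases e : (μ (v, i)).2 = i
  · have e1 : prj μ i v = (μ (v, i)).1 := if_pos e
    have e2 : μ ((μ (v, i)).1, i) = (v, i) :=
      (congrArg μ (Prod.ext rfl e.symm : ((μ (v, i)).1, i) = μ (v, i))).trans (h (v, i)).2
    rw [e1]
    refine ⟨(h (v, i)).1.imp (fun k => congrArg Prod.fst k) id, ?_⟩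
    rw [prj, e2, if_pos rfl]
  · have e1 : prj μ i v = v := if_neg e
    rw [e1, e1]
    exact ⟨Or.inl rfl, rfl⟩

theorem prj_emb_false (ρ₁ ρ₂ : V → V) : prj (emb ρ₁ ρ₂) false = ρ₁ := by
  funext v
  simp [prj, emb]

theorem prj_emb_true (ρ₁ ρ₂ : V → V) : prj (emb ρ₁ ρ₂) true = ρ₂ := by
  funext v
  simp [prj, emb]

lemma NBil_ep (μ : HE → HE) (x : HE) :
    emb (prj μ false) (prj μ true) x = (if (μ x).2 = x.2 then (μ x).1 else x.1, x.2) := by
  obtain ⟨v, i⟩ := x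
  cases i <;> rfl

theorem emb_prj {μ : HE → HE} (h : ∀ x, (μ x).2 = x.2) : emb (prj μ false) (prj μ true) = μ := by
  funext x
  rw [NBil_ep, if_pos (h x)]
  exact Prod.ext rfl (h x).symm

theorem un_emb (ρ₁ ρ₂ : V → V) : un (emb ρ₁ ρ₂) = un2 ρ₁ ρ₂ := by
  rfl

theorem emb_id : emb id id = id := by
  funext x
  simp [emb]

theorem BExt.fix_iff {μ : HE → HE} (hμ : BExt μ) (h : HE) : μ h = h ↔ (μ h).1 = h.1 := by
  refine ⟨fun e => congrArg Prod.fst e, fun e => (hμ h).1.resolve_right fun k => ?_⟩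
  rw [e] at k
  simp [Nbr] at k

theorem bExt_sh2 {μ : HE → HE} (h : BExt μ) (v : V) : BExt (sh2 v μ) := by
  intro x
  refine ⟨?_, by simp [sh2, (h (x.1 - v, x.2)).2]⟩
  rcases (h (x.1 - v, x.2)).1 with h1 | h1
  · left
    simp [sh2, h1]
  · right
    obtain ⟨d, hd⟩ := nbr_iff.1 h1
    refine nbr_iff.2 ⟨d, ?_⟩
    simp only [sh2]
    rw [hd, add_right_comm, sub_add_cancel]

theorem sh2_sh2 (v w : V) (μ : HE → HE) : sh2 v (sh2 w μ) = sh2 (v + w) μ := by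
  funext x
  simp only [sh2, sub_sub]
  rw [add_assoc, add_comm w v]

theorem sh2_zero (μ : HE → HE) : sh2 0 μ = μ := by
  funext x
  simp [sh2]

theorem emb_sh (v : V) (ρ₁ ρ₂ : V → V) : emb (sh v ρ₁) (sh v ρ₂) = sh2 v (emb ρ₁ ρ₂) := by
  funext x
  obtain ⟨w, i⟩ := x
  cases i <;> rfl

theorem self_mem_cls2 {μ : HE → HE} (h : BExt μ) (Λ : Finset V) : μ ∈ cls2 Λ μ := by
  exact mem_cls2.2 ⟨h, fun _ _ => rfl⟩

theorem cls2_eq {Λ : Finset V} {μ μ' : HE → HE} (h : ∀ x : HE, x.1 ∉ Λ → μ x = μ' x) :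
    cls2 Λ μ = cls2 Λ μ' := by
  ext ρ
  simp only [mem_cls2]
  exact and_congr_right fun _ => forall₂_congr fun x hx => by rw [h x hx]

/-- Pairs that leave `Λ` are the same in the whole class. -/
theorem cls2_cross {Λ : Finset V} {μ μ' : HE → HE} (hμ : BExt μ) (h : μ' ∈ cls2 Λ μ) {x : HE}
    (hx : (μ x).1 ∉ Λ) : μ' x = μ x := by
  obtain ⟨h1, h2⟩ := mem_cls2.1 h
  have h3 := h2 _ hx
  rw [(hμ x).2] at h3
  rw [← (h1 (μ x)).2, h3]

lemma NBil_glue {Λ : Finset V} {μ μ' ρ : HE → HE} (hμ : BExt μ) (hμ' : BExt μ')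
    (e : ∀ x : HE, x.1 ∈ Λ → (μ x).1 ∉ Λ ∨ (μ' x).1 ∉ Λ → μ x = μ' x) (hρ : ρ ∈ cls2 Λ μ) :
    (fun x : HE => if x.1 ∈ Λ then ρ x else μ' x) ∈ cls2 Λ μ' := by
  obtain ⟨h1, h2⟩ := mem_cls2.1 hρ
  refine mem_cls2.2 ⟨fun x => ?_, fun x hx => if_neg hx⟩
  by_cases hx : x.1 ∈ Λ
  · simp only [if_pos hx]
    refine ⟨(h1 x).1, ?_⟩
    split_ifs with h
    · exact (h1 x).2
    · have h3 : μ x = ρ x := cls2_cross h1 (mem_cls2.2 ⟨hμ, fun y hy => (h2 y hy).symm⟩) h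
      rw [← h3] at h ⊢
      rw [e x hx (Or.inl h), (hμ' x).2]
  · simp only [if_neg hx]
    refine ⟨(hμ' x).1, ?_⟩
    split_ifs with h
    · have h3 := e _ h (Or.inr (by rwa [(hμ' x).2]))
      rw [(hμ' x).2] at h3
      rw [cls2_cross hμ hρ (by rwa [h3]), h3]
    · exact (hμ' x).2

lemma NBil_sum {α : Type} [AddCommMonoid α] {Λ : Finset V} {b : (HE → HE) → α} (hb : Loc2 Λ b)
    {μ μ' : HE → HE} (hμ : BExt μ) (hμ' : BExt μ')
    (e : ∀ x : HE, x.1 ∈ Λ → (μ x).1 ∉ Λ ∨ (μ' x).1 ∉ Λ → μ x = μ' x) :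
    ∑ ρ ∈ cls2 Λ μ, b ρ = ∑ ρ ∈ cls2 Λ μ', b ρ := by
  refine sum_nbij' (fun ρ x => if x.1 ∈ Λ then ρ x else μ' x)
    (fun ρ x => if x.1 ∈ Λ then ρ x else μ x) (fun ρ hρ => NBil_glue hμ hμ' e hρ)
    (fun ρ hρ => NBil_glue hμ' hμ (fun x hx k => (e x hx k.symm).symm) hρ)
    (fun ρ hρ => funext fun x => ?_) (fun ρ hρ => funext fun x => ?_) fun ρ hρ => ?_
  · by_cases hx : x.1 ∈ Λ
    · simp only [if_pos hx]
    · simp only [if_neg hx, (mem_cls2.1 hρ).2 x hx]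
  · by_cases hx : x.1 ∈ Λ
    · simp only [if_pos hx]
    · simp only [if_neg hx, (mem_cls2.1 hρ).2 x hx]
  · exact hb _ _ (mem_cls2.1 hρ).1 (mem_cls2.1 (NBil_glue hμ hμ' e hρ)).1 fun x hx =>
      (if_pos hx).symm

theorem loc2_sum_cls2 {α : Type} [AddCommMonoid α] {Λ : Finset V} {b : (HE → HE) → α}
    (hb : Loc2 Λ b) : Loc2 Λ fun μ => ∑ μ' ∈ cls2 Λ μ, b μ' := by
  exact fun μ μ' hμ hμ' e => NBil_sum hb hμ hμ' fun x hx _ => e x hx

theorem local2_W2 {Λ : Finset V} {b : (HE → HE) → ℝ} (hb : Loc2 Λ b) : Local2 Λ (W2 Λ b) := by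
  intro σ₁ σ₂ σ₁' σ₂' a b' c d e f
  have h1 : zz Λ σ₁ = zz Λ σ₁' := local_Zm Λ ∅ _ _ a c e
  have h2 : zz Λ σ₂ = zz Λ σ₂' := local_Zm Λ ∅ _ _ b' d f
  have h3 := loc2_sum_cls2 hb _ _ (bExt_emb a b') (bExt_emb c d) fun x hx => by
    simp only [emb, e _ hx, f _ hx]
  rw [W2, W2, h1, h2]
  exact congrArg (· / _) h3

theorem sum_cls2_sh {α : Type} [AddCommMonoid α] (c : V) (Λ : Finset V) (μ : HE → HE)
    (b : (HE → HE) → α) :
    ∑ μ' ∈ cls2 (tr c Λ) μ, b (sh2 (-c) μ') = ∑ μ' ∈ cls2 Λ (sh2 (-c) μ), b μ' := by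
  refine sum_nbij' (sh2 (-c)) (sh2 c) (fun ρ hρ => ?_) (fun ρ hρ => ?_) (fun ρ _ => ?_)
    (fun ρ _ => ?_) fun _ _ => rfl
  · refine mem_cls2.2 ⟨bExt_sh2 (mem_cls2.1 hρ).1 _, fun x hx => ?_⟩
    simp only [sh2]
    rw [(mem_cls2.1 hρ).2 _ fun h => hx (by simpa using mem_tr.1 h)]
  · refine mem_cls2.2 ⟨bExt_sh2 (mem_cls2.1 hρ).1 _, fun x hx => ?_⟩
    simp only [sh2]
    rw [(mem_cls2.1 hρ).2 _ fun h => hx (mem_tr.2 h)]
    simp [sh2]
  · rw [sh2_sh2, add_neg_cancel, sh2_zero]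
  · rw [sh2_sh2, neg_add_cancel, sh2_zero]

theorem Loc2.sh {α : Type} {Λ : Finset V} {b : (HE → HE) → α} (hb : Loc2 Λ b) (c : V) :
    Loc2 (tr c Λ) fun μ => b (sh2 (-c) μ) := by
  refine fun σ σ' a b e => hb _ _ (bExt_sh2 a _) (bExt_sh2 b _) fun x hx => ?_
  simp only [sh2]
  rw [e _ (mem_tr.2 (by simpa using hx))]

/-- The class sum only depends on the two layers when no layer change leaves `Λ`. -/
theorem sum_cls2_prj {Λ : Finset V} {b : (HE → HE) → ℝ} (hb : Loc2 Λ b) {μ : HE → HE}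
    (hμ : BExt μ) (h : ∀ x : HE, x.1 ∈ Λ → (μ x).1 ∉ Λ → (μ x).2 = x.2) :
    ∑ μ' ∈ cls2 Λ μ, b μ' = ∑ μ' ∈ cls2 Λ (emb (prj μ false) (prj μ true)), b μ' := by
  refine NBil_sum hb hμ (bExt_emb (isExt_prj hμ _) (isExt_prj hμ _)) fun x hx k => ?_
  have e : (μ x).2 = x.2 := by
    refine k.elim (h x hx) fun k => ?_
    by_contra hc
    rw [NBil_ep, if_neg hc] at k
    exact k hx
  rw [NBil_ep, if_pos e]
  exact Prod.ext rfl e

/-- Bilayer configurations without layer change in `Λ` are pairs. -/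
theorem sum_cls2_proper {α : Type} [AddCommMonoid α] (Λ : Finset V) (ρ₁ ρ₂ : V → V)
    (g : (HE → HE) → α) :
    ∑ μ ∈ (cls2 Λ (emb ρ₁ ρ₂)).filter (fun μ => ∀ x : HE, x.1 ∈ Λ → (μ x).2 = x.2), g μ =
      ∑ κ₁ ∈ cls Λ ρ₁, ∑ κ₂ ∈ cls Λ ρ₂, g (emb κ₁ κ₂) := by
  rw [← sum_product']
  have key : ∀ μ ∈ (cls2 Λ (emb ρ₁ ρ₂)).filter (fun μ => ∀ x : HE, x.1 ∈ Λ → (μ x).2 = x.2),
      emb (prj μ false) (prj μ true) = μ := fun μ hμ => emb_prj fun x => by
    obtain ⟨h1, h2⟩ := mem_filter.1 hμ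
    by_cases hx : x.1 ∈ Λ
    · exact h2 x hx
    · rw [(mem_cls2.1 h1).2 x hx]
      rfl
  refine sum_nbij' (fun μ => (prj μ false, prj μ true)) (fun κ => emb κ.1 κ.2) (fun μ hμ => ?_)
    (fun κ hκ => ?_) key (fun κ _ => ?_) fun μ hμ => ?_
  · obtain ⟨h1, h2⟩ := mem_cls2.1 (mem_filter.1 hμ).1
    refine mem_product.2 ⟨mem_cls.2 ⟨isExt_prj h1 _, fun x hx => ?_⟩,
      mem_cls.2 ⟨isExt_prj h1 _, fun x hx => ?_⟩⟩
    · simp [prj, h2 (x, false) hx, emb]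
    · simp [prj, h2 (x, true) hx, emb]
  · obtain ⟨h1, h2⟩ := mem_product.1 hκ
    refine mem_filter.2 ⟨mem_cls2.2 ⟨bExt_emb (mem_cls.1 h1).1 (mem_cls.1 h2).1, fun x hx => ?_⟩,
      fun _ _ => rfl⟩
    simp only [emb, (mem_cls.1 h1).2 _ hx, (mem_cls.1 h2).2 _ hx]
  · rw [prj_emb_false, prj_emb_true]
  · rw [key μ hμ]

theorem Mix2.nonneg {Λ P : Finset V} {w : (HE → HE) → ℂ} {β : ℝ} (h : Mix2 Λ P w β) : 0 ≤ β := by
  induction h with
  | adm => exact zero_le_one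
  | smul a _ ih => exact mul_nonneg (norm_nonneg a) ih
  | add _ _ ih ih' => exact add_nonneg ih ih'
  | mono _ _ k ih => exact ih.trans k

theorem Mix2.loc {Λ P : Finset V} {w : (HE → HE) → ℂ} {β : ℝ} (h : Mix2 Λ P w β) : Loc2 Λ w := by
  induction h with
  | adm g E hg _ _ =>
    intro μ μ' _ _ e
    have e1 : okB Λ P μ ↔ okB Λ P μ' := forall₂_congr fun x hx => by rw [e x hx]
    have e2 : g (un μ) = g (un μ') := hg _ _ fun v hv => by
      rw [un, un, e (v, false) hv, e (v, true) hv]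
    have e3 : WI Λ E μ = WI Λ E μ' := prod_congr rfl fun x hx => by
      rw [e x (mem_product.1 hx).1]
    rw [wt2, wt2, e2, e3, if_congr e1 rfl rfl]
  | smul a _ ih => exact fun μ μ' p q e => congrArg (a * ·) (ih μ μ' p q e)
  | add _ _ ih ih' => exact fun μ μ' p q e => congrArg₂ (· + ·) (ih μ μ' p q e) (ih' μ μ' p q e)
  | mono _ k _ ih => exact fun μ μ' p q e => (k μ p).trans ((ih μ μ' p q e).trans (k μ' q).symm)

theorem Mix2.loc_real {Λ P : Finset V} {b : (HE → HE) → ℝ} {β : ℝ}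
    (h : Mix2 Λ P (fun μ => (b μ : ℂ)) β) : Loc2 Λ b := by
  exact fun μ μ' p q e => Complex.ofReal_injective (h.loc μ μ' p q e)

theorem Mix2.zero {Λ P : Finset V} {w : (HE → HE) → ℂ} {β : ℝ} (h : Mix2 Λ P w β) {μ : HE → HE}
    (hμ : BExt μ) (hn : ¬ okB Λ P μ) : w μ = 0 := by
  induction h with
  | adm g E => exact if_neg hn
  | smul a _ ih => simp only [ih, mul_zero]
  | add _ _ ih ih' => simp only [ih, ih', add_zero]
  | mono _ k _ ih => exact (k μ hμ).trans ih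

lemma NBil_sh (c : V) (μ : HE → HE) (x : HE) :
    sh2 (-c) μ x = ((μ (x.1 + c, x.2)).1 - c, (μ (x.1 + c, x.2)).2) := by
  simp only [sh2, sub_eq_add_neg, neg_neg]

lemma NBil_fix (c : V) (μ : HE → HE) (x : HE) :
    sh2 (-c) μ x = x ↔ μ (x.1 + c, x.2) = (x.1 + c, x.2) := by
  rw [NBil_sh, Prod.ext_iff, Prod.ext_iff, sub_eq_iff_eq_add]

lemma NBil_ok (Λ P : Finset V) (c : V) (μ : HE → HE) :
    okB Λ P (sh2 (-c) μ) ↔ okB (tr c Λ) (tr c P) μ := by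
  refine (Equiv.prodCongr (Equiv.addRight c) (Equiv.refl Bool)).forall_congr fun x => ?_
  have e : Equiv.prodCongr (Equiv.addRight c) (Equiv.refl Bool) x = (x.1 + c, x.2) := rfl
  rw [e, NBil_fix, NBil_sh]
  simp only [mem_tr, add_sub_cancel_right]

lemma NBil_WI (Λ : Finset V) (E : V → V → Bool → Bool → ℂ) {c : V} (hc : IsEven c)
    (μ : HE → HE) : WI Λ E (sh2 (-c) μ) = WI (tr c Λ) (fun x y => E (x - c) (y - c)) μ := by
  refine prod_equiv (Equiv.prodCongr (Equiv.addRight c) (Equiv.refl Bool)) (fun x => ?_)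
    fun x _ => ?_
  · simp [mem_tr]
  · have e : Equiv.prodCongr (Equiv.addRight c) (Equiv.refl Bool) x = (x.1 + c, x.2) := rfl
    have e1 : IsEven x.1 ↔ IsEven (x.1 + c) := by
      rw [isEven_add]
      tauto
    rw [e]
    refine if_congr (and_congr e1 (and_congr (NBil_fix c μ x).not ?_)) ?_ rfl
    · rw [NBil_sh, mem_tr]
    · rw [NBil_sh]
      simp only [add_sub_cancel_right]

theorem Mix2.sh {Λ P : Finset V} {w : (HE → HE) → ℂ} {β : ℝ} (h : Mix2 Λ P w β) {c : V}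
    (hc : IsEven c) : Mix2 (tr c Λ) (tr c P) (fun μ => w (sh2 (-c) μ)) β := by
  induction h with
  | adm g E hg h1 h2 =>
    refine Mix2.mono (Mix2.adm (fun U => g fun v => Sym2.map (· - c) (U (v + c)))
      (fun x y => E (x - c) (y - c)) (fun U U' e => hg _ _ fun v hv => ?_) (fun _ => h1 _)
      fun _ _ => h2 _ _) (fun μ _ => ?_) le_rfl
    · rw [e (v + c) (mem_coe.2 (mem_tr.2 (by simpa using hv)))]
    · have e : un (sh2 (-c) μ) = fun v => Sym2.map (· - c) (un μ (v + c)) := funext fun v => by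
        rw [un, un, NBil_sh, NBil_sh, Sym2.map_mk]
      rw [wt2, wt2, NBil_WI Λ E hc, e, if_congr (NBil_ok Λ P c μ) rfl rfl]
  | smul a _ ih => exact ih.smul a
  | add _ _ ih ih' => exact ih.add ih'
  | mono _ k k' ih => exact ih.mono (fun μ hμ => k _ (bExt_sh2 hμ _)) k'

theorem Mix2.of_zero (Λ P : Finset V) {β : ℝ} (hβ : 0 ≤ β) : Mix2 Λ P (fun _ => 0) β := by
  refine Mix2.mono ((Mix2.adm (fun _ => 0) (fun _ _ _ _ => 0) (fun _ _ _ => rfl) (by simp)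
    fun _ _ u v => ?_).smul 0) (fun _ _ => (zero_mul _).symm) (by simpa using hβ)
  simp only [mul_zero, zero_mul, sum_const_zero, norm_zero]
  rw [zero_pow two_ne_zero]
  positivity

theorem Mix2.sum {ι : Type} {Λ P : Finset V} (S : Finset ι) (a : ι → ℂ)
    (w : ι → (HE → HE) → ℂ) (β : ι → ℝ) (h : ∀ i ∈ S, Mix2 Λ P (w i) (β i)) :
    Mix2 Λ P (fun μ => ∑ i ∈ S, a i * w i μ) (∑ i ∈ S, ‖a i‖ * β i) := by
  induction S using Finset.induction_on with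
  | empty => simpa using Mix2.of_zero Λ P le_rfl
  | insert i S hi ih =>
    simp only [sum_insert hi]
    exact ((h i (mem_insert_self i S)).smul (a i)).add
      (ih fun j hj => h j (mem_insert_of_mem hj))

lemma NBil_repr {Λ P : Finset V} {w : (HE → HE) → ℂ} {β : ℝ} (h : Mix2 Λ P w β) :
    ∃ (ι : Type) (_ : Fintype ι) (a : ι → ℂ) (g : ι → (V → Sym2 V) → ℂ)
      (E : ι → V → V → Bool → Bool → ℂ), (∀ i, LocU Λ (g i)) ∧ (∀ i U, ‖g i U‖ ≤ 1) ∧
      (∀ i x y, Contr (E i x y)) ∧ ∑ i, ‖a i‖ ≤ β ∧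
      ∀ μ, BExt μ → w μ = ∑ i, a i * wt2 Λ P (g i) (E i) μ := by
  induction h with
  | adm g E h1 h2 h3 =>
    exact ⟨Unit, inferInstance, fun _ => 1, fun _ => g, fun _ => E, fun _ => h1, fun _ => h2,
      fun _ => h3, by simp, fun μ _ => by simp⟩
  | smul c _ ih =>
    obtain ⟨ι, _, a, g, E, h1, h2, h3, h4, h5⟩ := ih
    refine ⟨ι, inferInstance, fun i => c * a i, g, E, h1, h2, h3, ?_, fun μ hμ => ?_⟩
    · simp only [norm_mul, ← mul_sum]
      exact mul_le_mul_of_nonneg_left h4 (norm_nonneg c)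
    · simp only [h5 μ hμ, mul_sum, mul_assoc]
  | add _ _ ih ih' =>
    obtain ⟨ι, _, a, g, E, h1, h2, h3, h4, h5⟩ := ih
    obtain ⟨ι', _, a', g', E', k1, k2, k3, k4, k5⟩ := ih'
    refine ⟨ι ⊕ ι', inferInstance, Sum.elim a a', Sum.elim g g', Sum.elim E E',
      Sum.forall.2 ⟨h1, k1⟩, Sum.forall.2 ⟨h2, k2⟩, Sum.forall.2 ⟨h3, k3⟩, ?_, fun μ hμ => ?_⟩
    · rw [Fintype.sum_sum_type]
      exact add_le_add h4 k4
    · rw [Fintype.sum_sum_type]
      exact congrArg₂ (· + ·) (h5 μ hμ) (k5 μ hμ)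
  | mono _ k k' ih =>
    obtain ⟨ι, _, a, g, E, h1, h2, h3, h4, h5⟩ := ih
    exact ⟨ι, inferInstance, a, g, E, h1, h2, h3, h4.trans k', fun μ hμ =>
      (k μ hμ).trans (h5 μ hμ)⟩

/-- A mixture is a finite combination of admissible weights. -/
theorem Mix2.repr {Λ P : Finset V} {w : (HE → HE) → ℂ} {β : ℝ} (h : Mix2 Λ P w β) :
    ∃ (n : ℕ) (a : Fin n → ℂ) (g : Fin n → (V → Sym2 V) → ℂ)
      (E : Fin n → V → V → Bool → Bool → ℂ), (∀ i, LocU Λ (g i)) ∧ (∀ i U, ‖g i U‖ ≤ 1) ∧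
      (∀ i x y, Contr (E i x y)) ∧ ∑ i, ‖a i‖ ≤ β ∧
      ∀ μ, BExt μ → w μ = ∑ i, a i * wt2 Λ P (g i) (E i) μ := by
  obtain ⟨ι, _, a, g, E, h1, h2, h3, h4, h5⟩ := NBil_repr h
  let e := (Fintype.equivFin ι).symm
  refine ⟨_, fun i => a (e i), fun i => g (e i), fun i => E (e i), fun i => h1 _, fun i => h2 _,
    fun i => h3 _, ?_, fun μ hμ => ?_⟩
  · rwa [e.sum_comp fun i => ‖a i‖]
  · rw [h5 μ hμ, e.sum_comp fun i => a i * wt2 Λ P (g i) (E i) μ]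

end Pool.Agent.Work.MP_5cb0a4_pr.Z
end

-- merged part: Pool.Agent.Work.MP_5cb0a4_pr.N.HopSum
section
open MeasureTheory Finset Filter Topology
open scoped Classical

namespace Pool.Agent.Work.MP_5cb0a4_pr.Z

lemma NHopSum_ep (μ : HE → HE) (h : HE) :
    emb (prj μ false) (prj μ true) h = if (μ h).2 = h.2 then μ h else h := by
  obtain ⟨v, i⟩ := h
  cases i
  · by_cases h1 : (μ (v, false)).2 = false
    · rw [if_pos h1]
      exact Prod.ext (by simp [emb, prj, h1]) (by simp [emb, h1])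
    · rw [if_neg h1]
      exact Prod.ext (by simp [emb, prj, h1]) (by simp [emb])
  · by_cases h1 : (μ (v, true)).2 = true
    · rw [if_pos h1]
      exact Prod.ext (by simp [emb, prj, h1]) (by simp [emb, h1])
    · rw [if_neg h1]
      exact Prod.ext (by simp [emb, prj, h1]) (by simp [emb])

lemma NHopSum_mon (Λ P : Finset V) (κ₁ κ₂ : V → V) (S : HE → Prop) :
    ((∀ v, v ∈ mon Λ κ₁ \ P ↔ S (v, false)) ∧ ∀ v, v ∈ mon Λ κ₂ \ P ↔ S (v, true)) ↔
      ∀ h, S h ↔ h.1 ∈ Λ ∧ h.1 ∉ P ∧ emb κ₁ κ₂ h = h := by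
  constructor
  · rintro ⟨h1, h2⟩ ⟨v, i⟩
    cases i
    · rw [← h1 v]
      simp [mem_mon, emb]
      tauto
    · rw [← h2 v]
      simp [mem_mon, emb]
      tauto
  · intro h
    constructor
    · intro v
      rw [h]
      simp [mem_mon, emb]
      tauto
    · intro v
      rw [h]
      simp [mem_mon, emb]
      tauto

lemma NHopSum_gen (Λ P : Finset V) (ρ₁ ρ₂ : V → V) (S : HE → Prop) (τ : HE → HE)
    (hS : ∀ h, S h → S (τ h) ∧ τ (τ h) = h ∧ (τ h).2 ≠ h.2 ∧ Nbr h.1 (τ h).1 ∧ h.1 ∈ Λ ∧ h.1 ∉ P)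
    (g : (V → V) → (V → V) → ℝ) (Q : (HE → HE) → Prop) (R₁ R₂ : (V → V) → Prop)
    [DecidablePred R₁] [DecidablePred R₂] [DecidablePred Q]
    (hQ : ∀ μ ∈ cls2 Λ (emb ρ₁ ρ₂), Q μ ↔ (∀ h, S h → μ h = τ h) ∧
      ∀ h, ¬ S h → (μ h).2 = h.2 ∧ (h.1 ∈ Λ → μ h = h → h.1 ∈ P))
    (hR₁ : ∀ κ, R₁ κ ↔ ∀ v, v ∈ mon Λ κ \ P ↔ S (v, false))
    (hR₂ : ∀ κ, R₂ κ ↔ ∀ v, v ∈ mon Λ κ \ P ↔ S (v, true)) :
    ∑ μ ∈ cls2 Λ (emb ρ₁ ρ₂), (if Q μ then 1 else 0) * g (prj μ false) (prj μ true) =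
      ∑ κ₁ ∈ (cls Λ ρ₁).filter R₁, ∑ κ₂ ∈ (cls Λ ρ₂).filter R₂, g κ₁ κ₂ := by
  have e0 : ∑ μ ∈ cls2 Λ (emb ρ₁ ρ₂), (if Q μ then 1 else 0) * g (prj μ false) (prj μ true) =
      ∑ μ ∈ (cls2 Λ (emb ρ₁ ρ₂)).filter Q, g (prj μ false) (prj μ true) := by
    rw [Finset.sum_filter]
    refine Finset.sum_congr rfl fun μ _ => ?_
    by_cases h : Q μ
    · rw [if_pos h, if_pos h, one_mul]
    · rw [if_neg h, if_neg h, zero_mul]
  rw [e0, ← Finset.sum_product']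
  have hmem : ∀ p ∈ (cls Λ ρ₁).filter R₁ ×ˢ (cls Λ ρ₂).filter R₂,
      ∀ h, S h ↔ h.1 ∈ Λ ∧ h.1 ∉ P ∧ emb p.1 p.2 h = h := fun p hp =>
    (NHopSum_mon Λ P p.1 p.2 S).1 ⟨(hR₁ _).1 (mem_filter.1 (mem_product.1 hp).1).2,
      (hR₂ _).1 (mem_filter.1 (mem_product.1 hp).2).2⟩
  refine Finset.sum_nbij' (fun μ => (prj μ false, prj μ true))
    (fun p h => if S h then τ h else emb p.1 p.2 h) ?_ ?_ ?_ ?_ (fun _ _ => rfl)
  · intro μ hμ
    obtain ⟨hμ1, hμ2⟩ := mem_filter.1 hμ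
    obtain ⟨q1, q2⟩ := (hQ μ hμ1).1 hμ2
    obtain ⟨b1, b2⟩ := mem_cls2.1 hμ1
    have key := (NHopSum_mon Λ P (prj μ false) (prj μ true) S).2 fun h => by
      rw [NHopSum_ep]
      constructor
      · intro hh
        obtain ⟨-, -, s3, -, s5, s6⟩ := hS h hh
        refine ⟨s5, s6, if_neg ?_⟩
        rw [q1 h hh]
        exact s3
      · rintro ⟨s1, s2, s3⟩
        by_contra hh
        rw [if_pos (q2 h hh).1] at s3
        exact s2 ((q2 h hh).2 s1 s3)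
    refine mem_product.2 ⟨mem_filter.2 ⟨mem_cls.2 ⟨isExt_prj b1 _, fun x hx => ?_⟩,
      (hR₁ _).2 key.1⟩, mem_filter.2 ⟨mem_cls.2 ⟨isExt_prj b1 _, fun x hx => ?_⟩,
      (hR₂ _).2 key.2⟩⟩
    · have := b2 (x, false) hx
      simp [prj, this, emb]
    · have := b2 (x, true) hx
      simp [prj, this, emb]
  · intro p hp
    have hm := hmem p hp
    obtain ⟨c1, c2⟩ := mem_cls.1 (mem_filter.1 (mem_product.1 hp).1).1
    obtain ⟨d1, d2⟩ := mem_cls.1 (mem_filter.1 (mem_product.1 hp).2).1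
    have hb := bExt_emb c1 d1
    have hin : (fun h => if S h then τ h else emb p.1 p.2 h) ∈ cls2 Λ (emb ρ₁ ρ₂) := by
      refine mem_cls2.2 ⟨fun h => ?_, fun h hh => ?_⟩
      · by_cases hh : S h
        · obtain ⟨s1, s2, -, s4, -, -⟩ := hS h hh
          simp only [if_pos hh, if_pos s1]
          exact ⟨Or.inr s4, s2⟩
        · have hh' : ¬ S (emb p.1 p.2 h) := fun h' => by
            have h2 := ((hm _).1 h').2.2
            rw [(hb h).2] at h2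
            exact hh (h2 ▸ h')
          simp only [if_neg hh, if_neg hh']
          exact hb h
      · have hh' : ¬ S h := fun h' => hh (hS h h').2.2.2.2.1
        simp only [if_neg hh']
        simp only [emb, c2 _ hh, d2 _ hh]
    refine mem_filter.2 ⟨hin, (hQ _ hin).2 ⟨fun h hh => if_pos hh, fun h hh => ?_⟩⟩
    simp only [if_neg hh]
    refine ⟨rfl, fun s1 s3 => ?_⟩
    by_contra s2
    exact hh ((hm h).2 ⟨s1, s2, s3⟩)
  · intro μ hμ
    obtain ⟨hμ1, hμ2⟩ := mem_filter.1 hμ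
    obtain ⟨q1, q2⟩ := (hQ μ hμ1).1 hμ2
    funext h
    by_cases hh : S h
    · simp only [if_pos hh]
      exact (q1 h hh).symm
    · simp only [if_neg hh]
      rw [NHopSum_ep, if_pos (q2 h hh).1]
  · intro p hp
    have hm := hmem p hp
    have key : emb (prj (fun h => if S h then τ h else emb p.1 p.2 h) false)
        (prj (fun h => if S h then τ h else emb p.1 p.2 h) true) = emb p.1 p.2 := by
      funext h
      rw [NHopSum_ep]
      by_cases hh : S h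
      · simp only [if_pos hh]
        rw [if_neg (hS h hh).2.2.1]
        exact ((hm h).1 hh).2.2.symm
      · simp only [if_neg hh]
        exact if_pos rfl
    have k1 := congrArg (fun μ => prj μ false) key
    have k2 := congrArg (fun μ => prj μ true) key
    simp only [prj_emb_false, prj_emb_true] at k1 k2
    exact Prod.ext k1 k2

lemma NHopSum_HA {Λ : Finset V} {μ : HE → HE} {e : V × Dir} :
    e ∈ HA Λ μ ↔ e.1 ∈ Λ ∧ IsEven e.1 ∧ μ (e.1, false) = (oe e, true) := by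
  simp [HA]

lemma NHopSum_HB {Λ : Finset V} {μ : HE → HE} {e : V × Dir} :
    e ∈ HB Λ μ ↔ e.1 ∈ Λ ∧ IsEven e.1 ∧ μ (e.1, true) = (oe e, false) := by
  simp [HB]

lemma NHopSum_even {Λ : Finset V} {μ : HE → HE} (hμ : BExt μ) {h : HE} (hh : h.1 ∈ Λ)
    (he : IsEven h.1) (hc : (μ h).2 ≠ h.2) :
    (∃ e ∈ HA Λ μ, h = (e.1, false)) ∨ ∃ f ∈ HB Λ μ, h = (f.1, true) := by
  have h1 : μ h ≠ h := fun h2 => hc (by rw [h2])
  obtain ⟨d, hd⟩ := nbr_iff.1 ((hμ h).1.resolve_left h1)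
  obtain ⟨v, i⟩ := h
  cases i
  · exact Or.inl ⟨(v, d), NHopSum_HA.2 ⟨hh, he, Prod.ext hd (by simpa using hc)⟩, rfl⟩
  · exact Or.inr ⟨(v, d), NHopSum_HB.2 ⟨hh, he, Prod.ext hd (by simpa using hc)⟩, rfl⟩

lemma NHopSum_chg {Λ P : Finset V} {μ : HE → HE} (hμ : BExt μ) (hok : okB Λ P μ) {h : HE}
    (hh : h.1 ∈ Λ) (hc : (μ h).2 ≠ h.2) :
    (∃ e ∈ HA Λ μ, h = (e.1, false) ∨ h = (oe e, true)) ∨
      ∃ f ∈ HB Λ μ, h = (f.1, true) ∨ h = (oe f, false) := by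
  by_cases he : IsEven h.1
  · rcases NHopSum_even hμ hh he hc with ⟨e, h1, h2⟩ | ⟨e, h1, h2⟩
    · exact Or.inl ⟨e, h1, Or.inl h2⟩
    · exact Or.inr ⟨e, h1, Or.inl h2⟩
  · have h1 : μ h ≠ h := fun h2 => hc (by rw [h2])
    have h2 : IsEven (μ h).1 := (nbr_parity ((hμ h).1.resolve_left h1)).2 he
    have h3 : (μ h).1 ∈ Λ := by
      by_contra h4
      exact hc ((hok h hh).2 h4)
    have h4 : (μ (μ h)).2 ≠ (μ h).2 := by
      rw [(hμ h).2]
      exact hc.symm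
    rcases NHopSum_even hμ h3 h2 h4 with ⟨e, h5, h6⟩ | ⟨e, h5, h6⟩
    · refine Or.inl ⟨e, h5, Or.inr ?_⟩
      rw [← (NHopSum_HA.1 h5).2.2, ← h6, (hμ h).2]
    · refine Or.inr ⟨e, h5, Or.inr ?_⟩
      rw [← (NHopSum_HB.1 h5).2.2, ← h6, (hμ h).2]

lemma NHopSum_out {Λ : Finset V} {ρ₁ ρ₂ : V → V} {μ : HE → HE} (hμ : μ ∈ cls2 Λ (emb ρ₁ ρ₂))
    {h : HE} (hh : h.1 ∉ Λ) : (μ h).2 = h.2 := by
  rw [(mem_cls2.1 hμ).2 h hh]
  rfl

lemma NHopSum_oe {e e' : V × Dir} (h1 : e'.1 = e.1) (h2 : oe e' = oe e) : e' = e := by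
  refine Prod.ext h1 (dv_injective ?_)
  unfold oe at h2
  rw [h1] at h2
  exact add_left_cancel h2

/-- Class sum without layer change. -/
theorem sum_hop0 (Λ P : Finset V) {ρ₁ ρ₂ : V → V} (h₁ : IsExt ρ₁) (h₂ : IsExt ρ₂)
    (g : (V → V) → (V → V) → ℝ) :
    ∑ μ ∈ cls2 Λ (emb ρ₁ ρ₂), hop Λ P ∅ ∅ μ * g (prj μ false) (prj μ true) =
      ∑ κ₁ ∈ (cls Λ ρ₁).filter (fun κ => mon Λ κ ⊆ P),
        ∑ κ₂ ∈ (cls Λ ρ₂).filter (fun κ => mon Λ κ ⊆ P), g κ₁ κ₂ := by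
  unfold hop
  refine NHopSum_gen Λ P ρ₁ ρ₂ (fun _ => False) id (fun _ h => h.elim) g
    (fun μ => okB Λ P μ ∧ HA Λ μ = ∅ ∧ HB Λ μ = ∅) _ _ (fun μ hμ => ?_) (fun κ => ?_)
    (fun κ => ?_)
  · have b1 := (mem_cls2.1 hμ).1
    constructor
    · rintro ⟨q1, q2, q3⟩
      refine ⟨fun _ h => h.elim, fun h _ => ⟨?_, fun hh => (q1 h hh).1⟩⟩
      by_cases hh : h.1 ∈ Λ
      · by_contra hc
        rcases NHopSum_chg b1 q1 hh hc with ⟨e, h1, -⟩ | ⟨e, h1, -⟩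
        · rw [q2] at h1
          exact notMem_empty _ h1
        · rw [q3] at h1
          exact notMem_empty _ h1
      · exact NHopSum_out hμ hh
    · rintro ⟨-, q⟩
      refine ⟨fun h hh => ⟨(q h id).2 hh, fun _ => (q h id).1⟩,
        eq_empty_of_forall_notMem fun e he => ?_, eq_empty_of_forall_notMem fun e he => ?_⟩
      · have := (q (e.1, false) id).1
        rw [(NHopSum_HA.1 he).2.2] at this
        simp at this
      · have := (q (e.1, true) id).1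
        rw [(NHopSum_HB.1 he).2.2] at this
        simp at this
  · simp only [iff_false, Finset.mem_sdiff, not_and, not_not]
    rfl
  · simp only [iff_false, Finset.mem_sdiff, not_and, not_not]
    rfl

/-- Class sum with one layer change of each type. -/
theorem sum_hop1 (Λ P : Finset V) {ρ₁ ρ₂ : V → V} (h₁ : IsExt ρ₁) (h₂ : IsExt ρ₂)
    {e f : V × Dir} (he : IsEven e.1 ∧ e.1 ∈ Λ \ P ∧ oe e ∈ Λ \ P)
    (hf : IsEven f.1 ∧ f.1 ∈ Λ \ P ∧ oe f ∈ Λ \ P) (g : (V → V) → (V → V) → ℝ) :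
    ∑ μ ∈ cls2 Λ (emb ρ₁ ρ₂), hop Λ P {e} {f} μ * g (prj μ false) (prj μ true) =
      ∑ κ₁ ∈ (cls Λ ρ₁).filter (fun κ => mon Λ κ \ P = {e.1, oe f}),
        ∑ κ₂ ∈ (cls Λ ρ₂).filter (fun κ => mon Λ κ \ P = {f.1, oe e}), g κ₁ κ₂ := by
  obtain ⟨he1, he2, he3⟩ := he
  obtain ⟨hf1, hf2, hf3⟩ := hf
  have oe1 : ¬ IsEven (oe e) := fun h => isEven_add_dv.1 h he1
  have of1 : ¬ IsEven (oe f) := fun h => isEven_add_dv.1 h hf1
  have n1 : oe f ≠ e.1 := fun h => of1 (h ▸ he1)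
  have n2 : f.1 ≠ oe e := fun h => oe1 (h ▸ hf1)
  let τ : HE → HE := fun h => if h = (e.1, false) then (oe e, true) else
    if h = (oe e, true) then (e.1, false) else if h = (f.1, true) then (oe f, false) else (f.1, true)
  have t1 : τ (e.1, false) = (oe e, true) := by simp [τ]
  have t2 : τ (oe e, true) = (e.1, false) := by simp [τ]
  have t3 : τ (f.1, true) = (oe f, false) := by simp [τ, n2]
  have t4 : τ (oe f, false) = (f.1, true) := by simp [τ, n1]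
  have ne : Nbr e.1 (oe e) := nbr_iff.2 ⟨e.2, rfl⟩
  have nf : Nbr f.1 (oe f) := nbr_iff.2 ⟨f.2, rfl⟩
  rw [Finset.mem_sdiff] at he2 he3 hf2 hf3
  have hS : ∀ h : HE, (h = (e.1, false) ∨ h = (oe e, true) ∨ h = (f.1, true) ∨
      h = (oe f, false)) → (τ h = (e.1, false) ∨ τ h = (oe e, true) ∨ τ h = (f.1, true) ∨
      τ h = (oe f, false)) ∧ τ (τ h) = h ∧ (τ h).2 ≠ h.2 ∧ Nbr h.1 (τ h).1 ∧ h.1 ∈ Λ ∧
      h.1 ∉ P := by
    rintro h (rfl | rfl | rfl | rfl)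
    · rw [t1, t2]
      exact ⟨Or.inr (Or.inl rfl), rfl, by simp, ne, he2⟩
    · rw [t2, t1]
      exact ⟨Or.inl rfl, rfl, by simp, nbr_symm ne, he3⟩
    · rw [t3, t4]
      exact ⟨Or.inr (Or.inr (Or.inr rfl)), rfl, by simp, nf, hf2⟩
    · rw [t4, t3]
      exact ⟨Or.inr (Or.inr (Or.inl rfl)), rfl, by simp, nbr_symm nf, hf3⟩
  unfold hop
  refine NHopSum_gen Λ P ρ₁ ρ₂ (fun h => h = (e.1, false) ∨ h = (oe e, true) ∨ h = (f.1, true) ∨
    h = (oe f, false)) τ hS g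
    (fun μ => okB Λ P μ ∧ HA Λ μ = {e} ∧ HB Λ μ = {f}) _ _ (fun μ hμ => ?_) (fun κ => ?_)
    (fun κ => ?_)
  · have b1 := (mem_cls2.1 hμ).1
    constructor
    · rintro ⟨q1, q2, q3⟩
      have m1 : μ (e.1, false) = (oe e, true) :=
        (NHopSum_HA.1 (q2 ▸ mem_singleton_self e)).2.2
      have m3 : μ (f.1, true) = (oe f, false) :=
        (NHopSum_HB.1 (q3 ▸ mem_singleton_self f)).2.2
      refine ⟨?_, fun h hn => ⟨?_, fun hh => (q1 h hh).1⟩⟩
      · rintro h (rfl | rfl | rfl | rfl)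
        · rw [t1, m1]
        · rw [t2, ← m1, (b1 _).2]
        · rw [t3, m3]
        · rw [t4, ← m3, (b1 _).2]
      · by_cases hh : h.1 ∈ Λ
        · by_contra hc
          rcases NHopSum_chg b1 q1 hh hc with ⟨e', h1, h2⟩ | ⟨e', h1, h2⟩
          · rw [q2, mem_singleton] at h1
            rw [h1] at h2
            rcases h2 with h2 | h2
            · exact hn (Or.inl h2)
            · exact hn (Or.inr (Or.inl h2))
          · rw [q3, mem_singleton] at h1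
            rw [h1] at h2
            rcases h2 with h2 | h2
            · exact hn (Or.inr (Or.inr (Or.inl h2)))
            · exact hn (Or.inr (Or.inr (Or.inr h2)))
        · exact NHopSum_out hμ hh
    · rintro ⟨q1, q2⟩
      have m1 : μ (e.1, false) = (oe e, true) := (q1 _ (Or.inl rfl)).trans t1
      have m3 : μ (f.1, true) = (oe f, false) := (q1 _ (Or.inr (Or.inr (Or.inl rfl)))).trans t3
      refine ⟨fun h hh => ?_, ?_, ?_⟩
      · by_cases hs : h = (e.1, false) ∨ h = (oe e, true) ∨ h = (f.1, true) ∨ h = (oe f, false)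
        · obtain ⟨s1, -, s3, -, -, -⟩ := hS h hs
          rw [q1 h hs]
          exact ⟨fun h' => absurd (by rw [h']) s3, fun h' => absurd (hS _ s1).2.2.2.2.1 h'⟩
        · exact ⟨(q2 h hs).2 hh, fun _ => (q2 h hs).1⟩
      · ext e'
        rw [mem_singleton, NHopSum_HA]
        constructor
        · rintro ⟨-, s2, s3⟩
          by_contra hne
          have h1 := (q2 (e'.1, false) ?_).1
          · rw [s3] at h1
            simp at h1
          · rintro (h1 | h1 | h1 | h1)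
            · have h2 : e'.1 = e.1 := (Prod.mk.inj h1).1
              rw [h1, m1] at s3
              exact hne (NHopSum_oe h2 (congrArg Prod.fst s3).symm)
            · simp at h1
            · simp at h1
            · have h2 : e'.1 = oe f := congrArg Prod.fst h1
              exact of1 (h2 ▸ s2)
        · rintro rfl
          exact ⟨he2.1, he1, m1⟩
      · ext e'
        rw [mem_singleton, NHopSum_HB]
        constructor
        · rintro ⟨-, s2, s3⟩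
          by_contra hne
          have h1 := (q2 (e'.1, true) ?_).1
          · rw [s3] at h1
            simp at h1
          · rintro (h1 | h1 | h1 | h1)
            · simp at h1
            · have h2 : e'.1 = oe e := congrArg Prod.fst h1
              exact oe1 (h2 ▸ s2)
            · have h2 : e'.1 = f.1 := (Prod.mk.inj h1).1
              rw [h1, m3] at s3
              exact hne (NHopSum_oe h2 (congrArg Prod.fst s3).symm)
            · simp at h1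
        · rintro rfl
          exact ⟨hf2.1, hf1, m3⟩
  · rw [Finset.ext_iff]
    refine forall_congr' fun v => iff_congr Iff.rfl ?_
    simp
  · rw [Finset.ext_iff]
    refine forall_congr' fun v => iff_congr Iff.rfl ?_
    simp [or_comm]

end Pool.Agent.Work.MP_5cb0a4_pr.Z
end

-- merged part: Pool.Agent.Work.MP_5cb0a4_pr.Z.Iso
section
open MeasureTheory Finset MvPolynomial Filter Topology

namespace Pool.Agent.Work.MP_5cb0a4_pr.Z

lemma Iso_fl (σ : V → V) (x y : V) : |fl σ x y| ≤ 1 := (abs_fl_le σ x y).trans (by norm_num)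

lemma Iso_abs (A : Finset V) {f : V → ℝ} (h : ∀ x, |f x| ≤ 1) : |∑ x ∈ A, f x| ≤ A.card :=
  (abs_sum_le_sum_abs _ _).trans ((sum_le_card_nsmul _ _ 1 fun x _ => h x).trans (by simp))

/-- The boundary pairs. -/
noncomputable def Iso_bd (S : Finset V) (t : ℕ) : Finset (V × Dir) :=
  (lev t ×ˢ (univ : Finset Dir)).filter fun q =>
    q.1 ∈ S ∧ q.1 + dv q.2 ∈ lev t ∧ q.1 + dv q.2 ∉ S

lemma Iso_mem {S : Finset V} {t : ℕ} {x : V} {d : Dir} (hx : x ∈ lev t) (hd : x + dv d ∈ lev t)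
    (hS : x ∈ S) (h : (x, d) ∉ Iso_bd S t) : x + dv d ∈ S := by
  by_contra h'
  exact h (mem_filter.2 ⟨mem_product.2 ⟨hx, mem_univ _⟩, hS, hd, h'⟩)

lemma Iso_lev {t : ℕ} (ht : 1 ≤ t) {x : V} :
    x ∈ lev t ↔ (∀ i, -(t : ℤ) ≤ x i ∧ x i ≤ t) ∧ ∃ j, x j = t ∨ x j = -(t : ℤ) := by
  rw [mem_lev, mem_box, mem_box, not_forall]
  refine and_congr_right fun h => exists_congr fun j => ?_
  have := h j
  omega

lemma Iso_face_lev {t : ℕ} (ht : 1 ≤ t) {d : Dir} {x : V}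
    (h : x ∈ sq d.1 (corner d t 0 (0, 0)) (2 * t + 1)) : x ∈ lev t := by
  obtain ⟨h1, h2⟩ := mem_face.1 h
  refine mem_lev.2 ⟨h1, fun h3 => h2 ?_⟩
  have := add_dv_mem_box h3 d
  rwa [Nat.sub_add_cancel ht] at this

/-- A rectangle without boundary edges has one colour. -/
lemma Iso_rect {P : V → Prop} {S : Finset V}
    (clo : ∀ x d, P x → P (x + dv d) → x ∈ S → x + dv d ∈ S) {x y : V} (hxy : x ≤ y)
    (hP : ∀ z, x ≤ z → z ≤ y → P z) : x ∈ S ↔ y ∈ S := by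
  induction h : ∑ j, (y j - x j).toNat generalizing y with
  | zero =>
    have : x = y := funext fun j => by
      have h1 := (sum_eq_zero_iff.1 h) j (mem_univ _)
      have h2 : x j ≤ y j := hxy j
      omega
    rw [this]
  | succ n ih =>
    obtain ⟨j, -, hj⟩ := exists_ne_zero_of_sum_ne_zero (h.trans_ne n.succ_ne_zero)
    have h1 : ∀ i, (y + dv (j, false)) i = if i = j then y i - 1 else y i := fun i => by
      simp only [Pi.add_apply, dv, Pi.single_apply]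
      split_ifs <;> simp_all [sub_eq_add_neg]
    have h2 : x ≤ y + dv (j, false) := fun i => by
      have : x i ≤ y i := hxy i
      rw [h1]
      split_ifs with hi
      · subst hi
        have h3 : (y i - x i).toNat ≠ 0 := hj
        exact Int.le_sub_one_of_lt (by omega)
      · exact this
    have h3 : y + dv (j, false) ≤ y := fun i => by
      rw [h1]
      split_ifs
      exacts [sub_le_self _ zero_le_one, le_rfl]
    have h4 : y + dv (j, false) + dv (j, true) = y := by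
      rw [show dv (j, true) = -dv (j, false) from dv_not (j, false), add_neg_cancel_right]
    rw [ih h2 (fun z hz hz' => hP z hz (hz'.trans h3)) ?_]
    · refine ⟨fun h5 => ?_, clo y _ (hP y hxy le_rfl) (hP _ h2 h3)⟩
      rw [← h4]
      exact clo _ _ (hP _ h2 h3) (h4.symm ▸ hP y hxy le_rfl) h5
    · rw [← add_sum_erase _ _ (mem_univ j)] at h ⊢
      rw [sum_congr rfl fun i hi => by rw [h1, if_neg (ne_of_mem_erase hi)], h1, if_pos rfl]
      omega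

lemma Iso_third (j k : Fin 3) : ∃ i, i ≠ j ∧ i ≠ k := by
  revert j k
  decide

/-- An unspoiled ring has one colour. -/
lemma Iso_ring {S : Finset V} {t : ℕ} (ht : 1 ≤ t) {k : Fin 3} {w : ℤ}
    (hw : ∀ q ∈ Iso_bd S t, q.1 k ≠ w) {x : V} (hx : x ∈ lev t) (hk : x k = w) :
    x ∈ S ↔ Function.update (fun _ => (t : ℤ)) k w ∈ S := by
  have clo : ∀ x d, x ∈ lev t ∧ x k = w → x + dv d ∈ lev t ∧ (x + dv d) k = w → x ∈ S →
      x + dv d ∈ S := fun x d h1 h2 h3 => Iso_mem h1.1 h2.1 h3 fun h => hw _ h h1.2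
  have key : ∀ y : V, (∀ i, -(t : ℤ) ≤ y i ∧ y i ≤ t) → y k = w → ∀ j, y j = t →
      (y ∈ S ↔ Function.update (fun _ => (t : ℤ)) k w ∈ S) := by
    intro y hy hyk j hj
    have h1 : ∀ i, Function.update (fun _ => (t : ℤ)) k w i ≤ t := fun i => by
      rw [Function.update_apply]
      split_ifs
      exacts [hyk ▸ (hy k).2, le_rfl]
    refine Iso_rect clo (fun i => ?_) fun z h2 h3 =>
      ⟨(Iso_lev ht).2 ⟨fun i => ⟨(hy i).1.trans (h2 i), (h3 i).trans (h1 i)⟩,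
        j, Or.inl (le_antisymm ((h3 j).trans (h1 j)) (hj ▸ h2 j))⟩,
        le_antisymm (by simpa using h3 k) (hyk ▸ h2 k)⟩
    rw [Function.update_apply]
    split_ifs with hi
    exacts [hi ▸ hyk.le, (hy i).2]
  obtain ⟨h1, j, h2 | h2⟩ := (Iso_lev ht).1 hx
  · exact key x h1 hk j h2
  · obtain ⟨i, hij, hik⟩ := Iso_third j k
    have h3 : ∀ l, x l ≤ Function.update x i t l ∧ Function.update x i t l ≤ t := fun l => by
      rw [Function.update_apply]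
      split_ifs
      exacts [⟨(h1 l).2, le_rfl⟩, ⟨le_rfl, (h1 l).2⟩]
    have h4 : ∀ z l, x ≤ z → z ≤ Function.update x i t → l ≠ i → z l = x l := fun z l h h' hl =>
      le_antisymm (by simpa [hl] using h' l) (h l)
    refine (Iso_rect clo (fun l => (h3 l).1) fun z h5 h6 =>
      ⟨(Iso_lev ht).2 ⟨fun l => ⟨(h1 l).1.trans (h5 l), (h6 l).trans (h3 l).2⟩,
        j, Or.inr ((h4 z j h5 h6 hij.symm).trans h2)⟩, (h4 z k h5 h6 hik.symm).trans hk⟩).trans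
      (key _ (fun l => ⟨(h1 l).1.trans (h3 l).1, (h3 l).2⟩) ?_ i (by simp))
    rw [Function.update_of_ne hik.symm, hk]

/-- Rings in different directions meet. -/
lemma Iso_meet {t : ℕ} (ht : 1 ≤ t) {k k' : Fin 3} (h : k ≠ k') {w w' : ℤ}
    (hw : -(t : ℤ) ≤ w ∧ w ≤ t) (hw' : -(t : ℤ) ≤ w' ∧ w' ≤ t) :
    ∃ p ∈ lev t, p k = w ∧ p k' = w' := by
  obtain ⟨i, h1, h2⟩ := Iso_third k k'
  refine ⟨fun j => if j = k then w else if j = k' then w' else t,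
    (Iso_lev ht).2 ⟨fun j => ?_, i, Or.inl (by simp [h1, h2])⟩, by simp, by simp [h.symm]⟩
  split_ifs
  exacts [hw, hw', by omega]

lemma Iso_same {S : Finset V} {t : ℕ} (ht : 1 ≤ t) {k k' : Fin 3} (h : k ≠ k') {x y : V}
    (hx : x ∈ lev t) (hy : y ∈ lev t) (hk : ∀ q ∈ Iso_bd S t, q.1 k ≠ x k)
    (hk' : ∀ q ∈ Iso_bd S t, q.1 k' ≠ y k') : x ∈ S ↔ y ∈ S := by
  obtain ⟨p, hp, h1, h2⟩ := Iso_meet ht h (((Iso_lev ht).1 hx).1 k) (((Iso_lev ht).1 hy).1 k')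
  rw [Iso_ring ht hk hx rfl, ← Iso_ring ht hk hp h1, Iso_ring ht hk' hp h2,
    Iso_ring ht hk' hy rfl]

lemma Iso_card {A : Finset V} (i : Fin 3) (c : ℤ) (T : Fin 3 → Finset ℤ) {b : ℕ}
    (hT : ∀ j, (T j).card ≤ b) (hA : ∀ x ∈ A, x i = c ∧ ∀ j, x j ∈ T j) : A.card ≤ b ^ 2 := by
  have h1 : A ⊆ Fintype.piFinset fun j => if j = i then {c} else T j := fun x hx =>
    Fintype.mem_piFinset.2 fun j => by
      split_ifs with hj
      exacts [mem_singleton.2 (hj ▸ (hA x hx).1), (hA x hx).2 j]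
  refine (card_le_card h1).trans ?_
  rw [Fintype.card_piFinset, ← mul_prod_erase _ _ (mem_univ i), if_pos rfl, card_singleton, one_mul]
  refine (prod_le_pow_card _ _ b fun j hj => ?_).trans (by simp)
  rw [if_neg (ne_of_mem_erase hj)]
  exact hT j

lemma Iso_key (S : Finset V) {t : ℕ} (ht : 1 ≤ t) :
    (∀ d : Dir, (sq d.1 (corner d t 0 (0, 0)) (2 * t + 1) ∩ S).card ≤ beta S t ^ 2) ∨
      ∀ d : Dir, (sq d.1 (corner d t 0 (0, 0)) (2 * t + 1) \ S).card ≤ beta S t ^ 2 := by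
  rcases le_or_gt (2 * t + 1) (beta S t) with hb | hb
  · exact Or.inl fun d => (card_le_card inter_subset_left).trans
      ((card_sq _ _ _).trans_le (Nat.pow_le_pow_left hb 2))
  have hT : ∀ k, ((Iso_bd S t).image fun q => q.1 k).card ≤ beta S t := fun k => card_image_le
  have h1 : ∀ k, ∃ w : ℤ, (-(t : ℤ) ≤ w ∧ w ≤ t) ∧ ∀ q ∈ Iso_bd S t, q.1 k ≠ w := by
    intro k
    obtain ⟨w, h2, h3⟩ := exists_mem_notMem_of_card_lt_card (t := Finset.Icc (-(t : ℤ)) t)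
      ((hT k).trans_lt (hb.trans_le (by rw [Int.card_Icc]; omega)))
    exact ⟨w, mem_Icc.1 h2, fun q hq h => h3 (mem_image.2 ⟨q, hq, h⟩)⟩
  choose w hw hw' using h1
  obtain ⟨p, hp, h2, h3⟩ := Iso_meet ht (show (0 : Fin 3) ≠ 1 by decide) (hw 0) (hw 1)
  have h4 : ∀ (d : Dir) (A : Finset V), (∀ x ∈ A, x ∈ sq d.1 (corner d t 0 (0, 0)) (2 * t + 1) ∧
      ¬ (x ∈ S ↔ p ∈ S)) → A.card ≤ beta S t ^ 2 := by
    intro d A hA
    refine Iso_card d.1 _ _ hT fun x hx => ⟨(mem_sq.1 (hA x hx).1).1, fun k => ?_⟩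
    by_contra h5
    have h6 : ∀ q ∈ Iso_bd S t, q.1 k ≠ x k := fun q hq h => h5 (mem_image.2 ⟨q, hq, h⟩)
    have h7 := Iso_face_lev ht (hA x hx).1
    refine (hA x hx).2 ?_
    rcases eq_or_ne k 0 with rfl | hk
    · exact Iso_same ht (show (0 : Fin 3) ≠ 1 by decide) h7 hp h6 (h3 ▸ hw' 1)
    · exact Iso_same ht hk h7 hp h6 (h2 ▸ hw' 0)
  by_cases h5 : p ∈ S
  · exact Or.inr fun d => h4 d _ fun x hx =>
      ⟨(mem_sdiff.1 hx).1, fun h => (mem_sdiff.1 hx).2 (h.2 h5)⟩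
  · exact Or.inl fun d => h4 d _ fun x hx =>
      ⟨(mem_inter.1 hx).1, fun h => h5 (h.1 (mem_inter.1 hx).2)⟩

lemma Iso_uniq {l a a' z : ℤ} (hl : 0 < l) (h : l * a ≤ z ∧ z < l * a + l)
    (h' : l * a' ≤ z ∧ z < l * a' + l) : a = a' := by
  have h1 : a < a' + 1 := lt_of_mul_lt_mul_left (by linarith [h.1, h'.2]) hl.le
  have h2 : a' < a + 1 := lt_of_mul_lt_mul_left (by linarith [h.2, h'.1]) hl.le
  omega

lemma Iso_disj (d : Dir) (t : ℕ) {l : ℕ} (hl : 1 ≤ l) {p p' : ℕ × ℕ} {x : V}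
    (h : x ∈ sq d.1 (corner d t l p) l) (h' : x ∈ sq d.1 (corner d t l p') l) : p = p' := by
  have hl' : (0 : ℤ) < l := by exact_mod_cast hl
  have h0 : d.1 + 1 ≠ d.1 := by
    generalize d.1 = i
    revert i
    decide
  obtain ⟨i, h1, h2⟩ := Iso_third d.1 (d.1 + 1)
  have a1 := (mem_sq.1 h).2 _ h0
  have a2 := (mem_sq.1 h').2 _ h0
  have a3 := (mem_sq.1 h).2 _ h1
  have a4 := (mem_sq.1 h').2 _ h1
  simp only [corner, if_neg h0, if_neg h1, if_neg h2, if_true] at a1 a2 a3 a4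
  refine Prod.ext (Int.natCast_inj.1 ?_) (Int.natCast_inj.1 ?_)
  · exact Iso_uniq (z := x (d.1 + 1) + t) hl' ⟨by linarith [a1.1], by linarith [a1.2]⟩
      ⟨by linarith [a2.1], by linarith [a2.2]⟩
  · exact Iso_uniq (z := x i + t) hl' ⟨by linarith [a3.1], by linarith [a3.2]⟩
      ⟨by linarith [a4.1], by linarith [a4.2]⟩

lemma Iso_sq (σ : V → V) (S : Finset V) {t : ℕ} (d : Dir) (c : V) (l : ℕ)
    (hQ : ∀ x ∈ sq d.1 c l, x ∈ lev t) :
    |∑ x ∈ sq d.1 c l, if x ∈ S then fl σ x (x + dv d) else 0| ≤ |FQ σ d c l| +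
      (l : ℝ) ^ 2 * ((Iso_bd S t).filter fun q => q.1 ∈ sq d.1 c l).card := by
  rcases ((Iso_bd S t).filter fun q => q.1 ∈ sq d.1 c l).eq_empty_or_nonempty with h | h
  · have h1 : ∀ x ∈ sq d.1 c l, (c ∈ S ↔ x ∈ S) := by
      intro x hx
      obtain ⟨h2, h3⟩ := mem_sq.1 hx
      refine Iso_rect (P := fun z => z ∈ sq d.1 c l) (fun z e h4 h5 h6 => Iso_mem (hQ _ h4) (hQ _ h5) h6
        fun h7 => filter_eq_empty_iff.1 h h7 h4) (fun j => ?_) fun z h4 h5 => mem_sq.2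
          ⟨le_antisymm (h2 ▸ h5 d.1) (h4 _), fun j hj => ⟨h4 j, (h5 j).trans_lt (h3 j hj).2⟩⟩
      rcases eq_or_ne j d.1 with rfl | hj
      exacts [h2.ge, (h3 j hj).1]
    rw [h, card_empty, Nat.cast_zero, mul_zero, add_zero]
    by_cases hc : c ∈ S
    · rw [sum_congr rfl fun x hx => if_pos ((h1 x hx).1 hc)]
      exact le_rfl
    · rw [sum_eq_zero fun x hx => if_neg fun h2 => hc ((h1 x hx).2 h2), abs_zero]
      exact abs_nonneg _
  · have h1 : (1 : ℝ) ≤ ((Iso_bd S t).filter fun q => q.1 ∈ sq d.1 c l).card := by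
      exact_mod_cast card_pos.2 h
    rw [sum_ite_mem]
    refine (Iso_abs _ fun x => Iso_fl σ x _).trans ?_
    have h2 : ((sq d.1 c l ∩ S).card : ℝ) ≤ (l : ℝ) ^ 2 := by
      exact_mod_cast (card_le_card inter_subset_left).trans (card_sq _ _ _).le
    nlinarith [abs_nonneg (FQ σ d c l), sq_nonneg (l : ℝ)]

lemma Iso_face (σ : V → V) (S : Finset V) {t l : ℕ} (ht : 1 ≤ t) (hl : 1 ≤ l) (d : Dir) :
    |∑ x ∈ sq d.1 (corner d t 0 (0, 0)) (2 * t + 1) ∩ S, fl σ x (x + dv d)| ≤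
      (l : ℝ) ^ 2 * beta S t + ∑ p ∈ sqs t l, |FQ σ d (corner d t l p) l| +
        2 * l * (2 * t + 1) := by
  have h1 : (sqs t l : Set (ℕ × ℕ)).PairwiseDisjoint fun p => sq d.1 (corner d t l p) l :=
    fun p _ p' _ h => disjoint_left.2 fun x hx hx' => h (Iso_disj d t hl hx hx')
  have h2 : ((sqs t l).biUnion fun p => sq d.1 (corner d t l p) l) ⊆
      sq d.1 (corner d t 0 (0, 0)) (2 * t + 1) := biUnion_subset.2 fun p hp => sq_corner_subset hp
  have h3 := card_sdiff_add_card_eq_card h2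
  rw [card_biUnion h1, card_sq, sum_congr rfl fun p _ => card_sq _ _ _, sum_const, sqs,
    card_product, card_range, smul_eq_mul] at h3
  have h4 : (sq d.1 (corner d t 0 (0, 0)) (2 * t + 1) \
      (sqs t l).biUnion fun p => sq d.1 (corner d t l p) l).card ≤ 2 * l * (2 * t + 1) := by
    have h5 := Nat.div_add_mod (2 * t + 1) l
    have h6 := Nat.mod_lt (2 * t + 1) hl
    rw [sqs]
    generalize (2 * t + 1) / l = N at *
    generalize (2 * t + 1) % l = r at *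
    rw [← h5] at h3 ⊢
    nlinarith [Nat.zero_le (l * N), Nat.mul_le_mul_right (l * N) h6.le,
      Nat.mul_le_mul_right r h6.le]
  have h5 : ∑ p ∈ sqs t l, ((Iso_bd S t).filter fun q => q.1 ∈ sq d.1 (corner d t l p) l).card ≤
      beta S t := by
    rw [← card_biUnion (t := fun p => (Iso_bd S t).filter fun q => q.1 ∈ sq d.1 (corner d t l p) l)
      fun p _ p' _ h => disjoint_left.2 fun q hq hq' =>
      h (Iso_disj d t hl (mem_filter.1 hq).2 (mem_filter.1 hq').2)]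
    exact card_le_card (biUnion_subset.2 fun p _ => filter_subset _ _)
  rw [← sum_ite_mem, ← sum_sdiff h2, sum_biUnion h1, add_comm]
  refine (abs_add_le _ _).trans (add_le_add ((abs_sum_le_sum_abs _ _).trans
    ((sum_le_sum fun p hp => Iso_sq σ S d _ l fun x hx =>
      Iso_face_lev ht (sq_corner_subset hp hx)).trans ?_))
    ((Iso_abs _ fun x => ?_).trans (by exact_mod_cast h4)))
  · rw [sum_add_distrib, ← mul_sum, add_comm]
    refine add_le_add_left (mul_le_mul_of_nonneg_left ?_ (sq_nonneg _)) _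
    exact_mod_cast h5
  · split_ifs
    exacts [Iso_fl σ x _, by simp]

/-- (I1) isoperimetry on the surface of the cube. -/
theorem out_le_sq (σ : V → V) (S : Finset V) {t : ℕ} (ht : 1 ≤ t) (h0 : Phi σ t = 0) :
    |Out σ S t| ≤ 72 * (beta S t : ℝ) ^ 2 := by
  have h1 : ∀ A : Dir → Finset V, (∀ d, (A d).card ≤ beta S t ^ 2) →
      |∑ d : Dir, ∑ x ∈ A d, fl σ x (x + dv d)| ≤ 72 * (beta S t : ℝ) ^ 2 := by
    intro A hA
    refine (abs_sum_le_sum_abs _ _).trans ((sum_le_card_nsmul _ _ ((beta S t : ℝ) ^ 2)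
      fun d _ => (Iso_abs _ fun x => Iso_fl σ x _).trans (by exact_mod_cast hA d)).trans ?_)
    simp only [card_univ, Fintype.card_prod, Fintype.card_fin, Fintype.card_bool, nsmul_eq_mul]
    push_cast
    nlinarith [sq_nonneg (beta S t : ℝ)]
  rw [Out_eq σ S ht]
  rcases Iso_key S ht with h | h
  · exact h1 _ h
  · have h2 : ∑ d : Dir, ∑ x ∈ sq d.1 (corner d t 0 (0, 0)) (2 * t + 1) ∩ S, fl σ x (x + dv d) +
        ∑ d : Dir, ∑ x ∈ sq d.1 (corner d t 0 (0, 0)) (2 * t + 1) \ S, fl σ x (x + dv d) = 0 := by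
      rw [← h0, ← sum_add_distrib]
      exact sum_congr rfl fun d _ => sum_inter_add_sum_sdiff _ _ _
    rw [eq_neg_of_add_eq_zero_left h2, abs_neg]
    exact h1 _ h

/-- (I2) squares that are cut by `S` contain a boundary edge. -/
theorem out_le_lin (σ : V → V) (S : Finset V) {t l : ℕ} (ht : 1 ≤ t) (hl : 1 ≤ l) :
    |Out σ S t| ≤ 6 * (l : ℝ) ^ 2 * beta S t +
      (∑ d : Dir, ∑ p ∈ sqs t l, |FQ σ d (corner d t l p) l|) + 12 * l * (2 * t + 1) := by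
  rw [Out_eq σ S ht]
  refine (abs_sum_le_sum_abs _ _).trans ((sum_le_sum fun d _ => Iso_face σ S ht hl d).trans ?_)
  simp only [sum_add_distrib, sum_const, card_univ, Fintype.card_prod, Fintype.card_fin,
    Fintype.card_bool, nsmul_eq_mul]
  push_cast
  linarith

/-- (I3) -/
theorem beta_le (S : Finset V) {t : ℕ} (ht : 1 ≤ t) : beta S t ≤ 36 * (2 * t + 1) ^ 2 := by
  obtain ⟨s, rfl⟩ := Nat.exists_eq_add_of_le' ht
  have h1 : (lev (s + 1)).card + (box s).card = (box (s + 1)).card :=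
    card_sdiff_add_card_eq_card (box_mono (Nat.le_succ s))
  rw [card_box, card_box] at h1
  refine (card_filter_le _ _).trans ?_
  simp only [card_product, card_univ, Fintype.card_prod, Fintype.card_fin, Fintype.card_bool]
  nlinarith

/-- The growth lemma for sequences. -/
theorem seq_lemma {C₂ C₃ D : ℝ} (hC₂ : 1 ≤ C₂) (hC₃ : 0 ≤ C₃) {w : ℕ} (hw : 1 ≤ w) (β : ℕ → ℕ)
    (o : ℕ → ℝ) (good : Finset ℕ) (h1 : ∀ u ∈ Finset.Icc 1 (2 * w), o u ≤ 72 * (β u : ℝ) ^ 2)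
    (h2 : ∀ u ∈ good, u ∈ Finset.Ioc w (2 * w) ∧ o u ≤ C₂ * β u + D)
    (h3 : ∀ u ∈ Finset.Icc 1 (2 * w), (β u : ℝ) ≤ C₃) (hD : 12 * D ≤ (w : ℝ) ^ 2 / 3888)
    (hg : 144 * C₂ ^ 2 * C₃ * 3888 / (w : ℝ) ^ 2 + 1 < good.card) :
    ∃ u ∈ Finset.Icc 1 (2 * w), 6 * o u ≤ ∑ j ∈ Finset.Ico 1 u, (β j : ℝ) := by
  by_contra hc
  push Not at hc
  have hw' : (0 : ℝ) < w := by exact_mod_cast hw
  have hA : ∀ u : ℕ, u ≤ 2 * w → (u : ℝ) ^ 2 / 3888 ≤ ∑ j ∈ Finset.Ico 1 (u + 1), (β j : ℝ) := by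
    intro u
    induction u with
    | zero => simp
    | succ u ih =>
      intro hu
      have h4 := ih (by omega)
      have hm : u + 1 ∈ Finset.Icc 1 (2 * w) := mem_Icc.2 ⟨by omega, hu⟩
      have h5 := hc _ hm
      have h6 := h1 _ hm
      have h7 : (u / 1296 : ℝ) < β (u + 1) :=
        lt_of_pow_lt_pow_left₀ 2 (Nat.cast_nonneg _) (by linarith)
      have h8 : (1 : ℝ) ≤ β (u + 1) := by
        exact_mod_cast Nat.cast_pos.1 (lt_of_le_of_lt (by positivity) h7)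
      rw [sum_Ico_succ_top (by omega)]
      push_cast
      rcases Nat.eq_zero_or_pos u with rfl | h9
      · simp only [Nat.cast_zero] at h4 ⊢
        linarith
      · have : (1 : ℝ) ≤ u := by exact_mod_cast h9
        linarith
  have hB : ∀ u ∈ good, (w : ℝ) ^ 2 / 3888 ≤ ∑ j ∈ Finset.Ico 1 u, (β j : ℝ) ∧
      ∑ j ∈ Finset.Ico 1 u, (β j : ℝ) < 12 * C₂ * β u := by
    intro u hu
    obtain ⟨h4, h5⟩ := h2 u hu
    rw [mem_Ioc] at h4
    have h6 : (w : ℝ) ^ 2 / 3888 ≤ ∑ j ∈ Finset.Ico 1 u, (β j : ℝ) :=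
      (hA w (by omega)).trans (sum_le_sum_of_subset_of_nonneg (Ico_subset_Ico_right h4.1)
        fun _ _ _ => Nat.cast_nonneg _)
    have h7 := hc u (mem_Icc.2 ⟨by omega, h4.2⟩)
    exact ⟨h6, by linarith⟩
  have h0 : 0 ≤ 144 * C₂ ^ 2 * C₃ * 3888 / (w : ℝ) ^ 2 := by positivity
  have hne : good.Nonempty := card_pos.1 (Nat.cast_pos.1 (by linarith : (0 : ℝ) < good.card))
  have hu := good.max'_mem hne
  have h4 := mem_Ioc.1 (h2 _ hu).1
  have h5 := h3 _ (mem_Icc.2 ⟨by omega, h4.2⟩)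
  have h6 : ∑ j ∈ good.erase (good.max' hne), (β j : ℝ) ≤
      ∑ j ∈ Finset.Ico 1 (good.max' hne), (β j : ℝ) := by
    refine sum_le_sum_of_subset_of_nonneg (fun j hj => ?_) fun _ _ _ => Nat.cast_nonneg _
    obtain ⟨h7, h8⟩ := mem_erase.1 hj
    have h9 := mem_Ioc.1 (h2 _ h8).1
    exact mem_Ico.2 ⟨by omega, lt_of_le_of_ne (good.le_max' j h8) h7⟩
  have h7 := card_nsmul_le_sum (good.erase (good.max' hne)) (fun j => 12 * C₂ * (β j : ℝ))
    ((w : ℝ) ^ 2 / 3888) fun j hj =>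
      ((hB j (mem_of_mem_erase hj)).1.trans_lt (hB j (mem_of_mem_erase hj)).2).le
  rw [← mul_sum, nsmul_eq_mul, card_erase_of_mem hu, Nat.cast_pred (card_pos.2 hne)] at h7
  rw [← lt_sub_iff_add_lt, div_lt_iff₀ (by positivity)] at hg
  have h8 := h6.trans ((hB _ hu).2.le.trans
    (mul_le_mul_of_nonneg_left h5 (show 0 ≤ 12 * C₂ by linarith)))
  have h9 := mul_le_mul_of_nonneg_left h8 (show 0 ≤ 12 * C₂ by linarith)
  linarith

end Pool.Agent.Work.MP_5cb0a4_pr.Z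
end

-- merged part: Pool.Agent.Work.MP_5cb0a4_pr.N.GD2
section
open MeasureTheory Finset Filter Topology
open scoped Classical

namespace Pool.Agent.Work.MP_5cb0a4_pr.Z

/-- The flip of the layers over `b`. -/
def NGD2_f (b : Finset V) (h : HE) : HE := (h.1, col b h)

/-- The flipped configuration. -/
def NGD2_fl (b : Finset V) (μ : HE → HE) : HE → HE := fun h => NGD2_f b (μ (NGD2_f b h))

lemma NGD2_ff (b : Finset V) (h : HE) : NGD2_f b (NGD2_f b h) = h := by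
  obtain ⟨v, i⟩ := h
  by_cases hv : v ∈ b <;> cases i <;> simp [NGD2_f, col, hv]

lemma NGD2_f_inj (b : Finset V) : Function.Injective (NGD2_f b) := fun x y h => by
  rw [← NGD2_ff b x, h, NGD2_ff]

lemma NGD2_f_out {b : Finset V} {h : HE} (hh : h.1 ∉ b) : NGD2_f b h = h := by
  obtain ⟨v, i⟩ := h
  have hv : v ∉ b := hh
  cases i <;> simp [NGD2_f, col, hv]

lemma NGD2_fl_f (b : Finset V) (μ : HE → HE) (h : HE) :
    NGD2_fl b μ (NGD2_f b h) = NGD2_f b (μ h) := by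
  simp only [NGD2_fl, NGD2_ff]

lemma NGD2_flfl (b : Finset V) (μ : HE → HE) : NGD2_fl b (NGD2_fl b μ) = μ := by
  funext h
  simp only [NGD2_fl, NGD2_ff]

lemma NGD2_mem {Λ b : Finset V} (hb : b ⊆ Λ) {μ : HE → HE} (hμ : μ ∈ cls2 Λ id) :
    NGD2_fl b μ ∈ cls2 Λ id := by
  obtain ⟨h1, h2⟩ := mem_cls2.1 hμ
  refine mem_cls2.2 ⟨fun h => ⟨?_, ?_⟩, fun h hh => ?_⟩
  · rcases (h1 (NGD2_f b h)).1 with h3 | h3
    · left
      simp only [NGD2_fl]
      rw [h3, NGD2_ff]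
    · right
      exact h3
  · simp only [NGD2_fl]
    rw [NGD2_ff, (h1 _).2, NGD2_ff]
  · have hb' : h.1 ∉ b := fun h' => hh (hb h')
    simp only [NGD2_fl]
    rw [NGD2_f_out hb', h2 h hh]
    exact NGD2_f_out hb'

lemma NGD2_un (b : Finset V) (μ : HE → HE) : un (NGD2_fl b μ) = un μ := by
  funext v
  by_cases hv : v ∈ b
  · have e1 : NGD2_f b (v, false) = (v, true) := by simp [NGD2_f, col, hv]
    have e2 : NGD2_f b (v, true) = (v, false) := by simp [NGD2_f, col, hv]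
    simp only [un, NGD2_fl, e1, e2]
    exact Sym2.eq_swap
  · have e1 : NGD2_f b (v, false) = (v, false) := NGD2_f_out hv
    have e2 : NGD2_f b (v, true) = (v, true) := NGD2_f_out hv
    simp only [un, NGD2_fl, e1, e2]
    rfl

lemma NGD2_sum {α : Type} [AddCommMonoid α] {Λ b : Finset V} (hb : b ⊆ Λ)
    (F : (HE → HE) → α) : ∑ μ ∈ cls2 Λ id, F (NGD2_fl b μ) = ∑ μ ∈ cls2 Λ id, F μ :=
  Finset.sum_nbij' (NGD2_fl b) (NGD2_fl b) (fun _ h => NGD2_mem hb h) (fun _ h => NGD2_mem hb h)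
    (fun μ _ => NGD2_flfl b μ) (fun μ _ => NGD2_flfl b μ) (fun _ _ => rfl)

lemma NGD2_prod (Λ b : Finset V) (F : HE → ℂ) :
    ∏ h ∈ Λ ×ˢ (univ : Finset Bool), F h = ∏ h ∈ Λ ×ˢ (univ : Finset Bool), F (NGD2_f b h) := by
  refine Finset.prod_nbij' (NGD2_f b) (NGD2_f b) ?_ ?_ (fun h _ => NGD2_ff b h)
    (fun h _ => NGD2_ff b h) (fun h _ => by rw [NGD2_ff])
  · intro h hh
    exact mem_product.2 ⟨(mem_product.1 hh).1, mem_univ _⟩
  · intro h hh
    exact mem_product.2 ⟨(mem_product.1 hh).1, mem_univ _⟩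

lemma NGD2_W (Λ b : Finset V) (E : V → V → Bool → Bool → ℂ) (u : V → Bool → ℂ) (μ : HE → HE) :
    WE Λ E (NGD2_fl b μ) * Wu Λ u (NGD2_fl b μ) = ∏ h ∈ Λ ×ˢ (univ : Finset Bool),
      (if μ h = h then u h.1 (col b h) else
        if IsEven h.1 then E h.1 (μ h).1 (col b h) (col b (μ h)) else 1) := by
  unfold WE Wu
  rw [← Finset.prod_mul_distrib, NGD2_prod Λ b]
  refine Finset.prod_congr rfl fun h _ => ?_
  rw [NGD2_fl_f]
  have hiff : NGD2_f b (μ h) = NGD2_f b h ↔ μ h = h := (NGD2_f_inj b).eq_iff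
  by_cases h1 : μ h = h
  · rw [if_neg (fun h2 => h2.2 (hiff.2 h1)), if_pos (hiff.2 h1), if_pos h1, one_mul]
    rfl
  · have h1' : ¬ NGD2_f b (μ h) = NGD2_f b h := fun h2 => h1 (hiff.1 h2)
    rw [if_neg h1', if_neg h1, mul_one]
    by_cases h2 : IsEven h.1
    · rw [if_pos h2, if_pos ⟨h2, h1'⟩]
      rfl
    · rw [if_neg h2, if_neg (fun h3 => h2 h3.1)]

lemma NGD2_in {Λ : Finset V} {μ : HE → HE} (hμ : μ ∈ cls2 Λ id) (h : HE) (hh : h.1 ∈ Λ) :
    (μ h).1 ∈ Λ := by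
  obtain ⟨h1, h2⟩ := mem_cls2.1 hμ
  by_contra hn
  have h3 : μ (μ h) = μ h := h2 _ hn
  rw [(h1 h).2] at h3
  exact hn (h3 ▸ hh)

lemma NGD2_net {Λ : Finset V} (E : V → V → Bool → Bool → ℂ) (hE : ∀ x y, Contr (E x y))
    (u : V → Bool → ℂ) (hu : ∀ v, ∑ i, ‖u v i‖ ^ 2 ≤ 2) {μ : HE → HE} (hμ : μ ∈ cls2 Λ id) :
    ‖∑ b ∈ Λ.powerset, WE Λ E (NGD2_fl b μ) * Wu Λ u (NGD2_fl b μ)‖ ≤
      ∑ b ∈ Λ.powerset, if ∀ x : HE, x.1 ∈ Λ → (NGD2_fl b μ x).2 = x.2 then (1 : ℝ) else 0 := by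
  have h1 := (mem_cls2.1 hμ).1
  have hpar : ∀ h : HE, μ h ≠ h → (IsEven (μ h).1 ↔ ¬ IsEven h.1) := fun h hh =>
    nbr_parity ((h1 h).1.resolve_left hh)
  have key := net (fun x : V => decide (IsEven x)) Λ μ (fun h => (h1 h).2) (NGD2_in hμ)
    (fun h => IsEven h.1) (fun h _ hh => by have := hpar h hh; tauto)
    (fun h => E h.1 (μ h).1) (fun h => hE _ _) (fun h => u h.1) (fun h => hu _)
  rw [Finset.sum_congr rfl fun b _ => NGD2_W Λ b E u μ]
  refine le_trans (le_of_eq ?_) (key.trans (le_of_eq ?_))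
  · refine congrArg _ (Finset.sum_congr rfl fun b _ => Finset.prod_congr rfl fun h _ => ?_)
    by_cases h2 : μ h = h
    · rw [if_pos h2, if_pos h2]
    · rw [if_neg h2, if_neg h2]
      by_cases h3 : IsEven h.1
      · rw [if_pos h3, if_pos h3]
      · rw [if_neg h3, if_neg h3]
  · rw [Finset.card_filter]
    push_cast
    refine Finset.sum_congr rfl fun b _ => ?_
    refine if_congr ⟨fun H x hx => ?_, fun H h hh hne => ?_⟩ rfl rfl
    · rw [← NGD2_ff b x, NGD2_fl_f]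
      by_cases h2 : μ (NGD2_f b x) = NGD2_f b x
      · rw [h2]
      · have h3 := H (NGD2_f b x) (mem_product.2 ⟨hx, mem_univ _⟩) h2
        have h4 := hpar _ h2
        have h5 : (decide (IsEven (NGD2_f b x).1) == decide (IsEven (μ (NGD2_f b x)).1)) =
            false := by
          by_cases h6 : IsEven (NGD2_f b x).1
          · have h7 : ¬ IsEven (μ (NGD2_f b x)).1 := fun h8 => h4.1 h8 h6
            simp [h6, h7]
          · simp [h6, h4.2 h6]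
        rw [h5] at h3
        change col b (μ (NGD2_f b x)) = col b (NGD2_f b x)
        revert h3
        cases col b (μ (NGD2_f b x)) <;> cases col b (NGD2_f b x) <;> simp
    · have h3 := H (NGD2_f b h) (mem_product.1 hh).1
      rw [NGD2_fl_f] at h3
      have h3' : col b (μ h) = col b h := h3
      have h4 := hpar _ hne
      rw [h3']
      by_cases h6 : IsEven h.1
      · have h7 : ¬ IsEven (μ h).1 := fun h8 => h4.1 h8 h6
        simp [h6, h7]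
      · simp [h6, h4.2 h6]

/-- Two replica domination: average over the flips of the layers and apply `net`. -/
theorem gd2 (Λ : Finset V) (E : V → V → Bool → Bool → ℂ) (hE : ∀ x y, Contr (E x y))
    (u : V → Bool → ℂ) (hu : ∀ v, ∑ i, ‖u v i‖ ^ 2 ≤ 2) (g : (V → Sym2 V) → ℂ)
    (H : (V → Sym2 V) → ℝ) (hg : ∀ U, ‖g U‖ ≤ H U) :
    ‖∑ μ ∈ cls2 Λ id, g (un μ) * (WE Λ E μ * Wu Λ u μ)‖ ≤
      ∑ ρ₁ ∈ cls Λ id, ∑ ρ₂ ∈ cls Λ id, H (un2 ρ₁ ρ₂) := by
  have hH : ∀ U, 0 ≤ H U := fun U => (norm_nonneg _).trans (hg U)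
  have hpos : (0 : ℝ) < (Λ.powerset.card : ℝ) := by
    exact_mod_cast card_pos.2 ⟨∅, empty_mem_powerset _⟩
  have e1 : (Λ.powerset.card : ℂ) * ∑ μ ∈ cls2 Λ id, g (un μ) * (WE Λ E μ * Wu Λ u μ) =
      ∑ μ ∈ cls2 Λ id, g (un μ) *
        ∑ b ∈ Λ.powerset, WE Λ E (NGD2_fl b μ) * Wu Λ u (NGD2_fl b μ) := by
    simp only [Finset.mul_sum Λ.powerset]
    rw [Finset.sum_comm, ← nsmul_eq_mul, ← Finset.sum_const]
    refine Finset.sum_congr rfl fun b hb => ?_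
    rw [← NGD2_sum (mem_powerset.1 hb) fun μ => g (un μ) * (WE Λ E μ * Wu Λ u μ)]
    simp only [NGD2_un]
  have e2 : ∑ μ ∈ cls2 Λ id, H (un μ) *
      ∑ b ∈ Λ.powerset, (if ∀ x : HE, x.1 ∈ Λ → (NGD2_fl b μ x).2 = x.2 then (1 : ℝ) else 0) =
      (Λ.powerset.card : ℝ) * ∑ ρ₁ ∈ cls Λ id, ∑ ρ₂ ∈ cls Λ id, H (un2 ρ₁ ρ₂) := by
    simp only [Finset.mul_sum Λ.powerset]
    rw [Finset.sum_comm, ← nsmul_eq_mul, ← Finset.sum_const]
    refine Finset.sum_congr rfl fun b hb => ?_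
    have e3 := NGD2_sum (mem_powerset.1 hb) fun μ => H (un μ) *
      (if ∀ x : HE, x.1 ∈ Λ → (μ x).2 = x.2 then (1 : ℝ) else 0)
    simp only [NGD2_un] at e3
    rw [e3]
    have e4 := sum_cls2_proper Λ id id fun μ => H (un μ)
    rw [emb_id] at e4
    simp only [un_emb] at e4
    rw [← e4, Finset.sum_filter]
    refine Finset.sum_congr rfl fun μ _ => ?_
    by_cases h : ∀ x : HE, x.1 ∈ Λ → (μ x).2 = x.2
    · rw [if_pos h, if_pos h, mul_one]
    · rw [if_neg h, if_neg h, mul_zero]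
  refine le_of_mul_le_mul_left ?_ hpos
  rw [← e2, ← Complex.norm_natCast, ← norm_mul, e1]
  refine (norm_sum_le _ _).trans (Finset.sum_le_sum fun μ hμ => ?_)
  rw [norm_mul]
  exact mul_le_mul (hg _) (NGD2_net E hE u hu hμ) (norm_nonneg _) (hH _)

/-- Domination for a mixture in one region with free monomers over `P`. -/
theorem gd_one {Λ P : Finset V} {w : (HE → HE) → ℂ} {β : ℝ} (hw : Mix2 Λ P w β)
    (H : (V → Sym2 V) → ℝ) (hH : ∀ U, 0 ≤ H U) :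
    ‖∑ μ ∈ cls2 Λ id, (H (un μ) : ℂ) * w μ‖ ≤
      β * ∑ ρ₁ ∈ (cls Λ id).filter (fun ρ => mon Λ ρ ⊆ P),
        ∑ ρ₂ ∈ (cls Λ id).filter (fun ρ => mon Λ ρ ⊆ P), H (un2 ρ₁ ρ₂) := by
  obtain ⟨n, a, g, E, -, hg, hE, ha, hrep⟩ := hw.repr
  let ok : (V → Sym2 V) → Prop := fun U => ∀ v ∈ Λ, v ∉ P → v ∉ U v
  have hS : ∑ ρ₁ ∈ cls Λ id, ∑ ρ₂ ∈ cls Λ id, (if ok (un2 ρ₁ ρ₂) then H (un2 ρ₁ ρ₂) else 0) =
      ∑ ρ₁ ∈ (cls Λ id).filter (fun ρ => mon Λ ρ ⊆ P),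
        ∑ ρ₂ ∈ (cls Λ id).filter (fun ρ => mon Λ ρ ⊆ P), H (un2 ρ₁ ρ₂) := by
    have hok : ∀ ρ₁ ρ₂ : V → V, ok (un2 ρ₁ ρ₂) ↔ mon Λ ρ₁ ⊆ P ∧ mon Λ ρ₂ ⊆ P := by
      intro ρ₁ ρ₂
      simp only [ok, un2, Sym2.mem_iff, not_or]
      constructor
      · intro h
        constructor
        · intro v hv
          by_contra hP
          exact (h v (mem_mon.1 hv).1 hP).1 (mem_mon.1 hv).2.symm
        · intro v hv
          by_contra hP
          exact (h v (mem_mon.1 hv).1 hP).2 (mem_mon.1 hv).2.symm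
      · intro h v hv hP
        exact ⟨fun h' => hP (h.1 (mem_mon.2 ⟨hv, h'.symm⟩)),
          fun h' => hP (h.2 (mem_mon.2 ⟨hv, h'.symm⟩))⟩
    rw [Finset.sum_filter]
    refine Finset.sum_congr rfl fun ρ₁ _ => ?_
    by_cases h1 : mon Λ ρ₁ ⊆ P
    · rw [if_pos h1, Finset.sum_filter]
      refine Finset.sum_congr rfl fun ρ₂ _ => ?_
      by_cases h2 : mon Λ ρ₂ ⊆ P
      · rw [if_pos h2, if_pos ((hok _ _).2 ⟨h1, h2⟩)]
      · rw [if_neg h2, if_neg fun h => h2 ((hok _ _).1 h).2]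
    · rw [if_neg h1]
      exact Finset.sum_eq_zero fun ρ₂ _ => if_neg fun h => h1 ((hok _ _).1 h).1
  have hS0 : 0 ≤ ∑ ρ₁ ∈ (cls Λ id).filter (fun ρ => mon Λ ρ ⊆ P),
      ∑ ρ₂ ∈ (cls Λ id).filter (fun ρ => mon Λ ρ ⊆ P), H (un2 ρ₁ ρ₂) :=
    Finset.sum_nonneg fun _ _ => Finset.sum_nonneg fun _ _ => hH _
  have e1 : ∑ μ ∈ cls2 Λ id, (H (un μ) : ℂ) * w μ = ∑ i, a i * ∑ μ ∈ cls2 Λ id,
      (if ok (un μ) then (H (un μ) : ℂ) * g i (un μ) else 0) *
        (WE Λ (E i) μ * Wu Λ (fun _ _ => 1) μ) := by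
    simp only [Finset.mul_sum (cls2 Λ id)]
    rw [Finset.sum_comm]
    refine Finset.sum_congr rfl fun μ hμ => ?_
    have h1 := (mem_cls2.1 hμ).1
    rw [hrep μ h1, Finset.mul_sum]
    refine Finset.sum_congr rfl fun i _ => ?_
    have hok : okB Λ P μ ↔ ok (un μ) := by
      simp only [ok, un, Sym2.mem_iff, not_or]
      constructor
      · intro h v hv hP
        exact ⟨fun h' => hP ((h (v, false) hv).1 ((h1.fix_iff _).2 h'.symm)),
          fun h' => hP ((h (v, true) hv).1 ((h1.fix_iff _).2 h'.symm))⟩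
      · rintro h ⟨v, j⟩ hv
        refine ⟨fun h' => ?_, fun h' => absurd (NGD2_in hμ _ hv) h'⟩
        by_contra hP
        have h2 := (h1.fix_iff _).1 h'
        cases j
        · exact (h v hv hP).1 h2.symm
        · exact (h v hv hP).2 h2.symm
    have hWu : Wu Λ (fun _ _ => 1) μ = 1 := by
      unfold Wu
      exact Finset.prod_eq_one fun h _ => ite_self _
    have hWI : WI Λ (E i) μ = WE Λ (E i) μ := by
      unfold WI WE
      refine Finset.prod_congr rfl fun h hh => ?_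
      have h2 := NGD2_in hμ h (mem_product.1 hh).1
      exact if_congr ⟨fun h3 => ⟨h3.1, h3.2.1⟩, fun h3 => ⟨h3.1, h3.2, h2⟩⟩ rfl rfl
    unfold wt2
    rw [hWu, hWI]
    by_cases h2 : ok (un μ)
    · rw [if_pos h2, if_pos (hok.2 h2)]
      ring
    · rw [if_neg h2, if_neg fun h3 => h2 (hok.1 h3)]
      ring
  rw [e1]
  refine (norm_sum_le _ _).trans (le_trans (Finset.sum_le_sum fun i _ => ?_)
    (le_trans (le_of_eq (Finset.sum_mul _ _ _).symm) (mul_le_mul_of_nonneg_right ha hS0)))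
  rw [norm_mul, ← hS]
  refine mul_le_mul_of_nonneg_left ?_ (norm_nonneg _)
  refine gd2 Λ (E i) (hE i) (fun _ _ => 1) (fun _ => by simp)
    (fun U => if ok U then (H U : ℂ) * g i U else 0) (fun U => if ok U then H U else 0) ?_
  intro U
  by_cases h2 : ok U
  · simp only [if_pos h2]
    rw [norm_mul, Complex.norm_real, Real.norm_of_nonneg (hH U)]
    exact mul_le_of_le_one_right (hH U) (hg i U)
  · simp only [if_neg h2]
    simp

end Pool.Agent.Work.MP_5cb0a4_pr.Z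
end

-- merged part: Pool.Agent.Work.MP_5cb0a4_pr.N.GDmix
section
open MeasureTheory Finset Filter Topology
open scoped Classical

namespace Pool.Agent.Work.MP_5cb0a4_pr.Z

/-- Keep only the pairs inside `B`. -/
noncomputable def NGDmix_res (B : Finset V) (μ : HE → HE) : HE → HE := fun h =>
  if h.1 ∈ B ∧ (μ h).1 ∈ B then μ h else h

/-- Put the cut pairs and the outside back. -/
noncomputable def NGDmix_glue (B : Finset V) (μ₀ μ : HE → HE) : HE → HE := fun h =>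
  if h.1 ∈ B ∧ (μ₀ h).1 ∈ B then μ h else μ₀ h

/-- The edge matrices of all boxes together. -/
noncomputable def NGDmix_E (S : Finset V) (Λ : V → Finset V) (E : V → V → V → Bool → Bool → ℂ)
    (x y : V) : Bool → Bool → ℂ :=
  if h : ∃ i ∈ S, x ∈ Λ i ∧ y ∈ Λ i then E h.choose x y else idM

/-- The union is compatible with the cut half edges. -/
def NGDmix_ok (B : Finset V) (μ₀ : HE → HE) (U : V → Sym2 V) : Prop :=
  ∀ v ∈ B, (∀ i, (μ₀ (v, i)).1 ∉ B → v ∈ U v) ∧ ((∀ i, (μ₀ (v, i)).1 ∉ B) → U v = s(v, v))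

lemma NGDmix_step {L : ℕ} (hL : 1 ≤ L) {x y : V} (hx : x ∈ box (L - 1)) (h : y = x ∨ Nbr x y) :
    y ∈ box L := by
  rcases h with h | h
  · rw [h]
    exact box_mono (Nat.sub_le L 1) hx
  · obtain ⟨d, hd⟩ := nbr_iff.1 h
    have := add_dv_mem_box hx d
    rwa [Nat.sub_add_cancel hL, ← hd] at this

lemma NGDmix_step2 {L : ℕ} (hL : 1 ≤ L) {μ : HE → HE} (hμ : BExt μ) {h : HE}
    (hx : h.1 ∈ box (L - 1)) : (μ h).1 ∈ box L :=
  NGDmix_step hL hx ((hμ h).1.imp_left fun e => by rw [e])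

lemma NGDmix_res_in {L : ℕ} (hL : 1 ≤ L) {μ : HE → HE} (hμ : BExt μ) {h : HE}
    (hx : h.1 ∈ box (L - 1)) : NGDmix_res (box L) μ h = μ h :=
  if_pos ⟨box_mono (Nat.sub_le L 1) hx, NGDmix_step2 hL hμ hx⟩

lemma NGDmix_un_in {L : ℕ} (hL : 1 ≤ L) {μ : HE → HE} (hμ : BExt μ) {v : V}
    (hx : v ∈ box (L - 1)) : un (NGDmix_res (box L) μ) v = un μ v := by
  simp only [un]
  rw [NGDmix_res_in hL hμ (h := (v, false)) hx, NGDmix_res_in hL hμ (h := (v, true)) hx]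

lemma NGDmix_res_mem (B : Finset V) {μ : HE → HE} (hμ : BExt μ) :
    NGDmix_res B μ ∈ cls2 B id := by
  refine mem_cls2.2 ⟨fun x => ?_, fun h hh => if_neg fun a => hh a.1⟩
  by_cases h : x.1 ∈ B ∧ (μ x).1 ∈ B
  · have e : NGDmix_res B μ x = μ x := if_pos h
    rw [e, NGDmix_res, if_pos ⟨h.2, by rw [(hμ x).2]; exact h.1⟩]
    exact hμ x
  · have e : NGDmix_res B μ x = x := if_neg h
    rw [e, e]
    exact ⟨Or.inl rfl, rfl⟩

lemma NGDmix_out {B : Finset V} {μ μ' : HE → HE} (h : BExt μ) (h' : BExt μ')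
    (e : ∀ x : HE, x.1 ∉ B → μ' x = μ x) {x : HE} (hx : (μ x).1 ∉ B) : μ' x = μ x := by
  have h1 := e _ hx
  rw [(h x).2] at h1
  rw [← (h' (μ x)).2, h1]

lemma NGDmix_free {B : Finset V} {μ₀ μ : HE → HE} (h₀ : BExt μ₀) (h : μ ∈ cls2 B μ₀) (x : HE) :
    (μ x).1 ∈ B ↔ (μ₀ x).1 ∈ B := by
  obtain ⟨h1, h2⟩ := mem_cls2.1 h
  refine not_iff_not.1 ⟨fun a => ?_, fun a => ?_⟩
  · rwa [NGDmix_out h1 h₀ (fun y hy => (h2 y hy).symm) a]
  · rwa [NGDmix_out h₀ h1 h2 a]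

lemma NGDmix_res_inj (B : Finset V) (μ₀ : HE → HE) : Set.InjOn (NGDmix_res B) (cls2 B μ₀) := by
  intro μ hμ μ' hμ' e
  obtain ⟨a1, a2⟩ := mem_cls2.1 hμ
  obtain ⟨b1, b2⟩ := mem_cls2.1 hμ'
  have h : ∀ x : HE, x.1 ∉ B → μ x = μ' x := fun x hx => (a2 x hx).trans (b2 x hx).symm
  funext x
  by_cases h0 : x.1 ∈ B
  · by_cases h1 : (μ x).1 ∈ B
    · by_cases h2 : (μ' x).1 ∈ B
      · have := congrFun e x
        rwa [NGDmix_res, NGDmix_res, if_pos ⟨h0, h1⟩, if_pos ⟨h0, h2⟩] at this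
      · exact NGDmix_out b1 a1 h h2
    · exact (NGDmix_out a1 b1 (fun y hy => (h y hy).symm) h1).symm
  · exact h x h0

lemma NGDmix_in {B : Finset V} {μ : HE → HE} (h : μ ∈ cls2 B id) {x : HE} (hx : x.1 ∈ B) :
    (μ x).1 ∈ B := by
  obtain ⟨h1, h2⟩ := mem_cls2.1 h
  by_contra hn
  have h3 := h2 _ hn
  rw [(h1 x).2] at h3
  exact hn (by rw [← show x = μ x from h3]; exact hx)

lemma NGDmix_glue_mem {B : Finset V} {μ₀ μ : HE → HE} (h₀ : BExt μ₀) (h : μ ∈ cls2 B id)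
    (hf : ∀ x : HE, x.1 ∈ B → (μ x = x ↔ (μ₀ x).1 ∉ B)) : NGDmix_glue B μ₀ μ ∈ cls2 B μ₀ := by
  obtain ⟨h1, -⟩ := mem_cls2.1 h
  refine mem_cls2.2 ⟨fun x => ?_, fun x hx => if_neg fun a => hx a.1⟩
  by_cases hx : x.1 ∈ B ∧ (μ₀ x).1 ∈ B
  · have e : NGDmix_glue B μ₀ μ x = μ x := if_pos hx
    have h2 := NGDmix_in h hx.1
    have h3 : (μ₀ (μ x)).1 ∈ B := by
      by_contra hn
      have h4 := (hf _ h2).2 hn
      rw [(h1 x).2] at h4
      exact (hf x hx.1).1 h4.symm hx.2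
    rw [e, NGDmix_glue, if_pos ⟨h2, h3⟩]
    exact h1 x
  · have e : NGDmix_glue B μ₀ μ x = μ₀ x := if_neg hx
    rw [e, NGDmix_glue, if_neg fun a => hx ⟨by rw [(h₀ x).2] at a; exact a.2, a.1⟩]
    exact h₀ x

lemma NGDmix_res_glue {B : Finset V} {μ₀ μ : HE → HE} (h : μ ∈ cls2 B id)
    (hf : ∀ x : HE, x.1 ∈ B → (μ x = x ↔ (μ₀ x).1 ∉ B)) :
    NGDmix_res B (NGDmix_glue B μ₀ μ) = μ := by
  funext x
  by_cases hx : x.1 ∈ B
  · by_cases hy : (μ₀ x).1 ∈ B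
    · have e : NGDmix_glue B μ₀ μ x = μ x := if_pos ⟨hx, hy⟩
      rw [NGDmix_res, e, if_pos ⟨hx, NGDmix_in h hx⟩]
    · have e : NGDmix_glue B μ₀ μ x = μ₀ x := if_neg fun a => hy a.2
      rw [NGDmix_res, e, if_neg fun a => hy a.2, (hf x hx).2 hy]
  · rw [NGDmix_res, if_neg fun a => hx a.1]
    exact ((mem_cls2.1 h).2 x hx).symm

lemma NGDmix_E_eq {S : Finset V} {Λ : V → Finset V}
    (hdisj : ∀ i ∈ S, ∀ j ∈ S, i ≠ j → Disjoint (Λ i) (Λ j)) (E : V → V → V → Bool → Bool → ℂ)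
    {i x y : V} (hi : i ∈ S) (hx : x ∈ Λ i) (hy : y ∈ Λ i) : NGDmix_E S Λ E x y = E i x y := by
  have h : ∃ i ∈ S, x ∈ Λ i ∧ y ∈ Λ i := ⟨i, hi, hx, hy⟩
  rw [NGDmix_E, dif_pos h]
  by_cases e : h.choose = i
  · rw [e]
  · exact (disjoint_left.1 (hdisj _ h.choose_spec.1 i hi e) h.choose_spec.2.1 hx).elim

lemma NGDmix_E_id {S : Finset V} {Λ : V → Finset V} (E : V → V → V → Bool → Bool → ℂ)
    {x y : V} (h : ¬ ∃ i ∈ S, x ∈ Λ i ∧ y ∈ Λ i) : NGDmix_E S Λ E x y = idM := dif_neg h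

lemma NGDmix_E_contr {S : Finset V} {Λ : V → Finset V} {E : V → V → V → Bool → Bool → ℂ}
    (hE : ∀ i ∈ S, ∀ x y, Contr (E i x y)) (x y : V) : Contr (NGDmix_E S Λ E x y) := by
  unfold NGDmix_E
  split_ifs with h
  · exact hE _ h.choose_spec.1 x y
  · exact contr_idM

/-- The product of the inner edge weights is the edge weight of the cut configuration. -/
lemma NGDmix_WE {L : ℕ} (hL : 1 ≤ L) {S : Finset V} {Λ : V → Finset V}
    (hsub : ∀ i ∈ S, Λ i ⊆ box (L - 1))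
    (hdisj : ∀ i ∈ S, ∀ j ∈ S, i ≠ j → Disjoint (Λ i) (Λ j)) (E : V → V → V → Bool → Bool → ℂ)
    {μ : HE → HE} (hμ : BExt μ) (ho : offOK (box L) (S.biUnion Λ) μ)
    (hk : ∀ i ∈ S, okB (Λ i) ∅ μ) :
    WE (box L) (NGDmix_E S Λ E) (NGDmix_res (box L) μ) = ∏ i ∈ S, WI (Λ i) (E i) μ := by
  have h1 : (S.biUnion fun i => Λ i ×ˢ (univ : Finset Bool)) ⊆ box L ×ˢ (univ : Finset Bool) :=
    biUnion_subset.2 fun i hi => product_subset_product_left
      ((hsub i hi).trans (box_mono (Nat.sub_le L 1)))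
  rw [WE, ← prod_subset h1, prod_biUnion]
  · refine prod_congr rfl fun i hi => prod_congr rfl fun x hx => ?_
    have hx1 : x.1 ∈ Λ i := (mem_product.1 hx).1
    rw [NGDmix_res_in hL hμ (hsub i hi hx1)]
    by_cases hy : (μ x).1 ∈ Λ i
    · rw [NGDmix_E_eq hdisj E hi hx1 hy]
      simp only [hy, and_true]
    · rw [NGDmix_E_id E, ((hk i hi) x hx1).2 hy]
      · simp [idM, hy]
      · rintro ⟨j, hj, a, b⟩
        by_cases e : j = i
        · exact hy (e ▸ b)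
        · exact disjoint_left.1 (hdisj j hj i hi e) a hx1
  · exact fun i hi j hj hij => disjoint_product.2 (Or.inl (hdisj i hi j hj hij))
  · intro x hx hn
    have hx1 : x.1 ∈ box L := (mem_product.1 hx).1
    have hx2 : x.1 ∉ S.biUnion Λ := fun a => by
      obtain ⟨i, hi, b⟩ := mem_biUnion.1 a
      exact hn (mem_biUnion.2 ⟨i, hi, mem_product.2 ⟨b, mem_univ _⟩⟩)
    have h2 : (NGDmix_res (box L) μ x).2 = x.2 := by
      unfold NGDmix_res
      split_ifs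
      · exact (ho x hx1 hx2).2
      · rfl
    rw [NGDmix_E_id E fun ⟨j, hj, a, _⟩ => hx2 (mem_biUnion.2 ⟨j, hj, a⟩), h2]
    simp [idM]

/-- A non-zero edge weight forbids layer changes outside the small boxes. -/
lemma NGDmix_layer {B S : Finset V} {Λ : V → Finset V} {E : V → V → V → Bool → Bool → ℂ}
    {μ : HE → HE} (h : μ ∈ cls2 B id) (hW : WE B (NGDmix_E S Λ E) μ ≠ 0) {x : HE} (hx : x.1 ∈ B)
    (hn : ¬ ∃ i ∈ S, x.1 ∈ Λ i ∧ (μ x).1 ∈ Λ i) : (μ x).2 = x.2 := by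
  obtain ⟨h1, -⟩ := mem_cls2.1 h
  have key : ∀ y : HE, y.1 ∈ B → IsEven y.1 → (¬ ∃ i ∈ S, y.1 ∈ Λ i ∧ (μ y).1 ∈ Λ i) →
      (μ y).2 = y.2 := fun y hy he hn => by
    by_cases e : μ y = y
    · rw [e]
    · have h2 := prod_ne_zero_iff.1 hW y (mem_product.2 ⟨hy, mem_univ _⟩)
      rw [if_pos ⟨he, e⟩, NGDmix_E_id E hn] at h2
      by_contra hc
      exact h2 (if_neg fun a => hc a.symm)
  by_cases he : IsEven x.1
  · exact key x hx he hn
  · rcases (h1 x).1 with e | e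
    · rw [e]
    · have h2 := key (μ x) (NGDmix_in h hx) ((nbr_parity e).2 he) fun ⟨i, hi, a, b⟩ =>
        hn ⟨i, hi, by rw [(h1 x).2] at b; exact b, a⟩
      rw [(h1 x).2] at h2
      exact h2.symm

lemma NGDmix_fix {μ : HE → HE} (hμ : BExt μ) {h : HE} (e : (μ h).1 = h.1) : μ h = h := by
  refine (hμ h).1.resolve_right fun a => ?_
  have := nbr_parity a
  rw [e] at this
  tauto

lemma NGDmix_mem_un {μ : HE → HE} {v : V} : v ∈ un μ v ↔ ∃ i, (μ (v, i)).1 = v := by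
  simp only [un, Sym2.mem_iff, Bool.exists_bool]
  exact or_congr eq_comm eq_comm

/-- The fixed half edges are exactly the cut ones. -/
lemma NGDmix_cut {B : Finset V} {μ₀ μ : HE → HE} (hμ : BExt μ)
    (hW : Wu B (fun v i => if (μ₀ (v, i)).1 ∉ B then 1 else 0) μ ≠ 0)
    (hk : NGDmix_ok B μ₀ (un μ)) (x : HE) (hx : x.1 ∈ B) : μ x = x ↔ (μ₀ x).1 ∉ B := by
  have key : ∀ y : HE, y.1 ∈ B → μ y = y → (μ₀ y).1 ∉ B := fun y hy e => by
    have h2 := prod_ne_zero_iff.1 hW y (mem_product.2 ⟨hy, mem_univ _⟩)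
    rw [if_pos e] at h2
    exact fun hc => h2 (if_neg fun a => a hc)
  refine ⟨key x hx, fun hc => ?_⟩
  obtain ⟨v, i⟩ := x
  obtain ⟨j, hj⟩ := NGDmix_mem_un.1 ((hk v hx).1 i hc)
  by_cases e : j = i
  · exact e ▸ NGDmix_fix hμ hj
  · have h1 := key (v, j) hx (NGDmix_fix hμ hj)
    have h2 := (hk v hx).2 fun k => by
      cases i <;> cases j <;> cases k <;> first | exact hc | exact h1 | exact (e rfl).elim
    rw [un, Sym2.eq_iff, or_self] at h2
    cases i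
    · exact NGDmix_fix hμ h2.1
    · exact NGDmix_fix hμ h2.2

lemma NGDmix_dom (L : ℕ) (H : (V → Sym2 V) → ℝ) :
    ∑ ρ₁ ∈ cls (box L) id, ∑ ρ₂ ∈ cls (box L) id,
      (if ∀ v ∈ box (L - 1), v ∉ un2 ρ₁ ρ₂ v then H (un2 ρ₁ ρ₂) else 0) = Z2 L H := by
  have h1 : ∀ ρ : V → V, mon (box L) ρ ⊆ lev L ↔ ∀ v ∈ box (L - 1), v ≠ ρ v := fun ρ =>
    ⟨fun h v hv e => (mem_lev.1 (h (mem_mon.2 ⟨box_mono (Nat.sub_le L 1) hv, e.symm⟩))).2 hv,
      fun h v hv => mem_lev.2 ⟨(mem_mon.1 hv).1, fun a => h v a (mem_mon.1 hv).2.symm⟩⟩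
  simp only [Z2, PL, sum_filter, h1]
  refine sum_congr rfl fun ρ₁ _ => ?_
  split_ifs with h2
  · refine sum_congr rfl fun ρ₂ _ => ?_
    have h3 : (∀ v ∈ box (L - 1), v ∉ un2 ρ₁ ρ₂ v) ↔ ∀ v ∈ box (L - 1), v ≠ ρ₂ v := by
      simp only [un2, Sym2.mem_iff, not_or]
      exact ⟨fun h v hv => (h v hv).2, fun h v hv => ⟨h2 v hv, h v hv⟩⟩
    simp only [h3]
  · refine sum_eq_zero fun ρ₂ _ => if_neg fun h => h2 fun v hv e => h v hv ?_
    simp only [un2, Sym2.mem_iff]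
    exact Or.inl e

/-- Domination for admissible weights in disjoint boxes, with a boundary condition: cut the pairs
that leave the big box, select the layers of the cut half edges by unit vectors. -/
theorem gd_adm2 (L : ℕ) (hL : 1 ≤ L) {σ₁ σ₂ : V → V} (h₁ : IsExt σ₁) (h₂ : IsExt σ₂)
    (S : Finset V) (Λ : V → Finset V) (hsub : ∀ i ∈ S, Λ i ⊆ box (L - 1))
    (hdisj : ∀ i ∈ S, ∀ j ∈ S, i ≠ j → Disjoint (Λ i) (Λ j))
    (g : V → (V → Sym2 V) → ℂ) (E : V → V → V → Bool → Bool → ℂ)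
    (hg : ∀ i ∈ S, LocU (Λ i) (g i)) (hg1 : ∀ i ∈ S, ∀ U, ‖g i U‖ ≤ 1)
    (hE : ∀ i ∈ S, ∀ x y, Contr (E i x y))
    (H : (V → Sym2 V) → ℝ) (hH0 : ∀ U, 0 ≤ H U) (hH : LocU (box (L - 1)) H) :
    ‖∑ μ ∈ (cls2 (box L) (emb σ₁ σ₂)).filter (offOK (box L) (S.biUnion Λ)),
      (H (un μ) : ℂ) * ∏ i ∈ S, wt2 (Λ i) ∅ (g i) (E i) μ‖ ≤ Z2 L H := by
  have h₀ := bExt_emb h₁ h₂
  have hl : ∀ x, (emb σ₁ σ₂ x).2 = x.2 := fun _ => rfl
  generalize emb σ₁ σ₂ = μ₀ at h₀ hl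
  have main := gd2 (box L) (NGDmix_E S Λ E) (NGDmix_E_contr hE)
    (fun v i => if (μ₀ (v, i)).1 ∉ box L then 1 else 0) (fun v => ?_)
    (fun U => if (∀ v ∈ box (L - 1), v ∉ U v) ∧ NGDmix_ok (box L) μ₀ U then
      (H U : ℂ) * ∏ i ∈ S, g i U else 0)
    (fun U => if ∀ v ∈ box (L - 1), v ∉ U v then H U else 0) fun U => ?_
  · rw [NGDmix_dom] at main
    refine le_of_eq_of_le (congrArg _ ?_) main
    rw [← sum_filter_of_ne (p := fun μ => ∀ i ∈ S, okB (Λ i) ∅ μ) fun μ _ hne i hi => ?_]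
    · refine sum_of_injOn (NGDmix_res (box L)) ((NGDmix_res_inj _ μ₀).mono fun μ hμ => ?_)
        (fun μ hμ => ?_) (fun μ hμ hn => ?_) fun μ hμ => ?_
      · exact mem_coe.2 (mem_filter.1 (mem_filter.1 (mem_coe.1 hμ)).1).1
      · exact mem_coe.2 (NGDmix_res_mem _
          (mem_cls2.1 (mem_filter.1 (mem_filter.1 (mem_coe.1 hμ)).1).1).1)
      · by_contra hne
        obtain ⟨a1, a2⟩ := mul_ne_zero_iff.1 hne
        obtain ⟨a2, a3⟩ := mul_ne_zero_iff.1 a2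
        have a4 : NGDmix_ok (box L) μ₀ (un μ) := by
          by_contra hc
          exact a1 (if_neg fun a => hc a.2)
        have hf := NGDmix_cut (mem_cls2.1 hμ).1 a3 a4
        have b1 : ∀ x : HE, x.1 ∈ box L → NGDmix_glue (box L) μ₀ μ x ≠ x := fun x hx => by
          unfold NGDmix_glue
          split_ifs with c
          · exact fun e => (hf x hx).1 e c.2
          · exact fun e => c ⟨hx, by rw [e]; exact hx⟩
        have b2 : ∀ x : HE, x.1 ∈ box L →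
            (¬ ∃ i ∈ S, x.1 ∈ Λ i ∧ (NGDmix_glue (box L) μ₀ μ x).1 ∈ Λ i) →
            (NGDmix_glue (box L) μ₀ μ x).2 = x.2 := fun x hx => by
          unfold NGDmix_glue
          split_ifs with c
          · exact NGDmix_layer hμ a2 hx
          · exact fun _ => hl x
        refine hn ⟨NGDmix_glue (box L) μ₀ μ, mem_coe.2 (mem_filter.2 ⟨mem_filter.2
          ⟨NGDmix_glue_mem h₀ hμ hf, fun x hx hy => ⟨b1 x hx, b2 x hx fun ⟨i, hi, c, _⟩ =>
            hy (mem_biUnion.2 ⟨i, hi, c⟩)⟩⟩, fun i hi x hx => ?_⟩), NGDmix_res_glue hμ hf⟩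
        have hx' : x.1 ∈ box L := box_mono (Nat.sub_le L 1) (hsub i hi hx)
        refine ⟨fun e => (b1 x hx' e).elim, fun hy => b2 x hx' fun ⟨j, hj, c, d⟩ => ?_⟩
        by_cases e : j = i
        · exact hy (e ▸ d)
        · exact disjoint_left.1 (hdisj j hj i hi e) c hx
      · obtain ⟨a1, hk⟩ := mem_filter.1 hμ
        obtain ⟨a1, ho⟩ := mem_filter.1 a1
        have hb := (mem_cls2.1 a1).1
        have b1 : ∀ x : HE, x.1 ∈ box L → μ x ≠ x := fun x hx e => by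
          by_cases c : x.1 ∈ S.biUnion Λ
          · obtain ⟨i, hi, c⟩ := mem_biUnion.1 c
            exact notMem_empty _ ((hk i hi x c).1 e)
          · exact (ho x hx c).1 e
        have b2 : ∀ x : HE, (μ₀ x).1 ∉ box L → NGDmix_res (box L) μ x = x := fun x hx =>
          if_neg fun a => hx ((NGDmix_free h₀ a1 x).1 a.2)
        have b3 : Wu (box L) (fun v i => if (μ₀ (v, i)).1 ∉ box L then 1 else 0)
            (NGDmix_res (box L) μ) = 1 := by
          refine prod_eq_one fun x hx => ?_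
          have hx1 : x.1 ∈ box L := (mem_product.1 hx).1
          by_cases c : (μ₀ x).1 ∈ box L
          · refine if_neg ?_
            rw [NGDmix_res, if_pos ⟨hx1, (NGDmix_free h₀ a1 x).2 c⟩]
            exact b1 x hx1
          · rw [if_pos (b2 x c)]
            exact if_pos c
        have b4 : (∀ v ∈ box (L - 1), v ∉ un (NGDmix_res (box L) μ) v) ∧
            NGDmix_ok (box L) μ₀ (un (NGDmix_res (box L) μ)) := by
          refine ⟨fun v hv c => ?_, fun v _ => ⟨fun i hi => ?_, fun hi => ?_⟩⟩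
          · rw [NGDmix_un_in hL hb hv] at c
            obtain ⟨i, hi⟩ := NGDmix_mem_un.1 c
            exact b1 (v, i) (box_mono (Nat.sub_le L 1) hv) (NGDmix_fix hb hi)
          · exact NGDmix_mem_un.2 ⟨i, by rw [b2 _ hi]⟩
          · rw [un, b2 _ (hi false), b2 _ (hi true)]
        rw [b3, mul_one, if_pos b4, NGDmix_WE hL hsub hdisj E hb ho hk, mul_assoc,
          ← prod_mul_distrib, hH _ _ fun v hv => NGDmix_un_in hL hb (mem_coe.1 hv)]
        refine congrArg _ (prod_congr rfl fun i hi => ?_)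
        rw [wt2, if_pos (hk i hi),
          hg i hi _ _ fun v hv => NGDmix_un_in hL hb (hsub i hi (mem_coe.1 hv))]
    · by_contra hc
      exact hne (mul_eq_zero_of_right _ (prod_eq_zero hi (if_neg hc)))
  · have h : ∀ i : Bool, ‖(if (μ₀ (v, i)).1 ∉ box L then 1 else 0 : ℂ)‖ ^ 2 ≤ 1 := fun i => by
      split_ifs <;> simp
    rw [Fintype.sum_bool]
    linarith [h true, h false]
  · by_cases c : (∀ v ∈ box (L - 1), v ∉ U v) ∧ NGDmix_ok (box L) μ₀ U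
    · rw [if_pos c, if_pos c.1, norm_mul, norm_prod, Complex.norm_real, Real.norm_of_nonneg (hH0 U)]
      exact mul_le_of_le_one_right (hH0 U)
        (prod_le_one (fun _ _ => norm_nonneg _) fun i hi => hg1 i hi U)
    · rw [if_neg c, norm_zero]
      split_ifs
      · exact hH0 U
      · exact le_rfl

/-- Domination for mixtures in disjoint boxes. -/
theorem gd_mix2 (L : ℕ) (hL : 1 ≤ L) {σ₁ σ₂ : V → V} (h₁ : IsExt σ₁) (h₂ : IsExt σ₂)
    (S : Finset V) (Λ : V → Finset V) (hsub : ∀ i ∈ S, Λ i ⊆ box (L - 1))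
    (hdisj : ∀ i ∈ S, ∀ j ∈ S, i ≠ j → Disjoint (Λ i) (Λ j))
    (w : V → (HE → HE) → ℂ) (β : V → ℝ) (hw : ∀ i ∈ S, Mix2 (Λ i) ∅ (w i) (β i))
    (H : (V → Sym2 V) → ℝ) (hH0 : ∀ U, 0 ≤ H U) (hH : LocU (box (L - 1)) H) :
    ‖∑ μ ∈ (cls2 (box L) (emb σ₁ σ₂)).filter (offOK (box L) (S.biUnion Λ)),
      (H (un μ) : ℂ) * ∏ i ∈ S, w i μ‖ ≤ Z2 L H * ∏ i ∈ S, β i := by
  have hr : ∀ i, ∃ (n : ℕ) (a : Fin n → ℂ) (g : Fin n → (V → Sym2 V) → ℂ)
      (E : Fin n → V → V → Bool → Bool → ℂ), i ∈ S → (∀ k, LocU (Λ i) (g k)) ∧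
      (∀ k U, ‖g k U‖ ≤ 1) ∧ (∀ k x y, Contr (E k x y)) ∧ ∑ k, ‖a k‖ ≤ β i ∧
      ∀ μ, BExt μ → w i μ = ∑ k, a k * wt2 (Λ i) ∅ (g k) (E k) μ := fun i => by
    by_cases hi : i ∈ S
    · obtain ⟨n, a, g, E, h⟩ := (hw i hi).repr
      exact ⟨n, a, g, E, fun _ => h⟩
    · exact ⟨0, 0, 0, 0, fun h => (hi h).elim⟩
  choose n a g E hr using hr
  have hZ : 0 ≤ Z2 L H := sum_nonneg fun _ _ => sum_nonneg fun _ _ => hH0 _
  have e1 : ∑ μ ∈ (cls2 (box L) (emb σ₁ σ₂)).filter (offOK (box L) (S.biUnion Λ)),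
      (H (un μ) : ℂ) * ∏ i ∈ S, w i μ =
      ∑ p ∈ S.pi fun i => (univ : Finset (Fin (n i))), (∏ x ∈ S.attach, a x.1 (p x.1 x.2)) *
        ∑ μ ∈ (cls2 (box L) (emb σ₁ σ₂)).filter (offOK (box L) (S.biUnion Λ)),
          (H (un μ) : ℂ) * ∏ i ∈ S, wt2 (Λ i) ∅ (if h : i ∈ S then g i (p i h) else 0)
            (if h : i ∈ S then E i (p i h) else 0) μ := by
    simp only [mul_sum]
    rw [sum_comm]
    refine sum_congr rfl fun μ hμ => ?_
    rw [prod_congr rfl fun i hi => (hr i hi).2.2.2.2 μ (mem_cls2.1 (mem_filter.1 hμ).1).1,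
      prod_sum, mul_sum]
    refine sum_congr rfl fun p _ => ?_
    rw [prod_mul_distrib, mul_left_comm, ← prod_attach S]
    refine congrArg _ (congrArg _ (prod_congr rfl fun x _ => ?_))
    rw [dif_pos x.2, dif_pos x.2]
  rw [e1]
  refine (norm_sum_le _ _).trans ((sum_le_sum (g := fun p =>
    (∏ x ∈ S.attach, ‖a x.1 (p x.1 x.2)‖) * Z2 L H) fun p _ => ?_).trans ?_)
  · rw [norm_mul, norm_prod]
    refine mul_le_mul_of_nonneg_left (gd_adm2 L hL h₁ h₂ S Λ hsub hdisj _ _ (fun i hi => ?_)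
      (fun i hi => ?_) (fun i hi => ?_) H hH0 hH) (prod_nonneg fun _ _ => norm_nonneg _)
    · rw [dif_pos hi]
      exact (hr i hi).1 _
    · rw [dif_pos hi]
      exact (hr i hi).2.1 _
    · rw [dif_pos hi]
      exact (hr i hi).2.2.1 _
  · rw [← sum_mul, mul_comm, ← prod_sum S (fun i => (univ : Finset (Fin (n i))))
      fun i k => ‖a i k‖]
    exact mul_le_mul_of_nonneg_left (prod_le_prod (fun _ _ => sum_nonneg fun _ _ => norm_nonneg _)
      fun i hi => (hr i hi).2.2.2.1) hZ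

lemma NGDmix_res1 {L : ℕ} (hL : 1 ≤ L) {ρ : V → V} (h : IsExt ρ) {v : V} (hv : v ∈ box (L - 1)) :
    res (box L) ρ v = ρ v :=
  if_pos ⟨box_mono (Nat.sub_le L 1) hv, NGDmix_step hL hv (h v).1⟩

lemma NGDmix_perf {L : ℕ} (hL : 1 ≤ L) (σ : V → V) (f : (V → V) → ℝ) (hf : ∀ ρ, 0 ≤ f ρ) :
    ∑ ρ ∈ perf (box L) σ, f (res (box L) ρ) ≤ ∑ κ ∈ PL L, f κ := by
  have h : Set.InjOn (res (box L)) (perf (box L) σ) :=
    (res_injOn (box L) σ).mono (coe_subset.2 (filter_subset _ _))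
  rw [← sum_image h]
  refine sum_le_sum_of_subset_of_nonneg (fun κ hκ => ?_) fun _ _ _ => hf _
  obtain ⟨ρ, hρ, rfl⟩ := mem_image.1 hκ
  obtain ⟨⟨a1, -⟩, a2⟩ := mem_perf.1 hρ
  refine mem_filter.2 ⟨mem_cls.2 ⟨isExt_res a1 _, fun x hx => if_neg fun a => hx a.1⟩,
    fun v hv => mem_lev.2 ⟨(mem_mon.1 hv).1, fun c => a2 v (mem_mon.1 hv).1 ?_⟩⟩
  rw [← NGDmix_res1 hL a1 c]
  exact (mem_mon.1 hv).2

/-- Pairs with a boundary condition are free pairs. -/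
theorem perf_le_Z2 (L : ℕ) (hL : 1 ≤ L) {σ₁ σ₂ : V → V} (h₁ : IsExt σ₁) (h₂ : IsExt σ₂)
    (H : (V → Sym2 V) → ℝ) (hH0 : ∀ U, 0 ≤ H U) (hH : LocU (box (L - 1)) H) :
    ∑ ρ₁ ∈ perf (box L) σ₁, ∑ ρ₂ ∈ perf (box L) σ₂, H (un2 ρ₁ ρ₂) ≤ Z2 L H := by
  have _ := h₁
  have _ := h₂
  refine le_trans (sum_le_sum fun ρ₁ a₁ => ?_) (NGDmix_perf hL σ₁
    (fun κ₁ => ∑ κ₂ ∈ PL L, H (un2 κ₁ κ₂)) fun _ => sum_nonneg fun _ _ => hH0 _)
  refine le_trans (sum_le_sum fun ρ₂ a₂ => le_of_eq (hH _ _ fun v hv => ?_))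
    (NGDmix_perf hL σ₂ (fun κ₂ => H (un2 (res (box L) ρ₁) κ₂)) fun _ => hH0 _)
  simp only [un2]
  rw [NGDmix_res1 hL (mem_perf.1 a₁).1.1 (mem_coe.1 hv),
    NGDmix_res1 hL (mem_perf.1 a₂).1.1 (mem_coe.1 hv)]

end Pool.Agent.Work.MP_5cb0a4_pr.Z
end

-- merged part: Pool.Agent.Work.MP_5cb0a4_pr.N.IsoP
section
open MeasureTheory Finset Filter Topology
open scoped Classical

namespace Pool.Agent.Work.MP_5cb0a4_pr.Z

/-- (I1) for the centred flow. -/
theorem out_le_sqP {s : Fin 3 → ℝ} (hs : n1 s ≤ 1) (σ : V → V) (S : Finset V) {t : ℕ} (ht : 1 ≤ t)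
    (h0 : Php s σ t = 0) : |Outp s σ S t| ≤ 72 * (beta S t : ℝ) ^ 2 := by
  have h1 : ∀ A : Dir → Finset V, (∀ d, (A d).card ≤ beta S t ^ 2) →
      |∑ d : Dir, ∑ x ∈ A d, flp s σ x d| ≤ 72 * (beta S t : ℝ) ^ 2 := by
    intro A hA
    refine (abs_sum_le_sum_abs _ _).trans ((sum_le_card_nsmul _ _ ((beta S t : ℝ) ^ 2)
      fun d _ => (Iso_abs _ fun x => abs_flp_le hs σ x d).trans (by exact_mod_cast hA d)).trans ?_)
    simp only [card_univ, Fintype.card_prod, Fintype.card_fin, Fintype.card_bool, nsmul_eq_mul]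
    push_cast
    nlinarith [sq_nonneg (beta S t : ℝ)]
  rw [Outp_eq s σ S ht]
  rcases Iso_key S ht with h | h
  · exact h1 _ h
  · have h2 : ∑ d : Dir, ∑ x ∈ sq d.1 (corner d t 0 (0, 0)) (2 * t + 1) ∩ S, flp s σ x d +
        ∑ d : Dir, ∑ x ∈ sq d.1 (corner d t 0 (0, 0)) (2 * t + 1) \ S, flp s σ x d = 0 := by
      rw [← h0, ← sum_add_distrib]
      exact sum_congr rfl fun d _ => sum_inter_add_sum_sdiff _ _ _
    rw [eq_neg_of_add_eq_zero_left h2, abs_neg]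
    exact h1 _ h

lemma NIsoP_line {S : Finset V} {t l : ℕ} {i a : Fin 3} {c x y : V}
    (hQ : ∀ x ∈ sq i c l, x ∈ lev t) (hx : x ∈ sq i c l) (hy : y ∈ sq i c l) (e : x a = y a)
    (h : ∀ q ∈ Iso_bd S t, q.1 ∈ sq i c l → q.1 a ≠ x a) : x ∈ S ↔ y ∈ S := by
  have key : ∀ u v, u ∈ sq i c l → v ∈ sq i c l → u ≤ v → u a = x a → v a = x a →
      (u ∈ S ↔ v ∈ S) := fun u v hu hv huv h1 h2 =>
    Iso_rect (P := fun z => z ∈ sq i c l ∧ z a = x a) (fun z e h4 h5 h6 =>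
      Iso_mem (hQ _ h4.1) (hQ _ h5.1) h6 fun h7 => h _ h7 h4.1 h4.2) huv fun z h4 h5 =>
        ⟨mem_sq.2 ⟨le_antisymm ((mem_sq.1 hv).1 ▸ h5 i) ((mem_sq.1 hu).1 ▸ h4 i), fun j hj =>
          ⟨((mem_sq.1 hu).2 j hj).1.trans (h4 j), (h5 j).trans_lt ((mem_sq.1 hv).2 j hj).2⟩⟩,
          le_antisymm (h2 ▸ h5 a) (h1 ▸ h4 a)⟩
  have hm : x ⊓ y ∈ sq i c l := mem_sq.2 ⟨by
    rw [Pi.inf_apply, (mem_sq.1 hx).1, (mem_sq.1 hy).1, inf_idem], fun j hj =>
      ⟨le_inf ((mem_sq.1 hx).2 j hj).1 ((mem_sq.1 hy).2 j hj).1,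
        inf_le_left.trans_lt ((mem_sq.1 hx).2 j hj).2⟩⟩
  have h1 : (x ⊓ y) a = x a := by rw [Pi.inf_apply, ← e, inf_idem]
  exact (key _ _ hm hx inf_le_left h1 rfl).symm.trans (key _ _ hm hy inf_le_right h1 e.symm)

lemma NIsoP_min (S : Finset V) {t l : ℕ} {i : Fin 3} {c : V} (hQ : ∀ x ∈ sq i c l, x ∈ lev t) :
    (sq i c l ∩ S).card ≤ l * ((Iso_bd S t).filter fun q => q.1 ∈ sq i c l).card ∨
      (sq i c l \ S).card ≤ l * ((Iso_bd S t).filter fun q => q.1 ∈ sq i c l).card := by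
  set N := (Iso_bd S t).filter fun q => q.1 ∈ sq i c l
  rcases le_or_gt l N.card with hb | hb
  · exact Or.inl ((card_le_card inter_subset_left).trans
      ((card_sq _ _ _).trans_le ((pow_two l).trans_le (Nat.mul_le_mul_left l hb))))
  obtain ⟨j, k, hj, hk, hjk, ha⟩ : ∃ j k : Fin 3, j ≠ i ∧ k ≠ i ∧ k ≠ j ∧
      ∀ m, m = i ∨ m = j ∨ m = k := (by decide : ∀ i : Fin 3, ∃ j k : Fin 3, j ≠ i ∧ k ≠ i ∧
        k ≠ j ∧ ∀ m, m = i ∨ m = j ∨ m = k) i
  have hc : (Finset.Ico (c j) (c j + l)).card = l := by simp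
  obtain ⟨w, h1, h2⟩ := exists_mem_notMem_of_card_lt_card (s := N.image fun q => q.1 j)
    (t := Finset.Ico (c j) (c j + l)) (card_image_le.trans_lt (hb.trans_eq hc.symm))
  have h3 : ∀ x ∈ sq i c l, Function.update x j w ∈ sq i c l := fun x hx =>
    mem_sq.2 ⟨(Function.update_of_ne hj.symm _ _).trans (mem_sq.1 hx).1, fun m hm => by
      rcases eq_or_ne m j with rfl | hm'
      · rw [Function.update_self]
        exact mem_Ico.1 h1
      · rw [Function.update_of_ne hm']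
        exact (mem_sq.1 hx).2 m hm⟩
  have h4 : c ∈ sq i c l := mem_sq.2 ⟨rfl, fun m _ => ⟨le_rfl, by omega⟩⟩
  have h5 : ∀ A : Finset V, (∀ x ∈ A, x ∈ sq i c l ∧ ¬ (x ∈ S ↔ Function.update c j w ∈ S)) →
      A.card ≤ l * N.card := by
    intro A hA
    refine (card_le_card_of_injOn (t := Finset.Ico (c j) (c j + l) ×ˢ N.image fun q => q.1 k)
      (fun x => (x j, x k)) (fun x hx => ?_) fun x hx y hy e => funext fun m => ?_).trans ?_
    · obtain ⟨h6, h7⟩ := hA x hx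
      refine mem_coe.2 (mem_product.2 ⟨mem_Ico.2 ((mem_sq.1 h6).2 j hj), by_contra fun h8 => h7 ?_⟩)
      refine (NIsoP_line hQ h6 (h3 x h6) (Function.update_of_ne hjk _ _).symm fun q hq hq' e =>
        h8 (mem_image.2 ⟨q, mem_filter.2 ⟨hq, hq'⟩, e⟩)).trans
        (NIsoP_line (a := j) hQ (h3 x h6) (h3 c h4) (by simp) fun q hq hq' e =>
          h2 (mem_image.2 ⟨q, mem_filter.2 ⟨hq, hq'⟩, e.trans (by simp)⟩))
    · rcases ha m with rfl | rfl | rfl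
      exacts [(mem_sq.1 (hA x hx).1).1.trans (mem_sq.1 (hA y hy).1).1.symm,
        congrArg Prod.fst e, congrArg Prod.snd e]
    · rw [card_product, hc]
      exact Nat.mul_le_mul_left l card_image_le
  by_cases h6 : Function.update c j w ∈ S
  · exact Or.inr (h5 _ fun x hx => ⟨(mem_sdiff.1 hx).1, fun h => (mem_sdiff.1 hx).2 (h.2 h6)⟩)
  · exact Or.inl (h5 _ fun x hx => ⟨(mem_inter.1 hx).1, fun h => h6 (h.1 (mem_inter.1 hx).2)⟩)

lemma NIsoP_sq {f : V → ℝ} (hf : ∀ x, |f x| ≤ 1) (S : Finset V) {t l : ℕ} {i : Fin 3} {c : V}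
    (hQ : ∀ x ∈ sq i c l, x ∈ lev t) :
    |∑ x ∈ sq i c l, if x ∈ S then f x else 0| ≤ |∑ x ∈ sq i c l, f x| +
      (l : ℝ) * ((Iso_bd S t).filter fun q => q.1 ∈ sq i c l).card := by
  rw [sum_ite_mem]
  rcases NIsoP_min S hQ with h | h
  · exact ((Iso_abs _ hf).trans (by exact_mod_cast h)).trans (le_add_of_nonneg_left (abs_nonneg _))
  · rw [eq_sub_of_add_eq (sum_inter_add_sum_sdiff (sq i c l) S f)]
    exact (abs_sub _ _).trans (add_le_add le_rfl ((Iso_abs _ hf).trans (by exact_mod_cast h)))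

lemma NIsoP_face {f : V → ℝ} (hf : ∀ x, |f x| ≤ 1) (S : Finset V) {t l : ℕ} (ht : 1 ≤ t)
    (hl : 1 ≤ l) (d : Dir) : |∑ x ∈ sq d.1 (corner d t 0 (0, 0)) (2 * t + 1) ∩ S, f x| ≤
      (l : ℝ) * beta S t + ∑ p ∈ sqs t l, |∑ x ∈ sq d.1 (corner d t l p) l, f x| +
        2 * l * (2 * t + 1) := by
  have h1 : (sqs t l : Set (ℕ × ℕ)).PairwiseDisjoint fun p => sq d.1 (corner d t l p) l :=
    fun p _ p' _ h => disjoint_left.2 fun x hx hx' => h (Iso_disj d t hl hx hx')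
  have h2 : ((sqs t l).biUnion fun p => sq d.1 (corner d t l p) l) ⊆
      sq d.1 (corner d t 0 (0, 0)) (2 * t + 1) := biUnion_subset.2 fun p hp => sq_corner_subset hp
  have h3 := card_sdiff_add_card_eq_card h2
  rw [card_biUnion h1, card_sq, sum_congr rfl fun p _ => card_sq _ _ _, sum_const, sqs,
    card_product, card_range, smul_eq_mul] at h3
  have h4 : (sq d.1 (corner d t 0 (0, 0)) (2 * t + 1) \
      (sqs t l).biUnion fun p => sq d.1 (corner d t l p) l).card ≤ 2 * l * (2 * t + 1) := by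
    have h5 := Nat.div_add_mod (2 * t + 1) l
    have h6 := Nat.mod_lt (2 * t + 1) hl
    rw [sqs]
    generalize (2 * t + 1) / l = N at *
    generalize (2 * t + 1) % l = r at *
    rw [← h5] at h3 ⊢
    nlinarith [Nat.zero_le (l * N), Nat.mul_le_mul_right (l * N) h6.le,
      Nat.mul_le_mul_right r h6.le]
  have h5 : ∑ p ∈ sqs t l, ((Iso_bd S t).filter fun q => q.1 ∈ sq d.1 (corner d t l p) l).card ≤
      beta S t := by
    rw [← card_biUnion (t := fun p => (Iso_bd S t).filter fun q => q.1 ∈ sq d.1 (corner d t l p) l)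
      fun p _ p' _ h => disjoint_left.2 fun q hq hq' =>
      h (Iso_disj d t hl (mem_filter.1 hq).2 (mem_filter.1 hq').2)]
    exact card_le_card (biUnion_subset.2 fun p _ => filter_subset _ _)
  rw [← sum_ite_mem, ← sum_sdiff h2, sum_biUnion h1, add_comm]
  refine (abs_add_le _ _).trans (add_le_add ((abs_sum_le_sum_abs _ _).trans
    ((sum_le_sum fun p hp => NIsoP_sq hf S fun x hx =>
      Iso_face_lev ht (sq_corner_subset hp hx)).trans ?_))
    ((Iso_abs _ fun x => ?_).trans (by exact_mod_cast h4)))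
  · rw [sum_add_distrib, ← mul_sum, add_comm]
    refine add_le_add_left (mul_le_mul_of_nonneg_left ?_ (Nat.cast_nonneg _)) _
    exact_mod_cast h5
  · split_ifs
    exacts [hf x, by simp]

/-- (I2) improved: one side of a cut square has at most `l` times the number of boundary edges. -/
theorem out_le_linP {s : Fin 3 → ℝ} (hs : n1 s ≤ 1) (σ : V → V) (S : Finset V) {t l : ℕ}
    (ht : 1 ≤ t) (hl : 1 ≤ l) :
    |Outp s σ S t| ≤ 6 * (l : ℝ) * beta S t +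
      (∑ d : Dir, ∑ p ∈ sqs t l, |FQp s σ d (corner d t l p) l|) + 12 * l * (2 * t + 1) := by
  rw [Outp_eq s σ S ht]
  refine (abs_sum_le_sum_abs _ _).trans ((sum_le_sum fun d _ =>
    NIsoP_face (fun x => abs_flp_le hs σ x d) S ht hl d).trans ?_)
  simp only [sum_add_distrib, sum_const, card_univ, Fintype.card_prod, Fintype.card_fin,
    Fintype.card_bool, nsmul_eq_mul, FQp]
  push_cast
  linarith

/-- The growth lemma with quadratic Bernoulli inequality. -/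
theorem seq_lemmaP {A C₂ C₃ D : ℝ} (hA : 1 ≤ A) (hC₂ : 1 ≤ C₂) {w : ℕ} (hw : 1 ≤ w) (β : ℕ → ℕ)
    (o : ℕ → ℝ) (good : Finset ℕ) (h1 : ∀ u ∈ Finset.Icc 1 (2 * w), o u ≤ 72 * (β u : ℝ) ^ 2)
    (h2 : ∀ u ∈ good, u ∈ Finset.Ioc w (2 * w) ∧ o u ≤ C₂ * β u + D)
    (h3 : ∀ u ∈ Finset.Icc 1 (2 * w), (β u : ℝ) ≤ C₃) (hD : 1296 * A ^ 2 * D ≤ (w : ℝ) ^ 2)
    (hg0 : 1 ≤ good.card)
    (hg : 20736 * A ^ 4 * C₂ ^ 3 * C₃ ≤ (w : ℝ) ^ 2 * ((good.card : ℝ) - 1) ^ 2) :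
    ∃ u ∈ Finset.Icc 1 (2 * w), A * o u ≤ ∑ j ∈ Finset.Ico 1 u, (β j : ℝ) := by
  by_contra hc
  push Not at hc
  have hw' : (0 : ℝ) < w := by exact_mod_cast hw
  have hA0 : 0 < A := by linarith
  have hP : ∀ u : ℕ, u ≤ 2 * w →
      (u : ℝ) ^ 2 ≤ 648 * A * ∑ j ∈ Finset.Ico 1 (u + 1), (β j : ℝ) := by
    intro u
    induction u with
    | zero => simp
    | succ u ih =>
      intro hu
      have h4 := ih (by omega)
      have hm : u + 1 ∈ Finset.Icc 1 (2 * w) := mem_Icc.2 ⟨by omega, hu⟩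
      have h5 := mul_lt_mul_of_pos_left (hc _ hm) hA0
      have h6 := mul_le_mul_of_nonneg_left (h1 _ hm) (mul_pos hA0 hA0).le
      have h7 : (u : ℝ) < 216 * A * β (u + 1) :=
        lt_of_pow_lt_pow_left₀ 2 (by positivity) (by linarith)
      have h8 : (1 : ℝ) ≤ β (u + 1) := by
        exact_mod_cast Nat.cast_pos.1 ((mul_pos_iff_of_pos_left (by positivity)).1
          ((Nat.cast_nonneg u).trans_lt h7))
      rw [sum_Ico_succ_top (by omega)]
      push_cast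
      rcases Nat.eq_zero_or_pos u with rfl | h9
      · simp only [Nat.cast_zero] at h4 ⊢
        nlinarith
      · have : (1 : ℝ) ≤ u := by exact_mod_cast h9
        linarith
  have hB : ∀ u ∈ good, ∑ j ∈ Finset.Ico 1 u, (β j : ℝ) < 2 * A * C₂ * β u := by
    intro u hu
    obtain ⟨h4, h5⟩ := h2 u hu
    rw [mem_Ioc] at h4
    have h6 := (hP w (by omega)).trans (mul_le_mul_of_nonneg_left (sum_le_sum_of_subset_of_nonneg
      (Ico_subset_Ico_right h4.1) fun _ _ _ => Nat.cast_nonneg _) (by positivity))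
    have h7 := hc u (mem_Icc.2 ⟨by omega, h4.2⟩)
    have h8 : 2 * A * D ≤ ∑ j ∈ Finset.Ico 1 u, (β j : ℝ) :=
      le_of_mul_le_mul_left (by linarith) hA0
    have h9 := mul_le_mul_of_nonneg_left h5 hA0.le
    linarith
  obtain ⟨y, hy⟩ : ∃ y, y = 2 * A * C₂ := ⟨_, rfl⟩
  rw [← hy] at hB
  have hy1 : 1 ≤ y := by nlinarith
  have hG : ∀ u, w + 1 ≤ u → ∀ n : ℕ, (good.filter (· < u)).card = n →
      (w : ℝ) ^ 2 * (2 * y ^ 2 + 2 * n * y + (n ^ 2 - n)) ≤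
        2 * y ^ 2 * (648 * A * ∑ j ∈ Finset.Ico 1 u, (β j : ℝ)) := by
    intro u hu
    induction u, hu using Nat.le_induction with
    | base =>
      rintro _ rfl
      rw [filter_eq_empty_iff.2 fun j hj => by have := mem_Ioc.1 (h2 j hj).1; omega]
      have := mul_le_mul_of_nonneg_left (hP w (by omega)) (show 0 ≤ 2 * y ^ 2 by positivity)
      simp only [card_empty, Nat.cast_zero]
      linarith
    | succ u hu ih =>
      rintro _ rfl
      have h4 := ih _ rfl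
      rw [sum_Ico_succ_top (by omega)]
      by_cases h5 : u ∈ good
      · have h6 : good.filter (· < u + 1) = insert u (good.filter (· < u)) := by
          ext j
          simp only [mem_filter, mem_insert]
          exact ⟨fun h => (Nat.lt_succ_iff_lt_or_eq.1 h.2).symm.imp id fun h' => ⟨h.1, h'⟩,
            by rintro (rfl | h); exacts [⟨h5, by omega⟩, ⟨h.1, by omega⟩]⟩
        rw [h6, card_insert_of_notMem (by simp)]
        generalize (good.filter (· < u)).card = n at h4 ⊢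
        have h7 : (0 : ℝ) ≤ n ^ 2 - n := by
          have : (n : ℝ) ≤ n ^ 2 := by exact_mod_cast Nat.le_self_pow two_ne_zero n
          linarith
        have h8 := mul_le_mul_of_nonneg_left (hB u h5).le (show 0 ≤ 2 * y ^ 2 * (648 * A) by positivity)
        have h9 := mul_le_mul_of_nonneg_left h4 (show 0 ≤ y + 1 by linarith)
        have h10 := mul_nonneg (sq_nonneg (w : ℝ)) h7
        push_cast
        refine le_of_mul_le_mul_left ?_ (show 0 < y by linarith)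
        linarith
      · have h6 : good.filter (· < u + 1) = good.filter (· < u) := filter_congr fun j hj =>
          ⟨fun h => lt_of_le_of_ne (by omega) fun e => h5 (e ▸ hj), fun h => by omega⟩
        rw [h6]
        have : 0 ≤ 2 * y ^ 2 * (648 * A * β u) := by positivity
        linarith
  have hne : good.Nonempty := card_pos.1 hg0
  have hu := good.max'_mem hne
  have h4 := mem_Ioc.1 (h2 _ hu).1
  have h5 := h3 _ (mem_Icc.2 ⟨by omega, h4.2⟩)
  have h6 := hG _ h4.1 (good.card - 1) (by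
    rw [← card_erase_of_mem hu]
    exact congrArg _ (Finset.ext fun j => by
      rw [mem_filter, mem_erase]
      exact ⟨fun h => ⟨h.2.ne, h.1⟩, fun h => ⟨h.2, lt_of_le_of_ne (good.le_max' j h.2) h.1⟩⟩))
  rw [Nat.cast_pred hg0] at h6
  have h7 := mul_lt_mul_of_pos_left ((hB _ hu).trans_le (mul_le_mul_of_nonneg_left h5
    (by linarith))) (show 0 < 2 * y ^ 2 * (648 * A) by positivity)
  have h8 : (0 : ℝ) ≤ good.card - 1 := sub_nonneg.2 (by exact_mod_cast hg0)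
  have h9 := mul_nonneg (sq_nonneg (w : ℝ)) (add_nonneg (sq_nonneg y)
    (mul_nonneg h8 (show 0 ≤ 2 * y - 1 by linarith)))
  have h10 := mul_nonneg (sq_nonneg (w : ℝ)) (sq_nonneg y)
  have h11 : 2 * y ^ 2 * (648 * A) * (y * C₃) = 10368 * A ^ 4 * C₂ ^ 3 * C₃ := by
    rw [hy]
    ring
  have h12 := mul_nonneg (sq_nonneg (w : ℝ)) (sq_nonneg ((good.card : ℝ) - 1))
  linarith

end Pool.Agent.Work.MP_5cb0a4_pr.Z
end
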