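import Pool.Agent.Work.MP_5cb0a4_pr.Z.Paths
import Pool.Agent.Work.MP_5cb0a4_pr.Z.Ergo
import Pool.Agent.Work.MP_5cb0a4_pr.Z.Patch
import Pool.Agent.Work.MP_5cb0a4_pr.N.Gauge

-- merged part: Pool.Agent.Work.MP_5cb0a4_pr.Z.Mix
section
open MeasureTheory Finset MvPolynomial Filter Topology

namespace Pool.Agent.Work.MP_5cb0a4_pr.Z

theorem Mix.nonneg {Λ : Finset V} {w : (V → V) → ℂ} {β : ℝ} (h : Mix Λ w β) : 0 ≤ β := by
  induction h with
  | adm => exact zero_le_one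
  | smul a _ ih => exact mul_nonneg (norm_nonneg a) ih
  | add _ _ ih ih' => exact add_nonneg ih ih'
  | mono _ _ hle ih => exact ih.trans hle

lemma Mix_one (Λ : Finset V) :
    Mix Λ (wt Λ ∅ (fun _ => idM) fun _ => 1) 1 :=
  Mix.adm ∅ _ _ (empty_subset _) (by simp) (by simp) (by simp)

theorem Mix.sum {ι : Type} {Λ : Finset V} (s : Finset ι) (w : ι → (V → V) → ℂ) (β : ι → ℝ)
    (h : ∀ i ∈ s, Mix Λ (w i) (β i)) : Mix Λ (fun ρ => ∑ i ∈ s, w i ρ) (∑ i ∈ s, β i) := by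
  classical
  induction s using Finset.induction_on with
  | empty =>
    refine ((Mix_one Λ).smul 0).mono (fun ρ _ => by simp) (by simp)
  | insert a s ha ih =>
    have h1 := (h a (mem_insert_self a s)).add (ih fun i hi => h i (mem_insert_of_mem hi))
    exact h1.mono (fun ρ _ => by rw [sum_insert ha]) (by rw [sum_insert ha])

/-- Translation of an edge. -/
def Mix_te (c : V) (e : Edge) : Edge := (e.1 + c, e.2)

lemma Mix_te_neg (c : V) (e : Edge) : Mix_te (-c) (Mix_te c e) = e := by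
  simp [Mix_te]

lemma Mix_te_inj (c : V) : Function.Injective (Mix_te c) := fun e e' h => by
  rw [← Mix_te_neg c e, h, Mix_te_neg]

lemma Mix_src_te (c : V) (e : Edge) : src (Mix_te c e) = src e + c := rfl

lemma Mix_tgt_te (c : V) (e : Edge) : tgt (Mix_te c e) = tgt e + c := by
  simp only [tgt, Mix_te]
  abel

lemma Mix_edges_tr (c : V) (Λ : Finset V) : edges (tr c Λ) = (edges Λ).image (Mix_te c) := by
  ext e
  simp only [mem_image, mem_edges, mem_tr]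
  constructor
  · rintro ⟨h1, h2⟩
    refine ⟨Mix_te (-c) e, ⟨?_, ?_⟩, ?_⟩
    · rw [Mix_src_te, ← sub_eq_add_neg]; exact h1
    · rw [Mix_tgt_te, ← sub_eq_add_neg]; exact h2
    · simp [Mix_te]
  · rintro ⟨e', ⟨h1, h2⟩, rfl⟩
    rw [Mix_src_te, Mix_tgt_te]
    simpa using ⟨h1, h2⟩

lemma Mix_cX_shift (c : V) (D : Finset Edge) (M : Edge → Bool → Bool → ℂ) (X₀ : Finset V) :
    cX (D.image (Mix_te c)) (fun e => M (Mix_te (-c) e)) (tr c X₀) = cX D M X₀ := by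
  unfold cX tr
  rw [← coeff_sqf_rename (· + c) (add_left_injective c) X₀, prod_image
    fun e _ e' _ h => Mix_te_inj c h, map_prod]
  congr 1
  refine prod_congr rfl fun e _ => ?_
  simp only [Mix_te_neg, Mix_src_te, Mix_tgt_te, nE, map_add, map_mul, rename_C, rename_X]

lemma Mix_wt_shift (c : V) (Λ : Finset V) (D : Finset Edge) (M : Edge → Bool → Bool → ℂ)
    (t : Edge → ℂ) (ρ : V → V) :
    wt Λ D M t (sh (-c) ρ) = wt (tr c Λ) (D.image (Mix_te c)) (fun e => M (Mix_te (-c) e))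
      (fun e => t (Mix_te (-c) e)) ρ := by
  unfold wt
  have h1 : mon (tr c Λ) ρ = tr c (mon Λ (sh (-c) ρ)) := by
    rw [← mon_sh, sh_sh, add_neg_cancel, sh_zero]
  rw [h1, Mix_cX_shift, Mix_edges_tr, prod_image fun e _ e' _ h => Mix_te_inj c h]
  congr 1
  refine prod_congr rfl fun e _ => ?_
  simp only [Mix_te_neg, Mix_src_te, Mix_tgt_te, sh, sub_neg_eq_add]
  have : (ρ (src e + c) + -c = tgt e) ↔ (ρ (src e + c) = tgt e + c) := by
    rw [← sub_eq_add_neg, sub_eq_iff_eq_add]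
  simp only [this]

theorem Mix.shift {Λ : Finset V} {w : (V → V) → ℂ} {β : ℝ} (h : Mix Λ w β) (c : V) :
    Mix (tr c Λ) (fun ρ => w (sh (-c) ρ)) β := by
  induction h with
  | adm D M t hD hM ht ht1 =>
    refine (Mix.adm (Λ := tr c Λ) (D.image (Mix_te c)) (fun e => M (Mix_te (-c) e))
      (fun e => t (Mix_te (-c) e)) ?_ ?_ (fun e => ht _) ?_).mono
      (fun ρ _ => Mix_wt_shift c Λ D M t ρ) le_rfl
    · rw [Mix_edges_tr]
      exact image_subset_image hD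
    · intro e he
      obtain ⟨e', he', rfl⟩ := mem_image.1 he
      rw [Mix_te_neg]
      exact hM e' he'
    · intro e he
      obtain ⟨e', he', rfl⟩ := mem_image.1 he
      simp only [Mix_te_neg]
      exact ht1 e' he'
  | smul a _ ih => exact ih.smul a
  | add _ _ ih ih' => exact ih.add ih'
  | mono _ heq hle ih => exact ih.mono (fun ρ hρ => heq _ (isExt_sh hρ _)) hle

theorem mix_mon {Λ X : Finset V} (hX : ∀ x ∈ X, x ∈ Λ ∧ x + e0 ∈ Λ) :
    Mix Λ (fun ρ => if mon Λ ρ = X then 1 else 0) 1 := by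
  refine (Mix.adm (Λ := Λ) (X.image fun x => ((x, 0) : Edge))
    (fun _ i j => if i = true ∧ j = false then (1 : ℂ) else 0) (fun _ => 1) ?_
    (fun e _ => contr_unit true false) (by simp) (by simp)).mono (fun ρ _ => ?_) le_rfl
  · intro e he
    obtain ⟨x, hx, rfl⟩ := mem_image.1 he
    exact mem_edges.2 (hX x hx)
  · unfold wt
    rw [cX_unit]
    simp

lemma Mix_prod_exp (E : Finset Edge) (P : Edge → Prop) [DecidablePred P] (t : Edge → ℂ)
    (s : Edge → ℝ) (ε : ℝ) :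
    (∏ e ∈ E, if P e then t e else 1) *
        Complex.exp ((ε * ∑ e ∈ E, if P e then s e else 0 : ℝ) * Complex.I) =
      ∏ e ∈ E, if P e then t e * Complex.exp ((ε * s e : ℝ) * Complex.I) else 1 := by
  rw [mul_sum, Complex.ofReal_sum, sum_mul, Complex.exp_sum, ← prod_mul_distrib]
  refine prod_congr rfl fun e _ => ?_
  split_ifs <;> simp

lemma Mix_cos_eq (a b : ℝ) : ((Real.cos (a + b) : ℝ) : ℂ) =
    Complex.exp ((1 * a : ℝ) * Complex.I) / 2 * Complex.exp ((1 * b : ℝ) * Complex.I) +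
      Complex.exp ((-1 * a : ℝ) * Complex.I) / 2 * Complex.exp ((-1 * b : ℝ) * Complex.I) := by
  rw [Complex.ofReal_cos, Complex.cos, div_mul_eq_mul_div, div_mul_eq_mul_div, ← Complex.exp_add,
    ← Complex.exp_add, ← add_div]
  congr 2
  · congr 1; push_cast; ring
  · congr 1; push_cast; ring

lemma Mix_soft_aux {κ : Type} {Λ : Finset V} {D : Finset Edge} (hD : D ⊆ edges Λ)
    (M : Edge → Bool → Bool → ℂ) (hM : ∀ e ∈ D, Contr (M e)) (J : Finset κ) (c : κ → ℝ)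
    (s : κ → Edge → ℝ) (hs : ∀ j ∈ J, ∀ e ∈ D, s j e = 0) (t : Edge → ℂ) (ht : ∀ e, ‖t e‖ ≤ 1)
    (ht1 : ∀ e ∈ D, t e = 1) :
    Mix Λ (fun ρ => wt Λ D M t ρ * ∏ j ∈ J,
      ((Real.cos (c j + ∑ e ∈ edges Λ, if ρ (src e) = tgt e then s j e else 0) : ℝ) : ℂ)) 1 := by
  classical
  induction J using Finset.induction_on generalizing t with
  | empty => exact (Mix.adm D M t hD hM ht ht1).mono (fun ρ _ => by simp) le_rfl
  | insert j J hj ih =>
    have hs' : ∀ k ∈ J, ∀ e ∈ D, s k e = 0 := fun k hk => hs k (mem_insert_of_mem hk)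
    have key : ∀ ε : ℝ, Mix Λ (fun ρ => Complex.exp ((ε * c j : ℝ) * Complex.I) / 2 *
        (wt Λ D M (fun e => t e * Complex.exp ((ε * s j e : ℝ) * Complex.I)) ρ * ∏ j ∈ J,
          ((Real.cos (c j + ∑ e ∈ edges Λ, if ρ (src e) = tgt e then s j e else 0) : ℝ) : ℂ)))
        (1 / 2) := by
      intro ε
      have h1 := (ih hs' (fun e => t e * Complex.exp ((ε * s j e : ℝ) * Complex.I))
        (fun e => by rw [norm_mul, Complex.norm_exp_ofReal_mul_I, mul_one]; exact ht e)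
        (fun e he => by simp [ht1 e he, hs j (mem_insert_self j J) e he])).smul
        (Complex.exp ((ε * c j : ℝ) * Complex.I) / 2)
      refine h1.mono (fun ρ _ => rfl) (le_of_eq ?_)
      rw [norm_div, Complex.norm_exp_ofReal_mul_I]
      simp
    refine ((key 1).add (key (-1))).mono (fun ρ _ => ?_) (by norm_num)
    rw [prod_insert hj, Mix_cos_eq]
    unfold wt
    rw [← Mix_prod_exp (edges Λ) (fun e => ρ (src e) = tgt e) t (s j) 1,
      ← Mix_prod_exp (edges Λ) (fun e => ρ (src e) = tgt e) t (s j) (-1)]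
    ring

/-- Insertion multiplied by cosines of linear functionals of the edge occupations. -/
theorem mix_soft {κ : Type} {Λ : Finset V} {D : Finset Edge} (hD : D ⊆ edges Λ)
    (M : Edge → Bool → Bool → ℝ) (hM : ∀ e ∈ D, ContrR (M e)) (J : Finset κ) (c : κ → ℝ)
    (s : κ → Edge → ℝ) (hs : ∀ j ∈ J, ∀ e ∈ D, s j e = 0) :
    Mix Λ (fun ρ => ((cX D M (mon Λ ρ) * ∏ j ∈ J,
      Real.cos (c j + ∑ e ∈ edges Λ, if ρ (src e) = tgt e then s j e else 0) : ℝ) : ℂ)) 1 := by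
  have h := Mix_soft_aux hD (fun e i j => (M e i j : ℂ)) hM J c s hs (fun _ => 1) (by simp)
    (by simp)
  refine h.mono (fun ρ _ => ?_) le_rfl
  unfold wt
  rw [cX_ofReal]
  simp only [ite_self, prod_const_one, mul_one, Complex.ofReal_mul, Complex.ofReal_prod]

/-- Admissible product insertions. -/
def Mix_Adm (Λ : Finset V) (w : (V → V) → ℂ) : Prop :=
  ∃ (D : Finset Edge) (M : Edge → Bool → Bool → ℂ) (t : Edge → ℂ), D ⊆ edges Λ ∧
    (∀ e ∈ D, Contr (M e)) ∧ (∀ e, ‖t e‖ ≤ 1) ∧ (∀ e ∈ D, t e = 1) ∧ w = wt Λ D M t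

lemma Mix_lin (F : Finset (V → V)) (hF : ∀ ρ ∈ F, IsExt ρ) (Λ : Finset V) (r : (V → V) → ℂ)
    (K : ℝ) (hK : 0 ≤ K) (h : ∀ a, Mix_Adm Λ a → ‖∑ ρ ∈ F, a ρ * r ρ‖ ≤ K)
    {w : (V → V) → ℂ} {β : ℝ} (hw : Mix Λ w β) : ‖∑ ρ ∈ F, w ρ * r ρ‖ ≤ K * β := by
  induction hw with
  | adm D M t hD hM ht ht1 =>
    rw [mul_one]
    exact h _ ⟨D, M, t, hD, hM, ht, ht1, rfl⟩
  | smul a _ ih =>
    simp only [mul_assoc]
    rw [← mul_sum, norm_mul, mul_left_comm]
    exact mul_le_mul_of_nonneg_left ih (norm_nonneg a)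
  | add _ _ ih ih' =>
    simp only [add_mul]
    rw [sum_add_distrib, mul_add]
    exact (norm_add_le _ _).trans (add_le_add ih ih')
  | mono _ heq hle ih =>
    rw [sum_congr rfl fun ρ hρ => by rw [heq ρ (hF ρ hρ)]]
    exact ih.trans (mul_le_mul_of_nonneg_left hle hK)

lemma Mix_multi (F : Finset (V → V)) (hF : ∀ ρ ∈ F, IsExt ρ) (Λ : V → Finset V) (S : Finset V)
    (r : (V → V) → ℂ) (K : ℝ) (hK : 0 ≤ K)
    (h : ∀ a : V → (V → V) → ℂ, (∀ i ∈ S, Mix_Adm (Λ i) (a i)) →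
      ‖∑ ρ ∈ F, (∏ i ∈ S, a i ρ) * r ρ‖ ≤ K)
    (w : V → (V → V) → ℂ) (β : V → ℝ) (hw : ∀ i ∈ S, Mix (Λ i) (w i) (β i)) :
    ‖∑ ρ ∈ F, (∏ i ∈ S, w i ρ) * r ρ‖ ≤ K * ∏ i ∈ S, β i := by
  classical
  induction S using Finset.induction_on generalizing r K with
  | empty =>
    simp only [prod_empty, mul_one]
    simpa using h w (by simp)
  | insert j S hj ih =>
    have hj' := hw j (mem_insert_self j S)
    have h1 := ih (fun ρ => w j ρ * r ρ) (K * β j) (mul_nonneg hK hj'.nonneg) (fun a ha => by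
      have h2 := Mix_lin F hF (Λ j) (fun ρ => (∏ i ∈ S, a i ρ) * r ρ) K hK (fun v hv => by
        have h3 := h (Function.update a j v) (fun i hi => by
          rcases mem_insert.1 hi with rfl | hi
          · simpa using hv
          · rw [Function.update_of_ne (ne_of_mem_of_not_mem hi hj)]
            exact ha i hi)
        convert h3 using 3 with ρ _
        rw [prod_insert hj, Function.update_self, mul_assoc]
        congr 2
        exact prod_congr rfl fun i hi => by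
          rw [Function.update_of_ne (ne_of_mem_of_not_mem hi hj)]) hj'
      convert h2 using 3 with ρ _
      ring) (fun i hi => hw i (mem_insert_of_mem hi))
    rw [prod_insert hj, ← mul_assoc]
    convert h1 using 3 with ρ _
    rw [prod_insert hj]
    ring

lemma Mix_box_step {L : ℕ} (hL : 1 ≤ L) {ρ : V → V} (hρ : IsExt ρ) {x : V}
    (hx : x ∈ box (L - 1)) : ρ x ∈ box L := by
  rcases (hρ x).1 with h | h
  · rw [h]; exact box_mono (Nat.sub_le L 1) hx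
  · obtain ⟨d, hd⟩ := nbr_iff.1 h
    have := add_dv_mem_box hx d
    rwa [Nat.sub_add_cancel hL, ← hd] at this

lemma Mix_res_eq {L : ℕ} (hL : 1 ≤ L) {ρ : V → V} (hρ : IsExt ρ) {x : V}
    (hx : x ∈ box (L - 1)) : res (box L) ρ x = ρ x := by
  unfold res
  rw [if_pos ⟨box_mono (Nat.sub_le L 1) hx, Mix_box_step hL hρ hx⟩]

lemma Mix_free_eq {Λ : Finset V} {σ ρ : V → V} (hσ : IsExt σ) (hρ : ρ ∈ cls Λ σ) :
    free Λ ρ = free Λ σ := by
  obtain ⟨h1, h2⟩ := mem_cls.1 hρ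
  ext x
  simp only [mem_free]
  refine and_congr_right fun _ => ⟨fun h => ?_, fun h => ?_⟩
  · by_contra hn
    have h3 : ρ (σ x) = x := by rw [h2 _ hn, (hσ x).2]
    have h4 : ρ x = σ x := by
      have := (h1 (σ x)).2
      rwa [h3] at this
    exact hn (h4 ▸ h)
  · by_contra hn
    have h3 : σ (ρ x) = x := by rw [← h2 _ hn, (h1 x).2]
    have h4 : σ x = ρ x := by
      have := (hσ (ρ x)).2
      rwa [h3] at this
    exact hn (h4 ▸ h)

lemma Mix_mon_res {Λ : Finset V} {σ ρ : V → V} (hσ : IsExt σ) (hρ : ρ ∈ cls Λ σ) :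
    mon (free Λ σ) (res Λ ρ) = mon Λ ρ := by
  rw [← Mix_free_eq hσ hρ]
  ext x
  simp only [mem_mon, mem_free, res]
  constructor
  · rintro ⟨h1, h2⟩
    rw [if_pos h1] at h2
    exact ⟨h1.1, h2⟩
  · rintro ⟨h1, h2⟩
    have h3 : x ∈ Λ ∧ ρ x ∈ Λ := ⟨h1, by rw [h2]; exact h1⟩
    exact ⟨h3, by rw [if_pos h3, h2]⟩

lemma Mix_wt_congr {Λ : Finset V} (D : Finset Edge) (M : Edge → Bool → Bool → ℂ)
    (t : Edge → ℂ) {ρ ρ' : V → V} (h : ∀ x ∈ Λ, ρ x = ρ' x) : wt Λ D M t ρ = wt Λ D M t ρ' := by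
  unfold wt
  have h1 : mon Λ ρ = mon Λ ρ' := by
    ext x
    simp only [mem_mon]
    exact and_congr_right fun hx => by rw [h x hx]
  rw [h1]
  congr 1
  exact prod_congr rfl fun e he => by rw [h _ (mem_edges.1 he).1]

lemma Mix_edges_mono {Λ U : Finset V} (h : Λ ⊆ U) : edges Λ ⊆ edges U := fun _ he =>
  mem_edges.2 ⟨h (mem_edges.1 he).1, h (mem_edges.1 he).2⟩

lemma Mix_verts_sub {Λ : Finset V} {D : Finset Edge} (h : D ⊆ edges Λ) : verts D ⊆ Λ := by
  intro x hx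
  rcases mem_union.1 hx with hx | hx
  · obtain ⟨e, he, rfl⟩ := mem_image.1 hx
    exact (mem_edges.1 (h he)).1
  · obtain ⟨e, he, rfl⟩ := mem_image.1 hx
    exact (mem_edges.1 (h he)).2

lemma Mix_prod_congr {ι R : Type} [CommRing R] (I : Ideal R) (s : Finset ι) (a b : ι → R)
    (h : ∀ i ∈ s, a i - b i ∈ I) : ∏ i ∈ s, a i - ∏ i ∈ s, b i ∈ I := by
  rw [← Ideal.Quotient.eq, map_prod, map_prod]
  exact prod_congr rfl fun i hi => Ideal.Quotient.eq.2 (h i hi)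

/-- A sum over monomer-dimer configurations of `U` as a coefficient. -/
lemma Mix_sum_coeff (U : Finset V) (W : MvPolynomial V ℂ) (T : Edge → ℂ) :
    ∑ ρ ∈ cls U id, coeff (sqf (mon U ρ)) W *
        ∏ e ∈ edges U, (if ρ (src e) = tgt e then T e else 1) =
      coeff (sqf U) (W * ∏ e ∈ edges U, (1 + C (T e) * X (src e) * X (tgt e))) := by
  rw [coeff_sqf_mul, ← sum_fiberwise_of_maps_to (g := mon U) (t := U.powerset)
    fun ρ _ => mem_powerset.2 (filter_subset _ _)]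
  refine sum_congr rfl fun X₀ hX => ?_
  rw [coeff_dimer U X₀ (mem_powerset.1 hX), mul_sum]
  refine sum_congr rfl fun ρ hρ => ?_
  rw [(mem_filter.1 hρ).2]

/-- Gaussian domination for one insertion in a subset of a box. -/
lemma Mix_gd_one (L : ℕ) (hL : 1 ≤ L) (U : Finset V) (hU : U ⊆ box L) (D : Finset Edge)
    (hD : D ⊆ edges U) (M : Edge → Bool → Bool → ℂ) (hM : ∀ e ∈ D, Contr (M e)) (T : Edge → ℂ)
    (hT : ∀ e, ‖T e‖ ≤ 1) (hT1 : ∀ e ∈ D, T e = 1) :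
    ‖coeff (sqf U) ((∏ e ∈ D, nE (src e) (tgt e) (M e)) *
      ∏ e ∈ edges U, (1 + C (T e) * X (src e) * X (tgt e)))‖ ≤ Zs L := by
  have h := boxGD L hL U hU
    (fun e => if e ∈ D then M e else fun i j => if i = j then (if i = true then T e else 1) else 0)
    (fun e _ => by
      split_ifs with he
      · exact hM e he
      · exact contr_diag (hT e))
  refine le_of_eq_of_le ?_ h
  congr 1
  symm
  apply coeff_sqf_congr
  have h1 : ∏ e ∈ D, nE (src e) (tgt e) (M e) =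
      ∏ e ∈ edges U, if e ∈ D then nE (src e) (tgt e) (M e) else 1 := by
    rw [← prod_filter, filter_mem_eq_inter, inter_eq_right.2 hD]
  rw [h1, ← prod_mul_distrib]
  refine Mix_prod_congr _ _ _ _ fun e _ => ?_
  by_cases he : e ∈ D
  · simp only [if_pos he, hT1 e he, map_one, one_mul]
    exact mE_sub_nE_mul _ _ _
  · simp only [if_neg he, one_mul]
    have : mE (src e) (tgt e) (fun i j => if i = j then (if i = true then T e else 1) else 0) =
        1 + C (T e) * X (src e) * X (tgt e) := by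
      simp [mE]
    rw [this, sub_self]
    exact Ideal.zero_mem _

lemma Mix_gd_adm (L : ℕ) (hL : 1 ≤ L) {σ : V → V} (hσ : IsExt σ) (S : Finset V)
    (Λ : V → Finset V) (hsub : ∀ i ∈ S, Λ i ⊆ box (L - 1))
    (hdisj : ∀ i ∈ S, ∀ j ∈ S, i ≠ j → Disjoint (Λ i) (Λ j))
    (a : V → (V → V) → ℂ) (ha : ∀ i ∈ S, Mix_Adm (Λ i) (a i)) :
    ‖∑ ρ ∈ (cls (box L) σ).filter (fun ρ => mon (box L) ρ ⊆ S.biUnion Λ), ∏ i ∈ S, a i ρ‖ ≤
      Zs L := by
  classical
  choose! D M t hD hM ht ht1 hw using ha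
  set U := free (box L) σ with hUdef
  have hU : U ⊆ box L := filter_subset _ _
  have hΛU : ∀ i ∈ S, Λ i ⊆ U := fun i hi x hx =>
    mem_free.2 ⟨box_mono (Nat.sub_le L 1) (hsub i hi hx), Mix_box_step hL hσ (hsub i hi hx)⟩
  have hed : ∀ i ∈ S, ∀ j ∈ S, ∀ e ∈ edges (Λ i), e ∈ edges (Λ j) → i = j := by
    intro i hi j hj e h1 h2
    by_contra hne
    exact disjoint_left.1 (hdisj i hi j hj hne) (mem_edges.1 h1).1 (mem_edges.1 h2).1
  let T : Edge → ℂ := fun e => ∏ i ∈ S, if e ∈ edges (Λ i) then t i e else 1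
  have hex : ∀ e ∈ S.biUnion D, ∃ i, i ∈ S ∧ e ∈ D i := fun e he => mem_biUnion.1 he
  choose! k hk1 hk2 using hex
  have hk : ∀ i ∈ S, ∀ e ∈ D i, k e = i := fun i hi e he =>
    hed _ (hk1 e (mem_biUnion.2 ⟨i, hi, he⟩)) i hi e
      (hD _ (hk1 e (mem_biUnion.2 ⟨i, hi, he⟩)) (hk2 e (mem_biUnion.2 ⟨i, hi, he⟩))) (hD i hi he)
  have hW : ∏ e ∈ S.biUnion D, nE (src e) (tgt e) (M (k e) e) =
      ∏ i ∈ S, ∏ e ∈ D i, nE (src e) (tgt e) (M i e) := by
    rw [prod_biUnion]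
    · exact prod_congr rfl fun i hi => prod_congr rfl fun e he => by rw [hk i hi e he]
    · intro i hi j hj hne
      exact disjoint_left.2 fun e h1 h2 => hne (hed i hi j hj e (hD i hi h1) (hD j hj h2))
  have hmain := Mix_gd_one L hL U hU (S.biUnion D)
    (fun e he => Mix_edges_mono (hΛU _ (hk1 e he)) (hD _ (hk1 e he) (hk2 e he)))
    (fun e => M (k e) e) (fun e he => hM _ (hk1 e he) e (hk2 e he)) T
    (fun e => by
      rw [norm_prod]
      refine prod_le_one (fun _ _ => norm_nonneg _) fun i hi => ?_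
      split_ifs
      · exact ht i hi e
      · simp)
    (fun e he => by
      refine prod_eq_one fun i hi => ?_
      split_ifs with h
      · have h1 := hed i hi _ (hk1 e he) e h (hD _ (hk1 e he) (hk2 e he))
        exact ht1 i hi e (h1 ▸ hk2 e he)
      · rfl)
  rw [← Mix_sum_coeff, hW, ← sum_cls_free (box L) hσ] at hmain
  refine le_of_eq_of_le ?_ hmain
  congr 1
  rw [sum_filter]
  refine sum_congr rfl fun ρ hρ => ?_
  have hρ1 := (mem_cls.1 hρ).1
  rw [coeff_sqf_prod_disj S Λ _ hdisj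
    (fun i hi => (vars_prod_nE _ _).trans (Mix_verts_sub (hD i hi))), Mix_mon_res hσ hρ]
  split_ifs with hc
  · have h1 : ∏ e ∈ edges U, (if res (box L) ρ (src e) = tgt e then T e else 1) =
        ∏ i ∈ S, ∏ e ∈ edges (Λ i), if ρ (src e) = tgt e then t i e else 1 := by
      have h2 : ∀ e ∈ edges U, (if res (box L) ρ (src e) = tgt e then T e else 1) =
          ∏ i ∈ S, if e ∈ edges (Λ i) then (if ρ (src e) = tgt e then t i e else 1) else 1 := by
        intro e _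
        by_cases h3 : res (box L) ρ (src e) = tgt e
        · rw [if_pos h3]
          refine prod_congr rfl fun i hi => ?_
          by_cases h4 : e ∈ edges (Λ i)
          · rw [Mix_res_eq hL hρ1 (hsub i hi (mem_edges.1 h4).1)] at h3
            simp only [if_pos h4, if_pos h3]
          · simp only [if_neg h4]
        · rw [if_neg h3]
          refine (prod_eq_one fun i hi => ?_).symm
          by_cases h4 : e ∈ edges (Λ i)
          · rw [Mix_res_eq hL hρ1 (hsub i hi (mem_edges.1 h4).1)] at h3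
            simp only [if_pos h4, if_neg h3]
          · simp only [if_neg h4]
      rw [prod_congr rfl h2, Finset.prod_comm]
      refine prod_congr rfl fun i hi => ?_
      rw [← prod_filter, filter_mem_eq_inter, inter_eq_right.2 (Mix_edges_mono (hΛU i hi))]
    rw [h1, ← prod_mul_distrib]
    refine prod_congr rfl fun i hi => ?_
    rw [hw i hi]
    unfold wt cX
    have h5 : mon (Λ i) ρ = mon (box L) ρ ∩ Λ i := by
      ext x
      simp only [mem_mon, mem_inter]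
      exact ⟨fun h => ⟨⟨hU (hΛU i hi h.1), h.2⟩, h.1⟩, fun h => ⟨h.2, h.1.2⟩⟩
    rw [h5]
  · rw [zero_mul]

/-- Gaussian domination for mixtures in disjoint sub-boxes. -/
theorem gd_mix (L : ℕ) (hL : 1 ≤ L) {σ : V → V} (hσ : IsExt σ) (S : Finset V)
    (Λ : V → Finset V) (hsub : ∀ i ∈ S, Λ i ⊆ box (L - 1))
    (hdisj : ∀ i ∈ S, ∀ j ∈ S, i ≠ j → Disjoint (Λ i) (Λ j))
    (w : V → (V → V) → ℂ) (β : V → ℝ) (hw : ∀ i ∈ S, Mix (Λ i) (w i) (β i)) :
    ‖∑ ρ ∈ (cls (box L) σ).filter (fun ρ => mon (box L) ρ ⊆ S.biUnion Λ), ∏ i ∈ S, w i ρ‖ ≤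
      Zs L * ∏ i ∈ S, β i := by
  have hZ : 0 ≤ Zs L := by unfold Zs; positivity
  have h := Mix_multi ((cls (box L) σ).filter (fun ρ => mon (box L) ρ ⊆ S.biUnion Λ))
    (fun ρ hρ => (mem_cls.1 (mem_filter.1 hρ).1).1) Λ S (fun _ => 1) (Zs L) hZ
    (fun a ha => by
      simp only [mul_one]
      exact Mix_gd_adm L hL hσ S Λ hsub hdisj a ha) w β hw
  simpa only [mul_one] using h

end Pool.Agent.Work.MP_5cb0a4_pr.Z
end

-- merged part: Pool.Agent.Work.MP_5cb0a4_pr.Z.Cells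
section
open MeasureTheory Finset MvPolynomial Filter Topology

namespace Pool.Agent.Work.MP_5cb0a4_pr.Z

theorem Cells_per {τ : V → V} {v : V} (h : ∀ x, τ (x + v) = τ x + v) (t : ℤ) (x : V) :
    τ (x + t • v) = τ x + t • v := by
  induction t using Int.induction_on with
  | zero => simp
  | succ t ih => rw [add_smul, one_smul, ← add_assoc, h, ih, add_assoc]
  | pred t ih =>
    refine add_right_cancel (b := v) ?_
    rw [← h, sub_smul, one_smul, add_assoc, add_assoc, sub_add_cancel, ih]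

theorem Cells_tr {τ : V → V} {v x : V} (h : τ (x + v) = τ x + v) (hv : IsEven v) (d : Dir) :
    fl τ (x + v) (x + v + dv d) = fl τ x (x + dv d) := by
  simp only [fl, sg, h, isEven_add, hv, iff_true, add_right_comm x v, add_left_inj]

theorem Cells_refl {τ : V → V} {j : Fin 3} {x : V} {d : Dir} (hj : j ≠ d.1)
    (h : τ (Function.update x j (-1 - x j)) = Function.update (τ x) j (-1 - τ x j)) :
    fl τ (Function.update x j (-1 - x j)) (Function.update x j (-1 - x j) + dv d) =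
      -fl τ x (x + dv d) := by
  have h0 : dv d j = 0 := Pi.single_eq_of_ne hj _
  have h1 : IsEven (Function.update x j (-1 - x j)) ↔ ¬ IsEven x := by
    rw [IsEven, IsEven, sum_update_of_mem (mem_univ j), ← add_sum_erase _ _ (mem_univ j),
      sdiff_singleton_eq_erase, Int.not_even_iff_odd, Int.even_iff, Int.odd_iff]
    omega
  have h2 : Function.update (τ x) j (-1 - τ x j) = Function.update x j (-1 - x j) + dv d ↔
      τ x = x + dv d := by
    simp only [funext_iff]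
    refine forall_congr' fun i => ?_
    rcases eq_or_ne i j with rfl | e
    · simp only [Function.update_self, Pi.add_apply, h0]
      omega
    · simp only [Function.update_of_ne e, Pi.add_apply]
  simp only [fl, sg, h, h1, h2]
  split_ifs <;> ring

/-- A configuration commuting with the reflections `x_j ↦ -1 - x_j` and the translations by
`2 m e_j` has zero flux through every square whose side is a multiple of `2 m`. -/
theorem FQ_zero_of_symm (τ : Dimer) {m l : ℕ} (hm : 1 ≤ m) (hl : 2 * m ∣ l)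
    (hr : ∀ (j : Fin 3) (x : V), τ.1 (Function.update x j (-1 - x j)) =
      Function.update (τ.1 x) j (-1 - τ.1 x j))
    (hp : ∀ (j : Fin 3) (x : V), τ.1 (x + Pi.single j (2 * m : ℤ)) =
      τ.1 x + Pi.single j (2 * m : ℤ)) (d : Dir) (c : V) : FQ τ.1 d c l = 0 := by
  obtain ⟨j, hj⟩ := exists_ne d.1
  obtain ⟨k, hk⟩ : 2 * (m : ℤ) ∣ l := by exact_mod_cast hl
  have key : ∀ x : V, fl τ.1 x (x + dv d) + fl τ.1 (Function.update x j (c j + (-1 - x j - c j) % l))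
      (Function.update x j (c j + (-1 - x j - c j) % l) + dv d) = 0 := fun x => by
    have e : Function.update x j (c j + (-1 - x j - c j) % l) = Function.update x j (-1 - x j) +
        (-(k * ((-1 - x j - c j) / l))) • (Pi.single j (2 * m : ℤ) : V) := by
      funext i
      rcases eq_or_ne i j with rfl | e
      · simp only [Function.update_self, Pi.add_apply, Pi.smul_apply, Pi.single_eq_same,
          smul_eq_mul, Int.emod_def]
        linear_combination (-((-1 - x i - c i) / l)) * hk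
      · simp [e]
    rw [e, Cells_tr (Cells_per (hp j) _ _), Cells_refl hj (hr j x), add_neg_cancel]
    simp only [IsEven, Pi.smul_apply, smul_eq_mul, ← mul_sum, sum_pi_single', mem_univ, if_true]
    exact Even.mul_left (even_two_mul _) _
  refine sum_involution (fun x _ => Function.update x j (c j + (-1 - x j - c j) % l))
    (fun x _ => key x) (fun x _ h e => h ?_) (fun x hx => ?_) fun x hx => ?_
  · have := key x
    rw [e] at this
    linarith only [this]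
  · obtain ⟨h1, h2⟩ := mem_sq.1 hx
    refine mem_sq.2 ⟨(Function.update_of_ne hj.symm _ _).trans h1, fun i hi => ?_⟩
    rcases eq_or_ne i j with rfl | e
    · have h3 := h2 i hi
      have h4 := Int.emod_nonneg (-1 - x i - c i) (b := l) (by omega)
      have h5 := Int.emod_lt_of_pos (-1 - x i - c i) (b := l) (by omega)
      rw [Function.update_self]
      omega
    · rw [Function.update_of_ne e]
      exact h2 i hi
  · have h3 := (mem_sq.1 hx).2 j hj
    have h4 : (-1 - (c j + (-1 - x j - c j) % l) - c j) % l = x j - c j :=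
      ((Int.ediv_emod_unique (q := (-1 - x j - c j) / l) (by omega)).2
        ⟨by rw [Int.emod_def]; ring, by omega, by omega⟩).2
    rw [Function.update_idem, Function.update_self, h4, add_sub_cancel, Function.update_eq_self]

/-- position `x` of the cell `q`, reflected when `q` is odd -/
def Cells_r (m q x : ℤ) : ℤ := m * q + if Even q then x else m - 1 - x

/-- position `x` of the cell `q` -/
def Cells_R (m : ℕ) (q x : V) : V := fun i => Cells_r m (q i) (x i)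

/-- the cell of a point -/
def Cells_Q (m : ℕ) (w : V) : V := fun i => w i / m

/-- the position of a point in its cell -/
def Cells_X (m : ℕ) (w : V) : V := fun i => if Even (w i / m) then w i % m else m - 1 - w i % m

/-- the configuration with the pattern `π q` in the cell `q` -/
def Cells_S (m : ℕ) (U : Finset V) (D : V → Dir) (π : V → V → V) (w : V) : V :=
  Cells_R m (Cells_Q m w)
    (if Cells_X m w ∈ U then π (Cells_Q m w) (Cells_X m w) else Cells_X m w + dv (D (Cells_X m w)))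

section

variable {m : ℕ} {U : Finset V} {D : V → Dir} {π : V → V → V}

theorem Cells_sub (q x y : V) (i : Fin 3) : |Cells_R m q x i - Cells_R m q y i| = |x i - y i| := by
  unfold Cells_R Cells_r
  split_ifs
  · rw [add_sub_add_left_eq_sub]
  · rw [abs_sub_comm]
    congr 1
    ring

theorem Cells_nbr {q x y : V} (h : Nbr x y) : Nbr (Cells_R m q x) (Cells_R m q y) :=
  (sum_congr rfl fun i _ => Cells_sub q x y i).trans h

theorem Cells_inj {q x y : V} (h : Cells_R m q x = Cells_R m q y) : x = y := funext fun i => by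
  have := Cells_sub (m := m) q x y i
  rw [h, sub_self, abs_zero] at this
  exact sub_eq_zero.1 (abs_eq_zero.1 this.symm)

theorem Cells_surj (hm : 1 ≤ m) (w : V) : ∃ q, ∃ x ∈ cube m, w = Cells_R m q x := by
  refine ⟨Cells_Q m w, Cells_X m w, mem_cube.2 fun i => ?_, funext fun i => ?_⟩
  · have h4 := Int.emod_nonneg (w i) (b := m) (by omega)
    have h5 := Int.emod_lt_of_pos (w i) (b := m) (by omega)
    unfold Cells_X
    split_ifs <;> omega
  · unfold Cells_R Cells_r Cells_Q Cells_X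
    split_ifs <;> linarith only [Int.mul_ediv_add_emod (w i) m]

theorem Cells_div {q x : V} (hx : x ∈ cube m) (i : Fin 3) : Cells_R m q x i / m = q i ∧
    Cells_R m q x i % m = if Even (q i) then x i else m - 1 - x i := by
  have := mem_cube.1 hx i
  refine (Int.ediv_emod_unique (by omega)).2 ⟨add_comm _ _, ?_⟩
  split_ifs <;> omega

theorem Cells_QR {q x : V} (hx : x ∈ cube m) : Cells_Q m (Cells_R m q x) = q :=
  funext fun i => (Cells_div hx i).1

theorem Cells_SR {q x : V} (hx : x ∈ cube m) : Cells_S m U D π (Cells_R m q x) =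
    Cells_R m q (if x ∈ U then π q x else x + dv (D x)) := by
  have h : Cells_X m (Cells_R m q x) = x := funext fun i => by
    rw [Cells_X, (Cells_div hx i).1, (Cells_div hx i).2]
    split_ifs <;> ring
  rw [Cells_S, Cells_QR hx, h]

theorem Cells_flip (q : V) {x : V} {d : Dir} (hx : x ∈ cube m) (hd : x + dv d ∉ cube m) :
    ∃ q', Cells_R m q (x + dv d) = Cells_R m q' x ∧ Cells_R m q' (x + dv d) = Cells_R m q x := by
  have key : ∀ i, ∃ p, Cells_r m (q i) ((x + dv d) i) = Cells_r m p (x i) ∧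
      Cells_r m p ((x + dv d) i) = Cells_r m (q i) (x i) := fun i => by
    have h0 : ∀ i, i ≠ d.1 → (x + dv d) i = x i := fun i hi =>
      (congrArg (x i + ·) (Pi.single_eq_of_ne hi _)).trans (add_zero _)
    rcases eq_or_ne i d.1 with rfl | e
    swap
    · exact ⟨q i, by rw [h0 i e], by rw [h0 i e]⟩
    have h1 := mem_cube.1 hx d.1
    have h2 : ¬ (0 ≤ (x + dv d) d.1 ∧ (x + dv d) d.1 < m) := fun h => hd (mem_cube.2 fun i => by
      rcases eq_or_ne i d.1 with rfl | e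
      · exact h
      · rw [h0 i e]
        exact mem_cube.1 hx i)
    have h3 : (x + dv d) d.1 = x d.1 + 1 ∨ (x + dv d) d.1 = x d.1 - 1 := by
      simp only [Pi.add_apply, dv, Pi.single_eq_same]
      split_ifs <;> omega
    have h4 : (x d.1 = 0 ∧ (x + dv d) d.1 = -1) ∨ (x d.1 = m - 1 ∧ (x + dv d) d.1 = m) := by omega
    by_cases h : Even (q d.1) <;> rcases h4 with ⟨a, b⟩ | ⟨a, b⟩ <;> rw [a, b] <;>
      [use q d.1 - 1; use q d.1 + 1; use q d.1 + 1; use q d.1 - 1] <;>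
      simp only [Cells_r, Int.even_sub_one, Int.even_add_one, h, not_true, not_false_iff, if_true,
        if_false] <;> constructor <;> ring
  choose p h1 h2 using key
  exact ⟨p, funext h1, funext h2⟩

theorem Cells_dimer (hm : 1 ≤ m) (hU : U ⊆ cube m) (hD : ∀ x ∈ cube m, x ∉ U → x + dv (D x) ∉ cube m)
    (hπ : ∀ q, π q ∈ perf U id) (w : V) :
    Nbr w (Cells_S m U D π w) ∧ Cells_S m U D π (Cells_S m U D π w) = w := by
  obtain ⟨q, x, hx, rfl⟩ := Cells_surj hm w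
  obtain ⟨⟨h1, h2⟩, h3⟩ := mem_perf.1 (hπ q)
  rw [Cells_SR hx]
  split_ifs with h
  · have h4 : π q x ∈ U := by_contra fun e => h3 x h ((h2 _ e).symm.trans (h1 x).2)
    exact ⟨Cells_nbr ((h1 x).1.resolve_left (h3 x h)), by rw [Cells_SR (hU h4), if_pos h4, (h1 x).2]⟩
  · obtain ⟨p, e1, e2⟩ := Cells_flip q hx (hD x hx h)
    exact ⟨Cells_nbr (nbr_iff.2 ⟨_, rfl⟩), by rw [e1, Cells_SR hx, if_neg h, e2]⟩

theorem Cells_zero (hm : 1 ≤ m) (τ : Dimer) {ρ : V → V} (h : τ.1 = Cells_S m U D fun _ => ρ) (l : ℕ)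
    (hl : 2 * m ∣ l) (d : Dir) (c : V) : FQ τ.1 d c l = 0 := by
  have h1 : ∀ (j : Fin 3) (q y : V), Function.update (Cells_R m q y) j (-1 - Cells_R m q y j) =
      Cells_R m (Function.update q j (-1 - q j)) y := fun j q y => funext fun i => by
    rcases eq_or_ne i j with rfl | e
    · have : Even (-1 - q i) ↔ ¬ Even (q i) := by
        rw [Int.not_even_iff_odd, Int.even_iff, Int.odd_iff]
        omega
      simp only [Function.update_self, Cells_R, Cells_r, this]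
      by_cases h : Even (q i) <;> simp only [h, not_true, not_false_iff, if_true, if_false] <;> ring
    · simp only [Function.update_of_ne e, Cells_R]
  have h2 : ∀ (j : Fin 3) (q y : V), Cells_R m q y + Pi.single j (2 * m : ℤ) =
      Cells_R m (q + Pi.single j 2) y := fun j q y => funext fun i => by
    rcases eq_or_ne i j with rfl | e
    · simp only [Pi.add_apply, Pi.single_eq_same, Cells_R, Cells_r, Int.even_add, even_two,
        iff_true]
      ring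
    · simp only [Pi.add_apply, Pi.single_eq_of_ne e, add_zero, Cells_R]
  refine FQ_zero_of_symm τ hm hl (fun j w => ?_) (fun j w => ?_) d c
  · obtain ⟨q, x, hx, rfl⟩ := Cells_surj hm w
    rw [h, h1, Cells_SR hx, Cells_SR hx, h1]
  · obtain ⟨q, x, hx, rfl⟩ := Cells_surj hm w
    rw [h, h2, Cells_SR hx, Cells_SR hx, h2]

end

theorem Cells_glue {A : V → Prop} [DecidablePred A] {ρ : V → V} (hρ : IsExt ρ) (τ τ' : Dimer)
    (h1 : ∀ w, ¬ A w → τ.1 w = τ'.1 w) (h2 : ∀ w, A w → ρ w = τ'.1 w) :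
    IsExt fun w => if A w then τ.1 w else ρ w := fun w => by
  by_cases h : A w <;> simp only [h, if_true, if_false]
  · refine ⟨Or.inr (τ.2 w).1, ?_⟩
    split_ifs with e
    · exact (τ.2 w).2
    · have h3 : τ'.1 (τ.1 w) = w := (h1 _ e).symm.trans (τ.2 w).2
      have h4 : ρ w = τ.1 w := by rw [h2 w h, ← (τ'.2 (τ.1 w)).2, h3]
      rw [← h4, (hρ w).2]
  · refine ⟨(hρ w).1, ?_⟩
    split_ifs with e
    · have h3 : τ'.1 (ρ w) = w := (h2 _ e).symm.trans (hρ w).2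
      have h4 : τ.1 w = ρ w := by rw [h1 w h, ← (τ'.2 (ρ w)).2, h3]
      rw [← h4, (τ.2 w).2]
    · exact (hρ w).2

theorem exists_columnar : ∃ τ' : Dimer, ∀ l : ℕ, 2 ∣ l → ∀ d c, FQ τ'.1 d c l = 0 := by
  refine ⟨⟨Cells_S 1 ∅ (fun _ => (0, true)) fun _ => id, Cells_dimer le_rfl (empty_subset _)
    (fun x hx _ h => ?_) fun _ => mem_perf.2 ⟨⟨isExt_id, fun _ _ => rfl⟩, by simp⟩⟩,
    fun l hl => Cells_zero (U := ∅) (D := fun _ => (0, true)) (ρ := id) le_rfl _ rfl l hl⟩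
  have h1 := mem_cube.1 hx 0
  have h2 := mem_cube.1 h 0
  simp only [Pi.add_apply, dv, Pi.single_eq_same, if_true] at h2
  omega

/-- A periodic configuration with many independent fillings of the cells. -/
theorem exists_cells {m : ℕ} (hm : 1 ≤ m) (hz : 0 < zc m) : ∃ τ' : Dimer,
    (∀ l : ℕ, 2 * m ∣ l → ∀ d c, FQ τ'.1 d c l = 0) ∧
    ∀ (Λ : Finset V) (σ ρ : V → V) (a : ℕ), ρ ∈ perf Λ σ → box a ⊆ Λ →
      (∀ x ∈ box a, ρ x = τ'.1 x) → zc m ^ ((2 * (a / m)) ^ 3) ≤ zz Λ σ := by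
  classical
  obtain ⟨U, hU, e⟩ := exists_mem_eq_sup ((cube m).powerset.filter fun U => inner m ⊆ U)
    ⟨cube m, mem_filter.2 ⟨mem_powerset_self _, fun x hx => mem_cube.2 fun i => by
      have := mem_inner.1 hx i
      omega⟩⟩ fun U => zz U id
  rw [zc, e] at hz ⊢
  obtain ⟨hU, hI⟩ := mem_filter.1 hU
  rw [mem_powerset] at hU
  have hD : ∀ x, ∃ d : Dir, x ∈ cube m → x ∉ U → x + dv d ∉ cube m := fun x => by
    by_cases h : x ∈ inner m
    · exact ⟨(0, true), fun _ e => absurd (hI h) e⟩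
    obtain ⟨i, hi⟩ := not_forall.1 (mt mem_inner.2 h)
    refine ⟨(i, decide (1 ≤ x i)), fun _ _ h2 => ?_⟩
    have h3 := mem_cube.1 h2 i
    simp only [Pi.add_apply, dv, Pi.single_eq_same, decide_eq_true_eq] at h3
    split_ifs at h3 <;> omega
  choose D hD using hD
  obtain ⟨π0, h0⟩ := card_pos.1 hz
  let τ' : Dimer := ⟨Cells_S m U D fun _ => π0, Cells_dimer hm hU hD fun _ => h0⟩
  refine ⟨τ', Cells_zero hm τ' rfl, fun Λ σ ρ a hρ ha h => ?_⟩
  obtain ⟨⟨r1, r2⟩, r3⟩ := mem_perf.1 hρ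
  let C : Finset V := Fintype.piFinset fun _ => Finset.Ico (-((a / m : ℕ) : ℤ)) (a / m : ℕ)
  have hC : C.card = (2 * (a / m)) ^ 3 := by
    rw [Fintype.card_piFinset]
    simp only [Int.card_Ico, prod_const, card_univ, Fintype.card_fin]
    congr 1
    omega
  have hb : ∀ w, Cells_Q m w ∈ C → w ∈ box a := fun w hw => mem_box.2 fun i => by
    obtain ⟨h1, h2⟩ := Finset.mem_Ico.1 (Fintype.mem_piFinset.1 hw i)
    have h3 := (Int.le_ediv_iff_mul_le (by omega)).1 h1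
    have h4 := (Int.ediv_lt_iff_lt_mul (by omega)).1 h2
    have h5 : ((a / m : ℕ) : ℤ) * m ≤ a := by exact_mod_cast Nat.div_mul_le_self a m
    constructor <;> linarith only [h3, h5, h4]
  let π : (∀ q ∈ C, V → V) → V → V → V := fun g q => if h : q ∈ C then g q h else π0
  rw [← hC, zz, ← prod_const, ← card_pi]
  refine card_le_card_of_injOn
    (fun g w => if Cells_Q m w ∈ C then Cells_S m U D (π g) w else ρ w) (fun g hg => ?_)
    fun g hg g' hg' e => ?_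
  · have h1 : ∀ q, π g q ∈ perf U id := fun q => by
      by_cases e : q ∈ C
      · simpa only [π, dif_pos e] using mem_pi.1 hg q e
      · simpa only [π, dif_neg e] using h0
    have h2 := Cells_dimer hm hU hD h1
    refine mem_perf.2 ⟨⟨Cells_glue r1 ⟨_, h2⟩ τ' (fun w hw => ?_) fun w hw => h w (hb w hw),
      fun w hw => (if_neg fun e => hw (ha (hb w e))).trans (r2 w hw)⟩, fun w hw => ?_⟩
    · simp only [τ', Cells_S, π, dif_neg hw]
    · beta_reduce
      split_ifs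
      · intro e
        have := (h2 w).1
        rw [e] at this
        simp [Nbr] at this
      · exact r3 w hw
  · funext q hq x
    by_cases hx : x ∈ U
    · have h1 := congrFun e (Cells_R m q x)
      simp only [Cells_QR (hU hx), if_pos hq, Cells_SR (hU hx), if_pos hx, π, dif_pos hq] at h1
      exact Cells_inj h1
    · exact ((mem_perf.1 (mem_pi.1 hg q hq)).1.2 x hx).trans
        ((mem_perf.1 (mem_pi.1 hg' q hq)).1.2 x hx).symm

end Pool.Agent.Work.MP_5cb0a4_pr.Z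
end

-- merged part: Pool.Agent.Work.MP_5cb0a4_pr.Z.LPdet
section
open MeasureTheory Finset MvPolynomial Filter Topology

namespace Pool.Agent.Work.MP_5cb0a4_pr.Z

theorem LPdet_zc (m : ℕ) : zc m ≤ 7 ^ m ^ 3 := by
  refine Finset.sup_le fun U hU => ?_
  have h1 : U.card ≤ m ^ 3 := by
    refine (card_le_card (mem_powerset.1 (mem_filter.1 hU).1)).trans (le_of_eq ?_)
    simp [cube, Fintype.card_piFinset]
  exact (card_filter_le _ _).trans ((card_cls_le U id).trans (Nat.pow_le_pow_right (by norm_num) h1))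

theorem LPdet_pow (n : ℕ) : (2 : ℝ) ^ n ≤ Real.exp n := by
  rw [← Real.exp_one_pow]
  exact pow_le_pow_left₀ zero_le_two (by linarith [Real.add_one_le_exp 1]) n

theorem LPdet_pow7 (n : ℕ) : (7 : ℝ) ^ n ≤ Real.exp (2 * n) := by
  rw [mul_comm, Real.exp_nat_mul]
  refine pow_le_pow_left₀ (by norm_num) ?_ n
  rw [show (2 : ℝ) = 1 + 1 by norm_num, Real.exp_add]
  linarith only [Real.exp_one_gt_d9, mul_pos_of_neg_of_neg (Mathlib.Tactic.Linarith.sub_neg_of_lt Real.exp_one_gt_d9) (Mathlib.Tactic.Linarith.sub_neg_of_lt Real.exp_one_gt_d9)]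

theorem LPdet_cube {x y : ℝ} (hy : 0 ≤ y) (h : y ≤ x) : x ^ 3 - y ^ 3 ≤ 3 * x ^ 2 * (x - y) := by
  linarith only [hy, h, mul_nonneg (sq_nonneg (x - y)) (add_nonneg (hy.trans h) (add_nonneg (hy.trans h) hy)), sq_nonneg (x - y)]

theorem LPdet_arith {ε L M q r w : ℝ} (hM : 8 ≤ M) (hε : 3000 ≤ ε * M) (hL : M ^ 2 ≤ L)
    (hq : 0 ≤ q) (hr : 0 ≤ r) (_hw : 0 ≤ w) (w1 : M * w ≤ L) (q1 : 2 * M * q ≤ 2 * L + 2)
    (q2 : 2 * L + 2 ≤ 2 * M * (q + 1)) (q6 : L ≤ 2 * M * (r + 1) + 4 * w) (q5 : 2 * r ≤ q) :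
    3 * (2 * L + 2) ^ 2 + (3 * (2 * L + 2) ^ 3 - q ^ 3 * (3 * (2 * M) ^ 2 * (2 * M - 1))) +
      2 * ((2 * M) ^ 3 * (q ^ 3 - (2 * r) ^ 3)) ≤ ε * L ^ 3 := by
  have hM0 : 0 < M := by linarith only [hM]
  have hL1 : 64 ≤ L := by linarith only [hM, hL, mul_nonneg_of_nonpos_of_nonpos (Mathlib.Tactic.Linarith.sub_nonpos_of_le hM) (Mathlib.Tactic.Linarith.sub_nonpos_of_le hM)]
  have h0 : 0 ≤ 2 * M * q := by positivity
  have h0' : 0 ≤ 2 * M * (2 * r) := by positivity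
  have h1 := LPdet_cube h0 q1
  have h2 := LPdet_cube h0' ((mul_le_mul_of_nonneg_left q5 (by positivity)).trans q1)
  have h3 : (2 * M * q) ^ 3 ≤ (2 * L + 2) ^ 3 := pow_le_pow_left₀ h0 q1 3
  have h4 : (2 * L + 2) ^ 2 ≤ 9 * L ^ 2 := by (refine le_of_not_gt fun h_nl => ?_; linarith only [h_nl, hL1, sq_nonneg L, mul_nonneg_of_nonpos_of_nonpos (Mathlib.Tactic.Linarith.sub_nonpos_of_le (sq_nonneg L)) (Mathlib.Tactic.Linarith.sub_nonpos_of_le (sq_nonneg L)), mul_nonneg_of_nonpos_of_nonpos (Mathlib.Tactic.Linarith.sub_nonpos_of_le (sq_nonneg ((2 : ℝ) * L + (2 : ℝ)))) (Mathlib.Tactic.Linarith.sub_nonpos_of_le hL1), mul_nonneg_of_nonpos_of_nonpos (Mathlib.Tactic.Linarith.sub_nonpos_of_le (sq_nonneg ((2 : ℝ) * L + (2 : ℝ)))) (le_of_lt (Mathlib.Tactic.Linarith.sub_neg_of_lt h_nl))])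
  have h5 : (2 * L + 2) ^ 3 ≤ 27 * L ^ 3 := by
    have := pow_le_pow_left₀ (by positivity) (show 2 * L + 2 ≤ 3 * L by linarith only [hL1]) 3
    linarith only [this]
  have h6 : (2 * L + 2) ^ 2 * (2 * L + 2 - 2 * M * q) ≤ 9 * L ^ 2 * (2 * M) :=
    mul_le_mul h4 (by linarith only [q2]) (by linarith only [q1]) (by positivity)
  have h7 : (2 * L + 2) ^ 2 * (2 * L + 2 - 2 * M * (2 * r)) ≤ 9 * L ^ 2 * (2 + 4 * M + 8 * w) :=
    mul_le_mul h4 (by linarith only [q6]) (by linarith only [q1, q5, hM, mul_nonneg_of_nonpos_of_nonpos (Mathlib.Tactic.Linarith.sub_nonpos_of_le hM) (Mathlib.Tactic.Linarith.sub_nonpos_of_le q5)]) (by positivity)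
  have h8 : 3 * (2 * L + 2) ^ 2 + (3 * (2 * L + 2) ^ 3 - q ^ 3 * (3 * (2 * M) ^ 2 * (2 * M - 1))) +
      2 * ((2 * M) ^ 3 * (q ^ 3 - (2 * r) ^ 3)) ≤
      L ^ 2 * (135 + 378 * M + 432 * w) + 12 * M ^ 2 * q ^ 3 := by linarith only [h1, h2, h3, h4, h6, h7]
  refine h8.trans (le_of_mul_le_mul_left ?_ hM0)
  have k1 : M * (135 + 378 * M + 432 * w) ≤ 900 * L := by linarith only [hL, w1, hL1, hM, mul_nonneg_of_nonpos_of_nonpos (Mathlib.Tactic.Linarith.sub_nonpos_of_le hM) (Mathlib.Tactic.Linarith.sub_nonpos_of_le hM)]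
  have k2 := mul_le_mul_of_nonneg_left k1 (sq_nonneg L)
  have k3 := mul_le_mul_of_nonneg_right hε (show 0 ≤ L ^ 3 by positivity)
  have k4 : 0 ≤ L ^ 3 := by positivity
  linarith only [hL1, h3, h4, h5, k2, k3]

/-- Small mesoscopic fluxes force a large partition function. -/
theorem lp_det {ε : ℝ} (hε : 0 < ε) : ∃ (k m : ℕ) (c : ℝ), 8 ≤ k ∧ 1 ≤ m ∧ 0 < c ∧
    ∀ l : ℕ, 1 ≤ l → 2 * m ∣ l → ∃ L₀ : ℕ, ∀ L ≥ L₀, ∀ τ : Dimer,
      Psi L (L / k) l τ.1 < c * (L : ℝ) ^ 3 * (l : ℝ) ^ 2 →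
      Real.exp (-ε * (L : ℝ) ^ 3) * Zs L ≤ zz (box L) τ.1 := by
  obtain ⟨M, hM⟩ := exists_nat_ge (max 8 (3000 / ε))
  have hM8 : 8 ≤ M := by exact_mod_cast (le_max_left _ _).trans hM
  have hMε : 3000 ≤ ε * M := by
    have := (le_max_right _ _).trans hM
    rwa [div_le_iff₀ hε, mul_comm] at this
  have hz := zc_pos (m := M) (by omega)
  obtain ⟨τ', h1, h2⟩ := exists_cells (m := 2 * M) (by omega) hz
  obtain ⟨c, hc, h3⟩ := patch M hM8
  refine ⟨M, 2 * M, c, hM8, by omega, hc, fun l hl hd => ?_⟩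
  obtain ⟨b₀, h4⟩ := h3 l hl
  refine ⟨max b₀ (M ^ 2), fun L hL τ hτ => ?_⟩
  have hne : ∀ x, τ.1 x ≠ x := fun x k => by
    have := (τ.2 x).1
    rw [k] at this
    simp [Nbr] at this
  obtain ⟨ρ, h5, h6⟩ := h4 L ((le_max_left _ _).trans hL) τ.1 (isExt_dimer τ) τ' (h1 l hd)
    (fun x _ _ => hne x) (by
      rw [Phi_eq (isExt_dimer τ), sum_eq_zero fun x hx => absurd (mem_mon.1 hx).2 (hne x),
        neg_zero]) hτ
  have h7 := h2 (box L) τ.1 ρ _ h5 (box_mono (Nat.sub_le _ _)) h6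
  have hLM : M ^ 2 ≤ L := (le_max_right _ _).trans hL
  have h8 := zc_le (m := 2 * M) (by omega) (2 * L + 2)
  have w1 : M * (L / M) ≤ L := Nat.mul_div_le L M
  have w2 : 8 * (L / M) ≤ L := (Nat.mul_le_mul_right _ hM8).trans w1
  generalize L / M = w at h7 w1 w2
  have hm : 0 < 2 * M := by omega
  have q1 := Nat.mul_div_le (2 * L + 2) (2 * M)
  have q2 := Nat.lt_mul_div_succ (2 * L + 2) hm
  have q3 := Nat.mul_div_le (L - 4 * w) (2 * M)
  have q4 := Nat.lt_mul_div_succ (L - 4 * w) hm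
  have q5 : 2 * ((L - 4 * w) / (2 * M)) ≤ (2 * L + 2) / (2 * M) :=
    (Nat.le_div_iff_mul_le hm).2 (by clear * - L w M q3; linarith only [q3, Nat.sub_le L (4 * w)])
  generalize (2 * L + 2) / (2 * M) = q at h8 q1 q2 q5
  generalize (L - 4 * w) / (2 * M) = r at h7 q3 q4 q5
  have q6 : L < 2 * M * (r + 1) + 4 * w := by omega
  have q7 : q ^ 3 * (3 * (2 * M) ^ 2 * (2 * M - 1)) ≤ 3 * (2 * L + 2) ^ 3 := by
    clear * - q M L hM8 l b₀ τ w r q1
    calc q ^ 3 * (3 * (2 * M) ^ 2 * (2 * M - 1)) ≤ q ^ 3 * (3 * (2 * M) ^ 2 * (2 * M)) := by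
          gcongr
          omega
      _ = 3 * (2 * M * q) ^ 3 := by ring
      _ ≤ _ := by gcongr
  have q8 : (2 * r) ^ 3 ≤ q ^ 3 := Nat.pow_le_pow_left q5 3
  have h9 : zc (2 * M) ^ q ^ 3 ≤ 7 ^ ((2 * M) ^ 3 * (q ^ 3 - (2 * r) ^ 3)) * zz (box L) τ.1 := by
    conv_lhs => rw [← Nat.sub_add_cancel q8, pow_add]
    rw [pow_mul]
    exact Nat.mul_le_mul (Nat.pow_le_pow_left (LPdet_zc _) _) h7
  have h10 := h8.trans (Nat.mul_le_mul_left _ h9)
  have h11 := LPdet_arith (ε := ε) (L := L) (M := M) (q := q) (r := r) (w := w)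
    (by exact_mod_cast hM8) hMε (by exact_mod_cast hLM) (by clear * - q; positivity) (by clear * - r; positivity)
    (by clear * - w q1 q2 w1; positivity) (by exact_mod_cast w1) (by exact_mod_cast q1) (by exact_mod_cast q2.le)
    (by exact_mod_cast q6.le) (by exact_mod_cast q5)
  have e1 := LPdet_pow (3 * (2 * L + 2) ^ 2)
  have e2 := LPdet_pow (3 * (2 * L + 2) ^ 3 - q ^ 3 * (3 * (2 * M) ^ 2 * (2 * M - 1)))
  have e3 := LPdet_pow7 ((2 * M) ^ 3 * (q ^ 3 - (2 * r) ^ 3))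
  have h12 : (zc (2 * L + 2) : ℝ) ≤ 2 ^ (3 * (2 * L + 2) ^ 3 - q ^ 3 *
      (3 * (2 * M) ^ 2 * (2 * M - 1))) * (7 ^ ((2 * M) ^ 3 * (q ^ 3 - (2 * r) ^ 3)) *
        zz (box L) τ.1) := by exact_mod_cast h10
  have h13 : Zs L ≤ Real.exp (ε * (L : ℝ) ^ 3) * zz (box L) τ.1 := by
    clear * - L q M r τ ε e1 h12 e2 e3 q7 hm q8 h11
    refine le_trans (mul_le_mul e1 (h12.trans (mul_le_mul e2
      (mul_le_mul_of_nonneg_right e3 (Nat.cast_nonneg _)) (by positivity) (by positivity)))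
      (Nat.cast_nonneg _) (by positivity)) ?_
    rw [← mul_assoc, ← mul_assoc, ← Real.exp_add, ← Real.exp_add]
    refine mul_le_mul_of_nonneg_right (Real.exp_le_exp.2 ?_) (Nat.cast_nonneg _)
    rw [Nat.cast_sub q7]
    push_cast [Nat.cast_sub q8, Nat.cast_sub (show 1 ≤ 2 * M from hm)]
    linarith only [h11]
  rw [neg_mul, Real.exp_neg, inv_mul_le_iff₀ (Real.exp_pos _)]
  exact h13

end Pool.Agent.Work.MP_5cb0a4_pr.Z
end

-- merged part: Pool.Agent.Work.MP_5cb0a4_pr.Z.Trans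
section
open MeasureTheory Finset MvPolynomial Filter Topology

namespace Pool.Agent.Work.MP_5cb0a4_pr.Z

theorem Trans_comp {α β : Type} {Λ : Finset V} {g : (V → V) → α} (hg : Local Λ g) (φ : α → β) :
    Local Λ fun σ => φ (g σ) := fun σ σ' h h' e => congrArg φ (hg σ σ' h h' e)

theorem Trans_comp2 {α β γ : Type} {Λ : Finset V} {g : (V → V) → α} {g' : (V → V) → β}
    (hg : Local Λ g) (hg' : Local Λ g') (φ : α → β → γ) :
    Local Λ fun σ => φ (g σ) (g' σ) := fun σ σ' h h' e =>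
  congrArg₂ φ (hg σ σ' h h' e) (hg' σ σ' h h' e)

theorem Trans_local_zz (Λ : Finset V) : Local Λ fun σ => zz Λ σ := local_Zm Λ ∅

theorem Trans_Zs_pos (L : ℕ) : 0 < Zs L := by
  have h : 0 < zc (2 * L + 2) := zc_pos (m := L + 1) (by omega)
  unfold Zs
  positivity

/-- Large partition functions. -/
theorem lp {ν : Measure Dimer} (h : EG0 ν) {ε η : ℝ} (hε : 0 < ε) (hη : 0 < η) :
    ∃ L₀ : ℕ, ∀ L ≥ L₀,
      ν.real {τ | (zz (box L) τ.1 : ℝ) < Real.exp (-ε * (L : ℝ) ^ 3) * Zs L} ≤ η := by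
  have := h.eg.prob
  obtain ⟨k, m, c, -, hm, hc, hd⟩ := lp_det hε
  obtain ⟨l₀, hl₀⟩ := psi_mean h (mul_pos hη hc)
  have hl1 : l₀ + 1 ≤ 2 * m * (l₀ + 1) := Nat.le_mul_of_pos_left _ (by omega)
  obtain ⟨l, hl⟩ : ∃ l, l = 2 * m * (l₀ + 1) := ⟨_, rfl⟩
  obtain ⟨L₀, hL₀⟩ := hd l (by omega) (hl ▸ Dvd.intro _ rfl)
  refine ⟨max L₀ 1, fun L hL => ?_⟩
  have hL1 : 1 ≤ L := le_of_max_le_right hL
  have h1 := hl₀ l (by omega) (by omega) L (L / k) hL1
  have h2 := mul_meas_ge_le_integral_of_nonneg (μ := ν) (f := fun τ => Psi L (L / k) l τ.1)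
    (Eventually.of_forall fun τ => by
      unfold Psi
      simp only [Pi.zero_apply]
      positivity)
    ((local_Psi L (L / k) l).integrable ν) (c * (L : ℝ) ^ 3 * (l : ℝ) ^ 2)
  have h3 : ν.real {τ | (zz (box L) τ.1 : ℝ) < Real.exp (-ε * (L : ℝ) ^ 3) * Zs L} ≤
      ν.real {τ | c * (L : ℝ) ^ 3 * (l : ℝ) ^ 2 ≤ Psi L (L / k) l τ.1} := by
    refine measureReal_mono fun τ hτ => ?_
    by_contra hn
    exact absurd (hL₀ L (le_of_max_le_left hL) τ (not_le.1 hn)) (not_le.2 hτ)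
  have hp : 0 < c * (L : ℝ) ^ 3 * (l : ℝ) ^ 2 := by
    have : (0 : ℝ) < L := by exact_mod_cast hL1
    have : (0 : ℝ) < l := by exact_mod_cast (by omega : 0 < l)
    positivity
  refine h3.trans (le_of_mul_le_mul_left (h2.trans (h1.trans (le_of_eq ?_))) hp)
  ring

theorem lp_log {ν : Measure Dimer} (h : EG0 ν) {ε : ℝ} (hε : 0 < ε) :
    ∃ L₀ : ℕ, ∀ L ≥ L₀, ∫ τ, Real.log (Zs L / zz (box L) τ.1) ∂ν ≤ ε * (L : ℝ) ^ 3 := by
  have := h.eg.prob
  obtain ⟨L₀, hL₀⟩ := lp h (half_pos hε) (by positivity : 0 < ε / 400)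
  refine ⟨max L₀ 1, fun L hL => ?_⟩
  have hL1 : 1 ≤ L := le_of_max_le_right hL
  have h1 := hL₀ L (le_of_max_le_left hL)
  set A : Set Dimer := {τ | (zz (box L) τ.1 : ℝ) < Real.exp (-(ε / 2) * (L : ℝ) ^ 3) * Zs L}
    with hA
  have hAm : MeasurableSet A :=
    measurableSet_lt (Trans_comp (Trans_local_zz (box L)) (fun n => (n : ℝ))).measurable
      measurable_const
  have hL3 : (0 : ℝ) ≤ (L : ℝ) ^ 3 := by positivity
  have hZ := Trans_Zs_pos L
  have hi : Integrable (A.indicator fun _ => 200 * (L : ℝ) ^ 3) ν :=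
    (integrable_const _).indicator hAm
  have h2 : ∫ τ, Real.log (Zs L / zz (box L) τ.1) ∂ν ≤
      ∫ τ, (ε / 2 * (L : ℝ) ^ 3 + A.indicator (fun _ => 200 * (L : ℝ) ^ 3) τ) ∂ν := by
    refine integral_mono ((Trans_comp (Trans_local_zz (box L))
      (fun n => Real.log (Zs L / (n : ℝ)))).integrable ν) ((integrable_const _).add hi) fun τ => ?_
    have hz : (1 : ℝ) ≤ zz (box L) τ.1 := by exact_mod_cast zz_dimer_pos (box L) τ
    have hz0 : (0 : ℝ) < zz (box L) τ.1 := by linarith only [hz]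
    simp only
    rw [Real.log_le_iff_le_exp (div_pos hZ hz0)]
    by_cases hτ : τ ∈ A
    · rw [Set.indicator_of_mem hτ]
      refine (div_le_self hZ.le hz).trans ((Zs_le L hL1).trans (Real.exp_le_exp.2 ?_))
      linarith only [hε, hL3, mul_nonneg_of_nonpos_of_nonpos (le_of_lt (Mathlib.Tactic.Linarith.sub_neg_of_lt hε)) (Mathlib.Tactic.Linarith.sub_nonpos_of_le hL3)]
    · rw [Set.indicator_of_notMem hτ, add_zero, div_le_iff₀ hz0]
      have h3 : Real.exp (-(ε / 2) * (L : ℝ) ^ 3) * Zs L ≤ zz (box L) τ.1 := not_lt.1 hτ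
      calc Zs L = Real.exp (ε / 2 * (L : ℝ) ^ 3) * (Real.exp (-(ε / 2) * (L : ℝ) ^ 3) * Zs L) := by
            rw [← mul_assoc, ← Real.exp_add]; simp
        _ ≤ _ := by gcongr
  refine h2.trans ?_
  rw [integral_add (integrable_const _) hi, integral_indicator hAm]
  simp only [integral_const, probReal_univ, smul_eq_mul, one_mul, measureReal_restrict_apply_univ]
  linarith only [h1, hL3, mul_nonneg_of_nonpos_of_nonpos (Mathlib.Tactic.Linarith.sub_nonpos_of_le h1) (Mathlib.Tactic.Linarith.sub_nonpos_of_le hL3)]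

theorem Trans_zz_pos {Λ' Λ : Finset V} (h : Λ' ⊆ Λ) {σ ρ : V → V} (hρ : ρ ∈ perf Λ σ) :
    0 < zz Λ' ρ :=
  card_pos.2 ⟨ρ, mem_perf.2 ⟨⟨(mem_perf.1 hρ).1.1, fun _ _ => rfl⟩,
    fun x hx => (mem_perf.1 hρ).2 x (h hx)⟩⟩

theorem Trans_sh_neg (c : V) (ρ : V → V) : sh c (sh (-c) ρ) = ρ := by
  rw [sh_sh, add_neg_cancel, sh_zero]

theorem Trans_neg_sh (c : V) (ρ : V → V) : sh (-c) (sh c ρ) = ρ := by
  rw [sh_sh, neg_add_cancel, sh_zero]

theorem Trans_zz_sh (c : V) (Λ : Finset V) (ρ : V → V) :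
    zz (tr c Λ) ρ = zz Λ (sh (-c) ρ) := by
  have := Zm_sh c Λ (sh (-c) ρ) ∅
  rw [Trans_sh_neg] at this
  exact this

theorem Trans_sum_sh (c : V) (Λ : Finset V) (ρ : V → V) (g : (V → V) → ℝ) :
    ∑ ρ' ∈ cls (tr c Λ) ρ, g (sh (-c) ρ') = ∑ ρ' ∈ cls Λ (sh (-c) ρ), g ρ' := by
  have := sum_cls_sh c Λ (sh (-c) ρ) fun ρ' => g (sh (-c) ρ')
  rw [Trans_sh_neg] at this
  simpa only [Trans_neg_sh] using this

theorem Trans_log {u : ℝ} (hu : |u| ≤ 1 / 2) : u - 2 * u ^ 2 ≤ Real.log (1 + u) := by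
  have h1 := abs_le.1 hu
  have h2 : 0 < 1 + u := by linarith only [h1]
  refine le_trans ?_ (Real.one_sub_inv_le_log_of_pos h2)
  have e : 1 - (1 + u)⁻¹ = u / (1 + u) := by field_simp; ring
  rw [e, le_div_iff₀ h2]
  linarith only [h1, mul_nonneg (sq_nonneg u) (by linarith : 0 ≤ 1 + 2 * u), sq_nonneg u]

/-- The product bound from class replacement and Gaussian domination. -/
theorem Trans_prod (L : ℕ) (hL : 1 ≤ L) (τ : Dimer) (Λ : Finset V) (S : Finset V)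
    (hsub : ∀ c ∈ S, tr c Λ ⊆ box (L - 1))
    (hdisj : ∀ c ∈ S, ∀ c' ∈ S, c ≠ c' → Disjoint (tr c Λ) (tr c' Λ))
    (b : (V → V) → ℝ) (β : ℝ) (hb : Local Λ b) (hmix : Mix Λ (fun ρ => (b ρ : ℂ)) β)
    (h0 : ∀ ρ, IsExt ρ → 0 ≤ ∑ ρ' ∈ cls Λ ρ, b ρ') :
    ∑ ρ ∈ perf (box L) τ.1, ∏ c ∈ S, (∑ ρ' ∈ cls Λ (sh (-c) ρ), b ρ') / zz Λ (sh (-c) ρ) ≤
      Zs L * β ^ S.card := by
  have h1 := class_replace (box L) τ.1 S (fun c => tr c Λ)
    (fun c hc => (hsub c hc).trans (box_mono (Nat.sub_le _ _))) hdisj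
    (fun c ρ => b (sh (-c) ρ)) (fun c _ => hb.sh c)
    (fun c _ ρ hρ => by rw [Trans_sum_sh]; exact h0 _ (isExt_sh hρ _))
    (fun _ => 1) (fun _ _ => zero_le_one) (fun _ _ _ _ _ => rfl)
  simp only [one_mul, Trans_sum_sh, Trans_zz_sh] at h1
  have h2 := gd_mix L hL (isExt_dimer τ) S (fun c => tr c Λ) hsub hdisj
    (fun c ρ => (b (sh (-c) ρ) : ℂ)) (fun _ => β) (fun c _ => hmix.shift c)
  rw [prod_const] at h2
  refine h1.trans (le_trans ?_ h2)
  simp only [← Complex.ofReal_prod, ← Complex.ofReal_sum, Complex.norm_real]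
  exact le_abs_self _

/-- The deterministic inequality. -/
theorem Trans_det (L : ℕ) (hL : 1 ≤ L) (τ : Dimer) (Λ : Finset V) (S : Finset V)
    (hsub : ∀ c ∈ S, tr c Λ ⊆ box (L - 1))
    (hdisj : ∀ c ∈ S, ∀ c' ∈ S, c ≠ c' → Disjoint (tr c Λ) (tr c' Λ))
    (b : (V → V) → ℝ) (β : ℝ) (hb : Local Λ b) (hmix : Mix Λ (fun ρ => (b ρ : ℂ)) β)
    (h0 : ∀ ρ, IsExt ρ → zz Λ ρ = 0 → 0 ≤ ∑ ρ' ∈ cls Λ ρ, b ρ') (W : (V → V) → ℝ)
    (hW : ∀ ρ, W ρ = (∑ ρ' ∈ cls Λ ρ, b ρ') / zz Λ ρ) {C δ : ℝ}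
    (hC : ∀ ρ, IsExt ρ → |W ρ - 1| ≤ C) (hδ : 0 < δ) (hδ1 : δ ≤ 1 / 2) (hδC : δ * C ≤ 1 / 2) :
    δ * ∑ c ∈ S, (gam (box L) (fun ρ => W (sh (-c) ρ)) τ.1 - β) ≤
      Real.log (Zs L / zz (box L) τ.1) + S.card * (2 * (δ * C) ^ 2) := by
  classical
  have hβ := hmix.nonneg
  set b' : (V → V) → ℝ := fun ρ => (1 - δ) * (if mon Λ ρ = ∅ then 1 else 0) + δ * b ρ with hb'
  have hsum : ∀ ρ, ∑ ρ' ∈ cls Λ ρ, b' ρ' = (1 - δ) * zz Λ ρ + δ * ∑ ρ' ∈ cls Λ ρ, b ρ' := by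
    intro ρ
    simp only [hb', sum_add_distrib, ← mul_sum, sum_boole]
    rfl
  have hu : ∀ ρ, IsExt ρ → |δ * (W ρ - 1)| ≤ δ * C := fun ρ hρ => by
    rw [abs_mul, abs_of_pos hδ]
    exact mul_le_mul_of_nonneg_left (hC ρ hρ) hδ.le
  have hF : ∀ ρ, 0 < zz Λ ρ → (∑ ρ' ∈ cls Λ ρ, b' ρ') / zz Λ ρ = 1 + δ * (W ρ - 1) := by
    intro ρ hρ
    have : (zz Λ ρ : ℝ) ≠ 0 := by exact_mod_cast hρ.ne'
    rw [hsum, hW]
    field_simp
    ring
  have hFpos : ∀ ρ, IsExt ρ → 0 < 1 + δ * (W ρ - 1) := fun ρ hρ => by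
    have := (abs_le.1 ((hu ρ hρ).trans hδC)).1
    linarith only [hδ, hδ1, this]
  have hloc : Local Λ b' := Trans_comp2 (local_mon Λ) hb
    fun X y => (1 - δ) * (if X = ∅ then 1 else 0) + δ * y
  have hmix' : Mix Λ (fun ρ => (b' ρ : ℂ)) (1 - δ + δ * β) := by
    refine Mix.mono (((mix_mon (Λ := Λ) (X := ∅) (by simp)).smul ((1 - δ : ℝ) : ℂ)).add
      (hmix.smul (δ : ℂ))) (fun ρ _ => ?_) (le_of_eq ?_)
    · simp only [hb']
      split_ifs <;> push_cast <;> ring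
    · rw [Complex.norm_real, Complex.norm_real, Real.norm_of_nonneg (by linarith only [hδ, hδ1]),
        Real.norm_of_nonneg hδ.le, mul_one]
  have h0' : ∀ ρ, IsExt ρ → 0 ≤ ∑ ρ' ∈ cls Λ ρ, b' ρ' := by
    intro ρ hρ
    rcases Nat.eq_zero_or_pos (zz Λ ρ) with hz | hz
    · rw [hsum, hz]
      have := h0 ρ hρ hz
      simp only [Nat.cast_zero, mul_zero, zero_add]
      positivity
    · have h1 := hF ρ hz
      have hz' : (0 : ℝ) < zz Λ ρ := by exact_mod_cast hz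
      rw [div_eq_iff hz'.ne'] at h1
      rw [h1]
      exact (mul_pos (hFpos ρ hρ) hz').le
  have h1 := Trans_prod L hL τ Λ S hsub hdisj b' _ hloc hmix' h0'
  have hz := zz_dimer_pos (box L) τ
  have hz' : (0 : ℝ) < zz (box L) τ.1 := by exact_mod_cast hz
  have hext : ∀ ρ ∈ perf (box L) τ.1, ∀ c : V, IsExt (sh (-c) ρ) := fun ρ hρ c =>
    isExt_sh (mem_perf.1 hρ).1.1 _
  set g : (V → V) → ℝ := fun ρ => ∏ c ∈ S, (1 + δ * (W (sh (-c) ρ) - 1)) with hg
  have hgpos : ∀ ρ ∈ perf (box L) τ.1, 0 < g ρ := fun ρ hρ =>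
    prod_pos fun c _ => hFpos _ (hext ρ hρ c)
  have h2 : ∑ ρ ∈ perf (box L) τ.1, g ρ ≤ Zs L * (1 - δ + δ * β) ^ S.card := by
    refine le_trans (le_of_eq (sum_congr rfl fun ρ hρ => prod_congr rfl fun c hc => ?_)) h1
    rw [hF]
    rw [← Trans_zz_sh]
    exact Trans_zz_pos ((hsub c hc).trans (box_mono (Nat.sub_le _ _))) hρ
  have h3 := gam_log_le hz g hgpos
  have hβ' : 0 < 1 - δ + δ * β := by linarith only [hδ1, hδ, hβ, mul_pos_of_neg_of_neg (Mathlib.Tactic.Linarith.sub_neg_of_lt hδ) (Mathlib.Tactic.Linarith.sub_neg_of_lt hδ), mul_nonneg_of_nonpos_of_nonpos (le_of_lt (Mathlib.Tactic.Linarith.sub_neg_of_lt hδ)) (Mathlib.Tactic.Linarith.sub_nonpos_of_le hδ1), mul_nonneg_of_nonpos_of_nonpos (le_of_lt (Mathlib.Tactic.Linarith.sub_neg_of_lt hδ)) (Mathlib.Tactic.Linarith.sub_nonpos_of_le hβ)]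
  have h4 : Real.log (gam (box L) g τ.1) ≤
      Real.log (Zs L / zz (box L) τ.1) + S.card * (δ * (β - 1)) := by
    clear * - L g τ hgpos hz hz' δ β S h2 hβ'
    have e1 : 0 < gam (box L) g τ.1 := div_pos (sum_pos hgpos (card_pos.1 hz)) hz'
    have e2 : gam (box L) g τ.1 ≤ Zs L / zz (box L) τ.1 * (1 - δ + δ * β) ^ S.card := by
      rw [div_mul_eq_mul_div]
      exact div_le_div_of_nonneg_right h2 hz'.le
    refine (Real.log_le_log e1 e2).trans ?_
    rw [Real.log_mul (div_pos (Trans_Zs_pos L) hz').ne' (pow_pos hβ' _).ne', Real.log_pow]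
    have e3 := Real.log_le_sub_one_of_pos hβ'
    have e4 : Real.log (1 - δ + δ * β) ≤ δ * (β - 1) := by linarith only [e3]
    gcongr
  have h5 : gam (box L) (fun ρ => ∑ c ∈ S, (δ * W (sh (-c) ρ) - (δ + 2 * (δ * C) ^ 2))) τ.1 ≤
      gam (box L) (fun ρ => Real.log (g ρ)) τ.1 := by
    refine gam_mono fun ρ hρ => ?_
    rw [hg, Real.log_prod fun c _ => (hFpos _ (hext ρ hρ c)).ne']
    refine sum_le_sum fun c _ => ?_
    have e1 := hu _ (hext ρ hρ c)
    have e2 := Trans_log (e1.trans hδC)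
    have e3 : (δ * (W (sh (-c) ρ) - 1)) ^ 2 ≤ (δ * C) ^ 2 := by
      rw [← sq_abs]
      exact pow_le_pow_left₀ (abs_nonneg _) e1 2
    linarith only [e2, e3]
  have h6 : gam (box L) (fun ρ => ∑ c ∈ S, (δ * W (sh (-c) ρ) - (δ + 2 * (δ * C) ^ 2))) τ.1 =
      ∑ c ∈ S, (δ * gam (box L) (fun ρ => W (sh (-c) ρ)) τ.1 - (δ + 2 * (δ * C) ^ 2)) := by
    clear * - L S δ W C τ hz hδ
    unfold gam
    rw [sum_comm, sum_div]
    refine sum_congr rfl fun c _ => ?_
    rw [sum_sub_distrib, ← mul_sum, sum_const, nsmul_eq_mul]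
    have e : ((perf (box L) τ.1).card : ℝ) = zz (box L) τ.1 := rfl
    rw [e]
    field_simp
  rw [h6, sum_sub_distrib, ← mul_sum, sum_const, nsmul_eq_mul] at h5
  rw [sum_sub_distrib, sum_const, nsmul_eq_mul]
  linarith only [h3, h4, h5]

theorem Trans_compare {ν : Measure Dimer} (h : EG0 ν) {Λ : Finset V} {W : (V → V) → ℝ}
    (hW : Local Λ W) (β : ℝ) {L N : ℕ} (hN : 2 * L ≤ N) {c : V} (hc : IsEven c)
    (hcL : c ∈ box L) :
    ∫ τ, max (gam (box N) W τ.1 - β) 0 ∂ν ≤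
      ∫ τ, max (gam (box L) (fun ρ => W (sh (-c) ρ)) τ.1 - β) 0 ∂ν := by
  have := h.eg.prob
  have hsub : tr (-c) (box L) ⊆ box N := fun x hx => mem_box.2 fun i => by
    have h1 := mem_box.1 (mem_tr.1 hx) i
    have h2 := mem_box.1 hcL i
    simp only [Pi.sub_apply, Pi.neg_apply] at h1
    omega
  have hloc : Local (tr (-c) (box L) ∪ Λ) fun ρ => max (gam (tr (-c) (box L)) W ρ - β) 0 :=
    Trans_comp (local_gam hW) fun y => max (y - β) 0
  calc ∫ τ, max (gam (box N) W τ.1 - β) 0 ∂ν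
      ≤ ∫ τ, gam (box N) (fun ρ => max (gam (tr (-c) (box L)) W ρ - β) 0) τ.1 ∂ν :=
        integral_mono ((Trans_comp (local_gam hW) fun y => max (y - β) 0).integrable ν)
          ((local_gam hloc).integrable ν) fun τ => gam_pos_le hsub W β (zz_dimer_pos _ τ)
    _ = ∫ τ, max (gam (tr (-c) (box L)) W τ.1 - β) 0 ∂ν := dlr h.eg _ hloc
    _ = ∫ τ, max (gam (tr (-c) (box L)) W (sh (-c) τ.1) - β) 0 ∂ν :=
        (integral_sh h.eg hloc (isEven_neg.2 hc)).symm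
    _ = _ := by simp only [gam_sh]

/-- Quenched transfer of Gaussian domination. -/
theorem transfer {ν : Measure Dimer} (h : EG0 ν) (m : ℕ) (b : (V → V) → ℝ) (β : ℝ)
    (hb : Local (box m) b) (hmix : Mix (box m) (fun ρ => (b ρ : ℂ)) β)
    (h0 : ∀ ρ, IsExt ρ → zz (box m) ρ = 0 → 0 ≤ ∑ ρ' ∈ cls (box m) ρ, b ρ') :
    Tendsto (fun N : ℕ => ∫ τ, max (gam (box N)
      (fun ρ => (∑ ρ' ∈ cls (box m) ρ, b ρ') / zz (box m) ρ) τ.1 - β) 0 ∂ν) atTop (𝓝 0) := by
  classical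
  have := h.eg.prob
  set W : (V → V) → ℝ := fun ρ => (∑ ρ' ∈ cls (box m) ρ, b ρ') / zz (box m) ρ with hW
  have hWl : Local (box m) W := Trans_comp2 ((local_sum_cls hb).mono (by rw [union_self]))
    (Trans_local_zz (box m)) fun (x : ℝ) (n : ℕ) => x / n
  obtain ⟨C₀, hC₀⟩ := (Trans_comp hWl fun y => y - 1).bdd
  obtain ⟨C, hC1, hC⟩ : ∃ C : ℝ, 1 ≤ C ∧ ∀ ρ, IsExt ρ → |W ρ - 1| ≤ C :=
    ⟨max 1 C₀, le_max_left _ _, fun ρ hρ => (hC₀ ρ hρ).trans (le_max_right _ _)⟩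
  have hCp : 0 < C := by linarith only [hC1]
  rw [Metric.tendsto_atTop]
  intro η hη
  obtain ⟨δ, hδ, hδC, hδη⟩ : ∃ δ : ℝ, 0 < δ ∧ δ * C ≤ 1 / 2 ∧ 2 * δ * C ^ 2 ≤ η / 4 := by
    refine ⟨min (1 / (2 * C)) (η / (8 * C ^ 2)), by positivity, ?_, ?_⟩
    · calc min (1 / (2 * C)) (η / (8 * C ^ 2)) * C ≤ 1 / (2 * C) * C := by
            gcongr; exact min_le_left _ _
        _ = 1 / 2 := by field_simp
    · calc 2 * min (1 / (2 * C)) (η / (8 * C ^ 2)) * C ^ 2 ≤ 2 * (η / (8 * C ^ 2)) * C ^ 2 := by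
            gcongr; exact min_le_right _ _
        _ = η / 4 := by field_simp; ring
  have hδ1 : δ ≤ 1 / 2 := by linarith only [hδC, hC1, hδ, mul_nonneg_of_nonpos_of_nonpos (Mathlib.Tactic.Linarith.sub_nonpos_of_le hC1) (le_of_lt (Mathlib.Tactic.Linarith.sub_neg_of_lt hδ))]
  obtain ⟨J, hJ⟩ := lp_log h (ε := δ * η / (4 * ((m : ℝ) + 1) ^ 3)) (by positivity)
  obtain ⟨S, hS1, hS2, hS3, hS4⟩ := exists_centers m J
  obtain ⟨L, hL⟩ : ∃ L, L = (2 * m + 2) * J + m + 1 := ⟨_, rfl⟩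
  have hJL : J ≤ L := by linarith only [hL, mul_nonneg_of_nonpos_of_nonpos (Mathlib.Tactic.Linarith.sub_nonpos_of_le (Mathlib.Tactic.Linarith.natCast_nonneg ℤ m)) (Mathlib.Tactic.Linarith.sub_nonpos_of_le (Mathlib.Tactic.Linarith.natCast_nonneg ℤ J))]
  have hL1 : L - 1 = (2 * m + 2) * J + m := by omega
  refine ⟨2 * L, fun N hN => ?_⟩
  have hnn : 0 ≤ ∫ τ, max (gam (box N) W τ.1 - β) 0 ∂ν :=
    integral_nonneg fun τ => le_max_right _ _
  rw [Real.dist_eq, sub_zero, abs_of_nonneg hnn]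
  have hint : ∀ c : V, Integrable
      (fun τ : Dimer => max (gam (box L) (fun ρ => W (sh (-c) ρ)) τ.1 - β) 0) ν := fun c =>
    (Trans_comp (local_gam (hWl.sh c)) fun y => max (y - β) 0).integrable ν
  have hilog : Integrable (fun τ : Dimer => Real.log (Zs L / zz (box L) τ.1)) ν :=
    (Trans_comp (Trans_local_zz (box L)) (fun n => Real.log (Zs L / (n : ℝ)))).integrable ν
  have h1 : (S.card : ℝ) * ∫ τ, max (gam (box N) W τ.1 - β) 0 ∂ν ≤
      ∫ τ, ∑ c ∈ S, max (gam (box L) (fun ρ => W (sh (-c) ρ)) τ.1 - β) 0 ∂ν := by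
    clear * - S ν N W β L hint h m hWl hN hS2 J hL hS3
    rw [integral_finsetSum _ fun c _ => hint c, ← nsmul_eq_mul, ← sum_const]
    refine sum_le_sum fun c hc => Trans_compare h hWl β hN (hS2 c hc) ?_
    refine box_mono (by omega) (hS3 c hc (mem_tr.2 (mem_box.2 fun i => ?_)))
    simp
  have h2 : ∫ τ, δ * ∑ c ∈ S, max (gam (box L) (fun ρ => W (sh (-c) ρ)) τ.1 - β) 0 ∂ν ≤
      ∫ τ, (Real.log (Zs L / zz (box L) τ.1) + S.card * (2 * (δ * C) ^ 2)) ∂ν := by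
    refine integral_mono ((integrable_finsetSum _ fun c _ => hint c).const_mul δ)
      (hilog.add (integrable_const _)) fun τ => ?_
    have e := Trans_det L (by omega) τ (box m)
      (S.filter fun c => 0 < gam (box L) (fun ρ => W (sh (-c) ρ)) τ.1 - β)
      (fun c hc => hL1 ▸ hS3 c (mem_filter.1 hc).1)
      (fun c hc c' hc' => hS4 c (mem_filter.1 hc).1 c' (mem_filter.1 hc').1)
      b β hb hmix h0 W (fun _ => rfl) hC hδ hδ1 hδC
    have e1 : ∑ c ∈ S, max (gam (box L) (fun ρ => W (sh (-c) ρ)) τ.1 - β) 0 =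
        ∑ c ∈ S.filter fun c => 0 < gam (box L) (fun ρ => W (sh (-c) ρ)) τ.1 - β,
          (gam (box L) (fun ρ => W (sh (-c) ρ)) τ.1 - β) := by
      rw [sum_filter]
      refine sum_congr rfl fun c _ => ?_
      split_ifs with hc
      · exact max_eq_left hc.le
      · exact max_eq_right (not_lt.1 hc)
    have e2 : ((S.filter fun c => 0 < gam (box L) (fun ρ => W (sh (-c) ρ)) τ.1 - β).card : ℝ) ≤
        S.card := by exact_mod_cast card_filter_le _ _
    simp only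
    rw [e1]
    refine e.trans ?_
    clear * - L τ W β S δ C e2 hδ hC1; gcongr
  rw [integral_const_mul, integral_add hilog (integrable_const _)] at h2
  simp only [integral_const, probReal_univ, smul_eq_mul, one_mul] at h2
  have h3 := hJ L hJL
  have hSp : (0 : ℝ) < S.card := by rw [hS1]; positivity
  have h4 : (L : ℝ) ^ 3 ≤ ((m : ℝ) + 1) ^ 3 * S.card := by
    rw [hS1, hL]
    push_cast
    rw [← mul_pow]
    exact le_of_eq (by ring)
  have h5 : δ * η / (4 * ((m : ℝ) + 1) ^ 3) * (L : ℝ) ^ 3 ≤ δ * S.card * (η / 4) := by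
    clear * - δ η m L S h4 hδ hη hSp
    calc δ * η / (4 * ((m : ℝ) + 1) ^ 3) * (L : ℝ) ^ 3
        ≤ δ * η / (4 * ((m : ℝ) + 1) ^ 3) * (((m : ℝ) + 1) ^ 3 * S.card) := by gcongr
      _ = δ * S.card * (η / 4) := by field_simp
  have h6 : (S.card : ℝ) * (2 * (δ * C) ^ 2) ≤ δ * S.card * (η / 4) := by
    clear * - S δ C η hδη hδ hSp
    calc (S.card : ℝ) * (2 * (δ * C) ^ 2) = δ * S.card * (2 * δ * C ^ 2) := by ring
      _ ≤ δ * S.card * (η / 4) := by gcongr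
  have h7 : δ * S.card * ∫ τ, max (gam (box N) W τ.1 - β) 0 ∂ν ≤ δ * S.card * (η / 2) := by
    clear * - δ S ν N W β L h1 hδ η C m h2 h3 h5 h6 this
    have := mul_le_mul_of_nonneg_left h1 hδ.le
    linarith only [h2, h3, h5, h6, this]
  have h8 := le_of_mul_le_mul_left h7 (mul_pos hδ hSp)
  linarith only [hη, h8]

end Pool.Agent.Work.MP_5cb0a4_pr.Z
end

-- merged part: Pool.Agent.Work.MP_5cb0a4_pr.Z.QGDAux
section
open MeasureTheory Finset MvPolynomial Filter Topology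

namespace Pool.Agent.Work.MP_5cb0a4_pr.Z

lemma QGD_loc2 {α β γ : Type} {Λ : Finset V} {f : (V → V) → α} {g : (V → V) → β}
    (φ : α → β → γ) (hf : Local Λ f) (hg : Local Λ g) : Local Λ fun σ => φ (f σ) (g σ) := by
  intro σ σ' h h' ha
  have h1 := hf σ σ' h h' ha
  have h2 := hg σ σ' h h' ha
  simp only [h1, h2]

lemma QGD_loc1 {α γ : Type} {Λ : Finset V} {f : (V → V) → α} (φ : α → γ) (hf : Local Λ f) :
    Local Λ fun σ => φ (f σ) := by
  intro σ σ' h h' ha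
  have h1 := hf σ σ' h h' ha
  simp only [h1]

lemma QGD_locsum {ι : Type} {Λ : Finset V} (s : Finset ι) {f : ι → (V → V) → ℝ}
    (hf : ∀ i ∈ s, Local Λ (f i)) : Local Λ fun σ => ∑ i ∈ s, f i σ :=
  fun σ σ' h h' ha => sum_congr rfl fun i hi => hf i hi σ σ' h h' ha

lemma QGD_locprod {ι : Type} {Λ : Finset V} (s : Finset ι) {f : ι → (V → V) → ℝ}
    (hf : ∀ i ∈ s, Local Λ (f i)) : Local Λ fun σ => ∏ i ∈ s, f i σ :=
  fun σ σ' h h' ha => prod_congr rfl fun i hi => hf i hi σ σ' h h' ha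

lemma QGD_locgam {Λ : Finset V} {g : (V → V) → ℝ} (hg : Local Λ g) : Local Λ (gam Λ g) := by
  have := local_gam (Λ := Λ) hg
  rwa [union_self] at this

lemma QGD_gam_add (Λ : Finset V) (f g : (V → V) → ℝ) (σ : V → V) :
    gam Λ (fun ρ => f ρ + g ρ) σ = gam Λ f σ + gam Λ g σ := by
  simp only [gam, sum_add_distrib, add_div]

lemma QGD_gam_sum {ι : Type} (Λ : Finset V) (s : Finset ι) (a : ι → ℝ) (f : ι → (V → V) → ℝ)
    (σ : V → V) : gam Λ (fun ρ => ∑ i ∈ s, a i * f i ρ) σ = ∑ i ∈ s, a i * gam Λ (f i) σ := by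
  simp only [gam]
  rw [sum_comm, sum_div]
  exact sum_congr rfl fun i _ => by rw [← mul_sum, mul_div_assoc]

lemma QGD_gam_nonneg {Λ : Finset V} {f : (V → V) → ℝ} {σ : V → V}
    (h : ∀ ρ ∈ perf Λ σ, 0 ≤ f ρ) : 0 ≤ gam Λ f σ :=
  div_nonneg (sum_nonneg h) (Nat.cast_nonneg _)

lemma QGD_zz_pos {Λ Λ' : Finset V} (h : Λ' ⊆ Λ) {σ ρ : V → V} (hρ : ρ ∈ perf Λ σ) :
    0 < zz Λ' ρ := by
  obtain ⟨⟨h1, -⟩, h2⟩ := mem_perf.1 hρ
  exact card_pos.2 ⟨ρ, mem_perf.2 ⟨⟨h1, fun _ _ => rfl⟩, fun x hx => h2 x (h hx)⟩⟩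

lemma QGD_exists_box (X : Finset V) : ∃ n : ℕ, X ⊆ box n := by
  refine ⟨X.sup fun x => univ.sup fun i => (x i).natAbs, fun x hx => mem_box.2 fun i => ?_⟩
  have h1 : (x i).natAbs ≤ univ.sup fun i => (x i).natAbs :=
    le_sup (f := fun i => (x i).natAbs) (mem_univ i)
  have h2 : (univ.sup fun i => (x i).natAbs) ≤ X.sup fun x => univ.sup fun i => (x i).natAbs :=
    le_sup (f := fun x : V => univ.sup fun i => (x i).natAbs) hx
  omega

lemma QGD_Mr_le (Λ : Finset V) (σ : V → V) (X : Finset V) : Mr Λ σ X ≤ 7 ^ Λ.card := by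
  have h1 : (Zm Λ σ X : ℝ) ≤ 7 ^ Λ.card := by
    have := (card_filter_le (cls Λ σ) fun ρ => mon Λ ρ = X).trans (card_cls_le Λ σ)
    exact_mod_cast this
  unfold Mr
  rcases Nat.eq_zero_or_pos (zz Λ σ) with h | h
  · rw [h]; simp
  · refine (div_le_self (Nat.cast_nonneg _) ?_).trans h1
    exact_mod_cast h

lemma QGD_one_sub_prod {ι : Type} (s : Finset ι) (a : ι → ℝ) (h0 : ∀ i ∈ s, 0 ≤ a i)
    (h1 : ∀ i ∈ s, a i ≤ 1) : 1 - ∏ i ∈ s, a i ≤ ∑ i ∈ s, (1 - a i) := by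
  classical
  induction s using Finset.induction_on with
  | empty => simp
  | insert j s hj ih =>
    rw [prod_insert hj, sum_insert hj]
    have ih' := ih (fun i hi => h0 i (mem_insert_of_mem hi)) fun i hi => h1 i (mem_insert_of_mem hi)
    have hp : ∏ i ∈ s, a i ≤ 1 :=
      prod_le_one (fun i hi => h0 i (mem_insert_of_mem hi)) fun i hi => h1 i (mem_insert_of_mem hi)
    have a0 := h0 j (mem_insert_self _ _)
    have a1 := h1 j (mem_insert_self _ _)
    linarith only [ih', hp, a1, mul_nonneg_of_nonpos_of_nonpos (Mathlib.Tactic.Linarith.sub_nonpos_of_le hp) (Mathlib.Tactic.Linarith.sub_nonpos_of_le a1)]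

lemma QGD_cos_le {x : ℝ} (hx : |x| ≤ 1) : 0 ≤ Real.cos x ∧ Real.cos x ≤ Real.exp (-(x ^ 2 / 5)) := by
  have hpi := Real.pi_gt_three
  have hpi2 := Real.pi_lt_d2
  obtain ⟨h1, h2⟩ := abs_le.1 hx
  refine ⟨Real.cos_nonneg_of_mem_Icc ⟨by linarith only [hpi, hpi2, h1], by linarith only [hpi, hpi2, h2]⟩, ?_⟩
  have h3 := Real.cos_le_one_sub_mul_cos_sq (x := x) (by linarith only [hx, hpi, hpi2])
  have h4 : (1 : ℝ) / 5 ≤ 2 / Real.pi ^ 2 := by
    rw [div_le_div_iff₀ (by norm_num) (by positivity)]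
    linarith only [hpi, hpi2, mul_pos_of_neg_of_neg (Mathlib.Tactic.Linarith.sub_neg_of_lt hpi) (Mathlib.Tactic.Linarith.sub_neg_of_lt hpi2)]
  have h5 := Real.add_one_le_exp (-(x ^ 2 / 5))
  linarith only [h3, h5, h4, sq_nonneg x, mul_nonneg_of_nonpos_of_nonpos (Mathlib.Tactic.Linarith.sub_nonpos_of_le (sq_nonneg x)) (Mathlib.Tactic.Linarith.sub_nonpos_of_le h4)]

/-- Affine functions of the edge occupations that ignore the edges of `D`. -/
def QGD_Aff (Λ : Finset V) (D : Finset Edge) (F : (V → V) → ℝ) : Prop :=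
  ∃ (a : ℝ) (s : Edge → ℝ), (∀ e ∈ D, s e = 0) ∧
    ∀ ρ, IsExt ρ → F ρ = a + ∑ e ∈ edges Λ, if ρ (src e) = tgt e then s e else 0

lemma QGD_Aff.smul {Λ : Finset V} {D : Finset Edge} {F : (V → V) → ℝ} (h : QGD_Aff Λ D F)
    (θ : ℝ) : QGD_Aff Λ D fun ρ => θ * F ρ := by
  obtain ⟨a, s, h1, h2⟩ := h
  refine ⟨θ * a, fun e => θ * s e, fun e he => by simp [h1 e he], fun ρ hρ => ?_⟩
  simp only [h2 ρ hρ, mul_add, mul_sum, mul_ite, mul_zero]

lemma QGD_Aff.sum {ι : Type} {Λ : Finset V} {D : Finset Edge} (J : Finset ι)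
    {F : ι → (V → V) → ℝ} (h : ∀ j, QGD_Aff Λ D (F j)) :
    QGD_Aff Λ D fun ρ => ∑ j ∈ J, F j ρ := by
  choose a s h1 h2 using h
  refine ⟨∑ j ∈ J, a j, fun e => ∑ j ∈ J, s j e, fun e he => by simp [h1 _ e he],
    fun ρ hρ => ?_⟩
  simp only [h2 _ ρ hρ, sum_add_distrib]
  rw [sum_comm]
  congr 1
  exact sum_congr rfl fun e _ => by split_ifs <;> simp

lemma QGD_mix_cos {κ : Type} {Λ : Finset V} {D : Finset Edge} (hD : D ⊆ edges Λ)
    (M : Edge → Bool → Bool → ℝ) (hM : ∀ e ∈ D, ContrR (M e)) (J : Finset κ)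
    (F : κ → (V → V) → ℝ) (h : ∀ j ∈ J, QGD_Aff Λ D (F j)) :
    Mix Λ (fun ρ => ((cX D M (mon Λ ρ) * ∏ j ∈ J, Real.cos (F j ρ) : ℝ) : ℂ)) 1 := by
  classical
  have h' : ∀ j, ∃ (a : ℝ) (s : Edge → ℝ), j ∈ J → (∀ e ∈ D, s e = 0) ∧
      ∀ ρ, IsExt ρ → F j ρ = a + ∑ e ∈ edges Λ, if ρ (src e) = tgt e then s e else 0 := by
    intro j
    by_cases hj : j ∈ J
    · obtain ⟨a, s, hs⟩ := h j hj
      exact ⟨a, s, fun _ => hs⟩
    · exact ⟨0, 0, fun h => absurd h hj⟩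
  choose a s hs using h'
  refine (mix_soft hD M hM J a s fun j hj => (hs j hj).1).mono (fun ρ hρ => ?_) le_rfl
  congr 2
  exact prod_congr rfl fun j hj => by rw [(hs j hj).2 ρ hρ]

lemma QGD_aff_FQ {D : Finset Edge} {m₀ t m : ℕ} (hD : verts D ⊆ box m₀) (h0 : m₀ ≤ t)
    (hm : t < m) (d : Dir) (c : V) (l : ℕ)
    (hc : sq d.1 c l ⊆ sq d.1 (corner d t 0 (0, 0)) (2 * t + 1)) :
    QGD_Aff (box m) D fun ρ => FQ ρ d c l := by
  obtain ⟨a, s, h1, h2⟩ := FQ_affine d c l (box m) fun x hx => by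
    have := mem_face.1 (hc hx)
    exact ⟨box_mono hm.le this.1, box_mono hm (add_dv_mem_box this.1 d)⟩
  refine ⟨a, s, fun e he => ?_, h2⟩
  by_contra hne
  obtain ⟨x, hx, hx'⟩ := h1 e hne
  have := (mem_face.1 (hc hx)).2
  apply this
  refine box_mono h0 (hD ?_)
  rcases hx' with h | h
  · rw [← h]; exact mem_union_left _ (mem_image_of_mem _ he)
  · rw [← h]; exact mem_union_right _ (mem_image_of_mem _ he)

lemma QGD_face_disj {d : Dir} {t m₀ : ℕ} (h : m₀ < t) :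
    Disjoint (sq d.1 (corner d t 0 (0, 0)) (2 * t + 1)) (box m₀) := by
  refine disjoint_left.2 fun x hx hx' => (mem_face.1 hx).2 ?_
  exact box_mono h (add_dv_mem_box hx' d)

/-- Index set of the squares of the levels `b - w < t < b`. -/
noncomputable def QGD_I (b w l : ℕ) : Finset (Σ _ : ℕ, Dir × (ℕ × ℕ)) :=
  (Finset.Ioo (b - w) b).sigma fun t => univ ×ˢ sqs t l

/-- Flux through the square with index `i`. -/
noncomputable def QGD_F (l : ℕ) (i : Σ _ : ℕ, Dir × (ℕ × ℕ)) (ρ : V → V) : ℝ :=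
  FQ ρ i.2.1 (corner i.2.1 i.1 l i.2.2) l

lemma QGD_Psi_eq (b w l : ℕ) (ρ : V → V) :
    Psi b w l ρ = ∑ i ∈ QGD_I b w l, QGD_F l i ρ ^ 2 := by
  rw [Psi, QGD_I, sum_sigma]
  exact sum_congr rfl fun t _ => by rw [sum_product]; rfl

/-- The soft factor. -/
noncomputable def QGD_soft (m l q : ℕ) (θ : ℝ) (ρ : V → V) : ℝ :=
  (∏ i ∈ QGD_I m (m / 8) l, Real.cos (θ * QGD_F l i ρ)) *
    ∏ j ∈ Finset.Icc 1 q, Real.cos (Real.pi / (2 * j) * Phi ρ (m - 4 * (m / 8)))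

lemma QGD_mem_I {b w l : ℕ} {i : Σ _ : ℕ, Dir × (ℕ × ℕ)} (hi : i ∈ QGD_I b w l) :
    b - w < i.1 ∧ i.1 < b ∧ i.2.2 ∈ sqs i.1 l := by
  simp only [QGD_I, mem_sigma, mem_Ioo, mem_product, mem_univ, true_and] at hi
  exact ⟨hi.1.1, hi.1.2, hi.2⟩

lemma QGD_soft_local {Λ : Finset V} {m l q : ℕ} {θ : ℝ}
    (h : ∀ (d : Dir) (t : ℕ), m - 4 * (m / 8) ≤ t → t ≤ m →
      sq d.1 (corner d t 0 (0, 0)) (2 * t + 1) ⊆ Λ) : Local Λ (QGD_soft m l q θ) := by
  refine QGD_loc2 (· * ·) (QGD_locprod _ fun i hi => ?_) (QGD_locprod _ fun j _ => ?_)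
  · obtain ⟨h1, h2, h3⟩ := QGD_mem_I hi
    exact QGD_loc1 (fun x => Real.cos (θ * x)) ((local_FQ _ _ _).mono
      ((sq_corner_subset h3).trans (h _ _ (by omega) h2.le)))
  · refine QGD_loc1 (fun x => Real.cos (Real.pi / (2 * j) * x)) (QGD_locsum _ fun d _ => ?_)
    exact (local_FQ _ _ _).mono (h d _ le_rfl (by omega))

lemma QGD_soft_local_box (m l q : ℕ) (θ : ℝ) : Local (box m) (QGD_soft m l q θ) :=
  QGD_soft_local fun _ _ _ h2 _ hx => box_mono h2 (mem_face.1 hx).1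

lemma QGD_soft_off {m m₀ : ℕ} (h : m₀ < m - 4 * (m / 8)) (l q : ℕ) (θ : ℝ) :
    Off (box m₀) (QGD_soft m l q θ) := by
  refine (QGD_soft_local (Λ := box m \ box m₀) fun d t h1 h2 x hx => ?_).off sdiff_disjoint
  exact mem_sdiff.2 ⟨box_mono h2 (mem_face.1 hx).1,
    disjoint_left.1 (QGD_face_disj (by omega)) hx⟩

lemma QGD_abs_soft_le (m l q : ℕ) (θ : ℝ) (ρ : V → V) : |QGD_soft m l q θ ρ| ≤ 1 := by
  rw [QGD_soft, abs_mul, abs_prod, abs_prod]
  exact mul_le_one₀ (prod_le_one (fun _ _ => abs_nonneg _) fun _ _ => Real.abs_cos_le_one _)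
    (prod_nonneg fun _ _ => abs_nonneg _)
    (prod_le_one (fun _ _ => abs_nonneg _) fun _ _ => Real.abs_cos_le_one _)

lemma QGD_arg {l : ℕ} {θ : ℝ} (h0 : 0 ≤ θ) (h : θ * (l : ℝ) ^ 2 ≤ 1)
    (i : Σ _ : ℕ, Dir × (ℕ × ℕ)) (ρ : V → V) : |θ * QGD_F l i ρ| ≤ 1 := by
  rw [abs_mul, abs_of_nonneg h0]
  exact (mul_le_mul_of_nonneg_left (abs_FQ_le _ _ _ _) h0).trans h

lemma QGD_soft_dimer {m l q : ℕ} {θ : ℝ} (h0 : 0 ≤ θ) (h : θ * (l : ℝ) ^ 2 ≤ 1) (τ : Dimer) :
    1 - QGD_soft m l q θ τ.1 ≤ θ ^ 2 / 2 * Psi m (m / 8) l τ.1 := by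
  have hP : Phi τ.1 (m - 4 * (m / 8)) = 0 := by
    rw [Phi_eq (isExt_dimer τ)]
    have : mon (box (m - 4 * (m / 8))) τ.1 = ∅ := by
      refine eq_empty_of_forall_notMem fun x hx => ?_
      have h1 := (τ.2 x).1
      rw [(mem_mon.1 hx).2] at h1
      simp [Nbr] at h1
    simp [this]
  rw [QGD_soft, hP]
  simp only [mul_zero, Real.cos_zero, prod_const_one, mul_one]
  refine (QGD_one_sub_prod _ _ (fun i _ => (QGD_cos_le (QGD_arg h0 h i _)).1)
    fun i _ => Real.cos_le_one _).trans ?_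
  rw [QGD_Psi_eq, mul_sum]
  refine sum_le_sum fun i _ => ?_
  have := Real.one_sub_sq_div_two_le_cos (x := θ * QGD_F l i τ.1)
  linarith only [this]

lemma QGD_soft_small {m l q : ℕ} {θ K : ℝ} (h0 : 0 ≤ θ) (h : θ * (l : ℝ) ^ 2 ≤ 1) (ρ : V → V)
    (hK : 5 * K ≤ θ ^ 2 * Psi m (m / 8) l ρ) : |QGD_soft m l q θ ρ| ≤ Real.exp (-K) := by
  rw [QGD_soft, abs_mul, abs_prod (Finset.Icc 1 q)]
  have h1 : |∏ i ∈ QGD_I m (m / 8) l, Real.cos (θ * QGD_F l i ρ)| ≤ Real.exp (-K) := by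
    rw [abs_of_nonneg (prod_nonneg fun i _ => (QGD_cos_le (QGD_arg h0 h i _)).1)]
    refine (prod_le_prod (fun i _ => (QGD_cos_le (QGD_arg h0 h i _)).1)
      fun i _ => (QGD_cos_le (QGD_arg h0 h i ρ)).2).trans ?_
    rw [← Real.exp_sum, Real.exp_le_exp, sum_neg_distrib, neg_le_neg_iff, ← sum_div]
    rw [QGD_Psi_eq, mul_sum] at hK
    simp only [mul_pow]
    linarith only [hK]
  exact (mul_le_of_le_one_right (abs_nonneg _)
    (prod_le_one (fun _ _ => abs_nonneg _) fun _ _ => Real.abs_cos_le_one _)).trans h1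

lemma QGD_sum_sg (X : Finset V) : ∃ n : ℤ, ∑ x ∈ X, sg x = n ∧ n.natAbs ≤ X.card := by
  classical
  induction X using Finset.induction_on with
  | empty => exact ⟨0, by simp, by simp⟩
  | insert a s ha ih =>
    obtain ⟨n, h1, h2⟩ := ih
    rw [sum_insert ha, card_insert_of_notMem ha, h1]
    unfold sg
    split_ifs
    · exact ⟨1 + n, by push_cast; ring, by omega⟩
    · exact ⟨-1 + n, by push_cast; ring, by omega⟩

lemma QGD_soft_charged {m l q : ℕ} {θ : ℝ} {ρ : V → V} (hρ : IsExt ρ)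
    (hq : (mon (box (m - 4 * (m / 8))) ρ).card ≤ q) (h : Phi ρ (m - 4 * (m / 8)) ≠ 0) :
    QGD_soft m l q θ ρ = 0 := by
  obtain ⟨n, h1, h2⟩ := QGD_sum_sg (mon (box (m - 4 * (m / 8))) ρ)
  have hP : Phi ρ (m - 4 * (m / 8)) = -(n : ℝ) := by rw [Phi_eq hρ, h1]
  have hn : n ≠ 0 := by
    rintro rfl
    exact h (by simp [hP])
  rw [QGD_soft]
  refine mul_eq_zero_of_right _ (prod_eq_zero (i := n.natAbs) (mem_Icc.2 ⟨by omega, by omega⟩) ?_)
  rw [hP]
  have hn' : (n : ℝ) ≠ 0 := by exact_mod_cast hn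
  rcases Int.natAbs_eq n with h3 | h3
  · have : ((n.natAbs : ℕ) : ℝ) = n := by
      rw [← Int.cast_natCast, ← h3]
    rw [this, show Real.pi / (2 * n) * -(n : ℝ) = -(Real.pi / 2) by field_simp, Real.cos_neg,
      Real.cos_pi_div_two]
  · have : ((n.natAbs : ℕ) : ℝ) = -n := by
      have : ((n.natAbs : ℕ) : ℤ) = -n := by omega
      rw [← Int.cast_natCast, this, Int.cast_neg]
    rw [this, show Real.pi / (2 * -n) * -(n : ℝ) = Real.pi / 2 by field_simp,
      Real.cos_pi_div_two]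

lemma QGD_mix_soft {D : Finset Edge} {m₀ m : ℕ} (hD : verts D ⊆ box m₀)
    (h0 : m₀ < m - 4 * (m / 8)) (hm : 8 ≤ m) (M : Edge → Bool → Bool → ℝ)
    (hM : ∀ e ∈ D, ContrR (M e)) (l q : ℕ) (θ : ℝ) :
    Mix (box m) (fun ρ => ((cX D M (mon (box m) ρ) * QGD_soft m l q θ ρ : ℝ) : ℂ)) 1 := by
  have hDe : D ⊆ edges (box m) := fun e he => mem_edges.2
    ⟨box_mono (by omega) (hD (mem_union_left _ (mem_image_of_mem _ he))),
      box_mono (by omega) (hD (mem_union_right _ (mem_image_of_mem _ he)))⟩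
  have := QGD_mix_cos hDe M hM ((QGD_I m (m / 8) l).disjSum (Finset.Icc 1 q))
    (Sum.elim (fun i ρ => θ * QGD_F l i ρ)
      fun j ρ => Real.pi / (2 * j) * Phi ρ (m - 4 * (m / 8))) ?_
  · refine this.mono (fun ρ _ => ?_) le_rfl
    rw [prod_disjSum]
    rfl
  · rintro (i | j) hj
    · obtain ⟨h1, h2, h3⟩ := QGD_mem_I (inl_mem_disjSum.1 hj)
      exact (QGD_aff_FQ hD (by omega) h2 _ _ _ (sq_corner_subset h3)).smul θ
    · exact (QGD_Aff.sum univ fun d =>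
        QGD_aff_FQ hD h0.le (by omega) d _ _ Subset.rfl).smul _

end Pool.Agent.Work.MP_5cb0a4_pr.Z
end

-- merged part: Pool.Agent.Work.MP_5cb0a4_pr.Z.QGD
section
open MeasureTheory Finset MvPolynomial Filter Topology

namespace Pool.Agent.Work.MP_5cb0a4_pr.Z

lemma QGD_mean_mono {ν : Measure Dimer} (h : EG0 ν) {m N : ℕ} (hm : m ≤ N) {X : Finset V}
    (hX : X ⊆ box m) : ∫ τ, Mr (box m) τ.1 X ∂ν ≤ ∫ τ, Mr (box N) τ.1 X ∂ν := by
  have := h.eg.prob
  rw [← dlr h.eg (box N) (local_Mr (box m) X)]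
  exact integral_mono ((local_gam (local_Mr (box m) X)).integrable ν)
    ((local_Mr (box N) X).integrable ν) fun τ => Mr_super (box_mono hm) hX τ.1

lemma QGD_sum_ind (Λ : Finset V) (σ : V → V) (X : Finset V) :
    ∑ ρ ∈ cls Λ σ, (if mon Λ ρ = X then (1 : ℝ) else 0) = Zm Λ σ X := by
  simp [Zm]

theorem mean_Mr_le {ν : Measure Dimer} (h : EG0 ν) (m : ℕ) (X : Finset V) :
    ∫ τ, Mr (box m) τ.1 X ∂ν ≤ 1 := by
  have := h.eg.prob
  by_cases hX : X ⊆ box m
  · refine (QGD_mean_mono h (Nat.le_succ m) hX).trans ?_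
    have ht := transfer h (m + 1) (fun ρ => if mon (box (m + 1)) ρ = X then 1 else 0) 1
      (QGD_loc1 (fun Y => if Y = X then (1 : ℝ) else 0) (local_mon _))
      ((mix_mon (Λ := box (m + 1)) (X := X) fun x hx => ⟨box_mono (Nat.le_succ m) (hX hx),
        e0_eq ▸ add_dv_mem_box (hX hx) _⟩).mono (fun ρ _ => by split_ifs <;> simp) le_rfl)
      (fun ρ _ _ => sum_nonneg fun _ _ => by split_ifs <;> norm_num)
    simp only [QGD_sum_ind] at ht
    have h1 : Tendsto (fun N : ℕ => 1 + ∫ τ, max (gam (box N)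
        (fun ρ => (Zm (box (m + 1)) ρ X : ℝ) / zz (box (m + 1)) ρ) τ.1 - 1) 0 ∂ν) atTop
        (𝓝 (1 + 0)) := tendsto_const_nhds.add ht
    rw [add_zero] at h1
    refine ge_of_tendsto' h1 fun N => ?_
    have hl := local_gam (Λ := box N) (local_Mr (box (m + 1)) X)
    rw [← dlr h.eg (box N) (local_Mr (box (m + 1)) X)]
    have hi : Integrable (fun τ : Dimer => max (gam (box N)
        (fun ρ => Mr (box (m + 1)) ρ X) τ.1 - 1) 0) ν :=
      (QGD_loc1 (fun x => max (x - 1) 0) hl).integrable ν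
    calc ∫ τ, gam (box N) (fun ρ => Mr (box (m + 1)) ρ X) τ.1 ∂ν
        ≤ ∫ τ, (1 + max (gam (box N) (fun ρ => Mr (box (m + 1)) ρ X) τ.1 - 1) 0) ∂ν :=
          integral_mono (hl.integrable ν) ((integrable_const _).add hi) fun τ => by
            have := le_max_left (gam (box N) (fun ρ => Mr (box (m + 1)) ρ X) τ.1 - 1) 0
            dsimp only
            linarith
      _ = _ := by
          rw [integral_add (integrable_const _) hi]
          simp [Mr]
  · have : ∀ τ : Dimer, Mr (box m) τ.1 X = 0 := fun τ => by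
      have : Zm (box m) τ.1 X = 0 := by
        rw [Zm, card_eq_zero, filter_eq_empty_iff]
        rintro ρ - rfl
        exact hX (filter_subset _ _)
      simp [Mr, this]
    simp [this]

theorem mr_gap {ν : Measure Dimer} (h : EG0 ν) (X : Finset V) {ε : ℝ} (hε : 0 < ε) :
    ∃ m₀ : ℕ, X ⊆ box m₀ ∧ ∀ m ≥ m₀, ∀ N ≥ m,
      ∫ τ, Mr (box N) τ.1 X ∂ν - ∫ τ, Mr (box m) τ.1 X ∂ν ≤ ε := by
  obtain ⟨n₀, hn₀⟩ := QGD_exists_box X
  let a : ℕ → ℝ := fun n => ∫ τ, Mr (box (n₀ + n)) τ.1 X ∂ν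
  have hb : BddAbove (Set.range a) := ⟨1, by rintro _ ⟨n, rfl⟩; exact mean_Mr_le h _ _⟩
  obtain ⟨n, hn⟩ := exists_lt_of_lt_ciSup (f := a) (sub_lt_self (⨆ n, a n) hε)
  refine ⟨n₀ + n, hn₀.trans (box_mono (by omega)), fun m hm N hN => ?_⟩
  have h1 : a n ≤ ∫ τ, Mr (box m) τ.1 X ∂ν :=
    QGD_mean_mono h hm (hn₀.trans (box_mono (by omega)))
  have h2 : a (N - n₀) ≤ ⨆ n, a n := le_ciSup hb _
  have h3 : a (N - n₀) = ∫ τ, Mr (box N) τ.1 X ∂ν := by
    simp only [a]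
    rw [show n₀ + (N - n₀) = N by omega]
  linarith only [hn, h1, h2, h3]

lemma QGD_gap_all {ν : Measure Dimer} (h : EG0 ν) (T : Finset V) {ε : ℝ} (hε : 0 < ε) :
    ∃ m₀ : ℕ, T ⊆ box m₀ ∧ ∀ X ∈ T.powerset, ∀ m ≥ m₀, ∀ N ≥ m,
      ∫ τ, Mr (box N) τ.1 X ∂ν - ∫ τ, Mr (box m) τ.1 X ∂ν ≤ ε := by
  choose f hf using fun X => mr_gap h X hε
  refine ⟨T.powerset.sup f, (hf T).1.trans (box_mono (le_sup (mem_powerset_self T))),
    fun X hX m hm N hN => (hf X).2 m ((le_sup hX).trans hm) N hN⟩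

/-- The weight that is transferred. -/
noncomputable def QGD_b (D : Finset Edge) (M : Edge → Bool → Bool → ℝ) (m l : ℕ) (θ K : ℝ)
    (ρ : V → V) : ℝ :=
  cX D M (mon (box m) ρ) * QGD_soft m l (verts D).card θ ρ +
    Real.exp (-K) * |cX D M (mon (box m) ρ)|

lemma QGD_b_local (D : Finset Edge) (M : Edge → Bool → Bool → ℝ) (m l : ℕ) (θ K : ℝ) :
    Local (box m) (QGD_b D M m l θ K) :=
  QGD_loc2 (fun Y s => cX D M Y * s + Real.exp (-K) * |cX D M Y|) (local_mon _)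
    (QGD_soft_local_box _ _ _ _)

lemma QGD_b_mix {D : Finset Edge} {m₀ m : ℕ} (hD : verts D ⊆ box m₀)
    (h0 : m₀ < m - 4 * (m / 8)) (hm : 8 ≤ m) (M : Edge → Bool → Bool → ℝ)
    (hM : ∀ e ∈ D, ContrR (M e)) (l : ℕ) (θ K : ℝ) :
    Mix (box m) (fun ρ => (QGD_b D M m l θ K ρ : ℂ))
      (1 + Real.exp (-K) * ∑ X ∈ (verts D).powerset, |cX D M X|) := by
  have h1 := QGD_mix_soft hD h0 hm M hM l (verts D).card θ
  have h2 := Mix.sum (Λ := box m) (verts D).powerset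
    (fun X ρ => ((Real.exp (-K) * |cX D M X| : ℝ) : ℂ) * if mon (box m) ρ = X then 1 else 0)
    (fun X => ‖((Real.exp (-K) * |cX D M X| : ℝ) : ℂ)‖ * 1) fun X hX =>
      Mix.smul _ (mix_mon fun x hx => ⟨box_mono (by omega) (hD (mem_powerset.1 hX hx)),
        e0_eq ▸ box_mono (show m₀ + 1 ≤ m by omega)
          (add_dv_mem_box (hD (mem_powerset.1 hX hx)) _)⟩)
  refine (h1.add h2).mono (fun ρ _ => ?_) (le_of_eq ?_)
  · simp only [QGD_b, mul_ite, mul_one, mul_zero, sum_ite_eq, mem_powerset]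
    split_ifs with hs
    · push_cast; ring
    · simp [cX_eq_zero M hs]
  · rw [mul_sum]
    congr 1
    refine sum_congr rfl fun X _ => ?_
    rw [mul_one, Complex.norm_real, Real.norm_eq_abs, abs_of_nonneg (by positivity)]

lemma QGD_b_nonneg {D : Finset Edge} {m₀ m l : ℕ} (hD : verts D ⊆ box m₀)
    (h0 : m₀ < m - 4 * (m / 8)) (M : Edge → Bool → Bool → ℝ) {θ K c : ℝ} (hθ : 0 ≤ θ)
    (hθl : θ * (l : ℝ) ^ 2 ≤ 1) (hK : 5 * K ≤ θ ^ 2 * (c * (m : ℝ) ^ 3 * (l : ℝ) ^ 2))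
    (hp : ∀ σ : V → V, IsExt σ → (∀ x ∈ box m, x ∉ box (m - 4 * (m / 8)) → σ x ≠ x) →
      Phi σ (m - 4 * (m / 8)) = 0 → Psi m (m / 8) l σ < c * (m : ℝ) ^ 3 * (l : ℝ) ^ 2 →
      0 < zz (box m) σ)
    {ρ : V → V} (hz : zz (box m) ρ = 0) :
    0 ≤ ∑ ρ' ∈ cls (box m) ρ, QGD_b D M m l θ K ρ' := by
  refine sum_nonneg fun σ hσ => ?_
  obtain ⟨hσ1, hσ2⟩ := mem_cls.1 hσ
  by_cases hs : mon (box m) σ ⊆ verts D
  · have hsm : |QGD_soft m l (verts D).card θ σ| ≤ Real.exp (-K) := by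
      by_cases hP : Phi σ (m - 4 * (m / 8)) = 0
      · refine QGD_soft_small hθ hθl σ (hK.trans (mul_le_mul_of_nonneg_left ?_ (sq_nonneg _)))
        by_contra hn
        have := hp σ hσ1 (fun x hx hx' hxx =>
          hx' (box_mono h0.le (hD (hs (mem_mon.2 ⟨hx, hxx⟩))))) hP (not_le.1 hn)
        have h2 : zz (box m) σ = zz (box m) ρ := by simp only [zz, perf, cls_eq hσ2]
        omega
      · rw [QGD_soft_charged hσ1 (card_le_card fun x hx => hs (mem_mon.2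
          ⟨box_mono (Nat.sub_le _ _) (mem_mon.1 hx).1, (mem_mon.1 hx).2⟩)) hP, abs_zero]
        positivity
    have h1 := neg_abs_le (cX D M (mon (box m) σ) * QGD_soft m l (verts D).card θ σ)
    rw [abs_mul] at h1
    have h2 := mul_le_mul_of_nonneg_left hsm (abs_nonneg (cX D M (mon (box m) σ)))
    unfold QGD_b
    linarith only [h1, h2]
  · simp [QGD_b, cX_eq_zero M hs]

/-- Error made by inserting the soft factor. -/
noncomputable def QGD_err (D : Finset Edge) (M : Edge → Bool → Bool → ℝ) (m₀ m l : ℕ) (θ : ℝ)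
    (ρ : V → V) : ℝ :=
  ∑ X ∈ (verts D).powerset, |cX D M X| *
    (7 ^ (box m₀).card * gam (box m) (fun σ => 1 - QGD_soft m l (verts D).card θ σ) ρ +
      2 * (Mr (box m) ρ X - gam (box m) (fun σ => Mr (box m₀) σ X) ρ))

lemma QGD_err_local (D : Finset Edge) (M : Edge → Bool → Bool → ℝ) {m₀ m : ℕ} (h : m₀ ≤ m)
    (l : ℕ) (θ : ℝ) : Local (box m) (QGD_err D M m₀ m l θ) := by
  refine QGD_locsum _ fun X _ => QGD_loc2
    (fun a b => |cX D M X| * ((7 : ℝ) ^ (box m₀).card * a + 2 * b)) ?_ ?_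
  · exact QGD_locgam (QGD_loc1 (fun s => 1 - s) (QGD_soft_local_box _ _ _ _))
  · exact QGD_loc2 (· - ·) (local_Mr _ _) (QGD_locgam ((local_Mr _ _).mono (box_mono h)))

lemma QGD_err_nonneg {D : Finset Edge} (M : Edge → Bool → Bool → ℝ) {m₀ m : ℕ}
    (hD : verts D ⊆ box m₀) (h : m₀ ≤ m) (l : ℕ) (θ : ℝ) (ρ : V → V) :
    0 ≤ QGD_err D M m₀ m l θ ρ := by
  refine sum_nonneg fun X hX => mul_nonneg (abs_nonneg _) (add_nonneg (mul_nonneg (by positivity)
    (QGD_gam_nonneg fun σ _ => ?_)) (mul_nonneg (by norm_num) (sub_nonneg.2 ?_)))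
  · have := (abs_le.1 (QGD_abs_soft_le m l (verts D).card θ σ)).2
    linarith only [this]
  · exact Mr_super (box_mono h) ((mem_powerset.1 hX).trans hD) ρ

lemma QGD_one_X {m₀ m l q : ℕ} (h0 : m₀ < m - 4 * (m / 8)) {X : Finset V} (hX : X ⊆ box m₀)
    (θ : ℝ) (ρ : V → V) :
    ∑ σ ∈ (cls (box m) ρ).filter (fun σ => mon (box m) σ = X), (1 - QGD_soft m l q θ σ) ≤
      7 ^ (box m₀).card * ∑ σ ∈ perf (box m) ρ, (1 - QGD_soft m l q θ σ) +
        2 * (Zm (box m) ρ X - ∑ σ ∈ perf (box m) ρ, Mr (box m₀) σ X) := by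
  have hsub : box m₀ ⊆ box m := box_mono (by omega)
  have hoff : Off (box m₀) fun σ => 1 - QGD_soft m l q θ σ := fun σ σ' a b c => by
    simp only [QGD_soft_off h0 l q θ σ σ' a b c]
  have r1 := rep_sum hsub hX ρ _ hoff
  have r2 := rep_sum hsub hX ρ (fun _ => (1 : ℝ)) fun _ _ _ _ _ => rfl
  rw [← sum_filter_add_sum_filter_not _ fun σ => 0 < zz (box m₀) σ, filter_filter, r1]
  refine add_le_add ?_ ?_
  · rw [mul_sum]
    refine sum_le_sum fun σ _ => mul_le_mul_of_nonneg_right (QGD_Mr_le _ _ _) ?_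
    have := (abs_le.1 (QGD_abs_soft_le m l q θ σ)).2
    linarith only [this]
  · have hc := sum_filter_add_sum_filter_not
      ((cls (box m) ρ).filter fun σ => mon (box m) σ = X) (fun σ => 0 < zz (box m₀) σ)
      fun _ => (1 : ℝ)
    rw [filter_filter, r2] at hc
    simp only [mul_one] at hc
    have hZ : (Zm (box m) ρ X : ℝ) =
        ∑ _σ ∈ (cls (box m) ρ).filter fun σ => mon (box m) σ = X, (1 : ℝ) := by simp [Zm]
    rw [hZ, ← hc, add_sub_cancel_left, mul_sum]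
    refine sum_le_sum fun σ _ => ?_
    have := (abs_le.1 (QGD_abs_soft_le m l q θ σ)).1
    linarith only [this]

lemma QGD_Y_le {D : Finset Edge} {m₀ m : ℕ} (hD : verts D ⊆ box m₀)
    (h0 : m₀ < m - 4 * (m / 8)) (M : Edge → Bool → Bool → ℝ) (l : ℕ) (θ K : ℝ) {ρ : V → V}
    (hz : 0 < zz (box m) ρ) :
    Ysum D M (Mr (box m) ρ) ≤
      (∑ σ ∈ cls (box m) ρ, QGD_b D M m l θ K σ) / zz (box m) ρ + QGD_err D M m₀ m l θ ρ := by
  have hz' : (0 : ℝ) < zz (box m) ρ := by exact_mod_cast hz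
  have hT : verts D ⊆ box m := hD.trans (box_mono (by omega))
  rw [Ysum, ← sum_cls_mon hT (cX D M) (fun X hX => cX_eq_zero M hX) ρ]
  have herr : QGD_err D M m₀ m l θ ρ = (∑ X ∈ (verts D).powerset, |cX D M X| *
      (7 ^ (box m₀).card * ∑ σ ∈ perf (box m) ρ, (1 - QGD_soft m l (verts D).card θ σ) +
        2 * (Zm (box m) ρ X - ∑ σ ∈ perf (box m) ρ, Mr (box m₀) σ X))) / zz (box m) ρ := by
    rw [QGD_err, sum_div]
    refine sum_congr rfl fun X _ => ?_
    simp only [gam, Mr]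
    field_simp
  rw [herr, ← add_div]
  refine div_le_div_of_nonneg_right ?_ hz'.le
  have h1 : ∑ σ ∈ cls (box m) ρ, |cX D M (mon (box m) σ)| *
      (1 - QGD_soft m l (verts D).card θ σ) = ∑ X ∈ (verts D).powerset, |cX D M X| *
        ∑ σ ∈ (cls (box m) ρ).filter (fun σ => mon (box m) σ = X),
          (1 - QGD_soft m l (verts D).card θ σ) := by
    simp only [sum_filter, mul_sum, mul_ite, mul_zero]
    rw [sum_comm]
    refine sum_congr rfl fun σ _ => ?_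
    simp only [sum_ite_eq, mem_powerset]
    split_ifs with hs
    · rfl
    · simp [cX_eq_zero M hs]
  have h2 : ∑ σ ∈ cls (box m) ρ, cX D M (mon (box m) σ) ≤
      ∑ σ ∈ cls (box m) ρ, QGD_b D M m l θ K σ + ∑ σ ∈ cls (box m) ρ,
        |cX D M (mon (box m) σ)| * (1 - QGD_soft m l (verts D).card θ σ) := by
    rw [← sum_add_distrib]
    refine sum_le_sum fun σ _ => ?_
    have a1 := (abs_le.1 (QGD_abs_soft_le m l (verts D).card θ σ)).2
    have a2 := mul_le_mul_of_nonneg_right (le_abs_self (cX D M (mon (box m) σ)))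
      (sub_nonneg.2 a1)
    have a3 : 0 ≤ Real.exp (-K) * |cX D M (mon (box m) σ)| := by positivity
    unfold QGD_b
    linarith only [a2, a3]
  refine h2.trans (add_le_add le_rfl ?_)
  rw [h1]
  exact sum_le_sum fun X hX => mul_le_mul_of_nonneg_left
    (QGD_one_X h0 ((mem_powerset.1 hX).trans hD) θ ρ) (abs_nonneg _)

lemma QGD_point {D : Finset Edge} {m₀ m N : ℕ} (hD : verts D ⊆ box m₀)
    (h0 : m₀ < m - 4 * (m / 8)) (hN : m ≤ N) (M : Edge → Bool → Bool → ℝ) (l : ℕ) (θ K : ℝ)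
    (τ : V → V) :
    max (Ysum D M (Mr (box N) τ) - 1) 0 ≤
      ∑ X ∈ (verts D).powerset, |cX D M X| *
          (Mr (box N) τ X - gam (box N) (fun σ => Mr (box m) σ X) τ) +
        gam (box N) (QGD_err D M m₀ m l θ) τ +
        max (gam (box N) (fun ρ => (∑ σ ∈ cls (box m) ρ, QGD_b D M m l θ K σ) / zz (box m) ρ) τ -
          (1 + Real.exp (-K) * ∑ X ∈ (verts D).powerset, |cX D M X|)) 0 +
        Real.exp (-K) * ∑ X ∈ (verts D).powerset, |cX D M X| := by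
  have hT : verts D ⊆ box m := hD.trans (box_mono (by omega))
  have g0 : ∀ X ∈ (verts D).powerset,
      0 ≤ Mr (box N) τ X - gam (box N) (fun σ => Mr (box m) σ X) τ := fun X hX =>
    sub_nonneg.2 (Mr_super (box_mono hN) ((mem_powerset.1 hX).trans hT) τ)
  have g1 : 0 ≤ ∑ X ∈ (verts D).powerset, |cX D M X| *
      (Mr (box N) τ X - gam (box N) (fun σ => Mr (box m) σ X) τ) :=
    sum_nonneg fun X hX => mul_nonneg (abs_nonneg _) (g0 X hX)
  have g2 : 0 ≤ gam (box N) (QGD_err D M m₀ m l θ) τ :=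
    QGD_gam_nonneg fun ρ _ => QGD_err_nonneg M hD (by omega) l θ ρ
  have g3 : 0 ≤ Real.exp (-K) * ∑ X ∈ (verts D).powerset, |cX D M X| :=
    mul_nonneg (Real.exp_pos _).le (sum_nonneg fun _ _ => abs_nonneg _)
  have g4 := le_max_left (gam (box N)
    (fun ρ => (∑ σ ∈ cls (box m) ρ, QGD_b D M m l θ K σ) / zz (box m) ρ) τ -
      (1 + Real.exp (-K) * ∑ X ∈ (verts D).powerset, |cX D M X|)) 0
  have g5 := le_max_right (gam (box N)
    (fun ρ => (∑ σ ∈ cls (box m) ρ, QGD_b D M m l θ K σ) / zz (box m) ρ) τ -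
      (1 + Real.exp (-K) * ∑ X ∈ (verts D).powerset, |cX D M X|)) 0
  refine max_le ?_ (by linarith only [g1, g2, g3, g5])
  have h1 : gam (box N) (fun ρ => Ysum D M (Mr (box m) ρ)) τ ≤ gam (box N)
      (fun ρ => (∑ σ ∈ cls (box m) ρ, QGD_b D M m l θ K σ) / zz (box m) ρ) τ +
        gam (box N) (QGD_err D M m₀ m l θ) τ := by
    rw [← QGD_gam_add]
    exact gam_mono fun ρ hρ => QGD_Y_le hD h0 M l θ K (QGD_zz_pos (box_mono hN) hρ)
  have h2 : Ysum D M (Mr (box N) τ) - gam (box N) (fun ρ => Ysum D M (Mr (box m) ρ)) τ ≤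
      ∑ X ∈ (verts D).powerset, |cX D M X| *
        (Mr (box N) τ X - gam (box N) (fun σ => Mr (box m) σ X) τ) := by
    simp only [Ysum]
    rw [QGD_gam_sum (box N) _ (cX D M) fun X σ => Mr (box m) σ X, ← sum_sub_distrib]
    refine sum_le_sum fun X hX => ?_
    rw [← mul_sub]
    exact mul_le_mul_of_nonneg_right (le_abs_self _) (g0 X hX)
  linarith only [g4, h1, h2]

lemma QGD_int_gap {ν : Measure Dimer} (h : EG0 ν) (m N : ℕ) (X : Finset V) :
    ∫ τ, (Mr (box N) τ.1 X - gam (box N) (fun σ => Mr (box m) σ X) τ.1) ∂ν =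
      ∫ τ, Mr (box N) τ.1 X ∂ν - ∫ τ, Mr (box m) τ.1 X ∂ν := by
  have := h.eg.prob
  rw [integral_sub ((local_Mr _ _).integrable ν) ((local_gam (local_Mr _ _)).integrable ν),
    dlr h.eg (box N) (local_Mr (box m) X)]

lemma QGD_int_err {ν : Measure Dimer} (h : EG0 ν) (D : Finset Edge)
    (M : Edge → Bool → Bool → ℝ) {m₀ m l : ℕ} (hm : m₀ ≤ m) {θ a g : ℝ} (hθ : 0 ≤ θ)
    (hθl : θ * (l : ℝ) ^ 2 ≤ 1) (ha : θ ^ 2 / 2 * ∫ τ, Psi m (m / 8) l τ.1 ∂ν ≤ a)
    (hg : ∀ X ∈ (verts D).powerset,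
      ∫ τ, Mr (box m) τ.1 X ∂ν - ∫ τ, Mr (box m₀) τ.1 X ∂ν ≤ g) :
    ∫ τ, QGD_err D M m₀ m l θ τ.1 ∂ν ≤
      (∑ X ∈ (verts D).powerset, |cX D M X|) * (7 ^ (box m₀).card * a + 2 * g) := by
  have := h.eg.prob
  have hl : Local (box m) fun σ => 1 - QGD_soft m l (verts D).card θ σ :=
    QGD_loc1 (fun s => 1 - s) (QGD_soft_local_box _ _ _ _)
  have i1 := (QGD_locgam hl).integrable ν
  have i2 : ∀ X, Integrable (fun τ : Dimer =>
      Mr (box m) τ.1 X - gam (box m) (fun σ => Mr (box m₀) σ X) τ.1) ν := fun X =>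
    ((local_Mr _ _).integrable ν).sub ((local_gam (local_Mr _ _)).integrable ν)
  have h1 : ∫ τ, gam (box m) (fun σ => 1 - QGD_soft m l (verts D).card θ σ) τ.1 ∂ν ≤ a := by
    rw [dlr h.eg (box m) hl]
    refine le_trans ?_ ha
    rw [← integral_const_mul]
    exact integral_mono (hl.integrable ν) (((local_Psi _ _ _).integrable ν).const_mul _)
      fun τ => QGD_soft_dimer hθ hθl τ
  have i3 : ∀ X, Integrable (fun τ : Dimer => |cX D M X| * (7 ^ (box m₀).card *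
      gam (box m) (fun σ => 1 - QGD_soft m l (verts D).card θ σ) τ.1 +
      2 * (Mr (box m) τ.1 X - gam (box m) (fun σ => Mr (box m₀) σ X) τ.1))) ν := fun X =>
    ((i1.const_mul _).add ((i2 X).const_mul _)).const_mul _
  unfold QGD_err
  rw [integral_finsetSum _ fun X _ => i3 X, sum_mul]
  refine sum_le_sum fun X hX => ?_
  rw [integral_const_mul, integral_add (i1.const_mul _) ((i2 X).const_mul _), integral_const_mul,
    integral_const_mul, QGD_int_gap h]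
  refine mul_le_mul_of_nonneg_left (add_le_add (mul_le_mul_of_nonneg_left h1 (by positivity))
    (mul_le_mul_of_nonneg_left (hg X hX) (by norm_num))) (abs_nonneg _)

lemma QGD_theta {K c : ℝ} (hK : 0 < K) (hc : 0 < c) {l : ℕ} (hl : 1 ≤ l) : ∃ m₁ : ℕ, ∀ m ≥ m₁,
    ∃ θ : ℝ, 0 ≤ θ ∧ θ * (l : ℝ) ^ 2 ≤ 1 ∧ θ ^ 2 * (c * (m : ℝ) ^ 3 * (l : ℝ) ^ 2) = 5 * K := by
  obtain ⟨n, hn⟩ := exists_nat_ge (5 * K * (l : ℝ) ^ 2 / c)
  refine ⟨n + 1, fun m hm => ?_⟩
  have hm1 : (1 : ℝ) ≤ m := by exact_mod_cast (by omega : 1 ≤ m)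
  have hnm : (n : ℝ) ≤ m := by exact_mod_cast (by omega : n ≤ m)
  have hl1 : (0 : ℝ) < l := by exact_mod_cast hl
  have hpos : 0 < c * (m : ℝ) ^ 3 * (l : ℝ) ^ 2 := by positivity
  have hsq := Real.sq_sqrt (show 0 ≤ 5 * K / (c * (m : ℝ) ^ 3 * (l : ℝ) ^ 2) by positivity)
  refine ⟨√(5 * K / (c * (m : ℝ) ^ 3 * (l : ℝ) ^ 2)), Real.sqrt_nonneg _, ?_, ?_⟩
  · refine (sq_le_one_iff₀ (by positivity)).1 ?_
    rw [mul_pow, hsq, div_mul_eq_mul_div, div_le_one hpos]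
    have h1 : 5 * K * (l : ℝ) ^ 2 ≤ c * (m : ℝ) ^ 3 := by
      rw [div_le_iff₀ hc] at hn
      have : (m : ℝ) ≤ (m : ℝ) ^ 3 := le_self_pow₀ hm1 (by norm_num)
      linarith only [hn, hc, hnm, this, mul_nonneg_of_nonpos_of_nonpos (le_of_lt (Mathlib.Tactic.Linarith.sub_neg_of_lt hc)) (Mathlib.Tactic.Linarith.sub_nonpos_of_le hnm), mul_nonneg_of_nonpos_of_nonpos (le_of_lt (Mathlib.Tactic.Linarith.sub_neg_of_lt hc)) (Mathlib.Tactic.Linarith.sub_nonpos_of_le this)]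
    linarith only [h1, mul_le_mul_of_nonneg_right h1 (sq_nonneg (l : ℝ)), sq_nonneg ↑l]
  · rw [hsq]
    field_simp

/-- Quenched Gaussian domination. -/
theorem qgd {ν : Measure Dimer} (h : EG0 ν) (D : Finset Edge) (M : Edge → Bool → Bool → ℝ)
    (hM : ∀ e ∈ D, ContrR (M e)) :
    Tendsto (fun N : ℕ => ∫ τ, max (Ysum D M (Mr (box N) τ.1) - 1) 0 ∂ν) atTop (𝓝 0) := by
  have := h.eg.prob
  refine tendsto_order.2 ⟨fun a ha => Eventually.of_forall fun N =>
    ha.trans_le (integral_nonneg fun τ => le_max_right _ _), fun ε hε => ?_⟩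
  set Cw := ∑ X ∈ (verts D).powerset, |cX D M X| with hCw
  have hCw0 : 0 ≤ Cw := sum_nonneg fun _ _ => abs_nonneg _
  set g := ε / (8 * (Cw + 1)) with hg
  have hg0 : 0 < g := by positivity
  have hgC : Cw * g ≤ ε / 8 := by
    rw [hg, mul_div_assoc', div_le_div_iff₀ (by positivity) (by norm_num)]
    linarith only [hε]
  obtain ⟨K, hK, hKg⟩ : ∃ K : ℝ, 0 < K ∧ Real.exp (-K) ≤ g := by
    refine ⟨1 / g, by positivity, ?_⟩
    rw [Real.exp_neg, inv_le_comm₀ (Real.exp_pos _) hg0, ← one_div]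
    linarith only [Real.add_one_le_exp (1 / g)]
  obtain ⟨m₀, hD, hgap⟩ := QGD_gap_all h (verts D) hg0
  obtain ⟨c, hc, hpatch⟩ := patch 8 le_rfl
  obtain ⟨τ', hτ'⟩ := exists_columnar
  obtain ⟨l₀, hl₀⟩ := psi_mean h (η := 2 * c * g / (5 * K * 7 ^ (box m₀).card)) (by positivity)
  have hl1 : 1 ≤ 2 * (l₀ + 1) := by omega
  obtain ⟨b₀, hb₀⟩ := hpatch (2 * (l₀ + 1)) hl1
  obtain ⟨m₁, hm₁⟩ := QGD_theta hK hc hl1
  set l := 2 * (l₀ + 1) with hl
  obtain ⟨m, hmb, hmm, hm8, h0⟩ : ∃ m : ℕ, b₀ ≤ m ∧ m₁ ≤ m ∧ 8 ≤ m ∧ m₀ < m - 4 * (m / 8) :=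
    ⟨b₀ + m₁ + 8 + 2 * m₀, by omega, by omega, by omega, by omega⟩
  obtain ⟨θ, hθ, hθl, hθK⟩ := hm₁ m hmm
  have ht := transfer h m (QGD_b D M m l θ K) _ (QGD_b_local D M m l θ K)
    (QGD_b_mix hD h0 hm8 M hM l θ K) fun ρ _ hz =>
      QGD_b_nonneg hD h0 M hθ hθl hθK.ge (fun σ hσ h1 h2 h3 => by
        obtain ⟨ρ', hρ', -⟩ := hb₀ m hmb σ hσ τ' (hτ' l ⟨l₀ + 1, rfl⟩) h1 h2 h3
        exact card_pos.2 ⟨ρ', hρ'⟩) hz
  have herr := QGD_int_err h D M (show m₀ ≤ m by omega) (a := g / 7 ^ (box m₀).card) (g := g)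
    hθ hθl ?_ fun X hX => hgap X hX m₀ le_rfl m (by omega)
  swap
  · refine (mul_le_mul_of_nonneg_left (hl₀ l (by omega) hl1 m (m / 8) (by omega))
      (by positivity)).trans (le_of_eq ?_)
    have : θ ^ 2 / 2 * (2 * c * g / (5 * K * 7 ^ (box m₀).card) * (m : ℝ) ^ 3 * (l : ℝ) ^ 2) =
        θ ^ 2 * (c * (m : ℝ) ^ 3 * (l : ℝ) ^ 2) * (g / (5 * K * 7 ^ (box m₀).card)) := by ring
    rw [this, hθK]
    field_simp
  rw [mul_div_cancel₀ _ (by positivity), ← hCw] at herr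
  filter_upwards [(tendsto_order.1 ht).2 (ε / 8) (by positivity), eventually_ge_atTop m]
    with N hN hNm
  have lV : Local (box m) fun ρ =>
      (∑ σ ∈ cls (box m) ρ, QGD_b D M m l θ K σ) / (zz (box m) ρ : ℝ) := by
    have := local_sum_cls (Λ := box m) (QGD_b_local D M m l θ K)
    rw [union_self] at this
    exact QGD_loc2 (fun (a : ℝ) (n : ℕ) => a / n) this (local_Zm _ ∅)
  have i1 : ∀ X, Integrable (fun τ : Dimer => |cX D M X| *
      (Mr (box N) τ.1 X - gam (box N) (fun σ => Mr (box m) σ X) τ.1)) ν := fun X =>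
    (((local_Mr _ _).integrable ν).sub ((local_gam (local_Mr _ _)).integrable ν)).const_mul _
  have i1' := integrable_finsetSum (verts D).powerset fun X _ => i1 X
  have i2 := (local_gam (Λ := box N) (QGD_err_local D M (show m₀ ≤ m by omega) l θ)).integrable ν
  have i3 := (QGD_loc1 (fun x => max (x - (1 + Real.exp (-K) * Cw)) 0)
    (local_gam (Λ := box N) lV)).integrable ν
  have i0 := (QGD_loc1 (fun x => max (x - 1) 0) (QGD_locsum (Λ := box N) (verts D).powerset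
    fun X _ => QGD_loc1 (fun x => cX D M X * x) (local_Mr (box N) X))).integrable ν
  have hmono := integral_mono i0 (((i1'.add i2).add i3).add (integrable_const _))
    fun τ => QGD_point hD h0 hNm M l θ K τ.1
  rw [integral_add' ((i1'.add i2).add i3) (integrable_const _), integral_add' (i1'.add i2) i3,
    integral_add' i1' i2, integral_finsetSum _ fun X _ => i1 X,
    dlr h.eg (box N) (QGD_err_local D M (show m₀ ≤ m by omega) l θ)] at hmono
  have e1 : ∑ X ∈ (verts D).powerset, ∫ τ, |cX D M X| *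
      (Mr (box N) τ.1 X - gam (box N) (fun σ => Mr (box m) σ X) τ.1) ∂ν ≤ Cw * g := by
    rw [hCw, sum_mul]
    refine sum_le_sum fun X hX => ?_
    rw [integral_const_mul, QGD_int_gap h]
    exact mul_le_mul_of_nonneg_left (hgap X hX m (by omega) N hNm) (abs_nonneg _)
  have e2 : Real.exp (-K) * Cw ≤ Cw * g := by
    rw [mul_comm]; exact mul_le_mul_of_nonneg_left hKg hCw0
  simp only [integral_const, probReal_univ, one_smul] at hmono
  simp only [Ysum]
  linarith only [hε, hgC, herr, hN, e1, e2, hmono]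

end Pool.Agent.Work.MP_5cb0a4_pr.Z
end

-- merged part: Pool.Agent.Work.MP_5cb0a4_pr.N.Posi
section
open MeasureTheory Finset Filter Topology
open scoped Classical

namespace Pool.Agent.Work.MP_5cb0a4_pr.Z

/-- The points reached from the partner of `x` in at most `n` moves. -/
noncomputable def NPosi_R (τ : Dimer) (x : V) : ℕ → Finset V
  | 0 => {τ.1 x}
  | n + 1 => NPosi_R τ x n ∪ (NPosi_R τ x n ×ˢ (univ : Finset Dir)).image
      fun p => τ.1 (p.1 + dv p.2)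

theorem NPosi_ne (τ : Dimer) (z : V) : τ.1 z ≠ z := Cls2_nbr_ne (τ.2 z).1

theorem NPosi_odd (τ : Dimer) {x : V} (hx : IsEven x) (n : ℕ) :
    ∀ y ∈ NPosi_R τ x n, ¬ IsEven y := by
  induction n with
  | zero =>
    intro y hy
    rw [mem_singleton.1 hy, nbr_parity (τ.2 x).1]
    exact not_not.2 hx
  | succ n ih =>
    intro y hy
    rcases mem_union.1 hy with hy | hy
    · exact ih y hy
    · obtain ⟨p, hp, rfl⟩ := mem_image.1 hy
      rw [nbr_parity (τ.2 _).1, not_not, isEven_add_dv]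
      exact ih _ (mem_product.1 hp).1

theorem NPosi_zero (τ : Dimer) (x : V) (n : ℕ) : τ.1 x ∈ NPosi_R τ x n := by
  induction n with
  | zero => exact mem_singleton_self _
  | succ n ih => exact mem_union_left _ ih

theorem NPosi_fill (τ : Dimer) {x : V} (hx : IsEven x) (n : ℕ) : ∀ y ∈ NPosi_R τ x n,
    ∃ κ : V → V, IsExt κ ∧ (∀ z, κ z = z ↔ z = x ∨ z = y) ∧
      ∀ z, z ∉ NPosi_R τ x n → τ.1 z ∉ NPosi_R τ x n → κ z = τ.1 z := by
  induction n with
  | zero =>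
    intro y hy
    obtain rfl : y = τ.1 x := mem_singleton.1 hy
    have k : ∀ z, ¬ (z = x ∨ z = τ.1 x) → ¬ (τ.1 z = x ∨ τ.1 z = τ.1 x) := fun z h h' =>
      h (h'.symm.imp (fun e => (isExt_dimer τ).inj e) fun e => by rw [← e, (τ.2 z).2])
    refine ⟨fun z => if z = x ∨ z = τ.1 x then z else τ.1 z, fun z => ?_, fun z => ?_,
      fun z h1 h2 => if_neg ?_⟩
    · by_cases h : z = x ∨ z = τ.1 x
      · simp only [if_pos h, true_or, and_self]
      · simp only [if_neg h, if_neg (k z h)]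
        exact ⟨Or.inr (τ.2 z).1, (τ.2 z).2⟩
    · by_cases h : z = x ∨ z = τ.1 x
      · simp only [h, if_true]
      · simp only [h, if_false, NPosi_ne]
    · rintro (rfl | rfl)
      · exact h2 (mem_singleton_self _)
      · exact h1 (mem_singleton_self _)
  | succ n ih =>
    intro y' hy'
    have sub : NPosi_R τ x n ⊆ NPosi_R τ x (n + 1) := subset_union_left
    by_cases h0 : y' ∈ NPosi_R τ x n
    · obtain ⟨κ, k1, k2, k3⟩ := ih y' h0
      exact ⟨κ, k1, k2, fun z h1 h2 => k3 z (fun e => h1 (sub e)) fun e => h2 (sub e)⟩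
    obtain ⟨⟨y, d⟩, hp, e⟩ := mem_image.1 ((mem_union.1 hy').resolve_left h0)
    have hy : y ∈ NPosi_R τ x n := (mem_product.1 hp).1
    obtain ⟨κ, k1, k2, k3⟩ := ih y hy
    have yo := NPosi_odd τ hx n y hy
    have yo' := NPosi_odd τ hx (n + 1) y' hy'
    have hn : Nbr y (y + dv d) := nbr_iff.2 ⟨d, rfl⟩
    have we : IsEven (y + dv d) := isEven_add_dv.2 yo
    replace e : τ.1 (y + dv d) = y' := e
    generalize y + dv d = w at hn we e
    have e' : τ.1 y' = w := by rw [← e, (τ.2 w).2]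
    have a1 : κ y' = w := by
      rw [k3 y' h0 (by rw [e']; exact fun c => NPosi_odd τ hx n w c we), e']
    have a2 : κ w = y' := by rw [← a1, (k1 y').2]
    have a3 : κ y = y := (k2 y).2 (Or.inr rfl)
    have n1 : w ≠ y := fun c => yo (c ▸ we)
    have n2 : y' ≠ y := fun c => h0 (c ▸ hy)
    have n3 : y' ≠ w := fun c => yo' (c ▸ we)
    have n4 : y ≠ x := fun c => yo (c ▸ hx)
    have n5 : w ≠ x := fun c => n3 (by rw [← a2, c, (k2 x).2 (Or.inl rfl)])
    refine ⟨fun z => if z = y then w else if z = w then y else if z = y' then y' else κ z,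
      fun z => ?_, fun z => ?_, fun z h1 h2 => ?_⟩
    · by_cases c1 : z = y
      · subst c1
        simp [n1, hn]
      by_cases c2 : z = w
      · subst c2
        simp [n1, nbr_symm hn]
      by_cases c3 : z = y'
      · subst c3
        simp [n2, n3]
      have b1 : κ z ≠ y := fun c => c1 (k1.inj (c.trans a3.symm))
      have b2 : κ z ≠ w := fun c => c3 (k1.inj (c.trans a1.symm))
      have b3 : κ z ≠ y' := fun c => c2 (k1.inj (c.trans a2.symm))
      simp only [if_neg c1, if_neg c2, if_neg c3, if_neg b1, if_neg b2, if_neg b3]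
      exact k1 z
    · by_cases c1 : z = y
      · subst c1
        simp [n1, n4, n2.symm]
      by_cases c2 : z = w
      · subst c2
        simp [n1, n1.symm, n5, n3.symm]
      by_cases c3 : z = y'
      · subst c3
        simp [n2, n3]
      simp only [if_neg c1, if_neg c2, k2, c1, c3, if_false]
    · have c1 : z ≠ y := fun c => h1 (c ▸ sub hy)
      have c2 : z ≠ w := fun c => h2 (by rwa [c, e])
      have c3 : z ≠ y' := fun c => h1 (c ▸ hy')
      simp only [if_neg c1, if_neg c2, if_neg c3]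
      exact k3 z (fun c => h1 (sub c)) fun c => h2 (sub c)

theorem NPosi_box (S : Finset V) : ∃ r, S ⊆ box r := by
  refine ⟨S.sup fun z => univ.sup fun i => (z i).natAbs, fun z hz => mem_box.2 fun i => ?_⟩
  have h : (z i).natAbs ≤ S.sup fun z => univ.sup fun i => (z i).natAbs :=
    (le_sup (f := fun i => (z i).natAbs) (mem_univ i)).trans
      (le_sup (f := fun z : V => univ.sup fun i => (z i).natAbs) hz)
  omega

theorem NPosi_pos (τ : Dimer) {x y : V} (hx : IsEven x)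
    (h : Relation.ReflTransGen (fun a b => ∃ d, b = τ.1 (a + dv d)) (τ.1 x) y) :
    ∃ r, 0 < Zm (box r) τ.1 {x, y} := by
  obtain ⟨n, hn⟩ : ∃ n, y ∈ NPosi_R τ x n := by
    induction h with
    | refl => exact ⟨0, mem_singleton_self _⟩
    | tail _ h2 ih =>
      obtain ⟨n, hn⟩ := ih
      obtain ⟨d, rfl⟩ := h2
      exact ⟨n + 1, mem_union_right _ (mem_image.2 ⟨(_, d), mem_product.2 ⟨hn, mem_univ _⟩, rfl⟩)⟩
  obtain ⟨κ, k1, k2, k3⟩ := NPosi_fill τ hx n y hn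
  obtain ⟨r, hr⟩ := NPosi_box (NPosi_R τ x n ∪ (NPosi_R τ x n).image τ.1)
  have h1 : ∀ z, τ.1 z ∈ NPosi_R τ x n → z ∈ box r := fun z hz =>
    hr (mem_union_right _ (mem_image.2 ⟨_, hz, (τ.2 z).2⟩))
  refine ⟨r, card_pos.2 ⟨κ, mem_filter.2 ⟨mem_cls.2 ⟨k1, fun z hz =>
    k3 z (fun c => hz (hr (mem_union_left _ c))) fun c => hz (h1 z c)⟩, ?_⟩⟩⟩
  ext z
  rw [mem_mon, k2, mem_insert, mem_singleton]
  refine and_iff_right_of_imp ?_
  rintro (rfl | rfl)
  · exact h1 _ (NPosi_zero τ _ n)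
  · exact hr (mem_union_left _ hn)

theorem NPosi_int {T : V → V → Prop} (f : ℤ → V)
    (h : ∀ k, Relation.ReflTransGen T (f k) (f (k + 1)) ∧
      Relation.ReflTransGen T (f (k + 1)) (f k)) (k k' : ℤ) :
    Relation.ReflTransGen T (f k) (f k') := by
  have key : ∀ k, Relation.ReflTransGen T (f 0) (f k) ∧ Relation.ReflTransGen T (f k) (f 0) := by
    intro k
    induction k using Int.induction_on with
    | zero => exact ⟨.refl, .refl⟩
    | succ n ih => exact ⟨ih.1.trans (h _).1, (h _).2.trans ih.2⟩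
    | pred n ih =>
      have h1 := h (-(n : ℤ) - 1)
      rw [sub_add_cancel] at h1
      exact ⟨ih.1.trans h1.2, h1.1.trans ih.2⟩
  exact (key k).2.trans (key k').1

/-- The odd point of a column. -/
def NPosi_pt (q b c : ℤ) : V := ![2 * q + (b + c + 1) % 2, b, c]

theorem NPosi_ext {u v : V} (h0 : u 0 = v 0) (h1 : u 1 = v 1) (h2 : u 2 = v 2) : u = v := by
  funext i
  fin_cases i
  exacts [h0, h1, h2]

theorem NPosi_reach {τ : V → V} (h0 : ∀ w, τ w 0 = w 0 + 1 - 2 * (w 0 % 2))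
    (h1 : ∀ w, τ w 1 = w 1) (h2 : ∀ w, τ w 2 = w 2) {y y' : V} (hy : ¬ IsEven y)
    (hy' : ¬ IsEven y') : Relation.ReflTransGen (fun a b => ∃ d, b = τ (a + dv d)) y y' := by
  have e : ∀ y : V, ¬ IsEven y → y = NPosi_pt (y 0 / 2) (y 1) (y 2) := fun y hy => by
    rw [IsEven, Fin.sum_univ_three, Int.even_iff] at hy
    refine NPosi_ext ?_ rfl rfl
    change y 0 = 2 * (y 0 / 2) + (y 1 + y 2 + 1) % 2
    omega
  have st : ∀ (q b c q' b' c' : ℤ) (d : Dir), b' = b + dv d 1 → c' = c + dv d 2 →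
      2 * q' + (b' + c' + 1) % 2 = 2 * q + (b + c + 1) % 2 + dv d 0 + 1 -
        2 * ((2 * q + (b + c + 1) % 2 + dv d 0) % 2) →
      Relation.ReflTransGen (fun a b => ∃ d, b = τ (a + dv d)) (NPosi_pt q b c)
        (NPosi_pt q' b' c') := fun q b c q' b' c' d e1 e2 e0 =>
    .single ⟨d, NPosi_ext (e0.trans (h0 (NPosi_pt q b c + dv d)).symm)
      (e1.trans (h1 (NPosi_pt q b c + dv d)).symm) (e2.trans (h2 (NPosi_pt q b c + dv d)).symm)⟩
  have l1 : ∀ q c b b', Relation.ReflTransGen (fun a b => ∃ d, b = τ (a + dv d))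
      (NPosi_pt q b c) (NPosi_pt q b' c) := fun q c => NPosi_int (fun b => NPosi_pt q b c) fun b =>
    ⟨st _ _ _ _ _ _ (1, true) (by simp [dv]) (by simp [dv]) (by simp [dv]; omega),
      st _ _ _ _ _ _ (1, false) (by simp [dv]) (by simp [dv]) (by simp [dv]; omega)⟩
  have l2 : ∀ q b c c', Relation.ReflTransGen (fun a b => ∃ d, b = τ (a + dv d))
      (NPosi_pt q b c) (NPosi_pt q b c') := fun q b => NPosi_int (fun c => NPosi_pt q b c) fun c =>
    ⟨st _ _ _ _ _ _ (2, true) (by simp [dv]) (by simp [dv]) (by simp [dv]; omega),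
      st _ _ _ _ _ _ (2, false) (by simp [dv]) (by simp [dv]) (by simp [dv]; omega)⟩
  have l0 : ∀ q q', Relation.ReflTransGen (fun a b => ∃ d, b = τ (a + dv d))
      (NPosi_pt q 0 0) (NPosi_pt q' 0 0) := NPosi_int (fun q => NPosi_pt q 0 0) fun q =>
    ⟨st _ _ _ _ _ _ (0, true) (by simp [dv]) (by simp [dv]) (by simp [dv]; omega),
      ((l1 _ _ 0 1).trans (st _ _ _ q 1 0 (0, false) (by simp [dv]) (by simp [dv])
        (by simp [dv]; omega))).trans (l1 _ _ 1 0)⟩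
  rw [e y hy, e y' hy']
  exact ((((l1 _ _ _ 0).trans (l2 _ _ _ 0)).trans (l0 _ _)).trans (l2 _ _ _ _)).trans (l1 _ _ _ _)

/-- The columnar configuration can be refilled with two monomers: Hall's theorem (`Hall_match`) in a
cube and strong connectivity of the moves `x ↦ col (x + d)`. -/
theorem exists_columnar_pair : ∃ τ' : Dimer, (∀ l : ℕ, 2 ∣ l → ∀ d c, FQ τ'.1 d c l = 0) ∧
    ∀ x y, IsEven x → ¬ IsEven y → ∃ r, 0 < Zm (box r) τ'.1 {x, y} := by
  have hD := Cells_dimer (m := 1) (U := ∅) (D := fun _ => (0, true)) (π := fun _ => id) le_rfl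
    (empty_subset _) (fun x hx _ h => by
      have h1 := mem_cube.1 hx 0
      have h2 := mem_cube.1 h 0
      simp only [Pi.add_apply, dv, Pi.single_eq_same, if_true] at h2
      omega) fun _ => mem_perf.2 ⟨⟨isExt_id, fun _ _ => rfl⟩, by simp⟩
  refine ⟨⟨_, hD⟩, fun l hl => Cells_zero (U := ∅) (D := fun _ => (0, true)) (ρ := id) le_rfl _ rfl
    l hl, fun x y hx hy => NPosi_pos _ hx (NPosi_reach (fun w => ?_) (fun w => ?_) (fun w => ?_)
      (fun c => (nbr_parity (hD x).1).1 c hx) hy)⟩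
  · simp [Cells_S, Cells_R, Cells_r, Cells_Q, Cells_X, dv, Int.even_iff]
    split_ifs <;> omega
  · simp [Cells_S, Cells_R, Cells_r, Cells_Q, Cells_X, dv]
  · simp [Cells_S, Cells_R, Cells_r, Cells_Q, Cells_X, dv]

theorem NPosi_glue {b a r : ℕ} (h1 : r ≤ a) (h2 : r ≤ b) {σ ρ : V → V} {τ' : Dimer} {X : Finset V}
    (hρ : ρ ∈ perf (box b) σ) (e : ∀ z ∈ box a, ρ z = τ'.1 z) (hZ : 0 < Zm (box r) τ'.1 X) :
    0 < Zm (box b) σ X := by
  obtain ⟨κ, hκ⟩ := card_pos.1 hZ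
  obtain ⟨k1, rfl⟩ := mem_filter.1 hκ
  obtain ⟨⟨r1, r2⟩, r3⟩ := mem_perf.1 hρ
  obtain ⟨g1, g2⟩ := mem_cls.1
    (Cls_glue (isExt_dimer τ') r1 (fun z hz => (e z (box_mono h1 hz)).symm) k1)
  refine card_pos.2 ⟨_, mem_filter.2 ⟨mem_cls.2 ⟨g1, fun z hz =>
    (g2 z fun c => hz (box_mono h2 c)).trans (r2 z hz)⟩, ?_⟩⟩
  ext z
  rw [mem_mon, mem_mon]
  by_cases hz : z ∈ box r
  · simp only [hz, if_true, box_mono h2 hz]
  · simp only [hz, if_false, false_and, iff_false, not_and]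
    exact r3 z

theorem NPosi_psi (s : Fin 3 → ℝ) (b w l : ℕ) (σ : V → V) :
    Psi b w l σ ≤ 2 * Psp s (b - w) b l σ + 48 * n1 s ^ 2 * (b : ℝ) ^ 3 * (l : ℝ) ^ 2 := by
  have h1 : lsum (b - w) b l (fun d c => FQ σ d c l ^ 2) ≤ lsum (b - w) b l
      fun d c => 2 * FQp s σ d c l ^ 2 + 2 * n1 s ^ 2 * (l : ℝ) ^ 2 * (l : ℝ) ^ 2 :=
    lsum_mono fun t _ d p _ => by
      have h := sq_le_sq' (abs_le.1 (FQp_crude s σ d (corner d t l p) l)).1
        (abs_le.1 (FQp_crude s σ d (corner d t l p) l)).2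
      linarith only [h, sq_nonneg (2 * FQp s σ d (corner d t l p) l - FQ σ d (corner d t l p) l), sq_nonneg ((2 : ℝ) * FQp s σ d (corner d t l p) l - FQ σ d (corner d t l p) l)]
  rw [lsum_add, lsum_mul] at h1
  have h2 := lsum_const (b - w) b l (a := 2 * n1 s ^ 2 * (l : ℝ) ^ 2) (by positivity)
  change lsum (b - w) b l (fun d c => FQ σ d c l ^ 2) ≤
    2 * lsum (b - w) b l (fun d c => FQp s σ d c l ^ 2) + _
  linarith

theorem positivity : ∃ s₁ : ℝ, 0 < s₁ ∧ ∀ (ν : Measure Dimer) (s : Fin 3 → ℝ), IM ν → FluxAt ν s →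
    n1 s ≤ s₁ → ∀ x y, IsEven x → ¬ IsEven y → ∃ N, 0 < ∫ τ, M2 (box N) τ.1 x y ∂ν := by
  obtain ⟨τ', hτ', hZ⟩ := exists_columnar_pair
  obtain ⟨c, hc, hp⟩ := patch 8 le_rfl
  refine ⟨min 1 (c / 200), lt_min one_pos (by positivity), fun ν s hν hF hs x y hx hy => ?_⟩
  have := hν.prob
  obtain ⟨r, hr⟩ := hZ x y hx hy
  obtain ⟨l₀, hl₀⟩ := hF (c / 200) (by positivity)
  obtain ⟨l, l1, l2, l3⟩ : ∃ l : ℕ, l₀ ≤ l ∧ 1 ≤ l ∧ 2 ∣ l :=
    ⟨2 * (l₀ + 1), by omega, by omega, dvd_mul_right _ _⟩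
  obtain ⟨b₀, hb₀⟩ := hp l l2
  obtain ⟨b, b1, b2, b3⟩ : ∃ b : ℕ, b₀ ≤ b ∧ 1 ≤ b ∧ 2 * r ≤ b :=
    ⟨b₀ + 2 * r + 1, by omega, by omega, by omega⟩
  have hpos : ∀ τ : Dimer, Psi b (b / 8) l τ.1 < c * (b : ℝ) ^ 3 * (l : ℝ) ^ 2 →
      0 < M2 (box b) τ.1 x y := fun τ h => by
    obtain ⟨ρ, r1, r2⟩ := hb₀ b b1 τ.1 (isExt_dimer τ) τ' (hτ' l l3) (fun z _ _ => NPosi_ne τ z)
      (by
        rw [Phi_eq (isExt_dimer τ), neg_eq_zero]
        exact sum_eq_zero fun z hz => absurd (mem_mon.1 hz).2 (NPosi_ne τ z)) h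
    exact div_pos (Nat.cast_pos.2 (NPosi_glue (by omega) (by omega) r1 r2 hr))
      (Nat.cast_pos.2 (zz_dimer_pos _ τ))
  refine ⟨b, (integral_pos_iff_support_of_nonneg (fun τ => Mr_nonneg _ _ _)
    ((local_Mr (box b) {x, y}).integrable ν)).2 (pos_iff_ne_zero.2 fun h0 => ?_)⟩
  have hK : 0 < c * (b : ℝ) ^ 3 * (l : ℝ) ^ 2 := by positivity
  have hn : n1 s ^ 2 ≤ c / 200 := by
    have a1 := hs.trans (min_le_left _ _)
    have a2 := hs.trans (min_le_right _ _)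
    linarith only [a2, a1, n1_nonneg s, mul_nonneg_of_nonpos_of_nonpos (Mathlib.Tactic.Linarith.sub_nonpos_of_le a1) (Mathlib.Tactic.Linarith.sub_nonpos_of_le (n1_nonneg s))]
  have h1 : ∀ᵐ τ ∂ν, c * (b : ℝ) ^ 3 * (l : ℝ) ^ 2 / 4 ≤ Psp s (b - b / 8) b l τ.1 := by
    filter_upwards [measure_eq_zero_iff_ae_notMem.1 h0] with τ hτ
    have a1 := not_lt.1 fun h => hτ (hpos τ h).ne'
    have a2 := NPosi_psi s b (b / 8) l τ.1
    have a3 := mul_le_mul_of_nonneg_right hn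
      (show 0 ≤ (b : ℝ) ^ 3 * (l : ℝ) ^ 2 by positivity)
    linarith only [hK, a1, a2, a3]
  have h2 := integral_mono_ae (integrable_const _)
    ((local_Psp s (b - b / 8) b l).integrable ν) h1
  have h3 := int_Psp ν (by positivity) (hl₀ l l1) (b - b / 8) b
  rw [integral_const, probReal_univ, one_smul] at h2
  linarith only [hK, h2, h3]

end Pool.Agent.Work.MP_5cb0a4_pr.Z
end
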