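import Pool.Agent.Work.MP_5cb0a4_pr.Z.Paths
import Pool.Agent.Work.MP_5cb0a4_pr.N.Posi
import Pool.Agent.Work.MP_5cb0a4_pr.N.Gauge

-- merged part: Pool.Agent.Work.MP_5cb0a4_pr.Z.Double
section
open MeasureTheory Finset MvPolynomial Filter Topology

namespace Pool.Agent.Work.MP_5cb0a4_pr.Z

lemma Double_jensen {α β : Type} (s : Finset α) (t : Finset β) (P : α → β → ℝ) {W : ℝ}
    (hP : ∀ a ∈ s, ∀ b ∈ t, 0 < P a b) (hz : 0 < (s.card : ℝ) * t.card)
    (hW : (s.card : ℝ) * t.card ≤ W) (h : ∑ a ∈ s, ∑ b ∈ t, P a b ≤ W) :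
    (∑ a ∈ s, ∑ b ∈ t, max (Real.log (P a b)) 0) / ((s.card : ℝ) * t.card) ≤
      Real.log (2 * W / ((s.card : ℝ) * t.card)) := by
  obtain ⟨z, e⟩ : ∃ z, z = (s.card : ℝ) * t.card := ⟨_, rfl⟩
  rw [← e] at hz hW ⊢
  have hW0 : 0 < W := hz.trans_le hW
  have hK : 0 < 2 * W / z := by positivity
  have h1 : ∀ a ∈ s, ∀ b ∈ t, max (Real.log (P a b)) 0 ≤
      (Real.log (2 * W / z) + z / (2 * W) - 1) + z / (2 * W) * P a b := fun a ha b hb => by
    have p := hP a ha b hb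
    have h2 : max (Real.log (P a b)) 0 ≤ Real.log (1 + P a b) :=
      max_le (Real.log_le_log p (by linarith only [])) (Real.log_nonneg (by linarith only [p]))
    have h3 := Real.log_le_sub_one_of_pos (div_pos (by linarith only [p] : 0 < 1 + P a b) hK)
    rw [Real.log_div (by linarith only [p]) hK.ne'] at h3
    have h4 : (1 + P a b) / (2 * W / z) = z / (2 * W) + z / (2 * W) * P a b := by field_simp
    linarith only [h2, h3, h4]
  have h2 := sum_le_sum fun a ha => sum_le_sum (h1 a ha)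
  simp only [sum_add_distrib, sum_const, nsmul_eq_mul, ← mul_sum] at h2
  rw [← mul_assoc, ← e] at h2
  rw [div_le_iff₀ hz]
  have h3 : z / (2 * W) * ∑ a ∈ s, ∑ b ∈ t, P a b ≤ z / (2 * W) * W :=
    mul_le_mul_of_nonneg_left h (by positivity)
  have h4 : z / (2 * W) * W = z / 2 := by field_simp
  have h5 : z / (2 * W) ≤ 1 / 2 := by
    rw [div_le_iff₀ (by positivity)]
    linarith only [hW]
  linarith only [h2, h3, h4, hz, h5, mul_nonneg_of_nonpos_of_nonpos (le_of_lt (Mathlib.Tactic.Linarith.sub_neg_of_lt hz)) (Mathlib.Tactic.Linarith.sub_nonpos_of_le h5)]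

lemma Double_zz_le {L : ℕ} (hL : 1 ≤ L) {σ : V → V} (hσ : IsExt σ) :
    (zz (box L) σ : ℝ) ≤ Zs L := by
  rw [zz_eq, Zm_free _ hσ, if_pos (empty_subset _)]
  exact zz_le_Zs L hL _ (sdiff_subset.trans (filter_subset _ _))

lemma Double_card_lev {L : ℕ} (hL : 1 ≤ L) : ((lev L).card : ℝ) ≤ 26 * (L : ℝ) ^ 2 := by
  obtain ⟨n, rfl⟩ := Nat.exists_eq_add_of_le' hL
  have h := card_sdiff_add_card_eq_card (box_mono (Nat.sub_le (n + 1) 1))
  rw [card_box, card_box, Nat.add_sub_cancel] at h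
  have h1 : ((lev (n + 1)).card : ℝ) + (2 * n + 1) ^ 3 = (2 * (n + 1) + 1) ^ 3 := by
    exact_mod_cast h
  have h2 : (0 : ℝ) ≤ n := n.cast_nonneg
  push_cast
  linarith only [h1, mul_nonneg_of_nonpos_of_nonpos (Mathlib.Tactic.Linarith.sub_nonpos_of_le (Mathlib.Tactic.Linarith.natCast_nonneg ℝ n)) (Mathlib.Tactic.Linarith.sub_nonpos_of_le (Mathlib.Tactic.Linarith.natCast_nonneg ℝ n))]

lemma Double_local_log (L : ℕ) : Local (box L) fun σ => Real.log (Zs L / zz (box L) σ) :=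
  fun σ σ' a b e => by
    have h : Zm (box L) σ ∅ = Zm (box L) σ' ∅ := local_Zm (box L) ∅ σ σ' a b e
    simp only [zz_eq, h]

/-- The positive part of the sum of the logarithms has a small mean. -/
lemma Double_pos {ν₁ ν₂ : Measure Dimer} (h₁ : EG0 ν₁) (h₂ : EG0 ν₂) {L : ℕ} (hL : 1 ≤ L)
    {P : (V → V) → (V → V) → ℝ} (hP : Local2 (box L) P)
    (hpos : ∀ ρ₁ ρ₂, IsExt ρ₁ → IsExt ρ₂ → 0 < P ρ₁ ρ₂)
    (hs : ∀ σ₁ σ₂, IsExt σ₁ → IsExt σ₂ → ∑ ρ₁ ∈ perf (box L) σ₁, ∑ ρ₂ ∈ perf (box L) σ₂, P ρ₁ ρ₂ ≤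
      (2 ^ (lev L).card * Zs L) ^ 2) :
    ∫ p, max (Real.log (P p.1.1 p.2.1)) 0 ∂(ν₁.prod ν₂) ≤ 53 * (L : ℝ) ^ 2 +
      (∫ τ, Real.log (Zs L / zz (box L) τ.1) ∂ν₁ + ∫ τ, Real.log (Zs L / zz (box L) τ.1) ∂ν₂) := by
  have := h₁.eg.prob
  have := h₂.eg.prob
  have hg : Local2 (box L) fun ρ₁ ρ₂ => max (Real.log (P ρ₁ ρ₂)) 0 :=
    fun _ _ _ _ a b c d e f => by simp only [hP _ _ _ _ a b c d e f]
  have i1 := ((Double_local_log L).integrable ν₁).comp_fst ν₂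
  have i2 := ((Double_local_log L).integrable ν₂).comp_snd ν₁
  rw [dlr2 h₁.eg h₂.eg (box L) hg]
  refine (integral_mono_of_nonneg (g := fun p : Dimer × Dimer => 53 * (L : ℝ) ^ 2 +
    (Real.log (Zs L / zz (box L) p.1.1) + Real.log (Zs L / zz (box L) p.2.1)))
    (Eventually.of_forall fun p => ?_) ((integrable_const _).add (i1.add i2))
    (Eventually.of_forall fun p => ?_)).trans (le_of_eq ?_)
  · exact div_nonneg (sum_nonneg fun _ _ => sum_nonneg fun _ _ => le_max_right _ _)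
      (by positivity)
  · have z1 : (0 : ℝ) < zz (box L) p.1.1 := Nat.cast_pos.2 (zz_dimer_pos _ _)
    have z2 : (0 : ℝ) < zz (box L) p.2.1 := Nat.cast_pos.2 (zz_dimer_pos _ _)
    have u1 := Double_zz_le hL (isExt_dimer p.1)
    have u2 := Double_zz_le hL (isExt_dimer p.2)
    have hZ : 0 < Zs L := z1.trans_le u1
    have h2 : (1 : ℝ) ≤ 2 ^ (lev L).card := one_le_pow₀ one_le_two
    have h3 : Zs L ≤ 2 ^ (lev L).card * Zs L := le_mul_of_one_le_left hZ.le h2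
    refine (Double_jensen (perf (box L) p.1.1) (perf (box L) p.2.1) P
      (fun a ha b hb => hpos a b (mem_perf.1 ha).1.1 (mem_perf.1 hb).1.1) (mul_pos z1 z2) ?_
      (hs _ _ (isExt_dimer p.1) (isExt_dimer p.2))).trans ?_
    · rw [_root_.sq]
      exact mul_le_mul (u1.trans h3) (u2.trans h3) z2.le (by positivity)
    · have e : 2 * (2 ^ (lev L).card * Zs L) ^ 2 /
          (((perf (box L) p.1.1).card : ℝ) * (perf (box L) p.2.1).card) =
          2 ^ (2 * (lev L).card + 1) * (Zs L / zz (box L) p.1.1 * (Zs L / zz (box L) p.2.1)) := by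
        change _ / ((zz (box L) p.1.1 : ℝ) * zz (box L) p.2.1) = _
        field_simp
        ring
      rw [e, Real.log_mul (by positivity) (by positivity),
        Real.log_mul (by positivity) (by positivity), Real.log_pow]
      have l2 : Real.log 2 ≤ 1 := by linarith only [Real.log_le_sub_one_of_pos two_pos]
      have h4 := Double_card_lev hL
      have h5 : (1 : ℝ) ≤ (L : ℝ) ^ 2 := one_le_pow₀ (by exact_mod_cast hL)
      have h6 : ((2 * (lev L).card + 1 : ℕ) : ℝ) * Real.log 2 ≤ ((2 * (lev L).card + 1 : ℕ) : ℝ) :=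
        mul_le_of_le_one_right (Nat.cast_nonneg _) l2
      push_cast at h6 ⊢
      linarith only [h4, h5, h6]
  · rw [integral_add (integrable_const _) (i1.fun_add i2), integral_add i1 i2,
      integral_fun_fst fun τ : Dimer => Real.log (Zs L / zz (box L) τ.1),
      integral_fun_snd fun τ : Dimer => Real.log (Zs L / zz (box L) τ.1)]
    simp

lemma Double_inv {ν₁ ν₂ : Measure Dimer} (h₁ : EG0 ν₁) (h₂ : EG0 ν₂) {Λ : Finset V}
    {g : (V → V) → (V → V) → ℝ} (hg : Local2 Λ g) {A : Set (Dimer × Dimer)}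
    (hA : MeasurableSet A) {v : V} (hv : IsEven v)
    (hinv : (fun p : Dimer × Dimer => (shift v p.1, shift v p.2)) ⁻¹' A = A) :
    ∫ p in A, g (sh v p.1.1) (sh v p.2.1) ∂(ν₁.prod ν₂) = ∫ p in A, g p.1.1 p.2.1 ∂(ν₁.prod ν₂) := by
  have := h₁.eg.prob
  have := h₂.eg.prob
  have hT : MeasurePreserving (fun p : Dimer × Dimer => (shift v p.1, shift v p.2))
      (ν₁.prod ν₂) (ν₁.prod ν₂) := (h₁.eg.invariant v hv).prod (h₂.eg.invariant v hv)
  have h := hT.restrict_preimage hA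
  rw [hinv] at h
  conv_rhs => rw [← h.map_eq]
  rw [integral_map h.measurable.aemeasurable hg.measurable.aestronglyMeasurable]
  rfl

lemma Double_log {ν₁ ν₂ : Measure Dimer} (h₁ : EG0 ν₁) (h₂ : EG0 ν₂) {k R m : ℕ}
    {x y : Fin k → V} (hp : Pos x y R m) {A : Set (Dimer × Dimer)} (hA : MeasurableSet A)
    (hinv : ∀ v, IsEven v → (fun p : Dimer × Dimer => (shift v p.1, shift v p.2)) ⁻¹' A = A)
    {δ : ℝ} (h0 : 0 ≤ δ) (h1 : δ ≤ 1)
    (hpos : ∀ ρ₁ ρ₂, IsExt ρ₁ → IsExt ρ₂ → 0 < 1 + δ * fD x y R m ρ₁ ρ₂) :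
    ∫ p in A, Real.log (1 + δ * fD x y R m p.1.1 p.2.1) ∂(ν₁.prod ν₂) ≤ 0 := by
  have := h₁.eg.prob
  have := h₂.eg.prob
  have hf := local2_fD x y (R := R) (m := m) (by have := hp.hm; omega)
  have hF : Local2 (box m) fun ρ₁ ρ₂ => Real.log (1 + δ * fD x y R m ρ₁ ρ₂) :=
    fun _ _ _ _ a b c d e f => by simp only [hf _ _ _ _ a b c d e f]
  refine le_of_forall_pos_le_add fun η hη => ?_
  have hm : (0 : ℝ) < (m : ℝ) + 1 := by positivity
  have hε : 0 < η / (4 * ((m : ℝ) + 1) ^ 3) := by positivity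
  obtain ⟨L₁, hL₁⟩ := lp_log h₁ hε
  obtain ⟨L₂, hL₂⟩ := lp_log h₂ hε
  obtain ⟨J₀, hJ₀⟩ := exists_nat_ge (106 * ((m : ℝ) + 1) ^ 2 / η)
  obtain ⟨J, j0, j1, j2⟩ : ∃ J, J₀ ≤ J ∧ L₁ ≤ J ∧ L₂ ≤ J :=
    ⟨J₀ + L₁ + L₂, by omega, by omega, by omega⟩
  obtain ⟨C, c1, c2, c3, c4⟩ := exists_centers m J
  obtain ⟨L, eL⟩ : ∃ L, L = (2 * m + 2) * J + m + 1 := ⟨_, rfl⟩
  have hL : 1 ≤ L := by omega
  have hJL : J ≤ L := by clear * - J L m eL; rw [eL]; linarith only [mul_nonneg_of_nonpos_of_nonpos (Mathlib.Tactic.Linarith.sub_nonpos_of_le (Mathlib.Tactic.Linarith.natCast_nonneg ℤ m)) (Mathlib.Tactic.Linarith.sub_nonpos_of_le (Mathlib.Tactic.Linarith.natCast_nonneg ℤ J))]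
  have c5 : ∀ c ∈ C, tr c (box m) ⊆ box (L - 1) := by rwa [eL, Nat.add_sub_cancel]
  have hP : Local2 (box L) fun ρ₁ ρ₂ =>
      ∏ c ∈ C, (1 + δ * fD x y R m (sh (-c) ρ₁) (sh (-c) ρ₂)) := fun _ _ _ _ a b c d e f =>
    prod_congr rfl fun v hv => by
      have hs := (c5 v hv).trans (box_mono (Nat.sub_le L 1))
      have := hf.sh v _ _ _ _ a b c d (fun z hz => e z (hs hz)) fun z hz => f z (hs hz)
      exact congrArg (1 + δ * ·) this
  have key := Double_pos h₁ h₂ hL hP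
    (fun ρ₁ ρ₂ a b => prod_pos fun c _ => hpos _ _ (isExt_sh a _) (isExt_sh b _))
    fun σ₁ σ₂ a b => s1count hp L hL C c2 c5 c4 a b h0 h1
  have hg : Local2 (box L) fun ρ₁ ρ₂ => max (Real.log
      (∏ c ∈ C, (1 + δ * fD x y R m (sh (-c) ρ₁) (sh (-c) ρ₂)))) 0 :=
    fun _ _ _ _ a b c d e f => by
      exact congrArg (fun u => max (Real.log u) 0) (hP _ _ _ _ a b c d e f)
  have s1 : (C.card : ℝ) * ∫ p in A, Real.log (1 + δ * fD x y R m p.1.1 p.2.1) ∂(ν₁.prod ν₂) =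
      ∫ p in A, ∑ c ∈ C, Real.log (1 + δ * fD x y R m (sh (-c) p.1.1) (sh (-c) p.2.1))
        ∂(ν₁.prod ν₂) := by
    rw [integral_finsetSum _ fun c _ => Meas_int2 (hF.sh c) _, ← nsmul_eq_mul, ← sum_const]
    exact sum_congr rfl fun c hc => (Double_inv h₁ h₂ hF hA (isEven_neg.2 (c2 c hc))
      (hinv _ (isEven_neg.2 (c2 c hc)))).symm
  have s2 : ∫ p in A, ∑ c ∈ C, Real.log (1 + δ * fD x y R m (sh (-c) p.1.1) (sh (-c) p.2.1))
        ∂(ν₁.prod ν₂) ≤ ∫ p, max (Real.log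
          (∏ c ∈ C, (1 + δ * fD x y R m (sh (-c) p.1.1) (sh (-c) p.2.1)))) 0 ∂(ν₁.prod ν₂) := by
    refine le_trans (integral_mono (integrable_finsetSum _ fun c _ => Meas_int2 (hF.sh c) _)
      (Meas_int2 hg _) fun p => ?_) (setIntegral_le_integral (Meas_int2 hg _)
        (Eventually.of_forall fun p => le_max_right _ _))
    refine le_trans (le_of_eq ?_) (le_max_left _ _)
    exact (Real.log_prod fun c _ =>
      (hpos _ _ (isExt_sh (isExt_dimer p.1) _) (isExt_sh (isExt_dimer p.2) _)).ne').symm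
  have s3 := (s1.trans_le s2).trans (key.trans (add_le_add_right
    (add_le_add (hL₁ L (j1.trans hJL)) (hL₂ L (j2.trans hJL))) _))
  have eL' : (L : ℝ) = (m + 1) * (2 * J + 1) := by
    rw [eL]
    push_cast
    ring
  have hn : (0 : ℝ) < 2 * J + 1 := by positivity
  rw [c1, eL'] at s3
  push_cast at s3
  have hJ : 106 * ((m : ℝ) + 1) ^ 2 ≤ η * (2 * J + 1) := by
    clear * - J₀ J j0 m η hη hJ₀
    rw [div_le_iff₀ hη] at hJ₀
    have : (J₀ : ℝ) ≤ J := by exact_mod_cast j0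
    have : (0 : ℝ) ≤ J := J.cast_nonneg
    nlinarith
  generalize (2 * (J : ℝ) + 1) = n at s3 hn hJ
  have e1 : η / (4 * ((m : ℝ) + 1) ^ 3) * ((m + 1) * n) ^ 3 = n ^ 3 * (η / 4) := by
    clear * - η m n hn hη
    field_simp
  have e2 : 53 * (((m : ℝ) + 1) * n) ^ 2 ≤ n ^ 3 * (η / 2) := by
    linarith only [hJ, mul_le_mul_of_nonneg_right hJ (sq_nonneg n), sq_nonneg n]
  refine le_of_mul_le_mul_left ?_ (pow_pos hn 3)
  rw [e1] at s3
  clear * - n ν₁ ν₂ A δ k x y R m η s3 e2; linarith only [s3, e2]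

/-- The switching inequality on every invariant event. -/
theorem dtrans {ν₁ ν₂ : Measure Dimer} (h₁ : EG0 ν₁) (h₂ : EG0 ν₂) {k R m : ℕ}
    {x y : Fin k → V} (hp : Pos x y R m) (A : Set (Dimer × Dimer)) (hA : MeasurableSet A)
    (hinv : ∀ v, IsEven v → (fun p : Dimer × Dimer => (shift v p.1, shift v p.2)) ⁻¹' A = A) :
    ∫ p in A, fD x y R m p.1.1 p.2.1 ∂(ν₁.prod ν₂) ≤ 0 := by
  have := h₁.eg.prob
  have := h₂.eg.prob
  have hf := local2_fD x y (R := R) (m := m) (by have := hp.hm; omega)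
  obtain ⟨C₀, hC₀⟩ := hf.bdd
  obtain ⟨C, c1, hC⟩ : ∃ C : ℝ, 1 ≤ C ∧ ∀ σ₁ σ₂, IsExt σ₁ → IsExt σ₂ → |fD x y R m σ₁ σ₂| ≤ C :=
    ⟨max 1 C₀, le_max_left _ _, fun _ _ a b => (hC₀ _ _ a b).trans (le_max_right _ _)⟩
  refine le_of_forall_pos_le_add fun η hη => ?_
  obtain ⟨δ, d0, d1, d2⟩ : ∃ δ : ℝ, 0 < δ ∧ δ * C ≤ 1 / 2 ∧ 2 * δ * C ^ 2 ≤ η := by
    refine ⟨min (1 / (2 * C)) (η / (2 * C ^ 2)), by positivity, ?_, ?_⟩
    · have := min_le_left (1 / (2 * C)) (η / (2 * C ^ 2))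
      rw [le_div_iff₀ (by positivity)] at this
      linarith only [this]
    · have := min_le_right (1 / (2 * C)) (η / (2 * C ^ 2))
      rw [le_div_iff₀ (by positivity)] at this
      linarith only [this]
  have hu : ∀ ρ₁ ρ₂, IsExt ρ₁ → IsExt ρ₂ → |δ * fD x y R m ρ₁ ρ₂| ≤ δ * C := fun _ _ a b => by
    rw [abs_mul, abs_of_pos d0]
    exact mul_le_mul_of_nonneg_left (hC _ _ a b) d0.le
  have key := Double_log h₁ h₂ hp hA hinv d0.le (by linarith only [d1, c1, d0, mul_nonneg_of_nonpos_of_nonpos (Mathlib.Tactic.Linarith.sub_nonpos_of_le c1) (le_of_lt (Mathlib.Tactic.Linarith.sub_neg_of_lt d0))])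
    fun _ _ a b => by linarith only [d1, hu, a, b, (abs_le.1 (hu _ _ a b)).1]
  have hF : Local2 (box m) fun ρ₁ ρ₂ => Real.log (1 + δ * fD x y R m ρ₁ ρ₂) :=
    fun _ _ _ _ a b c d e f => by simp only [hf _ _ _ _ a b c d e f]
  have i1 := Meas_int2 hf ((ν₁.prod ν₂).restrict A)
  have i2 := Meas_int2 hF ((ν₁.prod ν₂).restrict A)
  have h3 : ∫ p in A, δ * fD x y R m p.1.1 p.2.1 ∂(ν₁.prod ν₂) ≤
      ∫ p in A, (Real.log (1 + δ * fD x y R m p.1.1 p.2.1) + δ * η) ∂(ν₁.prod ν₂) := by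
    refine integral_mono (i1.const_mul δ) (i2.add (integrable_const _)) fun p => ?_
    have h4 := hu _ _ (isExt_dimer p.1) (isExt_dimer p.2)
    have h5 := sq_le_sq' (abs_le.1 h4).1 (abs_le.1 h4).2
    have h6 := (abs_le.1 h4).1
    simp only
    generalize δ * fD x y R m p.1.1 p.2.1 = u at h5 h6 ⊢
    have h7 : 0 < 1 + u := by linarith only [d1, h6]
    have h8 := Real.one_sub_inv_le_log_of_pos h7
    have h9 : (1 + u)⁻¹ ≤ 1 - u + 2 * u ^ 2 := by
      rw [inv_eq_one_div, div_le_iff₀ h7]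
      linarith only [d1, h6, mul_nonneg (sq_nonneg u) (by linarith : 0 ≤ 1 + 2 * u), sq_nonneg u]
    linarith only [h5, h8, h9, d2, d0, mul_le_mul_of_nonneg_left d2 d0.le]
  rw [integral_const_mul, integral_add i2 (integrable_const _), setIntegral_const,
    smul_eq_mul] at h3
  have h4 : (ν₁.prod ν₂).real A * (δ * η) ≤ δ * η :=
    mul_le_of_le_one_left (by positivity) measureReal_le_one
  refine le_of_mul_le_mul_left ?_ d0
  linarith only [key, h3, h4]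

end Pool.Agent.Work.MP_5cb0a4_pr.Z
end

-- merged part: Pool.Agent.Work.MP_5cb0a4_pr.N.Inv
section
open MeasureTheory Finset Filter Topology
open scoped Classical

namespace Pool.Agent.Work.MP_5cb0a4_pr.Z

lemma NInv_box (X : Finset V) : ∃ n : ℕ, X ⊆ box n := by
  refine ⟨X.sup fun x => univ.sup fun i => (x i).natAbs, fun x hx => mem_box.2 fun i => ?_⟩
  have h1 := le_sup (f := fun x : V => univ.sup fun i => (x i).natAbs) hx
  have h2 := le_sup (f := fun i => (x i).natAbs) (mem_univ i)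
  omega

lemma NInv_orth {X ι : Type} [MeasurableSpace X] (ν : Measure X) [IsProbabilityMeasure ν] (B : Set X)
    (C : Finset ι) (f : ι → X → ℝ) {M I a : ℝ} (hm : ∀ c, Measurable (f c)) (hb : ∀ c x, |f c x| ≤ M)
    (ho : ∀ c ∈ C, ∀ c' ∈ C, c ≠ c' → ∫ x, f c x * f c' x ∂ν = 0)
    (hI : ∀ c ∈ C, ∫ x in B, f c x ∂ν = I) (ha : 0 < a) :
    2 * a * (C.card * |I|) ≤ C.card * M ^ 2 + a ^ 2 := by
  have m2 : ∀ c, MemLp (f c) 2 ν := fun c =>
    .of_bound (hm c).aestronglyMeasurable M (.of_forall (hb c))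
  have i1 : ∀ c, Integrable (f c) ν := fun c => (m2 c).integrable one_le_two
  have i2 : ∀ c c', Integrable (fun x => f c x * f c' x) ν := fun c c' => (m2 c).integrable_mul (m2 c')
  have iS : Integrable (fun x => ∑ c ∈ C, f c x) ν := integrable_finsetSum _ fun c _ => i1 c
  have e0 : ∀ x, (∑ c ∈ C, f c x) ^ 2 = ∑ c ∈ C, ∑ c' ∈ C, f c x * f c' x := fun x => by
    rw [_root_.sq, sum_mul_sum]
  have iQ : Integrable (fun x => (∑ c ∈ C, f c x) ^ 2) ν := by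
    simp only [e0]
    exact integrable_finsetSum _ fun c _ => integrable_finsetSum _ fun c' _ => i2 c c'
  have e1 : (C.card : ℝ) * I = ∫ x in B, ∑ c ∈ C, f c x ∂ν := by
    rw [integral_finsetSum _ fun c _ => (i1 c).restrict, sum_congr rfl hI, sum_const, nsmul_eq_mul]
  have e2 : (C.card : ℝ) * |I| ≤ ∫ x, |∑ c ∈ C, f c x| ∂ν := by
    rw [← abs_of_nonneg (Nat.cast_nonneg (α := ℝ) C.card), ← abs_mul, e1]
    exact abs_integral_le_integral_abs.trans
      (setIntegral_le_integral iS.abs (.of_forall fun _ => abs_nonneg _))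
  have e3 : ∫ x, (∑ c ∈ C, f c x) ^ 2 ∂ν ≤ C.card * M ^ 2 := by
    simp only [e0]
    rw [integral_finsetSum _ fun c _ => integrable_finsetSum _ fun c' _ => i2 c c', ← nsmul_eq_mul,
      ← sum_const]
    refine sum_le_sum fun c hc => ?_
    rw [integral_finsetSum _ fun c' _ => i2 c c',
      sum_eq_single_of_mem c hc fun c' hc' hne => ho c hc c' hc' hne.symm]
    refine (integral_mono (i2 c c) (integrable_const (M ^ 2)) fun x => ?_).trans (by simp)
    have := hb c x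
    have := sq_le_sq' (abs_le.1 this).1 (abs_le.1 this).2
    simp only
    linarith only [this]
  have e4 : ∫ x, 2 * a * |∑ c ∈ C, f c x| ∂ν ≤ ∫ x, ((∑ c ∈ C, f c x) ^ 2 + a ^ 2) ∂ν := by
    refine integral_mono (iS.abs.const_mul _) (iQ.add (integrable_const _)) fun x => ?_
    simp only
    linarith only [sq_nonneg (|∑ c ∈ C, f c x| - a), sq_abs (∑ c ∈ C, f c x), sq_nonneg (|∑ c ∈ C, f c x| - a)]
  rw [integral_const_mul, integral_add iQ (integrable_const _), integral_const, probReal_univ,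
    one_smul] at e4
  linarith only [e3, e4, ha, e2, mul_nonneg_of_nonpos_of_nonpos (le_of_lt (Mathlib.Tactic.Linarith.sub_neg_of_lt ha)) (Mathlib.Tactic.Linarith.sub_nonpos_of_le e2)]

lemma NInv_gam_mul {Λ : Finset V} (g : (V → V) → ℝ) {f : (V → V) → ℝ} (hf : Off Λ f) {σ : V → V}
    (hσ : IsExt σ) : gam Λ (fun ρ => g ρ * f ρ) σ = gam Λ g σ * f σ := by
  rw [gam, gam, div_mul_eq_mul_div, sum_mul]
  refine congrArg (· / _) (sum_congr rfl fun ρ hρ => ?_)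
  rw [hf ρ σ (mem_perf.1 hρ).1.1 hσ (mem_perf.1 hρ).1.2]

lemma NInv_gam_tr (c : V) (Λ : Finset V) (g : (V → V) → ℝ) (σ : V → V) :
    gam (tr c Λ) (fun ρ => g (sh (-c) ρ)) σ = gam Λ g (sh (-c) σ) := by
  have h := gam_sh c Λ (fun ρ => g (sh (-c) ρ)) (sh (-c) σ)
  simpa only [sh_sh, add_neg_cancel, neg_add_cancel, sh_zero] using h

lemma NInv_mul {Λ Λ' : Finset V} {g f : (V → V) → ℝ} (hg : Local Λ g) (hf : Local Λ' f) :
    Local (Λ ∪ Λ') fun ρ => g ρ * f ρ := fun σ σ' a b e => by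
  simp only [hg σ σ' a b fun x hx => e x (mem_union_left _ hx),
    hf σ σ' a b fun x hx => e x (mem_union_right _ hx)]

lemma NInv_int {ν : Measure Dimer} (B : Set Dimer) (f : Dimer → ℝ) :
    ∫ τ, f τ ∂(ProbabilityTheory.cond ν B) = (ν.real B)⁻¹ * ∫ τ in B, f τ ∂ν := by
  rw [ProbabilityTheory.cond, integral_smul_measure, ENNReal.toReal_inv, smul_eq_mul, Measure.real]

lemma NInv_le {ν : Measure Dimer} [IsProbabilityMeasure ν] {B : Set Dimer} (h0 : ν B ≠ 0)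
    {f : Dimer → ℝ} (hf : Integrable f ν) (h : ∀ τ, 0 ≤ f τ) {ε x : ℝ}
    (hx : ∫ τ, f τ ∂ν ≤ ε * ν.real B * x) : ∫ τ, f τ ∂(ProbabilityTheory.cond ν B) ≤ ε * x := by
  have hB : 0 < ν.real B := ENNReal.toReal_pos h0 (measure_ne_top _ _)
  rw [NInv_int, inv_mul_le_iff₀ hB]
  have := setIntegral_le_integral (s := B) hf (.of_forall h)
  linarith only [hx, this]

/-- The DLR equation on an invariant event: for `k = gam Λ g - g` the translates to far apart even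
points are orthogonal, so the spatial averages of `k` tend to zero in mean square. -/
theorem IM.dlr_inv {ν : Measure Dimer} (h : IM ν) {B : Set Dimer} (hB : AInv ν B) (Λ : Finset V)
    {Λ' : Finset V} {g : (V → V) → ℝ} (hg : Local Λ' g) :
    ∫ τ in B, gam Λ g τ.1 ∂ν = ∫ τ in B, g τ.1 ∂ν := by
  have := h.prob
  obtain ⟨m, hm⟩ := NInv_box (Λ ∪ Λ')
  have hG := local_gam (Λ := Λ) hg
  have hk : Local (box m) fun σ => gam Λ g σ - g σ := fun σ σ' a b e => by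
    simp only [hG σ σ' a b fun x hx => e x (hm hx),
      hg σ σ' a b fun x hx => e x (hm (mem_union_right _ hx))]
  obtain ⟨M, hM⟩ := hk.bdd
  rw [← sub_eq_zero, ← integral_sub (hG.integrable _) (hg.integrable _), ← abs_nonpos_iff]
  refine le_of_forall_pos_le_add fun ε hε => ?_
  obtain ⟨J, hJ⟩ := exists_nat_ge (M ^ 2 / ε ^ 2)
  obtain ⟨C, c1, c2, -, c4⟩ := exists_centers m J
  have hN : (J : ℝ) < C.card := by
    rw [c1]
    have : 2 * J + 1 ≤ (2 * J + 1) ^ 3 := Nat.le_self_pow (by norm_num) _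
    exact_mod_cast (by omega : J < (2 * J + 1) ^ 3)
  have hN0 : (0 : ℝ) < C.card := (Nat.cast_nonneg J).trans_lt hN
  have key := NInv_orth ν B C (fun c τ => gam Λ g (sh (-c) τ.1) - g (sh (-c) τ.1))
    (I := ∫ τ in B, (gam Λ g τ.1 - g τ.1) ∂ν) (fun c => (hk.sh c).measurable)
    (fun c τ => hM _ (isExt_sh (isExt_dimer τ) _)) (fun c hc c' hc' hne => ?_)
    (fun c hc => h.setIntegral_sh hB hk (isEven_neg.2 (c2 c hc))) (mul_pos hε hN0)
  · rw [div_le_iff₀ (by positivity)] at hJ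
    have h1 : M ^ 2 ≤ C.card * ε ^ 2 := hJ.trans (mul_le_mul_of_nonneg_right hN.le (by positivity))
    refine le_of_mul_le_mul_left ?_ (by clear * - ε C hε hN0; positivity : 0 < 2 * (ε * C.card) * C.card)
    linarith only [key, h1, hN0, mul_le_mul_of_nonneg_left h1 hN0.le]
  · have hd : Disjoint (tr c' (box m)) (tr c Λ) := (c4 c' hc' c hc hne.symm).mono_right
      fun x hx => mem_tr.2 (hm (mem_union_left _ (mem_tr.1 hx)))
    have h1 := h.dlr (tr c Λ) _ _ (NInv_mul (hg.sh c) (hk.sh c'))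
    simp only [fun τ : Dimer => NInv_gam_mul (fun ρ => g (sh (-c) ρ)) ((hk.sh c').off hd)
      (isExt_dimer τ), NInv_gam_tr] at h1
    simp only [fun (τ : Dimer) (y : ℝ) => sub_mul (gam Λ g (sh (-c) τ.1)) (g (sh (-c) τ.1)) y]
    rw [integral_sub ((NInv_mul (hG.sh c) (hk.sh c')).integrable _)
      ((NInv_mul (hg.sh c) (hk.sh c')).integrable _), h1, sub_self]

theorem IM.cond {ν : Measure Dimer} (h : IM ν) {B : Set Dimer} (hB : AInv ν B) (h0 : ν B ≠ 0) :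
    IM (ProbabilityTheory.cond ν B) := by
  have := h.prob
  refine ⟨ProbabilityTheory.cond_isProbabilityMeasure h0, fun v hv => ?_, fun Λ Λ' g hg => ?_⟩
  · have h1 := (h.inv v hv).restrict_preimage hB.1
    rw [Measure.restrict_congr_set (hB.2 v hv)] at h1
    exact h1.smul_measure _
  · rw [NInv_int, NInv_int, h.dlr_inv hB Λ hg]

theorem log_Zs_nonneg {L : ℕ} (hL : 1 ≤ L) (τ : Dimer) :
    0 ≤ Real.log (Zs L / zz (box L) τ.1) :=
  Real.log_nonneg ((one_le_div (Nat.cast_pos.2 (zz_dimer_pos _ _))).2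
    (Double_zz_le hL (isExt_dimer τ)))

theorem KM.cond {ν : Measure Dimer} (h : KM ν) {B : Set Dimer} (hB : AInv ν B) (h0 : ν B ≠ 0) :
    KM (ProbabilityTheory.cond ν B) := by
  have := h.im.prob
  refine ⟨h.im.cond hB h0, fun ε hε => ?_⟩
  obtain ⟨L₀, hL⟩ := h.lp _ (mul_pos hε (ENNReal.toReal_pos h0 (measure_ne_top _ _)))
  exact ⟨max L₀ 1, fun L k => NInv_le h0 ((Double_local_log L).integrable ν)
    (log_Zs_nonneg (le_of_max_le_right k)) (hL L (le_of_max_le_left k))⟩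

theorem IsJ.cond {ν : Measure Dimer} (h : IM ν) {J : Dimer → Fin 3 → ℝ} (hJ : IsJ ν J)
    {B : Set Dimer} (hB : MeasurableSet B) (h0 : ν B ≠ 0) :
    IsJ (ProbabilityTheory.cond ν B) J := by
  have := h.prob
  refine ⟨hJ.meas, fun v hv => ProbabilityTheory.cond_absolutelyContinuous.ae_eq (hJ.inv v hv),
    fun i => ((hJ.mem i).restrict B).smul_measure (ENNReal.inv_ne_top.2 h0), fun η hη => ?_⟩
  obtain ⟨l₀, hl⟩ := hJ.flux _ (mul_pos hη (ENNReal.toReal_pos h0 (measure_ne_top _ _)))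
  refine ⟨l₀, fun l k i c => NInv_le h0 (MemLp.integrable_sq ?_) (fun _ => sq_nonneg _) (hl l k i c)⟩
  obtain ⟨M, hM⟩ := (local_FQ (i, true) c l).bdd
  have h1 : MemLp (fun τ : Dimer => FQ τ.1 (i, true) c l) 2 ν :=
    .of_bound (local_FQ (i, true) c l).measurable.aestronglyMeasurable M
      (.of_forall fun τ => hM _ (isExt_dimer τ))
  simp only [mul_div_assoc]
  exact h1.sub ((hJ.mem i).mul_const _)

lemma NInv_gamR (Λ : Finset V) {Λ' : Finset V} {g : (V → V) → (V → V) → ℝ} (hg : Local2 Λ' g) :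
    Local2 (Λ ∪ Λ') fun σ₁ σ₂ => gam Λ (g σ₁) σ₂ := by
  intro σ₁ σ₂ σ₁' σ₂' a b a' b' h₁ h₂
  refine (local_gam (Λ := Λ) (Meas_sec hg a) σ₂ σ₂' b b' h₂).trans ?_
  unfold gam
  refine congrArg (· / _) (sum_congr rfl fun ρ hρ => ?_)
  have k := (mem_perf.1 hρ).1.1
  exact hg _ _ _ _ a k a' k (fun x hx => h₁ x (mem_union_right _ hx)) fun _ _ => rfl

lemma NInv_gam2 (Λ : Finset V) (g : (V → V) → (V → V) → ℝ) (σ₁ σ₂ : V → V) :
    gam2 Λ g σ₁ σ₂ = gam Λ (fun ρ => gam Λ (g ρ) σ₂) σ₁ := by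
  simp only [gam, gam2]
  rw [← sum_div, div_div, mul_comm]

theorem local2_gam2 {Λ Λ' : Finset V} {g : (V → V) → (V → V) → ℝ} (hg : Local2 Λ' g) :
    Local2 (Λ ∪ Λ') (gam2 Λ g) := by
  intro σ₁ σ₂ σ₁' σ₂' a b a' b' h₁ h₂
  rw [NInv_gam2, NInv_gam2]
  have k := Meas_swap (NInv_gamR Λ (Meas_swap (NInv_gamR Λ hg)))
  rw [← union_assoc, union_self] at k
  exact k σ₁ σ₂ σ₁' σ₂' a b a' b' h₁ h₂

/-- The DLR equation for the product measure. -/
theorem IM.dlr2 {ν₁ ν₂ : Measure Dimer} (h₁ : IM ν₁) (h₂ : IM ν₂) (Λ : Finset V) {Λ' : Finset V}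
    {g : (V → V) → (V → V) → ℝ} (hg : Local2 Λ' g) :
    ∫ p, gam2 Λ g p.1.1 p.2.1 ∂(ν₁.prod ν₂) = ∫ p, g p.1.1 p.2.1 ∂(ν₁.prod ν₂) := by
  have := h₁.prob
  have := h₂.prob
  have k1 := NInv_gamR Λ hg
  have e1 : ∫ p, g p.1.1 p.2.1 ∂(ν₁.prod ν₂) = ∫ p, gam Λ (g p.1.1) p.2.1 ∂(ν₁.prod ν₂) := by
    rw [integral_prod _ (Meas_int2 hg _), integral_prod _ (Meas_int2 k1 _)]
    exact integral_congr_ae (Eventually.of_forall fun τ =>
      (h₂.dlr Λ _ _ (Meas_sec hg (isExt_dimer τ))).symm)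
  rw [e1, integral_prod_symm _ (Meas_int2 k1 _), integral_prod_symm _ (Meas_int2 (local2_gam2 hg) _)]
  refine integral_congr_ae (Eventually.of_forall fun τ => ?_)
  simp only [NInv_gam2]
  exact h₁.dlr Λ _ _ (Meas_sec (Meas_swap k1) (isExt_dimer τ))

theorem IM.setIntegral_sh2 {ν₁ ν₂ : Measure Dimer} (h₁ : IM ν₁) (h₂ : IM ν₂) {Λ : Finset V}
    {g : (V → V) → (V → V) → ℝ} (hg : Local2 Λ g) {A : Set (Dimer × Dimer)}
    (hA : MeasurableSet A) {v : V} (hv : IsEven v)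
    (hinv : (fun p : Dimer × Dimer => (shift v p.1, shift v p.2)) ⁻¹' A = A) :
    ∫ p in A, g (sh v p.1.1) (sh v p.2.1) ∂(ν₁.prod ν₂) =
      ∫ p in A, g p.1.1 p.2.1 ∂(ν₁.prod ν₂) := by
  have := h₁.prob
  have := h₂.prob
  have hT : MeasurePreserving (fun p : Dimer × Dimer => (shift v p.1, shift v p.2))
      (ν₁.prod ν₂) (ν₁.prod ν₂) := (h₁.inv v hv).prod (h₂.inv v hv)
  have h := hT.restrict_preimage hA
  rw [hinv] at h
  conv_rhs => rw [← h.map_eq]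
  rw [integral_map h.measurable.aemeasurable hg.measurable.aestronglyMeasurable]
  rfl

end Pool.Agent.Work.MP_5cb0a4_pr.Z
end

-- merged part: Pool.Agent.Work.MP_5cb0a4_pr.N.TransK
section
open MeasureTheory Finset Filter Topology
open scoped Classical

namespace Pool.Agent.Work.MP_5cb0a4_pr.Z

theorem NTransK_compare {ν : Measure Dimer} (h : KM ν) {Λ : Finset V} {W : (V → V) → ℝ}
    (hW : Local Λ W) (β : ℝ) {L N : ℕ} (hN : 2 * L ≤ N) {c : V} (hc : IsEven c)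
    (hcL : c ∈ box L) :
    ∫ τ, max (gam (box N) W τ.1 - β) 0 ∂ν ≤
      ∫ τ, max (gam (box L) (fun ρ => W (sh (-c) ρ)) τ.1 - β) 0 ∂ν := by
  have := h.im.prob
  have hsub : tr (-c) (box L) ⊆ box N := fun x hx => mem_box.2 fun i => by
    have h1 := mem_box.1 (mem_tr.1 hx) i
    have h2 := mem_box.1 hcL i
    simp only [Pi.sub_apply, Pi.neg_apply] at h1
    omega
  have hloc : Local (tr (-c) (box L) ∪ Λ) fun ρ => max (gam (tr (-c) (box L)) W ρ - β) 0 :=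
    Trans_comp (local_gam hW) fun y => max (y - β) 0
  calc ∫ τ, max (gam (box N) W τ.1 - β) 0 ∂ν
      ≤ ∫ τ, gam (box N) (fun ρ => max (gam (tr (-c) (box L)) W ρ - β) 0) τ.1 ∂ν :=
        integral_mono ((Trans_comp (local_gam hW) fun y => max (y - β) 0).integrable ν)
          ((local_gam hloc).integrable ν) fun τ => gam_pos_le hsub W β (zz_dimer_pos _ τ)
    _ = ∫ τ, max (gam (tr (-c) (box L)) W τ.1 - β) 0 ∂ν := h.im.dlr _ _ _ hloc
    _ = ∫ τ, max (gam (tr (-c) (box L)) W (sh (-c) τ.1) - β) 0 ∂ν :=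
        (h.im.integral_sh hloc (isEven_neg.2 hc)).symm
    _ = _ := by simp only [gam_sh]

/-- Port of `transfer` to invariant measures of maximal entropy. -/
theorem transferK {ν : Measure Dimer} (h : KM ν) (m : ℕ) (b : (V → V) → ℝ) (β : ℝ)
    (hb : Local (box m) b) (hmix : Mix (box m) (fun ρ => (b ρ : ℂ)) β)
    (h0 : ∀ ρ, IsExt ρ → zz (box m) ρ = 0 → 0 ≤ ∑ ρ' ∈ cls (box m) ρ, b ρ') :
    Tendsto (fun N : ℕ => ∫ τ, max (gam (box N)
      (fun ρ => (∑ ρ' ∈ cls (box m) ρ, b ρ') / zz (box m) ρ) τ.1 - β) 0 ∂ν) atTop (𝓝 0) := by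
  have := h.im.prob
  set W : (V → V) → ℝ := fun ρ => (∑ ρ' ∈ cls (box m) ρ, b ρ') / zz (box m) ρ with hW
  have hWl : Local (box m) W := Trans_comp2 ((local_sum_cls hb).mono (by rw [union_self]))
    (Trans_local_zz (box m)) fun (x : ℝ) (n : ℕ) => x / n
  obtain ⟨C₀, hC₀⟩ := (Trans_comp hWl fun y => y - 1).bdd
  obtain ⟨C, hC1, hC⟩ : ∃ C : ℝ, 1 ≤ C ∧ ∀ ρ, IsExt ρ → |W ρ - 1| ≤ C :=
    ⟨max 1 C₀, le_max_left _ _, fun ρ hρ => (hC₀ ρ hρ).trans (le_max_right _ _)⟩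
  have hCp : 0 < C := by linarith
  rw [Metric.tendsto_atTop]
  intro η hη
  obtain ⟨δ, hδ, hδC, hδη⟩ : ∃ δ : ℝ, 0 < δ ∧ δ * C ≤ 1 / 2 ∧ 2 * δ * C ^ 2 ≤ η / 4 := by
    refine ⟨min (1 / (2 * C)) (η / (8 * C ^ 2)), by positivity, ?_, ?_⟩
    · calc min (1 / (2 * C)) (η / (8 * C ^ 2)) * C ≤ 1 / (2 * C) * C := by
            gcongr; exact min_le_left _ _
        _ = 1 / 2 := by field_simp
    · calc 2 * min (1 / (2 * C)) (η / (8 * C ^ 2)) * C ^ 2 ≤ 2 * (η / (8 * C ^ 2)) * C ^ 2 := by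
            gcongr; exact min_le_right _ _
        _ = η / 4 := by field_simp; ring
  have hδ1 : δ ≤ 1 / 2 := by linarith only [hδC, hC1, hδ, mul_nonneg_of_nonpos_of_nonpos (Mathlib.Tactic.Linarith.sub_nonpos_of_le hC1) (le_of_lt (Mathlib.Tactic.Linarith.sub_neg_of_lt hδ))]
  obtain ⟨J, hJ⟩ := h.lp (δ * η / (4 * ((m : ℝ) + 1) ^ 3)) (by positivity)
  obtain ⟨S, hS1, hS2, hS3, hS4⟩ := exists_centers m J
  obtain ⟨L, hL⟩ : ∃ L, L = (2 * m + 2) * J + m + 1 := ⟨_, rfl⟩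
  have hJL : J ≤ L := by linarith only [hL, mul_nonneg_of_nonpos_of_nonpos (Mathlib.Tactic.Linarith.sub_nonpos_of_le (Mathlib.Tactic.Linarith.natCast_nonneg ℤ m)) (Mathlib.Tactic.Linarith.sub_nonpos_of_le (Mathlib.Tactic.Linarith.natCast_nonneg ℤ J))]
  have hL1 : L - 1 = (2 * m + 2) * J + m := by omega
  refine ⟨2 * L, fun N hN => ?_⟩
  have hnn : 0 ≤ ∫ τ, max (gam (box N) W τ.1 - β) 0 ∂ν :=
    integral_nonneg fun τ => le_max_right _ _
  rw [Real.dist_eq, sub_zero, abs_of_nonneg hnn]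
  have hint : ∀ c : V, Integrable
      (fun τ : Dimer => max (gam (box L) (fun ρ => W (sh (-c) ρ)) τ.1 - β) 0) ν := fun c =>
    (Trans_comp (local_gam (hWl.sh c)) fun y => max (y - β) 0).integrable ν
  have hilog : Integrable (fun τ : Dimer => Real.log (Zs L / zz (box L) τ.1)) ν :=
    (Trans_comp (Trans_local_zz (box L)) (fun n => Real.log (Zs L / (n : ℝ)))).integrable ν
  have h1 : (S.card : ℝ) * ∫ τ, max (gam (box N) W τ.1 - β) 0 ∂ν ≤
      ∫ τ, ∑ c ∈ S, max (gam (box L) (fun ρ => W (sh (-c) ρ)) τ.1 - β) 0 ∂ν := by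
    clear * - S ν N W β L hint h m hWl hN hS2 J hL hS3
    rw [integral_finsetSum _ fun c _ => hint c, ← nsmul_eq_mul, ← sum_const]
    refine sum_le_sum fun c hc => NTransK_compare h hWl β hN (hS2 c hc) ?_
    refine box_mono (by omega) (hS3 c hc (mem_tr.2 (mem_box.2 fun i => ?_)))
    simp
  have h2 : ∫ τ, δ * ∑ c ∈ S, max (gam (box L) (fun ρ => W (sh (-c) ρ)) τ.1 - β) 0 ∂ν ≤
      ∫ τ, (Real.log (Zs L / zz (box L) τ.1) + S.card * (2 * (δ * C) ^ 2)) ∂ν := by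
    refine integral_mono ((integrable_finsetSum _ fun c _ => hint c).const_mul δ)
      (hilog.add (integrable_const _)) fun τ => ?_
    have e := Trans_det L (by omega) τ (box m)
      (S.filter fun c => 0 < gam (box L) (fun ρ => W (sh (-c) ρ)) τ.1 - β)
      (fun c hc => hL1 ▸ hS3 c (mem_filter.1 hc).1)
      (fun c hc c' hc' => hS4 c (mem_filter.1 hc).1 c' (mem_filter.1 hc').1)
      b β hb hmix h0 W (fun _ => rfl) hC hδ hδ1 hδC
    have e1 : ∑ c ∈ S, max (gam (box L) (fun ρ => W (sh (-c) ρ)) τ.1 - β) 0 =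
        ∑ c ∈ S.filter fun c => 0 < gam (box L) (fun ρ => W (sh (-c) ρ)) τ.1 - β,
          (gam (box L) (fun ρ => W (sh (-c) ρ)) τ.1 - β) := by
      rw [sum_filter]
      refine sum_congr rfl fun c _ => ?_
      split_ifs with hc
      · exact max_eq_left hc.le
      · exact max_eq_right (not_lt.1 hc)
    have e2 : ((S.filter fun c => 0 < gam (box L) (fun ρ => W (sh (-c) ρ)) τ.1 - β).card : ℝ) ≤
        S.card := by exact_mod_cast card_filter_le _ _
    simp only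
    rw [e1]
    refine e.trans ?_
    clear * - L τ W β S δ C e2 hδ hC1; gcongr
  rw [integral_const_mul, integral_add hilog (integrable_const _)] at h2
  simp only [integral_const, probReal_univ, smul_eq_mul, one_mul] at h2
  have h3 := hJ L hJL
  have hSp : (0 : ℝ) < S.card := by rw [hS1]; positivity
  have h4 : (L : ℝ) ^ 3 ≤ ((m : ℝ) + 1) ^ 3 * S.card := by
    rw [hS1, hL]
    push_cast
    rw [← mul_pow]
    exact le_of_eq (by ring)
  have h5 : δ * η / (4 * ((m : ℝ) + 1) ^ 3) * (L : ℝ) ^ 3 ≤ δ * S.card * (η / 4) := by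
    clear * - δ η m L S h4 hδ hη hSp
    calc δ * η / (4 * ((m : ℝ) + 1) ^ 3) * (L : ℝ) ^ 3
        ≤ δ * η / (4 * ((m : ℝ) + 1) ^ 3) * (((m : ℝ) + 1) ^ 3 * S.card) := by gcongr
      _ = δ * S.card * (η / 4) := by field_simp
  have h6 : (S.card : ℝ) * (2 * (δ * C) ^ 2) ≤ δ * S.card * (η / 4) := by
    clear * - S δ C η hδη hδ hSp
    calc (S.card : ℝ) * (2 * (δ * C) ^ 2) = δ * S.card * (2 * δ * C ^ 2) := by ring
      _ ≤ δ * S.card * (η / 4) := by gcongr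
  have h7 : δ * S.card * ∫ τ, max (gam (box N) W τ.1 - β) 0 ∂ν ≤ δ * S.card * (η / 2) := by
    clear * - δ S ν N W β L h1 hδ η C m h2 h3 h5 h6 this
    have := mul_le_mul_of_nonneg_left h1 hδ.le
    linarith only [h2, h3, h5, h6, this]
  have h8 := le_of_mul_le_mul_left h7 (mul_pos hδ hSp)
  linarith only [hη, h8]

lemma NTransK_mono {ν : Measure Dimer} (h : KM ν) {m N : ℕ} (hm : m ≤ N) {X : Finset V}
    (hX : X ⊆ box m) : ∫ τ, Mr (box m) τ.1 X ∂ν ≤ ∫ τ, Mr (box N) τ.1 X ∂ν := by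
  have := h.im.prob
  rw [← h.im.dlr (box N) _ _ (local_Mr (box m) X)]
  exact integral_mono ((local_gam (local_Mr (box m) X)).integrable ν)
    ((local_Mr (box N) X).integrable ν) fun τ => Mr_super (box_mono hm) hX τ.1

theorem mean_Mr_leK {ν : Measure Dimer} (h : KM ν) (m : ℕ) (X : Finset V) :
    ∫ τ, Mr (box m) τ.1 X ∂ν ≤ 1 := by
  have := h.im.prob
  by_cases hX : X ⊆ box m
  · refine (NTransK_mono h (Nat.le_succ m) hX).trans ?_
    have ht := transferK h (m + 1) (fun ρ => if mon (box (m + 1)) ρ = X then 1 else 0) 1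
      (QGD_loc1 (fun Y => if Y = X then (1 : ℝ) else 0) (local_mon _))
      ((mix_mon (Λ := box (m + 1)) (X := X) fun x hx => ⟨box_mono (Nat.le_succ m) (hX hx),
        e0_eq ▸ add_dv_mem_box (hX hx) _⟩).mono (fun ρ _ => by split_ifs <;> simp) le_rfl)
      (fun ρ _ _ => sum_nonneg fun _ _ => by split_ifs <;> norm_num)
    simp only [QGD_sum_ind] at ht
    have h1 : Tendsto (fun N : ℕ => 1 + ∫ τ, max (gam (box N)
        (fun ρ => (Zm (box (m + 1)) ρ X : ℝ) / zz (box (m + 1)) ρ) τ.1 - 1) 0 ∂ν) atTop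
        (𝓝 (1 + 0)) := tendsto_const_nhds.add ht
    rw [add_zero] at h1
    refine ge_of_tendsto' h1 fun N => ?_
    have hl := local_gam (Λ := box N) (local_Mr (box (m + 1)) X)
    rw [← h.im.dlr (box N) _ _ (local_Mr (box (m + 1)) X)]
    have hi : Integrable (fun τ : Dimer => max (gam (box N)
        (fun ρ => Mr (box (m + 1)) ρ X) τ.1 - 1) 0) ν :=
      (QGD_loc1 (fun x => max (x - 1) 0) hl).integrable ν
    calc ∫ τ, gam (box N) (fun ρ => Mr (box (m + 1)) ρ X) τ.1 ∂ν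
        ≤ ∫ τ, (1 + max (gam (box N) (fun ρ => Mr (box (m + 1)) ρ X) τ.1 - 1) 0) ∂ν :=
          integral_mono (hl.integrable ν) ((integrable_const _).add hi) fun τ => by
            have := le_max_left (gam (box N) (fun ρ => Mr (box (m + 1)) ρ X) τ.1 - 1) 0
            dsimp only
            linarith only [this]
      _ = _ := by
          rw [integral_add (integrable_const _) hi]
          simp [Mr]
  · have : ∀ τ : Dimer, Mr (box m) τ.1 X = 0 := fun τ => by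
      have : Zm (box m) τ.1 X = 0 := by
        rw [Zm, card_eq_zero, filter_eq_empty_iff]
        rintro ρ - rfl
        exact hX (filter_subset _ _)
      simp [Mr, this]
    simp [this]

theorem NTransK_gap {ν : Measure Dimer} (h : KM ν) (X : Finset V) {ε : ℝ} (hε : 0 < ε) :
    ∃ m₀ : ℕ, X ⊆ box m₀ ∧ ∀ m ≥ m₀, ∀ N ≥ m,
      ∫ τ, Mr (box N) τ.1 X ∂ν - ∫ τ, Mr (box m) τ.1 X ∂ν ≤ ε := by
  obtain ⟨n₀, hn₀⟩ := QGD_exists_box X
  let a : ℕ → ℝ := fun n => ∫ τ, Mr (box (n₀ + n)) τ.1 X ∂ν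
  have hb : BddAbove (Set.range a) := ⟨1, by rintro _ ⟨n, rfl⟩; exact mean_Mr_leK h _ _⟩
  obtain ⟨n, hn⟩ := exists_lt_of_lt_ciSup (f := a) (sub_lt_self (⨆ n, a n) hε)
  refine ⟨n₀ + n, hn₀.trans (box_mono (by omega)), fun m hm N hN => ?_⟩
  have h1 : a n ≤ ∫ τ, Mr (box m) τ.1 X ∂ν :=
    NTransK_mono h hm (hn₀.trans (box_mono (by omega)))
  have h2 : a (N - n₀) ≤ ⨆ n, a n := le_ciSup hb _
  have h3 : a (N - n₀) = ∫ τ, Mr (box N) τ.1 X ∂ν := by
    simp only [a]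
    rw [show n₀ + (N - n₀) = N by omega]
  linarith only [hn, h1, h2, h3]

theorem gap_allK {ν : Measure Dimer} (h : KM ν) (T : Finset V) {ε : ℝ} (hε : 0 < ε) :
    ∃ m₀ : ℕ, T ⊆ box m₀ ∧ ∀ X ∈ T.powerset, ∀ N ≥ m₀,
      ∫ τ, Mr (box N) τ.1 X ∂ν - ∫ τ, Mr (box m₀) τ.1 X ∂ν ≤ ε := by
  choose f hf using fun X => NTransK_gap h X hε
  exact ⟨T.powerset.sup f, (hf T).1.trans (box_mono (le_sup (mem_powerset_self T))),
    fun X hX N hN => (hf X).2 _ (le_sup hX) N hN⟩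

end Pool.Agent.Work.MP_5cb0a4_pr.Z
end
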