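import Pool.Agent.Work.MP_5cb0a4_pr.N.LP2det
import Pool.Agent.Work.MP_5cb0a4_pr.N.IsoP
import Pool.Agent.Work.MP_5cb0a4_pr.N.Gauge
import Pool.Agent.Work.MP_5cb0a4_pr.N.TransK

-- merged part: Pool.Agent.Work.MP_5cb0a4_pr.N.PatchP
section
open MeasureTheory Finset Filter Topology
open scoped Classical

namespace Pool.Agent.Work.MP_5cb0a4_pr.Z

/-- A level with a large sum of absolute values has a large sum of squares. -/
lemma NPatchP_cs {l b t : ℕ} (hb : 1 ≤ b) (ht : t ≤ b) (f : Dir → ℕ × ℕ → ℝ) {δ : ℝ} (hδ : 0 ≤ δ)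
    (h : δ * (b : ℝ) ^ 2 ≤ ∑ d : Dir, ∑ p ∈ sqs t l, |f d p|) :
    δ ^ 2 * (b : ℝ) ^ 2 * (l : ℝ) ^ 2 / 54 ≤ ∑ d : Dir, ∑ p ∈ sqs t l, f d p ^ 2 := by
  rw [← sum_product'] at h ⊢
  have h1 := (pow_le_pow_left₀ (by positivity) h 2).trans sq_sum_le_card_mul_sum_sq
  simp only [sq_abs] at h1
  have hQ : 0 ≤ ∑ x ∈ (univ : Finset Dir) ×ˢ sqs t l, f x.1 x.2 ^ 2 := by positivity
  generalize ∑ x ∈ (univ : Finset Dir) ×ˢ sqs t l, f x.1 x.2 ^ 2 = Q at *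
  have h2 : ((univ : Finset Dir) ×ˢ sqs t l).card * l ^ 2 ≤ 54 * b ^ 2 := by
    have h3 : (2 * t + 1) / l * l ≤ 3 * b := (Nat.div_mul_le_self _ _).trans (by omega)
    simp only [card_product, card_univ, Fintype.card_prod, Fintype.card_fin, Fintype.card_bool, sqs,
      card_range]
    linarith only [h3, Nat.mul_le_mul h3 h3]
  generalize ((univ : Finset Dir) ×ˢ sqs t l).card = N at h1 h2
  have h3 : (N : ℝ) * l ^ 2 ≤ 54 * b ^ 2 := by exact_mod_cast h2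
  have b1 : (0 : ℝ) < b := by exact_mod_cast hb
  rw [div_le_iff₀ (by norm_num)]
  refine le_of_mul_le_mul_right ?_ (show 0 < (b : ℝ) ^ 2 by positivity)
  linarith only [h1, h3, hQ, mul_le_mul_of_nonneg_right h1 (sq_nonneg (l : ℝ)), mul_le_mul_of_nonneg_left h3 hQ, sq_nonneg ↑l]

/-- The growth lemma along a sequence of levels. -/
lemma NPatchP_core {s : Fin 3 → ℝ} (hs : n1 s ≤ 1) {A δ : ℝ} (hA : 1 ≤ A) {k l b w : ℕ} (hk : 1 ≤ k)
    (hl : 1 ≤ l) (hb : 1 ≤ b) (hw : b ≤ 2 * k * w) (hδ : δ = 1 / (10368 * A ^ 2 * (k : ℝ) ^ 2))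
    (hW : (186624 * A ^ 2 * k) ^ 2 * (l : ℝ) ^ 3 ≤ (w : ℝ) ^ 2) (σ : V → V) (S : Finset V)
    (lv : ℕ → ℕ) (G : Finset ℕ)
    (h0 : ∀ u ∈ Finset.Icc 1 (2 * w), 1 ≤ lv u ∧ lv u ≤ b ∧ Php s σ (lv u) = 0)
    (hG : G ⊆ Finset.Ioc w (2 * w)) (hc : w ≤ G.card + 1)
    (hP : ∑ u ∈ G, ∑ d : Dir, ∑ p ∈ sqs (lv u) l, FQp s σ d (corner d (lv u) l p) l ^ 2 ≤
      δ ^ 2 / (432 * k) * (b : ℝ) ^ 3 * (l : ℝ) ^ 2) :
    ∃ u ∈ Finset.Icc 1 (2 * w),
      A * |Outp s σ S (lv u)| ≤ ∑ j ∈ Finset.Ico 1 u, (beta S (lv j) : ℝ) := by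
  have k1 : (1 : ℝ) ≤ k := by exact_mod_cast hk
  have l1 : (1 : ℝ) ≤ l := by exact_mod_cast hl
  have b1 : (1 : ℝ) ≤ b := by exact_mod_cast hb
  have hw' : (b : ℝ) ≤ 2 * k * w := by exact_mod_cast hw
  have A2 : 1 ≤ A ^ 2 := one_le_pow₀ hA
  have δ0 : 0 < δ := by rw [hδ]; positivity
  have hW' : 186624 * A ^ 2 * k * l ≤ w := by
    refine (pow_le_pow_iff_left₀ (by positivity) (by positivity) two_ne_zero).1 ?_
    rw [mul_pow]
    exact le_trans (mul_le_mul_of_nonneg_left (pow_le_pow_right₀ l1 (by norm_num)) (by positivity)) hW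
  have w8 : (8 : ℝ) ≤ w := by
    have : 1 ≤ A ^ 2 * k * l := one_le_mul_of_one_le_of_one_le (one_le_mul_of_one_le_of_one_le A2 k1) l1
    linarith only [hW', this]
  have hw1 : 8 ≤ w := by exact_mod_cast w8
  have hb2 : (b : ℝ) ^ 2 ≤ (2 * k * w) ^ 2 := by gcongr
  have hI : ∀ u ∈ G, u ∈ Finset.Icc 1 (2 * w) := fun u hu => by
    have := mem_Ioc.1 (hG hu)
    exact mem_Icc.2 ⟨by omega, this.2⟩
  obtain ⟨good, hgd⟩ : ∃ good, good = G.filter fun u => ∑ d : Dir, ∑ p ∈ sqs (lv u) l,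
      |FQp s σ d (corner d (lv u) l p) l| ≤ δ * (b : ℝ) ^ 2 := ⟨_, rfl⟩
  have hbad : 4 * (G.filter fun u => ¬∑ d : Dir, ∑ p ∈ sqs (lv u) l,
      |FQp s σ d (corner d (lv u) l p) l| ≤ δ * (b : ℝ) ^ 2).card ≤ w := by
    clear * - lv l s σ δ b G k hb h0 hI δ0 hP w hw' hk hl k1
    have h3 := (card_nsmul_le_sum _ _ _ fun u hu => NPatchP_cs hb (h0 u (hI u (mem_filter.1 hu).1)).2.1
      (fun d p => FQp s σ d (corner d (lv u) l p) l) δ0.le (not_le.1 (mem_filter.1 hu).2).le).trans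
      ((sum_le_sum_of_subset_of_nonneg (filter_subset _ _) fun _ _ _ => by positivity).trans hP)
    generalize Finset.card _ = N at h3 ⊢
    have h4 : (4 * N : ℝ) ≤ w := by
      rw [nsmul_eq_mul] at h3
      field_simp at h3
      (refine le_of_not_gt fun h_nl => ?_; linarith only [h_nl, hw', h3, k1, mul_nonneg_of_nonpos_of_nonpos (Mathlib.Tactic.Linarith.sub_nonpos_of_le k1) (le_of_lt (Mathlib.Tactic.Linarith.sub_neg_of_lt h_nl))])
    exact_mod_cast h4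
  have hgc : w + 2 ≤ 2 * good.card := by
    have := card_filter_add_card_filter_not (s := G) fun u => ∑ d : Dir, ∑ p ∈ sqs (lv u) l,
      |FQp s σ d (corner d (lv u) l p) l| ≤ δ * (b : ℝ) ^ 2
    rw [← hgd] at this
    omega
  refine seq_lemmaP (C₂ := 6 * (l : ℝ)) (C₃ := 36 * (2 * b + 1) ^ 2)
    (D := δ * (b : ℝ) ^ 2 + 12 * l * (2 * b + 1)) hA (by linarith only [l1]) (by omega)
    (fun u => beta S (lv u)) (fun u => |Outp s σ S (lv u)|) good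
    (fun u hu => out_le_sqP hs σ S (h0 u hu).1 (h0 u hu).2.2) (fun u hu => ?_)
    (fun u hu => ?_) ?_ (by omega) ?_
  · rw [hgd, mem_filter] at hu
    have h4 := h0 u (hI u hu.1)
    have h5 : (lv u : ℝ) ≤ b := by exact_mod_cast h4.2.1
    have h6 : 12 * (l : ℝ) * (2 * lv u + 1) ≤ 12 * l * (2 * b + 1) := by clear * - l lv u b h5 hl; gcongr
    exact ⟨hG hu.1, by linarith only [hu, h6, hs, h4, hl, out_le_linP hs σ S h4.1 hl, hu.2]⟩
  · have h4 := h0 u hu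
    have h5 : beta S (lv u) ≤ 36 * (2 * b + 1) ^ 2 :=
      (beta_le S h4.1).trans (by clear * - lv u b s σ h4; have := h4.2.1; gcongr)
    exact_mod_cast h5
  · have h3 : A ^ 2 * (δ * (b : ℝ) ^ 2) ≤ w ^ 2 / 2592 := by
      have e : A ^ 2 * (δ * (b : ℝ) ^ 2) = b ^ 2 / (10368 * k ^ 2) := by
        rw [hδ]
        field_simp
      rw [e, div_le_div_iff₀ (by positivity) (by positivity)]
      linarith only [hb2]
    have h4 : A ^ 2 * ((l : ℝ) * (2 * b + 1)) ≤ A ^ 2 * (l * (6 * k * w)) := by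
      gcongr
      linarith only [b1, hw']
    have h5 : 186624 * A ^ 2 * k * l * w ≤ w * w := by gcongr
    linarith only [h3, h4, h5]
  · have h3 : (2 * (b : ℝ) + 1) ^ 2 ≤ (6 * k * w) ^ 2 := by
      gcongr
      linarith only [b1, hw']
    have h4 : (w : ℝ) / 2 ≤ good.card - 1 := by
      have : (w : ℝ) + 2 ≤ 2 * good.card := by exact_mod_cast hgc
      linarith only [this]
    have h5 : (w : ℝ) ^ 2 * (w / 2) ^ 2 ≤ w ^ 2 * ((good.card : ℝ) - 1) ^ 2 := by clear * - w good hw1 h4; gcongr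
    have h6 := mul_le_mul_of_nonneg_left h3 (show 0 ≤ A ^ 4 * (l : ℝ) ^ 3 by positivity)
    have h7 := mul_le_mul_of_nonneg_left hW (sq_nonneg (w : ℝ))
    have h8 : 0 ≤ A ^ 4 * (l : ℝ) ^ 3 * k ^ 2 * w ^ 2 := by positivity
    linarith only [h5, h6, h7, h8]

/-- The centred patching lemma. -/
theorem patchP {κ : ℝ} (hκ : 0 < κ) (k : ℕ) (hk : 8 ≤ k) :
    ∃ c : ℝ, 0 < c ∧ ∃ C : ℕ, ∀ s : Fin 3 → ℝ, n1 s ≤ 1 - κ → PatchAt s k c C := by
  have k0 : (1 : ℝ) ≤ k := by exact_mod_cast (by omega : 1 ≤ k)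
  obtain ⟨A, hAe⟩ : ∃ A : ℝ, A = 6 / κ := ⟨_, rfl⟩
  have A0 : 0 < A := by rw [hAe]; positivity
  obtain ⟨δ, hδ⟩ : ∃ δ : ℝ, δ = 1 / (10368 * A ^ 2 * (k : ℝ) ^ 2) := ⟨_, rfl⟩
  have δ0 : 0 < δ := by rw [hδ]; positivity
  refine ⟨δ ^ 2 / (432 * k), by positivity, ⌈4 * (k : ℝ) ^ 2 * (186624 * A ^ 2 * k) ^ 2⌉₊,
    fun s hs l b hl hb σ τ hσ hτ hτm hmon hsum hO hI => ?_⟩
  have hA : 1 ≤ A := by
    rw [hAe, le_div_iff₀ hκ]
    linarith only [hs, n1_nonneg s]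
  have hs1 : n1 s ≤ 1 := by linarith only [hκ, hs]
  have l1 : (1 : ℝ) ≤ l := by exact_mod_cast hl
  have hb' : 4 * (k : ℝ) ^ 2 * (186624 * A ^ 2 * k) ^ 2 * (l : ℝ) ^ 3 ≤ (b : ℝ) ^ 2 :=
    (mul_le_mul_of_nonneg_right (Nat.le_ceil _) (by positivity)).trans (by exact_mod_cast hb)
  have hkb : k ≤ b := by
    clear * - A k l hA k0 l1 b hb' hk
    have h1 : 1 ≤ (186624 * A ^ 2 * k) ^ 2 * (l : ℝ) ^ 3 :=
      one_le_mul_of_one_le_of_one_le (one_le_pow₀ (by linarith only [hA, k0, one_le_pow₀ (n := 2) hA, mul_nonneg_of_nonpos_of_nonpos (Mathlib.Tactic.Linarith.sub_nonpos_of_le (sq_nonneg A)) (Mathlib.Tactic.Linarith.sub_nonpos_of_le k0)]))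
        (one_le_pow₀ l1)
    have h2 : (k : ℝ) ^ 2 ≤ (b : ℝ) ^ 2 := by linarith only [hb', h1, sq_nonneg (k : ℝ), sq_nonneg ↑b, mul_nonneg_of_nonpos_of_nonpos (Mathlib.Tactic.Linarith.sub_nonpos_of_le (sq_nonneg ↑k)) (Mathlib.Tactic.Linarith.sub_nonpos_of_le h1)]
    exact_mod_cast (pow_le_pow_iff_left₀ (by positivity) (by positivity) two_ne_zero).1 h2
  have h0 : 1 ≤ b / k := (Nat.le_div_iff_mul_le (by omega)).2 (by omega)
  have h1 : k * (b / k) ≤ b := Nat.mul_div_le b k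
  have h2 : b < k * (b / k + 1) := Nat.lt_mul_div_succ b (by omega)
  unfold PsO PsI Psp lsum at *
  unfold rin at *
  generalize b / k = w at *
  have hw : b ≤ 2 * k * w := by nlinarith only [h2, h0]
  have h8 : 8 * w ≤ b := le_trans (Nat.mul_le_mul_right w hk) h1
  have hW : (186624 * A ^ 2 * k) ^ 2 * (l : ℝ) ^ 3 ≤ (w : ℝ) ^ 2 := by
    clear * - b k w hw A l hb' hk
    have hw' : (b : ℝ) ≤ 2 * k * w := by exact_mod_cast hw
    have h3 : (b : ℝ) ^ 2 ≤ (2 * k * w) ^ 2 := by gcongr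
    refine le_of_mul_le_mul_left ?_ (show 0 < 4 * (k : ℝ) ^ 2 by positivity)
    linarith only [hb', h3]
  have hP : ∀ t, b - 4 * w ≤ t → t ≤ b → Php s σ t = 0 := fun t h3 h4 => by
    clear * - s σ t hσ b w hsum hmon h4 h3
    rw [Php_eq hσ, neg_eq_zero, ← hsum]
    congr 1
    ext x
    simp only [mem_mon]
    exact ⟨fun h => ⟨by_contra fun e => hmon x (box_mono h4 h.1) e h.2, h.2⟩,
      fun h => ⟨box_mono h3 h.1, h.2⟩⟩
  have hP' : ∀ t, t ≤ b - 1 → Php s τ t = 0 := fun t ht => by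
    rw [Php_eq hτ, sum_eq_zero, neg_zero]
    intro x hx
    exact absurd (mem_mon.1 hx).2 (hτm x (box_mono ht (mem_mon.1 hx).1))
  obtain ⟨T, hT⟩ : ∃ T, b = T + 2 * w := ⟨b - 2 * w, by omega⟩
  refine hall_patchP hκ hs (T := T) (by omega) (by omega) (by omega) hσ hτ hτm hmon fun S _ => ?_
  rw [← hAe]
  obtain ⟨u, hu, h3⟩ := NPatchP_core hs1 hA (k := k) (by omega) hl (by omega) hw hδ hW σ S (· + T)
    (Finset.Ioo w (2 * w))
    (fun u hu => by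
      clear * - u w hu T b s σ k hk A l hkb h8 hT hP h0
      have := mem_Icc.1 hu
      exact ⟨by omega, by omega, hP _ (by omega) (by omega)⟩)
    Ioo_subset_Ioc_self (by rw [Nat.card_Ioo]; omega) (by
      clear * - w T l s σ b δ k hk A hkb h8 hT h0 hO
      refine le_trans (le_of_eq ?_) hO.le
      refine sum_bij' (fun j _ => j + T) (fun j _ => j - T) (fun j hj => ?_) (fun j hj => ?_)
        (fun j hj => ?_) (fun j hj => ?_) fun _ _ => rfl <;>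
      simp only [mem_Ioo] at hj ⊢ <;> omega)
  obtain ⟨u', hu', h4⟩ := NPatchP_core hs1 hA (k := k) (by omega) hl (by omega) hw hδ hW τ S
    (T + 1 - ·) (Finset.Ioc (w + 1) (2 * w))
    (fun u hu => by
      clear * - u w hu T b s τ k hk A l hkb h8 hT h0 hP'
      have := mem_Icc.1 hu
      exact ⟨by omega, by omega, hP' _ (by omega)⟩)
    (Ioc_subset_Ioc_left (by omega)) (by rw [Nat.card_Ioc]; omega) (by
      clear * - w T l s τ b δ k hk A hkb h8 hT hI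
      refine le_trans (le_of_eq ?_) hI.le
      refine sum_bij' (fun j _ => T + 1 - j) (fun j _ => T + 1 - j) (fun j hj => ?_) (fun j hj => ?_)
        (fun j hj => ?_) (fun j hj => ?_) fun _ _ => rfl <;>
      simp only [mem_Ioo, mem_Ioc] at hj ⊢ <;> omega)
  rw [mem_Icc] at hu hu'
  refine ⟨u + T, T + 1 - u', by omega, by omega, by omega, by omega, h3.trans_eq ?_, h4.trans_eq ?_⟩
  · rw [Finset.sum_Ico_add' (fun t => (beta S t : ℝ)), ← Finset.Ico_add_one_left_eq_Ioo, add_comm 1]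
  · refine sum_bij' (fun j _ => T + 1 - j) (fun j _ => T + 1 - j) (fun j hj => ?_) (fun j hj => ?_)
      (fun j hj => ?_) (fun j hj => ?_) fun _ _ => rfl <;>
    simp only [mem_Ico, mem_Ioc] at hj ⊢ <;> omega

end Pool.Agent.Work.MP_5cb0a4_pr.Z
end

-- merged part: Pool.Agent.Work.MP_5cb0a4_pr.N.LP2
section
open MeasureTheory Finset Filter Topology
open scoped Classical

namespace Pool.Agent.Work.MP_5cb0a4_pr.Z

theorem NLP2_lsum {Ω : Type} [MeasurableSpace Ω] (μ : Measure Ω) (lo hi l : ℕ)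
    (f : Dir → V → Ω → ℝ) (hf : ∀ d q, Integrable (f d q) μ) :
    Integrable (fun p => lsum lo hi l fun d q => f d q p) μ ∧
      ∫ p, lsum lo hi l (fun d q => f d q p) ∂μ = lsum lo hi l fun d q => ∫ p, f d q p ∂μ := by
  have k1 : ∀ t d, Integrable (fun p => ∑ q ∈ sqs t l, f d (corner d t l q) p) μ :=
    fun t d => integrable_finsetSum _ fun q _ => hf _ _
  have k2 : ∀ t, Integrable (fun p => ∑ d : Dir, ∑ q ∈ sqs t l, f d (corner d t l q) p) μ :=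
    fun t => integrable_finsetSum _ fun d _ => k1 t d
  refine ⟨integrable_finsetSum _ fun t _ => k2 t, ?_⟩
  unfold lsum
  rw [integral_finsetSum _ fun t _ => k2 t]
  refine sum_congr rfl fun t _ => ?_
  rw [integral_finsetSum _ fun d _ => k1 t d]
  exact sum_congr rfl fun d _ => integral_finsetSum _ fun q _ => hf _ _

theorem NLP2_add {ν₁ ν₂ : Measure Dimer} [IsProbabilityMeasure ν₁] [IsProbabilityMeasure ν₂]
    {Λ : Finset V} {g : (V → V) → ℝ} (hg : Local Λ g) :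
    Integrable (fun p : Dimer × Dimer => g p.1.1 + g p.2.1) (ν₁.prod ν₂) ∧
      ∫ p : Dimer × Dimer, g p.1.1 + g p.2.1 ∂(ν₁.prod ν₂) = ∫ τ, g τ.1 ∂ν₁ + ∫ τ, g τ.1 ∂ν₂ := by
  have k1 := (hg.integrable ν₁).comp_fst ν₂
  have k2 := (hg.integrable ν₂).comp_snd ν₁
  refine ⟨k1.add k2, ?_⟩
  rw [integral_add k1 k2, integral_fun_fst fun τ : Dimer => g τ.1,
    integral_fun_snd fun τ : Dimer => g τ.1]
  simp

theorem NLP2_one {ν₁ ν₂ : Measure Dimer} (h₁ : IM ν₁) (h₂ : IM ν₂) (s : Fin 3 → ℝ)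
    (m lo hi : ℕ) {b l : ℕ} (hhi : hi ≤ b) (S : Finset V) (hS : S.Nonempty) {θ η : ℝ} (hθ : 0 < θ)
    (hη : 0 ≤ η) (hb : 1 ≤ b) (hl : 1 ≤ l)
    (f₁ : ∀ d c, ∫ τ, FQp s τ.1 d c l ^ 2 ∂ν₁ ≤ η * (l : ℝ) ^ 4)
    (f₂ : ∀ d c, ∫ τ, FQp s τ.1 d c l ^ 2 ∂ν₂ ≤ η * (l : ℝ) ^ 4) :
    (ν₁.prod ν₂).real {p | ¬ ∑ c ∈ S, lsum lo hi l
      (fun d q => SQ s (un2 p.1.1 p.2.1) d (pj m d (q + c)) l ^ 2) ≤
        θ * S.card * (b : ℝ) ^ 3 * (l : ℝ) ^ 2} ≤ 96 * η / θ := by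
  have := h₁.prob
  have := h₂.prob
  have hl2 : ∀ d c, Local (sq d.1 c l) fun σ => 2 * FQp s σ d c l ^ 2 := fun d c σ σ' a a' e =>
    congrArg (fun x => 2 * x ^ 2) (local_FQp s d c l σ σ' a a' e)
  let f : V → Dir → V → Dimer × Dimer → ℝ := fun c d q p =>
    2 * FQp s p.1.1 d (pj m d (q + c)) l ^ 2 + 2 * FQp s p.2.1 d (pj m d (q + c)) l ^ 2
  have k1 : ∀ c d q, Integrable (f c d q) (ν₁.prod ν₂) := fun c d q => (NLP2_add (hl2 d _)).1
  have k2 : ∀ c d q, ∫ p, f c d q p ∂(ν₁.prod ν₂) ≤ 4 * η * (l : ℝ) ^ 2 * (l : ℝ) ^ 2 := by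
    intro c d q
    refine (NLP2_add (hl2 d _)).2.trans_le ?_
    rw [integral_const_mul, integral_const_mul]
    linarith only [f₁, f₂, f₁ d (pj m d (q + c)), f₂ d (pj m d (q + c))]
  have k3 := fun c => NLP2_lsum (ν₁.prod ν₂) lo hi l (f c) (k1 c)
  have k4 : Integrable (fun p => ∑ c ∈ S, lsum lo hi l fun d q => f c d q p) (ν₁.prod ν₂) :=
    integrable_finsetSum _ fun c _ => (k3 c).1
  have k5 : ∫ p, ∑ c ∈ S, lsum lo hi l (fun d q => f c d q p) ∂(ν₁.prod ν₂) ≤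
      S.card * (24 * (4 * η * (l : ℝ) ^ 2) * (b : ℝ) ^ 3) := by
    clear * - ν₁ ν₂ S lo hi l f η b k3 k2 hη hl hhi
    rw [integral_finsetSum _ fun c _ => (k3 c).1, ← nsmul_eq_mul]
    refine sum_le_card_nsmul _ _ _ fun c _ => ?_
    rw [(k3 c).2]
    refine ((lsum_mono fun t _ d q _ => k2 c d _).trans
      (lsum_const lo hi l (by positivity))).trans ?_
    have : (hi : ℝ) ≤ b := by exact_mod_cast hhi
    gcongr
  have k6 : ∀ p : Dimer × Dimer, ∑ c ∈ S, lsum lo hi l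
      (fun d q => SQ s (un2 p.1.1 p.2.1) d (pj m d (q + c)) l ^ 2) ≤
      ∑ c ∈ S, lsum lo hi l fun d q => f c d q p := fun p =>
    sum_le_sum fun c _ => lsum_mono fun t _ d q _ => by
      simp only [SQ_un2, f]
      linarith only [sq_nonneg (FQp s p.1.1 d (pj m d (corner d t l q + c)) l -
        FQp s p.2.1 d (pj m d (corner d t l q + c)) l), sq_nonneg (FQp s (↑p.1) d (pj m d (corner d t l q + c)) l - FQp s (↑p.2) d (pj m d (corner d t l q + c)) l)]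
  have k8 : ∀ p, 0 ≤ ∑ c ∈ S, lsum lo hi l fun d q => f c d q p := fun p =>
    sum_nonneg fun c _ => sum_nonneg fun t _ => sum_nonneg fun d _ => sum_nonneg fun q _ => by
      clear * - f c p d t l q s m
      simp only [f]
      positivity
  have k7 := mul_meas_ge_le_integral_of_nonneg
    (f := fun p => ∑ c ∈ S, lsum lo hi l fun d q => f c d q p) (Eventually.of_forall k8) k4
    (θ * S.card * (b : ℝ) ^ 3 * (l : ℝ) ^ 2)
  refine (measureReal_mono (s₂ := {p | θ * S.card * (b : ℝ) ^ 3 * (l : ℝ) ^ 2 ≤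
    ∑ c ∈ S, lsum lo hi l fun d q => f c d q p})
    (fun p hp => (not_le.1 hp).le.trans (k6 p))).trans ?_
  have p1 : (0 : ℝ) < S.card := by exact_mod_cast hS.card_pos
  have p2 : (0 : ℝ) < b := by exact_mod_cast hb
  have p3 : (0 : ℝ) < l := by exact_mod_cast hl
  rw [le_div_iff₀ hθ]
  refine le_of_mul_le_mul_left ?_ (by clear * - S b l hS hb hl; positivity : 0 < (S.card : ℝ) * (b : ℝ) ^ 3 * (l : ℝ) ^ 2)
  linarith only [k5, k7, k7.trans k5]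

theorem prob_HH {ν₁ ν₂ : Measure Dimer} (h₁ : IM ν₁) (h₂ : IM ν₂) (s : Fin 3 → ℝ)
    {m k J R L : ℕ} (hk : 8 ≤ k) (b l : ℕ → ℕ) {θ η : ℝ} (hθ : 0 < θ) (hη : 0 ≤ η)
    (hb : ∀ j, 1 ≤ b j ∧ 1 ≤ l j)
    (f₁ : ∀ j d c, ∫ τ, FQp s τ.1 d c (l j) ^ 2 ∂ν₁ ≤ η * (l j : ℝ) ^ 4)
    (f₂ : ∀ j d c, ∫ τ, FQp s τ.1 d c (l j) ^ 2 ∂ν₂ ≤ η * (l j : ℝ) ^ 4) :
    (ν₁.prod ν₂).real {p | ¬ HH s m k J b l R θ L (un2 p.1.1 p.2.1)} ≤ J * (96 * η / θ) := by
  have := h₁.prob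
  have := h₂.prob
  have e : {p : Dimer × Dimer | ¬ HH s m k J b l R θ L (un2 p.1.1 p.2.1)} =
      ⋃ j ∈ range J, {p | ¬ ∑ c ∈ grid (b j) (nc (b j) L R),
        lsum (rin (b j) k) (rin (b j) k + b j / k) (l j)
          (fun d q => SQ s (un2 p.1.1 p.2.1) d (pj m d (q + c)) (l j) ^ 2) ≤
        θ * (grid (b j) (nc (b j) L R)).card * (b j : ℝ) ^ 3 * (l j : ℝ) ^ 2} := by
    ext p
    simp only [HH, Set.mem_ofPred_eq, Set.mem_iUnion, mem_range, not_forall]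
  rw [e]
  refine (measureReal_biUnion_finset_le _ _).trans ?_
  refine (sum_le_card_nsmul _ _ (96 * η / θ) fun j _ => ?_).trans_eq (by simp)
  refine NLP2_one h₁ h₂ s m _ _ ?_ _ (card_pos.1 (by rw [card_grid]; positivity)) hθ hη (hb j).1
    (hb j).2 (f₁ j) (f₂ j)
  have k1 := Nat.div_mul_le_self (b j) k
  have k2 := Nat.mul_le_mul_left (b j / k) hk
  unfold rin
  omega

theorem NLP2_pt {Z Y z₁ z₂ g n : ℝ} (hZ : 0 ≤ Z) (hY : Z ≤ Y) (hY1 : 1 ≤ Y) (h₁ : 1 ≤ z₁)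
    (h₂ : 1 ≤ z₂) (l₁ : Real.log z₁ ≤ 2 * n) (l₂ : Real.log z₂ ≤ 2 * n) (hn : 0 ≤ n) (g0 : 0 ≤ g)
    (hg : 1 - g ≤ Z / (z₁ * z₂)) :
    Real.log (1 + Z / (z₁ * z₂)) ≤ 2 + Real.log Y - (Real.log z₁ + Real.log z₂) + 8 * n * g := by
  have p : 1 ≤ z₁ * z₂ := one_le_mul_of_one_le_of_one_le h₁ h₂
  have q : 0 ≤ Z / (z₁ * z₂) := by positivity
  have l3 : Real.log 3 ≤ 2 := by
    have := Real.log_le_sub_one_of_pos (by norm_num : (0 : ℝ) < 3)
    linarith only [this]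
  rcases le_total g (1 / 2) with c | c
  · have a : Z / (z₁ * z₂) ≤ Y / (z₁ * z₂) := by gcongr
    have := Real.log_le_log (by linarith only [q]) (by linarith only [hg, c, a] : 1 + Z / (z₁ * z₂) ≤ 3 * (Y / (z₁ * z₂)))
    rw [Real.log_mul (by norm_num) (by positivity), Real.log_div (by positivity) (by positivity),
      Real.log_mul (by positivity) (by positivity)] at this
    linarith only [l3, this, hn, g0, mul_nonneg hn g0]
  · have a : Z / (z₁ * z₂) ≤ Y := (div_le_self hZ p).trans hY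
    have := Real.log_le_log (by linarith only [q]) (by linarith only [hY1, a] : 1 + Z / (z₁ * z₂) ≤ 3 * Y)
    rw [Real.log_mul (by norm_num) (by positivity)] at this
    linarith only [l₁, l₂, l3, this, c, hn, mul_le_mul_of_nonneg_left c hn]

theorem NLP2_ind {α : Type} (H : α → Prop) (a : α) :
    0 ≤ ind H a ∧ ind H a + ind (fun a => ¬ H a) a = 1 := by
  by_cases h : H a <;> simp [ind, h]

/-- From an upper bound `Y` for the free pairs to the logarithmic form. -/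
theorem lp2_log {ν₁ ν₂ : Measure Dimer} (h₁ : IM ν₁) (h₂ : IM ν₂) {L : ℕ} (hL : 1 ≤ L)
    (H : (V → Sym2 V) → Prop) (hH : LocU (box (L - 1)) H) {Y : ℝ} (hY1 : 1 ≤ Y)
    (hY : Z2 L (ind H) ≤ Y) :
    ∫ p, Real.log (1 + Z2 L (ind H) / ((zz (box L) p.1.1 : ℝ) * zz (box L) p.2.1)) ∂(ν₁.prod ν₂) ≤
      2 + Real.log Y - ∫ τ, Real.log (zz (box L) τ.1) ∂ν₁ - ∫ τ, Real.log (zz (box L) τ.1) ∂ν₂ +
        8 * (box L).card * (ν₁.prod ν₂).real {p | ¬ H (un2 p.1.1 p.2.1)} := by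
  have := h₁.prob
  have := h₂.prob
  have hg : Local2 (box (L - 1)) fun ρ₁ ρ₂ => ind (fun U => ¬ H U) (un2 ρ₁ ρ₂) :=
    fun σ₁ σ₂ σ₁' σ₂' _ _ _ _ e₁ e₂ => congrArg (ind fun a => ¬ a)
      (hH (un2 σ₁ σ₂) (un2 σ₁' σ₂') fun v hv => by simp only [un2, e₁ v hv, e₂ v hv])
  have hH' : LocU (box (L - 1)) (ind H) := fun U U' e => congrArg (ind fun a => a) (hH U U' e)
  have hZ : 0 ≤ Z2 L (ind H) := sum_nonneg fun _ _ => sum_nonneg fun _ _ => (NLP2_ind H _).1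
  have i1 := NLP2_add (ν₁ := ν₁) (ν₂ := ν₂) (local_log_zz (box L))
  have i2 := Meas_int2 (local2_gam2 (Λ := box L) hg) (ν₁.prod ν₂)
  have i3 : Local2 (box L) fun σ₁ σ₂ =>
      Real.log (1 + Z2 L (ind H) / ((zz (box L) σ₁ : ℝ) * zz (box L) σ₂)) :=
    fun σ₁ σ₂ σ₁' σ₂' a b a' b' e₁ e₂ => by
      simp only [zz_eq, local_Zm (box L) ∅ σ₁ σ₁' a a' e₁, local_Zm (box L) ∅ σ₂ σ₂' b b' e₂]
  have e1 : ∫ p, ind (fun U => ¬ H U) (un2 p.1.1 p.2.1) ∂(ν₁.prod ν₂) =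
      (ν₁.prod ν₂).real {p | ¬ H (un2 p.1.1 p.2.1)} := by
    have m : MeasurableSet {p : Dimer × Dimer | ¬ H (un2 p.1.1 p.2.1)} := by
      have := hg.measurable (measurableSet_singleton 1)
      refine Eq.mp (congrArg _ (Set.ext fun p => ?_)) this
      simp [ind]
    rw [← integral_indicator_one m]
    refine integral_congr_ae (Eventually.of_forall fun p => ?_)
    by_cases c : H (un2 p.1.1 p.2.1) <;> simp [ind, c]
  have i5 : Integrable (fun p : Dimer × Dimer => 2 + Real.log Y -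
      (Real.log (zz (box L) p.1.1) + Real.log (zz (box L) p.2.1))) (ν₁.prod ν₂) :=
    (integrable_const _).sub i1.1
  have i4 := i5.add (i2.const_mul (8 * ((box L).card : ℝ)))
  refine (integral_mono (Meas_int2 i3 _) i4 fun p => ?_).trans_eq ?_
  · have z₁ : (1 : ℝ) ≤ zz (box L) p.1.1 := by exact_mod_cast zz_dimer_pos _ p.1
    have z₂ : (1 : ℝ) ≤ zz (box L) p.2.1 := by exact_mod_cast zz_dimer_pos _ p.2
    refine NLP2_pt hZ hY hY1 z₁ z₂ (log_zz_le _ _) (log_zz_le _ _) (Nat.cast_nonneg _)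
      (div_nonneg (sum_nonneg fun _ _ => sum_nonneg fun _ _ => (NLP2_ind _ _).1)
        (by positivity)) ?_
    have k := perf_le_Z2 L hL (isExt_dimer p.1) (isExt_dimer p.2) (ind H)
      (fun U => (NLP2_ind H U).1) hH'
    have k' : ∑ ρ₁ ∈ perf (box L) p.1.1, ∑ ρ₂ ∈ perf (box L) p.2.1, ind H (un2 ρ₁ ρ₂) +
        ∑ ρ₁ ∈ perf (box L) p.1.1, ∑ ρ₂ ∈ perf (box L) p.2.1, ind (fun U => ¬ H U) (un2 ρ₁ ρ₂) =
        (zz (box L) p.1.1 : ℝ) * zz (box L) p.2.1 := by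
      simp only [← sum_add_distrib, (NLP2_ind H _).2, sum_const, nsmul_eq_mul, mul_one, zz]
    rw [gam2, sub_le_iff_le_add, ← add_div, one_le_div (by positivity)]
    linarith only [k, k']
  · simp only [Pi.add_apply]
    rw [integral_add i5 (i2.const_mul _),
      integral_sub (integrable_const _) i1.1, i1.2, integral_const_mul, h₁.dlr2 h₂ _ hg, e1]
    simp only [integral_const, probReal_univ, smul_eq_mul, one_mul]
    ring

theorem NLP2_card {b L R : ℕ} (h : R + b ≤ L) (hL : 1 ≤ L) :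
    ((grid b (nc b L R)).card : ℝ) * (2 * (b : ℝ) + 1) ^ 3 ≤ 27 * (L : ℝ) ^ 3 := by
  have k := Nat.div_mul_le_self (L - R - b) (2 * b + 2)
  have k2 : (2 * nc b L R + 1) * (2 * b + 1) ≤ 3 * L := by
    unfold nc
    generalize (L - R - b) / (2 * b + 2) = n at k
    have : (2 * n + 1) * (2 * b + 1) + 2 * n = 2 * (n * (2 * b + 2)) + 2 * b + 1 := by ring
    omega
  have k3 := Nat.pow_le_pow_left k2 3
  rw [mul_pow, mul_pow, ← card_grid b] at k3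
  exact_mod_cast k3

theorem NLP2_cell {ν : Measure Dimer} (h : IM ν) {s : Fin 3 → ℝ} {k C : ℕ} {c η : ℝ} (hc : 0 < c)
    (hη : 0 ≤ η) (hk : 1 ≤ k) (hp : PatchAt s k c C) {b l L R : ℕ} (hl : 1 ≤ l) (hb1 : 1 ≤ b)
    (hb : C * l ^ 3 ≤ b ^ 2) (hL : R + b ≤ L)
    (f : ∀ d c, ∫ τ, FQp s τ.1 d c l ^ 2 ∂ν ≤ η * (l : ℝ) ^ 4) :
    (grid b (nc b L R)).card * Real.log (max (Nn s b k l c : ℝ) 1) ≤
      ∫ τ, Real.log (zz (box L) τ.1) ∂ν + (1296 / c * η + 11664 / k) * (L : ℝ) ^ 3 := by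
  have := h.prob
  have k1 := lp_cell h hc hp hl hb1 hb (η := 24 / c * η)
    ((int_Psp ν hη f _ _).trans_eq (by field_simp))
  have k2 := lp_box h (b := b) (J := nc b L R) (L := L) fun c hc =>
    (grid_nc hL hc).trans (box_mono (Nat.sub_le _ _))
  have k3 := NLP2_card hL (by omega)
  have k4 := card_shell hb1 hk
  have p : (0 : ℝ) ≤ b := Nat.cast_nonneg b
  have k5 : 216 * (b : ℝ) ^ 3 / k ≤ 216 / k * (2 * (b : ℝ) + 1) ^ 3 := by
    rw [mul_div_right_comm]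
    gcongr
    linarith only []
  have k6 := mul_le_mul_of_nonneg_left (k1.trans (add_le_add_right
    (mul_le_mul_of_nonneg_left (k4.trans k5) zero_le_two) _))
    (Nat.cast_nonneg (α := ℝ) (grid b (nc b L R)).card)
  have k7 := mul_le_mul_of_nonneg_left k3 (by positivity : 0 ≤ 48 / c * η + 432 / k)
  have e1 : 1296 / c * η + 11664 / k = 27 * (48 / c * η + 432 / k) := by ring
  have e2 : (432 : ℝ) / k = 2 * (216 / k) := by ring
  have e3 : 48 / c = 2 * (24 / c) := by ring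
  rw [e1]
  rw [e2, e3] at k7 ⊢
  linarith only [k2, k6, k7]

theorem lp2 {ν₁ ν₂ : Measure Dimer} (h₁ : IM ν₁) (h₂ : IM ν₂) {s : Fin 3 → ℝ} (hs : n1 s < 1)
    (f₁ : FluxAt ν₁ s) (f₂ : FluxAt ν₂ s) : LP2 ν₁ ν₂ := by
  intro m ε hε
  have := h₁.prob
  have := h₂.prob
  obtain ⟨k, hk⟩ := exists_nat_ge (max 8 (116640 / ε))
  have hk8 : 8 ≤ k := by exact_mod_cast (le_max_left _ _).trans hk
  have hk0 : (0 : ℝ) < k := by exact_mod_cast (by omega : 0 < k)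
  have hkε : 11664 / (k : ℝ) ≤ ε / 10 := by
    have := (div_le_iff₀ hε).1 ((le_max_right _ _).trans hk)
    rw [div_le_iff₀ hk0]
    linarith only [this]
  obtain ⟨c, hc, C, hp⟩ := patchP (sub_pos.2 hs) k hk8
  have hp := hp s (by linarith only [])
  obtain ⟨θ, hθ, I, hd⟩ := lp2_det (by positivity : 0 < ε / 5) m hk8 hc C
  obtain ⟨η, hη, η1, η2⟩ : ∃ η : ℝ, 0 < η ∧ 1296 / c * η ≤ ε / 10 ∧
      216 * (I * (96 * η / θ)) ≤ ε / 5 := by
    clear * - c hc I θ hθ ε hε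
    have a1 : 0 < 1296 / c := by positivity
    have a2 : 0 ≤ 216 * (I * (96 / θ)) := by positivity
    have a3 : 0 < ε / 10 / (1296 / c + 216 * (I * (96 / θ))) := by positivity
    have a4 := mul_div_cancel₀ (ε / 10) (by positivity : 1296 / c + 216 * (I * (96 / θ)) ≠ 0)
    refine ⟨_, a3, ?_, ?_⟩
    · linarith only [a4, a2, a3, mul_nonneg a2 a3.le]
    · rw [mul_div_right_comm]
      linarith only [hε, a4, a1, a3, mul_nonneg a1.le a3.le]
  obtain ⟨l₁, f₁⟩ := f₁ η hη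
  obtain ⟨l₂, f₂⟩ := f₂ η hη
  obtain ⟨b, l, R, hb, hR, L₀, hd⟩ := hd (l₁ + l₂ + 1)
  obtain ⟨L₁, hL₁⟩ := exists_nat_ge ((2 + I) / (ε / 5))
  refine ⟨L₀ + L₁ + R + ∑ j ∈ range I, b j, fun J hJ => ?_⟩
  have hJL : J + 1 ≤ gL m J := by
    unfold gL
    linarith only [Nat.zero_le (m * J)]
  generalize gL m J = L at hJL
  have hL : ∀ j < I, R + b j ≤ L := fun j hj => by
    have := single_le_sum (f := b) (fun _ _ => Nat.zero_le _) (mem_range.2 hj)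
    omega
  have g₁ := fun j => f₁ (l j) (by have := (hb j).1; omega)
  have g₂ := fun j => f₂ (l j) (by have := (hb j).1; omega)
  have hb1 : ∀ j, 1 ≤ b j := fun j => by have := (hb j).2.2.1; omega
  have hH := locU_HH s b l θ hk8 hR hL
  have hP := prob_HH h₁ h₂ s (m := m) (J := I) (R := R) (L := L) hk8 b l hθ hη.le
    (fun j => ⟨hb1 j, (hb j).2.1⟩) g₁ g₂
  have hP0 : 0 ≤ (ν₁.prod ν₂).real {p | ¬ HH s m k I b l R θ L (un2 p.1.1 p.2.1)} :=
    measureReal_nonneg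
  refine ⟨_, hH, by linarith only [hε, η2, hP], ?_⟩
  have L1 : (1 : ℝ) ≤ L := by exact_mod_cast (by omega : 1 ≤ L)
  have L3 : (L : ℝ) ≤ (L : ℝ) ^ 3 := le_self_pow₀ L1 (by norm_num)
  have a₁ : 0 ≤ ∫ τ, Real.log (zz (box L) τ.1) ∂ν₁ :=
    integral_nonneg fun τ => Real.log_natCast_nonneg _
  have a₂ : 0 ≤ ∫ τ, Real.log (zz (box L) τ.1) ∂ν₂ :=
    integral_nonneg fun τ => Real.log_natCast_nonneg _
  have hY : Z2 L (ind (HH s m k I b l R θ L)) ≤ Real.exp (ε / 5 * (L : ℝ) ^ 3 + (I +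
      (∫ τ, Real.log (zz (box L) τ.1) ∂ν₁ + ∫ τ, Real.log (zz (box L) τ.1) ∂ν₂ +
        2 * (ε / 5) * (L : ℝ) ^ 3))) := by
    refine (hd L (by omega) s hs.le).trans ?_
    rw [Real.exp_add, Real.exp_add]
    refine mul_le_mul_of_nonneg_left ?_ (Real.exp_pos _).le
    refine (sum_le_card_nsmul _ _ _ fun j hj => ?_).trans (by
      rw [card_range, nsmul_eq_mul]
      exact mul_le_mul_of_nonneg_right (by linarith only [Real.add_one_le_exp (I : ℝ)])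
        (Real.exp_pos _).le)
    have c₁ := NLP2_cell h₁ hc hη.le (by omega) hp (hb j).2.1 (hb1 j) (hb j).2.2.2
      (hL j (mem_range.1 hj)) (g₁ j)
    have c₂ := NLP2_cell h₂ hc hη.le (by omega) hp (hb j).2.1 (hb1 j) (hb j).2.2.2
      (hL j (mem_range.1 hj)) (g₂ j)
    have c₃ := mul_le_mul_of_nonneg_right (add_le_add η1 hkε) (by positivity : 0 ≤ (L : ℝ) ^ 3)
    rw [← Real.log_le_iff_le_exp (by positivity), Real.log_pow]
    push_cast
    clear * - b j L R s k l c ν₁ ν₂ ε η c₁ c₂ c₃; linarith only [c₁, c₂, c₃]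
  refine (lp2_log h₁ h₂ (by omega) _ (fun U U' e => hH U U' fun v hv => e v hv.1)
    (Real.one_le_exp (by clear * - ε L I ν₁ ν₂ hε L1 hY; positivity)) hY).trans ?_
  rw [Real.log_exp]
  have c₁ : ((box L).card : ℝ) ≤ 27 * (L : ℝ) ^ 3 := by
    clear * - L L1
    rw [card_box]
    push_cast
    exact (pow_le_pow_left₀ (by positivity) (by linarith only [L1] : 2 * (L : ℝ) + 1 ≤ 3 * L) 3).trans_eq
      (by ring)
  have c₂ := mul_le_mul c₁ hP hP0 (by positivity)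
  have c₃ := mul_le_mul_of_nonneg_right η2 (by positivity : 0 ≤ (L : ℝ) ^ 3)
  have c₄ : (L₁ : ℝ) ≤ L := by exact_mod_cast (by omega : L₁ ≤ L)
  have c₅ := (div_le_iff₀ (by positivity)).1 (hL₁.trans (c₄.trans L3))
  clear * - ε L I ν₁ ν₂ s m k b l R θ η c₂ c₃ c₅; linarith only [c₂, c₃, c₅]

end Pool.Agent.Work.MP_5cb0a4_pr.Z
end
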