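import Pool.Agent.Work.MP_5cb0a4_pr.Z.Ergo
import Pool.Agent.Work.MP_5cb0a4_pr.Z.Hall
import Pool.Agent.Work.MP_5cb0a4_pr.N.Gauge

-- merged part: Pool.Agent.Work.MP_5cb0a4_pr.N.HallP
section
open MeasureTheory Finset Filter Topology
open scoped Classical

namespace Pool.Agent.Work.MP_5cb0a4_pr.Z

theorem NHallP_anti (S : Finset V) (G : V → Dir → ℝ)
    (h : ∀ x d, G (x + dv d) (d.1, !d.2) = -G x d) :
    ∑ x ∈ S, ∑ d : Dir, (if x + dv d ∈ S then G x d else 0) = 0 := by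
  rw [← sum_product' (f := fun x d => if x + dv d ∈ S then G x d else 0), ← sum_filter]
  refine sum_involution (fun q _ => (q.1 + dv q.2, (q.2.1, !q.2.2))) (fun q _ => ?_)
    (fun q _ _ e => ?_) (fun q hq => ?_) fun q _ => ?_
  · simp only [h, add_neg_cancel]
  · exact dv_ne_zero q.2 (add_eq_left.1 (congrArg Prod.fst e))
  · simp only [mem_filter, mem_product, mem_univ, and_true, Hall_back] at hq ⊢
    exact hq.symm
  · simp only [Hall_back, Bool.not_not]

theorem NHallP_Out (s : Fin 3 → ℝ) (σ : V → V) (S : Finset V) {t : ℕ} (ht : 1 ≤ t) :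
    Outp s σ S t = ∑ x ∈ S, ∑ d : Dir,
      if x ∈ box t ∧ x + dv d ∉ box t then flp s σ x d else 0 := by
  rw [Outp, inter_comm, ← sum_ite_mem]
  refine sum_congr rfl fun x _ => ?_
  by_cases h1 : x ∈ box t
  · by_cases h2 : x ∈ box (t - 1)
    · have h3 : ∀ d, x + dv d ∈ box t := fun d => by
        have := add_dv_mem_box h2 d
        rwa [Nat.sub_add_cancel ht] at this
      simp [mem_lev, h2, h3]
    · simp [mem_lev, h1, h2]
  · simp [mem_lev, h1]

/-- The interpolating flow on the shell. -/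
noncomputable def NHallP_H (s : Fin 3 → ℝ) (σ τ : V → V) (t t' : ℕ) (x : V) (d : Dir) : ℝ :=
  sg x * pe s x d + (if x ∈ box t ∧ x + dv d ∈ box t then 0 else flp s σ x d) +
    if x ∈ box t' ∧ x + dv d ∈ box t' then flp s τ x d else 0

theorem NHallP_H_anti (s : Fin 3 → ℝ) {σ τ : V → V} (hσ : IsExt σ) (hτ : IsExt τ) (t t' : ℕ)
    (x : V) (d : Dir) :
    NHallP_H s σ τ t t' (x + dv d) (d.1, !d.2) = -NHallP_H s σ τ t t' x d := by
  simp only [NHallP_H, Hall_sg, Hall_back, pe_rev, flp_anti hσ, flp_anti hτ,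
    and_comm (a := x + dv d ∈ _)]
  split_ifs <;> ring

theorem NHallP_pt (s : Fin 3 → ℝ) {a b t t' : ℕ} (h1 : a < t') (h2 : t' ≤ t) (h3 : t ≤ b)
    (h4 : a + 2 ≤ b) {σ τ : V → V} (hσ : IsExt σ) (hτ : IsExt τ) {x : V} (hb : x ∈ box b)
    (ha : x ∉ box a) (h5 : σ x ≠ x) (h6 : x ∈ box t' → τ x ≠ x) :
    (if x ∈ Hall_R a b σ τ then sg x else 0) +
      (∑ d : Dir, if x ∈ box t ∧ x + dv d ∉ box t then flp s σ x d else 0) -
      (∑ d : Dir, if x ∈ box t' ∧ x + dv d ∉ box t' then flp s τ x d else 0) =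
      ∑ d : Dir, if x + dv d ∈ box b \ box a then NHallP_H s σ τ t t' x d else 0 := by
  have n1 : Nbr x (σ x) := (hσ x).1.resolve_left h5
  have d1 := flp_div hσ s x
  rw [if_neg h5] at d1
  have d2 : (if x ∈ box t' then 1 else 0) * ∑ d : Dir, flp s τ x d = 0 := by
    split_ifs with p
    · rw [flp_div hτ, if_neg (h6 p), mul_zero]
    · exact zero_mul _
  have d3 : (∑ d : Dir, if τ x = x + dv d then (if τ x ∈ box a then sg x else 0) else 0) =
      if τ x ∈ box a then sg x else 0 := by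
    rcases (hτ x).1 with p | p
    · simp [p, ha]
    · exact Hall_one p _
  have e1 : (if x ∈ Hall_R a b σ τ then sg x else 0) =
      sg x - (if σ x ∈ box b then 0 else sg x) - if τ x ∈ box a then sg x else 0 := by
    have : τ x ∈ box a → σ x ∈ box b := fun h =>
      box_mono h4 (Hall_nbr n1 (Hall_nbr (nbr_symm ((hτ x).1.resolve_left fun e =>
        ha (e ▸ h))) h))
    simp only [Hall_R, mem_filter, Finset.mem_sdiff, hb, ha, not_false_eq_true, true_and]
    by_cases p : σ x ∈ box b <;> by_cases q : τ x ∈ box a <;> simp_all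
  have e2 : ∀ d : Dir, (if x + dv d ∈ box b \ box a then NHallP_H s σ τ t t' x d else 0) =
      sg x * pe s x d - (if σ x = x + dv d then (if σ x ∈ box b then 0 else sg x) else 0) -
        (if τ x = x + dv d then (if τ x ∈ box a then sg x else 0) else 0) +
        (if x ∈ box t then 0 else 1) * flp s σ x d +
        (if x ∈ box t' then 1 else 0) * flp s τ x d +
        (if x ∈ box t ∧ x + dv d ∉ box t then flp s σ x d else 0) -
        if x ∈ box t' ∧ x + dv d ∉ box t' then flp s τ x d else 0 := by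
    intro d
    have n3 : Nbr (x + dv d) x := nbr_symm (nbr_iff.2 ⟨d, rfl⟩)
    unfold NHallP_H flp
    generalize x + dv d = y at n3
    generalize pe s x d = w
    by_cases ya : y ∈ box a
    · have x1 : x ∈ box t' := box_mono h1 (Hall_nbr n3 ya)
      have x2 : x ∈ box t := box_mono h2 x1
      have y1 : y ∈ box t' := box_mono h1.le ya
      have y2 : y ∈ box t := box_mono h2 y1
      have y3 : y ∈ box b := box_mono h3 y2
      by_cases p : σ x = y <;> by_cases q : τ x = y <;> simp [*] <;> ring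
    by_cases yb : y ∈ box b
    · have e3 : (if σ x = y then (if σ x ∈ box b then 0 else sg x) else 0) = 0 := by
        split_ifs with p q
        exacts [rfl, absurd (p ▸ yb) q, rfl]
      have e4 : (if τ x = y then (if τ x ∈ box a then sg x else 0) else 0) = 0 := by
        split_ifs with p q
        exacts [absurd (p ▸ q) ya, rfl, rfl]
      rw [e3, e4, if_pos (Finset.mem_sdiff.2 ⟨yb, ya⟩)]
      by_cases x1 : x ∈ box t <;> by_cases x2 : x ∈ box t' <;> by_cases y1 : y ∈ box t <;>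
        by_cases y2 : y ∈ box t' <;> simp only [x1, x2, y1, y2, and_self, and_true, and_false,
          not_true_eq_false, not_false_eq_true, if_true, if_false] <;> ring
    · have y2 : y ∉ box t := fun h => yb (box_mono h3 h)
      have y1 : y ∉ box t' := fun h => y2 (box_mono h2 h)
      by_cases x1 : x ∈ box t <;> by_cases x2 : x ∈ box t' <;> by_cases p : σ x = y <;>
        by_cases q : τ x = y <;> simp [*] <;> ring
  simp only [e2, sum_add_distrib, sum_sub_distrib, ← mul_sum, d1, d2, d3, Hall_one n1, e1, sum_pe]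
  ring

theorem NHallP_id (s : Fin 3 → ℝ) {a b t t' : ℕ} (h1 : a < t') (h2 : t' ≤ t) (h3 : t ≤ b)
    (h4 : a + 2 ≤ b) {σ τ : V → V} (hσ : IsExt σ) (hτ : IsExt τ)
    (h5 : ∀ x ∈ box b, x ∉ box a → σ x ≠ x) (h6 : ∀ x ∈ box t', τ x ≠ x) {S : Finset V}
    (hS : S ⊆ box b \ box a) :
    ∑ x ∈ S ∩ Hall_R a b σ τ, sg x + Outp s σ S t - Outp s τ S t' =
      ∑ x ∈ S, ∑ d : Dir, if x + dv d ∈ box b \ box a ∧ x + dv d ∉ S then
        NHallP_H s σ τ t t' x d else 0 := by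
  refine Eq.trans ?_ (add_eq_left.2 (NHallP_anti S _ (NHallP_H_anti s hσ hτ t t')))
  rw [NHallP_Out s σ S (by omega), NHallP_Out s τ S (by omega), ← sum_ite_mem, ← sum_add_distrib,
    ← sum_sub_distrib, ← sum_add_distrib]
  refine sum_congr rfl fun x hx => ?_
  have hx' := Finset.mem_sdiff.1 (hS hx)
  rw [NHallP_pt s h1 h2 h3 h4 hσ hτ hx'.1 hx'.2 (h5 x hx'.1 hx'.2) (h6 x), ← sum_add_distrib]
  refine sum_congr rfl fun d _ => ?_
  by_cases p : x + dv d ∈ S
  · simp [p, hS p]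
  · simp [p]

theorem NHallP_bound {s : Fin 3 → ℝ} {κ : ℝ} (hκ : 0 < κ) (hs : n1 s ≤ 1 - κ) {a b t t' : ℕ}
    (h1 : a < t') (h2 : t' ≤ t) (h3 : t ≤ b) (σ τ : V → V)
    {S : Finset V} (hodd : ∀ x ∈ S, ∀ d, x + dv d ∈ box b \ box a → x + dv d ∉ S → ¬ IsEven x)
    {U : Finset ℕ} (hU : ∀ u ∈ U, t' < u ∧ u ≤ t) :
    (∑ x ∈ S, ∑ d : Dir, if x + dv d ∈ box b \ box a ∧ x + dv d ∉ S then
        NHallP_H s σ τ t t' x d else 0) ≤ -(κ / 6) * ∑ u ∈ U, (beta S u : ℝ) := by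
  have hpe : ∀ x d, κ / 6 ≤ pe s x d := fun x d => by
    unfold pe; split_ifs <;> exact pS_ge hs _
  simp only [Hall_beta]
  rw [sum_comm (s := U), mul_sum]
  refine sum_le_sum fun x hx => ?_
  rw [sum_comm (s := U), mul_sum]
  refine sum_le_sum fun d _ => ?_
  have hp := hpe x d
  by_cases h : ∃ u ∈ U, x ∈ lev u ∧ x + dv d ∈ lev u ∧ x + dv d ∉ S
  · obtain ⟨u, hu, p1, p2, p3⟩ := h
    obtain ⟨q1, q2⟩ := hU u hu
    have r1 := mem_lev.1 p1
    have r2 := mem_lev.1 p2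
    have r3 : x + dv d ∈ box b \ box a :=
      Finset.mem_sdiff.2 ⟨box_mono (by omega) r2.1, fun h => r2.2 (box_mono (by omega) h)⟩
    rw [sum_eq_single u (fun u' _ hne => if_neg fun h => hne (Hall_lev h.1 p1))
      (fun h => absurd hu h), if_pos ⟨r3, p3⟩, if_pos ⟨p1, p2, p3⟩, NHallP_H,
      if_pos ⟨box_mono q2 r1.1, box_mono q2 r2.1⟩,
      if_neg fun h => r1.2 (box_mono (by omega) h.1), sg, if_neg (hodd x hx d r3 p3)]
    linarith only [hp]
  · rw [sum_eq_zero fun u hu => if_neg fun h' => h ⟨u, hu, h'⟩, mul_zero]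
    split_ifs with p
    · have q := hodd x hx d p.1 p.2
      have q0 : ∀ ρ : V → V, flp s ρ x d ≤ pe s x d := fun ρ => by
        rw [flp, sg, if_neg q]
        split_ifs <;> linarith only []
      have q1 := q0 σ
      have q2 := q0 τ
      rw [NHallP_H, sg, if_neg q]
      split_ifs with r1 r2 r2
      · linarith only [q2]
      · linarith only [hκ, hp]
      · exact absurd ⟨box_mono h2 r2.1, box_mono h2 r2.2⟩ r1
      · linarith only [q1]
    · exact le_rfl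

theorem NHallP_glue {a b : ℕ} (h4 : a + 2 ≤ b) {σ τ : V → V} (hσ : IsExt σ) (hτ : IsExt τ)
    (hτm : ∀ x ∈ box a, τ x ≠ x) {m : V → V}
    (hm : ∀ x ∈ Hall_R a b σ τ, m x ∈ Hall_R a b σ τ ∧ Nbr x (m x) ∧ m (m x) = x) :
    ∃ ρ ∈ perf (box b) σ, ∀ x ∈ box a, ρ x = τ x := by
  let ρ : V → V := fun x => if x ∈ box a ∨ τ x ∈ box a then τ x
    else if x ∉ box b ∨ σ x ∉ box b then σ x else m x
  have c0 : ∀ x, x ∈ box a ∨ τ x ∈ box a → Nbr x (τ x) := fun x hx =>
    (hτ x).1.resolve_left fun e => hτm x (hx.elim id fun h => e ▸ h) e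
  have c1 : ∀ x, x ∈ box a ∨ τ x ∈ box a → x ∈ box b ∧ σ x ∈ box b := fun x hx => by
    have h1 : x ∈ box (a + 1) :=
      hx.elim (fun h => box_mono a.le_succ h) fun h => Hall_nbr (nbr_symm (c0 x hx)) h
    have h2 : x ∈ box b := box_mono (by omega) h1
    exact ⟨h2, (hσ x).1.elim (fun h => h.symm ▸ h2) fun h => box_mono h4 (Hall_nbr h h1)⟩
  have r1 : ∀ x, x ∈ box a ∨ τ x ∈ box a → ρ x = τ x := fun x hx => if_pos hx
  have r2 : ∀ x, x ∉ box b ∨ σ x ∉ box b → ρ x = σ x := fun x hx =>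
    (if_neg fun h => hx.elim (fun p => p (c1 x h).1) fun p => p (c1 x h).2).trans (if_pos hx)
  have r3 : ∀ x ∈ Hall_R a b σ τ, ρ x = m x := fun x hx => by
    obtain ⟨p1, p2, p3⟩ := mem_filter.1 hx
    obtain ⟨p4, p5⟩ := Finset.mem_sdiff.1 p1
    exact (if_neg (not_or.2 ⟨p5, p3⟩)).trans (if_neg (not_or.2 ⟨not_not.2 p4, not_not.2 p2⟩))
  have tri : ∀ x, (x ∈ box a ∨ τ x ∈ box a) ∨ (x ∉ box b ∨ σ x ∉ box b) ∨
      x ∈ Hall_R a b σ τ := fun x => by
    simp only [Hall_R, mem_filter, Finset.mem_sdiff]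
    exact (show ∀ p q r s : Prop, (p ∨ q) ∨ (¬ r ∨ ¬ s) ∨ (r ∧ ¬ p) ∧ s ∧ ¬ q by tauto) _ _ _ _
  refine ⟨ρ, mem_perf.2 ⟨⟨fun x => ?_, fun x hx => r2 x (Or.inl hx)⟩, fun x hx => ?_⟩,
    fun x hx => r1 x (Or.inl hx)⟩
  · rcases tri x with h | h | h
    · rw [r1 x h, r1 _ (by rw [(hτ x).2]; exact h.symm)]
      exact hτ x
    · rw [r2 x h, r2 _ (by rw [(hσ x).2]; exact h.symm)]
      exact hσ x
    · rw [r3 x h, r3 _ (hm x h).1]
      exact ⟨Or.inr (hm x h).2.1, (hm x h).2.2⟩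
  · rcases tri x with h | h | h
    · rw [r1 x h]
      exact Hall_ne (c0 x h)
    · rw [r2 x h]
      exact fun e => h.elim (fun p => p hx) fun p => p (e.symm ▸ hx)
    · rw [r3 x h]
      exact Hall_ne (hm x h).2.1

/-- Hall's theorem on the shell, with the flow centred at `s` (port of `hall_patch`; a tangential
boundary edge now gives the deficit `pe s x d ≥ κ / 6`, and the inner configuration may have
monomers on the boundary of the big box). -/
theorem hall_patchP {s : Fin 3 → ℝ} {κ : ℝ} (hκ : 0 < κ) (hs : n1 s ≤ 1 - κ) {a T b : ℕ}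
    (ha : 1 ≤ a) (haT : a < T) (hTb : T < b) {σ τ : V → V} (hσ : IsExt σ) (hτ : IsExt τ)
    (hτm : ∀ x ∈ box (b - 1), τ x ≠ x) (hmon : ∀ x ∈ box b, x ∉ box a → σ x ≠ x)
    (hS : ∀ S ⊆ box b \ box a, ∃ t t', T < t ∧ t ≤ b ∧ a < t' ∧ t' ≤ T ∧
      6 / κ * |Outp s σ S t| ≤ ∑ u ∈ Finset.Ioo T t, (beta S u : ℝ) ∧
      6 / κ * |Outp s τ S t'| ≤ ∑ u ∈ Finset.Ioc t' T, (beta S u : ℝ)) :
    ∃ ρ ∈ perf (box b) σ, ∀ x ∈ box a, ρ x = τ x := by
  have h4 : a + 2 ≤ b := by omega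
  have h6 : ∀ t' ≤ T, ∀ x ∈ box t', τ x ≠ x := fun t' ht x hx => hτm x (box_mono (by omega) hx)
  have hk : ∀ u v : ℝ, 6 / κ * u ≤ v → u ≤ κ / 6 * v := fun u v h => by
    have := mul_le_mul_of_nonneg_left h (show 0 ≤ κ / 6 by positivity)
    rwa [← mul_assoc, show κ / 6 * (6 / κ) = 1 by field_simp, one_mul] at this
  have hR : Hall_R a b σ τ ⊆ box b \ box a := filter_subset _ _
  obtain ⟨m, hm⟩ := Hall_match (Hall_R a b σ τ) (fun A hA => by
    have hA1 : ∀ x ∈ A, x ∈ Hall_R a b σ τ ∧ IsEven x := fun x hx => mem_filter.1 (hA hx)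
    have hA2 : ∀ y ∈ Hall_nb A, ¬ IsEven y := fun y hy => by
      obtain ⟨x, hx, d, rfl⟩ := Hall_mem_nb.1 hy
      exact fun h => isEven_add_dv.1 h (hA1 x hx).2
    have hsub : A ∪ Hall_nb A ∩ (box b \ box a) ⊆ box b \ box a :=
      union_subset (fun x hx => hR (hA1 x hx).1) inter_subset_right
    obtain ⟨t, t', p1, p2, p3, p4, p5, p6⟩ := hS _ hsub
    have q1 := NHallP_id s p3 (p4.trans p1.le) p2 h4 hσ hτ hmon (h6 t' p4) hsub
    have q2 := NHallP_bound hκ hs p3 (p4.trans p1.le) p2 σ τ (S := A ∪ Hall_nb A ∩ (box b \ box a))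
      (fun x hx d h1 h2 h3 => (mem_union.1 hx).elim
        (fun h => h2 (mem_union_right _ (mem_inter.2 ⟨Hall_mem_nb.2 ⟨x, h, d, rfl⟩, h1⟩)))
        fun h => hA2 x (mem_inter.1 h).1 h3) (U := Finset.Ioo T t ∪ Finset.Ioc t' T)
      fun u hu => by
        simp only [mem_union, mem_Ioo, mem_Ioc] at hu
        omega
    rw [← q1, Hall_sum, sum_union (disjoint_left.2 fun u h1 h2 => by
      have := Finset.mem_Ioo.1 h1
      have := Finset.mem_Ioc.1 h2
      omega)] at q2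
    have e1 : ((A ∪ Hall_nb A ∩ (box b \ box a)) ∩ Hall_R a b σ τ).filter IsEven = A := by
      ext x
      simp only [mem_filter, mem_inter, mem_union]
      exact ⟨fun h => h.1.1.elim id fun p => absurd h.2 (hA2 x p.1),
        fun h => ⟨⟨Or.inl h, (hA1 x h).1⟩, (hA1 x h).2⟩⟩
    have e2 : (((A ∪ Hall_nb A ∩ (box b \ box a)) ∩ Hall_R a b σ τ).filter
        fun x => ¬ IsEven x) = Hall_nb A ∩ Hall_R a b σ τ := by
      ext x
      simp only [mem_filter, mem_inter, mem_union]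
      exact ⟨fun h => ⟨h.1.1.elim (fun p => absurd (hA1 x p).2 h.2) fun p => p.1, h.1.2⟩,
        fun h => ⟨⟨Or.inr ⟨h.1, hR h.2⟩, h.2⟩, hA2 x h.1⟩⟩
    rw [e1, e2] at q2
    have q3 := neg_abs_le (Outp s σ (A ∪ Hall_nb A ∩ (box b \ box a)) t)
    have q4 := le_abs_self (Outp s τ (A ∪ Hall_nb A ∩ (box b \ box a)) t')
    have q5 := hk _ _ p5
    have q6 := hk _ _ p6
    exact (Nat.cast_le (α := ℝ)).1 (by linarith only [q2, q3, q4, q5, q6])) (by
    obtain ⟨t, t', p1, p2, p3, p4, p5, p6⟩ := hS _ subset_rfl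
    have q1 := NHallP_id s p3 (p4.trans p1.le) p2 h4 hσ hτ hmon (h6 t' p4) subset_rfl
    have hb : ∀ u, a < u → u ≤ b → (beta (box b \ box a) u : ℝ) = 0 := fun u h1 h2 => by
      rw [Hall_beta]
      refine sum_eq_zero fun x _ => sum_eq_zero fun d _ => if_neg fun h => h.2.2 ?_
      have r := mem_lev.1 h.2.1
      exact Finset.mem_sdiff.2 ⟨box_mono h2 r.1, fun h => r.2 (box_mono (by omega) h)⟩
    rw [sum_eq_zero fun u hu => hb u (by have := mem_Ioo.1 hu; omega)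
      (by have := mem_Ioo.1 hu; omega)] at p5
    rw [sum_eq_zero fun u hu => hb u (by have := mem_Ioc.1 hu; omega)
      (by have := mem_Ioc.1 hu; omega)] at p6
    rw [inter_eq_right.2 hR, Hall_sum,
      sum_eq_zero fun x _ => sum_eq_zero fun d _ => if_neg (and_not_self_iff _).1] at q1
    have q3 := le_abs_self (Outp s σ (box b \ box a) t)
    have q4 := neg_abs_le (Outp s τ (box b \ box a) t')
    have q5 := hk _ _ p5
    have q6 := hk _ _ p6
    exact (Nat.cast_le (α := ℝ)).1 (by linarith only [q1, q3, q4, q5, q6]))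
  exact NHallP_glue h4 hσ hτ (h6 a haT.le) hm

end Pool.Agent.Work.MP_5cb0a4_pr.Z
end

-- merged part: Pool.Agent.Work.MP_5cb0a4_pr.N.Rec2A
section
open MeasureTheory Finset Filter Topology
open scoped Classical

namespace Pool.Agent.Work.MP_5cb0a4_pr.Z

/-- Beyond the plane of the square. -/
def NRec2_ph (d : Dir) (c x : V) : Prop := if d.2 then c d.1 < x d.1 else x d.1 < c d.1

/-- Lateral coordinates in the square. -/
def NRec2_lat (i : Fin 3) (c : V) (l : ℕ) (x : V) : Prop :=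
  ∀ j, j ≠ i → c j ≤ x j ∧ x j < c j + l

theorem NRec2_dv_same (d : Dir) : dv d d.1 = if d.2 then 1 else -1 := by
  simp [dv]

theorem NRec2_dv_ne (d : Dir) {j : Fin 3} (h : j ≠ d.1) : dv d j = 0 := by
  simp [dv, h]

theorem NRec2_ph_iff (d : Dir) (c z : V) : NRec2_ph d c z ↔
    (dv d d.1 = 1 ∧ c d.1 < z d.1) ∨ (dv d d.1 = -1 ∧ z d.1 < c d.1) := by
  rw [NRec2_dv_same]
  unfold NRec2_ph
  cases d.2 <;> simp

theorem NRec2_step {x y : V} (h : y = x ∨ Nbr x y) (d : Dir) (c : V) :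
    ind (NRec2_ph d c) y - ind (NRec2_ph d c) x =
      (if x d.1 = c d.1 ∧ y = x + dv d then 1 else 0) -
        (if (x - dv d) d.1 = c d.1 ∧ y = x - dv d then 1 else 0) := by
  have h0 := NRec2_dv_same d
  have key : ∀ (a : ℤ), y d.1 = x d.1 + a → (y = x + dv d → a = dv d d.1) ∧
      (y = x - dv d → a = -dv d d.1) := by
    intro a ha
    constructor
    · intro e
      rw [e] at ha
      simp only [Pi.add_apply] at ha
      omega
    · intro e
      rw [e] at ha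
      simp only [Pi.sub_apply] at ha
      omega
  rcases h with h | h
  · obtain ⟨k1, k2⟩ := key 0 (by simp [h])
    have e1 : ¬ (x d.1 = c d.1 ∧ y = x + dv d) := fun e => by
      have := k1 e.2
      split_ifs at h0 <;> omega
    have e2 : ¬ ((x - dv d) d.1 = c d.1 ∧ y = x - dv d) := fun e => by
      have := k2 e.2
      split_ifs at h0 <;> omega
    rw [if_neg e1, if_neg e2, h]
    simp
  · obtain ⟨d', rfl⟩ := nbr_iff.1 h
    by_cases hd : d.1 = d'.1
    · by_cases hb : d'.2 = d.2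
      · have : d' = d := Prod.ext hd.symm hb
        subst this
        have e2 : ¬ ((x - dv d') d'.1 = c d'.1 ∧ x + dv d' = x - dv d') := fun e => by
          have := (key (dv d' d'.1) (by simp)).2 e.2
          split_ifs at h0 <;> omega
        rw [if_neg e2]
        have h1 : dv d' d'.1 = 1 ∨ dv d' d'.1 = -1 := by split_ifs at h0 <;> omega
        unfold ind
        split_ifs with a b e e b e e <;>
          simp only [NRec2_ph_iff, Pi.add_apply, and_true] at a b e <;>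
          first | (exfalso; omega) | norm_num
      · have : d' = (d.1, !d.2) := Prod.ext hd.symm (by
          cases h1 : d'.2 <;> cases h2 : d.2 <;> simp_all)
        rw [this, dv_not, ← sub_eq_add_neg]
        have e1 : ¬ (x d.1 = c d.1 ∧ x - dv d = x + dv d) := fun e => by
          have := congrFun e.2 d.1
          simp only [Pi.add_apply, Pi.sub_apply] at this
          split_ifs at h0 <;> omega
        rw [if_neg e1]
        have h1 : dv d d.1 = 1 ∨ dv d d.1 = -1 := by split_ifs at h0 <;> omega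
        unfold ind
        split_ifs with a b e e b e e <;>
          simp only [NRec2_ph_iff, Pi.sub_apply, and_true] at a b e <;>
          first | (exfalso; omega) | norm_num
    · have hz : (x + dv d') d.1 = x d.1 + 0 := by simp [NRec2_dv_ne d' hd]
      obtain ⟨k1, k2⟩ := key 0 hz
      have e1 : ¬ (x d.1 = c d.1 ∧ x + dv d' = x + dv d) := fun e => by
        have := k1 e.2
        split_ifs at h0 <;> omega
      have e2 : ¬ ((x - dv d) d.1 = c d.1 ∧ x + dv d' = x - dv d) := fun e => by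
        have := k2 e.2
        split_ifs at h0 <;> omega
      rw [if_neg e1, if_neg e2]
      have : NRec2_ph d c (x + dv d') ↔ NRec2_ph d c x := by
        rw [NRec2_ph_iff, NRec2_ph_iff, hz, add_zero]
      simp [ind, this]

theorem NRec2_lat_sub (d : Dir) (c : V) (l : ℕ) (x : V) :
    NRec2_lat d.1 c l (x - dv d) ↔ NRec2_lat d.1 c l x := by
  refine forall₂_congr fun j hj => ?_
  simp [NRec2_dv_ne d hj]

theorem NRec2_mem_sq {i : Fin 3} {c x : V} {l : ℕ} :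
    x ∈ sq i c l ↔ x i = c i ∧ NRec2_lat i c l x := mem_sq

/-- The border strip of a square. -/
theorem NRec2_strip (i : Fin 3) (c : V) {l T : ℕ} (hl : T ≤ l) :
    ∃ E : Finset V, (E.card : ℝ) ≤ 18 * l * T ∧ ∀ z x : V, z i = c i →
      (∀ j, j ≠ i → |z j - x j| ≤ T) → ¬ (NRec2_lat i c l z ↔ NRec2_lat i c l x) → z ∈ E := by
  let c₁ : V := fun j => if j = i then c j else c j - T
  let c₂ : V := fun j => if j = i then c j else c j + T
  have hsub : sq i c₂ (l - 2 * T) ⊆ sq i c₁ (l + 2 * T) := by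
    intro z hz
    obtain ⟨a, b⟩ := mem_sq.1 hz
    refine mem_sq.2 ⟨by simpa [c₁, c₂] using a, fun j hj => ?_⟩
    have := b j hj
    simp only [c₁, c₂, if_neg hj] at this ⊢
    omega
  refine ⟨sq i c₁ (l + 2 * T) \ sq i c₂ (l - 2 * T), ?_, fun z x hz hd hn => ?_⟩
  · have : (sq i c₁ (l + 2 * T) \ sq i c₂ (l - 2 * T)).card ≤ 18 * l * T := by
      rw [card_sdiff_of_subset hsub, card_sq, card_sq]
      rcases le_total (2 * T) l with h | h
      · obtain ⟨k, rfl⟩ := Nat.exists_eq_add_of_le h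
        rw [Nat.add_sub_cancel_left, Nat.sub_le_iff_le_add]
        linarith only [Nat.zero_le (k * T), Nat.zero_le (T * T), mul_self_nonneg ↑T]
      · refine (Nat.sub_le _ _).trans ?_
        linarith only [h, hl, Nat.mul_le_mul_left l h, Nat.mul_le_mul_left T hl, mul_self_nonneg ↑l]
    exact_mod_cast this
  · refine mem_sdiff.2 ⟨mem_sq.2 ⟨by simpa [c₁] using hz, fun j hj => ?_⟩, fun hs => hn ?_⟩
    · have h1 := abs_le.1 (hd j hj)
      simp only [c₁, if_neg hj]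
      by_cases a : NRec2_lat i c l z
      · have := a j hj
        push_cast
        omega
      · have b : NRec2_lat i c l x := by
          by_contra b
          exact hn (iff_of_false a b)
        have := b j hj
        push_cast
        omega
    · have b := (mem_sq.1 hs).2
      constructor
      · intro _ j hj
        have h1 := abs_le.1 (hd j hj)
        have := b j hj
        simp only [c₂, if_neg hj] at this
        omega
      · intro _ j hj
        have := b j hj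
        simp only [c₂, if_neg hj] at this
        omega

/-- The crossing function of one step. -/
noncomputable def NRec2_G (f : V → V) (P : V → Prop) (d : Dir) (c : V) (l : ℕ) (z : V) : ℝ :=
  ind P z * ind (NRec2_lat d.1 c l) z * (ind (NRec2_ph d c) (f z) - ind (NRec2_ph d c) z)

theorem NRec2_G_eq {κ₁ κ₂ : V → V} (h₁ : IsExt κ₁) (h₂ : IsExt κ₂) (P : V → Prop) (d : Dir) (c : V)
    (l : ℕ) (z : V) : NRec2_G (pi2 κ₁ κ₂) P d c l z =
      (if z ∈ sq d.1 c l ∧ P z ∧ pi2 κ₁ κ₂ z = z + dv d then 1 else 0) -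
        (if z - dv d ∈ sq d.1 c l ∧ P z ∧ pi2 κ₁ κ₂ z = z - dv d then 1 else 0) := by
  rw [NRec2_G, NRec2_step (pi2_nbr h₁ h₂ z)]
  simp only [NRec2_mem_sq, NRec2_lat_sub, ind]
  by_cases a : P z <;> by_cases b : NRec2_lat d.1 c l z <;> simp [a, b]

theorem NRec2_G_sum {κ₁ κ₂ : V → V} (h₁ : IsExt κ₁) (h₂ : IsExt κ₂) (P : V → Prop)
    (hP : ∀ x, P x ↔ P (pi2 κ₁ κ₂ x)) (d : Dir) (c : V) {l t : ℕ} (hc : sq d.1 c l ⊆ box t)
    {B : Finset V} (hB : box (t + 1) ⊆ B) :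
    ∑ z ∈ B, NRec2_G (pi2 κ₁ κ₂) P d c l z = ∑ x ∈ (sq d.1 c l).filter P, Jd κ₁ κ₂ x d := by
  simp only [NRec2_G_eq h₁ h₂, Jd_pi h₁ h₂, sum_sub_distrib, sum_boole]
  congr 2
  · congr 1
    ext z
    simp only [mem_filter]
    constructor
    · rintro ⟨-, a, b, e⟩
      exact ⟨⟨a, b⟩, e⟩
    · rintro ⟨⟨a, b⟩, e⟩
      exact ⟨hB (box_mono (Nat.le_succ t) (hc a)), a, b, e⟩
  · refine card_nbij' (fun z => z - dv d) (fun x => x + dv d) ?_ ?_ ?_ ?_
    · intro z hz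
      simp only [coe_filter, mem_filter, Set.mem_ofPred_eq] at hz ⊢
      obtain ⟨-, a, b, e⟩ := hz
      refine ⟨⟨a, ?_⟩, by rw [sub_add_cancel, e]⟩
      rw [← e]
      exact (hP z).1 b
    · intro x hx
      simp only [coe_filter, mem_filter, Set.mem_ofPred_eq] at hx ⊢
      obtain ⟨⟨a, b⟩, e⟩ := hx
      refine ⟨hB (add_dv_mem_box (hc a) d), by simpa using a, ?_, by simpa using e⟩
      refine (hP _).2 ?_
      rw [e]
      exact b
    · intro z _
      simp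
    · intro z _
      simp

theorem NRec2_iter {f : V → V} {P : V → Prop} (hP : ∀ x, P x ↔ P (f x)) (n : ℕ) (x : V) :
    P (f^[n] x) ↔ P x := by
  induction n with
  | zero => rfl
  | succ n ih => rw [Function.iterate_succ_apply', ← hP, ih]

theorem NRec2_abs_ind {α : Type} (H : α → Prop) (a : α) : |ind H a| ≤ 1 := by
  unfold ind
  split_ifs <;> simp

theorem NRec2_abs_sub {α : Type} (H : α → Prop) (a b : α) : |ind H a - ind H b| ≤ 1 := by
  unfold ind
  split_ifs <;> simp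

theorem NRec2_flux {κ₁ κ₂ : V → V} (h₁ : IsExt κ₁) (h₂ : IsExt κ₂) {r t T l : ℕ}
    (hm : ∀ x ∈ box r, κ₁ x ≠ x ∧ κ₂ x ≠ x) (hr : t + 2 * T + 2 ≤ r) (hT : 1 ≤ T) (hl : T ≤ l)
    (P : V → Prop) (hP : ∀ x, P x ↔ P (pi2 κ₁ κ₂ x)) (d : Dir) (c : V)
    (hc : sq d.1 c l ⊆ box t) :
    |∑ x ∈ (sq d.1 c l).filter P, Jd κ₁ κ₂ x d| ≤
      (∑ x ∈ box (t + T + 1), ind (fun x => P x ∧ NRec2_lat d.1 c l x ∧
        ¬ (NRec2_ph d c x ↔ NRec2_ph d c ((pi2 κ₁ κ₂)^[T] x))) x) / T + 36 * l * T := by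
  set j := ∑ x ∈ (sq d.1 c l).filter P, Jd κ₁ κ₂ x d with hj
  set f := pi2 κ₁ κ₂ with hf
  set B := box (t + T + 1) with hB
  obtain ⟨E, hE, hE'⟩ := NRec2_strip d.1 c hl
  have hinj : ∀ i < T, Set.InjOn f^[i] (B : Set V) := fun i hi =>
    iterate_injOn h₁ h₂ hm (by omega)
  have hA : ∀ i < T, ∑ x ∈ B, NRec2_G f P d c l (f^[i] x) = j := by
    intro i hi
    rw [← sum_image (g := f^[i]) (f := NRec2_G f P d c l) (hinj i hi)]
    refine NRec2_G_sum h₁ h₂ P hP d c hc fun z hz => ?_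
    obtain ⟨x, hx, e⟩ := iterate_surj h₁ h₂ hm (n := i) (by omega) hz
    exact mem_image.2 ⟨x, box_mono (by omega) hx, e⟩
  let err : ℕ → V → ℝ := fun i x => ind P x *
    (ind (NRec2_lat d.1 c l) (f^[i] x) - ind (NRec2_lat d.1 c l) x) *
      (ind (NRec2_ph d c) (f (f^[i] x)) - ind (NRec2_ph d c) (f^[i] x))
  have hErr : ∀ i < T, |∑ x ∈ B, err i x| ≤ 36 * l * T := by
    intro i hi
    have h1 : ∀ x ∈ B, |err i x| ≤ if f^[i] x ∈ E ∪ tr (dv d) E then 1 else 0 := by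
      intro x _
      split_ifs with hx
      · simp only [err, abs_mul]
        exact mul_le_one₀ (mul_le_one₀ (NRec2_abs_ind _ _) (abs_nonneg _) (NRec2_abs_sub _ _ _))
          (abs_nonneg _) (NRec2_abs_sub _ _ _)
      · by_cases hlat : NRec2_lat d.1 c l (f^[i] x) ↔ NRec2_lat d.1 c l x
        · simp [err, ind, hlat]
        · have hd : ∀ k, |f^[i] x k - x k| ≤ T := fun k => by
            have a := iterate_dist h₁ h₂ x i
            have b := single_le_sum (f := fun k => |f^[i] x k - x k|)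
              (fun k _ => abs_nonneg _) (mem_univ k)
            have e : (i : ℤ) ≤ T := by exact_mod_cast hi.le
            exact b.trans (a.trans e)
          rw [mem_union, not_or, mem_tr] at hx
          have e1 : ¬ f^[i] x d.1 = c d.1 := fun e =>
            hx.1 (hE' _ x e (fun k _ => hd k) hlat)
          have e2 : ¬ (f^[i] x - dv d) d.1 = c d.1 := fun e =>
            hx.2 (hE' _ x e (fun k hk => by simpa [NRec2_dv_ne d hk] using hd k)
              (by rwa [NRec2_lat_sub]))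
          simp only [err]
          rw [NRec2_step (pi2_nbr h₁ h₂ _), if_neg (fun e => e1 e.1), if_neg (fun e => e2 e.1)]
          simp
    refine (abs_sum_le_sum_abs _ _).trans ((sum_le_sum h1).trans ?_)
    rw [sum_boole]
    have h2 : (B.filter fun x => f^[i] x ∈ E ∪ tr (dv d) E).card ≤ (E ∪ tr (dv d) E).card :=
      card_le_card_of_injOn f^[i] (fun x hx => by simpa using (mem_filter.1 hx).2)
        ((hinj i hi).mono (coe_subset.2 (filter_subset _ _)))
    have h3 : (E ∪ tr (dv d) E).card ≤ E.card + E.card := by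
      have := card_union_le E (tr (dv d) E)
      rwa [card_tr] at this
    have h4 : ((B.filter fun x => f^[i] x ∈ E ∪ tr (dv d) E).card : ℝ) ≤ E.card + E.card := by
      exact_mod_cast h2.trans h3
    linarith only [hE, h4]
  let mn : V → ℝ := fun x => ind P x * ind (NRec2_lat d.1 c l) x *
    (ind (NRec2_ph d c) (f^[T] x) - ind (NRec2_ph d c) x)
  have hsplit : ∀ x, ∑ i ∈ range T, NRec2_G f P d c l (f^[i] x) =
      mn x + ∑ i ∈ range T, err i x := by
    intro x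
    have tel := sum_range_sub (fun i => ind (NRec2_ph d c) (f^[i] x)) T
    simp only [Function.iterate_succ_apply', Function.iterate_zero_apply] at tel
    simp only [mn]
    rw [← tel, mul_sum, ← sum_add_distrib]
    refine sum_congr rfl fun i _ => ?_
    have : ind P (f^[i] x) = ind P x := by simp only [ind, NRec2_iter hP]
    simp only [NRec2_G, err, this]
    ring
  have hT' : (0 : ℝ) < T := by exact_mod_cast hT
  have hsum : (T : ℝ) * j = ∑ x ∈ B, mn x + ∑ i ∈ range T, ∑ x ∈ B, err i x := by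
    rw [sum_comm, ← sum_add_distrib, ← sum_congr rfl fun x _ => hsplit x, sum_comm,
      sum_congr rfl fun i hi => hA i (mem_range.1 hi)]
    simp
  have hmn : |∑ x ∈ B, mn x| ≤ ∑ x ∈ B, ind (fun x => P x ∧ NRec2_lat d.1 c l x ∧
      ¬ (NRec2_ph d c x ↔ NRec2_ph d c (f^[T] x))) x := by
    refine (abs_sum_le_sum_abs _ _).trans (sum_le_sum fun x _ => ?_)
    simp only [mn, ind]
    by_cases a : P x <;> by_cases b : NRec2_lat d.1 c l x <;> by_cases e : NRec2_ph d c x <;>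
      by_cases e' : NRec2_ph d c (f^[T] x) <;> simp [a, b, e, e']
  have herr : |∑ i ∈ range T, ∑ x ∈ B, err i x| ≤ T * (36 * l * T) := by
    refine (abs_sum_le_sum_abs _ _).trans
      ((sum_le_sum fun i hi => hErr i (mem_range.1 hi)).trans ?_)
    simp
  rw [div_add' _ _ _ hT'.ne', le_div_iff₀ hT']
  have : |j| * T = |(T : ℝ) * j| := by rw [abs_mul, abs_of_pos hT', mul_comm]
  rw [this, hsum]
  refine (abs_add_le _ _).trans ?_
  linarith only [hmn, herr]

end Pool.Agent.Work.MP_5cb0a4_pr.Z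
end

-- merged part: Pool.Agent.Work.MP_5cb0a4_pr.N.Rec2
section
open MeasureTheory Finset Filter Topology
open scoped Classical

namespace Pool.Agent.Work.MP_5cb0a4_pr.Z

theorem NRec2_sum_ind {α : Type} (s : Finset α) (g : α → ℝ) (H : α → Prop) [DecidablePred H]
    (h : ∀ x, (H x → g x = 1) ∧ (¬ H x → g x = 0)) : ∑ x ∈ s, g x = (s.filter H).card := by
  rw [← sum_boole]
  refine sum_congr rfl fun x _ => ?_
  split_ifs with a
  · exact (h x).1 a
  · exact (h x).2 a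

/-- The flux carried by a union `P` of components through a square is seen by the walk of `T`
steps: count each step `T` times, and compare with the crossings of the whole plane. -/
theorem piece_flux {κ₁ κ₂ : V → V} (h₁ : IsExt κ₁) (h₂ : IsExt κ₂) {r t T l : ℕ}
    (hm : ∀ x ∈ box r, κ₁ x ≠ x ∧ κ₂ x ≠ x) (hr : t + 2 * T + 2 ≤ r) (hT : 1 ≤ T) (hl : T ≤ l)
    (P : V → Prop) (hP : ∀ x, P x ↔ P (pi2 κ₁ κ₂ x)) (d : Dir) (c : V)
    (hc : sq d.1 c l ⊆ box t) :
    |∑ x ∈ (sq d.1 c l).filter P, Jd κ₁ κ₂ x d| ≤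
      (((box (t + T + 1)).filter fun x => P x ∧ (∀ j, j ≠ d.1 → c j ≤ x j ∧ x j < c j + l) ∧
        ¬ ((if d.2 then c d.1 < x d.1 else x d.1 < c d.1) ↔
          (if d.2 then c d.1 < ((pi2 κ₁ κ₂)^[T] x) d.1
            else ((pi2 κ₁ κ₂)^[T] x) d.1 < c d.1))).card : ℝ) / T + 36 * l * T := by
  refine (NRec2_flux h₁ h₂ hm hr hT hl P hP d c hc).trans (le_of_eq ?_)
  congr 2
  exact NRec2_sum_ind _ _ _ fun x => ⟨fun a => if_pos a, fun a => if_neg a⟩

/-- Sums over the classes of an equivalence relation. -/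
theorem NRec2_class (S : Finset V) (R : V → V → Prop) (hr : ∀ x, R x x)
    (hs : ∀ x y, R x y → R y x) (ht : ∀ x y z, R x y → R y z → R x z) (J f : V → ℝ)
    (hf : ∀ x y, R x y → f x = f y)
    (hpos : ∀ x ∈ S, 0 ≤ f x * ∑ y ∈ S, if R x y then J y else 0) :
    0 ≤ ∑ x ∈ S, J x * f x := by
  let n : V → ℝ := fun x => ∑ y ∈ S, if R x y then 1 else 0
  have hn : ∀ x ∈ S, 0 < n x := fun x hx =>
    sum_pos' (fun y _ => by split_ifs <;> norm_num) ⟨x, hx, by simp [hr x]⟩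
  have hnR : ∀ x y, R x y → n x = n y := fun x y h => sum_congr rfl fun z _ =>
    if_congr ⟨fun a => ht _ _ _ (hs _ _ h) a, fun a => ht _ _ _ h a⟩ rfl rfl
  have e1 : ∀ x ∈ S, J x * f x = ∑ y ∈ S, if R y x then f y / n y * J x else 0 := by
    intro x hx
    have : ∀ y ∈ S, (if R y x then f y / n y * J x else 0) =
        f x / n x * J x * if R x y then 1 else 0 := by
      intro y _
      by_cases h : R x y
      · rw [if_pos h, if_pos (hs _ _ h), hf _ _ h, hnR _ _ h, mul_one]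
      · rw [if_neg h, if_neg (fun a => h (hs _ _ a)), mul_zero]
    rw [sum_congr rfl this, ← mul_sum]
    have := (hn x hx).ne'
    change _ = f x / n x * J x * n x
    field_simp
  rw [sum_congr rfl e1, sum_comm]
  refine sum_nonneg fun y hy => ?_
  have : ∑ x ∈ S, (if R y x then f y / n y * J x else 0) =
      (f y * ∑ x ∈ S, if R y x then J x else 0) / n y := by
    rw [mul_sum, sum_div]
    refine sum_congr rfl fun x _ => ?_
    split_ifs
    · ring
    · simp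
  rw [this]
  exact div_nonneg (hpos y hy) (hn y hy).le

/-- The bound for one square. -/
theorem NRec2_square {κ₁ κ₂ : V → V} (h₁ : IsExt κ₁) (h₂ : IsExt κ₂) {r t T l b : ℕ} (M : ℕ)
    (hm : ∀ x ∈ box r, κ₁ x ≠ x ∧ κ₂ x ≠ x) (hr : t + 2 * T + 2 ≤ r) (hT : 1 ≤ T) (hl : T ≤ l)
    (hb : t ≤ b) (d : Dir) (c : V) (hc : sq d.1 c l ⊆ box t) :
    J2 κ₁ κ₂ d c l ≤ (M + 72 * l * T) * (l : ℝ) ^ 2 + (l : ℝ) ^ 2 / T *
      ∑ x ∈ box (t + T + 1), ind (fun x => Long (box b) M κ₁ κ₂ x ∧ NRec2_lat d.1 c l x ∧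
        ¬ (NRec2_ph d c x ↔ NRec2_ph d c ((pi2 κ₁ κ₂)^[T] x))) x := by
  set S := sq d.1 c l with hS
  let J : V → ℝ := fun x => Jd κ₁ κ₂ x d
  let jK : V → ℝ := fun x => ∑ y ∈ S, if Conn κ₁ κ₂ x y then J y else 0
  let L : V → Prop := Long (box b) M κ₁ κ₂
  have hsy : ∀ x y, Conn κ₁ κ₂ x y → Conn κ₁ κ₂ y x := fun x y h => Conn.symm h₁ h₂ h
  have hcl : ∀ x y, Conn κ₁ κ₂ x y → ∀ z, Conn κ₁ κ₂ x z ↔ Conn κ₁ κ₂ y z := fun x y h z =>
    ⟨fun a => (hsy _ _ h).trans a, fun a => h.trans a⟩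
  have hjK : ∀ x y, Conn κ₁ κ₂ x y → jK x = jK y := fun x y h =>
    sum_congr rfl fun z _ => if_congr (hcl x y h z) rfl rfl
  have hL : ∀ x y, Conn κ₁ κ₂ x y → (L x ↔ L y) := fun x y h => by
    simp only [L, Long, hcl x y h]
  have hb1 : ∀ x, |jK x| ≤ (S.filter fun y => Conn κ₁ κ₂ x y).card := by
    intro x
    refine (abs_sum_le_sum_abs _ _).trans ?_
    rw [← sum_boole]
    refine sum_le_sum fun y _ => ?_
    split_ifs
    · exact abs_Jd_le _ _ _ _
    · simp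
  have hb2 : ∀ x, |jK x| ≤ (l : ℝ) ^ 2 := fun x => (hb1 x).trans (by
    have := card_filter_le S fun y => Conn κ₁ κ₂ x y
    rw [hS, card_sq] at this
    exact_mod_cast this)
  have hb3 : ∀ x, ¬ L x → |jK x| ≤ M := fun x hx => (hb1 x).trans (by
    have a : (S.filter fun y => Conn κ₁ κ₂ x y).card ≤
        ((box b).filter fun y => Conn κ₁ κ₂ x y).card :=
      card_le_card (filter_subset_filter _ (hc.trans (box_mono hb)))
    have e : ((box b).filter fun y => Conn κ₁ κ₂ x y).card ≤ M := not_lt.1 hx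
    exact_mod_cast a.trans e)
  let f : V → ℝ := fun x =>
    if L x then (if 0 ≤ jK x then (l : ℝ) ^ 2 - jK x else -(l : ℝ) ^ 2 - jK x) else 0
  have hf : 0 ≤ ∑ x ∈ S, J x * f x := by
    refine NRec2_class S (Conn κ₁ κ₂) (fun _ => Relation.ReflTransGen.refl) hsy
      (fun _ _ _ a e => a.trans e) J f (fun x y h => ?_) (fun x _ => ?_)
    · simp only [f, hL x y h, hjK x y h]
    · change 0 ≤ f x * jK x
      have := abs_le.1 (hb2 x)
      simp only [f]
      split_ifs with a e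
      · exact mul_nonneg (by linarith only [this]) e
      · exact mul_nonneg_of_nonpos_of_nonpos (by linarith only [this]) (by linarith only [e])
      · simp
  have hstep : ∀ x, Conn κ₁ κ₂ x (pi2 κ₁ κ₂ x) := fun x => conn_pi2 κ₁ κ₂ x 1
  have hp := NRec2_flux h₁ h₂ hm hr hT hl (fun x => L x ∧ 0 ≤ jK x)
    (fun x => by rw [hL _ _ (hstep x), hjK _ _ (hstep x)]) d c hc
  have hq := NRec2_flux h₁ h₂ hm hr hT hl (fun x => L x ∧ ¬ 0 ≤ jK x)
    (fun x => by rw [hL _ _ (hstep x), hjK _ _ (hstep x)]) d c hc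
  rw [sum_filter, ← hS] at hp hq
  have e1 : J2 κ₁ κ₂ d c l = ∑ x ∈ S, J x * jK x := by
    refine sum_congr rfl fun x _ => ?_
    simp only [jK, mul_sum]
    refine sum_congr rfl fun y _ => ?_
    split_ifs <;> simp [J]
  have e2 : ∀ x ∈ S, J x * jK x ≤ M - J x * f x + (l : ℝ) ^ 2 *
      ((if L x ∧ 0 ≤ jK x then Jd κ₁ κ₂ x d else 0) -
        if L x ∧ ¬ 0 ≤ jK x then Jd κ₁ κ₂ x d else 0) := by
    intro x _
    have hM : (0 : ℝ) ≤ M := Nat.cast_nonneg M
    by_cases a : L x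
    · by_cases e : 0 ≤ jK x
      · simp only [f, a, e, J, if_true, and_self, not_true, and_false, if_false]
        linarith only []
      · simp only [f, a, e, J, if_true, and_self, not_false_iff, and_false, if_false]
        linarith only []
    · simp only [f, a, if_false, false_and, mul_zero, sub_zero, add_zero]
      refine (le_abs_self _).trans ?_
      rw [abs_mul]
      have := mul_le_mul (abs_Jd_le κ₁ κ₂ x d) (hb3 x a) (abs_nonneg _) zero_le_one
      simpa using this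
  have e3 := sum_le_sum e2
  rw [sum_add_distrib, sum_sub_distrib, ← mul_sum, sum_sub_distrib, sum_const, hS, card_sq,
    ← hS, nsmul_eq_mul] at e3
  have e4 : ∑ x ∈ box (t + T + 1), ind (fun x => (L x ∧ 0 ≤ jK x) ∧ NRec2_lat d.1 c l x ∧
        ¬ (NRec2_ph d c x ↔ NRec2_ph d c ((pi2 κ₁ κ₂)^[T] x))) x +
      ∑ x ∈ box (t + T + 1), ind (fun x => (L x ∧ ¬ 0 ≤ jK x) ∧ NRec2_lat d.1 c l x ∧
        ¬ (NRec2_ph d c x ↔ NRec2_ph d c ((pi2 κ₁ κ₂)^[T] x))) x =
      ∑ x ∈ box (t + T + 1), ind (fun x => L x ∧ NRec2_lat d.1 c l x ∧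
        ¬ (NRec2_ph d c x ↔ NRec2_ph d c ((pi2 κ₁ κ₂)^[T] x))) x := by
    rw [← sum_add_distrib]
    refine sum_congr rfl fun x _ => ?_
    unfold ind
    by_cases e : 0 ≤ jK x <;> simp [e]
  rw [e1, ← e4]
  have hp' := (abs_le.1 hp).2
  have hq' := (abs_le.1 hq).1
  have hl2 : (0 : ℝ) ≤ (l : ℝ) ^ 2 := sq_nonneg _
  have a1 := mul_le_mul_of_nonneg_left hp' hl2
  have a2 := mul_le_mul_of_nonneg_left hq' hl2
  push_cast at e3
  refine e3.trans ?_
  simp only [div_eq_mul_inv] at a1 a2 ⊢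
  have key : ∀ (m q u w A B p₁ p₂ z : ℝ), 0 ≤ z → q * p₁ ≤ q * (A * w + 36 * u) →
      q * -(B * w + 36 * u) ≤ q * p₂ →
      q * m - z + q * (p₁ - p₂) ≤ (m + 72 * u) * q + q * w * (A + B) := by
    intro m q u w A B p₁ p₂ z b1 b2 b3
    linarith only [b1, b2, b3]
  simp only [mul_assoc] at a1 a2 ⊢
  have := key M ((l : ℝ) ^ 2) (l * T) (T : ℝ)⁻¹ _ _ _ _ _ hf a1 a2
  simp only [mul_assoc] at this
  refine le_trans (le_of_eq ?_) this
  congr <;> funext x <;> congr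

/-- Few levels separate two points. -/
theorem NRec2_levels (lo hi l : ℕ) (hl : 1 ≤ l) (d : Dir) (x y : V) :
    ∑ t ∈ Finset.Ioo lo hi, ∑ p ∈ sqs t l, ind (fun x' => NRec2_lat d.1 (corner d t l p) l x ∧
      ¬ (NRec2_ph d (corner d t l p) x ↔ NRec2_ph d (corner d t l p) x')) y ≤
      |((y d.1 - x d.1 : ℤ) : ℝ)| := by
  let s : ℕ → ℤ := fun t => if d.2 then (t : ℤ) else -(t : ℤ) - 1
  let sep : ℕ → Prop := fun t => s t ∈ Finset.Ico (min (x d.1) (y d.1)) (max (x d.1) (y d.1))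
  have hc : ∀ t p, corner d t l p d.1 = if d.2 then (t : ℤ) else -(t : ℤ) := fun t p => by
    simp [corner]
  have hsep : ∀ t p, ¬ (NRec2_ph d (corner d t l p) x ↔ NRec2_ph d (corner d t l p) y) →
      sep t := by
    intro t p h
    simp only [NRec2_ph, hc] at h
    simp only [sep, s, mem_Ico]
    cases hd : d.2 <;> simp only [hd] at h ⊢ <;> simp at h ⊢ <;> omega
  have h1 : ∀ t ∈ Finset.Ioo lo hi, ∑ p ∈ sqs t l,
      ind (fun x' => NRec2_lat d.1 (corner d t l p) l x ∧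
      ¬ (NRec2_ph d (corner d t l p) x ↔ NRec2_ph d (corner d t l p) x')) y ≤
      if sep t then 1 else 0 := by
    intro t _
    split_ifs with h
    · refine (NRec2_sum_ind _ _ (fun p => NRec2_lat d.1 (corner d t l p) l x ∧
        ¬ (NRec2_ph d (corner d t l p) x ↔ NRec2_ph d (corner d t l p) y))
        fun x => ⟨fun a => if_pos a, fun a => if_neg a⟩).trans_le ?_
      refine Nat.cast_le_one.2 (card_le_one.2 fun p hp q hq => ?_)
      have a := (mem_filter.1 hp).2.1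
      have e := (mem_filter.1 hq).2.1
      have n1 : d.1 + 1 ≠ d.1 := by
        generalize d.1 = i
        revert i
        decide
      have n2 : d.1 + 2 ≠ d.1 := by
        generalize d.1 = i
        revert i
        decide
      have n3 : d.1 + 2 ≠ d.1 + 1 := by
        generalize d.1 = i
        revert i
        decide
      have a1 := a _ n1
      have a2 := a _ n2
      have e1 := e _ n1
      have e2 := e _ n2
      simp only [corner, if_neg n1, if_neg n2, if_neg n3, if_true] at a1 a2 e1 e2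
      have key : ∀ (u v : ℕ) (w : ℤ), (l : ℤ) * u ≤ w → w < l * v + l → u ≤ v := by
        intro u v w b1 b2
        have hl' : (0 : ℤ) < l := by exact_mod_cast hl
        have : (l : ℤ) * u < l * (v + 1) := by linarith only [b1, b2]
        have := lt_of_mul_lt_mul_left this hl'.le
        omega
      refine Prod.ext (le_antisymm (key _ _ (x (d.1 + 1) + t) ?_ ?_) (key _ _ (x (d.1 + 1) + t) ?_ ?_))
        (le_antisymm (key _ _ (x (d.1 + 2) + t) ?_ ?_) (key _ _ (x (d.1 + 2) + t) ?_ ?_)) <;>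
        linarith only [a1, e1, a2, e2, a1.1, a1.2, a2.1, a2.2, e1.1, e1.2, e2.1, e2.2]
    · refine le_of_eq (sum_eq_zero fun p _ => ?_)
      unfold ind
      exact if_neg fun a => h (hsep t p a.2)
  refine (sum_le_sum h1).trans ?_
  rw [sum_boole]
  have h2 : ((Finset.Ioo lo hi).filter sep).card ≤
      (Finset.Ico (min (x d.1) (y d.1)) (max (x d.1) (y d.1))).card := by
    refine card_le_card_of_injOn s (fun t ht => (mem_filter.1 ht).2) fun t _ u _ h => ?_
    simp only [s] at h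
    split_ifs at h <;> omega
  rw [Int.card_Ico] at h2
  have h3 : ((((Finset.Ioo lo hi).filter sep).card : ℕ) : ℤ) ≤ |y d.1 - x d.1| := by
    rcases abs_cases (y d.1 - x d.1) with a | a <;> omega
  exact_mod_cast h3

/-- Short components and slow long components carry little flux. -/
theorem cell_J2 {κ₁ κ₂ : V → V} (h₁ : IsExt κ₁) (h₂ : IsExt κ₂) {b lo hi l T M : ℕ}
    (hm : ∀ x ∈ box (b - 1), κ₁ x ≠ x ∧ κ₂ x ≠ x) (hb : hi + 2 * T + 2 ≤ b) (hT : 1 ≤ T)
    (hl : T ≤ l) :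
    lsum lo hi l (fun d c => J2 κ₁ κ₂ d c l) ≤ 24 * M * (b : ℝ) ^ 3 +
      2 * (l : ℝ) ^ 2 * (∑ x ∈ (box (hi + T)).filter (Long (box b) M κ₁ κ₂), aT κ₁ κ₂ T x) +
      2000 * T * l * (b : ℝ) ^ 3 := by
  set f := pi2 κ₁ κ₂ with hf
  set L := Long (box b) M κ₁ κ₂ with hL
  let N : Dir → V → ℝ := fun d c => ∑ x ∈ (box (hi + T)).filter L,
    ind (fun x' => NRec2_lat d.1 c l x ∧ ¬ (NRec2_ph d c x ↔ NRec2_ph d c x')) (f^[T] x)
  have hT' : (0 : ℝ) < T := by exact_mod_cast hT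
  have h1 : lsum lo hi l (fun d c => J2 κ₁ κ₂ d c l) ≤ lsum lo hi l (fun d c =>
      (M + 72 * l * T) * (l : ℝ) ^ 2 + (l : ℝ) ^ 2 / T * N d c) := by
    refine lsum_mono fun t ht d p hp => ?_
    have ht' := (mem_Ioo.1 ht).2
    refine (NRec2_square h₁ h₂ (b := b) M hm (by omega) hT hl (by omega) d _
      (sq_corner_box hp)).trans ?_
    refine add_le_add le_rfl (mul_le_mul_of_nonneg_left ?_ (by positivity))
    simp only [N, sum_filter]
    refine le_trans (sum_le_sum_of_subset_of_nonneg (box_mono (t := hi + T) (by omega))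
      fun x _ _ => ?_) (le_of_eq (sum_congr rfl fun x _ => ?_))
    · unfold ind
      split_ifs <;> norm_num
    · unfold ind
      by_cases a : L x
      · rw [if_pos a]
        split_ifs with e e' e'
        · rfl
        · exact absurd e.2 e'
        · exact absurd ⟨a, e'⟩ e
        · rfl
      · rw [if_neg a, if_neg fun e => a e.1]
  rw [lsum_add, lsum_mul lo hi l ((l : ℝ) ^ 2 / T)] at h1
  have h2 := lsum_const lo hi l (a := (M + 72 * l * T : ℝ)) (by positivity)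
  have h3 : lsum lo hi l N ≤ ∑ x ∈ (box (hi + T)).filter L, 2 * T * aT κ₁ κ₂ T x := by
    simp only [lsum, N]
    rw [sum_comm]
    simp only [sum_comm (t := (box (hi + T)).filter L)]
    refine sum_le_sum fun x _ => ?_
    refine (sum_le_sum fun d _ => NRec2_levels lo hi l (hT.trans hl) d x (f^[T] x)).trans
      (le_of_eq ?_)
    rw [Fintype.sum_prod_type, aT, ← hf]
    simp only [sum_const, card_univ, Fintype.card_bool, nsmul_eq_mul]
    rw [← mul_sum]
    field_simp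
    norm_num [mul_comm]
  rw [← mul_sum] at h3
  have h4 := mul_le_mul_of_nonneg_left h3 (show 0 ≤ (l : ℝ) ^ 2 / T by positivity)
  have h5 : (l : ℝ) ^ 2 / T * (2 * T * ∑ x ∈ (box (hi + T)).filter L, aT κ₁ κ₂ T x) =
      2 * (l : ℝ) ^ 2 * ∑ x ∈ (box (hi + T)).filter L, aT κ₁ κ₂ T x := by
    field_simp
  have h6 : (hi : ℝ) ^ 3 ≤ (b : ℝ) ^ 3 :=
    pow_le_pow_left₀ (Nat.cast_nonneg _) (by exact_mod_cast (by omega : hi ≤ b)) 3
  have h7 := mul_le_mul_of_nonneg_left h6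
    (show (0 : ℝ) ≤ 24 * (M + 72 * l * T) by positivity)
  have h8 : (0 : ℝ) ≤ T * l * (b : ℝ) ^ 3 := by positivity
  linarith only [h1, h2, h4, h5, h7, h8]

/-- All steps go up in the directions `σ`. -/
def Up (σ : Fin 3 → Bool) (κ₁ κ₂ : V → V) : Prop :=
  ∀ x, pi2 κ₁ κ₂ x = x ∨ ∃ i, pi2 κ₁ κ₂ x = x + dv (i, σ i)

theorem NRec2_mono {σ : Fin 3 → Bool} {κ₁ κ₂ : V → V} (h : Up σ κ₁ κ₂) (i : Fin 3) (x : V)
    (n : ℕ) : if σ i then x i ≤ (pi2 κ₁ κ₂)^[n] x i else (pi2 κ₁ κ₂)^[n] x i ≤ x i := by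
  induction n with
  | zero => simp
  | succ n ih =>
    rw [Function.iterate_succ_apply']
    rcases h ((pi2 κ₁ κ₂)^[n] x) with e | ⟨k, e⟩
    · rw [e]
      exact ih
    · rw [e]
      by_cases hk : i = k
      · subst hk
        have := NRec2_dv_same (i, σ i)
        simp only [Pi.add_apply] at this ⊢
        split_ifs at this ih ⊢ <;> omega
      · have := NRec2_dv_ne (k, σ k) hk
        simp only [Pi.add_apply, this, add_zero]
        exact ih

theorem NRec2_once {σ : Fin 3 → Bool} {κ₁ κ₂ : V → V} (h₁ : IsExt κ₁) (h₂ : IsExt κ₂)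
    (h : Up σ κ₁ κ₂) (d : Dir) {x y : V} (hxy : x d.1 = y d.1) (hx : Jd κ₁ κ₂ x d ≠ 0)
    (hy : Jd κ₁ κ₂ y d ≠ 0) {n : ℕ} (hn : (pi2 κ₁ κ₂)^[n] x = y) : x = y := by
  have h0 := NRec2_dv_same d
  rw [Jd_pi h₁ h₂] at hx hy
  by_cases hσ : σ d.1 = d.2
  · have a : pi2 κ₁ κ₂ x = x + dv d := by
      by_contra a
      have e : pi2 κ₁ κ₂ (x + dv d) = x := by
        by_contra e
        simp [a, e] at hx
      have := NRec2_mono h d.1 (x + dv d) 1
      simp only [Function.iterate_one, e, Pi.add_apply, hσ] at this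
      split_ifs at this h0 <;> omega
    rcases n with _ | n
    · exact hn
    · have := NRec2_mono h d.1 (x + dv d) n
      rw [Function.iterate_succ_apply, a] at hn
      simp only [hn, Pi.add_apply, hσ] at this
      split_ifs at this h0 <;> omega
  · have hσ' : σ d.1 = !d.2 := by cases e : σ d.1 <;> cases e' : d.2 <;> simp_all
    have a : pi2 κ₁ κ₂ (y + dv d) = y := by
      by_contra a
      have e : pi2 κ₁ κ₂ y = y + dv d := by
        by_contra e
        simp [a, e] at hy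
      have := NRec2_mono h d.1 y 1
      simp only [Function.iterate_one, e, Pi.add_apply, hσ'] at this
      cases e' : d.2 <;> simp [e'] at this h0 <;> omega
    induction n with
    | zero => exact hn
    | succ n ih =>
      by_cases e : (pi2 κ₁ κ₂)^[n] x = y
      · exact ih e
      · rw [Function.iterate_succ_apply'] at hn
        have hne : y ≠ y + dv d := fun e' => dv_ne_zero d (by simpa using e')
        have e2 : (pi2 κ₁ κ₂)^[n] x = y + dv d :=
          pi2_inj h₁ h₂ (by rw [hn]; exact fun e' => e e'.symm) (by rw [a]; exact hne)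
            (by rw [hn, a])
        have := NRec2_mono h d.1 x n
        simp only [e2, Pi.add_apply, hσ'] at this
        cases e' : d.2 <;> simp [e'] at this h0 <;> omega

/-- A monotone component crosses a plane at most once. -/
theorem J2_up {σ : Fin 3 → Bool} {κ₁ κ₂ : V → V} (h₁ : IsExt κ₁) (h₂ : IsExt κ₂)
    (h : Up σ κ₁ κ₂) (d : Dir) (c : V) (l : ℕ) : J2 κ₁ κ₂ d c l ≤ (l : ℝ) ^ 2 := by
  have key : ∀ x ∈ sq d.1 c l, (∑ x' ∈ sq d.1 c l,
      if Conn κ₁ κ₂ x x' then Jd κ₁ κ₂ x d * Jd κ₁ κ₂ x' d else 0) ≤ 1 := by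
    intro x hx
    rw [sum_eq_single_of_mem x hx]
    · have := abs_Jd_le κ₁ κ₂ x d
      split_ifs
      · exact (abs_le_one_iff_mul_self_le_one.1 this)
      · norm_num
    · intro y hy hne
      split_ifs with hc
      · by_contra hz
        obtain ⟨a, b⟩ := mul_ne_zero_iff.1 hz
        have e : x d.1 = y d.1 := by rw [(mem_sq.1 hx).1, (mem_sq.1 hy).1]
        obtain ⟨n, hn | hn⟩ := conn_orbit h₁ h₂ hc
        · exact hne (NRec2_once h₁ h₂ h d e a b hn).symm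
        · exact hne (NRec2_once h₁ h₂ h d e.symm b a hn)
      · rfl
  refine (sum_le_sum key).trans ?_
  simp [card_sq]

end Pool.Agent.Work.MP_5cb0a4_pr.Z
end

-- merged part: Pool.Agent.Work.MP_5cb0a4_pr.N.Count
section
open MeasureTheory Finset Filter Topology
open scoped Classical

namespace Pool.Agent.Work.MP_5cb0a4_pr.Z

/-- Pairs whose cells over `C` lie in `GP`. -/
theorem NCount_fibre {L b : ℕ} (hb : 1 ≤ b) (C : Finset V) (GP A : Finset ((V → V) × (V → V)))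
    (hA : A ⊆ PL L ×ˢ PL L) (hG : ∀ p ∈ A, ∀ c ∈ C, (cel b c p.1, cel b c p.2) ∈ GP) :
    A.card ≤ GP.card ^ C.card * 49 ^ (box L \ C.biUnion fun c => tr c (box (b - 1))).card := by
  set S := box L \ C.biUnion fun c => tr c (box (b - 1)) with hS
  have hE : ∀ p ∈ A, p.1 ∈ PL L ∧ p.2 ∈ PL L := fun p hp => mem_product.1 (hA hp)
  have key : ∀ ρ ∈ PL L, ∀ ρ' ∈ PL L, (∀ c ∈ C, cel b c ρ = cel b c ρ') → (∀ x ∈ S, ρ x = ρ' x) →
      ρ = ρ' := by
    intro ρ hρ ρ' hρ' h1 h2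
    funext x
    by_cases hx : x ∈ box L
    · by_cases hx' : x ∈ C.biUnion fun c => tr c (box (b - 1))
      · obtain ⟨c, hc, hxc⟩ := mem_biUnion.1 hx'
        have e := congrFun (h1 c hc) (x - c)
        rw [cel_apply (PL_isExt hρ) hb c (mem_tr.1 hxc), cel_apply (PL_isExt hρ') hb c (mem_tr.1 hxc),
          sub_add_cancel] at e
        exact sub_left_inj.1 e
      · exact h2 x (mem_sdiff.2 ⟨hx, hx'⟩)
    · rw [(mem_cls.1 (mem_filter.1 hρ).1).2 x hx, (mem_cls.1 (mem_filter.1 hρ').1).2 x hx]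
  have h1 : A.card ≤ ((C.pi fun _ => GP) ×ˢ (S.pi Cls_N ×ˢ S.pi Cls_N)).card := by
    refine card_le_card_of_injOn (fun p => (fun c _ => (cel b c p.1, cel b c p.2),
      fun x _ => p.1 x, fun x _ => p.2 x)) (fun p hp => ?_) fun p hp p' hp' e => ?_
    · exact mem_coe.2 (mem_product.2 ⟨mem_pi.2 fun c hc => hG p hp c hc, mem_product.2
        ⟨mem_pi.2 fun x _ => Cls_mem_N (PL_isExt (hE p hp).1) x,
          mem_pi.2 fun x _ => Cls_mem_N (PL_isExt (hE p hp).2) x⟩⟩)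
    · obtain ⟨e1, e2⟩ := Prod.ext_iff.1 e
      obtain ⟨e2, e3⟩ := Prod.ext_iff.1 e2
      refine Prod.ext (key _ (hE p hp).1 _ (hE p' hp').1 (fun c hc => ?_) fun x hx => ?_)
        (key _ (hE p hp).2 _ (hE p' hp').2 (fun c hc => ?_) fun x hx => ?_)
      · exact congrArg Prod.fst (congrFun (congrFun e1 c) hc)
      · exact congrFun (congrFun e2 x) hx
      · exact congrArg Prod.snd (congrFun (congrFun e1 c) hc)
      · exact congrFun (congrFun e3 x) hx
  have h2 : (S.pi Cls_N).card ≤ 7 ^ S.card := by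
    rw [card_pi]
    exact prod_le_pow_card _ _ _ fun x _ => Cls_card_N x
  rw [card_product, card_product, card_pi, prod_const] at h1
  refine h1.trans (Nat.mul_le_mul_left _ ((Nat.mul_le_mul h2 h2).trans_eq ?_))
  rw [← mul_pow]
  rfl

theorem NCount_card {L b J : ℕ} (hb : 1 ≤ b) (hL : ∀ c ∈ grid b J, tr c (box b) ⊆ box (L - 1))
    {C : Finset V} (hC : C ⊆ grid b J) :
    (box L \ C.biUnion fun c => tr c (box (b - 1))).card = (box L).card - C.card * (2 * b - 1) ^ 3 := by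
  have hs : ∀ c, tr c (box (b - 1)) ⊆ tr c (box b) := fun c =>
    image_subset_image (box_mono (Nat.sub_le _ _))
  rw [card_sdiff_of_subset (biUnion_subset.2 fun c hc =>
    ((hs c).trans (hL c (hC hc))).trans (box_mono (Nat.sub_le _ _))),
    card_biUnion fun c hc c' hc' hne => (grid_disj (hC hc) (hC hc') hne).mono (hs c) (hs c')]
  simp only [card_tr, card_box, sum_const, smul_eq_mul]
  rw [show 2 * (b - 1) + 1 = 2 * b - 1 by omega]

/-- Counting free pairs with few bad cells at one scale. -/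
theorem count_scale (s : Fin 3 → ℝ) {L b J : ℕ} (hb : 1 ≤ b) (lo hi l n₀ : ℕ) {θ : ℝ}
    (hθ : 0 < θ) (hL : ∀ c ∈ grid b J, tr c (box b) ⊆ box (L - 1)) :
    (((PL L ×ˢ PL L).filter fun p => ((grid b J).filter fun c =>
        θ < 2 * Rq s lo hi l (cel b c p.1) (cel b c p.2)).card ≤ n₀).card : ℝ) ≤
      4 ^ (grid b J).card *
        (max (((PL b).filter fun κ => Psp s lo hi l κ < θ).card : ℝ) 1) ^ (2 * (grid b J).card) *
        49 ^ ((2 * b + 1) ^ 3 * n₀ + ((box L).card - (grid b J).card * (2 * b - 1) ^ 3)) := by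
  set N := ((PL b).filter fun κ => Psp s lo hi l κ < θ).card with hN
  set E := (2 * b + 1) ^ 3 * n₀ + ((box L).card - (grid b J).card * (2 * b - 1) ^ 3) with hE
  have h1 := card_le_mul_card_image_of_maps_to (s := (PL L ×ˢ PL L).filter fun p =>
      ((grid b J).filter fun c => θ < 2 * Rq s lo hi l (cel b c p.1) (cel b c p.2)).card ≤ n₀)
    (f := fun p => (grid b J).filter fun c => θ < 2 * Rq s lo hi l (cel b c p.1) (cel b c p.2))
    (t := (grid b J).powerset) (fun p _ => mem_powerset.2 (filter_subset _ _))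
    ((2 * max N 1 ^ 2) ^ (grid b J).card * 49 ^ E) fun B hB => by
      have hB' := mem_powerset.1 hB
      by_cases hn : n₀ < B.card
      · rw [filter_eq_empty_iff.2 fun p hp e => ?_]
        · simp
        have := (mem_filter.1 hp).2
        rw [e] at this
        omega
      refine (NCount_fibre (L := L) hb (grid b J \ B)
        ((PL b ×ˢ PL b).filter fun κ => 2 * Rq s lo hi l κ.1 κ.2 ≤ θ) _
        ((filter_subset _ _).trans (filter_subset _ _)) fun p hp c hc => ?_).trans ?_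
      · obtain ⟨hp, e⟩ := mem_filter.1 hp
        obtain ⟨h1, h2⟩ := mem_product.1 (mem_filter.1 hp).1
        obtain ⟨hc, hc'⟩ := mem_sdiff.1 hc
        refine mem_filter.2 ⟨mem_product.2
          ⟨cel_mem_PL (PL_isExt h1) hb fun x hx => PL_ne h1 (hL c hc hx),
            cel_mem_PL (PL_isExt h2) hb fun x hx => PL_ne h2 (hL c hc hx)⟩, not_lt.1 fun h => hc' ?_⟩
        rw [← e]
        exact mem_filter.2 ⟨hc, h⟩
      · refine Nat.mul_le_mul ?_ (Nat.pow_le_pow_right (by norm_num) ?_)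
        · have a1 : 1 ≤ max N 1 := le_max_right _ _
          refine (Nat.pow_le_pow_left ((rec_count s b lo hi l hθ).trans
            (Nat.mul_le_mul_left 2 (Nat.pow_le_pow_left (le_max_left N 1) 2))) _).trans
            (Nat.pow_le_pow_right (by positivity) (card_le_card sdiff_subset))
        · rw [NCount_card hb hL sdiff_subset, card_sdiff_of_subset hB', Nat.sub_mul, hE]
          have a1 : B.card * (2 * b - 1) ^ 3 ≤ (2 * b + 1) ^ 3 * n₀ := by
            rw [mul_comm]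
            exact Nat.mul_le_mul (Nat.pow_le_pow_left (by omega) 3) (not_lt.1 hn)
          omega
  rw [card_powerset] at h1
  refine (Nat.cast_le.2 h1).trans_eq ?_
  push_cast
  rw [mul_pow, ← pow_mul, show (4 : ℝ) = 2 * 2 by norm_num, mul_pow]
  ring

end Pool.Agent.Work.MP_5cb0a4_pr.Z
end

-- merged part: Pool.Agent.Work.MP_5cb0a4_pr.N.LP2det
section
open MeasureTheory Finset Filter Topology
open scoped Classical

namespace Pool.Agent.Work.MP_5cb0a4_pr.Z

lemma NLP2det_hi {k : ℕ} (hk : 8 ≤ k) (b : ℕ) : rin b k + b / k + 3 * (b / k) ≤ b := by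
  have h1 : 8 * (b / k) ≤ b := (Nat.mul_le_mul_right _ hk).trans (Nat.mul_div_le b k)
  unfold rin
  omega

lemma NLP2det_near {m L R b t l : ℕ} (hR : 2 * m + 4 ≤ R) (hL : R + b ≤ L) {c : V}
    (hc : c ∈ grid b (nc b L R)) (ht : t ≤ b) {d : Dir} {p : ℕ × ℕ} (hp : p ∈ sqs t l) {x : V}
    (h1 : ∀ j, j ≠ d.1 → (corner d t l p + c) j ≤ x j ∧ x j < (corner d t l p + c) j + l)
    (h2 : (corner d t l p + c) d.1 - (2 * m + 2) ≤ x d.1) (h3 : x d.1 ≤ (corner d t l p + c) d.1) :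
    x ∈ box (L - 1) := by
  have h4 : Function.update x d.1 ((corner d t l p + c) d.1) - c ∈ sq d.1 (corner d t l p) l := by
    refine mem_sq.2 ⟨by simp, fun j hj => ?_⟩
    have := h1 j hj
    simp only [Pi.add_apply] at this
    simp only [Pi.sub_apply, Function.update_of_ne hj]
    omega
  have h5 := mem_box.1 (grid_nc hL hc (mem_tr.2 (box_mono ht (sq_corner_box hp h4))))
  refine mem_box.2 fun i => ?_
  have h6 := h5 i
  by_cases hi : i = d.1
  · rw [hi] at h6 ⊢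
    rw [Function.update_self] at h6
    omega
  · rw [Function.update_of_ne hi] at h6
    omega

lemma NLP2det_lsum_congr {lo hi l : ℕ} {f g : Dir → V → ℝ}
    (h : ∀ t ∈ Finset.Ioo lo hi, ∀ d, ∀ p ∈ sqs t l, f d (corner d t l p) = g d (corner d t l p)) :
    lsum lo hi l f = lsum lo hi l g :=
  le_antisymm (lsum_mono fun t ht d p hp => (h t ht d p hp).le)
    (lsum_mono fun t ht d p hp => (h t ht d p hp).ge)

theorem locU_HH (s : Fin 3 → ℝ) {m k J R L : ℕ} (b l : ℕ → ℕ) (θ : ℝ) (hk : 8 ≤ k)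
    (hR : 2 * m + 4 ≤ R) (hL : ∀ j < J, R + b j ≤ L) :
    LocU {v | v ∈ box (L - 1) ∧ Gap m v} (HH s m k J b l R θ L) := by
  intro U U' h
  refine propext (forall₂_congr fun j hj => ?_)
  refine iff_of_eq (congrArg (· ≤ _) (sum_congr rfl fun c hc =>
    NLP2det_lsum_congr fun t ht d p hp => congrArg (· ^ 2) (sum_congr rfl fun x hx => ?_)))
  have h0 := NLP2det_hi hk (b j)
  have h1 := (mem_Ioo.1 ht).2
  obtain ⟨h2, h3⟩ := mem_sq.1 hx
  have hm : (0 : ℤ) < 2 * (m : ℤ) + 2 := by positivity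
  have h4 := Int.emod_nonneg ((corner d t (l j) p + c) d.1 - (m + 1)) hm.ne'
  have h5 := Int.emod_lt_of_pos ((corner d t (l j) p + c) d.1 - (m + 1)) hm
  rw [pj, Function.update_self] at h2
  have h6 : ∀ i, i ≠ d.1 → (corner d t (l j) p + c) i ≤ x i ∧
      x i < (corner d t (l j) p + c) i + l j := fun i hi => by
    have h7 := h3 i hi
    rwa [pj, Function.update_of_ne hi] at h7
  have h8 : x ∈ box (L - 1) :=
    NLP2det_near hR (hL j hj) hc (by omega) hp h6 (by omega) (by omega)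
  rw [h x ⟨h8, gap_pj hx⟩]

/-- The bound for one cell. -/
lemma NLP2det_cell {s : Fin 3 → ℝ} (hs : n1 s ≤ 1) {m k L R b l T M : ℕ} (hk : 8 ≤ k)
    (hR : 2 * m + 4 ≤ R) (hL : R + b ≤ L) (hT : 1 ≤ T) (hl : T ≤ l)
    (hTb : 2 * T + 2 ≤ b / k) {ρ₁ ρ₂ : V → V} (h₁ : ρ₁ ∈ PL L) (h₂ : ρ₂ ∈ PL L) {c : V}
    (hc : c ∈ grid b (nc b L R)) :
    2 * Rq s (rin b k) (rin b k + b / k) l (cel b c ρ₁) (cel b c ρ₂) ≤
      2 * lsum (rin b k) (rin b k + b / k) l
        (fun d q => SQ s (un2 ρ₁ ρ₂) d (pj m d (q + c)) l ^ 2) +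
      2 * (l : ℝ) ^ 2 * (∑ x ∈ (box b).filter (Long (box b) M (cel b c ρ₁) (cel b c ρ₂)),
        aT ρ₁ ρ₂ T (x + c)) +
      (b : ℝ) ^ 3 * (27648 * (2 * (m : ℝ) + 2) ^ 2 + 24 * M + 2000 * T * l) := by
  have h0 := NLP2det_hi hk b
  have hb : 1 ≤ b := by omega
  have e₁ := PL_isExt h₁
  have e₂ := PL_isExt h₂
  have ce := grid_even hc
  have hin : tr c (box b) ⊆ box (L - 1) := (grid_nc hL hc).trans (box_mono (by omega))
  have p₁ := cel_mem_PL e₁ hb fun x hx => PL_ne h₁ (hin hx)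
  have p₂ := cel_mem_PL e₂ hb fun x hx => PL_ne h₂ (hin hx)
  have hJ := cell_J2 (isExt_cel e₁ b c) (isExt_cel e₂ b c) (b := b) (lo := rin b k)
    (hi := rin b k + b / k) (l := l) (T := T) (M := M)
    (fun x hx => ⟨PL_ne p₁ hx, PL_ne p₂ hx⟩) (by omega) hT hl
  have hA : ∑ x ∈ (box (rin b k + b / k + T)).filter (Long (box b) M (cel b c ρ₁) (cel b c ρ₂)),
      aT (cel b c ρ₁) (cel b c ρ₂) T x ≤
      ∑ x ∈ (box b).filter (Long (box b) M (cel b c ρ₁) (cel b c ρ₂)), aT ρ₁ ρ₂ T (x + c) := by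
    rw [sum_congr rfl fun x hx => aT_cel e₁ e₂ (by omega) ce (mem_filter.1 hx).1]
    exact sum_le_sum_of_subset_of_nonneg (filter_subset_filter _ (box_mono (by omega)))
      fun _ _ _ => aT_nonneg _ _ _ _
  have hl1 : (1 : ℝ) ≤ l := by exact_mod_cast hT.trans hl
  have hS : 2 * Rq s (rin b k) (rin b k + b / k) l (cel b c ρ₁) (cel b c ρ₂) ≤
      lsum (rin b k) (rin b k + b / k) l fun d q =>
        (2 * SQ s (un2 ρ₁ ρ₂) d (pj m d (q + c)) l ^ 2 +
          1152 * (2 * (m : ℝ) + 2) ^ 2 * (l : ℝ) ^ 2) + J2 (cel b c ρ₁) (cel b c ρ₂) d q l := by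
    rw [Rq, ← lsum_mul]
    refine lsum_mono fun t ht d p hp => ?_
    have h1 := (mem_Ioo.1 ht).2
    have hq : sq d.1 (corner d t l p) l ⊆ box (b - 1) :=
      (sq_corner_box hp).trans (box_mono (by omega))
    have k₁ := FQp_pj hs e₁ m d (corner d t l p + c) l fun x a1 a2 a3 =>
      PL_ne h₁ (NLP2det_near hR hL hc (by omega) hp a1 a2 a3)
    have k₂ := FQp_pj hs e₂ m d (corner d t l p + c) l fun x a1 a2 a3 =>
      PL_ne h₂ (NLP2det_near hR hL hc (by omega) hp a1 a2 a3)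
    rw [FQp_cel s e₁ hb ce d _ l hq, FQp_cel s e₂ hb ce d _ l hq, SQ_un2]
    generalize FQp s ρ₁ d (pj m d (corner d t l p + c)) l = a₁ at *
    generalize FQp s ρ₂ d (pj m d (corner d t l p + c)) l = a₂ at *
    generalize FQp s ρ₁ d (corner d t l p + c) l = b₁ at *
    generalize FQp s ρ₂ d (corner d t l p + c) l = b₂ at *
    have k₃ : (2 * (m : ℝ) + 2) * (8 * l + 4) ≤ (2 * (m : ℝ) + 2) * (12 * l) :=
      mul_le_mul_of_nonneg_left (by linarith only [hl1]) (by positivity)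
    have k₄ : |a₁ - b₁ + (a₂ - b₂)| ≤ 24 * (2 * (m : ℝ) + 2) * l :=
      (abs_add_le _ _).trans (by linarith only [k₁, k₂, k₃])
    have k₅ := pow_le_pow_left₀ (abs_nonneg _) k₄ 2
    rw [sq_abs] at k₅
    linarith only [k₅, sq_nonneg (a₁ + a₂ + (a₁ - b₁ + (a₂ - b₂))), sq_nonneg (a₁ + a₂ + (a₁ - b₁ + (a₂ - b₂)))]
  rw [lsum_add, lsum_add, lsum_mul] at hS
  have hC := lsum_const (rin b k) (rin b k + b / k) l
    (a := 1152 * (2 * (m : ℝ) + 2) ^ 2) (by positivity)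
  have hh : ((rin b k + b / k : ℕ) : ℝ) ^ 3 ≤ (b : ℝ) ^ 3 :=
    pow_le_pow_left₀ (by positivity) (by exact_mod_cast (by omega)) 3
  have h7 := mul_le_mul_of_nonneg_left hh
    (show (0 : ℝ) ≤ 24 * (1152 * (2 * (m : ℝ) + 2) ^ 2) by positivity)
  have h8 := mul_le_mul_of_nonneg_left hA (show (0 : ℝ) ≤ 2 * (l : ℝ) ^ 2 by positivity)
  linarith only [hJ, hS, hC, h7, h8]

/-- The bad cells at the scale given by the pigeonhole principle. -/
theorem few_bad {s : Fin 3 → ℝ} (hs : n1 s ≤ 1) {m k L R b l T r M : ℕ} (hk : 8 ≤ k)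
    (hR : 2 * m + 4 ≤ R) (hL : R + b ≤ L) (hr : 1 ≤ r) (hT : 1 ≤ T) (hM : 1 ≤ M) (hl : T ≤ l)
    (hTb : 2 * T + 2 ≤ b / k) (hrT : r * T + 1 ≤ R) {ρ₁ ρ₂ : V → V} (h₁ : ρ₁ ∈ PL L)
    (h₂ : ρ₂ ∈ PL L) :
    ∑ c ∈ grid b (nc b L R), 2 * Rq s (rin b k) (rin b k + b / k) l (cel b c ρ₁) (cel b c ρ₂) ≤
      2 * (∑ c ∈ grid b (nc b L R), lsum (rin b k) (rin b k + b / k) l
        (fun d q => SQ s (un2 ρ₁ ρ₂) d (pj m d (q + c)) l ^ 2)) +
      2 * (l : ℝ) ^ 2 * Dl ρ₁ ρ₂ T r (box (L - R)) +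
      (grid b (nc b L R)).card * (b : ℝ) ^ 3 * (27648 * (2 * (m : ℝ) + 2) ^ 2 + 24 * M +
        2000 * T * l + 54 * (l : ℝ) ^ 2 * (6 * b / (r * T : ℝ) + (r * T : ℝ) / M)) := by
  have h0 := NLP2det_hi hk b
  have hb : (1 : ℝ) ≤ b := by exact_mod_cast (by omega : 1 ≤ b)
  have h1 := sum_le_sum fun c hc => NLP2det_cell hs (M := M) hk hR hL hT hl hTb h₁ h₂ (c := c) hc
  have h2 := long_slow (PL_isExt h₁) (PL_isExt h₂) (r₀ := L - 1) (t := L - R) (b := b)
    (J := nc b L R) (fun x hx => ⟨PL_ne h₁ hx, PL_ne h₂ hx⟩) hr hT hM (by omega)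
    fun c hc => grid_nc hL hc
  rw [sum_add_distrib, sum_add_distrib, ← mul_sum, ← mul_sum, ← mul_sum, sum_const,
    nsmul_eq_mul] at h1
  rw [← mul_sum]
  have h3 : (2 * (b : ℝ) + 1) ^ 3 ≤ (3 * b) ^ 3 :=
    pow_le_pow_left₀ (by positivity) (by linarith only [hb]) 3
  have h4 := mul_le_mul_of_nonneg_right
    (mul_le_mul_of_nonneg_left h3 (Nat.cast_nonneg (grid b (nc b L R)).card))
    (show (0 : ℝ) ≤ 6 * b / (r * T : ℝ) + (r * T : ℝ) / M by positivity)
  have h5 := mul_le_mul_of_nonneg_left (h2.trans (add_le_add_right h4 _))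
    (show (0 : ℝ) ≤ 2 * (l : ℝ) ^ 2 by positivity)
  linarith only [h1, h5]

lemma NLP2det_cube (y w : ℕ) : (y + w) ^ 3 - y ^ 3 ≤ 3 * (y + w) ^ 2 * w :=
  tsub_le_iff_right.2 (Nat.le.intro (k := 3 * y * w ^ 2 + 2 * w ^ 3) (by ring))

lemma NLP2det_geo {b L R : ℕ} (hb : 1 ≤ b) (hR : 1 ≤ R) (hL : (2 * R + 4 * b + 3) * b ≤ L) :
    (grid b (nc b L R)).card * b ^ 3 ≤ L ^ 3 ∧
      ((box L).card - (grid b (nc b L R)).card * (2 * b - 1) ^ 3) * b ≤ 108 * L ^ 3 := by
  have h0 : 2 * R + 4 * b + 3 ≤ L := (Nat.le_mul_of_pos_right _ hb).trans hL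
  have h1 := Nat.mul_div_le (L - R - b) (2 * b + 2)
  have h2 := Nat.lt_mul_div_succ (L - R - b) (show 0 < 2 * b + 2 by omega)
  rw [card_grid, card_box, ← mul_pow, ← mul_pow]
  unfold nc
  generalize (L - R - b) / (2 * b + 2) = q at *
  obtain ⟨b, rfl⟩ : ∃ b', b = b' + 1 := ⟨b - 1, by omega⟩
  have e1 : (2 * (b + 1) + 2) * q = 2 * (q * b) + 4 * q := by ring
  have e2 : (2 * (b + 1) + 2) * (q + 1) = 2 * (q * b) + 4 * q + 2 * b + 4 := by ring
  have e3 : (2 * q + 1) * (b + 1) = 2 * (q * b) + 2 * q + b + 1 := by ring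
  have e4 : (2 * q + 1) * (2 * (b + 1) - 1) = 4 * (q * b) + 2 * q + 2 * b + 1 := by
    rw [show 2 * (b + 1) - 1 = 2 * b + 1 by omega]
    ring
  have h3 : (2 * q + 1) * (b + 1) ≤ L := by omega
  refine ⟨Nat.pow_le_pow_left h3 3, ?_⟩
  obtain ⟨w, hw⟩ : ∃ w, 2 * L + 1 = (2 * q + 1) * (2 * (b + 1) - 1) + w :=
    Nat.exists_eq_add_of_le (by omega)
  have h4 : w ≤ (2 * R + 4 * (b + 1) + 3) + 3 * (2 * q + 1) := by omega
  have h5 : w * (b + 1) ≤ 4 * L := by
    refine (Nat.mul_le_mul_right _ h4).trans ?_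
    rw [add_mul _ (3 * _), mul_assoc 3]
    omega
  have h6 := NLP2det_cube ((2 * q + 1) * (2 * (b + 1) - 1)) w
  rw [← hw] at h6
  have h7 : (2 * L + 1) ^ 2 ≤ (3 * L) ^ 2 := Nat.pow_le_pow_left (by omega) 2
  calc _ ≤ 3 * (2 * L + 1) ^ 2 * w * (b + 1) := Nat.mul_le_mul_right _ h6
    _ = 3 * (2 * L + 1) ^ 2 * (w * (b + 1)) := mul_assoc _ _ _
    _ ≤ 3 * (3 * L) ^ 2 * (4 * L) := Nat.mul_le_mul (Nat.mul_le_mul_left _ h7) h5
    _ = 108 * L ^ 3 := by ring

lemma NLP2det_shell {t T L : ℕ} (h : t + T ≤ L) (hL : 1 ≤ L) :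
    (box (t + T) \ box t).card ≤ 54 * T * L ^ 2 := by
  rw [card_sdiff_of_subset (box_mono (by omega)), card_box, card_box,
    show 2 * (t + T) + 1 = 2 * t + 1 + 2 * T by ring]
  refine (NLP2det_cube _ _).trans ?_
  have h7 : (2 * t + 1 + 2 * T) ^ 2 ≤ (3 * L) ^ 2 := Nat.pow_le_pow_left (by omega) 2
  calc _ ≤ 3 * (3 * L) ^ 2 * (2 * T) := Nat.mul_le_mul_right _ (Nat.mul_le_mul_left _ h7)
    _ = _ := by ring

lemma NLP2det_Rq (s : Fin 3 → ℝ) (lo hi l : ℕ) {Λ : Finset V} {κ₁ κ₂ : V → V}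
    (h₁ : κ₁ ∈ cls Λ id) (h₂ : κ₂ ∈ cls Λ id) : 0 ≤ Rq s lo hi l κ₁ κ₂ := by
  unfold Rq lsum
  refine sum_nonneg fun t _ => sum_nonneg fun d _ => sum_nonneg fun p _ => ?_
  have h := class_mean s h₁ h₂ d (corner d t l p) l
  have hp : (0 : ℝ) < (cpl Λ κ₁ κ₂).card := Nat.cast_pos.2 (card_pos.2 ⟨_, self_mem_cpl h₁ h₂⟩)
  refine nonneg_of_mul_nonneg_right ?_ hp
  rw [← h]
  exact sum_nonneg fun _ _ => by positivity

/-- The choice of the scales above a given time scale. -/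
lemma NLP2det_scale (m k C B : ℕ) (hk : 8 ≤ k) {η : ℝ} {K : ℕ} (hK1 : 1 ≤ K) (hK : 1 ≤ K * η)
    (T : ℕ) : ∃ b l r M : ℕ, (B ≤ l ∧ 1 ≤ l ∧ B ≤ b ∧ C * l ^ 3 ≤ b ^ 2) ∧ 1 ≤ r ∧ T ≤ l ∧
      2 * T + 2 ≤ b / k ∧ (1 ≤ T → 1 ≤ M ∧ 27648 * (2 * (m : ℝ) + 2) ^ 2 + 24 * M +
        2000 * T * l + 54 * (l : ℝ) ^ 2 * (6 * b / (r * T : ℝ) + (r * T : ℝ) / M) ≤
          5 * η * (l : ℝ) ^ 2) := by
  obtain ⟨u, u1, u2, u3, u4, u5, u6⟩ : ∃ u : ℕ, 1 ≤ u ∧ B ≤ u ∧ (2 * T + 2) * k ≤ u ∧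
      K * (27648 * (2 * m + 2) ^ 2) ≤ u ∧ K * (2000 * T) ≤ u ∧
      K * (24 * (54 * K * (324 * K * (C + 1) * T))) ≤ u :=
    ⟨1 + B + (2 * T + 2) * k + K * (27648 * (2 * m + 2) ^ 2) + K * (2000 * T) +
      K * (24 * (54 * K * (324 * K * (C + 1) * T))), by omega⟩
  have l1 : u ≤ u ^ 2 := Nat.le_self_pow two_ne_zero u
  have b1 : u ≤ (C + 1) * u ^ 3 :=
    (Nat.le_self_pow three_ne_zero u).trans (Nat.le_mul_of_pos_left _ (by omega))
  have t1 : 2 * T + 2 ≤ (2 * T + 2) * k := Nat.le_mul_of_pos_right _ (by omega)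
  have r1 : 0 < 324 * K * ((C + 1) * u ^ 3) := by positivity
  refine ⟨(C + 1) * u ^ 3, u ^ 2, 324 * K * ((C + 1) * u ^ 3),
    54 * K * (324 * K * ((C + 1) * u ^ 3) * T), ⟨by omega, by omega, by omega, ?_⟩, r1, by omega,
    (Nat.le_div_iff_mul_le (by omega)).2 (by omega), fun hT => ⟨Nat.succ_le_of_lt (by positivity), ?_⟩⟩
  · calc C * (u ^ 2) ^ 3 ≤ (C + 1) ^ 2 * (u ^ 2) ^ 3 :=
        Nat.mul_le_mul_right _ ((Nat.le_succ C).trans (Nat.le_self_pow two_ne_zero _))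
      _ = _ := by ring
  have hKp : (0 : ℝ) < K := Nat.cast_pos.2 hK1
  have hη : 0 < η := pos_of_mul_pos_right (one_pos.trans_le hK) hKp.le
  have key : ∀ x : ℕ, K * x ≤ u → (x : ℝ) ≤ η * u := fun x hx => by
    have h1 : (K : ℝ) * x ≤ u := by exact_mod_cast hx
    have h2 : (0 : ℝ) ≤ x := Nat.cast_nonneg x
    (refine le_of_not_gt fun h_nl => ?_; linarith only [h_nl, h1, hK, hKp, mul_nonneg_of_nonpos_of_nonpos (Mathlib.Tactic.Linarith.sub_nonpos_of_le (Mathlib.Tactic.Linarith.natCast_nonneg ℝ u)) (Mathlib.Tactic.Linarith.sub_nonpos_of_le hK), mul_pos_of_neg_of_neg (Mathlib.Tactic.Linarith.sub_neg_of_lt hKp) (Mathlib.Tactic.Linarith.sub_neg_of_lt h_nl)])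
  have k4 := key _ u4
  have k5 := key _ u5
  have k6 := key _ u6
  have hu : (1 : ℝ) ≤ u := by exact_mod_cast u1
  have hT' : (1 : ℝ) ≤ T := by exact_mod_cast hT
  have hC : (0 : ℝ) < C + 1 := by positivity
  push_cast at k4 k5 k6 ⊢
  have hi : 1 / (K : ℝ) ≤ η := (div_le_iff₀' hKp).2 hK
  have q1 : 6 * ((C + 1) * (u : ℝ) ^ 3) / (324 * K * ((C + 1) * u ^ 3) * T) ≤ η / 54 := by
    calc _ = 1 / (K : ℝ) / T / 54 := by field_simp; norm_num
      _ ≤ _ := by
        gcongr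
        exact (div_le_self (by positivity) hT').trans hi
  have q2 : 324 * K * ((C + 1) * (u : ℝ) ^ 3) * T /
      (54 * K * (324 * K * ((C + 1) * u ^ 3) * T)) ≤ η / 54 := by
    calc _ = 1 / (K : ℝ) / 54 := by field_simp
      _ ≤ _ := by gcongr
  have w1 : η * u ≤ η * ((u : ℝ) ^ 2) ^ 2 := by
    refine mul_le_mul_of_nonneg_left ?_ hη.le
    rw [← pow_mul]
    exact le_self_pow₀ hu (by norm_num)
  have w2 : η * u * (u : ℝ) ^ 2 ≤ η * ((u : ℝ) ^ 2) ^ 2 := by
    rw [mul_assoc, ← pow_succ', ← pow_mul]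
    exact mul_le_mul_of_nonneg_left (pow_le_pow_right₀ hu (by norm_num)) hη.le
  have w3 := mul_le_mul_of_nonneg_right k5 (show (0 : ℝ) ≤ (u : ℝ) ^ 2 by positivity)
  have w4 := mul_le_mul_of_nonneg_right k6 (show (0 : ℝ) ≤ (u : ℝ) ^ 3 by positivity)
  have w5 := mul_le_mul_of_nonneg_left (add_le_add q1 q2)
    (show (0 : ℝ) ≤ 54 * ((u : ℝ) ^ 2) ^ 2 by positivity)
  linarith only [k4, w1, w2, w3, w4, w5]

/-- Few cells are bad. -/
lemma NLP2det_bad {s : Fin 3 → ℝ} (hs : n1 s ≤ 1) {m k L R b l T r M : ℕ} (hk : 8 ≤ k)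
    (hR : 2 * m + 4 ≤ R) (hL : (2 * R + 4 * b + 3) * b ≤ L) (hr : 1 ≤ r) (hT : 1 ≤ T) (hM : 1 ≤ M)
    (hl : T ≤ l) (hTb : 2 * T + 2 ≤ b / k) (hrT : r * T + 1 ≤ R) {ρ₁ ρ₂ : V → V} (h₁ : ρ₁ ∈ PL L)
    (h₂ : ρ₂ ∈ PL L) {η c : ℝ} (hη : 0 < η) (hc : 0 < c)
    (h5 : 27648 * (2 * (m : ℝ) + 2) ^ 2 + 24 * M + 2000 * T * l +
      54 * (l : ℝ) ^ 2 * (6 * b / (r * T : ℝ) + (r * T : ℝ) / M) ≤ 5 * η * (l : ℝ) ^ 2)
    (hH : ∑ c ∈ grid b (nc b L R), lsum (rin b k) (rin b k + b / k) l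
        (fun d q => SQ s (un2 ρ₁ ρ₂) d (pj m d (q + c)) l ^ 2) ≤
      η * (grid b (nc b L R)).card * (b : ℝ) ^ 3 * (l : ℝ) ^ 2)
    (hD : Dl ρ₁ ρ₂ T r (box (L - R)) ≤ η * (L : ℝ) ^ 3) :
    ((grid b (nc b L R)).filter fun c' => c * (b : ℝ) ^ 3 * (l : ℝ) ^ 2 <
      2 * Rq s (rin b k) (rin b k + b / k) l (cel b c' ρ₁) (cel b c' ρ₂)).card ≤
      ⌊9 * η * (L : ℝ) ^ 3 / (c * (b : ℝ) ^ 3)⌋₊ := by
  have h0 := NLP2det_hi hk b
  have hb : 1 ≤ b := by omega
  have hb' : (0 : ℝ) < b := Nat.cast_pos.2 hb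
  have hl' : (0 : ℝ) < l := Nat.cast_pos.2 (by omega)
  have h1 : 2 * R + 4 * b + 3 ≤ L := (Nat.le_mul_of_pos_right _ hb).trans hL
  have h2 := few_bad hs hk hR (show R + b ≤ L by omega) hr hT hM hl hTb hrT h₁ h₂
  have h3 : ((grid b (nc b L R)).card : ℝ) * (b : ℝ) ^ 3 ≤ (L : ℝ) ^ 3 := by
    exact_mod_cast (NLP2det_geo hb (by omega) hL).1
  have h4 := card_nsmul_le_sum ((grid b (nc b L R)).filter fun c' => c * (b : ℝ) ^ 3 * (l : ℝ) ^ 2 <
      2 * Rq s (rin b k) (rin b k + b / k) l (cel b c' ρ₁) (cel b c' ρ₂))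
    (fun c' => 2 * Rq s (rin b k) (rin b k + b / k) l (cel b c' ρ₁) (cel b c' ρ₂)) _
    fun c' hc' => (mem_filter.1 hc').2.le
  have h6 := h4.trans (sum_le_sum_of_subset_of_nonneg (filter_subset _ _) fun c' _ _ =>
    mul_nonneg zero_le_two (NLP2det_Rq s _ _ l (cel_mem_cls (PL_isExt h₁) b c')
      (cel_mem_cls (PL_isExt h₂) b c')))
  rw [nsmul_eq_mul] at h6
  refine Nat.le_floor ((le_div_iff₀ (by positivity)).2
    (le_of_mul_le_mul_right ?_ (pow_pos hl' 2)))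
  have h7 := mul_le_mul_of_nonneg_left h5
    (show (0 : ℝ) ≤ (grid b (nc b L R)).card * (b : ℝ) ^ 3 by positivity)
  have h8 := mul_le_mul_of_nonneg_left hD (show (0 : ℝ) ≤ 2 * (l : ℝ) ^ 2 by positivity)
  have h9 := mul_le_mul_of_nonneg_left h3 (show (0 : ℝ) ≤ 7 * η * (l : ℝ) ^ 2 by positivity)
  linarith only [hH, h2, h6, h7, h8, h9]

lemma NLP2det_exp {ε c η : ℝ} (hε : 0 < ε) (hc : 0 < c) (hη : η = c * ε / 23328) {b L R : ℕ}
    (hb : 10464 / ε ≤ b) (hR : 1 ≤ R) (hL : (2 * R + 4 * b + 3) * b ≤ L) :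
    (4 : ℝ) ^ (grid b (nc b L R)).card *
      49 ^ ((2 * b + 1) ^ 3 * ⌊9 * η * (L : ℝ) ^ 3 / (c * (b : ℝ) ^ 3)⌋₊ +
        ((box L).card - (grid b (nc b L R)).card * (2 * b - 1) ^ 3)) ≤
      Real.exp (ε * (L : ℝ) ^ 3) := by
  have hb0 : (0 : ℝ) < b := lt_of_lt_of_le (by positivity) hb
  have hb1 : 1 ≤ b := Nat.cast_pos.1 hb0
  have hb2 : (1 : ℝ) ≤ b := by exact_mod_cast hb1
  obtain ⟨g1, g2⟩ := NLP2det_geo hb1 hR hL
  have g3 : (⌊9 * η * (L : ℝ) ^ 3 / (c * (b : ℝ) ^ 3)⌋₊ : ℝ) ≤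
      9 * η * (L : ℝ) ^ 3 / (c * (b : ℝ) ^ 3) := Nat.floor_le (by rw [hη]; positivity)
  generalize ⌊9 * η * (L : ℝ) ^ 3 / (c * (b : ℝ) ^ 3)⌋₊ = n₀ at *
  generalize (box L).card - (grid b (nc b L R)).card * (2 * b - 1) ^ 3 = X at *
  generalize (grid b (nc b L R)).card = n at *
  have e1 : (49 : ℝ) ≤ Real.exp 48 := by linarith only [Real.add_one_le_exp (48 : ℝ)]
  have e2 : (4 : ℝ) ^ n * 49 ^ ((2 * b + 1) ^ 3 * n₀ + X) ≤
      Real.exp 48 ^ n * Real.exp 48 ^ ((2 * b + 1) ^ 3 * n₀ + X) := by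
    gcongr
    linarith only [e1]
  rw [← pow_add, ← Real.exp_nat_mul] at e2
  refine e2.trans (Real.exp_le_exp.2 ?_)
  have g4 : (n : ℝ) * b ≤ (L : ℝ) ^ 3 := by
    exact_mod_cast (Nat.mul_le_mul_left n (Nat.le_self_pow three_ne_zero b)).trans g1
  have g5 : (X : ℝ) * b ≤ 108 * (L : ℝ) ^ 3 := by exact_mod_cast g2
  have g6 : (2 * (b : ℝ) + 1) ^ 3 * n₀ ≤ ε * (L : ℝ) ^ 3 / 96 := by
    calc _ ≤ (3 * (b : ℝ)) ^ 3 * (9 * η * (L : ℝ) ^ 3 / (c * (b : ℝ) ^ 3)) := by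
          gcongr
          linarith only [hb2]
      _ = _ := by
          rw [hη]
          field_simp
          ring
  have g7 : 10464 ≤ b * ε := (div_le_iff₀ hε).1 hb
  have g8 : (n : ℝ) + X ≤ ε * (L : ℝ) ^ 3 / 96 := by
    have h1 := mul_le_mul_of_nonneg_left g7 (show (0 : ℝ) ≤ n + X by positivity)
    have h2 := mul_le_mul_of_nonneg_right (add_le_add g4 g5) hε.le
    linarith only [h1, h2]
  push_cast
  linarith only [g6, g8]

/-- The number of free pairs with a typical union. -/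
theorem lp2_det {ε : ℝ} (hε : 0 < ε) (m : ℕ) {k : ℕ} (hk : 8 ≤ k) {c : ℝ} (hc : 0 < c) (C : ℕ) :
    ∃ θ : ℝ, 0 < θ ∧ ∃ J : ℕ, ∀ l₀ : ℕ, ∃ (b l : ℕ → ℕ) (R : ℕ),
      (∀ j, l₀ ≤ l j ∧ 1 ≤ l j ∧ l₀ ≤ b j ∧ C * l j ^ 3 ≤ b j ^ 2) ∧ 2 * m + 4 ≤ R ∧
      ∃ L₀ : ℕ, ∀ L ≥ L₀, ∀ s : Fin 3 → ℝ, n1 s ≤ 1 →
        Z2 L (ind (HH s m k J b l R θ L)) ≤ Real.exp (ε * (L : ℝ) ^ 3) * ∑ j ∈ range J,
          (max (Nn s (b j) k (l j) c : ℝ) 1) ^ (2 * (grid (b j) (nc (b j) L R)).card) := by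
  obtain ⟨η, hη⟩ : ∃ η : ℝ, η = c * ε / 23328 := ⟨_, rfl⟩
  have hη0 : 0 < η := by rw [hη]; positivity
  obtain ⟨K, hK⟩ := exists_nat_ge (1 / η)
  have hK0 : (0 : ℝ) < K := lt_of_lt_of_le (by positivity) hK
  have hK1 : 1 ≤ K := Nat.cast_pos.1 hK0
  have hK2 : 1 ≤ K * η := (div_le_iff₀ hη0).1 hK
  obtain ⟨B, hB⟩ := exists_nat_ge (10464 / ε)
  refine ⟨η, hη0, 54 * K, fun l₀ => ?_⟩
  choose b l r M hbl hr hl hTb hM using NLP2det_scale m k C (l₀ + B) hk hK1 hK2
  obtain ⟨T, T0, T1⟩ : ∃ T : ℕ → ℕ, T 0 = 1 ∧ ∀ j, T (j + 1) = r (T j) * T j :=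
    ⟨fun j => Nat.rec 1 (fun _ t => r t * t) j, rfl, fun _ => rfl⟩
  have Tm : Monotone T := monotone_nat_of_le_succ fun j => by
    rw [T1]
    exact Nat.le_mul_of_pos_left _ (hr _)
  have Tp : ∀ j, 1 ≤ T j := fun j => T0 ▸ Tm (Nat.zero_le j)
  obtain ⟨R, hR⟩ : ∃ R, R = 2 * m + 4 + T (54 * K) + 1 := ⟨_, rfl⟩
  refine ⟨fun j => b (T j), fun j => l (T j), R, fun j => ?_, by omega,
    ∑ j ∈ range (54 * K), (2 * R + 4 * b (T j) + 3) * b (T j) + 108 * K * T (54 * K) + R,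
    fun L hL s hs => ?_⟩
  · obtain ⟨h1, h2, h3, h4⟩ := hbl (T j)
    exact ⟨(Nat.le_add_right _ _).trans h1, h2, (Nat.le_add_right _ _).trans h3, h4⟩
  have L1 : ∀ j < 54 * K, (2 * R + 4 * b (T j) + 3) * b (T j) ≤ L := fun j hj => by
    have := single_le_sum (f := fun j => (2 * R + 4 * b (T j) + 3) * b (T j))
      (fun _ _ => Nat.zero_le _) (mem_range.2 hj)
    omega
  have L2 : 108 * K * T (54 * K) ≤ L := by omega
  have L3 : R ≤ L := by omega
  have b1 : ∀ j, 1 ≤ b (T j) := fun j => by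
    have h1 := hTb (T j)
    have h2 := NLP2det_hi hk (b (T j))
    omega
  let A : ℕ → (V → V) × (V → V) → Prop := fun j p =>
    ((grid (b (T j)) (nc (b (T j)) L R)).filter fun c' =>
      c * (b (T j) : ℝ) ^ 3 * (l (T j) : ℝ) ^ 2 <
        2 * Rq s (rin (b (T j)) k) (rin (b (T j)) k + b (T j) / k) (l (T j))
          (cel (b (T j)) c' p.1) (cel (b (T j)) c' p.2)).card ≤
      ⌊9 * η * (L : ℝ) ^ 3 / (c * (b (T j) : ℝ) ^ 3)⌋₊
  have key : ∀ p ∈ PL L ×ˢ PL L,
      HH s m k (54 * K) (fun j => b (T j)) (fun j => l (T j)) R η L (un2 p.1 p.2) →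
      ∃ j < 54 * K, A j p := fun p hp hH => by
    obtain ⟨h₁, h₂⟩ := mem_product.1 hp
    obtain ⟨j, hj, hD⟩ := exists_scale (PL_isExt h₁) (PL_isExt h₂) (r₀ := L - 1) (t := L - R)
      (J := 54 * K) (fun x hx => ⟨PL_ne h₁ hx, PL_ne h₂ hx⟩) T (fun j => r (T j))
      (fun _ => hr _) T1 (by omega) (by omega)
    have h3 : T (j + 1) ≤ T (54 * K) := Tm hj
    refine ⟨j, hj, NLP2det_bad hs hk (by omega) (L1 j hj) (hr _) (Tp j) (hM _ (Tp j)).1 (hl _)
      (hTb _) (by rw [← T1]; omega) h₁ h₂ hη0 hc (hM _ (Tp j)).2 (hH j hj) (hD.trans ?_)⟩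
    have h4 : ((box (L - R)).card : ℝ) ≤ 27 * (L : ℝ) ^ 3 := by
      have : (box (L - R)).card ≤ (3 * L) ^ 3 := by
        rw [card_box]
        exact Nat.pow_le_pow_left (by omega) 3
      calc _ ≤ (((3 * L) ^ 3 : ℕ) : ℝ) := Nat.cast_le.2 this
        _ = _ := by push_cast; ring
    have h5 : ((box (L - R + T (54 * K)) \ box (L - R)).card : ℝ) ≤
        54 * T (54 * K) * (L : ℝ) ^ 2 := by
      exact_mod_cast NLP2det_shell (L := L) (by omega) (by omega)
    have h6 : ((box (L - R)).card : ℝ) / (54 * K : ℕ) ≤ η * (L : ℝ) ^ 3 / 2 := by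
      have := mul_le_mul_of_nonneg_right hK2 (show (0 : ℝ) ≤ 27 * (L : ℝ) ^ 3 by positivity)
      push_cast
      rw [div_le_iff₀ (by positivity)]
      linarith only [h4, this]
    have h7 : (108 : ℝ) * K * T (54 * K) ≤ L := by exact_mod_cast L2
    have h8 := mul_le_mul_of_nonneg_right h7 (show (0 : ℝ) ≤ η * (L : ℝ) ^ 2 by positivity)
    have h9 := mul_le_mul_of_nonneg_right hK2
      (show (0 : ℝ) ≤ 108 * T (54 * K) * (L : ℝ) ^ 2 by positivity)
    linarith only [h5, h6, h8, h9]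
  rw [Z2, ← sum_product', mul_sum]
  calc _ ≤ ∑ p ∈ PL L ×ˢ PL L, ∑ j ∈ range (54 * K), if A j p then (1 : ℝ) else 0 := by
        refine sum_le_sum fun p hp => ?_
        have h0 : ∀ j ∈ range (54 * K), (0 : ℝ) ≤ if A j p then 1 else 0 := fun j _ => by
          split_ifs
          exacts [zero_le_one, le_rfl]
        unfold ind
        split_ifs with hH
        · obtain ⟨j, hj, hA⟩ := key p hp hH
          exact (if_pos hA).ge.trans (single_le_sum h0 (mem_range.2 hj))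
        · exact sum_nonneg h0
    _ ≤ _ := by
        rw [sum_comm]
        refine sum_le_sum fun j hj => ?_
        have h1 := L1 j (mem_range.1 hj)
        have h2 : 2 * R + 4 * b (T j) + 3 ≤ L := (Nat.le_mul_of_pos_right _ (b1 j)).trans h1
        have h3 : (0 : ℝ) < b (T j) := Nat.cast_pos.2 (b1 j)
        have h4 : (0 : ℝ) < l (T j) := Nat.cast_pos.2 (hbl (T j)).2.1
        have h5 := count_scale s (L := L) (J := nc (b (T j)) L R) (b1 j) (rin (b (T j)) k)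
          (rin (b (T j)) k + b (T j) / k) (l (T j)) ⌊9 * η * (L : ℝ) ^ 3 / (c * (b (T j) : ℝ) ^ 3)⌋₊
          (θ := c * (b (T j) : ℝ) ^ 3 * (l (T j) : ℝ) ^ 2) (by positivity)
          fun c' hc' => (grid_nc (by omega) hc').trans (box_mono (by omega))
        have h6 := NLP2det_exp hε hc hη (b := b (T j)) (L := L) (R := R)
          (hB.trans (Nat.cast_le.2 ((Nat.le_add_left _ _).trans (hbl (T j)).2.2.1))) (by omega) h1
        rw [sum_boole]
        refine h5.trans ?_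
        rw [mul_right_comm]
        exact mul_le_mul_of_nonneg_right h6 (by positivity)

end Pool.Agent.Work.MP_5cb0a4_pr.Z
end
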