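import Pool.Agent.Work.MP_5cb0a4_pr.N.QGDKa
import Pool.Agent.Work.MP_5cb0a4_pr.N.TransK
import Pool.Agent.Work.MP_5cb0a4_pr.N.LP2
import Pool.Agent.Work.MP_5cb0a4_pr.N.Gauge
import Pool.Agent.Work.MP_5cb0a4_pr.N.LP2det
import Pool.Agent.Work.MP_5cb0a4_pr.Z.Patch
import Pool.Agent.Work.MP_5cb0a4_pr.N.Posi
import Pool.Agent.Work.MP_5cb0a4_pr.Z.Paths

-- merged part: Pool.Agent.Work.MP_5cb0a4_pr.N.QGDK
section
open MeasureTheory Finset Filter Topology
open scoped Classical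

namespace Pool.Agent.Work.MP_5cb0a4_pr.Z

/-- A finite partition into invariant events on which `J` is almost constant. -/
lemma NQGDK_part {ν : Measure Dimer} {J : Dimer → Fin 3 → ℝ} (hJ : IsJ ν J) {κ η : ℝ}
    (hκ : 0 < κ) (hη : 0 < η) (hin : ∀ᵐ τ ∂ν, n1 (J τ) ≤ 1 - κ) :
    ∃ (Q : Finset (Fin 3 → ℤ)) (B : (Fin 3 → ℤ) → Set Dimer), (∀ q, AInv ν (B q)) ∧
      (∀ q, ∀ τ ∈ B q, n1 (J τ) ≤ 1 - κ ∧ ∀ τ' ∈ B q, ∀ i, |J τ' i - J τ i| ≤ η) ∧
      ∀ f : Dimer → ℝ, Integrable f ν → ∑ q ∈ Q, ∫ τ in B q, f τ ∂ν = ∫ τ, f τ ∂ν := by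
  have hn : Measurable n1 :=
    Finset.measurable_sum _ fun i _ => continuous_abs.measurable.comp (measurable_pi_apply i)
  have hm : Measurable fun (s : Fin 3 → ℝ) i => ⌊s i / η⌋ :=
    measurable_pi_lambda _ fun i => Measurable.floor (by fun_prop)
  let S : (Fin 3 → ℤ) → Set (Fin 3 → ℝ) := fun q =>
    {s | n1 s ≤ 1 - κ} ∩ (fun s i => ⌊s i / η⌋) ⁻¹' {q}
  have hB : ∀ q, AInv ν (J ⁻¹' S q) := fun q =>
    hJ.aInv ((measurableSet_le hn measurable_const).inter (hm (measurableSet_singleton q)))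
  refine ⟨Fintype.piFinset fun _ => Finset.Icc ⌊-1 / η⌋ ⌊1 / η⌋, fun q => J ⁻¹' S q, hB,
    fun q τ hτ => ⟨hτ.1, fun τ' hτ' i => ?_⟩, fun f hf => ?_⟩
  · have h1 := Int.abs_sub_lt_one_of_floor_eq_floor (congrFun (hτ'.2.trans hτ.2.symm) i)
    rw [← sub_div, abs_div, abs_of_pos hη, div_lt_one hη] at h1
    exact h1.le
  · rw [← integral_biUnion_finset _ (fun q _ => (hB q).1)
      (fun q _ q' _ e => Set.disjoint_left.2 fun τ h1 h2 => e (h1.2.symm.trans h2.2))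
      fun q _ => hf.integrableOn, Measure.restrict_eq_self_of_ae_mem]
    filter_upwards [hin] with τ hτ
    refine Set.mem_biUnion (x := fun i => ⌊J τ i / η⌋) ?_ ⟨hτ, rfl⟩
    refine mem_coe.2 (Fintype.mem_piFinset.2 fun i => ?_)
    have h1 : |J τ i| ≤ n1 (J τ) :=
      single_le_sum (f := fun i => |J τ i|) (fun _ _ => abs_nonneg _) (mem_univ i)
    obtain ⟨h2, h3⟩ := abs_le.1 (h1.trans (hτ.trans (sub_le_self _ hκ.le)))
    exact mem_Icc.2 ⟨Int.floor_le_floor (div_le_div_of_nonneg_right h2 hη.le),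
      Int.floor_le_floor (div_le_div_of_nonneg_right h3 hη.le)⟩

/-- the gap between two scales -/
noncomputable def NQGDK_G (D : Finset Edge) (M : Edge → Bool → Bool → ℝ) (m₀ N : ℕ)
    (σ : V → V) : ℝ :=
  2 * ∑ X ∈ (verts D).powerset, |cX D M X| *
    (Mr (box N) σ X - gam (box N) (fun σ => Mr (box m₀) σ X) σ)

lemma NQGDK_iX (ν : Measure Dimer) [IsFiniteMeasure ν] (a : ℝ) (m₀ N : ℕ) (X : Finset V) :
    Integrable (fun τ : Dimer =>
      a * (Mr (box N) τ.1 X - gam (box N) (fun σ => Mr (box m₀) σ X) τ.1)) ν :=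
  (((local_Mr _ _).integrable ν).sub ((local_gam (local_Mr _ _)).integrable ν)).const_mul _

lemma NQGDK_iG (ν : Measure Dimer) [IsFiniteMeasure ν] (D : Finset Edge)
    (M : Edge → Bool → Bool → ℝ) (m₀ N : ℕ) :
    Integrable (fun τ : Dimer => NQGDK_G D M m₀ N τ.1) ν :=
  (integrable_finsetSum _ fun X _ => NQGDK_iX ν _ m₀ N X).const_mul _

lemma NQGDK_iY (ν : Measure Dimer) [IsFiniteMeasure ν] (D : Finset Edge)
    (M : Edge → Bool → Bool → ℝ) (N : ℕ) :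
    Integrable (fun τ : Dimer => max (Ysum D M (Mr (box N) τ.1) - 1) 0) ν :=
  (QGD_loc1 (fun x => max (x - 1) 0) (QGD_locsum (Λ := box N) (verts D).powerset
    fun X _ => QGD_loc1 (fun x => cX D M X * x) (local_Mr (box N) X))).integrable ν

lemma NQGDK_gap {ν : Measure Dimer} (h : IM ν) (D : Finset Edge) (M : Edge → Bool → Bool → ℝ)
    {m₀ N : ℕ} {g : ℝ} (hg : ∀ X ∈ (verts D).powerset,
      ∫ τ, Mr (box N) τ.1 X ∂ν - ∫ τ, Mr (box m₀) τ.1 X ∂ν ≤ g) :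
    ∫ τ, NQGDK_G D M m₀ N τ.1 ∂ν ≤ 2 * ((∑ X ∈ (verts D).powerset, |cX D M X|) * g) := by
  have := h.prob
  unfold NQGDK_G
  rw [integral_const_mul, integral_finsetSum _ fun X _ => NQGDK_iX ν _ m₀ N X, sum_mul]
  refine mul_le_mul_of_nonneg_left (sum_le_sum fun X hX => ?_) zero_le_two
  rw [integral_const_mul,
    integral_sub ((local_Mr _ _).integrable ν) ((local_gam (local_Mr _ _)).integrable ν),
    h.dlr (box N) _ _ (local_Mr (box m₀) X)]
  exact mul_le_mul_of_nonneg_left (hg X hX) (abs_nonneg _)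

/-- The bound on one cell. -/
lemma NQGDK_cell {ν : Measure Dimer} (h : KM ν) {J : Dimer → Fin 3 → ℝ} (hJ : IsJ ν J)
    {D : Finset Edge} (M : Edge → Bool → Bool → ℝ) (hM : ∀ e ∈ D, ContrR (M e)) {m₀ C : ℕ}
    (hD : verts D ⊆ box m₀) {K c η δ : ℝ} (hK : 0 < K) (hη : 0 < η) (hc : 48 * η ^ 2 < c)
    (hδ : 0 < δ) {B : Set Dimer} (hB : AInv ν B) (h0 : 0 < ν.real B) {s : Fin 3 → ℝ}
    (hs : n1 s ≤ 1) (hp : PatchAt s 8 c C) (hc' : ∀ τ ∈ B, ∀ i, |J τ i - s i| ≤ η) :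
    ∀ᶠ N : ℕ in atTop, ∫ τ in B, max (Ysum D M (Mr (box N) τ.1) - 1) 0 ∂ν ≤
      ∫ τ in B, NQGDK_G D M m₀ N τ.1 ∂ν + ν.real B * ((∑ X ∈ (verts D).powerset, |cX D M X|) *
        (7 ^ (box m₀).card * (120 * K * η ^ 2 / c) + Real.exp (-K))) + δ := by
  have := h.im.prob
  have c0 : 0 < c := lt_trans (by positivity) hc
  set Cw := ∑ X ∈ (verts D).powerset, |cX D M X| with hCw
  have hCw0 : 0 ≤ Cw := sum_nonneg fun _ _ => abs_nonneg _
  obtain ⟨l₀, hl₀⟩ := hJ.cell h.im (η := η ^ 2 * ν.real B) (by positivity)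
  have hl1 : 1 ≤ l₀ + 1 := by omega
  have hP := int_Psp (ν.restrict B) (by positivity)
    (hl₀ (l₀ + 1) (by omega) B s η hB.1 hs hc')
  generalize l₀ + 1 = l at hl1 hP
  obtain ⟨m₁, hm₁⟩ := QGD_theta hK c0 hl1
  obtain ⟨m, hmb, hmm, hm8, hm0⟩ : ∃ m : ℕ, C * l ^ 3 ≤ m ∧ m₁ ≤ m ∧ 8 ≤ m ∧ m₀ < rin m 8 :=
    ⟨C * l ^ 3 + m₁ + 8 + 2 * m₀, by omega, by omega, by omega, by unfold rin; omega⟩
  obtain ⟨θ, hθ, hθl, hθK⟩ := hm₁ m hmm
  have mpos : (0 : ℝ) < m := by exact_mod_cast (by omega : 0 < m)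
  have lpos : (0 : ℝ) < l := by exact_mod_cast hl1
  obtain ⟨τ', hτ'⟩ : ∃ τ' : Dimer, PsI s m 8 l τ'.1 < c * (m : ℝ) ^ 3 * (l : ℝ) ^ 2 := by
    clear * - s m l c ν B this η hP m₀ C m₁ hη h0 hl1 hc hm8
    by_contra! hn
    have h1 := integral_mono (μ := ν.restrict B) (integrable_const _)
      ((local_Psp s _ _ l).integrable _) hn
    have h2 := hP (rin m 8) (rin m 8 + m / 8)
    have h3 : ((rin m 8 + m / 8 : ℕ) : ℝ) ^ 3 ≤ (m : ℝ) ^ 3 :=
      pow_le_pow_left₀ (Nat.cast_nonneg _) (Nat.cast_le.2 (by unfold rin; omega)) 3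
    rw [setIntegral_const, smul_eq_mul] at h1
    have h4 := mul_le_mul_of_nonneg_left h3
      (show 0 ≤ 48 * η ^ 2 * ν.real B * (l : ℝ) ^ 2 by positivity)
    have h5 := mul_lt_mul_of_pos_right hc
      (show 0 < ν.real B * (m : ℝ) ^ 3 * (l : ℝ) ^ 2 by positivity)
    linarith only [h1, h2, h4, h5]
  have ht := transferK h m (bK s D M m l θ K) _ (bK_local s D M m l θ K)
    (bK_mix s hD hm0 hm8 M hM l θ K) fun ρ _ hz =>
      bK_nonneg hs hD hm0 M hθ hθl hθK.ge (fun σ hσ h1 h2 h3 => by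
        obtain ⟨ρ', hρ', -⟩ := hp l m hl1 (hmb.trans (Nat.le_self_pow two_ne_zero m)) σ τ'.1 hσ
          (isExt_dimer τ') (fun x _ => Cls2_nbr_ne (τ'.2 x).1) h1 h2 h3 hτ'
        exact card_pos.2 ⟨ρ', hρ'⟩) hz
  filter_upwards [(tendsto_order.1 ht).2 δ hδ, eventually_ge_atTop m] with N hN hNm
  have lV : Local (box m) fun ρ =>
      (∑ σ ∈ cls (box m) ρ, bK s D M m l θ K σ) / (zz (box m) ρ : ℝ) := by
    have := local_sum_cls (Λ := box m) (bK_local s D M m l θ K)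
    rw [union_self] at this
    exact QGD_loc2 (fun (a : ℝ) (n : ℕ) => a / n) this (local_Zm _ ∅)
  have lO : Local (box m) (PsO s m 8 l) := local_Psp s _ _ l
  have i1 := NQGDK_iG (ν.restrict B) D M m₀ N
  have i2 := ((local_gam (Λ := box N) lO).integrable (ν.restrict B)).const_mul
    (Cw * 7 ^ (box m₀).card * (θ ^ 2 / 2))
  have l3 := QGD_loc1 (fun x => max (x - (1 + Real.exp (-K) * Cw)) 0) (local_gam (Λ := box N) lV)
  have i3 := l3.integrable (ν.restrict B)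
  have hmono := integral_mono (NQGDK_iY (ν.restrict B) D M N)
    (((i1.add i2).add i3).add (integrable_const _)) fun τ => bK_point hs hD hm0 hNm M K hθ hθl τ
  rw [integral_add' ((i1.add i2).add i3) (integrable_const _), integral_add' (i1.add i2) i3,
    integral_add' i1 i2, integral_const_mul, h.im.dlr_inv hB (box N) lO, setIntegral_const,
    smul_eq_mul] at hmono
  have e3 := setIntegral_le_integral (s := B) (l3.integrable ν)
    (Eventually.of_forall fun τ => le_max_right _ _)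
  have e2 := mul_le_mul_of_nonneg_left (hP (m - m / 8) m)
    (show 0 ≤ Cw * 7 ^ (box m₀).card * (θ ^ 2 / 2) by clear * - Cw m₀ θ D M; positivity)
  have e4 : Cw * 7 ^ (box m₀).card * (θ ^ 2 / 2) *
      (24 * (η ^ 2 * ν.real B + η ^ 2 * ν.real B) * (m : ℝ) ^ 3 * (l : ℝ) ^ 2) =
        ν.real B * (Cw * (7 ^ (box m₀).card * (120 * K * η ^ 2 / c))) := by
    clear * - Cw m₀ θ η ν B m l K c hθK c0 hl1 hm8 h0 hη
    rw [show 120 * K = 24 * (5 * K) by ring, ← hθK]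
    field_simp
    ring
  unfold PsO at hmono
  clear * - ν B D M N m₀ Cw K η c δ m s l θ hN hmono e3 e2 e4; linarith only [hN, hmono, e3, e2, e4]

/-- Quenched Gaussian domination when the local current stays in the interior: partition by the
integer part of `J / η` and centre the soft factor in each cell. -/
theorem qgdK {ν : Measure Dimer} (h : KM ν) {J : Dimer → Fin 3 → ℝ} (hJ : IsJ ν J) {κ : ℝ}
    (hκ : 0 < κ) (hin : ∀ᵐ τ ∂ν, n1 (J τ) ≤ 1 - κ) (D : Finset Edge)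
    (M : Edge → Bool → Bool → ℝ) (hM : ∀ e ∈ D, ContrR (M e)) :
    Tendsto (fun N : ℕ => ∫ τ, max (Ysum D M (Mr (box N) τ.1) - 1) 0 ∂ν) atTop (𝓝 0) := by
  have := h.im.prob
  refine tendsto_order.2 ⟨fun a ha => Eventually.of_forall fun N =>
    ha.trans_le (integral_nonneg fun τ => le_max_right _ _), fun ε hε => ?_⟩
  set Cw := ∑ X ∈ (verts D).powerset, |cX D M X| with hCw
  have hCw0 : 0 ≤ Cw := sum_nonneg fun _ _ => abs_nonneg _
  set g := ε / (8 * (Cw + 1)) with hg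
  have hg0 : 0 < g := by positivity
  have hgC : Cw * g ≤ ε / 8 := by
    rw [hg, mul_div_assoc', div_le_div_iff₀ (by positivity) (by norm_num)]
    linarith only [hε]
  obtain ⟨K, hK, hKg⟩ : ∃ K : ℝ, 0 < K ∧ Real.exp (-K) ≤ g := by
    refine ⟨1 / g, by positivity, ?_⟩
    rw [Real.exp_neg, inv_le_comm₀ (Real.exp_pos _) hg0, ← one_div]
    linarith only [Real.add_one_le_exp (1 / g)]
  obtain ⟨m₀, hD, hgap⟩ := gap_allK h (verts D) hg0
  obtain ⟨c, hc, C, hp⟩ := patchP hκ 8 le_rfl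
  obtain ⟨η, hη, h1, h2⟩ : ∃ η : ℝ, 0 < η ∧ 48 * η ^ 2 < c ∧
      7 ^ (box m₀).card * (120 * K * η ^ 2 / c) ≤ g := by
    clear * - c g K m₀ hc ε Cw hε D M hK hg0
    have a0 : 0 < min (c / 49) (c * g / (120 * K * 7 ^ (box m₀).card)) := by positivity
    refine ⟨_, Real.sqrt_pos.2 a0, ?_, ?_⟩ <;> rw [Real.sq_sqrt a0.le]
    · linarith only [a0, min_le_left (c / 49) (c * g / (120 * K * 7 ^ (box m₀).card))]
    · refine (mul_le_mul_of_nonneg_left (div_le_div_of_nonneg_right (mul_le_mul_of_nonneg_left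
        (min_le_right _ _) (by positivity)) hc.le) (by positivity)).trans (le_of_eq ?_)
      field_simp
  obtain ⟨Q, B, hB, hBJ, hsum⟩ := NQGDK_part hJ hκ hη hin
  have hδ : 0 < ε / (8 * (Q.card + 1)) := by clear * - ε Q hε; positivity
  have key : ∀ q ∈ Q, ∀ᶠ N : ℕ in atTop,
      ∫ τ in B q, max (Ysum D M (Mr (box N) τ.1) - 1) 0 ∂ν ≤
        ∫ τ in B q, NQGDK_G D M m₀ N τ.1 ∂ν + ν.real (B q) * (Cw *
          (7 ^ (box m₀).card * (120 * K * η ^ 2 / c) + Real.exp (-K))) +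
            ε / (8 * (Q.card + 1)) := fun q _ => by
    rcases (measureReal_nonneg (μ := ν) (s := B q)).eq_or_lt with e | e
    · have e' := Measure.restrict_eq_zero.2 ((measureReal_eq_zero_iff (measure_ne_top _ _)).1 e.symm)
      refine Eventually.of_forall fun N => ?_
      rw [e', integral_zero_measure, integral_zero_measure, ← e, zero_mul, add_zero, zero_add]
      exact hδ.le
    · obtain ⟨τ, hτ⟩ := (B q).eq_empty_or_nonempty.resolve_left fun e' => by simp [e'] at e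
      obtain ⟨k1, k2⟩ := hBJ q τ hτ
      exact NQGDK_cell h hJ M hM hD hK hη h1 hδ (hB q) e (k1.trans (sub_le_self _ hκ.le))
        (hp _ k1) k2
  filter_upwards [(eventually_all_finset Q).2 key, eventually_ge_atTop m₀] with N hN hNm
  have e1 := sum_le_sum hN
  have e2 := hsum (fun _ => 1) (integrable_const _)
  simp only [integral_const, smul_eq_mul, mul_one, probReal_univ, measureReal_restrict_apply_univ]
    at e2
  rw [sum_add_distrib, sum_add_distrib, hsum _ (NQGDK_iY ν D M N), hsum _ (NQGDK_iG ν D M m₀ N),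
    ← sum_mul, e2, sum_const, nsmul_eq_mul] at e1
  have e3 := NQGDK_gap h.im D M fun X hX => hgap X hX N hNm
  have e4 := mul_le_mul_of_nonneg_left (add_le_add h2 hKg) hCw0
  have e5 : (Q.card : ℝ) * (ε / (8 * (Q.card + 1))) ≤ ε / 8 := by
    clear * - Q ε hε
    rw [mul_div_assoc', div_le_div_iff₀ (by positivity) (by norm_num)]
    linarith only [hε]
  clear * - ν D M N ε Cw g m₀ K η c Q hε hgC e1 e3 e4 e5; linarith only [hε, hgC, e1, e3, e4, e5]

end Pool.Agent.Work.MP_5cb0a4_pr.Z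
end

-- merged part: Pool.Agent.Work.MP_5cb0a4_pr.N.CaseBa
section
open MeasureTheory Finset Filter Topology
open scoped Classical

namespace Pool.Agent.Work.MP_5cb0a4_pr.Z

/-- The even points of `Λ` are matched in the directions `σ`. -/
def Mono (σ : Fin 3 → Bool) (Λ : Finset V) (ρ : V → V) : Prop :=
  ∀ x ∈ Λ, IsEven x → ∃ i, ρ x = x + dv (i, σ i)

/-- In the cell with centre `c` the pair can be refilled with a double edge at the centre. -/
def Rep (b : ℕ) (c : V) (κ₁ κ₂ : V → V) : Prop :=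
  ∃ ρ₁ ∈ perf (tr c (box b)) κ₁, ∃ ρ₂ ∈ perf (tr c (box b)) κ₂, ρ₁ c = ρ₂ c

theorem NCaseBa_class {α β : Type} [DecidableEq β] (s : Finset α) (π : α → β) (f G : α → ℝ)
    (hG0 : ∀ a ∈ s, 0 ≤ G a) (hG : ∀ a ∈ s, ∀ a' ∈ s, π a = π a' → G a = G a')
    (hf : ∀ a ∈ s, ∑ a' ∈ s.filter (fun a' => π a' = π a), f a' ≤
      (s.filter fun a' => π a' = π a).card) : ∑ a ∈ s, f a * G a ≤ ∑ a ∈ s, G a := by
  have hm : ∀ a ∈ s, π a ∈ s.image π := fun a ha => mem_image_of_mem π ha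
  rw [← sum_fiberwise_of_maps_to hm, ← sum_fiberwise_of_maps_to hm G]
  refine sum_le_sum fun y hy => ?_
  obtain ⟨a, ha, rfl⟩ := mem_image.1 hy
  have e : ∀ a' ∈ s.filter (fun a' => π a' = π a), G a' = G a := fun a' h =>
    hG a' (mem_filter.1 h).1 a ha (mem_filter.1 h).2
  rw [sum_congr rfl fun a' h => by rw [e a' h], sum_congr rfl e, ← sum_mul, sum_const,
    nsmul_eq_mul]
  exact mul_le_mul_of_nonneg_right (hf a ha) (hG0 a ha)

theorem NCaseBa_self (b : ℕ) (c : V) : c ∈ tr c (box b) :=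
  mem_tr.2 (mem_box.2 fun i => by simp)

theorem NCaseBa_sub {b J : ℕ} {c : V} (h : c ∈ grid b J) : tr c (box b) ⊆ box (gL b J - 1) :=
  grid_sub h

theorem NCaseBa_perf {L : ℕ} {Λ : Finset V} (hΛ : Λ ⊆ box (L - 1)) {κ ρ : V → V} (hκ : κ ∈ PL L)
    (hρ : ρ ∈ perf Λ κ) : ρ ∈ PL L := by
  obtain ⟨⟨h1, h2⟩, h3⟩ := mem_perf.1 hρ
  obtain ⟨h4, h5⟩ := mem_filter.1 hκ
  refine mem_filter.2 ⟨mem_cls.2 ⟨h1, fun x hx => ?_⟩, fun x hx => ?_⟩
  · rw [h2 x fun h => hx (box_mono (Nat.sub_le _ _) (hΛ h))]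
    exact (mem_cls.1 h4).2 x hx
  · obtain ⟨hx1, hx2⟩ := mem_mon.1 hx
    exact h5 (mem_mon.2 ⟨hx1, by rw [← h2 x fun h => h3 x h hx2, hx2]⟩)

theorem NCaseBa_rep_loc {b : ℕ} {c : V} {κ₁ κ₂ κ₁' κ₂' : V → V} (h₁ : IsExt κ₁) (h₂ : IsExt κ₂)
    (h₁' : IsExt κ₁') (h₂' : IsExt κ₂') (e₁ : ∀ x ∈ tr c (box b), κ₁ x = κ₁' x)
    (e₂ : ∀ x ∈ tr c (box b), κ₂ x = κ₂' x) (h : Rep b c κ₁ κ₂) : Rep b c κ₁' κ₂' := by
  obtain ⟨ρ₁, r₁, ρ₂, r₂, e⟩ := h
  have key : ∀ {κ κ' ρ : V → V}, IsExt κ → IsExt κ' → (∀ x ∈ tr c (box b), κ x = κ' x) →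
      ρ ∈ perf (tr c (box b)) κ →
      (fun x => if x ∈ tr c (box b) then ρ x else κ' x) ∈ perf (tr c (box b)) κ' := by
    intro κ κ' ρ a a' e r
    refine mem_perf.2 ⟨mem_cls.1 (Cls_glue a a' e (mem_filter.1 r).1), fun x hx => ?_⟩
    simp only [hx, if_true]
    exact (mem_perf.1 r).2 x hx
  refine ⟨_, key h₁ h₁' e₁ r₁, _, key h₂ h₂' e₂ r₂, ?_⟩
  simp only [NCaseBa_self, if_true]
  exact e

theorem NCaseBa_rep_off {b : ℕ} {c : V} {κ₁ κ₂ κ₁' κ₂' : V → V}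
    (e₁ : ∀ x ∉ tr c (box b), κ₁ x = κ₁' x) (e₂ : ∀ x ∉ tr c (box b), κ₂ x = κ₂' x) :
    Rep b c κ₁ κ₂ ↔ Rep b c κ₁' κ₂' := by
  simp only [Rep, perf, cls_eq e₁, cls_eq e₂]

/-- The factor of one cell. -/
noncomputable def NCaseBa_f (b : ℕ) (c : V) (p : (V → V) × (V → V)) : ℝ :=
  1 + (if Rep b c p.1 p.2 then 1 / (49 : ℝ) ^ (box b).card else 0) -
    if p.1 c = p.2 c then 1 else 0

theorem NCaseBa_f_nonneg (b : ℕ) (c : V) (p : (V → V) × (V → V)) : 0 ≤ NCaseBa_f b c p := by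
  have : (0 : ℝ) < 1 / (49 : ℝ) ^ (box b).card := by positivity
  unfold NCaseBa_f
  split_ifs <;> linarith only [this]

/-- The configuration outside a set. -/
noncomputable def NCaseBa_pi (Λ : Finset V) (p : (V → V) × (V → V)) : (V → V) × (V → V) :=
  (fun x => if x ∈ Λ then x else p.1 x, fun x => if x ∈ Λ then x else p.2 x)

theorem NCaseBa_pi_iff {Λ : Finset V} {p p' : (V → V) × (V → V)} :
    NCaseBa_pi Λ p = NCaseBa_pi Λ p' ↔ (∀ x ∉ Λ, p.1 x = p'.1 x) ∧ ∀ x ∉ Λ, p.2 x = p'.2 x := by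
  simp only [NCaseBa_pi, Prod.mk.injEq, funext_iff]
  refine and_congr (forall_congr' fun x => ?_) (forall_congr' fun x => ?_) <;>
    by_cases h : x ∈ Λ <;> simp [h]

theorem NCaseBa_cell {L b : ℕ} {c : V} (hc : tr c (box b) ⊆ box (L - 1))
    {p : (V → V) × (V → V)} (hp : p ∈ PL L ×ˢ PL L) :
    ∑ p' ∈ (PL L ×ˢ PL L).filter (fun p' => NCaseBa_pi (tr c (box b)) p' =
      NCaseBa_pi (tr c (box b)) p), NCaseBa_f b c p' ≤
      ((PL L ×ˢ PL L).filter fun p' => NCaseBa_pi (tr c (box b)) p' =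
        NCaseBa_pi (tr c (box b)) p).card := by
  set K := (PL L ×ˢ PL L).filter fun p' => NCaseBa_pi (tr c (box b)) p' =
    NCaseBa_pi (tr c (box b)) p with hK
  have hr : ∀ p' ∈ K, (Rep b c p'.1 p'.2 ↔ Rep b c p.1 p.2) := fun p' h =>
    NCaseBa_rep_off (NCaseBa_pi_iff.1 (mem_filter.1 h).2).1 (NCaseBa_pi_iff.1 (mem_filter.1 h).2).2
  by_cases h : Rep b c p.1 p.2
  · have e : ∀ p' ∈ K, NCaseBa_f b c p' = 1 + 1 / (49 : ℝ) ^ (box b).card -
        if p'.1 c = p'.2 c then 1 else 0 := fun p' h' => by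
      rw [NCaseBa_f, if_pos ((hr p' h').2 h)]
    rw [sum_congr rfl e, sum_sub_distrib, sum_const, nsmul_eq_mul]
    obtain ⟨ρ₁, r₁, ρ₂, r₂, e'⟩ := h
    have hm : (ρ₁, ρ₂) ∈ K := mem_filter.2 ⟨mem_product.2
      ⟨NCaseBa_perf hc (mem_product.1 hp).1 r₁, NCaseBa_perf hc (mem_product.1 hp).2 r₂⟩,
      NCaseBa_pi_iff.2 ⟨(mem_perf.1 r₁).1.2, (mem_perf.1 r₂).1.2⟩⟩
    have h1 : (1 : ℝ) ≤ ∑ p' ∈ K, if p'.1 c = p'.2 c then (1 : ℝ) else 0 := by
      refine le_trans ?_ (single_le_sum (f := fun p' : (V → V) × (V → V) =>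
        if p'.1 c = p'.2 c then (1 : ℝ) else 0) (fun p' _ => by positivity) hm)
      simp [e']
    have h2 : K.card ≤ 49 ^ (box b).card := by
      have : K ⊆ cls (tr c (box b)) p.1 ×ˢ cls (tr c (box b)) p.2 := fun p' h' => by
        obtain ⟨a, a'⟩ := mem_filter.1 h'
        exact mem_product.2 ⟨mem_cls.2 ⟨PL_isExt (mem_product.1 a).1, (NCaseBa_pi_iff.1 a').1⟩,
          mem_cls.2 ⟨PL_isExt (mem_product.1 a).2, (NCaseBa_pi_iff.1 a').2⟩⟩
      refine (card_le_card this).trans ?_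
      rw [card_product, show 49 = 7 * 7 from rfl, mul_pow, ← card_tr c]
      exact Nat.mul_le_mul (card_cls_le _ _) (card_cls_le _ _)
    have h3 : (K.card : ℝ) * (1 / (49 : ℝ) ^ (box b).card) ≤ 1 := by
      rw [mul_one_div, div_le_one (by positivity)]
      exact_mod_cast h2
    linarith only [h1, h3]
  · rw [card_eq_sum_ones, Nat.cast_sum]
    refine sum_le_sum fun p' h' => ?_
    rw [NCaseBa_f, if_neg fun a => h ((hr p' h').1 a)]
    split_ifs <;> norm_num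

theorem NCaseBa_prod {L b : ℕ} (C : Finset V) (hC : ∀ c ∈ C, tr c (box b) ⊆ box (L - 1))
    (hd : ∀ c ∈ C, ∀ c' ∈ C, c ≠ c' → Disjoint (tr c (box b)) (tr c' (box b))) :
    ∑ p ∈ PL L ×ˢ PL L, ∏ c ∈ C, NCaseBa_f b c p ≤ ((PL L).card : ℝ) ^ 2 := by
  induction C using Finset.induction_on with
  | empty => simp [pow_two]
  | insert c C hc ih =>
    simp only [prod_insert hc]
    refine (NCaseBa_class _ (NCaseBa_pi (tr c (box b))) _ _
      (fun p _ => prod_nonneg fun c' _ => NCaseBa_f_nonneg b c' p) (fun p hp p' hp' e => ?_)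
      fun p hp => NCaseBa_cell (hC c (mem_insert_self _ _)) hp).trans
      (ih (fun c' h => hC c' (mem_insert_of_mem h)) fun c₁ h₁ c₂ h₂ =>
        hd c₁ (mem_insert_of_mem h₁) c₂ (mem_insert_of_mem h₂))
    refine prod_congr rfl fun c' hc' => ?_
    have hdis := disjoint_right.1 (hd c (mem_insert_self _ _) c' (mem_insert_of_mem hc')
      fun h => hc (h ▸ hc'))
    obtain ⟨e₁, e₂⟩ := NCaseBa_pi_iff.1 e
    have a₁ := PL_isExt (mem_product.1 hp).1
    have a₂ := PL_isExt (mem_product.1 hp).2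
    have a₁' := PL_isExt (mem_product.1 hp').1
    have a₂' := PL_isExt (mem_product.1 hp').2
    have hr : Rep b c' p.1 p.2 ↔ Rep b c' p'.1 p'.2 :=
      ⟨NCaseBa_rep_loc a₁ a₂ a₁' a₂' (fun x hx => e₁ x (hdis hx)) fun x hx => e₂ x (hdis hx),
        NCaseBa_rep_loc a₁' a₂' a₁ a₂ (fun x hx => (e₁ x (hdis hx)).symm)
          fun x hx => (e₂ x (hdis hx)).symm⟩
    simp only [NCaseBa_f, hr, e₁ c' (hdis (NCaseBa_self b c')), e₂ c' (hdis (NCaseBa_self b c'))]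

/-- Resampling in the cells: the class mean of `49 ^ (-card) Rep - Eq` is at most zero. -/
theorem rep_sum_le (b J : ℕ) :
    ∑ p ∈ PL (gL b J) ×ˢ PL (gL b J), ∏ c ∈ grid b J,
      (1 + (if Rep b c p.1 p.2 then 1 / (49 : ℝ) ^ (box b).card else 0) -
        if p.1 c = p.2 c then 1 else 0) ≤ ((PL (gL b J)).card : ℝ) ^ 2 :=
  NCaseBa_prod (grid b J) (fun _ h => NCaseBa_sub h) fun _ h _ h' => grid_disj h h'

/-- Squared sum flux of a configuration and of the odd translate of another one. -/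
noncomputable def SB (b l : ℕ) (c : V) (ρ₁ ρ₂ : V → V) : ℝ :=
  lsum (b - b / 8) b l fun d q => (FQ ρ₁ d (q + c) l + FQ (sh e0 ρ₂) d (q + c) l) ^ 2

theorem NCaseBa_res_PL {L : ℕ} (hL : 1 ≤ L) {ρ : V → V} (h : IsExt ρ)
    (hm : ∀ x ∈ box (L - 1), ρ x ≠ x) : res (box L) ρ ∈ PL L := by
  refine mem_filter.2 ⟨mem_cls.2 ⟨isExt_res h _, fun x hx => by simp [res, hx]⟩, fun x hx => ?_⟩
  obtain ⟨h1, h2⟩ := mem_mon.1 hx
  exact mem_lev.2 ⟨h1, fun h3 => hm x h3 (by rw [← S1_res hL h h3, h2])⟩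

theorem NCaseBa_sub_e0 {t : ℕ} {x : V} (h : x ∈ box t) : x - e0 ∈ box (t + 1) :=
  S1_sub_e0 (by rwa [sub_add_cancel])

theorem NCaseBa_up {σ : Fin 3 → Bool} {L : ℕ} {ρ₁ ρ₂ : V → V} (h₁ : Mono σ (box (L + 1)) ρ₁)
    (h₂ : Mono σ (box (L + 1)) ρ₂) : Up σ (res (box L) ρ₁) (res (box L) (sh e0 ρ₂)) := by
  intro x
  unfold pi2 res
  by_cases he : IsEven x
  · rw [if_pos he]
    split_ifs with h
    · exact Or.inr (h₁ x (box_mono (Nat.le_succ _) h.1) he)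
    · exact Or.inl rfl
  · rw [if_neg he]
    split_ifs with h
    · have he' : IsEven (x - e0) := by
        by_contra h'
        have := (isEven_add_dv (x := x - e0) (d := (0, true))).2 h'
        rw [← e0_eq, sub_add_cancel] at this
        exact he this
      obtain ⟨i, hi⟩ := h₂ (x - e0) (NCaseBa_sub_e0 h.1) he'
      refine Or.inr ⟨i, ?_⟩
      simp only [sh, hi]
      abel
    · exact Or.inl rfl

theorem NCaseBa_ne {σ : Fin 3 → Bool} {κ₁ κ₂ : V → V} (h₂ : IsExt κ₂) (h : Up σ κ₁ κ₂) {c : V}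
    (hc : IsEven c) (hm : κ₁ c ≠ c) : κ₁ c ≠ κ₂ c := by
  intro e
  have h1 := h c
  rw [pi2, if_pos hc] at h1
  obtain ⟨i, hi⟩ := h1.resolve_left hm
  have ho : ¬ IsEven (κ₁ c) := by rw [hi, isEven_add_dv]; exact not_not.2 hc
  have h2 := h (κ₁ c)
  rw [pi2, if_neg ho, e, (h₂ c).2, ← e] at h2
  obtain ⟨j, hj⟩ := h2.resolve_left hm.symm
  rw [hi] at hj
  have h3 := congrFun hj i
  simp only [Pi.add_apply, dv, Pi.single_apply, if_true] at h3
  by_cases hij : i = j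
  · subst hij
    cases hs : σ i <;> simp [hs] at h3 <;> omega
  · cases hs : σ i <;> simp [hs, hij] at h3

theorem NCaseBa_lsum_sum {α : Type} (s : Finset α) (lo hi l : ℕ) (f : α → Dir → V → ℝ) :
    ∑ a ∈ s, lsum lo hi l (f a) = lsum lo hi l fun d q => ∑ a ∈ s, f a d q := by
  unfold lsum
  rw [sum_comm]
  refine sum_congr rfl fun t _ => ?_
  rw [sum_comm]
  exact sum_congr rfl fun d _ => sum_comm

theorem NCaseBa_Psi (b l : ℕ) {c : V} (hc : IsEven c) (κ : V → V) :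
    Psi b (b / 8) l (sh (-c) κ) = lsum (b - b / 8) b l fun d q => FQp 0 κ d (q + c) l ^ 2 := by
  simp only [Psi, lsum, ← FQp_zero, FQp_sh 0 κ hc]

theorem NCaseBa_Psi_nonneg (b w l : ℕ) (κ : V → V) : 0 ≤ Psi b w l κ :=
  sum_nonneg fun _ _ => sum_nonneg fun _ _ => sum_nonneg fun _ _ => sq_nonneg _

theorem NCaseBa_sq {d : Dir} {t l b : ℕ} {p : ℕ × ℕ} (hp : p ∈ sqs t l) (ht : t ≤ b) (c : V) :
    sq d.1 (corner d t l p + c) l ⊆ tr c (box b) := fun x hx => by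
  refine mem_tr.2 (box_mono ht (sq_corner_box (d := d) hp ?_))
  rw [mem_sq] at hx ⊢
  refine ⟨by simp [hx.1], fun j hj => ?_⟩
  have := hx.2 j hj
  simp only [Pi.add_apply, Pi.sub_apply] at this ⊢
  omega

/-- The class mean of the squared fluxes in one cell. -/
theorem NCaseBa_mean {σ : Fin 3 → Bool} {L b l : ℕ} (hL : 1 ≤ L) {c : V} (he : IsEven c)
    (hc : tr c (box b) ⊆ box (L - 1)) {ρ₁ ρ₂ : V → V} (h₁ : IsExt ρ₁) (h₂ : IsExt ρ₂)
    (hu : Up σ (res (box L) ρ₁) (res (box L) (sh e0 ρ₂))) :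
    ∑ p ∈ cpl (box L) (res (box L) ρ₁) (res (box L) (sh e0 ρ₂)),
      (Psi b (b / 8) l (sh (-c) p.1) + Psi b (b / 8) l (sh (-c) p.2)) ≤
      (cpl (box L) (res (box L) ρ₁) (res (box L) (sh e0 ρ₂))).card *
        ((SB b l c ρ₁ ρ₂ + 24 * (b : ℝ) ^ 3) / 2) := by
  have h₂' := isExt_sh h₂ e0
  have k₁ := isExt_res h₁ (box L)
  have k₂ := isExt_res h₂' (box L)
  have m₁ : res (box L) ρ₁ ∈ cls (box L) id := mem_cls.2 ⟨k₁, fun x hx => by simp [res, hx]⟩
  have m₂ : res (box L) (sh e0 ρ₂) ∈ cls (box L) id :=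
    mem_cls.2 ⟨k₂, fun x hx => by simp [res, hx]⟩
  set n : ℝ := ((cpl (box L) (res (box L) ρ₁) (res (box L) (sh e0 ρ₂))).card : ℝ) with hn
  have hn0 : 0 ≤ n := Nat.cast_nonneg _
  simp only [NCaseBa_Psi b l he, ← lsum_add]
  rw [NCaseBa_lsum_sum]
  have h1 : lsum (b - b / 8) b l (fun d q => n / 2 * ((FQ ρ₁ d (q + c) l +
      FQ (sh e0 ρ₂) d (q + c) l) ^ 2 + 1 * (l : ℝ) ^ 2)) ≤
      n * ((SB b l c ρ₁ ρ₂ + 24 * (b : ℝ) ^ 3) / 2) := by
    rw [lsum_mul, lsum_add]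
    have := lsum_const (b - b / 8) b l (a := 1) zero_le_one
    rw [← SB]
    linarith only [this, mul_nonneg_of_nonpos_of_nonpos (Mathlib.Tactic.Linarith.sub_nonpos_of_le (Mathlib.Tactic.Linarith.natCast_nonneg ℝ #(cpl (box L) (res (box L) ρ₁) (res (box L) (sh e0 ρ₂))))) (Mathlib.Tactic.Linarith.sub_nonpos_of_le this)]
  refine (lsum_mono fun t ht d p hp => ?_).trans h1
  have hs := (NCaseBa_sq (d := d) hp (Finset.mem_Ioo.1 ht).2.le c).trans hc
  have f₁ : FQ _ _ _ _ = FQ _ _ _ _ := local_FQ d _ l _ _ k₁ h₁ fun x hx => S1_res hL h₁ (hs hx)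
  have f₂ : FQ _ _ _ _ = FQ _ _ _ _ :=
    local_FQ d _ l _ _ k₂ h₂' fun x hx => S1_res hL h₂' (hs hx)
  rw [class_mean 0 m₁ m₂, FQp_zero, FQp_zero, f₁, f₂, ← hn]
  have := J2_up k₁ k₂ hu d (corner d t l p + c) l
  linarith only [this, mul_nonneg_of_nonpos_of_nonpos (Mathlib.Tactic.Linarith.sub_nonpos_of_le (Mathlib.Tactic.Linarith.natCast_nonneg ℝ #(cpl (box L) (res (box L) ρ₁) (res (box L) (sh e0 ρ₂))))) (Mathlib.Tactic.Linarith.sub_nonpos_of_le this)]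

theorem NCaseBa_patch {L b : ℕ} {c : V} (hc : tr c (box b) ⊆ box (L - 1)) {κ : V → V}
    (hκ : κ ∈ PL L) {P : (V → V) → Prop} {y : V} {r : ℕ}
    (hp : ∀ σ : V → V, IsExt σ → (∀ x ∈ box b, σ x ≠ x) → Phi σ r = 0 → P σ →
      ∃ ρ ∈ perf (box b) σ, ρ 0 = y) (hr : r ≤ b) (h : P (sh (-c) κ)) :
    ∃ ρ ∈ perf (tr c (box b)) κ, ρ c = y + c := by
  have h1 := isExt_sh (PL_isExt hκ) (-c)
  have h2 : ∀ x ∈ box b, sh (-c) κ x ≠ x := fun x hx e =>
    PL_ne hκ (hc (mem_tr.2 (by rwa [add_sub_cancel_right]) : x + c ∈ tr c (box b))) (by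
      simp only [sh, sub_neg_eq_add] at e
      exact eq_add_of_add_neg_eq e)
  have h3 : Phi (sh (-c) κ) r = 0 := by
    rw [Phi_eq h1, sum_eq_zero, neg_zero]
    intro x hx
    exact absurd (mem_mon.1 hx).2 (h2 x (box_mono hr (mem_mon.1 hx).1))
  obtain ⟨ρ, hρ, e⟩ := hp _ h1 h2 h3 h
  obtain ⟨⟨a₁, a₂⟩, a₃⟩ := mem_perf.1 hρ
  refine ⟨sh c ρ, mem_perf.2 ⟨⟨isExt_sh a₁ c, fun x hx => ?_⟩, fun x hx e' => ?_⟩, by simp [sh, e]⟩
  · simp only [sh]
    rw [a₂ _ fun h => hx (mem_tr.2 h)]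
    simp [sh]
  · refine a₃ _ (mem_tr.1 hx) ?_
    simp only [sh] at e'
    exact eq_sub_of_add_eq e'

theorem NCaseBa_jensen {α : Type} (K : Finset α) (x : α → ℝ) (m : ℝ)
    (h : m * K.card ≤ ∑ a ∈ K, x a) : Real.exp m * K.card ≤ ∑ a ∈ K, Real.exp (x a) := by
  have h1 : ∀ a ∈ K, Real.exp m * (x a - m + 1) ≤ Real.exp (x a) := fun a _ => by
    have := mul_le_mul_of_nonneg_left (Real.add_one_le_exp (x a - m)) (Real.exp_pos m).le
    rwa [← Real.exp_add, add_sub_cancel] at this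
  refine le_trans ?_ (sum_le_sum h1)
  rw [← mul_sum, sum_add_distrib, sum_sub_distrib, sum_const, sum_const, nsmul_eq_mul,
    nsmul_eq_mul]
  exact mul_le_mul_of_nonneg_left (by linarith only [h]) (Real.exp_pos m).le

theorem NCaseBa_shell {L : ℕ} (hL : 2 ≤ L) :
    ((box L \ box (L - 2)).card : ℝ) ≤ 48 * (L : ℝ) ^ 2 := by
  obtain ⟨k, rfl⟩ := Nat.exists_eq_add_of_le' hL
  have := card_sdiff_add_card_eq_card (box_mono (Nat.sub_le (k + 2) 2))
  rw [card_box, card_box, Nat.add_sub_cancel] at this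
  have h : ((box (k + 2) \ box k).card : ℝ) + (2 * k + 1) ^ 3 = (2 * (k + 2) + 1) ^ 3 := by
    exact_mod_cast this
  have hk : (0 : ℝ) ≤ k := Nat.cast_nonneg k
  rw [Nat.add_sub_cancel]
  push_cast
  nlinarith

theorem NCaseBa_fibre {L : ℕ} (hL : 2 ≤ L) (σ₁ σ₂ : V → V) (A : Finset ((V → V) × (V → V)))
    (hA : A ⊆ perf (box L) σ₁ ×ˢ perf (box L) σ₂) :
    A.card ≤ 7 ^ (box L \ box (L - 2)).card *
      (A.image fun p => (res (box L) p.1, res (box L) (sh e0 p.2))).card := by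
  refine card_le_mul_card_image A _ fun y hy => ?_
  obtain ⟨p, hp, rfl⟩ := mem_image.1 hy
  obtain ⟨a₁, a₂⟩ := mem_product.1 (hA hp)
  have : (A.filter fun p' => (res (box L) p'.1, res (box L) (sh e0 p'.2)) =
      (res (box L) p.1, res (box L) (sh e0 p.2))) ⊆ {p.1} ×ˢ cls (box L \ box (L - 2)) p.2 := by
    intro p' h'
    obtain ⟨h1, h2⟩ := mem_filter.1 h'
    obtain ⟨b₁, b₂⟩ := mem_product.1 (hA h1)
    obtain ⟨e₁, e₂⟩ := Prod.ext_iff.1 h2
    refine mem_product.2 ⟨mem_singleton.2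
      (res_injOn (box L) σ₁ (mem_filter.1 b₁).1 (mem_filter.1 a₁).1 e₁),
      mem_cls.2 ⟨(mem_perf.1 b₂).1.1, fun x hx => ?_⟩⟩
    by_cases hx' : x ∈ box L
    · have h3 : x ∈ box (L - 2) := by_contra fun h => hx (mem_sdiff.2 ⟨hx', h⟩)
      have h4 : x + e0 ∈ box (L - 1) := by
        rw [e0_eq, show L - 1 = L - 2 + 1 by omega]
        exact add_dv_mem_box h3 _
      have h5 := congrFun e₂ (x + e0)
      simp only at h5
      rw [S1_res (by omega) (isExt_sh (mem_perf.1 b₂).1.1 e0) h4,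
        S1_res (by omega) (isExt_sh (mem_perf.1 a₂).1.1 e0) h4] at h5
      simpa [sh] using h5
    · rw [(mem_perf.1 b₂).1.2 x hx', (mem_perf.1 a₂).1.2 x hx']
  refine (card_le_card this).trans ?_
  rw [card_product, card_singleton, one_mul]
  exact card_cls_le _ _

/-- Monotone pairs are exponentially rare. -/
theorem caseB_det : ∃ c₀ : ℝ, 0 < c₀ ∧ ∃ l₀ : ℕ, ∀ l ≥ l₀, 2 ∣ l → ∃ b : ℕ, 1 ≤ b ∧ ∃ γ : ℝ,
    0 < γ ∧ ∀ (J : ℕ) (σ : Fin 3 → Bool) (σ₁ σ₂ : V → V), IsExt σ₁ → IsExt σ₂ →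
      (((perf (box (gL b J)) σ₁ ×ˢ perf (box (gL b J)) σ₂).filter fun p =>
        Mono σ (box (gL b J + 1)) p.1 ∧ Mono σ (box (gL b J + 1)) p.2 ∧ (grid b J).card ≤
          2 * ((grid b J).filter fun c =>
            SB b l c p.1 p.2 ≤ c₀ * (b : ℝ) ^ 3 * (l : ℝ) ^ 2).card).card : ℝ) ≤
        Real.exp (200 * (gL b J : ℝ) ^ 2 - γ * (grid b J).card) * Zs (gL b J) ^ 2 := by
  obtain ⟨c, hc, hp⟩ := patch 8 le_rfl
  obtain ⟨τ', hτ'⟩ := exists_columnar
  obtain ⟨l₀, hl₀⟩ := exists_nat_ge (48 / c)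
  refine ⟨c / 2, half_pos hc, l₀ + 1, fun l hl h2 => ?_⟩
  obtain ⟨b₀, hb₀⟩ := hp l (by omega)
  set b := b₀ + 1 with hb
  set q : ℝ := 1 / (49 : ℝ) ^ (box b).card with hq
  have hq0 : 0 < q := one_div_pos.2 (pow_pos (by norm_num) _)
  have hlog : 0 < Real.log (1 + q) := Real.log_pos (by linarith only [hq0])
  refine ⟨b, by omega, Real.log (1 + q) / 4, div_pos hlog four_pos, fun J σ σ₁ σ₂ _ _ => ?_⟩
  set L := gL b J with hLd
  have hL : 2 ≤ L := by rw [hLd, gL]; omega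
  set θ : ℝ := c * (b : ℝ) ^ 3 * (l : ℝ) ^ 2 with hθ
  have hb0 : (0 : ℝ) < b := Nat.cast_pos.2 (by omega)
  have hl1 : (1 : ℝ) ≤ l := by exact_mod_cast (by omega : 1 ≤ l)
  have hθ0 : 0 < θ := mul_pos (mul_pos hc (pow_pos hb0 3)) (pow_pos (one_pos.trans_le hl1) 2)
  have h24 : 24 * (b : ℝ) ^ 3 ≤ θ / 2 := by
    have h1 : (l₀ : ℝ) ≤ l := by exact_mod_cast (by omega : l₀ ≤ l)
    have h3 : 48 ≤ c * l := by
      have := (div_le_iff₀ hc).1 (hl₀.trans h1)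
      linarith only [this]
    have h4 : 48 ≤ c * (l : ℝ) ^ 2 := by
      linarith only [h3, mul_le_mul_of_nonneg_left hl1 (mul_pos hc (one_pos.trans_le hl1)).le]
    have h5 : (0 : ℝ) < (b : ℝ) ^ 3 := pow_pos hb0 3
    rw [hθ]
    linarith only [mul_le_mul_of_nonneg_right h4 h5.le]
  have hrep : ∀ z ∈ grid b J, ∀ p ∈ PL L ×ˢ PL L,
      Psi b (b / 8) l (sh (-z) p.1) + Psi b (b / 8) l (sh (-z) p.2) < θ → Rep b z p.1 p.2 := by
    intro z hz p hp' h
    have key : ∀ κ ∈ PL L, Psi b (b / 8) l (sh (-z) κ) < θ →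
        ∃ ρ ∈ perf (tr z (box b)) κ, ρ z = τ'.1 0 + z := fun κ hκ h' =>
      NCaseBa_patch (P := fun s => Psi b (b / 8) l s < θ) (r := b - 4 * (b / 8)) (NCaseBa_sub hz)
        hκ (fun s a₁ a₂ a₃ a₄ => by
          obtain ⟨ρ, r₁, r₂⟩ := hb₀ b (by omega) s a₁ τ' (hτ' l h2) (fun x hx _ => a₂ x hx) a₃ a₄
          exact ⟨ρ, r₁, r₂ 0 (mem_box.2 fun i => by simp)⟩) (Nat.sub_le _ _) h'
    have n₁ := NCaseBa_Psi_nonneg b (b / 8) l (sh (-z) p.1)
    have n₂ := NCaseBa_Psi_nonneg b (b / 8) l (sh (-z) p.2)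
    obtain ⟨ρ₁, r₁, e₁⟩ := key _ (mem_product.1 hp').1 (by linarith only [h, n₂])
    obtain ⟨ρ₂, r₂, e₂⟩ := key _ (mem_product.1 hp').2 (by linarith only [h, n₁])
    exact ⟨ρ₁, r₁, ρ₂, r₂, e₁.trans e₂.symm⟩
  set A := (perf (box L) σ₁ ×ˢ perf (box L) σ₂).filter fun p =>
    Mono σ (box (L + 1)) p.1 ∧ Mono σ (box (L + 1)) p.2 ∧ (grid b J).card ≤
      2 * ((grid b J).filter fun z =>
        SB b l z p.1 p.2 ≤ c / 2 * (b : ℝ) ^ 3 * (l : ℝ) ^ 2).card with hA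
  have hPL : ∀ p ∈ A, (res (box L) p.1, res (box L) (sh e0 p.2)) ∈ PL L ×ˢ PL L := fun p hp' => by
    obtain ⟨a₁, a₂⟩ := mem_product.1 (mem_filter.1 hp').1
    refine mem_product.2 ⟨NCaseBa_res_PL (by omega) (mem_perf.1 a₁).1.1 fun x hx =>
      (mem_perf.1 a₁).2 x (box_mono (Nat.sub_le _ _) hx), NCaseBa_res_PL (by omega)
      (isExt_sh (mem_perf.1 a₂).1.1 e0) fun x hx e => (mem_perf.1 a₂).2 (x - e0) ?_ ?_⟩
    · have := NCaseBa_sub_e0 hx
      rwa [show L - 1 + 1 = L by omega] at this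
    · simp only [sh] at e
      exact eq_sub_of_add_eq e
  have hcount := cpl_count (L := L) (A.image fun p => (res (box L) p.1, res (box L) (sh e0 p.2)))
    (fun y hy => by obtain ⟨p, hp', rfl⟩ := mem_image.1 hy; exact hPL p hp')
    (fun p => ∏ z ∈ grid b J, NCaseBa_f b z p)
    (fun p => prod_nonneg fun z _ => NCaseBa_f_nonneg b z p)
    (a := Real.exp (Real.log (1 + q) / 4 * (grid b J).card)) (fun κ hκ => by
      obtain ⟨p, hp', rfl⟩ := mem_image.1 hκ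
      obtain ⟨k₁, k₂⟩ := mem_product.1 (hPL p hp')
      obtain ⟨a, m₁, m₂, hg⟩ := mem_filter.1 hp'
      obtain ⟨a₁, a₂⟩ := mem_product.1 a
      have hu := NCaseBa_up m₁ m₂
      simp only at k₁ k₂ ⊢
      set K := cpl (box L) (res (box L) p.1) (res (box L) (sh e0 p.2)) with hK
      have hKs : K ⊆ PL L ×ˢ PL L := cpl_PL k₁ k₂
      have hF : ∀ p' ∈ K, ∏ z ∈ grid b J, NCaseBa_f b z p' = Real.exp (∑ z ∈ grid b J,
          Real.log (1 + q) * if Rep b z p'.1 p'.2 then 1 else 0) := fun p' h' => by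
        rw [Real.exp_sum]
        refine prod_congr rfl fun z hz => ?_
        have hne : p'.1 z ≠ p'.2 z := fun e => by
          have h3 := congrFun (mem_filter.1 h').2 z
          simp only [un2, e] at h3
          refine NCaseBa_ne (PL_isExt k₂) hu (grid_even hz)
            (PL_ne k₁ (NCaseBa_sub hz (NCaseBa_self b z))) ?_
          rcases Sym2.eq_iff.1 h3 with h | h
          · exact h.1.symm.trans h.2
          · exact h.2.symm.trans h.1
        rw [NCaseBa_f, if_neg hne, sub_zero]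
        split_ifs
        · rw [mul_one, Real.exp_log (by linarith only [hq0])]
        · simp
      rw [sum_congr rfl hF]
      refine NCaseBa_jensen K _ _ ?_
      rw [sum_comm]
      simp only [← mul_sum]
      have hgood : ∀ z ∈ (grid b J).filter fun z =>
          SB b l z p.1 p.2 ≤ c / 2 * (b : ℝ) ^ 3 * (l : ℝ) ^ 2,
          (K.card : ℝ) / 2 ≤ ∑ p' ∈ K, if Rep b z p'.1 p'.2 then (1 : ℝ) else 0 := fun z hz => by
        obtain ⟨hz, hs⟩ := mem_filter.1 hz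
        have h1 := NCaseBa_mean (b := b) (l := l) (by omega) (grid_even hz) (NCaseBa_sub hz)
          (mem_perf.1 a₁).1.1 (mem_perf.1 a₂).1.1 hu
        have h3 : ∀ p' ∈ K, 1 - (Psi b (b / 8) l (sh (-z) p'.1) +
            Psi b (b / 8) l (sh (-z) p'.2)) / θ ≤ if Rep b z p'.1 p'.2 then (1 : ℝ) else 0 := by
          intro p' h'
          split_ifs with h
          · have := div_nonneg (add_nonneg (NCaseBa_Psi_nonneg b (b / 8) l (sh (-z) p'.1))
              (NCaseBa_Psi_nonneg b (b / 8) l (sh (-z) p'.2))) hθ0.le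
            linarith only [this]
          · have := (one_le_div hθ0).2 (not_lt.1 fun h4 => h (hrep z hz p' (hKs h') h4))
            linarith only [this]
        refine le_trans ?_ (sum_le_sum h3)
        rw [sum_sub_distrib, sum_const, nsmul_eq_mul, mul_one, ← sum_div]
        have h4 : (SB b l z p.1 p.2 + 24 * (b : ℝ) ^ 3) / 2 ≤ θ / 2 := by
          rw [hθ] at h24 ⊢
          linarith only [h24, hs]
        have h5 := (div_le_iff₀ hθ0).2 (show _ ≤ (K.card : ℝ) / 2 * θ from h1.trans (by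
          have := mul_le_mul_of_nonneg_left h4 (Nat.cast_nonneg (α := ℝ) K.card)
          linarith only [this]))
        linarith only [h5]
      have h6 := (sum_le_sum hgood).trans (sum_le_sum_of_subset_of_nonneg (filter_subset _ _)
        fun z _ _ => sum_nonneg fun p' _ => ite_nonneg zero_le_one le_rfl)
      rw [sum_const, nsmul_eq_mul] at h6
      have h7 : ((grid b J).card : ℝ) ≤ 2 * ((grid b J).filter fun z =>
          SB b l z p.1 p.2 ≤ c / 2 * (b : ℝ) ^ 3 * (l : ℝ) ^ 2).card := by exact_mod_cast hg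
      have h8 := mul_le_mul_of_nonneg_right h7 (Nat.cast_nonneg (α := ℝ) K.card)
      have h9 : ((grid b J).card : ℝ) * K.card / 4 ≤
          ∑ z ∈ grid b J, ∑ p' ∈ K, if Rep b z p'.1 p'.2 then (1 : ℝ) else 0 := by linarith only [h6, h8]
      have := mul_le_mul_of_nonneg_left h9 hlog.le
      linarith only [this])
  have h1 := hcount.trans (rep_sum_le b J)
  have h3 : ((PL L).card : ℝ) ≤ Real.exp (26 * (L : ℝ) ^ 2) * Zs L := by
    refine (S1_card L (by omega)).trans (mul_le_mul_of_nonneg_right ((LPdet_pow _).trans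
      (Real.exp_le_exp.2 (Double_card_lev (by omega)))) ?_)
    exact mul_nonneg (pow_nonneg zero_le_two _) (Nat.cast_nonneg _)
  have h4 : (A.card : ℝ) ≤ Real.exp (96 * (L : ℝ) ^ 2) *
      (A.image fun p => (res (box L) p.1, res (box L) (sh e0 p.2))).card := by
    have := NCaseBa_fibre hL σ₁ σ₂ A (filter_subset _ _)
    have h5 : (A.card : ℝ) ≤ (7 : ℝ) ^ (box L \ box (L - 2)).card *
      (A.image fun p => (res (box L) p.1, res (box L) (sh e0 p.2))).card := by exact_mod_cast this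
    refine h5.trans (mul_le_mul_of_nonneg_right ((LPdet_pow7 _).trans (Real.exp_le_exp.2 ?_))
      (Nat.cast_nonneg _))
    linarith only [hL, NCaseBa_shell hL]
  have h5 := h1.trans (pow_le_pow_left₀ (Nat.cast_nonneg _) h3 2)
  set m : ℝ := Real.log (1 + q) / 4 * (grid b J).card
  have h6 : ((A.image fun p => (res (box L) p.1, res (box L) (sh e0 p.2))).card : ℝ) ≤
      Real.exp (52 * (L : ℝ) ^ 2 - m) * Zs L ^ 2 := by
    rw [Real.exp_sub, div_mul_eq_mul_div, le_div_iff₀ (Real.exp_pos m), mul_comm]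
    refine h5.trans_eq ?_
    rw [mul_pow, ← Real.exp_nat_mul]
    congr 2
    push_cast
    ring
  refine h4.trans ((mul_le_mul_of_nonneg_left h6 (Real.exp_pos _).le).trans ?_)
  rw [← mul_assoc, ← Real.exp_add]
  refine mul_le_mul_of_nonneg_right (Real.exp_le_exp.2 ?_) (sq_nonneg _)
  linarith only [sq_nonneg (L : ℝ), sq_nonneg ↑L]

end Pool.Agent.Work.MP_5cb0a4_pr.Z
end

-- merged part: Pool.Agent.Work.MP_5cb0a4_pr.N.CaseB
section
open MeasureTheory Finset Filter Topology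
open scoped Classical

namespace Pool.Agent.Work.MP_5cb0a4_pr.Z

theorem NCaseB_add {μ : Measure Dimer} [IsProbabilityMeasure μ] {f g : Dimer → ℝ}
    (hf : Integrable f μ) (hg : Integrable g μ) :
    Integrable (fun p : Dimer × Dimer => f p.1 + g p.2) (μ.prod μ) ∧
      ∫ p, (f p.1 + g p.2) ∂(μ.prod μ) = ∫ τ, f τ ∂μ + ∫ τ, g τ ∂μ := by
  refine ⟨(hf.comp_fst μ).add (hg.comp_snd μ), ?_⟩
  rw [integral_add (hf.comp_fst μ) (hg.comp_snd μ), integral_fun_fst, integral_fun_snd,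
    probReal_univ, one_smul, one_smul]

theorem NCaseB_mono {μ : Measure Dimer} (h : IM μ) {J : Dimer → Fin 3 → ℝ} (hJ : IsJ μ J)
    {σ : Fin 3 → Bool} (h1 : ∀ᵐ τ ∂μ, 1 ≤ ∑ i, sd (J τ) (i, σ i)) :
    ∀ᵐ τ ∂μ, ∀ Λ, Mono σ Λ τ.1 := by
  have := h.prob
  let w : Fin 3 → ℝ := fun i => if σ i then 1 else -1
  have hw : ∀ (s : Fin 3 → ℝ) i, sd s (i, σ i) = w i * s i := fun s i => by
    simp only [sd, w]
    split_ifs <;> ring
  have hv : ∀ d : Dir, ∑ i, w i * ((dv d i : ℤ) : ℝ) = if d.2 = σ d.1 then 1 else -1 := by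
    rintro ⟨j, b⟩
    rw [sum_eq_single j (fun i _ hi => by simp [dv, hi]) (by simp)]
    cases b <;> cases e : σ j <;> simp [dv, w, e]
  have hd : ∀ τ : Dimer, ∃ d, τ.1 0 = dv d := fun τ => by
    simpa using nbr_iff.1 (τ.2 0).1
  have i1 : ∀ i, Integrable (fun τ : Dimer => w i * ((τ.1 0 i : ℤ) : ℝ)) μ := fun i =>
    Local.integrable (Λ := {0}) (g := fun ρ => w i * ((ρ 0 i : ℤ) : ℝ))
      (fun _ _ _ _ e => by simp only [e 0 (mem_singleton_self _)]) μ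
  have i2 : ∀ i, Integrable (fun τ => w i * J τ i) μ := fun i =>
    ((hJ.mem i).integrable one_le_two).const_mul _
  have e1 : ∫ τ, ∑ i, w i * ((τ.1 0 i : ℤ) : ℝ) ∂μ = ∫ τ, ∑ i, w i * J τ i ∂μ := by
    rw [integral_finsetSum _ fun i _ => i1 i, integral_finsetSum _ fun i _ => i2 i]
    refine sum_congr rfl fun i _ => ?_
    have := hJ.mean h (B := Set.univ) ⟨MeasurableSet.univ, fun _ _ => Set.preimage_univ.eventuallyEq⟩ i
    rw [Measure.restrict_univ] at this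
    rw [integral_const_mul, integral_const_mul, this]
  have e2 : 1 ≤ ∫ τ, ∑ i, w i * J τ i ∂μ := by
    have := integral_mono_ae (integrable_const (1 : ℝ)) (integrable_finsetSum _ fun i _ => i2 i)
      (h1.mono fun _ k => by simpa only [hw] using k)
    simpa using this
  have i3 := (integrable_const (1 : ℝ)).sub (integrable_finsetSum univ fun i _ => i1 i)
  have n3 : 0 ≤ (fun _ => 1 : Dimer → ℝ) - fun τ => ∑ i, w i * ((τ.1 0 i : ℤ) : ℝ) := fun τ => by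
    obtain ⟨d, e⟩ := hd τ
    simp only [Pi.sub_apply, Pi.zero_apply, e, hv]
    split_ifs <;> norm_num
  have e3 := (integral_eq_zero_iff_of_nonneg n3 i3).1 (le_antisymm (by
    rw [integral_sub' (integrable_const _) (integrable_finsetSum univ fun i _ => i1 i), e1]
    simpa using e2) (integral_nonneg n3))
  have e4 : ∀ᵐ τ ∂μ, ∃ i, τ.1 0 = dv (i, σ i) := by
    filter_upwards [e3] with τ hτ
    obtain ⟨d, e⟩ := hd τ
    simp only [Pi.sub_apply, Pi.zero_apply, e, hv] at hτ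
    split_ifs at hτ with k
    · exact ⟨d.1, by rw [e, ← k]⟩
    · norm_num at hτ
  have e5 : ∀ᵐ τ ∂μ, ∀ x, IsEven x → ∃ i, τ.1 x = x + dv (i, σ i) := by
    refine ae_all_iff.2 fun x => ?_
    by_cases hx : IsEven x
    · filter_upwards [(h.inv _ (isEven_neg.2 hx)).quasiMeasurePreserving.ae e4] with τ hτ _
      obtain ⟨i, e⟩ := hτ
      refine ⟨i, ?_⟩
      rw [← e]
      simp [shift]
    · exact Eventually.of_forall fun _ k => absurd k hx
  filter_upwards [e5] with τ hτ Λ x _ hx using hτ x hx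

theorem NCaseB_lF (d : Dir) (c : V) (l : ℕ) (a : ℝ) :
    Local (sq d.1 c l) fun ρ => 2 * (FQ ρ d c l - a) ^ 2 :=
  Trans_comp (local_FQ d c l) fun x => 2 * (x - a) ^ 2

theorem NCaseB_flux {μ : Measure Dimer} [IsProbabilityMeasure μ] {J : Dimer → Fin 3 → ℝ}
    (hJ : IsJ μ J) {s : Fin 3 → ℝ} {η : ℝ} (hη : 0 < η)
    (hs : ∀ᵐ τ ∂μ, ∀ i, (J τ i - s i) ^ 2 ≤ η) : ∃ l₀ : ℕ, ∀ l ≥ l₀, ∀ (d : Dir) (c : V),
      ∫ τ, 2 * (FQ τ.1 d c l - sd s d * (l : ℝ) ^ 2 / 2) ^ 2 ∂μ ≤ 5 * η * (l : ℝ) ^ 4 := by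
  obtain ⟨l₀, h⟩ := hJ.flux η hη
  refine ⟨l₀, fun l hl => ?_⟩
  have key : ∀ i c, ∫ τ, 2 * (FQ τ.1 (i, true) c l - s i * (l : ℝ) ^ 2 / 2) ^ 2 ∂μ ≤
      5 * η * (l : ℝ) ^ 4 := fun i c => by
    have m1 : MemLp (fun τ : Dimer => FQ τ.1 (i, true) c l) 2 μ :=
      MemLp.of_bound (local_FQ (i, true) c l).measurable.aestronglyMeasurable _
        (Eventually.of_forall fun τ => abs_FQ_le τ.1 _ c l)
    have m2 : Integrable (fun τ : Dimer =>
        (FQ τ.1 (i, true) c l - J τ i * (l : ℝ) ^ 2 / 2) ^ 2) μ := by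
      simp only [mul_div_assoc]
      exact (m1.sub ((hJ.mem i).mul_const _)).integrable_sq
    refine (integral_mono_ae ((NCaseB_lF (i, true) c l _).integrable μ)
      ((m2.const_mul 4).add (integrable_const (η * (l : ℝ) ^ 4))) ?_).trans ?_
    · filter_upwards [hs] with τ hτ
      have h1 := mul_le_mul_of_nonneg_right (hτ i) (by positivity : 0 ≤ (l : ℝ) ^ 4)
      simp only [Pi.add_apply]
      linarith only [h1, sq_nonneg (FQ τ.1 (i, true) c l - J τ i * (l : ℝ) ^ 2 + s i * (l : ℝ) ^ 2 / 2), sq_nonneg ((2 : ℝ) * FQ ↑τ (i, true) c l - (1 : ℝ) * J τ i * ((2 : ℝ) * ((1 : ℝ) * ↑l) ^ (2 : ℕ)) + (1 : ℝ) * s i * ((1 : ℝ) * ((1 : ℝ) * ↑l) ^ (2 : ℕ)))]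
    · rw [integral_add' (m2.const_mul 4) (integrable_const _), integral_const_mul, integral_const,
        probReal_univ, one_smul]
      linarith only [h, hl, h l hl i c]
  rintro ⟨i, _ | _⟩ c
  · refine le_of_eq_of_le (integral_congr_ae (Eventually.of_forall fun τ => ?_))
      (key i (c - dv (i, true)))
    have := FQp_rev (isExt_dimer τ) 0 (i, true) (c - dv (i, true)) l
    rw [sub_add_cancel, FQp_zero, FQp_zero] at this
    simp only [Bool.not_true] at this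
    simp only [this, sd, Bool.false_eq_true, if_false]
    ring
  · exact key i c

theorem NCaseB_lsum {ι : Type} (S : Finset ι) {g : ι → (V → V) → (V → V) → ℝ}
    (h : ∀ i, ∃ Λ, Local2 Λ (g i)) : ∃ Λ, ∀ i ∈ S, Local2 Λ (g i) := by
  choose Λ hΛ using h
  exact ⟨S.biUnion Λ, fun i hi _ _ _ _ a b c d e f => hΛ i _ _ _ _ a b c d
    (fun x hx => e x (mem_biUnion.2 ⟨i, hi, hx⟩)) fun x hx => f x (mem_biUnion.2 ⟨i, hi, hx⟩)⟩

theorem NCaseB_lsum' {ι : Type} (S : Finset ι) {g : ι → (V → V) → (V → V) → ℝ}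
    (h : ∀ i, ∃ Λ, Local2 Λ (g i)) : ∃ Λ, Local2 Λ fun a b => ∑ i ∈ S, g i a b := by
  obtain ⟨Λ, hΛ⟩ := NCaseB_lsum S h
  exact ⟨Λ, fun _ _ _ _ a b c d e f => sum_congr rfl fun i hi => hΛ i hi _ _ _ _ a b c d e f⟩

theorem NCaseB_lT (d : Dir) (q : V) (l : ℕ) :
    ∃ Λ, Local2 Λ fun ρ₁ ρ₂ => (FQ ρ₁ d q l + FQ (sh e0 ρ₂) d q l) ^ 2 :=
  ⟨sq d.1 q l ∪ sq d.1 (q - e0) l, fun _ _ _ _ a b c d' e f => by
    have h1 := local_FQ d q l _ _ a c fun x hx => e x (mem_union_left _ hx)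
    have h2 := local_FQ d (q - e0) l _ _ b d' fun x hx => f x (mem_union_right _ hx)
    simp only at h1 h2
    simp only [FQ_sh_e0, h1, h2]⟩

theorem NCaseB_lSB (b l : ℕ) (c : V) : ∃ Λ, Local2 Λ (SB b l c) := by
  unfold SB lsum
  exact NCaseB_lsum' _ fun _ => NCaseB_lsum' _ fun _ => NCaseB_lsum' _ fun _ => NCaseB_lT _ _ _

theorem NCaseB_SB {μ : Measure Dimer} [IsProbabilityMeasure μ] {a : Dir → ℝ} {η : ℝ} (hη : 0 ≤ η)
    {l : ℕ} (h : ∀ d c, ∫ τ, 2 * (FQ τ.1 d c l - a d) ^ 2 ∂μ ≤ η * (l : ℝ) ^ 4) (b : ℕ) (c : V) :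
    ∫ p, SB b l c p.1.1 p.2.1 ∂(μ.prod μ) ≤ 48 * η * ((b : ℝ) ^ 3 * (l : ℝ) ^ 2) := by
  have i1 : ∀ d q, Integrable (fun p : Dimer × Dimer =>
      (FQ p.1.1 d q l + FQ (sh e0 p.2.1) d q l) ^ 2) (μ.prod μ) := fun d q => by
    obtain ⟨Λ, k⟩ := NCaseB_lT d q l
    exact Meas_int2 k _
  have e : ∫ p, SB b l c p.1.1 p.2.1 ∂(μ.prod μ) = lsum (b - b / 8) b l fun d q =>
      ∫ p, (FQ p.1.1 d (q + c) l + FQ (sh e0 p.2.1) d (q + c) l) ^ 2 ∂(μ.prod μ) := by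
    unfold SB lsum
    rw [integral_finsetSum _ fun t _ => integrable_finsetSum _ fun d _ =>
      integrable_finsetSum _ fun p _ => i1 _ _]
    refine sum_congr rfl fun t _ => ?_
    rw [integral_finsetSum _ fun d _ => integrable_finsetSum _ fun p _ => i1 _ _]
    exact sum_congr rfl fun d _ => integral_finsetSum _ fun p _ => i1 _ _
  rw [e]
  refine (lsum_mono (g := fun _ _ => 2 * η * (l : ℝ) ^ 2 * (l : ℝ) ^ 2) fun t _ d p _ => ?_).trans
    ((lsum_const _ _ _ (by positivity)).trans_eq (by ring))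
  generalize corner d t l p + c = q
  obtain ⟨k1, k2⟩ := NCaseB_add ((NCaseB_lF d q l (a d)).integrable μ)
    ((NCaseB_lF d (q - e0) l (a d)).integrable μ)
  refine (integral_mono (i1 d q) k1 fun p => ?_).trans ?_
  · simp only [FQ_sh_e0]
    linarith only [sq_nonneg (FQ p.1.1 d q l + FQ p.2.1 d (q - e0) l - 2 * a d), sq_nonneg (FQ (↑p.1) d q l + FQ (↑p.2) d (q - e0) l - (2 : ℝ) * a d)]
  · rw [k2]
    linarith only [h, h d q, h d (q - e0)]

theorem NCaseB_markov {ι : Type} (S : Finset ι) (f : ι → ℝ) (hf : ∀ i, 0 ≤ f i) {a : ℝ}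
    (ha : 0 ≤ a) (h : ¬ S.card ≤ 2 * (S.filter fun i => f i ≤ a).card) :
    a * S.card ≤ 2 * ∑ i ∈ S, f i := by
  have h1 := card_filter_add_card_filter_not (s := S) fun i => f i ≤ a
  have h2 : (S.card : ℝ) ≤ 2 * (S.filter fun i => ¬ f i ≤ a).card := by
    exact_mod_cast (by omega : S.card ≤ 2 * (S.filter fun i => ¬ f i ≤ a).card)
  have h3 := card_nsmul_le_sum (S.filter fun i => ¬ f i ≤ a) f a fun i hi =>
    (not_le.1 (mem_filter.1 hi).2).le
  have h4 := sum_le_sum_of_subset_of_nonneg (filter_subset (fun i => ¬ f i ≤ a) S)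
    fun i _ _ => hf i
  rw [nsmul_eq_mul] at h3
  linarith only [h3, h4, ha, h2, mul_nonneg_of_nonpos_of_nonpos (Mathlib.Tactic.Linarith.sub_nonpos_of_le ha) (Mathlib.Tactic.Linarith.sub_nonpos_of_le h2)]

theorem NCaseB_pt {z₁ z₂ Z N A T : ℝ} (h₁ : 0 < z₁) (h₂ : 0 < z₂) (hZ : 0 < Z) (hN : N ≤ z₁ * z₂)
    (hA : N ≤ Real.exp A * Z ^ 2) (hT : 0 ≤ T) (e : T = -A - 2)
    (h0 : 0 ≤ Real.log (Z / z₁) + Real.log (Z / z₂)) :
    T * (N / (z₁ * z₂)) ≤ T / 4 + (Real.log (Z / z₁) + Real.log (Z / z₂)) := by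
  have hz := mul_pos h₁ h₂
  by_cases k : T ≤ Real.log (Z / z₁) + Real.log (Z / z₂)
  · have := mul_le_of_le_one_right hT ((div_le_one hz).2 hN)
    linarith only [h0, k, this]
  · have e1 : N / (z₁ * z₂) ≤ Real.exp (A + (Real.log (Z / z₁) + Real.log (Z / z₂))) := by
      rw [Real.exp_add, Real.exp_add, Real.exp_log (div_pos hZ h₁), Real.exp_log (div_pos hZ h₂),
        div_mul_div_comm, ← mul_div_assoc, ← pow_two]
      exact div_le_div_of_nonneg_right hA hz.le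
    have e2 : Real.exp (-2) ≤ 1 / 4 := by
      have := Real.add_one_le_exp 1
      rw [Real.exp_neg, ← one_add_one_eq_two, Real.exp_add, ← one_div]
      exact one_div_le_one_div_of_le (by norm_num) (by linarith only [this, mul_nonneg_of_nonpos_of_nonpos (Mathlib.Tactic.Linarith.sub_nonpos_of_le this) (Mathlib.Tactic.Linarith.sub_nonpos_of_le this)])
    have e3 := mul_le_mul_of_nonneg_left (e1.trans ((Real.exp_le_exp.2 (by linarith only [e, k])).trans e2)) hT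
    linarith only [h0, e3]

theorem NCaseB_main : ∃ η : ℝ, 0 < η ∧ ∀ (μ : Measure Dimer) (J : Dimer → Fin 3 → ℝ)
    (σ : Fin 3 → Bool) (s : Fin 3 → ℝ), KM μ → IsJ μ J →
      ¬ ∀ᵐ τ ∂μ, 1 ≤ ∑ i, sd (J τ) (i, σ i) ∧ ∀ i, (J τ i - s i) ^ 2 ≤ η := by
  obtain ⟨c₀, hc, l₀, hdet⟩ := caseB_det
  refine ⟨c₀ / 960, by positivity, fun μ J σ s h hJ ha => ?_⟩
  have := h.im.prob
  have hm := NCaseB_mono h.im hJ (ha.mono fun _ k => k.1)
  obtain ⟨l₁, hf⟩ := NCaseB_flux hJ (by positivity) (ha.mono fun _ k => k.2)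
  obtain ⟨l, k0, k1, k2, k3⟩ : ∃ l : ℕ, l ≥ l₀ ∧ l ≥ l₁ ∧ 2 ∣ l ∧ 0 < l :=
    ⟨2 * (l₀ + l₁ + 1), by omega, by omega, by omega, by omega⟩
  obtain ⟨b, hb, γ, hγ, hd⟩ := hdet l k0 k2
  have hSB := NCaseB_SB (by positivity) (hf l k1) b
  obtain ⟨L₀, hL⟩ := h.lp (γ / (16 * ((b : ℝ) + 1) ^ 3)) (by positivity)
  obtain ⟨n, hn⟩ := exists_nat_ge ((400 * ((b : ℝ) + 1) ^ 2 + 5) / γ)
  obtain ⟨u, hu⟩ : ∃ u : ℝ, u = 2 * (n + L₀ : ℕ) + 1 := ⟨_, rfl⟩
  have u1 : 1 ≤ u := by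
    rw [hu]
    exact le_add_of_nonneg_left (by positivity)
  have u2 : 400 * ((b : ℝ) + 1) ^ 2 + 5 ≤ γ * u := by
    refine ((div_le_iff₀' hγ).1 hn).trans (mul_le_mul_of_nonneg_left ?_ hγ.le)
    rw [hu]
    push_cast
    linarith only [n.cast_nonneg (α := ℝ), L₀.cast_nonneg (α := ℝ)]
  have g1 : ((grid b (n + L₀)).card : ℝ) = u ^ 3 := by
    rw [card_grid, hu]
    push_cast
    rfl
  have g2 : (gL b (n + L₀) : ℝ) = (b + 1) * u := by
    rw [gL, hu]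
    push_cast
    ring
  have g3 : L₀ ≤ gL b (n + L₀) ∧ 1 ≤ gL b (n + L₀) := by
    clear * - L₀ b n hb
    rw [gL]
    constructor <;> linarith only [hb, mul_nonneg_of_nonpos_of_nonpos (Mathlib.Tactic.Linarith.sub_nonpos_of_le (Mathlib.Tactic.Linarith.natCast_nonneg ℤ b)) (Mathlib.Tactic.Linarith.sub_nonpos_of_le (Mathlib.Tactic.Linarith.natCast_nonneg ℤ n)), mul_nonneg_of_nonpos_of_nonpos (Mathlib.Tactic.Linarith.sub_nonpos_of_le (Mathlib.Tactic.Linarith.natCast_nonneg ℤ b)) (Mathlib.Tactic.Linarith.sub_nonpos_of_le (Mathlib.Tactic.Linarith.natCast_nonneg ℤ L₀))]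
  have hd := hd (n + L₀) σ
  have hL := hL _ g3.1
  generalize gL b (n + L₀) = L at hd hL g2 g3
  generalize grid b (n + L₀) = S at hd g1
  obtain ⟨a, ea⟩ : ∃ a, a = c₀ * (b : ℝ) ^ 3 * (l : ℝ) ^ 2 := ⟨_, rfl⟩
  have a0 : 0 < a := by
    rw [ea]
    positivity
  rw [← ea] at hd
  let E : (V → V) → (V → V) → Prop := fun ρ₁ ρ₂ => Mono σ (box (L + 1)) ρ₁ ∧
    Mono σ (box (L + 1)) ρ₂ ∧ S.card ≤ 2 * (S.filter fun c => SB b l c ρ₁ ρ₂ ≤ a).card
  obtain ⟨Λ, hΛ⟩ := NCaseB_lsum S (NCaseB_lSB b l)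
  have lg : Local2 (box (L + 1) ∪ Λ) fun ρ₁ ρ₂ => if E ρ₁ ρ₂ then (1 : ℝ) else 0 := by
    clear * - L Λ E σ S b l a hΛ hc
    intro ρ₁ ρ₂ ρ₁' ρ₂' q1 q2 q3 q4 e f
    refine if_congr (and_congr ?_ (and_congr ?_ ?_)) rfl rfl
    · exact forall₂_congr fun x hx => by rw [e x (mem_union_left _ hx)]
    · exact forall₂_congr fun x hx => by rw [f x (mem_union_left _ hx)]
    · rw [filter_congr fun c hc => by rw [hΛ c hc _ _ _ _ q1 q2 q3 q4
        (fun x hx => e x (mem_union_right _ hx)) fun x hx => f x (mem_union_right _ hx)]]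
  have i1 : ∀ c ∈ S, Integrable (fun p : Dimer × Dimer => SB b l c p.1.1 p.2.1) (μ.prod μ) :=
    fun c hc => Meas_int2 (hΛ c hc) _
  have s1 : 1 / 2 ≤ ∫ p, (if E p.1.1 p.2.1 then (1 : ℝ) else 0) ∂(μ.prod μ) := by
    clear * - μ a S E σ L b l this Λ lg i1 hm a0 c₀ hSB u g1 u1 ea
    have t1 := integral_mono_ae (integrable_const (a * S.card))
      (((Meas_int2 lg (μ.prod μ)).const_mul (a * S.card)).add
        ((integrable_finsetSum S i1).const_mul 2)) (by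
      filter_upwards [Measure.quasiMeasurePreserving_fst.ae hm,
        Measure.quasiMeasurePreserving_snd.ae hm] with p p1 p2
      have n0 : ∀ c, 0 ≤ SB b l c p.1.1 p.2.1 := fun c => by
        clear * - b l c p
        unfold SB lsum
        positivity
      simp only [Pi.add_apply]
      split_ifs with k
      · linarith only [n0, sum_nonneg fun c (_ : c ∈ S) => n0 c]
      · linarith only [n0, a0, k, p1, p2, NCaseB_markov S _ n0 a0.le fun k' => k ⟨p1 _, p2 _, k'⟩])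
    rw [integral_add' ((Meas_int2 lg _).const_mul _) ((integrable_finsetSum S i1).const_mul 2),
      integral_const, integral_const_mul, integral_const_mul, integral_finsetSum S i1,
      probReal_univ, one_smul] at t1
    have t2 := sum_le_card_nsmul S _ _ fun c _ => hSB c
    rw [nsmul_eq_mul, show 48 * (5 * (c₀ / 960)) * ((b : ℝ) ^ 3 * (l : ℝ) ^ 2) = a / 4 by
      rw [ea]; ring] at t2
    have t3 : 0 < a * S.card := by
      rw [g1]
      positivity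
    refine le_of_mul_le_mul_left ?_ t3
    linarith only [t1, t2]
  rw [← h.im.dlr2 h.im (box L) lg] at s1
  obtain ⟨T, eT⟩ : ∃ T, T = -(200 * (L : ℝ) ^ 2 - γ * S.card) - 2 := ⟨_, rfl⟩
  have u3 : 1 ≤ u ^ 2 := one_le_pow₀ u1
  have u4 := mul_le_mul_of_nonneg_right u2 (sq_nonneg u)
  have T1 : γ * u ^ 3 / 2 < T := by
    rw [eT, g1, g2]
    linarith only [u3, u4]
  have T0 : 0 ≤ T := (T1.trans_le' (by positivity)).le
  have i2 := (Trans_comp (Trans_local_zz (box L)) fun z => Real.log (Zs L / z)).integrable μ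
  obtain ⟨j1, j2⟩ := NCaseB_add i2 i2
  have s2 := integral_mono ((Meas_int2 (local2_gam2 (Λ := box L) lg) (μ.prod μ)).const_mul T)
    ((integrable_const (T / 4)).add j1) fun p => by
      have z1 : (0 : ℝ) < zz (box L) p.1.1 := Nat.cast_pos.2 (zz_dimer_pos _ _)
      have z2 : (0 : ℝ) < zz (box L) p.2.1 := Nat.cast_pos.2 (zz_dimer_pos _ _)
      have := NCaseB_pt z1 z2 (Trans_Zs_pos L) (by
        rw [← Nat.cast_mul, Nat.cast_le, zz, zz, ← card_product]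
        exact card_filter_le _ _) (hd _ _ (isExt_dimer p.1) (isExt_dimer p.2)) T0 eT
        (add_nonneg (log_Zs_nonneg g3.2 _) (log_Zs_nonneg g3.2 _))
      refine le_of_eq_of_le ?_ this
      rw [card_filter, Nat.cast_sum, sum_product]
      simp only [gam2, E, Nat.cast_ite, Nat.cast_one, Nat.cast_zero]
  rw [integral_add' (integrable_const _) j1, j2, integral_const_mul, integral_const, probReal_univ,
    one_smul] at s2
  have s3 := mul_le_mul_of_nonneg_left s1 T0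
  rw [g2, show γ / (16 * ((b : ℝ) + 1) ^ 3) * ((b + 1) * u) ^ 3 = γ * u ^ 3 / 16 by
    field_simp] at hL
  clear * - μ L γ u T E σ S b l a hL T1 s2 s3; linarith only [hL, T1, s2, s3]

/-- A measure of maximal entropy does not have its local current on the boundary. -/
theorem caseB {ν : Measure Dimer} (h : KM ν) {J : Dimer → Fin 3 → ℝ} (hJ : IsJ ν J) :
    ¬ ∀ᵐ τ ∂ν, 1 ≤ n1 (J τ) := by
  intro ha
  have := h.im.prob
  obtain ⟨η, hη, H⟩ := NCaseB_main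
  let S : (Fin 3 → Bool) × (Fin 3 → ℚ) → Set (Fin 3 → ℝ) := fun q =>
    {j | 1 ≤ ∑ i, sd j (i, q.1 i) ∧ ∀ i, (j i - q.2 i) ^ 2 ≤ η}
  have mS : ∀ q, MeasurableSet (S q) := fun q => by
    have c1 : Continuous fun j : Fin 3 → ℝ => ∑ i, sd j (i, q.1 i) :=
      continuous_finsetSum _ fun i _ => by
        unfold sd
        split_ifs <;> fun_prop
    simp only [S, Set.ofPred_and, Set.ofPred_forall]
    exact ((isClosed_le continuous_const c1).inter
      (isClosed_iInter fun i => isClosed_le (by fun_prop) continuous_const)).measurableSet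
  have h0 : ∀ q, ν (J ⁻¹' S q) = 0 := fun q => by_contra fun k =>
    H _ J q.1 (fun i => q.2 i) (h.cond (hJ.aInv (mS q)) k) (hJ.cond h.im (hJ.meas (mS q)) k)
      (ProbabilityTheory.ae_cond_mem (hJ.meas (mS q)))
  obtain ⟨τ, k1, k2⟩ := (ha.and (ae_all_iff.2 fun q => measure_eq_zero_iff_ae_notMem.1 (h0 q))).exists
  choose r hr using fun i => exists_rat_near (J τ i) (Real.sqrt_pos.2 hη)
  refine k2 (fun i => decide (0 ≤ J τ i), r) ⟨k1.trans_eq (sum_congr rfl fun i _ => ?_),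
    fun i => (Real.sq_sqrt hη.le ▸ sq_le_sq' (abs_lt.1 (hr i)).1.le (abs_lt.1 (hr i)).2.le :)⟩
  simp only [sd, decide_eq_true_eq]
  split_ifs with k
  exacts [abs_of_nonneg k, abs_of_neg (not_le.1 k)]

end Pool.Agent.Work.MP_5cb0a4_pr.Z
end
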