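import Pool.Agent.Work.MP_5cb0a4_pr.N.IsoP
import Pool.Agent.Work.MP_5cb0a4_pr.Z.Ergo
import Pool.Agent.Work.MP_5cb0a4_pr.Z.Paths
import Pool.Agent.Work.MP_5cb0a4_pr.N.Posi

-- merged part: Pool.Agent.Work.MP_5cb0a4_pr.N.HopA
section
/-!
Helper lemmas for `N/Hop.lean`: the weights as products over the even edges.
-/

open MeasureTheory Finset Filter Topology
open scoped Classical

namespace Pool.Agent.Work.MP_5cb0a4_pr.Z

noncomputable section

/-- Even edges inside `Λ`. -/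
def NHop_EE (Λ : Finset V) : Finset (V × Dir) :=
  (Λ ×ˢ (univ : Finset Dir)).filter fun e => IsEven e.1 ∧ oe e ∈ Λ

lemma NHop_mem {Λ : Finset V} {e : V × Dir} :
    e ∈ NHop_EE Λ ↔ e.1 ∈ Λ ∧ IsEven e.1 ∧ oe e ∈ Λ := by
  simp [NHop_EE]

lemma NHop_ne (e : V × Dir) : oe e ≠ e.1 := fun h => dv_ne_zero e.2 (add_eq_left.1 h)

lemma NHop_inj : Function.Injective fun e : V × Dir => (e.1, oe e) := by
  rintro ⟨x, d⟩ ⟨y, d'⟩ h
  obtain ⟨rfl, h2⟩ := Prod.mk.inj h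
  exact congrArg _ (dv_injective (add_left_cancel h2))

/-- The product over the pairs from layer `i` to layer `j`. -/
def NHop_W (Λ : Finset V) (F : V → V → Bool → Bool → ℂ) (μ : HE → HE) (i j : Bool) : ℂ :=
  ∏ e ∈ NHop_EE Λ, if μ (e.1, i) = (oe e, j) then F e.1 (oe e) i j else 1

lemma NHop_WI (Λ : Finset V) (F : V → V → Bool → Bool → ℂ) {μ : HE → HE} (hμ : BExt μ) :
    WI Λ F μ = ∏ i, ∏ j, NHop_W Λ F μ i j := by
  simp only [WI, NHop_W, NHop_EE, prod_filter, prod_product]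
  rw [Finset.prod_comm]
  refine prod_congr rfl fun i _ => ?_
  rw [Finset.prod_comm]
  refine prod_congr rfl fun x _ => ?_
  rcases (hμ (x, i)).1 with h | h
  · rw [if_neg fun k => k.2.1 h]
    refine (prod_eq_one fun j _ => prod_eq_one fun d _ => ?_).symm
    rw [h, if_neg fun k : (x, i) = (oe (x, d), j) => NHop_ne (x, d) (Prod.mk.inj k).1.symm, ite_self]
  · obtain ⟨d, hd⟩ := nbr_iff.1 h
    obtain ⟨j, hj⟩ : ∃ j, μ (x, i) = (oe (x, d), j) := ⟨_, Prod.ext hd rfl⟩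
    rw [hj, Fintype.prod_eq_single j, Fintype.prod_eq_single d, if_pos rfl]
    · exact if_congr ⟨fun k => ⟨k.1, k.2.2⟩, fun k => ⟨k.1,
        fun k' => NHop_ne (x, d) (Prod.mk.inj k').1, k.2⟩⟩ rfl rfl
    · intro d' hd'
      rw [if_neg fun k : (oe (x, d), j) = (oe (x, d'), j) =>
        hd' (dv_injective (add_left_cancel (Prod.mk.inj k).1)).symm, ite_self]
    · intro j' hj'
      refine prod_eq_one fun d' _ => ?_
      rw [if_neg fun k : (oe (x, d), j) = (oe (x, d'), j') => hj' (Prod.mk.inj k).2.symm, ite_self]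

lemma NHop_dg (Λ : Finset V) (φ : V → V → Bool → ℂ) {μ : HE → HE} (hμ : BExt μ) :
    dg Λ φ μ = ∏ i, NHop_W Λ (fun x y i _ => φ x y i) μ i i := by
  have h : dg Λ φ μ = WI Λ (fun x y i j => if j = i then φ x y i else 1) μ := by
    refine prod_congr rfl fun h _ => ?_
    by_cases k : (μ h).2 = h.2 <;> simp [k]
  rw [h, NHop_WI _ _ hμ]
  refine prod_congr rfl fun i _ => ?_
  rw [Fintype.prod_eq_single i]
  · simp [NHop_W]
  · intro j hj
    simp [NHop_W, hj]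

lemma NHop_prj (μ : HE → HE) (i : Bool) {x y : V} (h : y ≠ x) :
    prj μ i x = y ↔ μ (x, i) = (y, i) := by
  unfold prj
  split_ifs with k
  · exact ⟨fun e => Prod.ext e k, fun e => congrArg Prod.fst e⟩
  · exact ⟨fun e => (h e.symm).elim, fun e => (k (congrArg Prod.snd e)).elim⟩

/-- Layer changes from layer `i`. -/
def NHop_H (Λ : Finset V) (μ : HE → HE) (i : Bool) : Finset (V × Dir) :=
  (Λ ×ˢ (univ : Finset Dir)).filter fun e => IsEven e.1 ∧ μ (e.1, i) = (oe e, !i)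

lemma NHop_memH {Λ P : Finset V} {μ : HE → HE} (h : okB Λ P μ) {i : Bool} {e : V × Dir} :
    e ∈ NHop_H Λ μ i ↔ e ∈ NHop_EE Λ ∧ μ (e.1, i) = (oe e, !i) := by
  simp only [NHop_H, NHop_mem, mem_filter, mem_product, mem_univ, and_true]
  refine ⟨fun k => ⟨⟨k.1, k.2.1, by_contra fun k' => ?_⟩, k.2.2⟩, fun k => ⟨k.1.1, k.1.2.1, k.2⟩⟩
  have := (h (e.1, i) k.1).2
  rw [k.2.2] at this
  exact Bool.not_ne_self i (this k')

lemma NHop_WH {Λ P : Finset V} {μ : HE → HE} (h : okB Λ P μ) (F : V → V → Bool → Bool → ℂ)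
    (i : Bool) : NHop_W Λ F μ i (!i) = ∏ e ∈ NHop_H Λ μ i, F e.1 (oe e) i (!i) := by
  rw [NHop_W, ← prod_filter]
  exact prod_congr (Finset.ext fun e => by rw [mem_filter, NHop_memH h]) fun _ _ => rfl

lemma NHop_split {Λ P : Finset V} {μ : HE → HE} (hμ : BExt μ) (h : okB Λ P μ)
    (F : V → V → Bool → Bool → ℂ) : WI Λ F μ = dg Λ (fun x y i => F x y i i) μ *
      ((∏ e ∈ HA Λ μ, F e.1 (oe e) false true) * ∏ e ∈ HB Λ μ, F e.1 (oe e) true false) := by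
  have h1 : NHop_W Λ F μ false true = ∏ e ∈ HA Λ μ, F e.1 (oe e) false true := NHop_WH h F false
  have h2 : NHop_W Λ F μ true false = ∏ e ∈ HB Λ μ, F e.1 (oe e) true false := NHop_WH h F true
  rw [NHop_WI _ _ hμ, NHop_dg _ _ hμ, ← h1, ← h2]
  simp only [Fintype.prod_bool, NHop_W]
  ring

lemma NHop_dg_prod {ι : Type} (Λ : Finset V) (S : Finset ι) (ψ : ι → V → V → Bool → ℂ)
    (μ : HE → HE) : dg Λ (fun x y j => ∏ a ∈ S, ψ a x y j) μ = ∏ a ∈ S, dg Λ (ψ a) μ := by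
  unfold dg
  rw [Finset.prod_comm]
  refine prod_congr rfl fun h _ => ?_
  split_ifs <;> simp

lemma NHop_dg_mul (Λ : Finset V) (φ ψ : V → V → Bool → ℂ) (μ : HE → HE) :
    dg Λ (fun x y j => φ x y j * ψ x y j) μ = dg Λ φ μ * dg Λ ψ μ := by
  unfold dg
  rw [← prod_mul_distrib]
  refine prod_congr rfl fun h _ => ?_
  split_ifs <;> simp

lemma NHop_contr_diag {a : Bool → ℂ} (h : ∀ i, ‖a i‖ ≤ 1) :
    Contr fun i j => if j = i then a i else 0 := by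
  refine Poly_contr fun v => ?_
  have h1 := fun i => pow_le_pow_left₀ (by positivity)
    (mul_le_of_le_one_left (norm_nonneg (v i)) (h i)) 2
  simpa using add_le_add (h1 true) (h1 false)

lemma NHop_contr_anti {a : Bool → ℂ} (h : ∀ i, ‖a i‖ ≤ 1) :
    Contr fun i j => if j = i then 0 else a i := by
  refine Poly_contr fun v => ?_
  have h1 := fun i j => pow_le_pow_left₀ (by positivity)
    (mul_le_of_le_one_left (norm_nonneg (v j)) (h i)) 2
  simpa [add_comm] using add_le_add (h1 true false) (h1 false true)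

lemma NHop_contr_rot {a : ℝ} (ha : a ^ 2 ≤ 1) {z : ℂ} (hz : ‖z‖ = 1) :
    Contr fun i j => if j = i then ((1 - a ^ 2 : ℝ) : ℂ) else
      if i then -a * starRingEnd ℂ z else a * z := by
  refine Poly_contr fun v => ?_
  have h1 : z.re * z.re + z.im * z.im = 1 := by
    rw [← Complex.normSq_apply, Complex.normSq_eq_norm_sq, hz, one_pow]
  have h2 : 0 ≤ ‖v true‖ ^ 2 + ‖v false‖ ^ 2 := by positivity
  have h3 : (1 - a ^ 2) ^ 2 + a ^ 2 * (z.re * z.re + z.im * z.im) ≤ 1 := by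
    rw [h1]
    linarith only [ha, sq_nonneg a, mul_nonneg_of_nonpos_of_nonpos (Mathlib.Tactic.Linarith.sub_nonpos_of_le (sq_nonneg a)) (Mathlib.Tactic.Linarith.sub_nonpos_of_le ha)]
  refine le_of_eq_of_le ?_ (mul_le_of_le_one_left h2 h3)
  simp only [if_true, Bool.false_eq_true, Bool.true_eq_false, if_false, Complex.sq_norm,
    Complex.normSq_apply, Complex.add_re, Complex.add_im, Complex.mul_re, Complex.mul_im,
    Complex.ofReal_re, Complex.ofReal_im, Complex.neg_re, Complex.neg_im, Complex.conj_re,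
    Complex.conj_im]
  ring

/-- A phase on one edge in one layer. -/
lemma NHop_sgl {Λ : Finset V} {μ : HE → HE} (hμ : BExt μ) {x : V} {d : Dir} (hx : x ∈ Λ)
    (hy : x + dv d ∈ Λ) (i : Bool) (c : ℂ) :
    dg Λ (fun x' y' j => if j = i ∧ s(x', y') = s(x, x + dv d) then c else 1) μ =
      if prj μ i x = x + dv d then c else 1 := by
  have key : ∀ e ∈ NHop_EE Λ,
      dg Λ (fun x' y' j => if j = i ∧ s(x', y') = s(e.1, oe e) then c else 1) μ =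
        if prj μ i e.1 = oe e then c else 1 := by
    intro e he
    rw [NHop_dg _ _ hμ, Fintype.prod_eq_single i, NHop_W, prod_eq_single_of_mem e he,
      if_pos (c := _ ∧ _) ⟨rfl, rfl⟩, if_congr (NHop_prj μ i (NHop_ne e)) rfl rfl]
    · intro f hf hfe
      rw [if_neg (c := _ ∧ _), ite_self]
      rintro ⟨-, k⟩
      rcases Sym2.eq_iff.1 k with k | k
      · exact hfe (NHop_inj (Prod.ext k.1 k.2))
      · exact isEven_add_dv.1 (show IsEven (oe e) from k.1 ▸ (NHop_mem.1 hf).2.1) (NHop_mem.1 he).2.1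
    · intro j hj
      simp [NHop_W, hj]
  by_cases h : IsEven x
  · exact key (x, d) (NHop_mem.2 ⟨hx, h, hy⟩)
  · have e : oe (x + dv d, (d.1, !d.2)) = x := by simp [oe, dv_not]
    have := key (x + dv d, (d.1, !d.2)) (NHop_mem.2 ⟨hy, isEven_add_dv.2 h, e.symm ▸ hx⟩)
    rw [e, Sym2.eq_swap] at this
    rw [this, if_congr (Flux_inv (isExt_prj hμ i) _ _) rfl rfl]

lemma NHop_hop (Λ P : Finset V) (S : Bool → Finset (V × Dir)) (φ : V → V → Bool → ℂ)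
    (hφ : ∀ x y i, ‖φ x y i‖ ≤ 1) :
    Mix2 Λ P (fun μ => (if okB Λ P μ ∧ ∀ i, NHop_H Λ μ i = S i then 1 else 0) * dg Λ φ μ) 1 := by
  by_cases hS : ∀ i, S i ⊆ NHop_EE Λ
  swap
  · refine (Mix2.of_zero Λ P zero_le_one).mono (fun μ _ => ?_) le_rfl
    rw [if_neg fun k => hS fun i e he => ((NHop_memH k.1).1 (k.2 i ▸ he)).1, zero_mul]
  let p : Bool → V → V → Prop := fun i x y => ∃ e ∈ S i, (e.1, oe e) = (x, y)
  have hp : ∀ i e, p i e.1 (oe e) ↔ e ∈ S i := fun i e =>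
    ⟨fun ⟨f, h1, h2⟩ => NHop_inj h2 ▸ h1, fun h => ⟨e, h, rfl⟩⟩
  let E : V → V → Bool → Bool → ℂ := fun x y => if ∃ k, p k x y then
    fun i j => if j = i then 0 else if p i x y then 1 else 0 else fun i j => if j = i then φ x y i else 0
  let G : (V → Sym2 V) → Prop := fun U =>
    ∀ i, ∀ e ∈ S i, oe e ∈ U e.1 ∧ (e ∈ S (!i) → U e.1 = s(oe e, oe e))
  refine (Mix2.adm (Λ := Λ) (P := P) (fun U => if G U then 1 else 0) E (fun U U' h => ?_)
    (fun U => by split_ifs <;> simp) fun x y => ?_).mono (fun μ hμ => ?_) le_rfl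
  · refine if_congr (forall_congr' fun i => forall₂_congr fun e he => ?_) rfl rfl
    rw [h e.1 (NHop_mem.1 (hS i he)).1]
  · simp only [E]
    split_ifs
    · exact NHop_contr_anti fun i => by split_ifs <;> simp
    · exact NHop_contr_diag (hφ x y)
  unfold wt2
  by_cases ok : okB Λ P μ
  swap
  · rw [if_neg fun k => ok k.1, if_neg ok, zero_mul]
  rw [if_pos ok, NHop_WI _ _ hμ]
  beta_reduce
  by_cases hH : ∀ i, NHop_H Λ μ i = S i
  · have h1 : ∀ i, ∀ e ∈ S i, μ (e.1, i) = (oe e, !i) := fun i e he =>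
      ((NHop_memH ok).1 (hH i ▸ he)).2
    have h2 : G (un μ) := fun i e he => by
      have := h1 i e he
      refine ⟨?_, fun k => ?_⟩
      · cases i <;> simp [un, this]
      · have k' := h1 _ e k
        cases i <;> simp only [Bool.not_true, Bool.not_false] at k' this <;> simp [un, this, k']
    rw [if_pos ⟨ok, hH⟩, if_pos h2, NHop_dg _ _ hμ]
    refine congrArg _ (prod_congr rfl fun i _ => ?_)
    rw [Fintype.prod_eq_single i]
    · refine prod_congr rfl fun e _ => ite_congr rfl (fun k => ?_) fun _ => rfl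
      have : ¬ ∃ k, p k e.1 (oe e) := by
        rintro ⟨j, hj⟩
        have k' := h1 j e ((hp j e).1 hj)
        by_cases hji : j = i
        · rw [hji, k] at k'
          exact Bool.not_ne_self i (Prod.mk.inj k').2.symm
        · rw [Bool.eq_not.2 hji, Bool.not_not, ← k] at k'
          have := congrArg μ k'
          rw [(hμ _).2, (hμ _).2] at this
          exact Bool.not_ne_self i (Prod.mk.inj this).2
      simp only [E, if_neg this, if_true]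
    · intro j hj
      rw [Bool.eq_not.2 hj, NHop_WH ok, hH]
      refine prod_eq_one fun e he => ?_
      have k := (hp i e).2 he
      simp only [E, if_pos (⟨i, k⟩ : ∃ k, p k e.1 (oe e)), if_neg (Bool.not_ne_self i), if_pos k]
  · rw [if_neg fun k => hH k.2, zero_mul]
    by_contra h0
    obtain ⟨g0, w0⟩ := mul_ne_zero_iff.1 (Ne.symm h0)
    have hG : G (un μ) := by_contra fun k => g0 (if_neg k)
    have hw : ∀ i j, ∀ e ∈ NHop_EE Λ, μ (e.1, i) = (oe e, j) → E e.1 (oe e) i j ≠ 0 :=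
      fun i j e he k => by
        have := prod_ne_zero_iff.1 (prod_ne_zero_iff.1 (prod_ne_zero_iff.1 w0 i (mem_univ _)) j
          (mem_univ _)) e he
        rwa [if_pos k] at this
    refine hH fun i => Finset.ext fun e => ⟨fun he => ?_, fun he => ?_⟩
    · obtain ⟨k1, k2⟩ := (NHop_memH ok).1 he
      have := hw i _ e k1 k2
      simp only [E] at this
      by_contra k
      split_ifs at this <;> simp [hp, k] at this
    · have key : ∀ k, (μ (e.1, k)).1 = oe e → e ∈ S k ∧ μ (e.1, k) = (oe e, !k) := fun k hk => by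
        have := hw k _ e (hS i he) (Prod.ext hk rfl)
        simp only [E, if_pos (⟨i, (hp i e).2 he⟩ : ∃ k, p k e.1 (oe e))] at this
        split_ifs at this with a b
        · exact (this rfl).elim
        · exact ⟨(hp k e).1 b, Prod.ext hk (Bool.eq_not.2 a)⟩
        · exact (this rfl).elim
      refine (NHop_memH ok).2 ⟨hS i he, (key i ?_).2⟩
      obtain ⟨g1, g2⟩ := hG i e he
      by_contra k
      have k1 : (μ (e.1, !i)).1 = oe e := by
        rcases Sym2.mem_iff.1 g1 with g | g <;> cases i <;> first | exact g.symm | exact (k g.symm).elim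
      have k2 := Sym2.eq_iff.1 (g2 (key _ k1).1)
      rw [or_self] at k2
      cases i
      exacts [k k2.1, k k2.2]

/-- The average of `z ^ a * conj z ^ b` over the fourth roots of unity. -/
def NHop_k (a b : ℕ) : ℂ :=
  ∑ k ∈ range 4, 1 / 4 * ((Complex.I ^ k) ^ a * starRingEnd ℂ (Complex.I ^ k) ^ b)

lemma NHop_k_norm (a b : ℕ) : ‖NHop_k a b‖ ≤ 1 := by
  refine (norm_sum_le _ _).trans (le_of_eq ?_)
  simp

lemma NHop_k_small {a b : ℕ} (h : a + b < 4) : NHop_k a b = if a = b then 1 else 0 := by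
  have ha : a < 4 := by omega
  have hb : b < 4 := by omega
  interval_cases a <;> interval_cases b <;> first
    | omega
    | (simp [NHop_k, sum_range_succ, pow_succ, Complex.ext_iff] <;> norm_num)

/-- The coefficient of the layer changes `A`, `B` after averaging. -/
def NHop_K {ι : Type} (α : ι → ℝ) (A B : Finset ι) : ℂ :=
  (∏ e ∈ A, (α e : ℂ)) * (∏ e ∈ B, -(α e : ℂ)) * NHop_k A.card B.card

/-- The terms of order at least four. -/
def NHop_S {ι : Type} (D : Finset ι) : Finset (Finset ι × Finset ι) :=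
  (D.powerset ×ˢ D.powerset).filter fun q => 4 ≤ q.1.card + q.2.card

lemma NHop_comb {ι : Type} (D A B : Finset ι) (t : ι → ℝ) (θ : ℝ) {α : ι → ℝ}
    (hα : ∀ e ∈ D, α e = θ * t e) (hα' : ∀ e ∉ D, α e = 0) (h : Finset ι → Finset ι → ℝ)
    (h1 : h A B = 1) (h0 : ∀ A' B', ¬ (A = A' ∧ B = B') → h A' B' = 0) :
    ((h ∅ ∅ - θ ^ 2 * ∑ e ∈ D, ∑ f ∈ D, t e * t f * h {e} {f} : ℝ) : ℂ) =
      NHop_K α A B + ∑ q ∈ NHop_S D, -NHop_K α q.1 q.2 * h q.1 q.2 := by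
  have hz : ¬ (A = ∅ ∧ B = ∅) → (∀ e ∈ D, ∀ f ∈ D, ¬ (A = {e} ∧ B = {f})) →
      ((h ∅ ∅ - θ ^ 2 * ∑ e ∈ D, ∑ f ∈ D, t e * t f * h {e} {f} : ℝ) : ℂ) = 0 := fun a b => by
    rw [h0 _ _ a, sum_eq_zero fun e he => sum_eq_zero fun f hf => by rw [h0 _ _ (b e he f hf), mul_zero]]
    simp
  have hq : ∀ q : Finset ι × Finset ι, q ≠ (A, B) → -NHop_K α q.1 q.2 * h q.1 q.2 = 0 :=
    fun q hq => by rw [h0 _ _ fun k => hq (Prod.ext k.1.symm k.2.symm), Complex.ofReal_zero, mul_zero]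
  by_cases hm : (A, B) ∈ NHop_S D
  · have h4 : 4 ≤ A.card + B.card := (mem_filter.1 hm).2
    rw [sum_eq_single_of_mem _ hm fun q _ => hq q, h1, hz]
    · simp
    · rintro ⟨rfl, rfl⟩
      simp at h4
    · rintro e - f - ⟨rfl, rfl⟩
      simp at h4
  rw [sum_eq_zero (s := NHop_S D) fun q hq' => hq q fun k => hm (k ▸ hq'), add_zero]
  by_cases hs : A ⊆ D ∧ B ⊆ D
  swap
  · rw [hz]
    · rcases not_and_or.1 hs with k | k <;> obtain ⟨e, he, he'⟩ := not_subset.1 k <;>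
        rw [NHop_K, prod_eq_zero he (by simp [hα' e he'])] <;> simp
    · rintro ⟨rfl, rfl⟩
      simp at hs
    · rintro e he f hf ⟨rfl, rfl⟩
      simp [he, hf] at hs
  have h4 : A.card + B.card < 4 := not_le.1 fun k => hm (mem_filter.2
    ⟨mem_product.2 ⟨mem_powerset.2 hs.1, mem_powerset.2 hs.2⟩, k⟩)
  rw [NHop_K, NHop_k_small h4]
  by_cases hc : A.card = B.card
  swap
  · rw [if_neg hc, mul_zero, hz]
    · rintro ⟨rfl, rfl⟩
      simp at hc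
    · rintro e - f - ⟨rfl, rfl⟩
      simp at hc
  rw [if_pos hc, mul_one]
  by_cases hA : A.card = 0
  · obtain rfl := card_eq_zero.1 hA
    obtain rfl := card_eq_zero.1 (hc ▸ hA)
    rw [h1, sum_eq_zero fun e he => sum_eq_zero fun f hf => by
      rw [h0 _ _ fun k => singleton_ne_empty e k.1.symm, mul_zero]]
    simp
  · obtain ⟨e, rfl⟩ := card_eq_one.1 (show A.card = 1 by omega)
    obtain ⟨f, rfl⟩ := card_eq_one.1 (show B.card = 1 by omega)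
    have he := singleton_subset_iff.1 hs.1
    have hf := singleton_subset_iff.1 hs.2
    rw [h0 _ _ fun k => singleton_ne_empty e k.1, sum_eq_single_of_mem e he, sum_eq_single_of_mem f hf,
      h1, prod_singleton, prod_singleton, hα e he, hα f hf]
    · push_cast
      ring
    · intro f' _ k
      rw [h0 _ _ fun k' => k (singleton_injective k'.2).symm, mul_zero]
    · intro e' _ k
      exact sum_eq_zero fun f' _ => by rw [h0 _ _ fun k' => k (singleton_injective k'.1).symm, mul_zero]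

lemma NHop_K_norm {ι : Type} {D : Finset ι} {t : ι → ℝ} {θ : ℝ} (hθ : |θ| ≤ 1) {α : ι → ℝ}
    (hα : ∀ e ∈ D, α e = θ * t e) {q : Finset ι × Finset ι} (hq : q ∈ NHop_S D) :
    ‖NHop_K α q.1 q.2‖ ≤ (∏ e ∈ q.1, |t e|) * (∏ e ∈ q.2, |t e|) * θ ^ 4 := by
  obtain ⟨h1, h2⟩ := mem_filter.1 hq
  have h3 : ∀ A ⊆ D, ∏ e ∈ A, ‖(α e : ℂ)‖ = |θ| ^ A.card * ∏ e ∈ A, |t e| := fun A hA => by
    rw [← prod_const, ← prod_mul_distrib]
    exact prod_congr rfl fun e he => by rw [hα e (hA he), Complex.norm_real, Real.norm_eq_abs, abs_mul]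
  have h4 : |θ| ^ (q.1.card + q.2.card) ≤ θ ^ 4 := by
    rw [← (show Even 4 by decide).pow_abs]
    exact pow_le_pow_of_le_one (abs_nonneg _) hθ h2
  rw [NHop_K, norm_mul]
  refine (mul_le_of_le_one_right (norm_nonneg _) (NHop_k_norm _ _)).trans ?_
  simp only [norm_mul, norm_prod, norm_neg]
  rw [h3 _ (mem_powerset.1 (mem_product.1 h1).1), h3 _ (mem_powerset.1 (mem_product.1 h1).2),
    mul_mul_mul_comm, ← pow_add, mul_comm]
  exact mul_le_mul_of_nonneg_left h4 (by positivity)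

lemma NHop_cD {Λ : Finset V} {D : Finset (V × Dir)} (hD : D ⊆ NHop_EE Λ) {t : V × Dir → ℝ} {θ : ℝ}
    {α : V → V → ℝ} (hα : ∀ e ∈ D, α e.1 (oe e) = θ * t e) (hα' : ∀ e ∉ D, α e.1 (oe e) = 0)
    {μ : HE → HE} (hμ : BExt μ) : dg Λ (fun x y _ => ((1 - α x y ^ 2 : ℝ) : ℂ)) μ =
      cD D t θ (prj μ false) * cD D t θ (prj μ true) := by
  have key : ∀ i, NHop_W Λ (fun x y _ _ => ((1 - α x y ^ 2 : ℝ) : ℂ)) μ i i = cD D t θ (prj μ i) := by
    intro i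
    rw [NHop_W, ← prod_subset hD fun e _ he => by simp [hα' e he], cD, Complex.ofReal_prod]
    refine prod_congr rfl fun e he => ?_
    rw [hα e he, if_congr (NHop_prj μ i (NHop_ne e)) rfl rfl, mul_pow]
    split_ifs <;> simp
  rw [NHop_dg _ _ hμ, Fintype.prod_bool, key, key, mul_comm]

end

end Pool.Agent.Work.MP_5cb0a4_pr.Z
end

-- merged part: Pool.Agent.Work.MP_5cb0a4_pr.N.Hop
section
open MeasureTheory Finset Filter Topology
open scoped Classical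

namespace Pool.Agent.Work.MP_5cb0a4_pr.Z

/-- Forced layer changes are admissible: matrix units or the swap on `A ∪ B`, usage indicators. -/
theorem mix_hop (Λ P : Finset V) (A B : Finset (V × Dir)) (φ : V → V → Bool → ℂ)
    (hφ : ∀ x y i, ‖φ x y i‖ ≤ 1) :
    Mix2 Λ P (fun μ => (hop Λ P A B μ : ℂ) * dg Λ φ μ) 1 := by
  refine (NHop_hop Λ P (fun i => cond i B A) φ hφ).mono (fun μ _ => ?_) le_rfl
  rw [hop, apply_ite Complex.ofReal, Complex.ofReal_one, Complex.ofReal_zero]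
  exact congrArg (· * _) (if_congr (and_congr_right fun _ =>
    (Bool.forall_bool (p := fun i => NHop_H Λ μ i = cond i B A)).symm) rfl rfl)

theorem dg_one (Λ : Finset V) (μ : HE → HE) : dg Λ (fun _ _ _ => 1) μ = 1 := by
  simp [dg]

/-- The second order weight is a mixture of total weight `1 + C θ ^ 4`. -/
theorem mix_bq (D : Finset (V × Dir)) (hD : ∀ e ∈ D, IsEven e.1) (t : V × Dir → ℝ) :
    ∃ C : ℝ, 0 ≤ C ∧ ∀ (Λ P : Finset V) (θ : ℝ) (φ : V → V → Bool → ℂ),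
      (∀ e ∈ D, e.1 ∈ Λ ∧ oe e ∈ Λ) → |θ| ≤ 1 → (∀ e ∈ D, θ ^ 2 * t e ^ 2 ≤ 1) →
      (∀ x y i, ‖φ x y i‖ ≤ 1) → (∀ e ∈ D, ∀ i, φ e.1 (oe e) i = 1) →
      Mix2 Λ P (fun μ => (bq Λ P D t θ μ : ℂ) * dg Λ φ μ) (1 + C * θ ^ 4) := by
  refine ⟨∑ q ∈ NHop_S D, (∏ e ∈ q.1, |t e|) * ∏ e ∈ q.2, |t e|, by positivity,
    fun Λ P θ φ hΛ hθ ht hφ hφ1 => ?_⟩
  have hE : D ⊆ NHop_EE Λ := fun e he => NHop_mem.2 ⟨(hΛ e he).1, hD e he, (hΛ e he).2⟩
  obtain ⟨α, h1, h2, hc⟩ : ∃ α : V → V → ℝ, (∀ e ∈ D, α e.1 (oe e) = θ * t e) ∧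
      (∀ e ∉ D, α e.1 (oe e) = 0) ∧ ∀ x y, α x y = 0 ∨ (α x y ^ 2 ≤ 1 ∧ ∀ i, φ x y i = 1) := by
    have ha := NHop_inj.extend_apply (fun e => if e ∈ D then θ * t e else 0) 0
    refine ⟨fun x y => Function.extend (fun e : V × Dir => (e.1, oe e))
      (fun e => if e ∈ D then θ * t e else 0) 0 (x, y), fun e he => (ha e).trans (if_pos he),
      fun e he => (ha e).trans (if_neg he), fun x y => ?_⟩
    by_cases h : ∃ e : V × Dir, (e.1, oe e) = (x, y)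
    · obtain ⟨e, he⟩ := h
      obtain ⟨rfl, rfl⟩ := Prod.mk.inj he
      simp only [ha e]
      split_ifs with k
      · exact Or.inr ⟨by rw [mul_pow]; exact ht e k, hφ1 e k⟩
      · exact Or.inl rfl
    · exact Or.inl (Function.extend_apply' _ _ _ h)
  let φ' : V → V → Bool → ℂ := fun x y i => φ x y i * ((1 - α x y ^ 2 : ℝ) : ℂ)
  have hφ' : ∀ x y i, ‖φ' x y i‖ ≤ 1 := fun x y i => by
    rcases hc x y with h | h
    · simpa [φ', h] using hφ x y i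
    · simp only [φ', h.2, one_mul, Complex.norm_real, Real.norm_eq_abs]
      exact abs_le.2 ⟨by linarith only [h, h.1], by linarith only [sq_nonneg (α x y)]⟩
  let E : ℂ → V → V → Bool → Bool → ℂ := fun z x y i j =>
    if j = i then φ' x y i else if i then -α x y * starRingEnd ℂ z else α x y * z
  have m1 := Mix2.sum (Λ := Λ) (P := P) (range 4) (fun _ => 1 / 4)
    (fun k => wt2 Λ P (fun _ => 1) (E (Complex.I ^ k))) (fun _ => 1) fun k _ =>
      Mix2.adm _ _ (fun _ _ _ => rfl) (by simp) fun x y => by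
        rcases hc x y with h | h
        · simpa [E, h] using NHop_contr_diag (hφ' x y)
        · simpa only [E, φ', h.2, one_mul] using NHop_contr_rot h.1 (z := Complex.I ^ k) (by simp)
  have m2 := Mix2.sum (NHop_S D) (fun q => -NHop_K (fun e => α e.1 (oe e)) q.1 q.2) _ (fun _ => 1)
    fun q _ => mix_hop Λ P q.1 q.2 φ' hφ'
  refine (m1.add m2).mono (fun μ hμ => ?_) (add_le_add (by simp) ?_)
  · unfold bq wt2
    by_cases ok : okB Λ P μ
    · have e1 : ∑ k ∈ range 4, 1 / 4 * (1 * WI Λ (E (Complex.I ^ k)) μ) =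
          dg Λ φ' μ * NHop_K (fun e => α e.1 (oe e)) (HA Λ μ) (HB Λ μ) := by
        rw [NHop_K, NHop_k, mul_sum, mul_sum]
        refine sum_congr rfl fun k _ => ?_
        rw [NHop_split hμ ok]
        simp only [E, if_true, Bool.false_eq_true, Bool.true_eq_false, if_false, prod_mul_distrib,
          prod_const]
        ring
      have e2 := NHop_comb D (HA Λ μ) (HB Λ μ) t θ h1 h2 (fun A B => hop Λ P A B μ)
        (if_pos ⟨ok, rfl, rfl⟩) fun A B k => if_neg fun k' => k k'.2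
      simp only [if_pos ok, ← mul_assoc, ← sum_mul] at e1 ⊢
      rw [e1, Complex.ofReal_mul, e2, NHop_dg_mul, NHop_cD hE h1 h2 hμ]
      push_cast
      ring
    · simp [hop, ok]
  · rw [sum_mul]
    refine sum_le_sum fun q hq => ?_
    rw [mul_one, norm_neg]
    exact NHop_K_norm hθ h1 hq

/-- Weights that are mixtures after multiplication by admissible diagonal phases. -/
def NHop_M (Λ P : Finset V) (D : Finset (V × Dir)) (β : ℝ) (w : (HE → HE) → ℂ) : Prop :=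
  ∀ φ : V → V → Bool → ℂ, (∀ x y i, ‖φ x y i‖ ≤ 1) → (∀ e ∈ D, ∀ i, φ e.1 (oe e) i = 1) →
    Mix2 Λ P (fun μ => w μ * dg Λ φ μ) β

/-- Factors that keep the property `NHop_M`. -/
def NHop_G (Λ P : Finset V) (D : Finset (V × Dir)) (β : ℝ) (F : (HE → HE) → ℝ) : Prop :=
  ∀ w, NHop_M Λ P D β w → NHop_M Λ P D β fun μ => w μ * F μ

lemma NHop_G_mul {Λ P : Finset V} {D : Finset (V × Dir)} {β : ℝ} {F G : (HE → HE) → ℝ}
    (hF : NHop_G Λ P D β F) (hG : NHop_G Λ P D β G) : NHop_G Λ P D β fun μ => F μ * G μ :=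
  fun w hw φ h1 h2 => (hG _ (hF w hw) φ h1 h2).mono
    (fun μ _ => by simp only [Complex.ofReal_mul, mul_assoc]) le_rfl

lemma NHop_G_prod {ι : Type} {Λ P : Finset V} {D : Finset (V × Dir)} {β : ℝ} (S : Finset ι)
    {F : ι → (HE → HE) → ℝ} (hF : ∀ j ∈ S, NHop_G Λ P D β (F j)) :
    NHop_G Λ P D β fun μ => ∏ j ∈ S, F j μ := by
  induction S using Finset.induction_on with
  | empty => exact fun w hw φ h1 h2 => (hw φ h1 h2).mono (fun μ _ => by simp) le_rfl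
  | insert j S hj ih =>
    simp only [prod_insert hj]
    exact NHop_G_mul (hF j (mem_insert_self j S)) (ih fun k hk => hF k (mem_insert_of_mem hk))

lemma NHop_G_cos {Λ P : Finset V} {D : Finset (V × Dir)} {β : ℝ} (s : Fin 3 → ℝ) (d : Dir) (c : V)
    (l : ℕ) (θ : ℝ) (i : Bool) (h : ∀ x ∈ sq d.1 c l, x ∈ Λ ∧ x + dv d ∈ Λ ∧
      ∀ e ∈ D, e.1 ≠ x + dv d ∧ oe e ≠ x + dv d) :
    NHop_G Λ P D β fun μ => Real.cos (θ * FQp s (prj μ i) d c l) := by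
  intro w hw φ h1 h2
  have key : ∀ ε : ℝ, Mix2 Λ P (fun μ => 1 / 2 * (w μ * dg Λ φ μ *
      Complex.exp ((ε * FQp s (prj μ i) d c l : ℝ) * Complex.I))) (1 / 2 * β) := by
    intro ε
    let ψ : V → V → V → Bool → ℂ := fun x x' y' j => if j = i ∧ s(x', y') = s(x, x + dv d) then
      Complex.exp ((ε * sg x : ℝ) * Complex.I) else 1
    have h3 := (hw (fun x' y' j => φ x' y' j * ∏ x ∈ sq d.1 c l, ψ x x' y' j) (fun x' y' j => by
      rw [norm_mul, norm_prod, prod_eq_one fun x _ => ?_, mul_one]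
      · exact h1 x' y' j
      · simp only [ψ]
        split_ifs
        exacts [Complex.norm_exp_ofReal_mul_I _, norm_one]) fun e he j => by
      rw [h2 e he, one_mul]
      refine prod_eq_one fun x hx => if_neg fun k => ?_
      rcases Sym2.eq_iff.1 k.2 with k | k
      exacts [((h x hx).2.2 e he).2 k.2, ((h x hx).2.2 e he).1 k.1]).smul
      (1 / 2 * Complex.exp ((-(ε * ∑ x ∈ sq d.1 c l, sg x * pe s x d) : ℝ) * Complex.I))
    refine h3.mono (fun μ hμ => ?_) (le_of_eq ?_)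
    · have e1 : ∏ x ∈ sq d.1 c l, dg Λ (ψ x) μ = Complex.exp ((ε * ∑ x ∈ sq d.1 c l,
          sg x * (if prj μ i x = x + dv d then 1 else 0) : ℝ) * Complex.I) := by
        rw [mul_sum, Complex.ofReal_sum, sum_mul, Complex.exp_sum]
        refine prod_congr rfl fun x hx => (NHop_sgl hμ (h x hx).1 (h x hx).2.1 i _).trans ?_
        split_ifs <;> simp
      have e2 : ε * FQp s (prj μ i) d c l = -(ε * ∑ x ∈ sq d.1 c l, sg x * pe s x d) +
          ε * ∑ x ∈ sq d.1 c l, sg x * (if prj μ i x = x + dv d then 1 else 0) := by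
        simp only [FQp, flp, mul_sub, sum_sub_distrib]
        ring
      rw [NHop_dg_mul, NHop_dg_prod, e1, e2, Complex.ofReal_add, add_mul, Complex.exp_add]
      ring
    · rw [norm_mul, Complex.norm_exp_ofReal_mul_I]
      simp
  refine ((key θ).add (key (-θ))).mono (fun μ _ => ?_) (le_of_eq (by ring))
  beta_reduce
  rw [Complex.ofReal_cos, Complex.cos, neg_mul θ, Complex.ofReal_neg]
  ring

/-- Soft factors are averages of diagonal phases. -/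
theorem mix_soft2 {m₀ m : ℕ} (h0 : m₀ ≤ m - m / 8) (D : Finset (V × Dir))
    (hD : ∀ e ∈ D, e.1 ∈ box m₀ ∧ oe e ∈ box m₀) (P : Finset V) (w : (HE → HE) → ℂ) (β : ℝ)
    (hw : ∀ φ : V → V → Bool → ℂ, (∀ x y i, ‖φ x y i‖ ≤ 1) → (∀ e ∈ D, ∀ i, φ e.1 (oe e) i = 1) →
      Mix2 (box m) P (fun μ => w μ * dg (box m) φ μ) β) (s : Fin 3 → ℝ) (l : ℕ) (θ : ℝ) :
    Mix2 (box m) P (fun μ => w μ * ((softP s m l θ (prj μ false) * softP s m l θ (prj μ true) : ℝ) :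
      ℂ)) β := by
  have key : ∀ i, NHop_G (box m) P D β fun μ => softP s m l θ (prj μ i) := fun i =>
    NHop_G_prod _ fun t ht => NHop_G_prod _ fun d _ => NHop_G_prod _ fun p hp =>
      NHop_G_cos s d _ l θ i fun x hx => by
        obtain ⟨t1, t2⟩ := mem_Ioo.1 ht
        have h1 := sq_corner_box hp hx
        have h2 : x + dv d ∉ box m₀ := fun k => by
          have k1 := mem_box.1 k d.1
          rw [Pi.add_apply, (mem_sq.1 hx).1, Flux_c1, dv, Pi.single_eq_same] at k1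
          split_ifs at k1 <;> omega
        exact ⟨box_mono t2.le h1, box_mono t2 (add_dv_mem_box h1 d),
          fun e he => ⟨fun k => h2 (k ▸ (hD e he).1), fun k => h2 (k ▸ (hD e he).2)⟩⟩
  exact (NHop_G_mul (key false) (key true) w hw (fun _ _ _ => 1) (by simp) (by simp)).mono
    (fun μ _ => by rw [dg_one, mul_one]) le_rfl

theorem cD_le_one {D : Finset (V × Dir)} {t : V × Dir → ℝ} {θ : ℝ}
    (h : ∀ e ∈ D, θ ^ 2 * t e ^ 2 ≤ 1) (ρ : V → V) : 0 ≤ cD D t θ ρ ∧ cD D t θ ρ ≤ 1 := by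
  refine ⟨prod_nonneg fun e he => ?_, prod_le_one (fun e he => ?_) fun e _ => ?_⟩
  · split_ifs
    exacts [sub_nonneg.2 (h e he), zero_le_one]
  · split_ifs
    exacts [sub_nonneg.2 (h e he), zero_le_one]
  · split_ifs
    exacts [sub_le_self _ (by positivity), le_rfl]

theorem cD_ge {D : Finset (V × Dir)} {t : V × Dir → ℝ} {θ : ℝ}
    (h : ∀ e ∈ D, θ ^ 2 * t e ^ 2 ≤ 1) (ρ : V → V) :
    1 - θ ^ 2 * ∑ e ∈ D, t e ^ 2 ≤ cD D t θ ρ := by
  unfold cD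
  induction D using Finset.induction_on with
  | empty => simp
  | insert e D he ih =>
    have h1 := ih fun f hf => h f (mem_insert_of_mem hf)
    have h2 := h e (mem_insert_self e D)
    have h3 : 0 ≤ θ ^ 2 * t e ^ 2 := by positivity
    have h4 : 0 ≤ θ ^ 2 * ∑ e ∈ D, t e ^ 2 := by positivity
    rw [sum_insert he, prod_insert he, mul_add]
    split_ifs
    · linarith only [h1, h2, h3, h4, mul_le_mul_of_nonneg_left h1 (sub_nonneg.2 h2), mul_nonneg h3 h4]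
    · linarith only [h1, h3]

end Pool.Agent.Work.MP_5cb0a4_pr.Z
end

-- merged part: Pool.Agent.Work.MP_5cb0a4_pr.N.QGD2a
section
open MeasureTheory Finset Filter Topology
open scoped Classical

namespace Pool.Agent.Work.MP_5cb0a4_pr.Z

/-- The weight that is transferred. -/
noncomputable def bT (s : Fin 3 → ℝ) (D : Finset (V × Dir)) (t : V × Dir → ℝ) (m l : ℕ)
    (θ ϑ K : ℝ) (μ : HE → HE) : ℝ :=
  bq (box m) ∅ D t θ μ * (softP s m l ϑ (prj μ false) * softP s m l ϑ (prj μ true)) +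
    Real.exp (-K) * θ ^ 2 * ∑ e ∈ D, ∑ f ∈ D, |t e * t f| * hop (box m) ∅ {e} {f} μ

/-- Centred flux through the square with index `i`. -/
noncomputable def NQGD2a_F (s : Fin 3 → ℝ) (l : ℕ) (i : Σ _ : ℕ, Dir × (ℕ × ℕ)) (ρ : V → V) : ℝ :=
  FQp s ρ i.2.1 (corner i.2.1 i.1 l i.2.2) l

lemma NQGD2a_soft_eq (s : Fin 3 → ℝ) (m l : ℕ) (ϑ : ℝ) (ρ : V → V) :
    softP s m l ϑ ρ = ∏ i ∈ QGD_I m (m / 8) l, Real.cos (ϑ * NQGD2a_F s l i ρ) := by
  rw [softP, QGD_I, prod_sigma]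
  exact prod_congr rfl fun t _ => by rw [prod_product]; rfl

lemma NQGD2a_Ps_eq (s : Fin 3 → ℝ) (m l : ℕ) (ρ : V → V) :
    PsO s m 8 l ρ = ∑ i ∈ QGD_I m (m / 8) l, NQGD2a_F s l i ρ ^ 2 := by
  rw [PsO, Psp, lsum, QGD_I, sum_sigma]
  exact sum_congr rfl fun t _ => by rw [sum_product]; rfl

lemma NQGD2a_soft_local (s : Fin 3 → ℝ) {Λ : Finset V} {m l : ℕ} {ϑ : ℝ}
    (h : ∀ (d : Dir) (t : ℕ), m - m / 8 < t → t < m →
      sq d.1 (corner d t 0 (0, 0)) (2 * t + 1) ⊆ Λ) : Local Λ (softP s m l ϑ) := by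
  have : softP s m l ϑ = fun ρ => ∏ i ∈ QGD_I m (m / 8) l, Real.cos (ϑ * NQGD2a_F s l i ρ) :=
    funext (NQGD2a_soft_eq s m l ϑ)
  rw [this]
  refine QGD_locprod _ fun i hi => ?_
  obtain ⟨h1, h2, h3⟩ := QGD_mem_I hi
  exact QGD_loc1 (fun x => Real.cos (ϑ * x)) ((local_FQp s _ _ _).mono
    ((sq_corner_subset h3).trans (h _ _ h1 h2)))

lemma NQGD2a_arg {s : Fin 3 → ℝ} (hs : n1 s ≤ 1) {l : ℕ} {ϑ : ℝ} (h0 : 0 ≤ ϑ)
    (h : ϑ * (l : ℝ) ^ 2 ≤ 1) (i : Σ _ : ℕ, Dir × (ℕ × ℕ)) (ρ : V → V) :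
    |ϑ * NQGD2a_F s l i ρ| ≤ 1 := by
  rw [abs_mul, abs_of_nonneg h0]
  exact (mul_le_mul_of_nonneg_left (abs_FQp_le hs _ _ _ _) h0).trans h

theorem abs_softP_le (s : Fin 3 → ℝ) (m l : ℕ) (ϑ : ℝ) (ρ : V → V) : |softP s m l ϑ ρ| ≤ 1 := by
  rw [NQGD2a_soft_eq, abs_prod]
  exact prod_le_one (fun _ _ => abs_nonneg _) fun _ _ => Real.abs_cos_le_one _

theorem local_softP (s : Fin 3 → ℝ) (m l : ℕ) (ϑ : ℝ) : Local (box m) (softP s m l ϑ) := by
  exact NQGD2a_soft_local s fun _ _ _ h2 _ hx => box_mono h2.le (mem_face.1 hx).1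

theorem off_softP (s : Fin 3 → ℝ) {m₀ m : ℕ} (h : m₀ ≤ m - m / 8) (l : ℕ) (ϑ : ℝ) :
    Off (box m₀) (softP s m l ϑ) := by
  refine (NQGD2a_soft_local s (Λ := box m \ box m₀) fun d t h1 h2 x hx => ?_).off sdiff_disjoint
  exact mem_sdiff.2 ⟨box_mono h2.le (mem_face.1 hx).1,
    disjoint_left.1 (QGD_face_disj (by omega)) hx⟩

theorem softP_ge {s : Fin 3 → ℝ} (hs : n1 s ≤ 1) {m l : ℕ} {ϑ : ℝ} (h0 : 0 ≤ ϑ)
    (h : ϑ * (l : ℝ) ^ 2 ≤ 1) (ρ : V → V) :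
    1 - softP s m l ϑ ρ ≤ ϑ ^ 2 / 2 * PsO s m 8 l ρ := by
  rw [NQGD2a_soft_eq]
  refine (QGD_one_sub_prod _ _ (fun i _ => (QGD_cos_le (NQGD2a_arg hs h0 h i _)).1)
    fun i _ => Real.cos_le_one _).trans ?_
  rw [NQGD2a_Ps_eq, mul_sum]
  refine sum_le_sum fun i _ => ?_
  have := Real.one_sub_sq_div_two_le_cos (x := ϑ * NQGD2a_F s l i ρ)
  linarith only [this]

theorem softP_small {s : Fin 3 → ℝ} (hs : n1 s ≤ 1) {m l : ℕ} {ϑ K : ℝ} (h0 : 0 ≤ ϑ)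
    (h : ϑ * (l : ℝ) ^ 2 ≤ 1) (ρ : V → V) (hK : 5 * K ≤ ϑ ^ 2 * PsO s m 8 l ρ) :
    |softP s m l ϑ ρ| ≤ Real.exp (-K) := by
  rw [NQGD2a_soft_eq,
    abs_of_nonneg (prod_nonneg fun i _ => (QGD_cos_le (NQGD2a_arg hs h0 h i _)).1)]
  refine (prod_le_prod (fun i _ => (QGD_cos_le (NQGD2a_arg hs h0 h i _)).1)
    fun i _ => (QGD_cos_le (NQGD2a_arg hs h0 h i ρ)).2).trans ?_
  rw [← Real.exp_sum, Real.exp_le_exp, sum_neg_distrib, neg_le_neg_iff, ← sum_div]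
  rw [NQGD2a_Ps_eq, mul_sum] at hK
  simp only [mul_pow]
  linarith only [hK]

/-- Monomer configurations that are repaired inside a small box (port of `QGD_one_X`). -/
theorem one_X {m₀ m : ℕ} (h : m₀ ≤ m) {X : Finset V} (hX : X ⊆ box m₀) (f : (V → V) → ℝ)
    (hf : Off (box m₀) f) (hf0 : ∀ σ, 0 ≤ f σ ∧ f σ ≤ 2) (ρ : V → V) :
    ∑ σ ∈ (cls (box m) ρ).filter (fun σ => mon (box m) σ = X), f σ ≤
      7 ^ (box m₀).card * ∑ σ ∈ perf (box m) ρ, f σ +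
        2 * (Zm (box m) ρ X - ∑ σ ∈ perf (box m) ρ, Mr (box m₀) σ X) := by
  have hsub : box m₀ ⊆ box m := box_mono h
  have r1 := rep_sum hsub hX ρ _ hf
  have r2 := rep_sum hsub hX ρ (fun _ => (1 : ℝ)) fun _ _ _ _ _ => rfl
  rw [← sum_filter_add_sum_filter_not _ fun σ => 0 < zz (box m₀) σ, filter_filter, r1]
  refine add_le_add ?_ ?_
  · rw [mul_sum]
    exact sum_le_sum fun σ _ => mul_le_mul_of_nonneg_right (QGD_Mr_le _ _ _) (hf0 σ).1
  · have hc := sum_filter_add_sum_filter_not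
      ((cls (box m) ρ).filter fun σ => mon (box m) σ = X) (fun σ => 0 < zz (box m₀) σ)
      fun _ => (1 : ℝ)
    rw [filter_filter, r2] at hc
    simp only [mul_one] at hc
    have hZ : (Zm (box m) ρ X : ℝ) =
        ∑ _σ ∈ (cls (box m) ρ).filter fun σ => mon (box m) σ = X, (1 : ℝ) := by simp [Zm]
    rw [hZ, ← hc, add_sub_cancel_left, mul_sum]
    refine sum_le_sum fun σ _ => ?_
    have := (hf0 σ).2
    linarith only [this]

theorem bT_mix (D : Finset (V × Dir)) (hD : ∀ e ∈ D, IsEven e.1) (t : V × Dir → ℝ) :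
    ∃ C : ℝ, 0 ≤ C ∧ ∀ (s : Fin 3 → ℝ) (m₀ m l : ℕ) (θ ϑ K : ℝ), m₀ ≤ m - m / 8 →
      (∀ e ∈ D, e.1 ∈ box m₀ ∧ oe e ∈ box m₀) → |θ| ≤ 1 → (∀ e ∈ D, θ ^ 2 * t e ^ 2 ≤ 1) →
      Mix2 (box m) ∅ (fun μ => (bT s D t m l θ ϑ K μ : ℂ))
        (1 + C * θ ^ 4 + Real.exp (-K) * θ ^ 2 * ∑ e ∈ D, ∑ f ∈ D, |t e * t f|) := by
  obtain ⟨C, hC, hq⟩ := mix_bq D hD t
  refine ⟨C, hC, fun s m₀ m l θ ϑ K h0 hDm hθ hθt => ?_⟩
  have hsub : box m₀ ⊆ box m := box_mono (by omega)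
  have h1 := mix_soft2 h0 D hDm ∅ (fun μ => (bq (box m) ∅ D t θ μ : ℂ)) (1 + C * θ ^ 4)
    (fun φ a b => hq (box m) ∅ θ φ (fun e he => ⟨hsub (hDm e he).1, hsub (hDm e he).2⟩) hθ hθt a b)
    s l ϑ
  have h2 := Mix2.sum (Λ := box m) (P := ∅) (D ×ˢ D)
    (fun p => ((Real.exp (-K) * θ ^ 2 * |t p.1 * t p.2| : ℝ) : ℂ))
    (fun p μ => (hop (box m) ∅ {p.1} {p.2} μ : ℂ) * dg (box m) (fun _ _ _ => 1) μ)
    (fun _ => 1) fun p _ => mix_hop _ _ _ _ _ fun _ _ _ => by simp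
  refine (h1.add h2).mono (fun μ _ => ?_) (le_of_eq ?_)
  · simp only [bT, dg_one, mul_one, sum_product, mul_sum]
    push_cast
    simp only [mul_assoc]
  · rw [sum_product, mul_sum]
    congr 1
    refine sum_congr rfl fun e _ => ?_
    rw [mul_sum]
    refine sum_congr rfl fun f _ => ?_
    rw [mul_one, Complex.norm_real, Real.norm_eq_abs, abs_of_nonneg (by positivity)]

/-- The one copy factor. -/
noncomputable def NQGD2a_g (s : Fin 3 → ℝ) (D : Finset (V × Dir)) (t : V × Dir → ℝ) (m l : ℕ)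
    (θ ϑ : ℝ) (κ : V → V) : ℝ := cD D t θ κ * softP s m l ϑ κ

/-- Fillings with the two monomers given by a pair of edges. -/
noncomputable def NQGD2a_C (m : ℕ) (ρ : V → V) (e f : V × Dir) : Finset (V → V) :=
  (cls (box m) ρ).filter fun κ => mon (box m) κ = {e.1, oe f}

lemma NQGD2a_abs_g (s : Fin 3 → ℝ) {D : Finset (V × Dir)} {t : V × Dir → ℝ} {θ : ℝ}
    (hθ : ∀ e ∈ D, θ ^ 2 * t e ^ 2 ≤ 1) (m l : ℕ) (ϑ : ℝ) (κ : V → V) :
    |NQGD2a_g s D t m l θ ϑ κ| ≤ |softP s m l ϑ κ| := by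
  rw [NQGD2a_g, abs_mul, abs_of_nonneg (cD_le_one hθ κ).1]
  exact mul_le_of_le_one_left (abs_nonneg _) (cD_le_one hθ κ).2

lemma NQGD2a_expand (s : Fin 3 → ℝ) {D : Finset (V × Dir)} (hD : ∀ e ∈ D, IsEven e.1)
    (t : V × Dir → ℝ) {m : ℕ} (l : ℕ) (θ ϑ K : ℝ)
    (hDm : ∀ e ∈ D, e.1 ∈ box m ∧ oe e ∈ box m) {ρ₁ ρ₂ : V → V} (h₁ : IsExt ρ₁)
    (h₂ : IsExt ρ₂) :
    ∑ μ ∈ cls2 (box m) (emb ρ₁ ρ₂), bT s D t m l θ ϑ K μ =
      (∑ κ ∈ perf (box m) ρ₁, NQGD2a_g s D t m l θ ϑ κ) *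
        (∑ κ ∈ perf (box m) ρ₂, NQGD2a_g s D t m l θ ϑ κ) +
      θ ^ 2 * ∑ e ∈ D, ∑ f ∈ D, ∑ κ₁ ∈ NQGD2a_C m ρ₁ e f, ∑ κ₂ ∈ NQGD2a_C m ρ₂ f e,
        (Real.exp (-K) * |t e * t f| -
          t e * t f * (NQGD2a_g s D t m l θ ϑ κ₁ * NQGD2a_g s D t m l θ ϑ κ₂)) := by
  have e0 := sum_hop0 (box m) ∅ h₁ h₂
    fun κ₁ κ₂ => NQGD2a_g s D t m l θ ϑ κ₁ * NQGD2a_g s D t m l θ ϑ κ₂
  have e1 : ∀ e ∈ D, ∀ f ∈ D, ∑ μ ∈ cls2 (box m) (emb ρ₁ ρ₂), hop (box m) ∅ {e} {f} μ *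
      (Real.exp (-K) * |t e * t f| - t e * t f *
        (NQGD2a_g s D t m l θ ϑ (prj μ false) * NQGD2a_g s D t m l θ ϑ (prj μ true))) =
      ∑ κ₁ ∈ NQGD2a_C m ρ₁ e f, ∑ κ₂ ∈ NQGD2a_C m ρ₂ f e,
        (Real.exp (-K) * |t e * t f| -
          t e * t f * (NQGD2a_g s D t m l θ ϑ κ₁ * NQGD2a_g s D t m l θ ϑ κ₂)) := by
    intro e he f hf
    have := sum_hop1 (box m) ∅ h₁ h₂ (e := e) (f := f)
      ⟨hD e he, by simpa using (hDm e he).1, by simpa using (hDm e he).2⟩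
      ⟨hD f hf, by simpa using (hDm f hf).1, by simpa using (hDm f hf).2⟩
      fun κ₁ κ₂ => Real.exp (-K) * |t e * t f| -
          t e * t f * (NQGD2a_g s D t m l θ ϑ κ₁ * NQGD2a_g s D t m l θ ϑ κ₂)
    simpa only [sdiff_empty, NQGD2a_C] using this
  simp only [subset_empty] at e0
  rw [sum_mul_sum, ← sum_congr rfl fun e he => sum_congr rfl fun f hf => e1 e he f hf]
  have e2 : ∑ e ∈ D, ∑ f ∈ D, ∑ μ ∈ cls2 (box m) (emb ρ₁ ρ₂), hop (box m) ∅ {e} {f} μ *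
      (Real.exp (-K) * |t e * t f| - t e * t f *
        (NQGD2a_g s D t m l θ ϑ (prj μ false) * NQGD2a_g s D t m l θ ϑ (prj μ true))) =
      ∑ μ ∈ cls2 (box m) (emb ρ₁ ρ₂), ∑ e ∈ D, ∑ f ∈ D, hop (box m) ∅ {e} {f} μ *
      (Real.exp (-K) * |t e * t f| - t e * t f *
        (NQGD2a_g s D t m l θ ϑ (prj μ false) * NQGD2a_g s D t m l θ ϑ (prj μ true))) := by
    rw [sum_comm (s := cls2 (box m) (emb ρ₁ ρ₂))]
    exact sum_congr rfl fun e _ => sum_comm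
  rw [e2]
  refine Eq.trans ?_ (congrArg₂ (· + ·) e0 rfl)
  rw [mul_sum, ← sum_add_distrib]
  refine sum_congr rfl fun μ _ => ?_
  have e3 : ∑ e ∈ D, ∑ f ∈ D, hop (box m) ∅ {e} {f} μ *
      (Real.exp (-K) * |t e * t f| - t e * t f *
        (NQGD2a_g s D t m l θ ϑ (prj μ false) * NQGD2a_g s D t m l θ ϑ (prj μ true))) =
      Real.exp (-K) * (∑ e ∈ D, ∑ f ∈ D, |t e * t f| * hop (box m) ∅ {e} {f} μ) -
        (NQGD2a_g s D t m l θ ϑ (prj μ false) * NQGD2a_g s D t m l θ ϑ (prj μ true)) *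
          ∑ e ∈ D, ∑ f ∈ D, t e * t f * hop (box m) ∅ {e} {f} μ := by
    simp only [mul_sum, ← sum_sub_distrib]
    exact sum_congr rfl fun e _ => sum_congr rfl fun f _ => by ring
  rw [e3]
  simp only [bT, bq, NQGD2a_g]
  ring

/-- Boundary conditions that cannot be repaired carry a nonnegative weight. -/
theorem bT_nonneg {s : Fin 3 → ℝ} (hs : n1 s ≤ 1) {D : Finset (V × Dir)}
    (hD : ∀ e ∈ D, IsEven e.1) (t : V × Dir → ℝ) {m l : ℕ} {θ ϑ K c : ℝ}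
    (hDm : ∀ e ∈ D, e.1 ∈ box (rin m 8) ∧ oe e ∈ box (rin m 8))
    (hθ : ∀ e ∈ D, θ ^ 2 * t e ^ 2 ≤ 1) (h0 : 0 ≤ ϑ) (hϑ : ϑ * (l : ℝ) ^ 2 ≤ 1)
    (hK : 5 * K ≤ ϑ ^ 2 * (c * (m : ℝ) ^ 3 * (l : ℝ) ^ 2))
    (hp : ∀ σ : V → V, IsExt σ → (∀ x ∈ box m, x ∉ box (rin m 8) → σ x ≠ x) →
      ∑ x ∈ mon (box (rin m 8)) σ, sg x = 0 → PsO s m 8 l σ < c * (m : ℝ) ^ 3 * (l : ℝ) ^ 2 →
      0 < zz (box m) σ)
    {ρ₁ ρ₂ : V → V} (h₁ : IsExt ρ₁) (h₂ : IsExt ρ₂)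
    (hz : zz (box m) ρ₁ = 0 ∨ zz (box m) ρ₂ = 0) :
    0 ≤ ∑ μ ∈ cls2 (box m) (emb ρ₁ ρ₂), bT s D t m l θ ϑ K μ := by
  have hsub : box (rin m 8) ⊆ box m := box_mono (Nat.sub_le _ _)
  have small : ∀ {ρ κ : V → V} {e f : V × Dir}, e ∈ D → f ∈ D → zz (box m) ρ = 0 →
      κ ∈ NQGD2a_C m ρ e f → |softP s m l ϑ κ| ≤ Real.exp (-K) := by
    intro ρ κ e f he hf hz hκ
    obtain ⟨hκ1, hκ2⟩ := mem_filter.1 hκ
    obtain ⟨k1, k2⟩ := mem_cls.1 hκ1
    refine softP_small hs h0 hϑ κ (hK.trans (mul_le_mul_of_nonneg_left ?_ (sq_nonneg _)))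
    by_contra hn
    have hin : ({e.1, oe f} : Finset V) ⊆ box (rin m 8) := by
      intro x hx
      rcases mem_insert.1 hx with rfl | hx
      · exact (hDm e he).1
      · rw [mem_singleton.1 hx]
        exact (hDm f hf).2
    have hm : mon (box (rin m 8)) κ = {e.1, oe f} := by
      rw [← hκ2]
      ext x
      refine ⟨fun hx => mem_mon.2 ⟨hsub (mem_mon.1 hx).1, (mem_mon.1 hx).2⟩, fun hx => ?_⟩
      exact mem_mon.2 ⟨hin (hκ2 ▸ hx), (mem_mon.1 hx).2⟩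
    have ho : ¬ IsEven (oe f) := fun h => isEven_add_dv.1 h (hD f hf)
    have hne : e.1 ≠ oe f := fun h => ho (h ▸ hD e he)
    have := hp κ k1 (fun x hx hx' hxx => hx' (hin (hκ2 ▸ mem_mon.2 ⟨hx, hxx⟩)))
      (by rw [hm, sum_pair hne]; simp [sg, hD e he, ho]) (not_le.1 hn)
    have h2 : zz (box m) κ = zz (box m) ρ := by simp only [zz, perf, cls_eq k2]
    omega
  rw [NQGD2a_expand s hD t l θ ϑ K (fun e he => ⟨hsub (hDm e he).1, hsub (hDm e he).2⟩) h₁ h₂]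
  refine add_nonneg (le_of_eq ?_) (mul_nonneg (sq_nonneg _) (sum_nonneg fun e he =>
    sum_nonneg fun f hf => sum_nonneg fun κ₁ k₁ => sum_nonneg fun κ₂ k₂ => ?_))
  · rcases hz with hz | hz
    · rw [card_eq_zero.1 hz, sum_empty, zero_mul]
    · rw [card_eq_zero.1 hz, sum_empty, mul_zero]
  · have a1 := NQGD2a_abs_g s hθ m l ϑ κ₁
    have a2 := NQGD2a_abs_g s hθ m l ϑ κ₂
    have b1 := abs_softP_le s m l ϑ κ₁
    have b2 := abs_softP_le s m l ϑ κ₂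
    have key : |NQGD2a_g s D t m l θ ϑ κ₁ * NQGD2a_g s D t m l θ ϑ κ₂| ≤ Real.exp (-K) := by
      rw [abs_mul]
      rcases hz with hz | hz
      · exact (mul_le_of_le_one_right (abs_nonneg _) (a2.trans b2)).trans
          (a1.trans (small he hf hz k₁))
      · exact (mul_le_of_le_one_left (abs_nonneg _) (a1.trans b1)).trans
          (a2.trans (small hf he hz k₂))
    have h1 := le_abs_self (t e * t f * (NQGD2a_g s D t m l θ ϑ κ₁ * NQGD2a_g s D t m l θ ϑ κ₂))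
    rw [abs_mul] at h1
    have h2 := mul_le_mul_of_nonneg_left key (abs_nonneg (t e * t f))
    linarith only [h1, h2]

/-- Error of the soft factor for the monomer set `{x, y}`. -/
noncomputable def erS (s : Fin 3 → ℝ) (m₀ m l : ℕ) (ϑ : ℝ) (x y : V) (ρ : V → V) : ℝ :=
  7 ^ (box m₀).card * gam (box m) (fun σ => 1 - softP s m l ϑ σ) ρ +
    2 * (M2 (box m) ρ x y - gam (box m) (fun σ => M2 (box m₀) σ x y) ρ)

/-- Normalised sum of the one copy factor over fillings with two monomers. -/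
noncomputable def NQGD2a_a (s : Fin 3 → ℝ) (D : Finset (V × Dir)) (t : V × Dir → ℝ) (m l : ℕ)
    (θ ϑ : ℝ) (ρ : V → V) (e f : V × Dir) : ℝ :=
  (∑ κ ∈ NQGD2a_C m ρ e f, NQGD2a_g s D t m l θ ϑ κ) / zz (box m) ρ

lemma NQGD2a_g_bd (s : Fin 3 → ℝ) {D : Finset (V × Dir)} {t : V × Dir → ℝ} {θ : ℝ}
    (hθ : ∀ e ∈ D, θ ^ 2 * t e ^ 2 ≤ 1) (m l : ℕ) (ϑ : ℝ) (κ : V → V) :
    1 - NQGD2a_g s D t m l θ ϑ κ ≤ θ ^ 2 * ∑ e ∈ D, t e ^ 2 + (1 - softP s m l ϑ κ) := by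
  have a1 := cD_le_one hθ κ
  have a2 := cD_ge hθ κ
  have a3 := (abs_le.1 (abs_softP_le s m l ϑ κ)).2
  have := mul_nonneg (sub_nonneg.2 a1.2) (sub_nonneg.2 a3)
  rw [NQGD2a_g]
  linarith only [a2, this]

lemma NQGD2a_gam (s : Fin 3 → ℝ) {D : Finset (V × Dir)} {t : V × Dir → ℝ} {θ : ℝ}
    (hθ : ∀ e ∈ D, θ ^ 2 * t e ^ 2 ≤ 1) {m : ℕ} (l : ℕ) (ϑ : ℝ) {ρ : V → V}
    (z : 0 < zz (box m) ρ) : gam (box m) (NQGD2a_g s D t m l θ ϑ) ρ ≤ 1 ∧
      1 - gam (box m) (NQGD2a_g s D t m l θ ϑ) ρ ≤ θ ^ 2 * ∑ e ∈ D, t e ^ 2 +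
        gam (box m) (fun σ => 1 - softP s m l ϑ σ) ρ := by
  constructor
  · rw [← gam_const z 1]
    exact gam_mono fun κ _ =>
      (le_abs_self _).trans ((NQGD2a_abs_g s hθ m l ϑ κ).trans (abs_softP_le s m l ϑ κ))
  · have h1 : gam (box m) (fun _ => 1 - θ ^ 2 * ∑ e ∈ D, t e ^ 2) ρ ≤
        gam (box m) (fun σ => NQGD2a_g s D t m l θ ϑ σ + (1 - softP s m l ϑ σ)) ρ :=
      gam_mono fun κ _ => by linarith only [hθ, NQGD2a_g_bd s hθ m l ϑ κ]
    rw [gam_const z, QGD_gam_add] at h1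
    linarith only [h1]

lemma NQGD2a_a_le (s : Fin 3 → ℝ) {D : Finset (V × Dir)} {t : V × Dir → ℝ} {θ : ℝ}
    (hθ : ∀ e ∈ D, θ ^ 2 * t e ^ 2 ≤ 1) {m₀ m : ℕ} (l : ℕ) (ϑ : ℝ) (h0 : m₀ ≤ m - m / 8)
    {e f : V × Dir} (he : e.1 ∈ box m₀) (hf : oe f ∈ box m₀) {ρ : V → V}
    (z : 0 < zz (box m) ρ) :
    |NQGD2a_a s D t m l θ ϑ ρ e f| ≤ M2 (box m) ρ e.1 (oe f) ∧
      |M2 (box m) ρ e.1 (oe f) - NQGD2a_a s D t m l θ ϑ ρ e f| ≤
        θ ^ 2 * (∑ e ∈ D, t e ^ 2) * M2 (box m) ρ e.1 (oe f) + erS s m₀ m l ϑ e.1 (oe f) ρ := by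
  have z' : (0 : ℝ) < zz (box m) ρ := by exact_mod_cast z
  have hZ : (Zm (box m) ρ {e.1, oe f} : ℝ) = ∑ _κ ∈ NQGD2a_C m ρ e f, (1 : ℝ) := by
    simp [Zm, NQGD2a_C]
  have h1 : |NQGD2a_a s D t m l θ ϑ ρ e f| ≤ M2 (box m) ρ e.1 (oe f) := by
    rw [NQGD2a_a, M2, Mr, abs_div, abs_of_pos z', hZ]
    refine div_le_div_of_nonneg_right ((abs_sum_le_sum_abs _ _).trans (sum_le_sum fun κ _ => ?_))
      z'.le
    exact (NQGD2a_abs_g s hθ m l ϑ κ).trans (abs_softP_le s m l ϑ κ)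
  refine ⟨h1, ?_⟩
  rw [abs_of_nonneg (sub_nonneg.2 ((le_abs_self _).trans h1))]
  have hX : ({e.1, oe f} : Finset V) ⊆ box m₀ := by
    intro x hx
    rcases mem_insert.1 hx with rfl | hx
    · exact he
    · rw [mem_singleton.1 hx]
      exact hf
  have h2 := one_X (show m₀ ≤ m by omega) hX (fun σ => 1 - softP s m l ϑ σ)
    (fun σ σ' a b c => by simp only [off_softP s h0 l ϑ σ σ' a b c])
    (fun σ => by have := abs_le.1 (abs_softP_le s m l ϑ σ); constructor <;> linarith only [this]) ρ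
  have h3 : ∑ κ ∈ NQGD2a_C m ρ e f, (1 - NQGD2a_g s D t m l θ ϑ κ) ≤
      ∑ κ ∈ NQGD2a_C m ρ e f, (θ ^ 2 * (∑ e ∈ D, t e ^ 2) * 1 + (1 - softP s m l ϑ κ)) :=
    sum_le_sum fun κ _ => by rw [mul_one]; exact NQGD2a_g_bd s hθ m l ϑ κ
  rw [sum_sub_distrib, sum_add_distrib, ← mul_sum, ← hZ] at h3
  have h4 : erS s m₀ m l ϑ e.1 (oe f) ρ = (7 ^ (box m₀).card *
      ∑ σ ∈ perf (box m) ρ, (1 - softP s m l ϑ σ) + 2 * (Zm (box m) ρ {e.1, oe f} -
        ∑ σ ∈ perf (box m) ρ, Mr (box m₀) σ {e.1, oe f})) / zz (box m) ρ := by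
    simp only [erS, gam, M2]
    rw [Mr]
    field_simp
  rw [h4, NQGD2a_a, M2, Mr, ← sub_div, ← mul_div_assoc, ← add_div]
  refine div_le_div_of_nonneg_right ?_ z'.le
  exact h3.trans (add_le_add le_rfl h2)

lemma NQGD2a_prod {u a b A B y z p q : ℝ} (a1 : |a| ≤ A) (a2 : |A - a| ≤ y * z * A + p)
    (b1 : |b| ≤ B) (b2 : |B - b| ≤ y * z * B + q) :
    u * (a * b) ≤ u * (A * B) + |u| * (2 * y * z * (A * B) + p * B + A * q) := by
  have hB : 0 ≤ B := (abs_nonneg _).trans b1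
  have h1 : |A * B - a * b| ≤ 2 * y * z * (A * B) + p * B + A * q := by
    have e : A * B - a * b = (A - a) * B + a * (B - b) := by ring
    rw [e]
    refine (abs_add_le _ _).trans ?_
    rw [abs_mul, abs_mul, abs_of_nonneg hB]
    have c1 := mul_le_mul_of_nonneg_right a2 hB
    have c2 := mul_le_mul a1 b2 (abs_nonneg _) ((abs_nonneg _).trans a1)
    linarith only [c1, c2]
  have h2 := neg_abs_le (u * (A * B - a * b))
  rw [abs_mul] at h2
  have h3 := mul_le_mul_of_nonneg_left h1 (abs_nonneg u)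
  linarith only [h2, h3]

/-- Lower bound for the transferred weight. -/
theorem bT_ge (s : Fin 3 → ℝ) {D : Finset (V × Dir)} (hD : ∀ e ∈ D, IsEven e.1)
    (t : V × Dir → ℝ) {m₀ m : ℕ} (l : ℕ) {θ : ℝ} (ϑ K : ℝ) (h0 : m₀ ≤ m - m / 8)
    (hDm : ∀ e ∈ D, e.1 ∈ box m₀ ∧ oe e ∈ box m₀) (hθ : ∀ e ∈ D, θ ^ 2 * t e ^ 2 ≤ 1)
    {ρ₁ ρ₂ : V → V} (h₁ : IsExt ρ₁) (h₂ : IsExt ρ₂) (z₁ : 0 < zz (box m) ρ₁)
    (z₂ : 0 < zz (box m) ρ₂) :
    θ ^ 2 * (-Kq (M2 (box m) ρ₁) (M2 (box m) ρ₂) D t - 2 * ∑ e ∈ D, t e ^ 2) ≤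
      W2 (box m) (bT s D t m l θ ϑ K) ρ₁ ρ₂ - 1 +
      (gam (box m) (fun σ => 1 - softP s m l ϑ σ) ρ₁ +
        gam (box m) (fun σ => 1 - softP s m l ϑ σ) ρ₂) +
      θ ^ 2 * ∑ e ∈ D, ∑ f ∈ D, |t e * t f| *
        (2 * θ ^ 2 * (∑ e ∈ D, t e ^ 2) * (M2 (box m) ρ₁ e.1 (oe f) * M2 (box m) ρ₂ f.1 (oe e)) +
          erS s m₀ m l ϑ e.1 (oe f) ρ₁ * M2 (box m) ρ₂ f.1 (oe e) +
          M2 (box m) ρ₁ e.1 (oe f) * erS s m₀ m l ϑ f.1 (oe e) ρ₂) := by
  have hm : m₀ ≤ m := by omega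
  have hsub : box m₀ ⊆ box m := box_mono hm
  have z₁' : (0 : ℝ) < zz (box m) ρ₁ := by exact_mod_cast z₁
  have z₂' : (0 : ℝ) < zz (box m) ρ₂ := by exact_mod_cast z₂
  obtain ⟨g1, g1'⟩ := NQGD2a_gam s hθ l ϑ z₁
  obtain ⟨g2, g2'⟩ := NQGD2a_gam s hθ l ϑ z₂
  have hW : gam (box m) (NQGD2a_g s D t m l θ ϑ) ρ₁ * gam (box m) (NQGD2a_g s D t m l θ ϑ) ρ₂ -
      θ ^ 2 * ∑ e ∈ D, ∑ f ∈ D, t e * t f *
        (NQGD2a_a s D t m l θ ϑ ρ₁ e f * NQGD2a_a s D t m l θ ϑ ρ₂ f e) ≤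
      W2 (box m) (bT s D t m l θ ϑ K) ρ₁ ρ₂ := by
    rw [W2, NQGD2a_expand s hD t l θ ϑ K (fun e he => ⟨hsub (hDm e he).1, hsub (hDm e he).2⟩)
      h₁ h₂, add_div, gam, gam, div_mul_div_comm, sub_eq_add_neg, ← mul_neg,
      mul_div_assoc (θ ^ 2)]
    refine add_le_add le_rfl (mul_le_mul_of_nonneg_left ?_ (sq_nonneg _))
    rw [sum_div, ← sum_neg_distrib]
    refine sum_le_sum fun e _ => ?_
    rw [sum_div, ← sum_neg_distrib]
    refine sum_le_sum fun f _ => ?_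
    rw [NQGD2a_a, NQGD2a_a, div_mul_div_comm, ← mul_div_assoc, ← neg_div]
    refine div_le_div_of_nonneg_right ?_ (by positivity)
    rw [sum_mul_sum, mul_sum, ← sum_neg_distrib]
    refine sum_le_sum fun κ₁ _ => ?_
    rw [mul_sum, ← sum_neg_distrib]
    refine sum_le_sum fun κ₂ _ => ?_
    have : 0 ≤ Real.exp (-K) * |t e * t f| := by positivity
    linarith only [this]
  have hK : ∑ e ∈ D, ∑ f ∈ D, t e * t f *
        (NQGD2a_a s D t m l θ ϑ ρ₁ e f * NQGD2a_a s D t m l θ ϑ ρ₂ f e) ≤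
      Kq (M2 (box m) ρ₁) (M2 (box m) ρ₂) D t + ∑ e ∈ D, ∑ f ∈ D, |t e * t f| *
        (2 * θ ^ 2 * (∑ e ∈ D, t e ^ 2) * (M2 (box m) ρ₁ e.1 (oe f) * M2 (box m) ρ₂ f.1 (oe e)) +
          erS s m₀ m l ϑ e.1 (oe f) ρ₁ * M2 (box m) ρ₂ f.1 (oe e) +
          M2 (box m) ρ₁ e.1 (oe f) * erS s m₀ m l ϑ f.1 (oe e) ρ₂) := by
    rw [Kq, ← sum_add_distrib]
    refine sum_le_sum fun e he => ?_
    rw [← sum_add_distrib]
    refine sum_le_sum fun f hf => ?_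
    obtain ⟨a1, a2⟩ := NQGD2a_a_le s hθ l ϑ h0 (hDm e he).1 (hDm f hf).2 z₁
    obtain ⟨b1, b2⟩ := NQGD2a_a_le s hθ l ϑ h0 (hDm f hf).1 (hDm e he).2 z₂
    exact NQGD2a_prod a1 a2 b1 b2
  have h3 := mul_nonneg (sub_nonneg.2 g1) (sub_nonneg.2 g2)
  have h4 := mul_le_mul_of_nonneg_left hK (sq_nonneg θ)
  linarith only [g1', g2', hW, h3, h4]

end Pool.Agent.Work.MP_5cb0a4_pr.Z
end
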