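import Pool.Agent.Work.MP_5cb0a4_pr.N.IsoP
import Pool.Agent.Work.MP_5cb0a4_pr.N.QGD2a

open MeasureTheory Finset Filter Topology
open scoped Classical

namespace Pool.Agent.Work.MP_5cb0a4_pr.Z

/-- Every point of `P` is a monomer of exactly one of the two configurations. -/
def One (P : Finset V) (κ₁ κ₂ : V → V) : Prop := ∀ v ∈ P, (κ₁ v = v ↔ κ₂ v ≠ v)

/-- `One` as a function of the uncoloured union. -/
noncomputable def NExact_H (P : Finset V) (W : V → Sym2 V) : ℝ :=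
  if ∀ v ∈ P, v ∈ W v ∧ W v ≠ s(v, v) then 1 else 0

lemma NExact_un2 (P : Finset V) (κ₁ κ₂ : V → V) :
    NExact_H P (un2 κ₁ κ₂) = if One P κ₁ κ₂ then 1 else 0 := by
  refine if_congr (forall₂_congr fun v _ => ?_) rfl rfl
  simp only [un2, Sym2.mem_iff, ne_eq, Sym2.eq_iff, eq_comm (a := v)]
  tauto

lemma NExact_lay {U P : Finset V} (hP : P ⊆ U) {μ : HE → HE} (hμ : BExt μ) (ho : okB U P μ)
    (h : ∀ e ∈ HA U μ ∪ HB U μ, e.1 ∉ P ∧ oe e ∉ P) {v : V} (hv : v ∈ P) (i : Bool) :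
    (μ (v, i)).2 = i := by
  by_contra k
  have n : Nbr v (μ (v, i)).1 := (hμ (v, i)).1.resolve_left fun e => k (by rw [e])
  have m : (μ (v, i)).1 ∈ U := by_contra fun m => k ((ho (v, i) (hP hv)).2 m)
  have q := (hμ (v, i)).2
  generalize hw : μ (v, i) = w at *
  obtain ⟨w, j⟩ := w
  by_cases ev : IsEven v
  · obtain ⟨d, rfl : w = _⟩ := nbr_iff.1 n
    refine (h (v, d) ?_).1 hv
    cases i <;> cases j
    · exact absurd rfl k
    · exact mem_union_left _ (mem_filter.2 ⟨mem_product.2 ⟨hP hv, mem_univ _⟩, ev, hw⟩)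
    · exact mem_union_right _ (mem_filter.2 ⟨mem_product.2 ⟨hP hv, mem_univ _⟩, ev, hw⟩)
    · exact absurd rfl k
  · obtain ⟨d, rfl : v = w + _⟩ := nbr_iff.1 (nbr_symm n)
    refine (h (w, d) ?_).2 hv
    rw [isEven_add_dv, not_not] at ev
    cases i <;> cases j
    · exact absurd rfl k
    · exact mem_union_right _ (mem_filter.2 ⟨mem_product.2 ⟨m, mem_univ _⟩, ev, q⟩)
    · exact mem_union_left _ (mem_filter.2 ⟨mem_product.2 ⟨m, mem_univ _⟩, ev, q⟩)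
    · exact absurd rfl k

lemma NExact_hop {U P : Finset V} (hP : P ⊆ U) {A B : Finset (V × Dir)}
    (h : ∀ e ∈ A ∪ B, e.1 ∉ P ∧ oe e ∉ P) {μ : HE → HE} (hμ : BExt μ) :
    NExact_H P (un μ) * hop U P A B μ =
      hop U P A B μ * if One P (prj μ false) (prj μ true) then 1 else 0 := by
  rw [← NExact_un2, mul_comm, hop]
  split_ifs with k
  · obtain ⟨ho, rfl, rfl⟩ := k
    refine congrArg _ (if_congr (forall₂_congr fun v hv => ?_) rfl rfl)
    simp only [un, un2, prj, NExact_lay hP hμ ho h hv, if_true]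
  · simp

lemma NExact_sum {U P : Finset V} (hP : P ⊆ U) {D : Finset (V × Dir)}
    (hD : ∀ e ∈ D, IsEven e.1 ∧ e.1 ∈ U \ P ∧ oe e ∈ U \ P) (t : V × Dir → ℝ) (θ : ℝ) :
    ∑ μ ∈ cls2 U id, NExact_H P (un μ) * bq U P D t θ μ =
      (∑ κ₁ ∈ (cls U id).filter (fun κ => mon U κ ⊆ P),
        ∑ κ₂ ∈ (cls U id).filter (fun κ => mon U κ ⊆ P),
          cD D t θ κ₁ * cD D t θ κ₂ * if One P κ₁ κ₂ then 1 else 0) -
      θ ^ 2 * ∑ e ∈ D, ∑ f ∈ D, t e * t f *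
        ∑ κ₁ ∈ (cls U id).filter (fun κ => mon U κ \ P = {e.1, oe f}),
          ∑ κ₂ ∈ (cls U id).filter (fun κ => mon U κ \ P = {f.1, oe e}),
            cD D t θ κ₁ * cD D t θ κ₂ * if One P κ₁ κ₂ then 1 else 0 := by
  rw [← sum_hop0 U P isExt_id isExt_id, sum_congr rfl fun e he => sum_congr rfl fun f hf =>
    congrArg (t e * t f * ·) (sum_hop1 U P isExt_id isExt_id (hD e he) (hD f hf) _).symm, emb_id]
  simp only [mul_sum]
  rw [sum_congr rfl fun e _ => sum_comm, sum_comm (s := D), ← sum_sub_distrib]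
  refine sum_congr rfl fun μ hμ => ?_
  have h0 := NExact_hop hP (A := ∅) (B := ∅) (by simp) (mem_cls2.1 hμ).1
  rw [bq, mul_left_comm, mul_sub, mul_sub, h0]
  simp only [mul_sum]
  refine congrArg₂ _ (by ring) (sum_congr rfl fun e he => sum_congr rfl fun f hf => ?_)
  have h1 := NExact_hop hP (A := {e}) (B := {f}) (by
    simp only [mem_union, mem_singleton]
    rintro _ (rfl | rfl)
    · exact ⟨(mem_sdiff.1 (hD _ he).2.1).2, (mem_sdiff.1 (hD _ he).2.2).2⟩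
    · exact ⟨(mem_sdiff.1 (hD _ hf).2.1).2, (mem_sdiff.1 (hD _ hf).2.2).2⟩) (mem_cls2.1 hμ).1
  linear_combination cD D t θ (prj μ false) * cD D t θ (prj μ true) * θ ^ 2 * t e * t f * h1

/-- The second order inequality in a finite region (`gd_one`, `mix_bq`, `θ → 0`). -/
theorem exact_P (U P : Finset V) (hP : P ⊆ U) (D : Finset (V × Dir))
    (hD : ∀ e ∈ D, IsEven e.1 ∧ e.1 ∈ U \ P ∧ oe e ∈ U \ P) (t : V × Dir → ℝ) :
    0 ≤ (∑ e ∈ D, ∑ f ∈ D, t e * t f *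
        ∑ κ₁ ∈ (cls U id).filter (fun κ => mon U κ \ P = {e.1, oe f}),
          ∑ κ₂ ∈ (cls U id).filter (fun κ => mon U κ \ P = {f.1, oe e}),
            if One P κ₁ κ₂ then (1 : ℝ) else 0) +
      2 * (∑ e ∈ D, t e ^ 2) * ∑ κ₁ ∈ (cls U id).filter (fun κ => mon U κ ⊆ P),
        ∑ κ₂ ∈ (cls U id).filter (fun κ => mon U κ ⊆ P), if One P κ₁ κ₂ then (1 : ℝ) else 0 := by
  obtain ⟨C, -, hC⟩ := mix_bq D (fun e he => (hD e he).1) t
  set F := (cls U id).filter (fun κ => mon U κ ⊆ P)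
  set I : (V → V) → (V → V) → ℝ := fun κ₁ κ₂ => if One P κ₁ κ₂ then 1 else 0 with hI
  set N := ∑ κ₁ ∈ F, ∑ κ₂ ∈ F, I κ₁ κ₂ with hN
  set T := ∑ e ∈ D, t e ^ 2
  let S : ℝ → ℝ := fun θ => ∑ e ∈ D, ∑ f ∈ D, t e * t f *
    ∑ κ₁ ∈ (cls U id).filter (fun κ => mon U κ \ P = {e.1, oe f}),
      ∑ κ₂ ∈ (cls U id).filter (fun κ => mon U κ \ P = {f.1, oe e}),
        cD D t θ κ₁ * cD D t θ κ₂ * I κ₁ κ₂
  have I0 : ∀ κ₁ κ₂, 0 ≤ I κ₁ κ₂ := fun _ _ => by rw [hI]; positivity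
  have key : ∀ θ : ℝ, θ ≠ 0 → |θ| ≤ 1 → (∀ e ∈ D, θ ^ 2 * t e ^ 2 ≤ 1) →
      0 ≤ S θ + 2 * T * N + C * θ ^ 2 * N := fun θ h0 h1 h2 => by
    have a := gd_one (hC U P θ (fun _ _ _ => 1)
      (fun e he => ⟨(mem_sdiff.1 (hD e he).2.1).1, (mem_sdiff.1 (hD e he).2.2).1⟩) h1 h2
      (fun _ _ _ => by simp) fun _ _ _ => rfl) (NExact_H P) fun _ => by unfold NExact_H; positivity
    simp only [dg_one, mul_one, ← Complex.ofReal_mul, ← Complex.ofReal_sum, Complex.norm_real,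
      NExact_un2] at a
    rw [NExact_sum hP hD] at a
    replace a : _ - θ ^ 2 * S θ ≤ (1 + C * θ ^ 4) * N := (le_abs_self _).trans a
    have b : (1 - 2 * (θ ^ 2 * T)) * N ≤
        ∑ κ₁ ∈ F, ∑ κ₂ ∈ F, cD D t θ κ₁ * cD D t θ κ₂ * I κ₁ κ₂ := by
      rw [hN, mul_sum]
      refine sum_le_sum fun κ₁ _ => ?_
      rw [mul_sum]
      refine sum_le_sum fun κ₂ _ => mul_le_mul_of_nonneg_right ?_ (I0 _ _)
      nlinarith [cD_ge h2 κ₁, cD_ge h2 κ₂, mul_nonneg (sub_nonneg.2 (cD_le_one h2 κ₁).2)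
        (sub_nonneg.2 (cD_le_one h2 κ₂).2)]
    refine le_of_mul_le_mul_left (a := θ ^ 2) ?_ (by positivity)
    nlinarith [b.trans (sub_le_iff_le_add.1 a)]
  have c : ∀ κ, Continuous fun θ => cD D t θ κ := fun κ =>
    continuous_finsetProd _ fun e _ => by split_ifs <;> fun_prop
  have c' : Continuous fun θ => S θ + 2 * T * N + C * θ ^ 2 * N := by fun_prop
  have e1 : ∀ᶠ θ : ℝ in 𝓝 0, |θ| ≤ 1 :=
    (continuous_abs.tendsto' 0 0 abs_zero).eventually (ge_mem_nhds one_pos)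
  have e2 : ∀ᶠ θ : ℝ in 𝓝 0, ∀ e ∈ D, θ ^ 2 * t e ^ 2 ≤ 1 := (eventually_all_finset D).2 fun e _ =>
    ((by fun_prop : Continuous fun θ : ℝ => θ ^ 2 * t e ^ 2).tendsto' 0 0 (by simp)).eventually
      (ge_mem_nhds one_pos)
  have r := ge_of_tendsto ((c'.tendsto 0).mono_left (nhdsWithin_le_nhds (s := {0}ᶜ))) (by
    filter_upwards [self_mem_nhdsWithin, nhdsWithin_le_nhds e1, nhdsWithin_le_nhds e2] using key)
  simpa only [S, cD, ne_eq, OfNat.ofNat_ne_zero, not_false_eq_true, zero_pow, zero_mul, mul_zero,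
    sub_zero, ite_self, prod_const_one, one_mul, add_zero] using r

lemma NExact_free (U : Finset V) : free U id = U := filter_true_of_mem fun _ h => h

lemma NExact_Zm {Λ bg X : Finset V} {σ : V → V} (hσ : IsExt σ) (hb : bg ⊆ free Λ σ)
    (h : Disjoint X bg) : Zm Λ σ (X ∪ bg) = Zm (free Λ σ \ bg) id X := by
  rw [Zm_free Λ hσ, Zm_free _ isExt_id, NExact_free, sdiff_sdiff_left, sup_eq_union, union_comm bg]
  simp only [union_subset_iff, subset_sdiff, hb, h, and_true]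

lemma NExact_Zm0 {U X : Finset V} (h : ¬ X ⊆ U) : Zm U id X = 0 := by
  rw [Zm_free _ isExt_id, NExact_free, if_neg h]

lemma NExact_Mr0 {Λ X : Finset V} {σ : V → V} (hσ : IsExt σ) (h : ¬ X ⊆ free Λ σ) :
    Mr Λ σ X = 0 := by
  rw [Mr, Zm_free _ hσ, if_neg h, Nat.cast_zero, zero_div]

lemma NExact_Gb0 {Λ bg : Finset V} {σ : V → V} (hσ : IsExt σ) (h : ¬ bg ⊆ free Λ σ) :
    Gb (Mr Λ σ) bg = fun _ _ => 0 := by
  funext x y
  rw [Gb, NExact_Mr0 hσ fun k => h (((subset_insert _ _).trans (subset_insert _ _)).trans k),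
    ite_self]

lemma NExact_Mr {Λ bg : Finset V} {σ : V → V} (hσ : IsExt σ) (hb : bg ⊆ free Λ σ) :
    Mr Λ σ bg = Zm (free Λ σ \ bg) id ∅ / zz Λ σ := by
  rw [← NExact_Zm hσ hb (disjoint_empty_left _), empty_union, Mr]

lemma NExact_Gb {Λ bg : Finset V} {σ : V → V} (hσ : IsExt σ) (hb : bg ⊆ free Λ σ) :
    Gb (Mr Λ σ) bg = fun x y => (Zm (free Λ σ \ bg) id {x, y} : ℝ) / zz Λ σ := by
  funext x y
  rw [Gb]
  split_ifs with h
  · rw [NExact_Zm0 fun k => h.elim (mem_sdiff.1 (k (by simp))).2 (mem_sdiff.1 (k (by simp))).2,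
      Nat.cast_zero, zero_div]
  · rw [← NExact_Zm hσ hb (by simpa [not_or] using h), Mr, insert_union, singleton_union]

lemma PSD.NExact_div {G G' : V → V → ℝ} {a : ℝ} (h : PSD G G' a) (z : ℝ) :
    PSD (fun x y => G x y / z) (fun x y => G' x y / z) (a / z ^ 2) := fun D hD t => by
  refine (div_nonneg (h D hD t) (sq_nonneg z)).trans_eq ?_
  simp only [Kq, add_div, sum_div]
  refine congrArg₂ _ (sum_congr rfl fun e _ => sum_congr rfl fun f _ => ?_) ?_ <;> ring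

lemma NExact_restr {G G' : V → V → ℝ} {a : ℝ} (ha : 0 ≤ a) (Q : Finset V)
    (h0 : ∀ e f : V × Dir, IsEven e.1 → IsEven f.1 → G e.1 (oe f) * G' f.1 (oe e) ≠ 0 →
      (e.1 ∈ Q ∧ oe e ∈ Q) ∧ f.1 ∈ Q ∧ oe f ∈ Q)
    (h : ∀ D : Finset (V × Dir), (∀ e ∈ D, IsEven e.1 ∧ e.1 ∈ Q ∧ oe e ∈ Q) → ∀ t : V × Dir → ℝ,
      0 ≤ Kq G G' D t + a * ∑ e ∈ D, t e ^ 2) : PSD G G' a := fun D hD t => by
  refine (h (D.filter fun e => e.1 ∈ Q ∧ oe e ∈ Q)
    (fun e he => ⟨hD e (mem_filter.1 he).1, (mem_filter.1 he).2⟩) t).trans (add_le_add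
      (Eq.le ?_) (mul_le_mul_of_nonneg_left (sum_le_sum_of_subset_of_nonneg (filter_subset _ _)
        fun _ _ _ => sq_nonneg _) ha))
  rw [Kq, Kq, sum_congr rfl fun e he => sum_filter_of_ne fun f hf k =>
    (h0 e f (hD e (mem_filter.1 he).1) (hD f hf) (right_ne_zero_of_mul k)).2]
  refine sum_filter_of_ne fun e he k => ?_
  obtain ⟨f, hf, k⟩ := exists_ne_zero_of_sum_ne_zero k
  exact (h0 e f (hD e he) (hD f hf) (right_ne_zero_of_mul k)).1

lemma NExact_sub {U : Finset V} {x y : V} (h : (Zm U id {x, y} : ℝ) ≠ 0) : x ∈ U ∧ y ∈ U := by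
  have k : {x, y} ⊆ U := by_contra fun k => h (by rw [NExact_Zm0 k, Nat.cast_zero])
  exact ⟨k (by simp), k (by simp)⟩

lemma NExact_self (U : Finset V) : PSD (fun x y => Zm U id {x, y}) (fun x y => Zm U id {x, y})
    (2 * (Zm U id ∅ : ℝ) ^ 2) := by
  refine NExact_restr (by positivity) U (fun e f _ _ k => ?_) fun D hD t => ?_
  · have k1 := NExact_sub (left_ne_zero_of_mul k)
    have k2 := NExact_sub (right_ne_zero_of_mul k)
    exact ⟨⟨k1.1, k2.2⟩, k2.1, k1.2⟩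
  · refine (exact_P U ∅ (empty_subset _) D (by simpa using hD) t).trans_eq ?_
    simp only [One, notMem_empty, false_imp_iff, implies_true, if_true, sdiff_empty, subset_empty,
      sum_const, nsmul_eq_mul, mul_one, Kq, Zm]
    ring

lemma NExact_sets {M₁ M₂ X₁ X₂ : Finset V} {x₀ y₀ : V} (hx : IsEven x₀) (hy : ¬ IsEven y₀)
    (h₁ : Disjoint X₁ {x₀, y₀}) (h₂ : Disjoint X₂ {x₀, y₀})
    (hs : ∑ x ∈ X₁, sg x = ∑ x ∈ X₂, sg x) (hM : ∑ x ∈ M₁, sg x = ∑ x ∈ M₂, sg x) :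
    (M₁ \ {x₀, y₀} = X₁ ∧ M₂ \ {x₀, y₀} = X₂ ∧ ∀ v ∈ ({x₀, y₀} : Finset V), (v ∈ M₁ ↔ v ∉ M₂)) ↔
      (M₁ = X₁ ∧ M₂ = X₂ ∪ {x₀, y₀}) ∨ (M₁ = X₁ ∪ {x₀, y₀} ∧ M₂ = X₂) := by
  constructor
  · rintro ⟨rfl, rfl, h⟩
    have ne : x₀ ≠ y₀ := fun e => hy (e ▸ hx)
    have e : ∀ M : Finset V, ∑ x ∈ M, sg x = ∑ x ∈ M \ {x₀, y₀}, sg x +
        ((if x₀ ∈ M then 1 else 0) - if y₀ ∈ M then 1 else 0) := fun M => by
      rw [← sum_sdiff (inter_subset_left (s₂ := {x₀, y₀})), sdiff_inter_self_left, inter_comm,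
        ← sum_ite_mem, sum_pair ne, sg, sg, if_pos hx, if_neg hy]
      split_ifs <;> simp
    rw [e M₁, e M₂, hs, add_right_inj] at hM
    have a := h x₀ (by simp)
    have b := h y₀ (by simp)
    by_cases c : x₀ ∈ M₁ <;> by_cases d : y₀ ∈ M₁ <;> simp only [c, d, true_iff, false_iff,
      not_not] at a b
    · exact .inr ⟨(sdiff_union_of_subset (by simp [insert_subset_iff, c, d])).symm,
        (sdiff_eq_self_of_disjoint (by simp [a, b])).symm⟩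
    · norm_num [a, b, c, d] at hM
    · norm_num [a, b, c, d] at hM
    · exact .inl ⟨(sdiff_eq_self_of_disjoint (by simp [c, d])).symm,
        (sdiff_union_of_subset (by simp [insert_subset_iff, a, b])).symm⟩
  · rintro (⟨rfl, rfl⟩ | ⟨rfl, rfl⟩)
    · exact ⟨sdiff_eq_self_of_disjoint h₁, union_sdiff_cancel_right h₂, fun v hv =>
        iff_of_false (disjoint_right.1 h₁ hv) (not_not.2 (mem_union_right _ hv))⟩
    · exact ⟨union_sdiff_cancel_right h₁, sdiff_eq_self_of_disjoint h₂, fun v hv =>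
        iff_of_true (mem_union_right _ hv) (disjoint_right.1 h₂ hv)⟩

lemma NExact_pair {U X₁ X₂ : Finset V} {x₀ y₀ : V} (hx : IsEven x₀) (hy : ¬ IsEven y₀)
    (hP : {x₀, y₀} ⊆ U) (h₁ : Disjoint X₁ {x₀, y₀}) (h₂ : Disjoint X₂ {x₀, y₀})
    (hs : ∑ x ∈ X₁, sg x = ∑ x ∈ X₂, sg x) :
    ∑ κ₁ ∈ (cls U id).filter (fun κ => mon U κ \ {x₀, y₀} = X₁),
      ∑ κ₂ ∈ (cls U id).filter (fun κ => mon U κ \ {x₀, y₀} = X₂),
        (if One {x₀, y₀} κ₁ κ₂ then (1 : ℝ) else 0) =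
      Zm U id X₁ * Zm (U \ {x₀, y₀}) id X₂ + Zm (U \ {x₀, y₀}) id X₁ * Zm U id X₂ := by
  have z : ∀ X, Disjoint X {x₀, y₀} → Zm (U \ {x₀, y₀}) id X = Zm U id (X ∪ {x₀, y₀}) :=
    fun X h => by rw [NExact_Zm isExt_id (by rwa [NExact_free]) h, NExact_free]
  have n : ∀ κ ∈ cls U id, ∑ x ∈ mon U κ, sg x = ∑ x ∈ free U id, sg x := fun κ h => by
    rw [← Cls2_sg (mem_cls.1 h).1, (Cls2_free h (mem_cls.2 ⟨isExt_id, fun _ _ => rfl⟩)).antisymm
      (Cls2_free (mem_cls.2 ⟨isExt_id, fun _ _ => rfl⟩) h)]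
  rw [z _ h₁, z _ h₂, ← sum_product', ← filter_product, sum_filter]
  simp only [Zm, ← sum_boole, sum_mul_sum, ← sum_product', ← sum_add_distrib,
    ite_zero_mul_ite_zero, mul_one, ← ite_and]
  refine sum_congr rfl fun p hp => ?_
  obtain ⟨p1, p2⟩ := mem_product.1 hp
  have k := NExact_sets hx hy h₁ h₂ hs ((n _ p1).trans (n _ p2).symm)
  have o : One {x₀, y₀} p.1 p.2 ↔
      ∀ v ∈ ({x₀, y₀} : Finset V), (v ∈ mon U p.1 ↔ v ∉ mon U p.2) :=
    forall₂_congr fun v hv => by simp [mon, hP hv]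
  rw [← o, ← and_assoc] at k
  have d : X₁ ≠ X₁ ∪ {x₀, y₀} := fun e => disjoint_right.1 h₁ (mem_insert_self _ _)
    (e ▸ mem_union_right _ (mem_insert_self _ _))
  simp only [k]
  by_cases a : mon U p.1 = X₁
  · simp only [a, d, true_and, false_and, or_false, if_false, add_zero]
  · simp only [a, false_and, false_or, if_false, zero_add]

lemma NExact_cross {U : Finset V} {x₀ y₀ : V} (hx : IsEven x₀) (hy : ¬ IsEven y₀)
    (hP : {x₀, y₀} ⊆ U) : PSD (trunc (fun x y => Zm U id {x, y}) x₀ y₀)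
      (fun x y => Zm (U \ {x₀, y₀}) id {x, y})
      (2 * ((Zm U id ∅ : ℝ) * Zm (U \ {x₀, y₀}) id ∅)) := by
  have od : ∀ e : V × Dir, IsEven e.1 → ¬ IsEven (oe e) := fun e h k => isEven_add_dv.1 k h
  refine NExact_restr (by positivity) (U \ {x₀, y₀}) (fun e f he hf k => ?_) fun D hD t => ?_
  · have k1 := left_ne_zero_of_mul k
    have k2 := NExact_sub (right_ne_zero_of_mul k)
    rw [trunc, ite_ne_left_iff, not_or] at k1
    have k3 := NExact_sub k1.2.symm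
    refine ⟨⟨mem_sdiff.2 ⟨k3.1, ?_⟩, k2.2⟩, k2.1, mem_sdiff.2 ⟨k3.2, ?_⟩⟩ <;>
      rw [mem_insert, mem_singleton, not_or]
    · exact ⟨k1.1.1, fun q => hy (q ▸ he)⟩
    · exact ⟨fun q => od f hf (q ▸ hx), k1.1.2⟩
  · have h := exact_P U {x₀, y₀} hP D hD t
    have s0 : ∀ e ∈ D, ∀ f ∈ D, ∑ x ∈ {e.1, oe f}, sg x = 0 := fun e he f hf => by
      rw [sum_pair fun q : e.1 = oe f => od f (hD f hf).1 (q ▸ (hD e he).1), sg, sg, if_pos (hD e he).1,
        if_neg (od f (hD f hf).1), add_neg_cancel]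
    have dj : ∀ e ∈ D, ∀ f ∈ D, Disjoint {e.1, oe f} ({x₀, y₀} : Finset V) := fun e he f hf => by
      rw [disjoint_insert_left, disjoint_singleton_left]
      exact ⟨(mem_sdiff.1 (hD e he).2.1).2, (mem_sdiff.1 (hD f hf).2.2).2⟩
    simp only [← sdiff_eq_empty_iff_subset] at h
    rw [NExact_pair hx hy hP (disjoint_empty_left _) (disjoint_empty_left _) rfl,
      sum_congr rfl fun e he => sum_congr rfl fun f hf => congrArg (t e * t f * ·)
        (NExact_pair hx hy hP (dj e he f hf) (dj f hf e he)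
          ((s0 e he f hf).trans (s0 f hf e he).symm))] at h
    have e : Kq (trunc (fun x y => Zm U id {x, y}) x₀ y₀)
        (fun x y => Zm (U \ {x₀, y₀}) id {x, y}) D t = ∑ e ∈ D, ∑ f ∈ D, t e * t f *
          ((Zm U id {e.1, oe f} : ℝ) * Zm (U \ {x₀, y₀}) id {f.1, oe e}) :=
      sum_congr rfl fun e he => sum_congr rfl fun f hf => by
        rw [trunc, if_neg fun k => k.elim
          (fun k => (mem_sdiff.1 (hD e he).2.1).2 (by simp [k]))
          fun k => (mem_sdiff.1 (hD f hf).2.2).2 (by simp [k])]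
    have e' : ∑ e ∈ D, ∑ f ∈ D, t e * t f *
        ((Zm (U \ {x₀, y₀}) id {e.1, oe f} : ℝ) * Zm U id {f.1, oe e}) = ∑ e ∈ D, ∑ f ∈ D,
          t e * t f * ((Zm U id {e.1, oe f} : ℝ) * Zm (U \ {x₀, y₀}) id {f.1, oe e}) :=
      sum_comm.trans (sum_congr rfl fun e _ => sum_congr rfl fun f _ => by ring)
    simp only [mul_add, sum_add_distrib] at h
    rw [e]
    linarith

theorem exact_self (Λ : Finset V) {σ : V → V} (hσ : IsExt σ) (bg : Finset V) :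
    PSD (Gb (Mr Λ σ) bg) (Gb (Mr Λ σ) bg) (2 * Mr Λ σ bg ^ 2) := by
  by_cases hb : bg ⊆ free Λ σ
  · rw [NExact_Gb hσ hb, NExact_Mr hσ hb, div_pow, ← mul_div_assoc]
    exact (NExact_self _).NExact_div _
  · rw [NExact_Gb0 hσ hb, NExact_Mr0 hσ hb]
    exact fun D _ t => by simp [Kq]

theorem exact_cross (Λ : Finset V) {σ : V → V} (hσ : IsExt σ) (bg : Finset V) {x₀ y₀ : V}
    (hx : IsEven x₀) (hy : ¬ IsEven y₀) (hx' : x₀ ∉ bg) (hy' : y₀ ∉ bg) :
    PSD (trunc (Gb (Mr Λ σ) bg) x₀ y₀) (Gb (Mr Λ σ) (insert x₀ (insert y₀ bg)))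
      (2 * (Mr Λ σ bg * Mr Λ σ (insert x₀ (insert y₀ bg)))) := by
  by_cases hb : insert x₀ (insert y₀ bg) ⊆ free Λ σ
  · have hb' : bg ⊆ free Λ σ := ((subset_insert _ _).trans (subset_insert _ _)).trans hb
    have e : free Λ σ \ insert x₀ (insert y₀ bg) = (free Λ σ \ bg) \ {x₀, y₀} := by
      rw [sdiff_sdiff_left, sup_eq_union, union_comm, insert_union, singleton_union]
    have e' : ∀ (G : V → V → ℝ) (z : ℝ), trunc (fun x y => G x y / z) x₀ y₀ =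
        fun x y => trunc G x₀ y₀ x y / z := fun G z => by
      funext x y
      rw [trunc, trunc]
      split_ifs
      · rw [zero_div]
      · rfl
    rw [NExact_Gb hσ hb, NExact_Mr hσ hb, NExact_Gb hσ hb', NExact_Mr hσ hb', e, e',
      div_mul_div_comm, ← mul_div_assoc, ← pow_two]
    refine (NExact_cross hx hy fun v hv => ?_).NExact_div _
    simp only [mem_insert, mem_singleton] at hv
    rcases hv with rfl | rfl
    · exact mem_sdiff.2 ⟨hb (by simp), hx'⟩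
    · exact mem_sdiff.2 ⟨hb (by simp), hy'⟩
  · rw [NExact_Gb0 hσ hb, NExact_Mr0 hσ hb]
    exact fun D _ t => by simp [Kq]

end Pool.Agent.Work.MP_5cb0a4_pr.Z
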