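import Pool.Agent.Work.MP_5cb0a4_pr.N.Gauge
import Pool.Agent.Work.MP_5cb0a4_pr.N.TransK

open MeasureTheory Finset Filter Topology
open scoped Classical

namespace Pool.Agent.Work.MP_5cb0a4_pr.Z

/-- Port of `lp` and `lp_log` for small mean current. -/
theorem lp_small {ε : ℝ} (hε : 0 < ε) : ∃ s₁ : ℝ, 0 < s₁ ∧ ∀ (ν : Measure Dimer) (s : Fin 3 → ℝ),
    IM ν → FluxAt ν s → n1 s ≤ s₁ → LPe ν ε := by
  obtain ⟨k, m, c, -, hm, hc, hd⟩ := lp_det (half_pos hε)
  have hη : 0 < ε * c / 38400 := by positivity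
  refine ⟨√(ε * c / 38400), Real.sqrt_pos.2 hη, fun ν s h hF hs => ?_⟩
  have := h.prob
  obtain ⟨l₀, hl₀⟩ := hF _ hη
  have hl1 : l₀ + 1 ≤ 2 * m * (l₀ + 1) := Nat.le_mul_of_pos_left _ (by omega)
  obtain ⟨l, hl⟩ : ∃ l, l = 2 * m * (l₀ + 1) := ⟨_, rfl⟩
  obtain ⟨L₀, hL₀⟩ := hd l (by omega) (hl ▸ Dvd.intro _ rfl)
  refine ⟨max L₀ 1, fun L hL => ?_⟩
  have hL1 : 1 ≤ L := le_of_max_le_right hL
  have hi (s d c) := (Trans_comp (local_FQp s d c l) (· ^ 2)).integrable ν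
  have hs2 : n1 s ^ 2 ≤ ε * c / 38400 :=
    (pow_le_pow_left₀ (n1_nonneg s) hs 2).trans_eq (Real.sq_sqrt hη.le)
  have h1 := int_Psp ν (s := 0) (η := ε * c / 9600) (l := l) (by positivity) (fun d x => by
    refine (integral_mono (hi 0 d x) (((hi s d x).const_mul 2).add
      (integrable_const (2 * (n1 s * (l : ℝ) ^ 2) ^ 2))) fun τ => ?_).trans ?_
    · have h2 := sq_le_sq' (abs_le.1 (FQp_crude s τ.1 d x l)).1 (abs_le.1 (FQp_crude s τ.1 d x l)).2
      simp only [Pi.add_apply, FQp_zero]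
      linarith only [h2, sq_nonneg (2 * FQp s τ.1 d x l - FQ τ.1 d x l), sq_nonneg ((2 : ℝ) * FQp s (↑τ) d x l - FQ (↑τ) d x l)]
    · simp only [Pi.add_apply]
      rw [integral_add ((hi s d x).const_mul 2) (integrable_const _), integral_const_mul,
        integral_const, probReal_univ, one_smul]
      have h2 := mul_le_mul_of_nonneg_right hs2 (show 0 ≤ (l : ℝ) ^ 4 by positivity)
      linarith only [h2, hl₀, hl1, hl, hl₀ l (by omega) d x]) (L - L / k) L
  have hp : 0 < c * (l : ℝ) ^ 2 := by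
    have : (0 : ℝ) < l := by exact_mod_cast (by omega : 0 < l)
    positivity
  have hL3 : (0 : ℝ) ≤ (L : ℝ) ^ 3 := by positivity
  have hZ := Trans_Zs_pos L
  have hi2 := ((local_Psp 0 (L - L / k) L l).integrable ν).const_mul (200 / (c * (l : ℝ) ^ 2))
  refine (integral_mono ((Double_local_log L).integrable ν)
    ((integrable_const (ε / 2 * (L : ℝ) ^ 3)).add hi2) fun τ => ?_).trans ?_
  · have hz : (1 : ℝ) ≤ zz (box L) τ.1 := by exact_mod_cast zz_dimer_pos (box L) τ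
    have hz0 : (0 : ℝ) < zz (box L) τ.1 := by linarith only [hz]
    have h2 := Psp_nonneg 0 (L - L / k) L l τ.1
    have h3 : Psp 0 (L - L / k) L l τ.1 = Psi L (L / k) l τ.1 := PsO_zero τ.1 L k l
    simp only [Pi.add_apply]
    rw [Real.log_le_iff_le_exp (div_pos hZ hz0)]
    rcases lt_or_ge (Psi L (L / k) l τ.1) (c * (L : ℝ) ^ 3 * (l : ℝ) ^ 2) with h4 | h4
    · refine le_trans ?_ (Real.exp_le_exp.2 (le_add_of_nonneg_right
        (mul_nonneg (div_pos (by norm_num) hp).le h2)))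
      rw [div_le_iff₀ hz0]
      refine le_trans (le_of_eq ?_) (mul_le_mul_of_nonneg_left
        (hL₀ L (le_of_max_le_left hL) τ h4) (Real.exp_pos _).le)
      rw [← mul_assoc, ← Real.exp_add]
      simp
    · refine (div_le_self hZ.le hz).trans ((Zs_le L hL1).trans (Real.exp_le_exp.2
        (le_add_of_nonneg_of_le (mul_nonneg (half_pos hε).le hL3) ?_)))
      rw [h3, div_mul_eq_mul_div, le_div_iff₀ hp]
      linarith only [h4]
  · simp only [Pi.add_apply]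
    rw [integral_add (integrable_const _) hi2, integral_const, integral_const_mul, probReal_univ,
      one_smul]
    have h2 : 200 / (c * (l : ℝ) ^ 2) * ∫ τ, Psp 0 (L - L / k) L l τ.1 ∂ν ≤ ε / 2 * (L : ℝ) ^ 3 := by
      rw [div_mul_eq_mul_div, div_le_iff₀ hp]
      linarith only [h1]
    linarith only [h2]

lemma NLPK_int {ν : Measure Dimer} (h : IM ν) (L : ℕ) : ∫ τ, Real.log (Zs L / zz (box L) τ.1) ∂ν =
    Real.log (Zs L) - ∫ τ, Real.log (zz (box L) τ.1) ∂ν := by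
  have := h.prob
  rw [integral_congr_ae (Eventually.of_forall fun τ => Real.log_div (Trans_Zs_pos L).ne'
      (Nat.cast_pos.2 (zz_dimer_pos (box L) τ)).ne'),
    integral_sub (integrable_const _) ((local_log_zz _).integrable ν), integral_const,
    probReal_univ, one_smul]

lemma NLPK_arith {M N z a e : ℝ} (hM : 1 ≤ M) (hN : M ≤ N) (h0 : 0 ≤ z) (hz : z ≤ 2 * M ^ 3)
    (h : (N - 1) ^ 3 * z - e * N ^ 3 ≤ N ^ 3 * a + 2 * ((M * N + 1) ^ 3 - N ^ 3 * (M - 1) ^ 3)) :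
    z - a ≤ 22 * M ^ 2 + e := by
  have hN0 : 0 < N := by linarith only [hM, hN]
  have h1 := mul_le_mul (LPdet_cube (x := N) (y := N - 1) (by linarith) (by linarith)) hz h0
    (by linarith only [sq_nonneg N])
  have h2 := mul_le_mul_of_nonneg_left hN (show 0 ≤ 6 * N ^ 2 * M ^ 2 by positivity)
  have h3 : (M * N + 1) ^ 3 ≤ ((M + 1) * N) ^ 3 :=
    pow_le_pow_left₀ (by positivity) (by linarith) 3
  have h4 := mul_le_mul_of_nonneg_left (one_le_pow₀ hM (n := 2)) (show 0 ≤ N ^ 3 by positivity)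
  refine le_of_mul_le_mul_left ?_ (pow_pos hN0 3)
  linarith only [h, h1, h2, h3, h4]

/-- The entropy bound holds uniformly at finite scales (`lp_up`, `exists_cells`). -/
theorem lp_unif {ε : ℝ} (hε : 0 < ε) : ∃ ε' : ℝ, 0 < ε' ∧ ∃ m₀ : ℕ, ∀ m ≥ m₀,
    ∀ ν : Measure Dimer, IM ν → LPe ν ε' →
      ∫ τ, Real.log (Zs m / zz (box m) τ.1) ∂ν ≤ ε * (m : ℝ) ^ 3 := by
  obtain ⟨m₀, hm₀⟩ := exists_nat_ge (800 / ε)
  refine ⟨ε / 16, by positivity, m₀ + 1, fun m hm ν h ⟨L₀, hL₀⟩ => ?_⟩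
  obtain ⟨J, hJ⟩ : ∃ J, J = L₀ + m + 1 := ⟨_, rfl⟩
  have hL : J ≤ gL m J := by
    unfold gL
    linarith only [hm, hJ, mul_nonneg_of_nonpos_of_nonpos (Mathlib.Tactic.Linarith.sub_nonpos_of_le (Mathlib.Tactic.Linarith.natCast_nonneg ℤ m)) (Mathlib.Tactic.Linarith.sub_nonpos_of_le (Mathlib.Tactic.Linarith.natCast_nonneg ℤ J))]
  have h1 := hL₀ (gL m J) (by omega)
  have h2 := lp_up h m J
  have hz : 0 < zc (2 * m + 2) := zc_pos (m := m + 1) (by omega)
  have hz1 : (1 : ℝ) ≤ zc (2 * m + 2) := by exact_mod_cast hz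
  obtain ⟨τ, -, h3⟩ := exists_cells (by omega) hz
  have h4 := h3 (box (gL m J)) τ.1 τ.1 (gL m J) (mem_perf.2 ⟨⟨isExt_dimer τ, fun _ _ => rfl⟩,
    fun x _ e => by simpa [e, Nbr] using (τ.2 x).1⟩) subset_rfl fun _ _ => rfl
  rw [show gL m J / (2 * m + 2) = J by
    rw [gL, add_assoc, Nat.mul_add_div (by omega), Nat.div_eq_of_lt (by omega), add_zero]] at h4
  have h5 : ((zc (2 * m + 2) : ℝ)) ^ (2 * J) ^ 3 ≤ Zs (gL m J) :=
    le_trans (by exact_mod_cast h4) (Double_zz_le (by omega) (isExt_dimer τ))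
  have h6 := Real.log_le_log (by positivity) h5
  have h7 : Real.log (zc (2 * m + 2)) ≤ 2 * (2 * (m : ℝ) + 2) ^ 3 := by
    rw [Real.log_le_iff_le_exp (by linarith only [hz1])]
    refine le_trans (by exact_mod_cast LPdet_zc (2 * m + 2)) ((LPdet_pow7 ((2 * m + 2) ^ 3)).trans ?_)
    push_cast
    rfl
  have hm1 : (1 : ℝ) ≤ m := by exact_mod_cast (by omega : 1 ≤ m)
  have hmJ : (m : ℝ) + 1 ≤ J := by exact_mod_cast (by omega : m + 1 ≤ J)
  rw [NLPK_int h] at h1 ⊢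
  rw [Real.log_pow] at h6
  rw [card_grid, card_box] at h2
  have e : (gL m J : ℝ) = (m + 1) * (2 * J + 1) := by
    rw [gL]
    push_cast
    ring
  push_cast at h2 h6
  rw [e] at h1 h2
  have h8 := NLPK_arith (M := 2 * m + 2) (N := 2 * J + 1) (e := ε / 16 * (m + 1) ^ 3)
    (a := ∫ τ, Real.log (zz (box m) τ.1) ∂ν) (by linarith only [hm1]) (by linarith only [hmJ]) (Real.log_nonneg hz1) h7
    (by linarith only [h1, h2, h6])
  have h9 : Real.log (Zs m) ≤ 3 * (2 * (m : ℝ) + 2) ^ 2 + Real.log (zc (2 * m + 2)) := by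
    rw [Zs, Real.log_mul (by positivity) (by positivity), add_le_add_iff_right,
      Real.log_le_iff_le_exp (by positivity)]
    refine (LPdet_pow _).trans ?_
    push_cast
    rfl
  have h10 : (2 * (m : ℝ) + 2) ^ 2 ≤ (4 * m) ^ 2 := pow_le_pow_left₀ (by linarith only [hm1]) (by linarith only [hm1]) 2
  have h11 := mul_le_mul_of_nonneg_left (pow_le_pow_left₀ (by linarith only [hm1])
    (show (m : ℝ) + 1 ≤ 2 * m by linarith only [hm1]) 3) hε.le
  have h12 : 800 ≤ ε * m := by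
    rw [div_le_iff₀ hε] at hm₀
    have : (m₀ : ℝ) ≤ m := by exact_mod_cast (by omega : m₀ ≤ m)
    linarith only [hm₀, hε, this, mul_nonneg_of_nonpos_of_nonpos (le_of_lt (Mathlib.Tactic.Linarith.sub_neg_of_lt hε)) (Mathlib.Tactic.Linarith.sub_nonpos_of_le this)]
  have h13 := mul_le_mul_of_nonneg_right h12 (sq_nonneg (m : ℝ))
  linarith only [h8, h9, h10, h11, h13]

end Pool.Agent.Work.MP_5cb0a4_pr.Z
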