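import Pool.Agent.Work.MP_5cb0a4_pr.N.IsoP
import Pool.Agent.Work.MP_5cb0a4_pr.N.TransK
import Pool.Agent.Work.MP_5cb0a4_pr.N.QGD2a
import Pool.Agent.Work.MP_5cb0a4_pr.N.Posi

-- merged part: Pool.Agent.Work.MP_5cb0a4_pr.N.CR2
section
open MeasureTheory Finset Filter Topology
open scoped Classical

namespace Pool.Agent.Work.MP_5cb0a4_pr.Z

/-- `g` depends only on the bilayer configuration outside `Λ`. -/
def NCR2_Off (Λ : Finset V) (g : (HE → HE) → ℝ) : Prop :=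
  ∀ μ μ', BExt μ → BExt μ' → (∀ h : HE, h.1 ∉ Λ → μ h = μ' h) → g μ = g μ'

/-- No fixed half edge and no layer change over `Λ`. -/
def NCR2_P (Λ : Finset V) (μ : HE → HE) : Prop := ∀ h : HE, h.1 ∈ Λ → μ h ≠ h ∧ (μ h).2 = h.2

/-- The indicator of `NCR2_P`. -/
noncomputable def NCR2_I (Λ : Finset V) (μ : HE → HE) : ℝ := if NCR2_P Λ μ then 1 else 0

/-- The number of configurations of the class with `NCR2_P`. -/
noncomputable def NCR2_n (Λ : Finset V) (μ : HE → HE) : ℝ := ∑ μ' ∈ cls2 Λ μ, NCR2_I Λ μ'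

lemma NCR2_off_mul {Λ : Finset V} {g h : (HE → HE) → ℝ} (hg : NCR2_Off Λ g)
    (hh : NCR2_Off Λ h) : NCR2_Off Λ fun μ => g μ * h μ := fun σ σ' a b c => by
  simp only [hg σ σ' a b c, hh σ σ' a b c]

lemma NCR2_off_cls (Λ : Finset V) (F : Finset (HE → HE) → ℝ) :
    NCR2_Off Λ fun μ => F (cls2 Λ μ) := fun _ _ _ _ c => by simp only [cls2_eq c]

lemma NCR2_loc_off {Λ Λ' : Finset V} {g : (HE → HE) → ℝ} (hg : Loc2 Λ g) (h : Disjoint Λ Λ') :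
    NCR2_Off Λ' g := fun σ σ' a b e => hg σ σ' a b fun x hx => e x (disjoint_left.1 h hx)

lemma NCR2_loc_I (Λ : Finset V) : Loc2 Λ (NCR2_I Λ) := fun σ σ' _ _ c => by
  have e : NCR2_P Λ σ ↔ NCR2_P Λ σ' :=
    forall_congr' fun h => imp_congr_right fun hh => by rw [c h hh]
  simp only [NCR2_I, e]

lemma NCR2_I_nonneg (Λ : Finset V) (μ : HE → HE) : 0 ≤ NCR2_I Λ μ := by
  rw [NCR2_I]
  split_ifs <;> norm_num

lemma NCR2_off_n (Λ : Finset V) (F : ℝ → ℝ) : NCR2_Off Λ fun μ => F (NCR2_n Λ μ) :=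
  NCR2_off_cls Λ fun s => F (∑ μ' ∈ s, NCR2_I Λ μ')

lemma NCR2_resample {Λ' Λ : Finset V} (h : Λ' ⊆ Λ) (σ : HE → HE) (g w : (HE → HE) → ℝ)
    (hg : NCR2_Off Λ' g) :
    ∑ ρ ∈ cls2 Λ σ, g ρ * w ρ =
      ∑ ρ ∈ cls2 Λ σ, g ρ * ((∑ ρ' ∈ cls2 Λ' ρ, w ρ') / (cls2 Λ' ρ).card) := by
  have h1 : ∀ ρ ρ', ρ ∈ cls2 Λ σ → ρ' ∈ cls2 Λ' ρ → ρ ∈ cls2 Λ' ρ' ∧ ρ' ∈ cls2 Λ σ :=
    fun ρ ρ' a b =>
    ⟨mem_cls2.2 ⟨(mem_cls2.1 a).1, fun x hx => ((mem_cls2.1 b).2 x hx).symm⟩,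
      mem_cls2.2 ⟨(mem_cls2.1 b).1, fun x hx =>
        ((mem_cls2.1 b).2 x fun hx' => hx (h hx')).trans ((mem_cls2.1 a).2 x hx)⟩⟩
  simp only [sum_div, mul_sum]
  rw [sum_comm' (t' := cls2 Λ σ) (s' := fun ρ' => cls2 Λ' ρ') fun ρ ρ' =>
    ⟨fun a => h1 ρ ρ' a.1 a.2, fun a => (h1 ρ' ρ a.2 a.1).symm⟩]
  refine sum_congr rfl fun ρ hρ => ?_
  have h2 : ∀ ρ' ∈ cls2 Λ' ρ,
      g ρ' * (w ρ / (cls2 Λ' ρ').card) = g ρ * (w ρ / (cls2 Λ' ρ).card) := fun ρ' a => by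
    rw [cls2_eq (mem_cls2.1 a).2, hg ρ' ρ (mem_cls2.1 a).1 (mem_cls2.1 hρ).1 (mem_cls2.1 a).2]
  have h3 : ((cls2 Λ' ρ).card : ℝ) ≠ 0 :=
    Nat.cast_ne_zero.2 (card_ne_zero_of_mem (self_mem_cls2 (mem_cls2.1 hρ).1 Λ'))
  rw [sum_congr rfl h2, sum_const, nsmul_eq_mul]
  field_simp

lemma NCR2_key {Λ' Λ : Finset V} (h : Λ' ⊆ Λ) (σ : HE → HE) {G : (HE → HE) → ℝ}
    (hG : NCR2_Off Λ' G) (w : (HE → HE) → ℝ) :
    ∑ ρ ∈ cls2 Λ σ, G ρ * (NCR2_I Λ' ρ * ((∑ ρ' ∈ cls2 Λ' ρ, w ρ') / NCR2_n Λ' ρ)) =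
      ∑ ρ ∈ cls2 Λ σ, G ρ * ((if NCR2_n Λ' ρ = 0 then 0 else 1) *
        ((∑ ρ' ∈ cls2 Λ' ρ, w ρ') / (cls2 Λ' ρ).card)) := by
  have h1 := NCR2_resample h σ _ (NCR2_I Λ') (NCR2_off_mul hG (NCR2_off_mul
    (NCR2_off_cls Λ' fun s => ∑ ρ' ∈ s, w ρ') (NCR2_off_n Λ' fun n => n⁻¹)))
  refine Eq.trans (sum_congr rfl fun ρ _ => by ring) (h1.trans (sum_congr rfl fun ρ _ => ?_))
  have e : ∑ ρ' ∈ cls2 Λ' ρ, NCR2_I Λ' ρ' = NCR2_n Λ' ρ := rfl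
  rw [e]
  split_ifs with h2
  · rw [h2]
    simp
  · field_simp

lemma NCR2_repl (s : Finset (HE → HE)) (S : Finset V) (Λ : V → Finset V)
    (hdisj : ∀ i ∈ S, ∀ j ∈ S, i ≠ j → Disjoint (Λ i) (Λ j)) (f f' : V → (HE → HE) → ℝ)
    (hf : ∀ i ∈ S, Loc2 (Λ i) (f i)) (hf' : ∀ i ∈ S, Loc2 (Λ i) (f' i))
    (h : ∀ i ∈ S, ∀ G, NCR2_Off (Λ i) G → ∑ ρ ∈ s, G ρ * f i ρ = ∑ ρ ∈ s, G ρ * f' i ρ)
    (G : (HE → HE) → ℝ) (hG : ∀ i ∈ S, NCR2_Off (Λ i) G) :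
    ∑ ρ ∈ s, G ρ * ∏ i ∈ S, f i ρ = ∑ ρ ∈ s, G ρ * ∏ i ∈ S, f' i ρ := by
  induction S using Finset.induction_on generalizing G with
  | empty => rfl
  | insert j S hj ih =>
    have hm := mem_insert_self j S
    have hd : ∀ i ∈ S, Disjoint (Λ j) (Λ i) := fun i hi =>
      hdisj j hm i (mem_insert_of_mem hi) fun e => hj (e ▸ hi)
    have h1 := ih (fun i hi k hk => hdisj i (mem_insert_of_mem hi) k (mem_insert_of_mem hk))
      (fun i hi => hf i (mem_insert_of_mem hi)) (fun i hi => hf' i (mem_insert_of_mem hi))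
      (fun i hi => h i (mem_insert_of_mem hi)) (fun ρ => G ρ * f j ρ)
      fun i hi => NCR2_off_mul (hG i (mem_insert_of_mem hi)) (NCR2_loc_off (hf j hm) (hd i hi))
    have h2 := h j hm (fun ρ => G ρ * ∏ i ∈ S, f' i ρ) (NCR2_off_mul (hG j hm) fun σ σ' a b c =>
      prod_congr rfl fun i hi =>
        NCR2_loc_off (hf' i (mem_insert_of_mem hi)) (hd i hi).symm σ σ' a b c)
    simp only [prod_insert hj, ← mul_assoc]
    rw [h1]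
    simp only [mul_right_comm _ (f j _), mul_right_comm _ (f' j _)]
    exact h2

lemma NCR2_pairs (Λ : Finset V) (ρ₁ ρ₂ : V → V) (g : (HE → HE) → ℝ) :
    ∑ μ ∈ cls2 Λ (emb ρ₁ ρ₂), NCR2_I Λ μ * g μ =
      ∑ κ₁ ∈ perf Λ ρ₁, ∑ κ₂ ∈ perf Λ ρ₂, g (emb κ₁ κ₂) := by
  have h1 := sum_cls2_proper Λ ρ₁ ρ₂ fun μ => NCR2_I Λ μ * g μ
  rw [sum_filter] at h1
  refine Eq.trans (sum_congr rfl fun μ _ => ?_) (h1.trans ?_)
  · split_ifs with h2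
    · rfl
    · rw [NCR2_I, if_neg fun h3 : NCR2_P Λ μ => h2 fun x hx => (h3 x hx).2, zero_mul]
  · simp only [perf, sum_filter]
    refine sum_congr rfl fun κ₁ _ => ?_
    have e : ∀ κ₂, NCR2_P Λ (emb κ₁ κ₂) ↔ mon Λ κ₁ = ∅ ∧ mon Λ κ₂ = ∅ := fun κ₂ => by
      simp only [eq_empty_iff_forall_notMem, mem_mon, not_and]
      constructor
      · intro h
        exact ⟨fun x hx e => (h (x, false) hx).1 (by simp [emb, e]),
          fun x hx e => (h (x, true) hx).1 (by simp [emb, e])⟩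
      · rintro ⟨a, c⟩ ⟨x, i⟩ hx
        refine ⟨fun e => ?_, rfl⟩
        have e1 := congrArg Prod.fst e
        cases i
        · exact a x hx e1
        · exact c x hx e1
    simp only [NCR2_I, e]
    split_ifs with h2
    · refine sum_congr rfl fun κ₂ _ => ?_
      simp only [h2, true_and, boole_mul]
    · refine sum_eq_zero fun κ₂ _ => ?_
      simp only [h2, false_and, if_false, zero_mul]

lemma NCR2_n_emb (Λ : Finset V) (ρ₁ ρ₂ : V → V) :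
    NCR2_n Λ (emb ρ₁ ρ₂) = (zz Λ ρ₁ : ℝ) * zz Λ ρ₂ := by
  have h1 := NCR2_pairs Λ ρ₁ ρ₂ fun _ => 1
  simp only [mul_one, sum_const, nsmul_eq_mul] at h1
  exact h1

/-- Class replacement for bilayer configurations (port of `class_replace`). -/
theorem class_replace2 (U : Finset V) (σ₁ σ₂ : V → V) (S : Finset V) (Λ : V → Finset V)
    (hsub : ∀ i ∈ S, Λ i ⊆ U) (hdisj : ∀ i ∈ S, ∀ j ∈ S, i ≠ j → Disjoint (Λ i) (Λ j))
    (b : V → (HE → HE) → ℝ) (hb : ∀ i ∈ S, Loc2 (Λ i) (b i))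
    (hB : ∀ i ∈ S, ∀ μ, BExt μ → 0 ≤ ∑ μ' ∈ cls2 (Λ i) μ, b i μ')
    (H : (V → Sym2 V) → ℝ) (hH0 : ∀ W, 0 ≤ H W) (hH : LocU {v | v ∉ S.biUnion Λ} H) :
    ∑ ρ₁ ∈ perf U σ₁, ∑ ρ₂ ∈ perf U σ₂, H (un2 ρ₁ ρ₂) * ∏ i ∈ S, W2 (Λ i) (b i) ρ₁ ρ₂ ≤
      ∑ μ ∈ (cls2 U (emb σ₁ σ₂)).filter (offOK U (S.biUnion Λ)),
        H (un μ) * ∏ i ∈ S, b i μ := by
  have hG : ∀ i ∈ S, NCR2_Off (Λ i) fun μ => NCR2_I (U \ S.biUnion Λ) μ * H (un μ) := fun i hi =>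
    NCR2_off_mul (NCR2_loc_off (NCR2_loc_I _)
      (sdiff_disjoint.mono_right (subset_biUnion_of_mem Λ hi))) fun μ μ' _ _ c =>
      hH _ _ fun v hv => by
        have h1 : v ∉ Λ i := fun h => hv (subset_biUnion_of_mem Λ hi h)
        rw [un, un, c (v, false) h1, c (v, true) h1]
  have l1 : ∀ i ∈ S, Loc2 (Λ i) fun μ => ∑ μ' ∈ cls2 (Λ i) μ, b i μ' := fun i hi =>
    loc2_sum_cls2 (hb i hi)
  have l2 : ∀ i, Loc2 (Λ i) (NCR2_n (Λ i)) := fun i => loc2_sum_cls2 (NCR2_loc_I (Λ i))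
  have l3 : ∀ i, Loc2 (Λ i) fun μ => (cls2 (Λ i) μ).card := fun i σ σ' a c d => by
    have h1 := loc2_sum_cls2 (Λ := Λ i) (b := fun _ => (1 : ℕ)) (fun _ _ _ _ _ => rfl) σ σ' a c d
    simpa only [← card_eq_sum_ones] using h1
  have p1 := NCR2_repl (cls2 U (emb σ₁ σ₂)) S Λ hdisj
    (fun i μ => NCR2_I (Λ i) μ * ((∑ μ' ∈ cls2 (Λ i) μ, b i μ') / NCR2_n (Λ i) μ))
    (fun i μ => (if NCR2_n (Λ i) μ = 0 then 0 else 1) *
      ((∑ μ' ∈ cls2 (Λ i) μ, b i μ') / (cls2 (Λ i) μ).card))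
    (fun i hi σ σ' a c d => by
      have e1 := l1 i hi σ σ' a c d
      simp only at e1 ⊢
      rw [e1, l2 i σ σ' a c d, NCR2_loc_I _ σ σ' a c d])
    (fun i hi σ σ' a c d => by
      have e1 := l1 i hi σ σ' a c d
      have e3 := l3 i σ σ' a c d
      simp only at e1 e3 ⊢
      rw [e1, l2 i σ σ' a c d, e3])
    (fun i hi G hG => NCR2_key (hsub i hi) _ hG (b i)) _ hG
  have p2 := NCR2_repl (cls2 U (emb σ₁ σ₂)) S Λ hdisj b
    (fun i μ => (∑ μ' ∈ cls2 (Λ i) μ, b i μ') / (cls2 (Λ i) μ).card) hb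
    (fun i hi σ σ' a c d => by
      have e1 := l1 i hi σ σ' a c d
      have e3 := l3 i σ σ' a c d
      simp only at e1 e3 ⊢
      rw [e1, e3])
    (fun i hi G hG => NCR2_resample (hsub i hi) _ G (b i) hG) _ hG
  have e1 : ∀ μ, NCR2_I U μ = NCR2_I (U \ S.biUnion Λ) μ * ∏ i ∈ S, NCR2_I (Λ i) μ := fun μ => by
    have e : NCR2_P U μ ↔ NCR2_P (U \ S.biUnion Λ) μ ∧ ∀ i ∈ S, NCR2_P (Λ i) μ := by
      refine ⟨fun h => ⟨fun x hx => h x (Finset.mem_sdiff.1 hx).1,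
        fun i hi x hx => h x (hsub i hi hx)⟩, fun h x hx => ?_⟩
      by_cases h1 : x.1 ∈ S.biUnion Λ
      · obtain ⟨i, hi, h2⟩ := mem_biUnion.1 h1
        exact h.2 i hi x h2
      · exact h.1 x (Finset.mem_sdiff.2 ⟨hx, h1⟩)
    simp only [NCR2_I, prod_boole, e, ite_zero_mul_ite_zero, mul_one]
  have e2 : ∑ μ ∈ (cls2 U (emb σ₁ σ₂)).filter (offOK U (S.biUnion Λ)),
      H (un μ) * ∏ i ∈ S, b i μ = ∑ μ ∈ cls2 U (emb σ₁ σ₂),
        NCR2_I (U \ S.biUnion Λ) μ * H (un μ) * ∏ i ∈ S, b i μ := by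
    rw [sum_filter]
    refine sum_congr rfl fun μ _ => ?_
    have e : offOK U (S.biUnion Λ) μ ↔ NCR2_P (U \ S.biUnion Λ) μ :=
      forall_congr' fun x => by rw [Finset.mem_sdiff, and_imp]
    rw [NCR2_I, mul_assoc, boole_mul]
    exact if_congr e rfl rfl
  have e3 := NCR2_pairs U σ₁ σ₂ fun μ => H (un μ) *
    ∏ i ∈ S, (∑ μ' ∈ cls2 (Λ i) μ, b i μ') / NCR2_n (Λ i) μ
  simp only [un_emb, NCR2_n_emb] at e3
  rw [e2, p2]
  refine le_trans (le_of_eq (e3.symm.trans (sum_congr rfl fun μ _ => ?_)))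
    (p1.trans_le (sum_le_sum fun μ hμ => ?_))
  · rw [e1, prod_mul_distrib]
    ring
  · have h1 := (mem_cls2.1 hμ).1
    have h2 : ∀ i ∈ S, 0 ≤ (∑ μ' ∈ cls2 (Λ i) μ, b i μ') / ((cls2 (Λ i) μ).card : ℝ) :=
      fun i hi => div_nonneg (hB i hi μ h1) (Nat.cast_nonneg _)
    refine mul_le_mul_of_nonneg_left (prod_le_prod (fun i hi => ?_) fun i hi => ?_)
      (mul_nonneg (NCR2_I_nonneg _ _) (hH0 _))
    · split_ifs
      · rw [zero_mul]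
      · exact mul_nonneg zero_le_one (h2 i hi)
    · split_ifs
      · rw [zero_mul]
        exact h2 i hi
      · rw [one_mul]

end Pool.Agent.Work.MP_5cb0a4_pr.Z
end

-- merged part: Pool.Agent.Work.MP_5cb0a4_pr.N.Trans2
section
open MeasureTheory Finset Filter Topology
open scoped Classical

namespace Pool.Agent.Work.MP_5cb0a4_pr.Z

theorem NTrans2_W_sh (c : V) (Λ : Finset V) (b : (HE → HE) → ℝ) (ρ₁ ρ₂ : V → V) :
    W2 (tr c Λ) (fun μ => b (sh2 (-c) μ)) ρ₁ ρ₂ = W2 Λ b (sh (-c) ρ₁) (sh (-c) ρ₂) := by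
  unfold W2
  rw [sum_cls2_sh, emb_sh, Trans_zz_sh, Trans_zz_sh]

theorem NTrans2_nonneg {Λ : Finset V} {b : (HE → HE) → ℝ} {β : ℝ}
    (hmix : Mix2 Λ ∅ (fun μ => (b μ : ℂ)) β)
    (h0 : ∀ ρ₁ ρ₂, IsExt ρ₁ → IsExt ρ₂ → 0 ≤ ∑ μ ∈ cls2 Λ (emb ρ₁ ρ₂), b μ) {μ : HE → HE}
    (hμ : BExt μ) : 0 ≤ ∑ μ' ∈ cls2 Λ μ, b μ' := by
  by_cases h : ∀ x : HE, x.1 ∈ Λ → (μ x).1 ∉ Λ → (μ x).2 = x.2
  · rw [sum_cls2_prj hmix.loc_real hμ h]
    exact h0 _ _ (isExt_prj hμ _) (isExt_prj hμ _)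
  · refine le_of_eq (sum_eq_zero fun μ' hμ' => ?_).symm
    have e := hmix.zero (mem_cls2.1 hμ').1 fun hok => h fun x hx hx' => by
      have e1 := cls2_cross hμ hμ' hx'
      have e2 := (hok x hx).2
      rw [e1] at e2
      exact e2 hx'
    exact_mod_cast e

/-- The product bound from class replacement and two replica domination. -/
theorem trans2_prod (m J : ℕ) (τ₁ τ₂ : Dimer) {S : Finset V} (hS : S ⊆ grid m J)
    (b : (HE → HE) → ℝ) (β : ℝ) (hmix : Mix2 (box m) ∅ (fun μ => (b μ : ℂ)) β)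
    (h0 : ∀ ρ₁ ρ₂, IsExt ρ₁ → IsExt ρ₂ → 0 ≤ ∑ μ ∈ cls2 (box m) (emb ρ₁ ρ₂), b μ)
    (H : (V → Sym2 V) → ℝ) (hH0 : ∀ U, 0 ≤ H U)
    (hH : LocU {v | v ∈ box (gL m J - 1) ∧ Gap m v} H) :
    ∑ ρ₁ ∈ perf (box (gL m J)) τ₁.1, ∑ ρ₂ ∈ perf (box (gL m J)) τ₂.1,
        H (un2 ρ₁ ρ₂) * ∏ c ∈ S, W2 (box m) b (sh (-c) ρ₁) (sh (-c) ρ₂) ≤
      Z2 (gL m J) H * β ^ S.card := by
  have hsub : ∀ c ∈ S, tr c (box m) ⊆ box (gL m J - 1) := fun c hc => grid_sub (hS hc)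
  have hdisj : ∀ c ∈ S, ∀ c' ∈ S, c ≠ c' → Disjoint (tr c (box m)) (tr c' (box m)) :=
    fun c hc c' hc' => grid_disj (hS hc) (hS hc')
  have h1 := class_replace2 (box (gL m J)) τ₁.1 τ₂.1 S (fun c => tr c (box m))
    (fun c hc => (hsub c hc).trans (box_mono (Nat.sub_le _ _))) hdisj
    (fun c μ => b (sh2 (-c) μ)) (fun c _ => hmix.loc_real.sh c)
    (fun c _ μ hμ => by rw [sum_cls2_sh]; exact NTrans2_nonneg hmix h0 (bExt_sh2 hμ _))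
    H hH0 (fun U U' hU => hH U U' fun v hv => hU v fun hv' => by
      obtain ⟨c, hc, hx⟩ := mem_biUnion.1 hv'
      exact grid_not_gap (hS hc) hx hv.2)
  simp only [NTrans2_W_sh] at h1
  have h2 := gd_mix2 (gL m J) (Nat.le_add_left _ _) (isExt_dimer τ₁) (isExt_dimer τ₂) S
    (fun c => tr c (box m)) hsub hdisj (fun c μ => (b (sh2 (-c) μ) : ℂ)) (fun _ => β)
    (fun c hc => by
      have e := hmix.sh (grid_even (hS hc))
      rwa [Cls_tr_empty] at e)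
    H hH0 (fun U U' hU => hH U U' fun v hv => hU v hv.1)
  rw [prod_const] at h2
  refine h1.trans (le_trans ?_ h2)
  simp only [← Complex.ofReal_prod, ← Complex.ofReal_mul, ← Complex.ofReal_sum, Complex.norm_real]
  exact le_abs_self _

theorem NTrans2_eq (Λ : Finset V) (g : (V → V) → (V → V) → ℝ) (σ₁ σ₂ : V → V) :
    gam2 Λ g σ₁ σ₂ = gam Λ (fun ρ₁ => gam Λ (g ρ₁) σ₂) σ₁ := by
  unfold gam2 gam
  rw [← sum_div, div_div, mul_comm]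

theorem NTrans2_swap (Λ Λ' : Finset V) (A : (V → V) → (V → V) → ℝ) (σ σ' : V → V) :
    gam Λ (fun ρ => gam Λ' (fun κ => A κ ρ) σ') σ = gam Λ' (fun κ => gam Λ (A κ) σ) σ' := by
  unfold gam
  rw [← sum_div, ← sum_div, sum_comm, div_div, div_div, mul_comm]

theorem NTrans2_tower {Λ' Λ : Finset V} (h : Λ' ⊆ Λ) (g : (V → V) → (V → V) → ℝ)
    (σ₁ σ₂ : V → V) : gam2 Λ (gam2 Λ' g) σ₁ σ₂ = gam2 Λ g σ₁ σ₂ := by
  rw [NTrans2_eq, NTrans2_eq, ← gam_tower h (fun ρ₁ => gam Λ (g ρ₁) σ₂) σ₁]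
  congr 1
  funext ρ₁
  have e : gam2 Λ' g ρ₁ = fun ρ₂ => gam Λ' (fun κ₁ => gam Λ' (g κ₁) ρ₂) ρ₁ :=
    funext fun ρ₂ => NTrans2_eq _ _ _ _
  rw [e, NTrans2_swap]
  congr 1
  funext κ
  exact gam_tower h (g κ) σ₂

theorem NTrans2_mono {Λ : Finset V} {g g' : (V → V) → (V → V) → ℝ} {σ₁ σ₂ : V → V}
    (h : ∀ ρ₁ ∈ perf Λ σ₁, ∀ ρ₂ ∈ perf Λ σ₂, g ρ₁ ρ₂ ≤ g' ρ₁ ρ₂) :
    gam2 Λ g σ₁ σ₂ ≤ gam2 Λ g' σ₁ σ₂ :=
  div_le_div_of_nonneg_right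
    (sum_le_sum fun ρ₁ h₁ => sum_le_sum fun ρ₂ h₂ => h ρ₁ h₁ ρ₂ h₂) (by positivity)

theorem NTrans2_const {Λ : Finset V} {σ₁ σ₂ : V → V} (h₁ : 0 < zz Λ σ₁) (h₂ : 0 < zz Λ σ₂)
    (a : ℝ) : gam2 Λ (fun _ _ => a) σ₁ σ₂ = a := by
  rw [NTrans2_eq]
  simp only [gam_const h₂, gam_const h₁]

theorem NTrans2_add (Λ : Finset V) (g g' : (V → V) → (V → V) → ℝ) (σ₁ σ₂ : V → V) :
    gam2 Λ (fun ρ₁ ρ₂ => g ρ₁ ρ₂ + g' ρ₁ ρ₂) σ₁ σ₂ = gam2 Λ g σ₁ σ₂ + gam2 Λ g' σ₁ σ₂ := by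
  simp only [gam2, sum_add_distrib, add_div]

theorem NTrans2_mul (Λ : Finset V) (a : ℝ) (g : (V → V) → (V → V) → ℝ) (σ₁ σ₂ : V → V) :
    gam2 Λ (fun ρ₁ ρ₂ => a * g ρ₁ ρ₂) σ₁ σ₂ = a * gam2 Λ g σ₁ σ₂ := by
  simp only [gam2, ← mul_sum, mul_div_assoc]

theorem NTrans2_sum (Λ S : Finset V) (g : V → (V → V) → (V → V) → ℝ) (σ₁ σ₂ : V → V) :
    gam2 Λ (fun ρ₁ ρ₂ => ∑ c ∈ S, g c ρ₁ ρ₂) σ₁ σ₂ = ∑ c ∈ S, gam2 Λ (g c) σ₁ σ₂ := by
  unfold gam2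
  rw [← sum_div, sum_comm (s := S)]
  congr 1
  exact sum_congr rfl fun _ _ => sum_comm

theorem NTrans2_pos_le {Λ' Λ : Finset V} (h : Λ' ⊆ Λ) (g : (V → V) → (V → V) → ℝ) (c : ℝ)
    {σ₁ σ₂ : V → V} (h₁ : 0 < zz Λ σ₁) (h₂ : 0 < zz Λ σ₂) :
    max (gam2 Λ g σ₁ σ₂ - c) 0 ≤
      gam2 Λ (fun ρ₁ ρ₂ => max (gam2 Λ' g ρ₁ ρ₂ - c) 0) σ₁ σ₂ := by
  refine max_le ?_ ?_
  · have e := NTrans2_add Λ (gam2 Λ' g) (fun _ _ => -c) σ₁ σ₂
    rw [NTrans2_tower h, NTrans2_const h₁ h₂, ← sub_eq_add_neg] at e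
    rw [← e]
    exact NTrans2_mono fun _ _ _ _ => le_max_left _ _
  · exact (NTrans2_const h₁ h₂ 0).symm.le.trans (NTrans2_mono fun _ _ _ _ => le_max_right _ _)

theorem NTrans2_sh (v : V) (Λ : Finset V) (g : (V → V) → (V → V) → ℝ) (σ₁ σ₂ : V → V) :
    gam2 (tr v Λ) g (sh v σ₁) (sh v σ₂) =
      gam2 Λ (fun ρ₁ ρ₂ => g (sh v ρ₁) (sh v ρ₂)) σ₁ σ₂ := by
  simp only [NTrans2_eq, gam_sh]

theorem NTrans2_comp {α β : Type} {Λ : Finset V} {g : (V → V) → (V → V) → α} (hg : Local2 Λ g)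
    (φ : α → β) : Local2 Λ fun σ₁ σ₂ => φ (g σ₁ σ₂) :=
  fun σ₁ σ₂ σ₁' σ₂' a b c d e f => congrArg φ (hg σ₁ σ₂ σ₁' σ₂' a b c d e f)

theorem NTrans2_hop (Λ : Finset V) {ρ₁ ρ₂ : V → V} (h₁ : IsExt ρ₁) (h₂ : IsExt ρ₂) :
    ∑ μ ∈ cls2 Λ (emb ρ₁ ρ₂), hop Λ ∅ ∅ ∅ μ = (zz Λ ρ₁ : ℝ) * zz Λ ρ₂ := by
  have e := sum_hop0 Λ ∅ h₁ h₂ fun _ _ => 1
  have e1 : ∀ ρ : V → V, (cls Λ ρ).filter (fun κ => mon Λ κ ⊆ ∅) = perf Λ ρ := fun ρ => by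
    ext κ
    simp [perf]
  rw [e1, e1] at e
  simpa [zz] using e

theorem NTrans2_compare {ν₁ ν₂ : Measure Dimer} (h₁ : IM ν₁) (h₂ : IM ν₂) {Λ : Finset V}
    {W : (V → V) → (V → V) → ℝ} (hW : Local2 Λ W) (β : ℝ) {L N : ℕ} (hN : 2 * L ≤ N) {c : V}
    (hc : IsEven c) (hcL : c ∈ box L) :
    ∫ p, max (gam2 (box N) W p.1.1 p.2.1 - β) 0 ∂(ν₁.prod ν₂) ≤
      ∫ p, max (gam2 (box L) (fun ρ₁ ρ₂ => W (sh (-c) ρ₁) (sh (-c) ρ₂)) p.1.1 p.2.1 - β) 0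
        ∂(ν₁.prod ν₂) := by
  have := h₁.prob
  have := h₂.prob
  have hsub : tr (-c) (box L) ⊆ box N := fun x hx => mem_box.2 fun i => by
    have h1 := mem_box.1 (mem_tr.1 hx) i
    have h2 := mem_box.1 hcL i
    simp only [Pi.sub_apply, Pi.neg_apply] at h1
    omega
  have hloc : Local2 (tr (-c) (box L) ∪ Λ)
      fun ρ₁ ρ₂ => max (gam2 (tr (-c) (box L)) W ρ₁ ρ₂ - β) 0 :=
    NTrans2_comp (local2_gam2 hW) fun y => max (y - β) 0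
  have hinv := IM.setIntegral_sh2 h₁ h₂ hloc MeasurableSet.univ (isEven_neg.2 hc)
    Set.preimage_univ
  rw [Measure.restrict_univ] at hinv
  calc ∫ p, max (gam2 (box N) W p.1.1 p.2.1 - β) 0 ∂(ν₁.prod ν₂)
      ≤ ∫ p, gam2 (box N) (fun ρ₁ ρ₂ => max (gam2 (tr (-c) (box L)) W ρ₁ ρ₂ - β) 0) p.1.1 p.2.1
          ∂(ν₁.prod ν₂) :=
        integral_mono (Meas_int2 (NTrans2_comp (local2_gam2 hW) fun y => max (y - β) 0) _)
          (Meas_int2 (local2_gam2 hloc) _) fun p =>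
            NTrans2_pos_le hsub W β (zz_dimer_pos _ p.1) (zz_dimer_pos _ p.2)
    _ = ∫ p, max (gam2 (tr (-c) (box L)) W p.1.1 p.2.1 - β) 0 ∂(ν₁.prod ν₂) :=
        IM.dlr2 h₁ h₂ _ hloc
    _ = ∫ p, max (gam2 (tr (-c) (box L)) W (sh (-c) p.1.1) (sh (-c) p.2.1) - β) 0
          ∂(ν₁.prod ν₂) := hinv.symm
    _ = _ := by simp only [NTrans2_sh]

/-- The deterministic inequality. -/
theorem NTrans2_det (m J : ℕ) (τ₁ τ₂ : Dimer) {S : Finset V} (hS : S ⊆ grid m J)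
    (b : (HE → HE) → ℝ) {β : ℝ} (hβ : 1 ≤ β) (hmix : Mix2 (box m) ∅ (fun μ => (b μ : ℂ)) β)
    (h0 : ∀ ρ₁ ρ₂, IsExt ρ₁ → IsExt ρ₂ → zz (box m) ρ₁ = 0 ∨ zz (box m) ρ₂ = 0 →
      0 ≤ ∑ μ ∈ cls2 (box m) (emb ρ₁ ρ₂), b μ) {C δ : ℝ}
    (hC : ∀ ρ₁ ρ₂, IsExt ρ₁ → IsExt ρ₂ → |W2 (box m) b ρ₁ ρ₂ - 1| ≤ C) (hδ : 0 < δ)
    (hδ1 : δ ≤ 1 / 2) (hδC : δ * C ≤ 1 / 2) (H : (V → Sym2 V) → Prop)
    (hH : LocU {v | v ∈ box (gL m J - 1) ∧ Gap m v} H) :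
    δ * ∑ c ∈ S, (gam2 (box (gL m J))
        (fun ρ₁ ρ₂ => W2 (box m) b (sh (-c) ρ₁) (sh (-c) ρ₂)) τ₁.1 τ₂.1 - β) ≤
      Real.log (1 + Z2 (gL m J) (ind H) /
        ((zz (box (gL m J)) τ₁.1 : ℝ) * zz (box (gL m J)) τ₂.1)) +
      S.card * (2 * (δ * C) ^ 2 +
        δ * C * gam2 (box (gL m J)) (fun ρ₁ ρ₂ => 1 - ind H (un2 ρ₁ ρ₂)) τ₁.1 τ₂.1) := by
  set Λ := box m with hΛ
  set W := W2 Λ b with hW
  set b' : (HE → HE) → ℝ := fun μ => (1 - δ) * hop Λ ∅ ∅ ∅ μ + δ * b μ with hb'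
  have hsum : ∀ ρ₁ ρ₂, IsExt ρ₁ → IsExt ρ₂ → ∑ μ ∈ cls2 Λ (emb ρ₁ ρ₂), b' μ =
      (1 - δ) * ((zz Λ ρ₁ : ℝ) * zz Λ ρ₂) + δ * ∑ μ ∈ cls2 Λ (emb ρ₁ ρ₂), b μ := by
    intro ρ₁ ρ₂ e₁ e₂
    simp only [hb', sum_add_distrib, ← mul_sum, NTrans2_hop Λ e₁ e₂]
  have hu : ∀ ρ₁ ρ₂, IsExt ρ₁ → IsExt ρ₂ → |δ * (W ρ₁ ρ₂ - 1)| ≤ δ * C := fun ρ₁ ρ₂ e₁ e₂ => by
    rw [abs_mul, abs_of_pos hδ]
    exact mul_le_mul_of_nonneg_left (hC ρ₁ ρ₂ e₁ e₂) hδ.le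
  have hF : ∀ ρ₁ ρ₂, IsExt ρ₁ → IsExt ρ₂ → 0 < zz Λ ρ₁ → 0 < zz Λ ρ₂ →
      W2 Λ b' ρ₁ ρ₂ = 1 + δ * (W ρ₁ ρ₂ - 1) := by
    intro ρ₁ ρ₂ e₁ e₂ z₁ z₂
    have : (zz Λ ρ₁ : ℝ) ≠ 0 := by exact_mod_cast z₁.ne'
    have : (zz Λ ρ₂ : ℝ) ≠ 0 := by exact_mod_cast z₂.ne'
    rw [hW, W2, W2, hsum _ _ e₁ e₂]
    field_simp
    ring
  have hFpos : ∀ ρ₁ ρ₂, IsExt ρ₁ → IsExt ρ₂ → 0 < 1 + δ * (W ρ₁ ρ₂ - 1) := fun ρ₁ ρ₂ e₁ e₂ => by
    have := (abs_le.1 ((hu ρ₁ ρ₂ e₁ e₂).trans hδC)).1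
    linarith only [hδ, hδ1, this]
  have hmix' : Mix2 Λ ∅ (fun μ => (b' μ : ℂ)) (1 - δ + δ * β) := by
    refine Mix2.mono (((mix_hop Λ ∅ ∅ ∅ (fun _ _ _ => 1) (by simp)).smul ((1 - δ : ℝ) : ℂ)).add
      (hmix.smul (δ : ℂ))) (fun μ _ => ?_) (le_of_eq ?_)
    · simp only [hb', dg_one]
      push_cast
      ring
    · rw [Complex.norm_real, Complex.norm_real, Real.norm_of_nonneg (by linarith only [hδ, hδ1]),
        Real.norm_of_nonneg hδ.le, mul_one]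
  have h0' : ∀ ρ₁ ρ₂, IsExt ρ₁ → IsExt ρ₂ → 0 ≤ ∑ μ ∈ cls2 Λ (emb ρ₁ ρ₂), b' μ := by
    clear * - Λ b' δ b hsum h0 hδ1 hδ W hF hFpos
    intro ρ₁ ρ₂ e₁ e₂
    by_cases hz : zz Λ ρ₁ = 0 ∨ zz Λ ρ₂ = 0
    · rw [hsum _ _ e₁ e₂]
      have := h0 ρ₁ ρ₂ e₁ e₂ hz
      have : 0 ≤ 1 - δ := by linarith only [hδ, hδ1]
      positivity
    · rw [not_or] at hz
      have z₁ := Nat.pos_of_ne_zero hz.1
      have z₂ := Nat.pos_of_ne_zero hz.2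
      have h1 := hF ρ₁ ρ₂ e₁ e₂ z₁ z₂
      have hz' : (0 : ℝ) < (zz Λ ρ₁ : ℝ) * zz Λ ρ₂ := by positivity
      rw [W2, div_eq_iff hz'.ne'] at h1
      rw [h1]
      exact (mul_pos (hFpos ρ₁ ρ₂ e₁ e₂) hz').le
  have hi0 : ∀ U, 0 ≤ ind H U := fun U => by
    unfold ind
    split_ifs <;> norm_num
  have h1 := trans2_prod m J τ₁ τ₂ hS b' _ hmix' h0' (ind H) hi0 fun U U' hU => by
    unfold ind
    rw [hH U U' hU]
  set L := gL m J with hL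
  have hz₁ := zz_dimer_pos (box L) τ₁
  have hz₂ := zz_dimer_pos (box L) τ₂
  have hz' : (0 : ℝ) < (zz (box L) τ₁.1 : ℝ) * zz (box L) τ₂.1 := by positivity
  have hext : ∀ {σ ρ : V → V}, ρ ∈ perf (box L) σ → ∀ c : V, IsExt (sh (-c) ρ) := fun hρ c =>
    isExt_sh (mem_perf.1 hρ).1.1 _
  have hzz : ∀ {σ ρ : V → V}, ρ ∈ perf (box L) σ → ∀ c ∈ S, 0 < zz Λ (sh (-c) ρ) := by
    intro σ ρ hρ c hc
    rw [← Trans_zz_sh]
    exact Trans_zz_pos ((grid_sub (hS hc)).trans (box_mono (Nat.le_succ _))) hρ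
  set β' := 1 - δ + δ * β with hβ'
  have hβp : 0 < β' := by linarith only [hδ, hδ1, hβ, mul_nonneg_of_nonpos_of_nonpos (Mathlib.Tactic.Linarith.sub_nonpos_of_le hβ) (le_of_lt (Mathlib.Tactic.Linarith.sub_neg_of_lt hδ))]
  set g : (V → V) → (V → V) → ℝ :=
    fun ρ₁ ρ₂ => ∏ c ∈ S, (1 + δ * (W (sh (-c) ρ₁) (sh (-c) ρ₂) - 1)) with hg
  set M := 1 + Z2 L (ind H) / ((zz (box L) τ₁.1 : ℝ) * zz (box L) τ₂.1) with hM
  have hZ : 0 ≤ Z2 L (ind H) := sum_nonneg fun _ _ => sum_nonneg fun _ _ => hi0 _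
  have hMp : 0 < M := by positivity
  have h2 : gam2 (box L) (fun ρ₁ ρ₂ => ind H (un2 ρ₁ ρ₂) * g ρ₁ ρ₂) τ₁.1 τ₂.1 ≤
      (M - 1) * β' ^ S.card := by
    rw [hM, add_sub_cancel_left, div_mul_eq_mul_div]
    refine div_le_div_of_nonneg_right (le_trans (le_of_eq ?_) h1) hz'.le
    refine sum_congr rfl fun ρ₁ e₁ => sum_congr rfl fun ρ₂ e₂ => ?_
    exact congrArg (ind H (un2 ρ₁ ρ₂) * ·) (prod_congr rfl fun c hc =>
      (hF _ _ (hext e₁ c) (hext e₂ c) (hzz e₁ c hc) (hzz e₂ c hc)).symm)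
  have h5 : gam2 (box L) (fun ρ₁ ρ₂ => ∑ c ∈ S, (δ * W (sh (-c) ρ₁) (sh (-c) ρ₂) +
      (-(δ * β + 2 * (δ * C) ^ 2) + -(δ * C) * (1 - ind H (un2 ρ₁ ρ₂))))) τ₁.1 τ₂.1 ≤
      gam2 (box L) (fun ρ₁ ρ₂ => (M * β' ^ S.card)⁻¹ * (ind H (un2 ρ₁ ρ₂) * g ρ₁ ρ₂) +
        (Real.log M + M⁻¹ - 1)) τ₁.1 τ₂.1 := by
    clear * - L S δ W β C H M β' g τ₁ τ₂ hFpos hext hZ hz₁ hz₂ hβp hg hu hδC hMp hβ hδ
    refine NTrans2_mono fun ρ₁ e₁ ρ₂ e₂ => ?_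
    by_cases hU : H (un2 ρ₁ ρ₂)
    · have hgp : 0 < g ρ₁ ρ₂ := prod_pos fun c _ => hFpos _ _ (hext e₁ c) (hext e₂ c)
      have e3 := Real.log_le_sub_one_of_pos
        (show 0 < (M * β' ^ S.card)⁻¹ * g ρ₁ ρ₂ by clear * - M β' S g ρ₁ ρ₂ L H τ₁ τ₂ hZ hz₁ hz₂ hβp hgp; positivity)
      rw [Real.log_mul (by positivity) hgp.ne', Real.log_inv,
        Real.log_mul hMp.ne' (by positivity), Real.log_pow] at e3
      have e4 : ∑ c ∈ S, (δ * W (sh (-c) ρ₁) (sh (-c) ρ₂) + -(δ * β + 2 * (δ * C) ^ 2)) ≤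
          Real.log (g ρ₁ ρ₂) - S.card * Real.log β' := by
        rw [hg, Real.log_prod fun c _ => (hFpos _ _ (hext e₁ c) (hext e₂ c)).ne', ← nsmul_eq_mul,
          ← sum_const, ← sum_sub_distrib]
        refine sum_le_sum fun c _ => ?_
        have e5 := hu _ _ (hext e₁ c) (hext e₂ c)
        have e6 := Trans_log (e5.trans hδC)
        have e7 : (δ * (W (sh (-c) ρ₁) (sh (-c) ρ₂) - 1)) ^ 2 ≤ (δ * C) ^ 2 := by
          rw [← sq_abs]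
          exact pow_le_pow_left₀ (abs_nonneg _) e5 2
        have e8 := Real.log_le_sub_one_of_pos hβp
        linarith only [e6, e7, e8]
      have e9 : 0 < M⁻¹ := inv_pos.2 hMp
      simp only [ind, if_pos hU, sub_self, mul_zero, add_zero, one_mul]
      linarith only [e3, e4, e9]
    · have e3 := Real.one_sub_inv_le_log_of_pos hMp
      simp only [ind, if_neg hU, sub_zero, mul_one, zero_mul, mul_zero, zero_add]
      refine le_trans (sum_nonpos fun c _ => ?_) (by linarith only [e3])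
      have e5 := (abs_le.1 (hu _ _ (hext e₁ c) (hext e₂ c))).2
      linarith only [e5, hβ, hδ, sq_nonneg (δ * C), sq_nonneg (δ * C), mul_nonneg_of_nonpos_of_nonpos (Mathlib.Tactic.Linarith.sub_nonpos_of_le hβ) (le_of_lt (Mathlib.Tactic.Linarith.sub_neg_of_lt hδ))]
  rw [NTrans2_sum, NTrans2_add, NTrans2_mul, NTrans2_const hz₁ hz₂] at h5
  simp only [NTrans2_add, NTrans2_mul, NTrans2_const hz₁ hz₂] at h5
  rw [sum_add_distrib, ← mul_sum, sum_const, nsmul_eq_mul] at h5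
  have h6 : (M * β' ^ S.card)⁻¹ *
      gam2 (box L) (fun ρ₁ ρ₂ => ind H (un2 ρ₁ ρ₂) * g ρ₁ ρ₂) τ₁.1 τ₂.1 ≤ 1 - M⁻¹ := by
    clear * - M β' S L H g τ₁ τ₂ h2 hZ hz₁ hz₂ hβp hMp
    refine (mul_le_mul_of_nonneg_left h2 (by positivity)).trans (le_of_eq ?_)
    field_simp
  rw [sum_sub_distrib, sum_const, nsmul_eq_mul]
  clear * - δ S L W τ₁ τ₂ β M C H β' g h5 h6; linarith only [h5, h6]

/-- Quenched transfer of the two replica domination (port of `transfer`; Jensen in the form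
`gam2 (H * ∑ log F) ≤ log (1 + gam2 (H * ∏ F))`). -/
theorem transfer2 {ν₁ ν₂ : Measure Dimer} (h₁ : IM ν₁) (h₂ : IM ν₂) (hlp : LP2 ν₁ ν₂) (m : ℕ)
    (b : (HE → HE) → ℝ) {β : ℝ} (hβ : 1 ≤ β) (hmix : Mix2 (box m) ∅ (fun μ => (b μ : ℂ)) β)
    (h0 : ∀ ρ₁ ρ₂, IsExt ρ₁ → IsExt ρ₂ → zz (box m) ρ₁ = 0 ∨ zz (box m) ρ₂ = 0 →
      0 ≤ ∑ μ ∈ cls2 (box m) (emb ρ₁ ρ₂), b μ) :
    Tendsto (fun N : ℕ => ∫ p, max (gam2 (box N) (W2 (box m) b) p.1.1 p.2.1 - β) 0 ∂(ν₁.prod ν₂))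
      atTop (𝓝 0) := by
  have := h₁.prob
  have := h₂.prob
  have hWl : Local2 (box m) (W2 (box m) b) := local2_W2 hmix.loc_real
  obtain ⟨C₀, hC₀⟩ := (NTrans2_comp hWl fun y => y - 1).bdd
  obtain ⟨C, hC1, hC⟩ : ∃ C : ℝ, 1 ≤ C ∧
      ∀ ρ₁ ρ₂, IsExt ρ₁ → IsExt ρ₂ → |W2 (box m) b ρ₁ ρ₂ - 1| ≤ C :=
    ⟨max 1 C₀, le_max_left _ _, fun ρ₁ ρ₂ e₁ e₂ => (hC₀ ρ₁ ρ₂ e₁ e₂).trans (le_max_right _ _)⟩
  have hCp : 0 < C := by linarith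
  rw [Metric.tendsto_atTop]
  intro η hη
  obtain ⟨δ, hδ, hδC, hδη⟩ : ∃ δ : ℝ, 0 < δ ∧ δ * C ≤ 1 / 2 ∧ 2 * δ * C ^ 2 ≤ η / 4 := by
    refine ⟨min (1 / (2 * C)) (η / (8 * C ^ 2)), by positivity, ?_, ?_⟩
    · calc min (1 / (2 * C)) (η / (8 * C ^ 2)) * C ≤ 1 / (2 * C) * C := by
            gcongr; exact min_le_left _ _
        _ = 1 / 2 := by field_simp
    · calc 2 * min (1 / (2 * C)) (η / (8 * C ^ 2)) * C ^ 2 ≤ 2 * (η / (8 * C ^ 2)) * C ^ 2 := by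
            gcongr; exact min_le_right _ _
        _ = η / 4 := by field_simp; ring
  have hδ1 : δ ≤ 1 / 2 := by linarith only [hδC, hC1, hδ, mul_nonneg_of_nonpos_of_nonpos (Mathlib.Tactic.Linarith.sub_nonpos_of_le hC1) (le_of_lt (Mathlib.Tactic.Linarith.sub_neg_of_lt hδ))]
  obtain ⟨ε, hε⟩ : ∃ ε : ℝ, ε = δ * η / (4 * ((m : ℝ) + 1) ^ 3) := ⟨_, rfl⟩
  have hεp : 0 < ε := by rw [hε]; positivity
  obtain ⟨J, hJ⟩ := hlp m ε hεp
  obtain ⟨H, hH, hH1, hH2⟩ := hJ J le_rfl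
  have hdet := fun (p : Dimer × Dimer) (S : Finset V) (hS : S ⊆ grid m J) =>
    NTrans2_det m J p.1 p.2 hS b hβ hmix h0 hC hδ hδ1 hδC H hH
  set W := W2 (box m) b with hW
  set L := gL m J with hL
  set S := grid m J with hS
  refine ⟨2 * L, fun N hN => ?_⟩
  have hnn : 0 ≤ ∫ p, max (gam2 (box N) W p.1.1 p.2.1 - β) 0 ∂(ν₁.prod ν₂) :=
    integral_nonneg fun τ => le_max_right _ _
  rw [Real.dist_eq, sub_zero, abs_of_nonneg hnn]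
  have hint : ∀ c : V, Integrable (fun p : Dimer × Dimer => max (gam2 (box L)
      (fun ρ₁ ρ₂ => W (sh (-c) ρ₁) (sh (-c) ρ₂)) p.1.1 p.2.1 - β) 0) (ν₁.prod ν₂) := fun c =>
    Meas_int2 (NTrans2_comp (local2_gam2 (hWl.sh c)) fun y => max (y - β) 0) _
  have hilog : Integrable (fun p : Dimer × Dimer => Real.log (1 + Z2 L (ind H) /
      ((zz (box L) p.1.1 : ℝ) * zz (box L) p.2.1))) (ν₁.prod ν₂) :=
    Meas_int2 (Λ := box L) (g := fun σ₁ σ₂ => Real.log (1 + Z2 L (ind H) /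
      ((zz (box L) σ₁ : ℝ) * zz (box L) σ₂))) (fun σ₁ σ₂ σ₁' σ₂' a b c d e f => by
        have e1 : zz (box L) σ₁ = zz (box L) σ₁' := Trans_local_zz (box L) _ _ a c e
        have e2 : zz (box L) σ₂ = zz (box L) σ₂' := Trans_local_zz (box L) _ _ b d f
        simp only [e1, e2]) _
  have hHl : Local2 (box (L - 1)) fun ρ₁ ρ₂ => 1 - ind H (un2 ρ₁ ρ₂) :=
    fun σ₁ σ₂ σ₁' σ₂' _ _ _ _ e f => by
      have e1 : H (un2 σ₁ σ₂) = H (un2 σ₁' σ₂') := hH _ _ fun v hv => by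
        unfold un2
        rw [e v hv.1, f v hv.1]
      simp only [ind, e1]
  have hiH := Meas_int2 (local2_gam2 (Λ := box L) hHl) (ν₁.prod ν₂)
  have hHm : ∫ p, gam2 (box L) (fun ρ₁ ρ₂ => 1 - ind H (un2 ρ₁ ρ₂)) p.1.1 p.2.1 ∂(ν₁.prod ν₂) ≤
      ε := by
    clear * - ν₁ ν₂ L H ε h₁ h₂ hHl hH1
    rw [IM.dlr2 h₁ h₂ _ hHl]
    have e : ∀ p : Dimer × Dimer, 1 - ind H (un2 p.1.1 p.2.1) =
        {p : Dimer × Dimer | ¬ H (un2 p.1.1 p.2.1)}.indicator 1 p := fun p => by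
      by_cases hp : H (un2 p.1.1 p.2.1) <;> simp [ind, hp]
    have e1 : MeasurableSet {p : Dimer × Dimer | ¬ H (un2 p.1.1 p.2.1)} := by
      convert hHl.measurable (measurableSet_singleton 1) using 1
      ext p
      by_cases hp : H (un2 p.1.1 p.2.1) <;> simp [ind, hp]
    simp only [e]
    rw [integral_indicator_one e1]
    exact hH1
  have hi2 : Integrable (fun p : Dimer × Dimer => 2 * (δ * C) ^ 2 + δ * C *
      gam2 (box L) (fun ρ₁ ρ₂ => 1 - ind H (un2 ρ₁ ρ₂)) p.1.1 p.2.1) (ν₁.prod ν₂) :=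
    (integrable_const _).add (hiH.const_mul _)
  have h1 : (S.card : ℝ) * ∫ p, max (gam2 (box N) W p.1.1 p.2.1 - β) 0 ∂(ν₁.prod ν₂) ≤
      ∫ p, ∑ c ∈ S, max (gam2 (box L) (fun ρ₁ ρ₂ => W (sh (-c) ρ₁) (sh (-c) ρ₂)) p.1.1 p.2.1 - β) 0
        ∂(ν₁.prod ν₂) := by
    rw [integral_finsetSum _ fun c _ => hint c, ← nsmul_eq_mul, ← sum_const]
    refine sum_le_sum fun c hc => NTrans2_compare h₁ h₂ hWl β hN (grid_even hc) ?_
    exact box_mono (by rw [hL, gL]; omega) (grid_mem_box hc)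
  have h2 : ∫ p, δ * ∑ c ∈ S, max (gam2 (box L)
      (fun ρ₁ ρ₂ => W (sh (-c) ρ₁) (sh (-c) ρ₂)) p.1.1 p.2.1 - β) 0 ∂(ν₁.prod ν₂) ≤
      ∫ p, (Real.log (1 + Z2 L (ind H) / ((zz (box L) p.1.1 : ℝ) * zz (box L) p.2.1)) +
        S.card * (2 * (δ * C) ^ 2 + δ * C *
          gam2 (box L) (fun ρ₁ ρ₂ => 1 - ind H (un2 ρ₁ ρ₂)) p.1.1 p.2.1)) ∂(ν₁.prod ν₂) := by
    clear * - ν₁ ν₂ δ S L W β H C hint hilog hi2 hdet hδ hC1
    refine integral_mono ((integrable_finsetSum _ fun c _ => hint c).const_mul δ)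
      (hilog.add (hi2.const_mul _)) fun p => ?_
    have e := hdet p (S.filter fun c => 0 < gam2 (box L)
      (fun ρ₁ ρ₂ => W (sh (-c) ρ₁) (sh (-c) ρ₂)) p.1.1 p.2.1 - β) (filter_subset _ _)
    have e1 : ∑ c ∈ S, max (gam2 (box L)
        (fun ρ₁ ρ₂ => W (sh (-c) ρ₁) (sh (-c) ρ₂)) p.1.1 p.2.1 - β) 0 =
        ∑ c ∈ S.filter fun c => 0 < gam2 (box L)
          (fun ρ₁ ρ₂ => W (sh (-c) ρ₁) (sh (-c) ρ₂)) p.1.1 p.2.1 - β,
          (gam2 (box L) (fun ρ₁ ρ₂ => W (sh (-c) ρ₁) (sh (-c) ρ₂)) p.1.1 p.2.1 - β) := by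
      rw [sum_filter]
      refine sum_congr rfl fun c _ => ?_
      split_ifs with hc
      · exact max_eq_left hc.le
      · exact max_eq_right (not_lt.1 hc)
    have e2 : ((S.filter fun c => 0 < gam2 (box L)
        (fun ρ₁ ρ₂ => W (sh (-c) ρ₁) (sh (-c) ρ₂)) p.1.1 p.2.1 - β).card : ℝ) ≤ S.card := by
      exact_mod_cast card_filter_le _ _
    have e3 : 0 ≤ gam2 (box L) (fun ρ₁ ρ₂ => 1 - ind H (un2 ρ₁ ρ₂)) p.1.1 p.2.1 := by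
      refine div_nonneg (sum_nonneg fun _ _ => sum_nonneg fun _ _ => ?_) (by positivity)
      simp only [ind]
      split_ifs <;> norm_num
    simp only
    rw [e1]
    refine e.trans ?_
    gcongr
  rw [integral_const_mul, integral_add hilog (hi2.const_mul _), integral_const_mul,
    integral_add (integrable_const _) (hiH.const_mul _), integral_const_mul (δ * C)] at h2
  simp only [integral_const, probReal_univ, smul_eq_mul, one_mul] at h2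
  have hSp : (0 : ℝ) < S.card := by rw [hS, card_grid]; positivity
  have h4 : (L : ℝ) ^ 3 = ((m : ℝ) + 1) ^ 3 * S.card := by
    rw [hS, card_grid, hL, gL]
    push_cast
    ring
  have h5 : ε * (L : ℝ) ^ 3 = δ * S.card * (η / 4) := by
    clear * - ε L δ S η m h4 hε hSp hη hδ
    rw [h4, hε]
    field_simp
  have h6 : 2 * (δ * C) ^ 2 ≤ δ * (η / 4) := by
    clear * - δ C η hδη hδ
    calc 2 * (δ * C) ^ 2 = δ * (2 * δ * C ^ 2) := by ring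
      _ ≤ δ * (η / 4) := by gcongr
  have h7 : C * ε ≤ η / 4 := by
    clear * - m C ε η δ hε hη hδC
    have e : (1 : ℝ) ≤ ((m : ℝ) + 1) ^ 3 := one_le_pow₀ (by linarith only [Nat.cast_nonneg (α := ℝ) m])
    rw [hε, ← mul_div_assoc, div_le_div_iff₀ (by positivity) (by norm_num)]
    linarith only [hη, hδC, e, mul_le_mul_of_nonneg_right hδC hη.le, mul_le_mul_of_nonneg_left e hη.le]
  have h8 : δ * C * ∫ p, gam2 (box L) (fun ρ₁ ρ₂ => 1 - ind H (un2 ρ₁ ρ₂)) p.1.1 p.2.1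
      ∂(ν₁.prod ν₂) ≤ δ * (η / 4) := by
    clear * - δ C ν₁ ν₂ L H ε η hHm hδ hC1 h7
    refine (mul_le_mul_of_nonneg_left hHm (by positivity)).trans ?_
    rw [mul_assoc]
    gcongr
  have h9 : δ * S.card * ∫ p, max (gam2 (box N) W p.1.1 p.2.1 - β) 0 ∂(ν₁.prod ν₂) ≤
      δ * S.card * (3 * η / 4) := by
    clear * - δ S ν₁ ν₂ N W β L h1 hδ C H η h6 h8 hSp ε hH2 h2 h5
    have e1 := mul_le_mul_of_nonneg_left h1 hδ.le
    have e2 := mul_le_mul_of_nonneg_left (add_le_add h6 h8) hSp.le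
    linarith only [hH2, h2, h5, e1, e2]
  have h10 := le_of_mul_le_mul_left h9 (mul_pos hδ hSp)
  linarith only [hη, h10]

end Pool.Agent.Work.MP_5cb0a4_pr.Z
end

-- merged part: Pool.Agent.Work.MP_5cb0a4_pr.N.Fin2
section
open MeasureTheory Finset Filter Topology
open scoped Classical

namespace Pool.Agent.Work.MP_5cb0a4_pr.Z

theorem NFin2_zero {Λ X : Finset V} (h : ¬ X ⊆ Λ) (σ : V → V) : Mr Λ σ X = 0 := by
  have : Zm Λ σ X = 0 :=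
    card_eq_zero.2 (filter_eq_empty_iff.2 fun ρ _ e => h (e ▸ filter_subset _ _))
  simp [Mr, this]

theorem NFin2_super {Λ' Λ : Finset V} (h : Λ' ⊆ Λ) (σ : V → V) (X : Finset V) :
    gam Λ (fun ρ => Mr Λ' ρ X) σ ≤ Mr Λ σ X := by
  by_cases hX : X ⊆ Λ'
  · exact Mr_super h hX σ
  · simp only [NFin2_zero hX, gam, sum_const_zero, zero_div]
    exact Mr_nonneg _ _ _

theorem NFin2_mean {ν : Measure Dimer} (h : IM ν) {Λ' Λ : Finset V} (hs : Λ' ⊆ Λ) (X : Finset V) :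
    ∫ τ, Mr Λ' τ.1 X ∂ν ≤ ∫ τ, Mr Λ τ.1 X ∂ν := by
  have := h.prob
  rw [← h.dlr Λ Λ' _ (local_Mr Λ' X)]
  exact integral_mono ((local_gam (local_Mr Λ' X)).integrable ν) ((local_Mr Λ X).integrable ν)
    fun τ => NFin2_super hs _ _

theorem NFin2_sh (v : V) (Λ : Finset V) (σ : V → V) (X : Finset V) :
    Mr (tr v Λ) (sh v σ) (tr v X) = Mr Λ σ X := by
  rw [Mr, Mr, Zm_sh, zz_eq, zz_eq, ← Zm_sh v Λ σ ∅, Cls_tr_empty]

theorem NFin2_box (v : V) : ∃ k : ℕ, ∀ N, tr v (box N) ⊆ box (N + k) := by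
  refine ⟨∑ i, (v i).natAbs, fun N x hx => mem_box.2 fun i => ?_⟩
  have h1 := mem_box.1 (mem_tr.1 hx) i
  have h2 : (v i).natAbs ≤ ∑ i, (v i).natAbs :=
    single_le_sum (f := fun i => (v i).natAbs) (fun _ _ => Nat.zero_le _) (mem_univ i)
  rw [Pi.sub_apply] at h1
  omega

theorem NFin2_tr {ν : Measure Dimer} (h : IM ν) {v : V} (hv : IsEven v) : ∃ k : ℕ, ∀ N x y,
    ∫ τ, M2 (box N) τ.1 x y ∂ν ≤ ∫ τ, M2 (box (N + k)) τ.1 (x + v) (y + v) ∂ν := by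
  obtain ⟨k, hk⟩ := NFin2_box v
  refine ⟨k, fun N x y => le_trans (le_of_eq ?_) (NFin2_mean h (hk N) _)⟩
  have e : ({x + v, y + v} : Finset V) = tr v {x, y} := by simp [tr]
  rw [← h.integral_sh (local_Mr _ _) hv, e]
  simp only [NFin2_sh, M2]

theorem NFin2_W2 {Λ : Finset V} {ρ₁ ρ₂ : V → V} (h₁ : IsExt ρ₁) (h₂ : IsExt ρ₂) {e f : V × Dir}
    (he : IsEven e.1) (hf : IsEven f.1) (hA : {e.1, oe f} ⊆ Λ) (hB : {f.1, oe e} ⊆ Λ) :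
    W2 Λ (hop Λ ∅ {e} {f}) ρ₁ ρ₂ = M2 Λ ρ₁ e.1 (oe f) * M2 Λ ρ₂ f.1 (oe e) := by
  rw [insert_subset_iff, singleton_subset_iff] at hA hB
  have := sum_hop1 Λ ∅ h₁ h₂ (e := e) (f := f) (by simp [he, hA.1, hB.2]) (by simp [hf, hA.2, hB.1])
    fun _ _ => 1
  simp only [mul_one, sdiff_empty, sum_const, nsmul_eq_mul] at this
  rw [W2, this, M2, M2, Mr, Mr, div_mul_div_comm]
  rfl

theorem local_M2 (Λ : Finset V) (x y : V) : Local Λ fun σ => M2 Λ σ x y := local_Mr Λ _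

theorem M2_nonneg (Λ : Finset V) (σ : V → V) (x y : V) : 0 ≤ M2 Λ σ x y := Mr_nonneg _ _ _

theorem gam_Mr_le {m N : ℕ} (h : m ≤ N) (σ : V → V) (X : Finset V) :
    gam (box N) (fun ρ => Mr (box m) ρ X) σ ≤ Mr (box N) σ X :=
  NFin2_super (box_mono h) σ X

theorem IM.mean_mono {ν : Measure Dimer} (h : IM ν) (X : Finset V) :
    Monotone fun N : ℕ => ∫ τ, Mr (box N) τ.1 X ∂ν := fun _ _ hN => NFin2_mean h (box_mono hN) X

theorem gam2_mul (Λ : Finset V) (f g : (V → V) → ℝ) (σ₁ σ₂ : V → V) :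
    gam2 Λ (fun ρ₁ ρ₂ => f ρ₁ * g ρ₂) σ₁ σ₂ = gam Λ f σ₁ * gam Λ g σ₂ := by
  rw [gam2, gam, gam, div_mul_div_comm, sum_mul_sum]

/-- Forced layer changes. -/
theorem forced {ν₁ ν₂ : Measure Dimer} (h₁ : IM ν₁) (h₂ : IM ν₂) (hlp : LP2 ν₁ ν₂) (m : ℕ)
    {e f : V × Dir} (he : IsEven e.1) (hf : IsEven f.1) :
    Tendsto (fun N : ℕ => ∫ p, max (gam (box N) (fun ρ => M2 (box m) ρ e.1 (oe f)) p.1.1 *
      gam (box N) (fun ρ => M2 (box m) ρ f.1 (oe e)) p.2.1 - 1) 0 ∂(ν₁.prod ν₂)) atTop (𝓝 0) := by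
  by_cases hA : {e.1, oe f} ⊆ box m
  swap
  · simp [M2, NFin2_zero hA, gam]
  by_cases hB : {f.1, oe e} ⊆ box m
  swap
  · simp [M2, NFin2_zero hB, gam]
  refine (transfer2 h₁ h₂ hlp m (hop (box m) ∅ {e} {f}) le_rfl
    (by simpa only [dg_one, mul_one] using mix_hop (box m) ∅ {e} {f} (fun _ _ _ => 1) (by simp))
    fun _ _ _ _ _ => sum_nonneg fun μ _ => by unfold hop; positivity).congr fun N => ?_
  refine integral_congr_ae (Eventually.of_forall fun p => ?_)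
  simp only [← gam2_mul, gam2]
  rw [sum_congr rfl fun ρ₁ a => sum_congr rfl fun ρ₂ b =>
    NFin2_W2 (mem_perf.1 a).1.1 (mem_perf.1 b).1.1 he hf hA hB]

theorem mean_prod_le {ν₁ ν₂ : Measure Dimer} (h₁ : IM ν₁) (h₂ : IM ν₂) (hlp : LP2 ν₁ ν₂) (m : ℕ)
    {e f : V × Dir} (he : IsEven e.1) (hf : IsEven f.1) :
    (∫ τ, M2 (box m) τ.1 e.1 (oe f) ∂ν₁) * ∫ τ, M2 (box m) τ.1 f.1 (oe e) ∂ν₂ ≤ 1 := by
  have := h₁.prob
  have := h₂.prob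
  refine sub_nonpos.1 (ge_of_tendsto' (forced h₁ h₂ hlp m he hf) fun N => ?_)
  have hi := ((local_gam (Λ := box N) (local_M2 (box m) e.1 (oe f))).integrable ν₁).mul_prod
    ((local_gam (Λ := box N) (local_M2 (box m) f.1 (oe e))).integrable ν₂)
  have h1 := hi.sub (integrable_const 1)
  refine le_trans (le_of_eq ?_) (integral_mono h1 h1.pos_part fun p => le_max_left _ _)
  rw [integral_sub' hi (integrable_const 1), integral_prod_mul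
    (fun τ : Dimer => gam (box N) (fun ρ => M2 (box m) ρ e.1 (oe f)) τ.1)
    (fun τ : Dimer => gam (box N) (fun ρ => M2 (box m) ρ f.1 (oe e)) τ.1),
    h₁.dlr _ _ _ (local_M2 _ _ _), h₂.dlr _ _ _ (local_M2 _ _ _)]
  simp

theorem finPos {ν : Measure Dimer} (h : IM ν) (hlp : LP2 ν ν)
    (hpos : ∀ x y, IsEven x → ¬ IsEven y → ∃ N, 0 < ∫ τ, M2 (box N) τ.1 x y ∂ν) : FinPos ν := by
  refine ⟨fun x y hx hy => ?_, hpos⟩
  have hf : IsEven (y - dv (0, true)) := by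
    by_contra hn
    exact hy (by simpa using (isEven_add_dv (d := (0, true))).2 hn)
  obtain ⟨N₀, h0⟩ := hpos _ (x + dv (0, true)) hf fun hn => isEven_add_dv.1 hn hx
  refine ⟨1 / _, fun N => (le_div_iff₀ h0).2 ?_⟩
  have h1 := mean_prod_le h h hlp (max N N₀) (e := (x, (0, true)))
    (f := (y - dv (0, true), (0, true))) hx hf
  simp only [oe, sub_add_cancel] at h1
  exact (mul_le_mul (h.mean_mono _ (le_max_left _ _)) (h.mean_mono _ (le_max_right _ _)) h0.le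
    (integral_nonneg fun τ => M2_nonneg _ _ _ _)).trans h1

theorem tendsto_Gbar {ν : Measure Dimer} (h : IM ν) (hf : FinPos ν) {x y : V} (hx : IsEven x)
    (hy : ¬ IsEven y) :
    Tendsto (fun N : ℕ => ∫ τ, M2 (box N) τ.1 x y ∂ν) atTop (𝓝 (Gbar ν (y - x))) := by
  obtain ⟨C, hC⟩ := hf.fin x y hx hy
  obtain ⟨k, hk⟩ := NFin2_tr h hx
  obtain ⟨k', hk'⟩ := NFin2_tr h (isEven_neg.2 hx)
  have hb : BddAbove (Set.range fun N : ℕ => ∫ τ, M2 (box N) τ.1 x y ∂ν) :=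
    ⟨C, Set.forall_mem_range.2 hC⟩
  have h1 : ∀ N, ∫ τ, M2 (box N) τ.1 0 (y - x) ∂ν ≤ ⨆ N : ℕ, ∫ τ, M2 (box N) τ.1 x y ∂ν :=
    fun N => (hk N 0 (y - x)).trans (by simpa using le_ciSup hb (N + k))
  have e : Gbar ν (y - x) = ⨆ N : ℕ, ∫ τ, M2 (box N) τ.1 x y ∂ν :=
    le_antisymm (ciSup_le h1) (ciSup_le fun N => (hk' N x y).trans (by
      rw [add_neg_cancel, ← sub_eq_add_neg]
      exact le_ciSup ⟨_, Set.forall_mem_range.2 h1⟩ (N + k')))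
  rw [e]
  exact tendsto_atTop_ciSup (h.mean_mono _) hb

theorem le_Gbar {ν : Measure Dimer} (h : IM ν) (hf : FinPos ν) {x y : V} (hx : IsEven x)
    (hy : ¬ IsEven y) (N : ℕ) : ∫ τ, M2 (box N) τ.1 x y ∂ν ≤ Gbar ν (y - x) :=
  (h.mean_mono _).ge_of_tendsto (tendsto_Gbar h hf hx hy) N

theorem Gbar_nonneg (ν : Measure Dimer) (w : V) : 0 ≤ Gbar ν w :=
  Real.iSup_nonneg fun _ => integral_nonneg fun _ => M2_nonneg _ _ _ _

theorem Gbar_pos {ν : Measure Dimer} (h : IM ν) (hf : FinPos ν) {w : V} (hw : ¬ IsEven w) :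
    0 < Gbar ν w := by
  have h0 : IsEven 0 := by simp [IsEven]
  obtain ⟨N, hN⟩ := hf.pos 0 w h0 hw
  simpa using hN.trans_le (le_Gbar h hf h0 hw N)

theorem Gbar_dv {ν : Measure Dimer} (h : IM ν) (d : Dir) : Gbar ν (dv d) ≤ 1 := by
  have := h.prob
  refine ciSup_le fun N => (h.mean_mono _ N.le_succ).trans ?_
  have h0 : ∀ n, (0 : V) ∈ box n := fun n => mem_box.2 fun i => by simp
  refine (integral_mono ((local_Mr _ _).integrable ν) (integrable_const 1) fun τ => ?_).trans_eq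
    (by simp)
  have h1 := Mr_sum (zz_dimer_pos _ τ) (h0 (N + 1)) (add_dv_mem_box (h0 N))
  simp only [zero_add] at h1
  exact (single_le_sum (f := fun d => Mr (box (N + 1)) τ.1 {0, dv d})
    (fun _ _ => Mr_nonneg _ _ _) (mem_univ d)).trans_eq h1

end Pool.Agent.Work.MP_5cb0a4_pr.Z
end

-- merged part: Pool.Agent.Work.MP_5cb0a4_pr.N.QGDKa
section
open MeasureTheory Finset Filter Topology
open scoped Classical

namespace Pool.Agent.Work.MP_5cb0a4_pr.Z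

/-- The centred soft factor with the factor that removes charged terms. -/
noncomputable def softK (s : Fin 3 → ℝ) (m l q : ℕ) (ϑ : ℝ) (ρ : V → V) : ℝ :=
  softP s m l ϑ ρ * ∏ j ∈ Finset.Icc 1 q, Real.cos (Real.pi / (2 * j) * Phi ρ (rin m 8))

/-- The one copy weight that is transferred. -/
noncomputable def bK (s : Fin 3 → ℝ) (D : Finset Edge) (M : Edge → Bool → Bool → ℝ) (m l : ℕ)
    (ϑ K : ℝ) (ρ : V → V) : ℝ :=
  cX D M (mon (box m) ρ) * softK s m l (verts D).card ϑ ρ +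
    Real.exp (-K) * |cX D M (mon (box m) ρ)|

lemma NQGDKa_Phi_local {Λ : Finset V} {t : ℕ}
    (h : ∀ d : Dir, sq d.1 (corner d t 0 (0, 0)) (2 * t + 1) ⊆ Λ) (q : ℕ) :
    Local Λ fun ρ => ∏ j ∈ Finset.Icc 1 q, Real.cos (Real.pi / (2 * j) * Phi ρ t) :=
  QGD_locprod _ fun j _ => QGD_loc1 (fun x => Real.cos (Real.pi / (2 * j) * x))
    (QGD_locsum _ fun d _ => (local_FQ _ _ _).mono (h d))

lemma NQGDKa_local (s : Fin 3 → ℝ) (m l q : ℕ) (ϑ : ℝ) : Local (box m) (softK s m l q ϑ) :=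
  QGD_loc2 (· * ·) (local_softP s m l ϑ)
    (NQGDKa_Phi_local (fun _ _ hx => box_mono (Nat.sub_le _ _) (mem_face.1 hx).1) q)

lemma NQGDKa_off (s : Fin 3 → ℝ) {m₀ m : ℕ} (h : m₀ < rin m 8) (l q : ℕ) (ϑ : ℝ) :
    Off (box m₀) (softK s m l q ϑ) := by
  have h1 := off_softP s (m₀ := m₀) (m := m) (by unfold rin at h; omega) l ϑ
  have h2 := (NQGDKa_Phi_local (Λ := box (rin m 8) \ box m₀) (t := rin m 8) (fun d x hx =>
    mem_sdiff.2 ⟨(mem_face.1 hx).1, disjoint_left.1 (QGD_face_disj h) hx⟩) q).off sdiff_disjoint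
  intro σ σ' a b c
  have h3 := h2 σ σ' a b c
  simp only [softK, h1 σ σ' a b c, h3]

lemma NQGDKa_cos (m q : ℕ) (ρ : V → V) :
    |∏ j ∈ Finset.Icc 1 q, Real.cos (Real.pi / (2 * j) * Phi ρ (rin m 8))| ≤ 1 := by
  rw [abs_prod]
  exact prod_le_one (fun _ _ => abs_nonneg _) fun _ _ => Real.abs_cos_le_one _

lemma NQGDKa_abs_le (s : Fin 3 → ℝ) (m l q : ℕ) (ϑ : ℝ) (ρ : V → V) :
    |softK s m l q ϑ ρ| ≤ |softP s m l ϑ ρ| := by
  rw [softK, abs_mul]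
  exact mul_le_of_le_one_right (abs_nonneg _) (NQGDKa_cos m q ρ)

lemma NQGDKa_abs (s : Fin 3 → ℝ) (m l q : ℕ) (ϑ : ℝ) (ρ : V → V) : |softK s m l q ϑ ρ| ≤ 1 :=
  (NQGDKa_abs_le s m l q ϑ ρ).trans (abs_softP_le s m l ϑ ρ)

lemma NQGDKa_charged (s : Fin 3 → ℝ) {m q : ℕ} (l : ℕ) (ϑ : ℝ) {ρ : V → V} (hρ : IsExt ρ)
    (hq : (mon (box (rin m 8)) ρ).card ≤ q) (h : ∑ x ∈ mon (box (rin m 8)) ρ, sg x ≠ 0) :
    softK s m l q ϑ ρ = 0 := by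
  have h1 := QGD_soft_charged (m := m) (l := l) (q := q) (θ := 0) hρ hq (by
    rw [Phi_eq hρ]; exact neg_ne_zero.2 h)
  simp only [QGD_soft, zero_mul, Real.cos_zero, prod_const_one, one_mul] at h1
  exact mul_eq_zero_of_right _ h1

lemma NQGDKa_perf (s : Fin 3 → ℝ) {m N : ℕ} (hN : m ≤ N) (l q : ℕ) (ϑ : ℝ) {τ ρ : V → V}
    (hρ : ρ ∈ perf (box N) τ) : softK s m l q ϑ ρ = softP s m l ϑ ρ := by
  obtain ⟨⟨h1, -⟩, h2⟩ := mem_perf.1 hρ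
  have h3 : mon (box (rin m 8)) ρ = ∅ := eq_empty_of_forall_notMem fun x hx =>
    h2 x (box_mono ((Nat.sub_le _ _).trans hN) (mem_mon.1 hx).1) (mem_mon.1 hx).2
  simp [softK, Phi_eq h1, h3]

lemma NQGDKa_aff (s : Fin 3 → ℝ) {D : Finset Edge} {m₀ t m : ℕ} (hD : verts D ⊆ box m₀)
    (h0 : m₀ ≤ t) (hm : t < m) (d : Dir) (c : V) (l : ℕ)
    (hc : sq d.1 c l ⊆ sq d.1 (corner d t 0 (0, 0)) (2 * t + 1)) :
    QGD_Aff (box m) D fun ρ => FQp s ρ d c l := by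
  obtain ⟨a, r, h1, h2⟩ := FQp_affine s d c l (box m) fun x hx => by
    have := mem_face.1 (hc hx)
    exact ⟨box_mono hm.le this.1, box_mono hm (add_dv_mem_box this.1 d)⟩
  refine ⟨a, r, fun e he => ?_, h2⟩
  by_contra hne
  obtain ⟨x, hx, hx'⟩ := h1 e hne
  refine (mem_face.1 (hc hx)).2 (box_mono h0 (hD ?_))
  rcases hx' with h | h
  · rw [← h]; exact mem_union_left _ (mem_image_of_mem _ he)
  · rw [← h]; exact mem_union_right _ (mem_image_of_mem _ he)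

lemma NQGDKa_softP (s : Fin 3 → ℝ) (m l : ℕ) (ϑ : ℝ) (ρ : V → V) : softP s m l ϑ ρ =
    ∏ i ∈ QGD_I m (m / 8) l, Real.cos (ϑ * FQp s ρ i.2.1 (corner i.2.1 i.1 l i.2.2) l) := by
  rw [softP, QGD_I, prod_sigma]
  exact prod_congr rfl fun t _ => by rw [prod_product]

lemma NQGDKa_mix (s : Fin 3 → ℝ) {D : Finset Edge} {m₀ m : ℕ} (hD : verts D ⊆ box m₀)
    (h0 : m₀ < rin m 8) (hm : 8 ≤ m) (M : Edge → Bool → Bool → ℝ)
    (hM : ∀ e ∈ D, ContrR (M e)) (l q : ℕ) (ϑ : ℝ) :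
    Mix (box m) (fun ρ => ((cX D M (mon (box m) ρ) * softK s m l q ϑ ρ : ℝ) : ℂ)) 1 := by
  have h0' : m₀ < m - 4 * (m / 8) := h0
  have hDe : D ⊆ edges (box m) := fun e he => mem_edges.2
    ⟨box_mono (by omega) (hD (mem_union_left _ (mem_image_of_mem _ he))),
      box_mono (by omega) (hD (mem_union_right _ (mem_image_of_mem _ he)))⟩
  have := QGD_mix_cos hDe M hM ((QGD_I m (m / 8) l).disjSum (Finset.Icc 1 q))
    (Sum.elim (fun i ρ => ϑ * FQp s ρ i.2.1 (corner i.2.1 i.1 l i.2.2) l)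
      fun j ρ => Real.pi / (2 * j) * Phi ρ (rin m 8)) ?_
  · refine this.mono (fun ρ _ => ?_) le_rfl
    rw [prod_disjSum, softK, NQGDKa_softP]
    rfl
  · rintro (i | j) hj
    · obtain ⟨h1, h2, h3⟩ := QGD_mem_I (inl_mem_disjSum.1 hj)
      exact (NQGDKa_aff s hD (by omega) h2 _ _ _ (sq_corner_subset h3)).smul ϑ
    · exact (QGD_Aff.sum univ fun d =>
        QGD_aff_FQ hD h0'.le (by omega) d _ _ Subset.rfl).smul _

theorem bK_local (s : Fin 3 → ℝ) (D : Finset Edge) (M : Edge → Bool → Bool → ℝ) (m l : ℕ)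
    (ϑ K : ℝ) : Local (box m) (bK s D M m l ϑ K) := by
  exact QGD_loc2 (fun Y a => cX D M Y * a + Real.exp (-K) * |cX D M Y|) (local_mon _)
    (NQGDKa_local s _ _ _ _)

theorem bK_mix (s : Fin 3 → ℝ) {D : Finset Edge} {m₀ m : ℕ} (hD : verts D ⊆ box m₀)
    (h0 : m₀ < rin m 8) (hm : 8 ≤ m) (M : Edge → Bool → Bool → ℝ) (hM : ∀ e ∈ D, ContrR (M e))
    (l : ℕ) (ϑ K : ℝ) : Mix (box m) (fun ρ => (bK s D M m l ϑ K ρ : ℂ))
      (1 + Real.exp (-K) * ∑ X ∈ (verts D).powerset, |cX D M X|) := by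
  have h0' : m₀ < m - 4 * (m / 8) := h0
  have h1 := NQGDKa_mix s hD h0 hm M hM l (verts D).card ϑ
  have h2 := Mix.sum (Λ := box m) (verts D).powerset
    (fun X ρ => ((Real.exp (-K) * |cX D M X| : ℝ) : ℂ) * if mon (box m) ρ = X then 1 else 0)
    (fun X => ‖((Real.exp (-K) * |cX D M X| : ℝ) : ℂ)‖ * 1) fun X hX =>
      Mix.smul _ (mix_mon fun x hx => ⟨box_mono (by omega) (hD (mem_powerset.1 hX hx)),
        e0_eq ▸ box_mono (show m₀ + 1 ≤ m by omega)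
          (add_dv_mem_box (hD (mem_powerset.1 hX hx)) _)⟩)
  refine (h1.add h2).mono (fun ρ _ => ?_) (le_of_eq ?_)
  · simp only [bK, mul_ite, mul_one, mul_zero, sum_ite_eq, mem_powerset]
    split_ifs with hs
    · push_cast; ring
    · simp [cX_eq_zero M hs]
  · rw [mul_sum]
    congr 1
    refine sum_congr rfl fun X _ => ?_
    rw [mul_one, Complex.norm_real, Real.norm_eq_abs, abs_of_nonneg (by positivity)]

theorem bK_nonneg {s : Fin 3 → ℝ} (hs : n1 s ≤ 1) {D : Finset Edge} {m₀ m l : ℕ}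
    (hD : verts D ⊆ box m₀) (h0 : m₀ < rin m 8) (M : Edge → Bool → Bool → ℝ) {ϑ K c : ℝ}
    (hϑ : 0 ≤ ϑ) (hϑl : ϑ * (l : ℝ) ^ 2 ≤ 1)
    (hK : 5 * K ≤ ϑ ^ 2 * (c * (m : ℝ) ^ 3 * (l : ℝ) ^ 2))
    (hp : ∀ σ : V → V, IsExt σ → (∀ x ∈ box m, x ∉ box (rin m 8) → σ x ≠ x) →
      ∑ x ∈ mon (box (rin m 8)) σ, sg x = 0 → PsO s m 8 l σ < c * (m : ℝ) ^ 3 * (l : ℝ) ^ 2 →
      0 < zz (box m) σ) {ρ : V → V} (hz : zz (box m) ρ = 0) :
    0 ≤ ∑ ρ' ∈ cls (box m) ρ, bK s D M m l ϑ K ρ' := by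
  refine sum_nonneg fun σ hσ => ?_
  obtain ⟨hσ1, hσ2⟩ := mem_cls.1 hσ
  by_cases hs' : mon (box m) σ ⊆ verts D
  · have hsm : |softK s m l (verts D).card ϑ σ| ≤ Real.exp (-K) := by
      by_cases hP : ∑ x ∈ mon (box (rin m 8)) σ, sg x = 0
      · refine (NQGDKa_abs_le _ _ _ _ _ _).trans (softP_small hs hϑ hϑl σ
          (hK.trans (mul_le_mul_of_nonneg_left ?_ (sq_nonneg _))))
        by_contra hn
        have := hp σ hσ1 (fun x hx hx' hxx =>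
          hx' (box_mono h0.le (hD (hs' (mem_mon.2 ⟨hx, hxx⟩))))) hP (not_le.1 hn)
        have h2 : zz (box m) σ = zz (box m) ρ := by simp only [zz, perf, cls_eq hσ2]
        omega
      · rw [NQGDKa_charged s l ϑ hσ1 (card_le_card fun x hx => hs' (mem_mon.2
          ⟨box_mono (Nat.sub_le _ _) (mem_mon.1 hx).1, (mem_mon.1 hx).2⟩)) hP, abs_zero]
        positivity
    have h1 := neg_abs_le (cX D M (mon (box m) σ) * softK s m l (verts D).card ϑ σ)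
    rw [abs_mul] at h1
    have h2 := mul_le_mul_of_nonneg_left hsm (abs_nonneg (cX D M (mon (box m) σ)))
    unfold bK
    linarith only [h1, h2]
  · simp [bK, cX_eq_zero M hs']

lemma NQGDKa_Y_le (s : Fin 3 → ℝ) {D : Finset Edge} {m₀ m : ℕ} (hD : verts D ⊆ box m₀)
    (h0 : m₀ < rin m 8) (M : Edge → Bool → Bool → ℝ) (l : ℕ) (ϑ K : ℝ) {ρ : V → V}
    (hz : 0 < zz (box m) ρ) :
    Ysum D M (Mr (box m) ρ) ≤ (∑ σ ∈ cls (box m) ρ, bK s D M m l ϑ K σ) / zz (box m) ρ +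
      ∑ X ∈ (verts D).powerset, |cX D M X| *
        (7 ^ (box m₀).card * gam (box m) (fun σ => 1 - softK s m l (verts D).card ϑ σ) ρ +
          2 * (Mr (box m) ρ X - gam (box m) (fun σ => Mr (box m₀) σ X) ρ)) := by
  have hz' : (0 : ℝ) < zz (box m) ρ := by exact_mod_cast hz
  have hm : m₀ ≤ m := h0.le.trans (Nat.sub_le _ _)
  have hT : verts D ⊆ box m := hD.trans (box_mono hm)
  rw [Ysum, ← sum_cls_mon hT (cX D M) (fun X hX => cX_eq_zero M hX) ρ]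
  have herr : ∑ X ∈ (verts D).powerset, |cX D M X| *
        (7 ^ (box m₀).card * gam (box m) (fun σ => 1 - softK s m l (verts D).card ϑ σ) ρ +
          2 * (Mr (box m) ρ X - gam (box m) (fun σ => Mr (box m₀) σ X) ρ)) =
      (∑ X ∈ (verts D).powerset, |cX D M X| *
      (7 ^ (box m₀).card * ∑ σ ∈ perf (box m) ρ, (1 - softK s m l (verts D).card ϑ σ) +
        2 * (Zm (box m) ρ X - ∑ σ ∈ perf (box m) ρ, Mr (box m₀) σ X))) / zz (box m) ρ := by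
    rw [sum_div]
    refine sum_congr rfl fun X _ => ?_
    simp only [gam, Mr]
    field_simp
  rw [herr, ← add_div]
  refine div_le_div_of_nonneg_right ?_ hz'.le
  have h1 : ∑ σ ∈ cls (box m) ρ, |cX D M (mon (box m) σ)| *
      (1 - softK s m l (verts D).card ϑ σ) = ∑ X ∈ (verts D).powerset, |cX D M X| *
        ∑ σ ∈ (cls (box m) ρ).filter (fun σ => mon (box m) σ = X),
          (1 - softK s m l (verts D).card ϑ σ) := by
    simp only [sum_filter, mul_sum, mul_ite, mul_zero]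
    rw [sum_comm]
    refine sum_congr rfl fun σ _ => ?_
    simp only [sum_ite_eq, mem_powerset]
    split_ifs with hs
    · rfl
    · simp [cX_eq_zero M hs]
  have h2 : ∑ σ ∈ cls (box m) ρ, cX D M (mon (box m) σ) ≤
      ∑ σ ∈ cls (box m) ρ, bK s D M m l ϑ K σ + ∑ σ ∈ cls (box m) ρ,
        |cX D M (mon (box m) σ)| * (1 - softK s m l (verts D).card ϑ σ) := by
    rw [← sum_add_distrib]
    refine sum_le_sum fun σ _ => ?_
    have a1 := (abs_le.1 (NQGDKa_abs s m l (verts D).card ϑ σ)).2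
    have a2 := mul_le_mul_of_nonneg_right (le_abs_self (cX D M (mon (box m) σ)))
      (sub_nonneg.2 a1)
    have a3 : 0 ≤ Real.exp (-K) * |cX D M (mon (box m) σ)| := by positivity
    unfold bK
    linarith only [a2, a3]
  refine h2.trans (add_le_add le_rfl ?_)
  rw [h1]
  refine sum_le_sum fun X hX => mul_le_mul_of_nonneg_left
    (one_X hm ((mem_powerset.1 hX).trans hD) _ (fun σ σ' a b c => ?_) (fun σ => ?_) ρ) (abs_nonneg _)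
  · simp only [NQGDKa_off s h0 l _ ϑ σ σ' a b c]
  · have := abs_le.1 (NQGDKa_abs s m l (verts D).card ϑ σ)
    constructor <;> linarith only [this, this.1, this.2]

lemma NQGDKa_lin (Λ : Finset V) (a : ℝ) (f g h : (V → V) → ℝ) (σ : V → V) :
    gam Λ (fun ρ => a * f ρ + 2 * (g ρ - h ρ)) σ =
      a * gam Λ f σ + 2 * (gam Λ g σ - gam Λ h σ) := by
  simp only [gam, sum_add_distrib, ← mul_sum, sum_sub_distrib]
  ring

/-- The pointwise bound (port of `QGD_point`); the first term does not depend on `s`, `m`, `l`. -/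
theorem bK_point {s : Fin 3 → ℝ} (hs : n1 s ≤ 1) {D : Finset Edge} {m₀ m N l : ℕ}
    (hD : verts D ⊆ box m₀) (h0 : m₀ < rin m 8) (hN : m ≤ N) (M : Edge → Bool → Bool → ℝ)
    {ϑ : ℝ} (K : ℝ) (hϑ : 0 ≤ ϑ) (hϑl : ϑ * (l : ℝ) ^ 2 ≤ 1) (τ : Dimer) :
    max (Ysum D M (Mr (box N) τ.1) - 1) 0 ≤
      2 * ∑ X ∈ (verts D).powerset, |cX D M X| *
          (Mr (box N) τ.1 X - gam (box N) (fun σ => Mr (box m₀) σ X) τ.1) +
        (∑ X ∈ (verts D).powerset, |cX D M X|) * 7 ^ (box m₀).card * (ϑ ^ 2 / 2) *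
          gam (box N) (PsO s m 8 l) τ.1 +
        max (gam (box N) (fun ρ => (∑ σ ∈ cls (box m) ρ, bK s D M m l ϑ K σ) / zz (box m) ρ) τ.1 -
          (1 + Real.exp (-K) * ∑ X ∈ (verts D).powerset, |cX D M X|)) 0 +
        Real.exp (-K) * ∑ X ∈ (verts D).powerset, |cX D M X| := by
  have hm : m₀ ≤ m := h0.le.trans (Nat.sub_le _ _)
  have hT : verts D ⊆ box m := hD.trans (box_mono hm)
  have g0 : ∀ X ∈ (verts D).powerset,
      0 ≤ Mr (box N) τ.1 X - gam (box N) (fun σ => Mr (box m) σ X) τ.1 := fun X hX =>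
    sub_nonneg.2 (Mr_super (box_mono hN) ((mem_powerset.1 hX).trans hT) τ.1)
  have g1 : 0 ≤ ∑ X ∈ (verts D).powerset, |cX D M X| *
      (Mr (box N) τ.1 X - gam (box N) (fun σ => Mr (box m₀) σ X) τ.1) :=
    sum_nonneg fun X hX => mul_nonneg (abs_nonneg _) (sub_nonneg.2
      (Mr_super (box_mono (hm.trans hN)) ((mem_powerset.1 hX).trans hD) τ.1))
  have g2 : 0 ≤ (∑ X ∈ (verts D).powerset, |cX D M X|) * 7 ^ (box m₀).card * (ϑ ^ 2 / 2) *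
      gam (box N) (PsO s m 8 l) τ.1 :=
    mul_nonneg (by positivity) (QGD_gam_nonneg fun ρ _ => Psp_nonneg _ _ _ _ _)
  have g3 : 0 ≤ Real.exp (-K) * ∑ X ∈ (verts D).powerset, |cX D M X| := by positivity
  have g4 := le_max_left (gam (box N)
    (fun ρ => (∑ σ ∈ cls (box m) ρ, bK s D M m l ϑ K σ) / zz (box m) ρ) τ.1 -
      (1 + Real.exp (-K) * ∑ X ∈ (verts D).powerset, |cX D M X|)) 0
  have g5 := le_max_right (gam (box N)
    (fun ρ => (∑ σ ∈ cls (box m) ρ, bK s D M m l ϑ K σ) / zz (box m) ρ) τ.1 -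
      (1 + Real.exp (-K) * ∑ X ∈ (verts D).powerset, |cX D M X|)) 0
  refine max_le ?_ (by linarith only [g1, g2, g3, g5])
  have h1 := gam_mono (Λ := box N) (σ := τ.1) fun ρ hρ =>
    NQGDKa_Y_le s hD h0 M l ϑ K (QGD_zz_pos (box_mono hN) hρ)
  rw [QGD_gam_add, QGD_gam_sum] at h1
  have h2 : gam (box N) (fun σ => 1 - softK s m l (verts D).card ϑ σ) τ.1 ≤
      ϑ ^ 2 / 2 * gam (box N) (PsO s m 8 l) τ.1 := by
    refine (gam_mono (g' := fun σ => ϑ ^ 2 / 2 * PsO s m 8 l σ) fun ρ hρ => ?_).trans_eq ?_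
    · rw [NQGDKa_perf s hN _ _ _ hρ]
      exact softP_ge hs hϑ hϑl ρ
    · simp only [gam, ← mul_sum, mul_div_assoc]
  have h3 : Ysum D M (Mr (box N) τ.1) - gam (box N) (fun ρ => Ysum D M (Mr (box m) ρ)) τ.1 +
      ∑ X ∈ (verts D).powerset, |cX D M X| * gam (box N) (fun ρ =>
        7 ^ (box m₀).card * gam (box m) (fun σ => 1 - softK s m l (verts D).card ϑ σ) ρ +
          2 * (Mr (box m) ρ X - gam (box m) (fun σ => Mr (box m₀) σ X) ρ)) τ.1 ≤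
      2 * ∑ X ∈ (verts D).powerset, |cX D M X| *
          (Mr (box N) τ.1 X - gam (box N) (fun σ => Mr (box m₀) σ X) τ.1) +
        (∑ X ∈ (verts D).powerset, |cX D M X|) * 7 ^ (box m₀).card * (ϑ ^ 2 / 2) *
          gam (box N) (PsO s m 8 l) τ.1 := by
    simp only [Ysum]
    rw [QGD_gam_sum (box N) _ (cX D M) fun X σ => Mr (box m) σ X, ← sum_sub_distrib,
      ← sum_add_distrib, mul_sum, sum_mul, sum_mul, sum_mul, ← sum_add_distrib]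
    refine sum_le_sum fun X hX => ?_
    rw [NQGDKa_lin (box N) _ (gam (box m) fun σ => 1 - softK s m l (verts D).card ϑ σ)
      (fun ρ => Mr (box m) ρ X) (gam (box m) fun σ => Mr (box m₀) σ X),
      gam_tower (box_mono hN), gam_tower (box_mono hN)]
    have a1 := mul_le_mul_of_nonneg_right (le_abs_self (cX D M X)) (g0 X hX)
    have a2 := mul_nonneg (abs_nonneg (cX D M X)) (g0 X hX)
    have a3 := mul_le_mul_of_nonneg_left h2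
      (show (0 : ℝ) ≤ |cX D M X| * 7 ^ (box m₀).card by positivity)
    linarith only [a1, a2, a3]
  linarith only [g4, h1, h3]

end Pool.Agent.Work.MP_5cb0a4_pr.Z
end
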