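import Pool.Agent.Work.MP_5cb0a4_pr.N.QGD2a
import Pool.Agent.Work.MP_5cb0a4_pr.N.QGDKa
import Pool.Agent.Work.MP_5cb0a4_pr.N.LP2
import Pool.Agent.Work.MP_5cb0a4_pr.N.Posi

-- merged part: Pool.Agent.Work.MP_5cb0a4_pr.N.QGD2
section
open MeasureTheory Finset Filter Topology
open scoped Classical

namespace Pool.Agent.Work.MP_5cb0a4_pr.Z

lemma NQGD2_mono {Λ : Finset V} {g g' : (V → V) → (V → V) → ℝ} {σ₁ σ₂ : V → V}
    (h : ∀ ρ₁ ∈ perf Λ σ₁, ∀ ρ₂ ∈ perf Λ σ₂, g ρ₁ ρ₂ ≤ g' ρ₁ ρ₂) :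
    gam2 Λ g σ₁ σ₂ ≤ gam2 Λ g' σ₁ σ₂ :=
  div_le_div_of_nonneg_right (sum_le_sum fun ρ₁ h₁ => sum_le_sum fun ρ₂ h₂ => h ρ₁ h₁ ρ₂ h₂)
    (mul_nonneg (Nat.cast_nonneg _) (Nat.cast_nonneg _))

lemma NQGD2_add (Λ : Finset V) (f g : (V → V) → (V → V) → ℝ) (σ₁ σ₂ : V → V) :
    gam2 Λ (fun a b => f a b + g a b) σ₁ σ₂ = gam2 Λ f σ₁ σ₂ + gam2 Λ g σ₁ σ₂ := by
  simp only [gam2, sum_add_distrib, add_div]

lemma NQGD2_sub (Λ : Finset V) (f g : (V → V) → (V → V) → ℝ) (σ₁ σ₂ : V → V) :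
    gam2 Λ (fun a b => f a b - g a b) σ₁ σ₂ = gam2 Λ f σ₁ σ₂ - gam2 Λ g σ₁ σ₂ := by
  simp only [gam2, sum_sub_distrib, sub_div]

lemma NQGD2_neg (Λ : Finset V) (f : (V → V) → (V → V) → ℝ) (σ₁ σ₂ : V → V) :
    gam2 Λ (fun a b => -f a b) σ₁ σ₂ = -gam2 Λ f σ₁ σ₂ := by
  simp only [gam2, sum_neg_distrib, neg_div]

lemma NQGD2_smul (Λ : Finset V) (c : ℝ) (f : (V → V) → (V → V) → ℝ) (σ₁ σ₂ : V → V) :
    gam2 Λ (fun a b => c * f a b) σ₁ σ₂ = c * gam2 Λ f σ₁ σ₂ := by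
  simp only [gam2, ← mul_sum, mul_div_assoc]

lemma NQGD2_sum {ι : Type} (Λ : Finset V) (S : Finset ι) (f : ι → (V → V) → (V → V) → ℝ)
    (σ₁ σ₂ : V → V) :
    gam2 Λ (fun a b => ∑ i ∈ S, f i a b) σ₁ σ₂ = ∑ i ∈ S, gam2 Λ (f i) σ₁ σ₂ := by
  simp only [gam2, ← sum_div]
  congr 1
  rw [sum_comm (s := S)]
  exact sum_congr rfl fun _ _ => sum_comm

lemma NQGD2_left {Λ : Finset V} (f : (V → V) → ℝ) (σ₁ : V → V) {σ₂ : V → V}
    (z : 0 < zz Λ σ₂) : gam2 Λ (fun a _ => f a) σ₁ σ₂ = gam Λ f σ₁ := by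
  have h := gam2_mul Λ f (fun _ => 1) σ₁ σ₂
  simpa only [mul_one, gam_const z] using h

lemma NQGD2_right {Λ : Finset V} (f : (V → V) → ℝ) {σ₁ : V → V} (σ₂ : V → V)
    (z : 0 < zz Λ σ₁) : gam2 Λ (fun _ b => f b) σ₁ σ₂ = gam Λ f σ₂ := by
  have h := gam2_mul Λ (fun _ => 1) f σ₁ σ₂
  simpa only [one_mul, gam_const z] using h

lemma NQGD2_const {Λ : Finset V} (c : ℝ) {σ₁ σ₂ : V → V} (z₁ : 0 < zz Λ σ₁) (z₂ : 0 < zz Λ σ₂) :
    gam2 Λ (fun _ _ => c) σ₁ σ₂ = c :=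
  (NQGD2_left (fun _ => c) σ₁ z₂).trans (gam_const z₁ c)

lemma NQGD2_odd {D : Finset (V × Dir)} (hD : ∀ e ∈ D, IsEven e.1) {e : V × Dir} (he : e ∈ D) :
    ¬ IsEven (oe e) := fun h => isEven_add_dv.1 h (hD e he)

lemma NQGD2_gM_nonneg (m N : ℕ) (σ : V → V) (x y : V) :
    0 ≤ gam (box N) (fun ρ => M2 (box m) ρ x y) σ :=
  QGD_gam_nonneg fun ρ _ => M2_nonneg _ ρ x y

lemma NQGD2_gM_le {m N : ℕ} (h : m ≤ N) (σ : V → V) (x y : V) :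
    gam (box N) (fun ρ => M2 (box m) ρ x y) σ ≤ M2 (box N) σ x y :=
  gam_Mr_le h σ {x, y}

lemma NQGD2_soft_nonneg (s : Fin 3 → ℝ) (m l : ℕ) (ϑ : ℝ) (ρ : V → V) :
    0 ≤ gam (box m) (fun σ => 1 - softP s m l ϑ σ) ρ :=
  QGD_gam_nonneg fun σ _ => sub_nonneg.2 (abs_le.1 (abs_softP_le s m l ϑ σ)).2

lemma NQGD2_soft_local (s : Fin 3 → ℝ) (m l : ℕ) (ϑ : ℝ) :
    Local (box m) (gam (box m) fun σ => 1 - softP s m l ϑ σ) :=
  QGD_locgam (QGD_loc1 (fun x => 1 - x) (local_softP s m l ϑ))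

lemma NQGD2_erS_nonneg (s : Fin 3 → ℝ) {m₀ m : ℕ} (h : m₀ ≤ m) (l : ℕ) (ϑ : ℝ) (x y : V)
    (ρ : V → V) : 0 ≤ erS s m₀ m l ϑ x y ρ :=
  add_nonneg (mul_nonneg (by positivity) (NQGD2_soft_nonneg s m l ϑ ρ))
    (mul_nonneg (by norm_num) (sub_nonneg.2 (NQGD2_gM_le h ρ x y)))

lemma NQGD2_erS_local (s : Fin 3 → ℝ) {m₀ m : ℕ} (h : m₀ ≤ m) (l : ℕ) (ϑ : ℝ) (x y : V) :
    Local (box m) (erS s m₀ m l ϑ x y) :=
  QGD_loc2 (fun a b => (7 : ℝ) ^ (box m₀).card * a + 2 * b) (NQGD2_soft_local s m l ϑ)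
    (QGD_loc2 (· - ·) (local_M2 _ x y) (QGD_locgam ((local_M2 _ x y).mono (box_mono h))))

/-- The error term of a pair of edges. -/
noncomputable def NQGD2_T (Λ : Finset V) (c : ℝ) (X Y X' Y' E F : (V → V) → ℝ) (σ₁ σ₂ : V → V) :
    ℝ :=
  X σ₁ * Y σ₂ - gam Λ X' σ₁ * gam Λ Y' σ₂ + (c * (gam Λ X' σ₁ * gam Λ Y' σ₂) +
    gam Λ E σ₁ * gam Λ Y' σ₂ + gam Λ X' σ₁ * gam Λ F σ₂)

lemma NQGD2_intT {ν₁ ν₂ : Measure Dimer} (h₁ : IM ν₁) (h₂ : IM ν₂) {Λ Λ' : Finset V} {c : ℝ}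
    {X Y X' Y' E F : (V → V) → ℝ} (lX : Local Λ X) (lY : Local Λ Y) (lX' : Local Λ' X')
    (lY' : Local Λ' Y') (lE : Local Λ' E) (lF : Local Λ' F) {B g a : ℝ} (hc : 0 ≤ c) (hg : 0 ≤ g)
    (ha : 0 ≤ a) (y0 : 0 ≤ ∫ τ, Y τ.1 ∂ν₂) (yB : ∫ τ, Y τ.1 ∂ν₂ ≤ B)
    (x0 : 0 ≤ ∫ τ, X' τ.1 ∂ν₁) (xB : ∫ τ, X' τ.1 ∂ν₁ ≤ B) (y0' : 0 ≤ ∫ τ, Y' τ.1 ∂ν₂)
    (yB' : ∫ τ, Y' τ.1 ∂ν₂ ≤ B) (gx : ∫ τ, X τ.1 ∂ν₁ - ∫ τ, X' τ.1 ∂ν₁ ≤ g)
    (gy : ∫ τ, Y τ.1 ∂ν₂ - ∫ τ, Y' τ.1 ∂ν₂ ≤ g) (hE : ∫ τ, E τ.1 ∂ν₁ ≤ a)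
    (hF : ∫ τ, F τ.1 ∂ν₂ ≤ a) :
    Integrable (fun p : Dimer × Dimer => NQGD2_T Λ c X Y X' Y' E F p.1.1 p.2.1) (ν₁.prod ν₂) ∧
      ∫ p, NQGD2_T Λ c X Y X' Y' E F p.1.1 p.2.1 ∂(ν₁.prod ν₂) ≤
        2 * g * B + c * B ^ 2 + 2 * a * B := by
  have := h₁.prob
  have := h₂.prob
  have i1 := (lX.integrable ν₁).mul_prod (lY.integrable ν₂)
  have i2 := ((local_gam (Λ := Λ) lX').integrable ν₁).mul_prod
    ((local_gam (Λ := Λ) lY').integrable ν₂)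
  have i3 := ((local_gam (Λ := Λ) lE).integrable ν₁).mul_prod
    ((local_gam (Λ := Λ) lY').integrable ν₂)
  have i4 := ((local_gam (Λ := Λ) lX').integrable ν₁).mul_prod
    ((local_gam (Λ := Λ) lF).integrable ν₂)
  refine ⟨(i1.sub i2).add (((i2.const_mul c).add i3).add i4), ?_⟩
  unfold NQGD2_T
  rw [integral_add (i1.sub' i2) (((i2.const_mul c).fun_add i3).fun_add i4), integral_sub i1 i2,
    integral_add ((i2.const_mul c).fun_add i3) i4, integral_add (i2.const_mul c) i3,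
    integral_const_mul, integral_prod_mul (fun τ : Dimer => X τ.1) fun τ : Dimer => Y τ.1,
    integral_prod_mul (fun τ : Dimer => gam Λ X' τ.1) fun τ : Dimer => gam Λ Y' τ.1,
    integral_prod_mul (fun τ : Dimer => gam Λ E τ.1) fun τ : Dimer => gam Λ Y' τ.1,
    integral_prod_mul (fun τ : Dimer => gam Λ X' τ.1) fun τ : Dimer => gam Λ F τ.1,
    h₁.dlr Λ _ _ lX', h₂.dlr Λ _ _ lY', h₁.dlr Λ _ _ lE, h₂.dlr Λ _ _ lF]
  generalize ∫ τ, X τ.1 ∂ν₁ = x at *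
  generalize ∫ τ, Y τ.1 ∂ν₂ = y at *
  generalize ∫ τ, X' τ.1 ∂ν₁ = x' at *
  generalize ∫ τ, Y' τ.1 ∂ν₂ = y' at *
  generalize ∫ τ, E τ.1 ∂ν₁ = u at *
  generalize ∫ τ, F τ.1 ∂ν₂ = v at *
  have e1 : (x - x') * y ≤ g * B := mul_le_mul gx yB y0 hg
  have e2 : (y - y') * x' ≤ g * B := mul_le_mul gy xB x0 hg
  have e3 : c * (x' * y') ≤ c * (B * B) :=
    mul_le_mul_of_nonneg_left (mul_le_mul xB yB' y0' (x0.trans xB)) hc
  have e4 : u * y' ≤ a * B := mul_le_mul hE yB' y0' ha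
  have e5 : v * x' ≤ a * B := mul_le_mul hF xB x0 ha
  linarith only [e1, e2, e3, e4, e5]

/-- The pointwise bound. -/
lemma NQGD2_point (s : Fin 3 → ℝ) {D : Finset (V × Dir)} (hD : ∀ e ∈ D, IsEven e.1)
    (t : V × Dir → ℝ) {m₀ m N : ℕ} (l : ℕ) {θ : ℝ} (ϑ K : ℝ) (h0 : m₀ ≤ m - m / 8) (hN : m ≤ N)
    (hDm : ∀ e ∈ D, e.1 ∈ box m₀ ∧ oe e ∈ box m₀) (hθ : ∀ e ∈ D, θ ^ 2 * t e ^ 2 ≤ 1) {β : ℝ}
    (hβ : 1 ≤ β) (τ₁ τ₂ : Dimer) :
    θ ^ 2 * max (-Kq (M2 (box N) τ₁.1) (M2 (box N) τ₂.1) D t - 2 * ∑ e ∈ D, t e ^ 2) 0 ≤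
      max (gam2 (box N) (W2 (box m) (bT s D t m l θ ϑ K)) τ₁.1 τ₂.1 - β) 0 + (β - 1) +
      (gam (box N) (gam (box m) fun σ => 1 - softP s m l ϑ σ) τ₁.1 +
        gam (box N) (gam (box m) fun σ => 1 - softP s m l ϑ σ) τ₂.1) +
      θ ^ 2 * ∑ e ∈ D, ∑ f ∈ D, |t e * t f| *
        NQGD2_T (box N) (2 * θ ^ 2 * ∑ e ∈ D, t e ^ 2) (fun σ => M2 (box N) σ e.1 (oe f))
          (fun σ => M2 (box N) σ f.1 (oe e)) (fun σ => M2 (box m) σ e.1 (oe f))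
          (fun σ => M2 (box m) σ f.1 (oe e)) (erS s m₀ m l ϑ e.1 (oe f))
          (erS s m₀ m l ϑ f.1 (oe e)) τ₁.1 τ₂.1 := by
  have z₁ := zz_dimer_pos (box N) τ₁
  have z₂ := zz_dimer_pos (box N) τ₂
  have hm : m₀ ≤ m := h0.trans (Nat.sub_le _ _)
  have key := NQGD2_mono (Λ := box N) (σ₁ := τ₁.1) (σ₂ := τ₂.1) fun ρ₁ r₁ ρ₂ r₂ =>
    bT_ge s hD t l ϑ K h0 hDm hθ (mem_perf.1 r₁).1.1 (mem_perf.1 r₂).1.1
      (QGD_zz_pos (box_mono hN) r₁) (QGD_zz_pos (box_mono hN) r₂)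
  unfold Kq at key ⊢
  rw [NQGD2_smul, NQGD2_sub, NQGD2_neg, NQGD2_const _ z₁ z₂, NQGD2_add, NQGD2_add, NQGD2_sub,
    NQGD2_const _ z₁ z₂, NQGD2_add, NQGD2_left _ _ z₂, NQGD2_right _ _ z₁, NQGD2_smul] at key
  simp only [NQGD2_sum, NQGD2_smul, NQGD2_add, gam2_mul] at key
  have d0 : ∀ e f : V × Dir, 0 ≤ M2 (box N) τ₁.1 e.1 (oe f) * M2 (box N) τ₂.1 f.1 (oe e) -
      gam (box N) (fun σ => M2 (box m) σ e.1 (oe f)) τ₁.1 *
        gam (box N) (fun σ => M2 (box m) σ f.1 (oe e)) τ₂.1 := fun e f =>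
    sub_nonneg.2 (mul_le_mul (NQGD2_gM_le hN _ _ _) (NQGD2_gM_le hN _ _ _)
      (NQGD2_gM_nonneg _ _ _ _ _) (M2_nonneg _ _ _ _))
  have u0 : ∀ σ, 0 ≤ gam (box N) (gam (box m) fun σ => 1 - softP s m l ϑ σ) σ := fun σ =>
    QGD_gam_nonneg fun ρ _ => NQGD2_soft_nonneg s m l ϑ ρ
  have e0 : ∀ x y σ, 0 ≤ gam (box N) (erS s m₀ m l ϑ x y) σ := fun x y σ =>
    QGD_gam_nonneg fun ρ _ => NQGD2_erS_nonneg s hm l ϑ x y ρ
  have g4 := le_max_left (gam2 (box N) (W2 (box m) (bT s D t m l θ ϑ K)) τ₁.1 τ₂.1 - β) 0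
  have g5 := le_max_right (gam2 (box N) (W2 (box m) (bT s D t m l θ ϑ K)) τ₁.1 τ₂.1 - β) 0
  rw [mul_max_of_nonneg _ _ (sq_nonneg θ), mul_zero]
  refine max_le ?_ (add_nonneg (add_nonneg (add_nonneg g5 (sub_nonneg.2 hβ))
    (add_nonneg (u0 _) (u0 _))) (mul_nonneg (sq_nonneg θ) (sum_nonneg fun e _ =>
      sum_nonneg fun f _ => mul_nonneg (abs_nonneg _) (add_nonneg (d0 e f) (add_nonneg
        (add_nonneg (mul_nonneg (mul_nonneg (by positivity) (sum_nonneg fun _ _ => sq_nonneg _))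
          (mul_nonneg (NQGD2_gM_nonneg _ _ _ _ _) (NQGD2_gM_nonneg _ _ _ _ _)))
          (mul_nonneg (e0 _ _ _) (NQGD2_gM_nonneg _ _ _ _ _)))
        (mul_nonneg (NQGD2_gM_nonneg _ _ _ _ _) (e0 _ _ _)))))))
  have h2 : ∑ e ∈ D, ∑ f ∈ D, t e * t f * (gam (box N) (fun σ => M2 (box m) σ e.1 (oe f)) τ₁.1 *
        gam (box N) (fun σ => M2 (box m) σ f.1 (oe e)) τ₂.1) -
      ∑ e ∈ D, ∑ f ∈ D, t e * t f * (M2 (box N) τ₁.1 e.1 (oe f) * M2 (box N) τ₂.1 f.1 (oe e)) ≤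
      ∑ e ∈ D, ∑ f ∈ D, |t e * t f| * (M2 (box N) τ₁.1 e.1 (oe f) * M2 (box N) τ₂.1 f.1 (oe e) -
        gam (box N) (fun σ => M2 (box m) σ e.1 (oe f)) τ₁.1 *
          gam (box N) (fun σ => M2 (box m) σ f.1 (oe e)) τ₂.1) := by
    rw [← sum_sub_distrib]
    refine sum_le_sum fun e _ => ?_
    rw [← sum_sub_distrib]
    refine sum_le_sum fun f _ => ?_
    have := mul_le_mul_of_nonneg_right (neg_le_abs (t e * t f)) (d0 e f)
    linarith only [this]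
  have h3 := mul_le_mul_of_nonneg_left h2 (sq_nonneg θ)
  simp only [NQGD2_T, mul_add |t _ * t _|, sum_add_distrib] at key ⊢
  linarith only [g4, h3, key]

lemma NQGD2_gap {ν : Measure Dimer} (h : IM ν) (p : FinPos ν) {D : Finset (V × Dir)}
    (hD : ∀ e ∈ D, IsEven e.1) {g : ℝ} (hg : 0 < g) : ∃ n : ℕ, ∀ m ≥ n, ∀ e ∈ D, ∀ f ∈ D, ∀ N,
      ∫ τ, M2 (box N) τ.1 e.1 (oe f) ∂ν - ∫ τ, M2 (box m) τ.1 e.1 (oe f) ∂ν ≤ g := by
  refine eventually_atTop.1 ((eventually_all_finset D).2 fun e he =>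
    (eventually_all_finset D).2 fun f hf => ?_)
  filter_upwards [(tendsto_order.1 (tendsto_Gbar h p (hD e he) (NQGD2_odd hD hf))).1 _
    (sub_lt_self _ hg)] with m hm N
  have := le_Gbar h p (hD e he) (NQGD2_odd hD hf) N
  linarith only [hm, this]

lemma NQGD2_bd {ν : Measure Dimer} (h : IM ν) (p : FinPos ν) {D : Finset (V × Dir)}
    (hD : ∀ e ∈ D, IsEven e.1) : ∃ B : ℝ, 0 ≤ B ∧ ∀ e ∈ D, ∀ f ∈ D, ∀ N,
      ∫ τ, M2 (box N) τ.1 e.1 (oe f) ∂ν ≤ B := by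
  refine ⟨∑ e ∈ D, ∑ f ∈ D, Gbar ν (oe f - e.1),
    sum_nonneg fun _ _ => sum_nonneg fun _ _ => Gbar_nonneg _ _, fun e he f hf N => ?_⟩
  refine (le_Gbar h p (hD e he) (NQGD2_odd hD hf) N).trans ?_
  exact (single_le_sum (f := fun f => Gbar ν (oe f - e.1)) (fun _ _ => Gbar_nonneg _ _) hf).trans
    (single_le_sum (f := fun e : V × Dir => ∑ f ∈ D, Gbar ν (oe f - e.1))
      (fun _ _ => sum_nonneg fun _ _ => Gbar_nonneg _ _) he)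

lemma NQGD2_int_soft {ν : Measure Dimer} (h : IM ν) {s : Fin 3 → ℝ} (hs : n1 s ≤ 1) {η ϑ : ℝ}
    (hη : 0 ≤ η) {l : ℕ} (hl : ∀ (d : Dir) (c : V), ∫ τ, FQp s τ.1 d c l ^ 2 ∂ν ≤ η * (l : ℝ) ^ 4)
    (h0 : 0 ≤ ϑ) (hϑ : ϑ * (l : ℝ) ^ 2 ≤ 1) (m : ℕ) :
    ∫ τ, gam (box m) (fun σ => 1 - softP s m l ϑ σ) τ.1 ∂ν ≤
      ϑ ^ 2 / 2 * (24 * η * (m : ℝ) ^ 3 * (l : ℝ) ^ 2) := by
  have := h.prob
  have hl' : Local (box m) fun σ => 1 - softP s m l ϑ σ :=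
    QGD_loc1 (fun x => 1 - x) (local_softP s m l ϑ)
  rw [h.dlr (box m) _ _ hl']
  refine le_trans ?_ (mul_le_mul_of_nonneg_left (int_Psp ν hη hl (m - m / 8) m) (by positivity))
  rw [← integral_const_mul]
  exact integral_mono (hl'.integrable ν) (((local_Psp _ _ _ _).integrable ν).const_mul _)
    fun τ => softP_ge hs h0 hϑ τ.1

lemma NQGD2_int_erS {ν : Measure Dimer} (h : IM ν) (s : Fin 3 → ℝ) {m₀ m l : ℕ} {ϑ a g : ℝ}
    {x y : V} (ha : ∫ τ, gam (box m) (fun σ => 1 - softP s m l ϑ σ) τ.1 ∂ν ≤ a)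
    (hg : ∫ τ, M2 (box m) τ.1 x y ∂ν - ∫ τ, M2 (box m₀) τ.1 x y ∂ν ≤ g) :
    ∫ τ, erS s m₀ m l ϑ x y τ.1 ∂ν ≤ 7 ^ (box m₀).card * a + 2 * g := by
  have := h.prob
  have i1 := (NQGD2_soft_local s m l ϑ).integrable ν
  have i2 := (local_M2 (box m) x y).integrable ν
  have i3 := (local_gam (Λ := box m) (local_M2 (box m₀) x y)).integrable ν
  unfold erS
  rw [integral_add (i1.const_mul _) ((i2.sub' i3).const_mul _), integral_const_mul,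
    integral_const_mul, integral_sub i2 i3, h.dlr (box m) _ _ (local_M2 (box m₀) x y)]
  exact add_le_add (mul_le_mul_of_nonneg_left ha (by positivity))
    (mul_le_mul_of_nonneg_left hg (by norm_num))

/-- A typical sample serves as the inner configuration of the patching lemma. -/
lemma NQGD2_patch {ν : Measure Dimer} (h : IM ν) {s : Fin 3 → ℝ} {c η : ℝ} {C l m : ℕ}
    (hp : PatchAt s 8 c C) (hη : 0 ≤ η) (hc : 24 * η < c) (hl1 : 1 ≤ l) (hm1 : 1 ≤ m)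
    (hl : ∀ (d : Dir) (c : V), ∫ τ, FQp s τ.1 d c l ^ 2 ∂ν ≤ η * (l : ℝ) ^ 4)
    (hm : C * l ^ 3 ≤ m ^ 2) (σ : V → V) (hσ : IsExt σ)
    (h1 : ∀ x ∈ box m, x ∉ box (rin m 8) → σ x ≠ x) (h2 : ∑ x ∈ mon (box (rin m 8)) σ, sg x = 0)
    (h3 : PsO s m 8 l σ < c * (m : ℝ) ^ 3 * (l : ℝ) ^ 2) : 0 < zz (box m) σ := by
  have := h.prob
  obtain ⟨τ, hτ⟩ := exists_le_integral
    ((local_Psp s (rin m 8) (rin m 8 + m / 8) l).integrable ν)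
  have e1 := hτ.trans (int_Psp ν hη hl (rin m 8) (rin m 8 + m / 8))
  have e2 : ((rin m 8 + m / 8 : ℕ) : ℝ) ≤ m := by
    exact_mod_cast (by unfold rin; omega : rin m 8 + m / 8 ≤ m)
  have e3 : ((rin m 8 + m / 8 : ℕ) : ℝ) ^ 3 ≤ (m : ℝ) ^ 3 :=
    pow_le_pow_left₀ (Nat.cast_nonneg _) e2 3
  have e4 : (0 : ℝ) < (m : ℝ) ^ 3 := pow_pos (by exact_mod_cast hm1) 3
  have e5 : (0 : ℝ) < (l : ℝ) ^ 2 := pow_pos (by exact_mod_cast hl1) 2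
  have e6 : PsI s m 8 l τ.1 < c * (m : ℝ) ^ 3 * (l : ℝ) ^ 2 :=
    e1.trans_lt (mul_lt_mul_of_pos_right ((mul_le_mul_of_nonneg_left e3 (by positivity)).trans_lt
      (mul_lt_mul_of_pos_right hc e4)) e5)
  obtain ⟨ρ, hρ, -⟩ := hp l m hl1 hm σ τ.1 hσ (isExt_dimer τ)
    (fun x _ => Cls2_nbr_ne (τ.2 x).1) h1 h2 h3 e6
  exact card_pos.2 ⟨ρ, hρ⟩

lemma NQGD2_small {a ε : ℝ} (ha : 0 ≤ a) (hε : 0 < ε) : ∃ g : ℝ, 0 < g ∧ g ≤ 1 ∧ a * g ≤ ε := by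
  refine ⟨min 1 (ε / (a + 1)), by positivity, min_le_left _ _, ?_⟩
  refine (mul_le_mul_of_nonneg_left (min_le_right _ _) ha).trans ?_
  rw [mul_div_assoc', div_le_iff₀ (by positivity)]
  linarith only [hε]

/-- Quenched positivity. Order of the parameters: `θ`, `K`, `m₀`, `l`, `m`, `N`; the inner
configuration of the patching lemma is a typical sample of `ν₁`. -/
theorem qgd2 {ν₁ ν₂ : Measure Dimer} (h₁ : IM ν₁) (h₂ : IM ν₂) (hlp : LP2 ν₁ ν₂)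
    (p₁ : FinPos ν₁) (p₂ : FinPos ν₂) {s : Fin 3 → ℝ} (hs : n1 s < 1) (f₁ : FluxAt ν₁ s)
    (f₂ : FluxAt ν₂ s) (D : Finset (V × Dir)) (hD : ∀ e ∈ D, IsEven e.1) (t : V × Dir → ℝ) :
    Tendsto (fun N : ℕ => ∫ p, max (-Kq (M2 (box N) p.1.1) (M2 (box N) p.2.1) D t -
      2 * ∑ e ∈ D, t e ^ 2) 0 ∂(ν₁.prod ν₂)) atTop (𝓝 0) := by
  have := h₁.prob
  have := h₂.prob
  refine tendsto_order.2 ⟨fun a ha => Eventually.of_forall fun N =>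
    ha.trans_le (integral_nonneg fun τ => le_max_right _ _), fun ε hε => ?_⟩
  obtain ⟨C, hC, hmix⟩ := bT_mix D hD t
  obtain ⟨B₁, hB₁, b₁⟩ := NQGD2_bd h₁ p₁ hD
  obtain ⟨B₂, hB₂, b₂⟩ := NQGD2_bd h₂ p₂ hD
  obtain ⟨S, hS⟩ : ∃ S, S = ∑ e ∈ D, t e ^ 2 := ⟨_, rfl⟩
  obtain ⟨A, hA⟩ : ∃ A, A = ∑ e ∈ D, ∑ f ∈ D, |t e * t f| := ⟨_, rfl⟩
  have hS0 : 0 ≤ S := hS ▸ sum_nonneg fun _ _ => sq_nonneg _
  have hA0 : 0 ≤ A := hA ▸ sum_nonneg fun _ _ => sum_nonneg fun _ _ => abs_nonneg _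
  obtain ⟨B, hB⟩ : ∃ B, B = B₁ + B₂ := ⟨_, rfl⟩
  have hB0 : 0 ≤ B := hB ▸ add_nonneg hB₁ hB₂
  have c₁ : ∀ e ∈ D, ∀ f ∈ D, ∀ N, ∫ τ, M2 (box N) τ.1 e.1 (oe f) ∂ν₁ ≤ B := fun e he f hf N =>
    (b₁ e he f hf N).trans (by linarith only [hB₂, hB])
  have c₂ : ∀ e ∈ D, ∀ f ∈ D, ∀ N, ∫ τ, M2 (box N) τ.1 e.1 (oe f) ∂ν₂ ≤ B := fun e he f hf N =>
    (b₂ e he f hf N).trans (by linarith)
  -- the parameter `θ`
  obtain ⟨θ, hθ0, hθ1, hθε⟩ := NQGD2_small (a := C + 2 * A * S * B ^ 2 + S) (by positivity)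
    (lt_min (show 0 < ε / 4 by positivity) one_pos)
  have hθ2 : θ ^ 2 ≤ θ := by linarith only [hθ0, hθ1, mul_nonneg_of_nonpos_of_nonpos (le_of_lt (Mathlib.Tactic.Linarith.sub_neg_of_lt hθ0)) (Mathlib.Tactic.Linarith.sub_nonpos_of_le hθ1)]
  have hθp : 0 < θ ^ 2 := by positivity
  have hθa : (C + 2 * A * S * B ^ 2 + S) * θ ^ 2 ≤ min (ε / 4) 1 :=
    (mul_le_mul_of_nonneg_left hθ2 (by positivity)).trans hθε
  have hSθ : 0 ≤ S * θ ^ 2 := by positivity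
  have hCθ : 0 ≤ (C + 2 * A * S * B ^ 2) * θ ^ 2 := by positivity
  have hθb : (C + 2 * A * S * B ^ 2) * θ ^ 2 ≤ ε / 4 := by
    have := hθa.trans (min_le_left _ _)
    linarith only [hSθ, this]
  have hθt : ∀ e ∈ D, θ ^ 2 * t e ^ 2 ≤ 1 := fun e he => by
    have k1 := hθa.trans (min_le_right _ _)
    have k2 : t e ^ 2 ≤ S := hS ▸ single_le_sum (f := fun e => t e ^ 2) (fun _ _ => sq_nonneg _) he
    have k3 := mul_le_mul_of_nonneg_left k2 hθp.le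
    linarith only [hCθ, k1, k3]
  -- the parameters `g`, `K`
  obtain ⟨g, hg0, -, hgε⟩ := NQGD2_small (a := A + 2 + 8 * A * B) (by positivity)
    (show 0 < ε / 4 by positivity)
  obtain ⟨K, hK, hKg⟩ : ∃ K : ℝ, 0 < K ∧ Real.exp (-K) ≤ g := by
    refine ⟨1 / g, by positivity, ?_⟩
    rw [Real.exp_neg, inv_le_comm₀ (Real.exp_pos _) hg0, ← one_div]
    linarith only [Real.add_one_le_exp (1 / g)]
  -- the parameter `m₀`
  obtain ⟨n₁, gap₁⟩ := NQGD2_gap h₁ p₁ hD hg0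
  obtain ⟨n₂, gap₂⟩ := NQGD2_gap h₂ p₂ hD hg0
  obtain ⟨n₃, hn₃⟩ := QGD_exists_box (D.image Prod.fst ∪ D.image oe)
  obtain ⟨m₀, k₁, k₂, k₃⟩ : ∃ m₀ : ℕ, n₁ ≤ m₀ ∧ n₂ ≤ m₀ ∧ n₃ ≤ m₀ :=
    ⟨n₁ + n₂ + n₃, by omega, by omega, by omega⟩
  have hDm : ∀ n ≥ m₀, ∀ e ∈ D, e.1 ∈ box n ∧ oe e ∈ box n := fun n hn e he =>
    ⟨box_mono (k₃.trans hn) (hn₃ (mem_union_left _ (mem_image_of_mem _ he))),
      box_mono (k₃.trans hn) (hn₃ (mem_union_right _ (mem_image_of_mem _ he)))⟩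
  -- the parameter `l`
  obtain ⟨c, hc, Cp, hpatch⟩ := patchP (κ := 1 - n1 s) (by linarith only [hs]) 8 le_rfl
  obtain ⟨Q, hQ⟩ : ∃ Q : ℝ, Q = 7 ^ (box m₀).card := ⟨_, rfl⟩
  have hQ1 : 1 ≤ Q := hQ ▸ one_le_pow₀ (by norm_num)
  obtain ⟨η, hη0, hη1, hη2⟩ : ∃ η : ℝ, 0 < η ∧ 24 * η < c ∧ η ≤ c * (g * θ ^ 2 / Q) / (60 * K) :=
    ⟨min (c / 48) (c * (g * θ ^ 2 / Q) / (60 * K)), by positivity,
      by linarith only [hc, min_le_left (c / 48) (c * (g * θ ^ 2 / Q) / (60 * K))], min_le_right _ _⟩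
  obtain ⟨l₁, hl₁⟩ := f₁ η hη0
  obtain ⟨l₂, hl₂⟩ := f₂ η hη0
  obtain ⟨l, hl1, j₁, j₂⟩ : ∃ l : ℕ, 1 ≤ l ∧ l₁ ≤ l ∧ l₂ ≤ l :=
    ⟨l₁ + l₂ + 1, by omega, by omega, by omega⟩
  -- the parameters `m`, `ϑ`
  obtain ⟨m₁, hm₁⟩ := QGD_theta hK hc hl1
  obtain ⟨m, hmb, hmm, hm1, hr, h0⟩ : ∃ m : ℕ, Cp * l ^ 3 ≤ m ∧ m₁ ≤ m ∧ 1 ≤ m ∧ m₀ ≤ rin m 8 ∧
      m₀ ≤ m - m / 8 :=
    ⟨Cp * l ^ 3 + m₁ + 1 + 2 * m₀, by omega, by omega, by omega, by unfold rin; omega, by omega⟩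
  have hm : m₀ ≤ m := h0.trans (Nat.sub_le _ _)
  obtain ⟨ϑ, hϑ, hϑl, hϑK⟩ := hm₁ m hmm
  have hM := hmix s m₀ m l θ ϑ K h0 (hDm m₀ le_rfl) (abs_le.2 ⟨by linarith only [hθ0], hθ1⟩) hθt
  rw [← hA] at hM
  obtain ⟨β, hβ⟩ : ∃ β, β = 1 + C * θ ^ 4 + Real.exp (-K) * θ ^ 2 * A := ⟨_, rfl⟩
  rw [← hβ] at hM
  have hβ1 : 1 ≤ β := by
    have : 0 ≤ C * θ ^ 4 + Real.exp (-K) * θ ^ 2 * A := by positivity
    linarith only [hβ, this]
  have ht := transfer2 h₁ h₂ hlp m (bT s D t m l θ ϑ K) hβ1 hM fun ρ₁ ρ₂ r₁ r₂ hz =>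
    bT_nonneg hs.le hD t (hDm _ hr) hθt hϑ hϑl hϑK.ge
      (NQGD2_patch h₁ (hpatch s (by linarith only [])) hη0.le hη1 hl1 hm1 (hl₁ l j₁)
        (hmb.trans (Nat.le_self_pow (by norm_num) m))) r₁ r₂ hz
  have ha : ϑ ^ 2 / 2 * (24 * η * (m : ℝ) ^ 3 * (l : ℝ) ^ 2) ≤ g * θ ^ 2 / Q := by
    have e : ϑ ^ 2 / 2 * (24 * η * (m : ℝ) ^ 3 * (l : ℝ) ^ 2) =
        ϑ ^ 2 * (c * (m : ℝ) ^ 3 * (l : ℝ) ^ 2) * (12 * η / c) := by
      field_simp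
      ring
    rw [e, hϑK]
    rw [le_div_iff₀ (by positivity)] at hη2
    rw [← mul_div_assoc, div_le_iff₀ hc]
    linarith only [hη2]
  have s₁ := (NQGD2_int_soft h₁ hs.le hη0.le (hl₁ l j₁) hϑ hϑl m).trans ha
  have s₂ := (NQGD2_int_soft h₂ hs.le hη0.le (hl₂ l j₂) hϑ hϑl m).trans ha
  have hE : (7 : ℝ) ^ (box m₀).card * (g * θ ^ 2 / Q) + 2 * g ≤ 3 * g := by
    rw [← hQ, mul_div_cancel₀ _ (by positivity)]
    linarith only [hθ1, hg0, hθ2, mul_nonneg_of_nonpos_of_nonpos (Mathlib.Tactic.Linarith.sub_nonpos_of_le hθ1) (le_of_lt (Mathlib.Tactic.Linarith.sub_neg_of_lt hg0)), mul_nonneg_of_nonpos_of_nonpos (Mathlib.Tactic.Linarith.sub_nonpos_of_le hθ2) (le_of_lt (Mathlib.Tactic.Linarith.sub_neg_of_lt hg0))]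
  have haQ : g * θ ^ 2 / Q ≤ g * θ ^ 2 := div_le_self (by positivity) hQ1
  filter_upwards [(tendsto_order.1 ht).2 (θ ^ 2 * (ε / 4)) (by positivity), eventually_ge_atTop m]
    with N hN hNm
  have hT := fun e (he : e ∈ D) f (hf : f ∈ D) => NQGD2_intT h₁ h₂
    (c := 2 * θ ^ 2 * ∑ e ∈ D, t e ^ 2) (local_M2 (box N) e.1 (oe f))
    (local_M2 (box N) f.1 (oe e)) (local_M2 (box m) e.1 (oe f)) (local_M2 (box m) f.1 (oe e))
    (NQGD2_erS_local s hm l ϑ e.1 (oe f)) (NQGD2_erS_local s hm l ϑ f.1 (oe e))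
    (by rw [← hS]; positivity) hg0.le (show 0 ≤ 3 * g by positivity)
    (integral_nonneg fun τ => M2_nonneg _ _ _ _) (c₂ f hf e he N)
    (integral_nonneg fun τ => M2_nonneg _ _ _ _) (c₁ e he f hf m)
    (integral_nonneg fun τ => M2_nonneg _ _ _ _) (c₂ f hf e he m)
    (gap₁ m (k₁.trans hm) e he f hf N) (gap₂ m (k₂.trans hm) f hf e he N)
    ((NQGD2_int_erS h₁ s s₁ (gap₁ m₀ k₁ e he f hf m)).trans hE)
    ((NQGD2_int_erS h₂ s s₂ (gap₂ m₀ k₂ f hf e he m)).trans hE)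
  have i0 : Integrable (fun p : Dimer × Dimer => max (-Kq (M2 (box N) p.1.1) (M2 (box N) p.2.1)
      D t - 2 * ∑ e ∈ D, t e ^ 2) 0) (ν₁.prod ν₂) := by
    refine Integrable.sup (Integrable.sub (Integrable.neg ?_) (integrable_const _))
      (integrable_const _)
    exact integrable_finsetSum _ fun e _ => integrable_finsetSum _ fun f _ =>
      (((local_M2 (box N) e.1 (oe f)).integrable ν₁).mul_prod
        ((local_M2 (box N) f.1 (oe e)).integrable ν₂)).const_mul _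
  have i1 : Integrable (fun p : Dimer × Dimer => max (gam2 (box N) (W2 (box m)
      (bT s D t m l θ ϑ K)) p.1.1 p.2.1 - β) 0) (ν₁.prod ν₂) :=
    Integrable.sup ((Meas_int2 (local2_gam2 (Λ := box N) (local2_W2 hM.loc_real)) _).sub
      (integrable_const _)) (integrable_const _)
  have lu := local_gam (Λ := box N) (NQGD2_soft_local s m l ϑ)
  have i2 := (lu.integrable ν₁).comp_fst ν₂
  have i3 := (lu.integrable ν₂).comp_snd ν₁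
  have i4 := fun e (he : e ∈ D) => integrable_finsetSum D fun f hf =>
    (hT e he f hf).1.const_mul |t e * t f|
  have i5 := integrable_finsetSum D i4
  have hmono := integral_mono (i0.const_mul (θ ^ 2))
    (((i1.add (integrable_const (β - 1))).add (i2.add i3)).add (i5.const_mul (θ ^ 2)))
    fun p => NQGD2_point s hD t l ϑ K h0 hNm (hDm m₀ le_rfl) hθt hβ1 p.1 p.2
  rw [integral_const_mul, integral_add' ((i1.add (integrable_const (β - 1))).add (i2.add i3))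
    (i5.const_mul (θ ^ 2)), integral_add' (i1.add (integrable_const (β - 1))) (i2.add i3),
    integral_add' i1 (integrable_const (β - 1)), integral_add' i2 i3, integral_const_mul,
    integral_finsetSum D i4,
    integral_fun_fst fun τ : Dimer =>
      gam (box N) (gam (box m) fun σ => 1 - softP s m l ϑ σ) τ.1,
    integral_fun_snd fun τ : Dimer =>
      gam (box N) (gam (box m) fun σ => 1 - softP s m l ϑ σ) τ.1,
    h₁.dlr (box N) _ _ (NQGD2_soft_local s m l ϑ),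
    h₂.dlr (box N) _ _ (NQGD2_soft_local s m l ϑ)] at hmono
  simp only [integral_const, probReal_univ, one_smul] at hmono
  have e1 : ∑ e ∈ D, ∫ p : Dimer × Dimer, ∑ f ∈ D, |t e * t f| *
      NQGD2_T (box N) (2 * θ ^ 2 * ∑ e ∈ D, t e ^ 2) (fun σ => M2 (box N) σ e.1 (oe f))
        (fun σ => M2 (box N) σ f.1 (oe e)) (fun σ => M2 (box m) σ e.1 (oe f))
        (fun σ => M2 (box m) σ f.1 (oe e)) (erS s m₀ m l ϑ e.1 (oe f))
        (erS s m₀ m l ϑ f.1 (oe e)) p.1.1 p.2.1 ∂(ν₁.prod ν₂) ≤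
      A * (2 * g * B + 2 * θ ^ 2 * S * B ^ 2 + 2 * (3 * g) * B) := by
    rw [hA, sum_mul]
    refine sum_le_sum fun e he => ?_
    rw [integral_finsetSum D fun f hf => (hT e he f hf).1.const_mul |t e * t f|, sum_mul]
    refine sum_le_sum fun f hf => ?_
    rw [integral_const_mul, hS]
    exact mul_le_mul_of_nonneg_left (hT e he f hf).2 (abs_nonneg _)
  have e2 := mul_le_mul_of_nonneg_left e1 hθp.le
  have e3 : Real.exp (-K) * θ ^ 2 * A ≤ g * θ ^ 2 * A :=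
    mul_le_mul_of_nonneg_right (mul_le_mul_of_nonneg_right hKg hθp.le) hA0
  have e4 := mul_le_mul_of_nonneg_left hθb hθp.le
  have e5 := mul_le_mul_of_nonneg_left hgε hθp.le
  have e6 : 0 < θ ^ 2 * ε := by positivity
  refine lt_of_mul_lt_mul_left (a := θ ^ 2) ?_ hθp.le
  linarith only [hβ, s₁, s₂, haQ, hN, hmono, e2, e3, e4, e5, e6]

end Pool.Agent.Work.MP_5cb0a4_pr.Z
end

-- merged part: Pool.Agent.Work.MP_5cb0a4_pr.N.TR2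
section
open MeasureTheory Finset Filter Topology
open scoped Classical

namespace Pool.Agent.Work.MP_5cb0a4_pr.Z

section
variable {X ι : Type} [MeasurableSpace X] {μ ν : Measure X} [IsProbabilityMeasure μ]
  [IsProbabilityMeasure ν] {s : Finset ι}

theorem NTR2_int (c : ι → ℝ) {a : ι → X → ℝ} (ha : ∀ i, Integrable (a i) μ) (r : ℝ) :
    Integrable (fun x => ∑ i ∈ s, c i * a i x - r) μ :=
  (integrable_finsetSum _ fun i _ => (ha i).const_mul _).sub (integrable_const _)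

theorem NTR2_one (c : ι → ℝ) {a : ι → X → ℝ} (ha : ∀ i, Integrable (a i) μ) (r : ℝ) :
    ∑ i ∈ s, c i * (∫ x, a i x ∂μ) - r ≤ ∫ x, max (∑ i ∈ s, c i * a i x - r) 0 ∂μ := by
  refine le_trans (le_of_eq ?_) (integral_mono (NTR2_int c ha r)
    ((NTR2_int c ha r).sup (integrable_const _)) fun x => le_max_left _ _)
  rw [integral_sub (integrable_finsetSum _ fun i _ => (ha i).const_mul _) (integrable_const _),
    integral_finsetSum _ fun i _ => (ha i).const_mul _]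
  simp only [integral_const_mul, integral_const, probReal_univ, one_smul]

theorem NTR2_two (c g : ι → ℝ) {a b : ι → X → ℝ} (ha : ∀ i, Integrable (a i) μ)
    (h0 : ∀ i x, 0 ≤ a i x) (hb : ∀ i, Integrable (b i) ν) (r : ℝ) :
    ∫ x, max (∑ i ∈ s, c i * (a i x * g i) - r) 0 ∂μ ≤
      ∫ p, max (∑ i ∈ s, c i * (a i p.1 * b i p.2) - r) 0 ∂(μ.prod ν) +
        ∑ i ∈ s, |c i| * |g i - ∫ y, b i y ∂ν| * ∫ x, a i x ∂μ := by
  have h1 : Integrable (fun p : X × X => max (∑ i ∈ s, c i * (a i p.1 * b i p.2) - r) 0)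
      (μ.prod ν) :=
    (NTR2_int (s := s) c (a := fun i (p : X × X) => a i p.1 * b i p.2)
      (fun i => (ha i).mul_prod (hb i)) r).pos_part
  have h2 : ∀ i ∈ s, Integrable (fun x => |c i| * |g i - ∫ y, b i y ∂ν| * a i x) μ :=
    fun i _ => (ha i).const_mul _
  simp only [← integral_const_mul]
  rw [integral_prod _ h1, ← integral_finsetSum _ h2,
    ← integral_add h1.integral_prod_left (integrable_finsetSum _ h2)]
  refine integral_mono ((NTR2_int c (a := fun i x => a i x * g i)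
    (fun i => (ha i).mul_const _) r).sup (integrable_const _))
    (h1.integral_prod_left.add (integrable_finsetSum _ h2)) fun x => max_le ?_ ?_
  · have h3 := NTR2_one (s := s) (fun i => c i * a i x) hb r
    have h4 : ∑ i ∈ s, c i * (a i x * g i) ≤ ∑ i ∈ s, c i * a i x * (∫ y, b i y ∂ν) +
        ∑ i ∈ s, |c i| * |g i - ∫ y, b i y ∂ν| * a i x := by
      rw [← sum_add_distrib]
      refine sum_le_sum fun i _ => ?_
      have := mul_le_mul_of_nonneg_right (le_abs_self (c i * (g i - ∫ y, b i y ∂ν))) (h0 i x)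
      rw [abs_mul] at this
      linarith only [this]
    simp only [mul_assoc] at h3 h4 ⊢
    linarith
  · exact add_nonneg (integral_nonneg fun _ => le_max_right _ _)
      (sum_nonneg fun i _ => mul_nonneg (by positivity) (h0 i x))

end

theorem NTR2_Kq (G G' : V → V → ℝ) (D : Finset (V × Dir)) (t : V × Dir → ℝ) :
    -Kq G G' D t = ∑ i ∈ D ×ˢ D, -(t i.1 * t i.2) * (G i.1.1 (oe i.2) * G' i.2.1 (oe i.1)) := by
  simp only [Kq, sum_product, neg_mul, sum_neg_distrib]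

theorem NTR2_odd {e : V × Dir} (he : IsEven e.1) : ¬ IsEven (oe e) :=
  fun h => isEven_add_dv.1 h he

theorem NTR2_gam (Λ : Finset V) {g : (V → V) → ℝ} (h : ∀ ρ, 0 ≤ g ρ) (σ : V → V) : 0 ≤ gam Λ g σ :=
  div_nonneg (sum_nonneg fun ρ _ => h ρ) (Nat.cast_nonneg _)

/-- Jensen's inequality in the second copy. -/
theorem tr_of {ν₁ ν₂ : Measure Dimer} (h₁ : IM ν₁) (h₂ : IM ν₂) (hlp : LP2 ν₁ ν₂)
    (p₁ : FinPos ν₁) (p₂ : FinPos ν₂) {s : Fin 3 → ℝ} (hs : n1 s < 1) (f₁ : FluxAt ν₁ s)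
    (f₂ : FluxAt ν₂ s) : TR ν₁ ν₂ := by
  have := h₁.prob
  have := h₂.prob
  refine ⟨fun D hD t => ?_, fun e f he hf => ?_⟩
  · have h1 := qgd2 h₁ h₂ hlp p₁ p₂ hs f₁ f₂ D hD t
    have h2 := tendsto_finsetSum (D ×ˢ D) fun i hi =>
      (((tendsto_Gbar h₂ p₂ (hD _ (mem_product.1 hi).2)
        (NTR2_odd (hD _ (mem_product.1 hi).1))).const_sub (Gbar ν₂ (oe i.1 - i.2.1))).abs.const_mul
          |-(t i.1 * t i.2)|).mul (tendsto_Gbar h₁ p₁ (hD _ (mem_product.1 hi).1)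
            (NTR2_odd (hD _ (mem_product.1 hi).2)))
    have h3 := h1.add h2
    simp only [sub_self, abs_zero, mul_zero, zero_mul, sum_const_zero, add_zero] at h3
    refine squeeze_zero (fun N => integral_nonneg fun _ => le_max_right _ _) (fun N => ?_) h3
    simp only [NTR2_Kq]
    exact NTR2_two _ _ (fun i => (local_M2 _ _ _).integrable _) (fun i x => M2_nonneg _ _ _ _)
      (fun i => (local_M2 _ _ _).integrable _) _
  have t₁ := tendsto_Gbar h₁ p₁ he (NTR2_odd hf)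
  have t₂ := tendsto_Gbar h₂ p₂ hf (NTR2_odd he)
  have g0 := Gbar_nonneg ν₂ (oe e - f.1)
  have h1 := ((t₂.const_sub (Gbar ν₂ (oe e - f.1))).abs.mul t₁).add
    ((t₁.const_sub (Gbar ν₁ (oe f - e.1))).mul_const (Gbar ν₂ (oe e - f.1)))
  simp only [sub_self, abs_zero, zero_mul, add_zero] at h1
  refine tendsto_order.2 ⟨fun a ha => Eventually.of_forall fun N =>
    ha.trans_le (integral_nonneg fun _ => le_max_right _ _), fun a ha => ?_⟩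
  obtain ⟨m, hm⟩ := (h1.eventually (gt_mem_nhds (half_pos ha))).exists
  filter_upwards [(forced h₁ h₂ hlp m he hf).eventually (gt_mem_nhds (half_pos ha)),
    eventually_ge_atTop m] with N hN hmN
  have i₁ := (local_gam (Λ := box N) (local_M2 (box m) e.1 (oe f))).integrable ν₁
  have i₂ := (local_gam (Λ := box N) (local_M2 (box m) f.1 (oe e))).integrable ν₂
  have i₃ := (local_M2 (box N) e.1 (oe f)).integrable ν₁
  have h2 := NTR2_two (s := {()}) (fun _ => 1) (fun _ => Gbar ν₂ (oe e - f.1)) (fun _ => i₁)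
    (fun _ _ => NTR2_gam _ (fun _ => M2_nonneg _ _ _ _) _) (fun _ => i₂) 1
  simp only [sum_singleton, one_mul, abs_one, h₁.dlr _ _ _ (local_M2 (box m) e.1 (oe f)),
    h₂.dlr _ _ _ (local_M2 (box m) f.1 (oe e))] at h2
  have i₄ := ((i₁.mul_const (Gbar ν₂ (oe e - f.1))).sub (integrable_const 1)).sup
    (integrable_const 0)
  have i₅ := (i₃.sub i₁).mul_const (Gbar ν₂ (oe e - f.1))
  have h3 := integral_mono (((i₃.mul_const (Gbar ν₂ (oe e - f.1))).sub (integrable_const 1)).sup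
    (integrable_const 0)) (i₄.add i₅) fun τ => by
      have k := mul_nonneg (sub_nonneg.2 (gam_Mr_le hmN τ.1 {e.1, oe f})) g0
      simp only [Pi.add_apply, Pi.sup_apply, Pi.sub_apply, M2]
      refine max_le ?_ (add_nonneg (le_max_right _ _) k)
      linarith only [le_max_left (gam (box N) (fun ρ => Mr (box m) ρ {e.1, oe f}) τ.1 *
        Gbar ν₂ (oe e - f.1) - 1) 0]
  rw [integral_add' i₄ i₅, integral_mul_const, integral_sub' i₃ i₁,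
    h₁.dlr _ _ _ (local_M2 (box m) e.1 (oe f))] at h3
  have h4 := mul_le_mul_of_nonneg_right (le_Gbar h₁ p₁ he (NTR2_odd hf) N) g0
  refine lt_of_le_of_lt h3 ?_
  refine lt_of_le_of_lt (add_le_add h2 le_rfl) ?_
  linarith only [hm, hN, h4]

theorem TR.psd_bar {ν₁ ν₂ : Measure Dimer} (h : TR ν₁ ν₂) (h₁ : IM ν₁) (p₁ : FinPos ν₁) :
    PSD (TG (Gbar ν₁)) (TG (Gbar ν₂)) 2 := by
  have := h₁.prob
  intro D hD t
  have h1 := (tendsto_finsetSum (D ×ˢ D) fun i hi =>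
    ((tendsto_Gbar h₁ p₁ (hD _ (mem_product.1 hi).1)
      (NTR2_odd (hD _ (mem_product.1 hi).2))).mul_const (TG (Gbar ν₂) i.2.1 (oe i.1))).const_mul
        (-(t i.1 * t i.2))).sub_const (2 * ∑ e ∈ D, t e ^ 2)
  have h2 := le_of_tendsto_of_tendsto' h1 (h.psd D hD t) fun N => by
    simp only [NTR2_Kq, ← integral_mul_const]
    exact NTR2_one _ (fun i => ((local_M2 _ _ _).integrable _).mul_const _) _
  have h3 := NTR2_Kq (TG (Gbar ν₁)) (TG (Gbar ν₂)) D t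
  simp only [TG] at h2 h3 ⊢
  linarith

theorem TR.le_bar {ν₁ ν₂ : Measure Dimer} (h : TR ν₁ ν₂) (h₁ : IM ν₁) (p₁ : FinPos ν₁) {w : V}
    (hw : ¬ IsEven w) : Gbar ν₁ w * Gbar ν₂ (e0 + e0 - w) ≤ 1 := by
  have := h₁.prob
  have e1 : oe (w - e0, (0, true)) = w := by rw [oe, ← e0_eq, sub_add_cancel]
  have e2 : oe (0, (0, true)) - (w - e0) = e0 + e0 - w := by
    rw [oe, ← e0_eq, zero_add]
    abel
  have h0 : IsEven (0 : V) := by simp [IsEven]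
  have h1 := h.le (0, (0, true)) (w - e0, (0, true)) h0
    (not_not.1 fun k => hw (e1 ▸ isEven_add_dv.2 k))
  simp only [e1, e2] at h1
  have h2 := le_of_tendsto_of_tendsto' (((tendsto_Gbar h₁ p₁ h0 hw).mul_const
    (Gbar ν₂ (e0 + e0 - w))).sub_const 1) h1 fun N => by
      have k := NTR2_one (s := {()}) (fun _ => 1) (fun _ =>
        ((local_M2 (box N) 0 w).integrable ν₁).mul_const (Gbar ν₂ (e0 + e0 - w))) 1
      simpa only [sum_singleton, one_mul, integral_mul_const] using k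
  rw [sub_zero] at h2
  linarith

end Pool.Agent.Work.MP_5cb0a4_pr.Z
end
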