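import Pool.Agent.Work.MP_5cb0a4_pr.N.Posi
import Pool.Agent.Work.MP_5cb0a4_pr.Z.Paths
import Pool.Agent.Work.MP_5cb0a4_pr.Z.State3
import Pool.Agent.Work.MP_5cb0a4_pr.N.QGDKa
import Pool.Agent.Work.MP_5cb0a4_pr.N.Gauge
import Pool.Agent.Work.MP_5cb0a4_pr.N.CaseB
import Pool.Agent.Work.MP_5cb0a4_pr.N.LPK
import Pool.Agent.Work.MP_5cb0a4_pr.N.LP2
import Pool.Agent.Work.MP_5cb0a4_pr.N.TR2
import Pool.Agent.Work.MP_5cb0a4_pr.N.Ind
import Pool.Agent.Work.MP_5cb0a4_pr.N.Exact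
import Pool.Agent.Work.MP_5cb0a4_pr.Z.Harm
import Pool.Agent.Work.MP_5cb0a4_pr.Z.Ergo
import Pool.Agent.Work.MP_5cb0a4_pr.N.TransK

-- merged part: Pool.Agent.Work.MP_5cb0a4_pr.Z.Limit
section
open MeasureTheory Finset MvPolynomial Filter Topology

namespace Pool.Agent.Work.MP_5cb0a4_pr.Z

theorem Limit_sub {Ω ι : Type} [MeasurableSpace Ω] [Countable ι] [Nonempty ι] (ν : Measure Ω)
    (f : ι → ℕ → Ω → ℝ) (h0 : ∀ i N τ, 0 ≤ f i N τ) (hi : ∀ i N, Integrable (f i N) ν)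
    (h : ∀ i, Tendsto (fun N => ∫ τ, f i N τ ∂ν) atTop (𝓝 0)) :
    ∃ φ : ℕ → ℕ, StrictMono φ ∧ ∀ᵐ τ ∂ν, ∀ i, Tendsto (fun j => f i (φ j) τ) atTop (𝓝 0) := by
  obtain ⟨e, he⟩ := exists_surjective_nat ι
  obtain ⟨φ, hφ, hb⟩ := extraction_forall_of_eventually
    (P := fun j N => ∀ k ∈ range (j + 1), ∫ τ, f (e k) N τ ∂ν ≤ (1 / 2) ^ j) fun j =>
    (eventually_all_finset _).2 fun k _ => (h (e k)).eventually (ge_mem_nhds (by positivity))
  refine ⟨φ, hφ, ae_all_iff.2 fun i => ?_⟩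
  obtain ⟨k, rfl⟩ := he i
  have hs : Summable fun j => ∫ τ, f (e k) (φ j) τ ∂ν :=
    summable_geometric_two.of_norm_bounded_eventually_nat
      ((eventually_ge_atTop k).mono fun j hj => by
        rw [Real.norm_of_nonneg (integral_nonneg (h0 _ _))]
        exact hb j k (mem_range.2 (by omega)))
  have hm : ∀ j, AEMeasurable (fun τ => ENNReal.ofReal (f (e k) (φ j) τ)) ν := fun j =>
    (hi _ _).aemeasurable.ennreal_ofReal
  have h1 : ∫⁻ τ, ∑' j, ENNReal.ofReal (f (e k) (φ j) τ) ∂ν ≠ ⊤ := by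
    rw [lintegral_tsum hm]
    simp only [← ofReal_integral_eq_lintegral_ofReal (hi _ _) (.of_forall (h0 _ _))]
    exact hs.tsum_ofReal_ne_top
  filter_upwards [ae_lt_top' (AEMeasurable.tsum hm) h1] with τ hτ
  have := (ENNReal.tendsto_toReal ENNReal.zero_ne_top).comp
    (ENNReal.tendsto_atTop_zero_of_tsum_ne_top hτ.ne)
  simpa [Function.comp_def, h0] using this

/-- The matrix unit. -/
noncomputable def Limit_U : Edge → Bool → Bool → ℝ :=
  fun _ i j => if i = true ∧ j = false then 1 else 0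

theorem Limit_contr (e : Edge) : ContrR (Limit_U e) := fun u v => by
  simp only [Limit_U, Fintype.sum_bool]
  simp only [Bool.true_eq_false, Bool.false_eq_true, and_false, and_true, if_false,
    if_true, Complex.ofReal_zero, Complex.ofReal_one, mul_zero, zero_mul, zero_add, add_zero,
    mul_one, norm_mul, mul_pow]
  exact mul_le_mul (le_add_of_nonneg_right (sq_nonneg _)) (le_add_of_nonneg_left (sq_nonneg _))
    (sq_nonneg _) (by positivity)

theorem Limit_unit (X : Finset V) (G : Finset V → ℝ) :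
    Ysum (X.image fun x => ((x, 0) : Edge)) Limit_U G = G X := by
  have h : X ∈ (verts (X.image fun x => ((x, 0) : Edge))).powerset :=
    mem_powerset.2 fun x hx => mem_union_left _ (mem_image.2 ⟨(x, 0), mem_image_of_mem _ hx, rfl⟩)
  have e := fun Y => cX_unit (R := ℝ) X Y
  unfold Ysum Limit_U
  simp only [e, ite_mul, one_mul, zero_mul]
  rw [sum_ite_eq', if_pos h]

theorem Limit_box (x : V) : ∀ᶠ N in atTop, x ∈ box N :=
  (eventually_ge_atTop (∑ i, (x i).natAbs)).mono fun N hN => mem_box.2 fun i => by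
    have := single_le_sum (f := fun i => (x i).natAbs) (fun _ _ => Nat.zero_le _) (mem_univ i)
    omega

theorem Limit_dense {α : Type} [TopologicalSpace α] [SecondCountableTopology α] (s : Set α) :
    ∃ t : Set α, t.Countable ∧ t ⊆ s ∧ s ⊆ closure t :=
  let ⟨t, h1, h2⟩ := TopologicalSpace.exists_countable_dense s
  ⟨(↑) '' t, h1.image _, Subtype.coe_image_subset s t, Subtype.dense_iff.1 h2⟩

/-- Along a subsequence, almost surely every limit of the monomer correlations is a state. -/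
theorem limit_states {ν₁ ν₂ : Measure Dimer} (h₁ : EG0 ν₁) (h₂ : EG0 ν₂) :
    ∃ φ : ℕ → ℕ, StrictMono φ ∧ ∀ ν, ν = ν₁ ∨ ν = ν₂ → ∀ᵐ τ ∂ν, ∀ 𝒰 : Ultrafilter ℕ,
      (𝒰 : Filter ℕ) ≤ atTop → ∃ G, IsState G ∧
        ∀ X, Tendsto (fun j => Mr (box (φ j)) τ.1 X) (𝒰 : Filter ℕ) (𝓝 (G X)) := by
  have := h₁.eg.prob
  have := h₂.eg.prob
  choose t t1 t2 t3 using fun D : Finset Edge => Limit_dense
    {M : Edge → Bool → Bool → ℝ | ∀ e ∈ D, ContrR (M e)}
  have c : ∀ D, Countable (insert Limit_U (t D) : Set _) := fun D => (t1 D).insert _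
  have hi : ∀ (D : Finset Edge) (M : Edge → Bool → Bool → ℝ) (N : ℕ) (ν : Measure Dimer)
      [IsFiniteMeasure ν], Integrable (fun τ : Dimer =>
        max (Ysum D M (Mr (box N) τ.1) - 1) 0) ν := fun D M N ν _ =>
    Local.integrable (Λ := box N) (g := fun σ => max (Ysum D M (Mr (box N) σ) - 1) 0)
      (fun σ σ' a b h => congrArg (fun G => max (Ysum D M G - 1) 0)
        (funext fun X => local_Mr _ X σ σ' a b h)) ν
  have ne : Nonempty (Σ D : Finset Edge, (insert Limit_U (t D) : Set _)) :=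
    ⟨⟨∅, _, Set.mem_insert _ _⟩⟩
  obtain ⟨φ, hφ, h⟩ := Limit_sub (ι := Σ D : Finset Edge, (insert Limit_U (t D) : Set _))
    (ν₁ + ν₂) (fun i N τ => max (Ysum i.1 i.2.1 (Mr (box N) τ.1) - 1) 0)
    (fun _ _ _ => le_max_right _ _) (fun _ _ => hi _ _ _ _) fun ⟨D, M, hM⟩ => by
      have hM : ∀ e ∈ D, ContrR (M e) := by
        rcases hM with rfl | hM
        · exact fun e _ => Limit_contr e
        · exact t2 D hM
      simp only [integral_add_measure (hi _ _ _ ν₁) (hi _ _ _ ν₂)]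
      simpa using (qgd h₁ D M hM).add (qgd h₂ D M hM)
  refine ⟨φ, hφ, fun ν hν => ?_⟩
  have hle : ν ≤ ν₁ + ν₂ := by
    rcases hν with rfl | rfl
    exacts [Measure.le_add_right le_rfl, Measure.le_add_left le_rfl]
  refine Eventually.mono (ae_mono hle h) fun τ h 𝒰 hU => ?_
  have ex : ∀ X, ∃ g, Tendsto (fun j => Mr (box (φ j)) τ.1 X) (𝒰 : Filter ℕ) (𝓝 g) := fun X => by
    have e := (h ⟨X.image fun x => ((x, 0) : Edge), _, Set.mem_insert _ _⟩).eventually
      (ge_mem_nhds one_pos)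
    obtain ⟨g, -, hg⟩ := (isCompact_Icc (a := (0 : ℝ)) (b := 2)).ultrafilter_le_nhds
      (𝒰.map fun j => Mr (box (φ j)) τ.1 X) (le_principal_iff.2 (hU (e.mono fun j hj => by
        simp only [Limit_unit] at hj
        exact ⟨Mr_nonneg _ _ _, by linarith [le_max_left (Mr (box (φ j)) τ.1 X - 1) 0]⟩)))
    exact ⟨g, hg⟩
  choose G hG using ex
  have z := fun j => zz_dimer_pos (box (φ j)) τ
  have hY : ∀ D M, Tendsto (fun j => Ysum D M (Mr (box (φ j)) τ.1)) (𝒰 : Filter ℕ)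
      (𝓝 (Ysum D M G)) := fun D M => tendsto_finsetSum _ fun X _ => (hG X).const_mul _
  refine ⟨G, ⟨?_, fun X => ge_of_tendsto' (hG X) fun _ => Mr_nonneg _ _ _, fun X hX => ?_,
    fun x => ?_, fun X Y x a b c d => ?_, fun D M hM => ?_⟩, hG⟩
  · exact tendsto_nhds_unique (hG ∅) (by simp only [Mr_empty (z _)]; exact tendsto_const_nhds)
  · obtain ⟨j, hj⟩ := ((hG X).eventually_ne hX).exists
    exact Mr_neutral hj
  · refine tendsto_nhds_unique (tendsto_finsetSum _ fun d _ => hG _)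
      (tendsto_const_nhds.congr' (hU ?_))
    filter_upwards [hφ.tendsto_atTop.eventually (Limit_box x), hφ.tendsto_atTop.eventually
      (eventually_all.2 fun d : Dir => Limit_box (x + dv d))] with j a b
    exact (Mr_sum (z j) a b).symm
  · exact le_of_tendsto_of_tendsto' (hG _) (tendsto_finsetSum _ fun y _ => (hG _).mul (hG _))
      fun j => Mr_switch _ _ X Y x a b c d
  · refine closure_minimal (t := {M | Ysum D M G ≤ 1}) (fun M hM => ?_) (isClosed_le
      (continuous_finsetSum _ fun X _ => (continuous_cX D X).mul continuous_const)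
      continuous_const) (t3 D hM)
    have e := tendsto_nhds_unique ((((hY D M).sub_const 1).max tendsto_const_nhds))
      ((h ⟨D, M, Set.mem_insert_of_mem _ hM⟩).mono_left hU)
    have := le_max_left (Ysum D M G - 1) 0
    change Ysum D M G ≤ 1
    linarith

end Pool.Agent.Work.MP_5cb0a4_pr.Z
end

-- merged part: Pool.Agent.Work.MP_5cb0a4_pr.Z.State4
section
open MeasureTheory Finset MvPolynomial Filter Topology

namespace Pool.Agent.Work.MP_5cb0a4_pr.Z

theorem State4_avg {ι α : Type} [Fintype ι] [DecidableEq ι] (A : ι → Finset α) (i : ι)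
    (g : (ι → α) → ℝ) : (A i).card * ∑ t ∈ Fintype.piFinset A, g t =
      ∑ t ∈ Fintype.piFinset A, ∑ v ∈ A i, g (Function.update t i v) := by
  have hm : ∀ q ∈ Fintype.piFinset A ×ˢ A i,
      (Function.update q.1 i q.2, q.1 i) ∈ Fintype.piFinset A ×ˢ A i := fun q hq => by
    obtain ⟨h1, h2⟩ := mem_product.1 hq
    refine mem_product.2 ⟨Fintype.mem_piFinset.2 fun j => ?_, Fintype.mem_piFinset.1 h1 i⟩
    rcases eq_or_ne j i with rfl | h
    · simpa using h2
    · simpa [h] using Fintype.mem_piFinset.1 h1 j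
  rw [mul_sum, sum_congr rfl fun t _ => (nsmul_eq_mul _ _).symm.trans (sum_const (g t)).symm,
    ← sum_product', ← sum_product']
  exact sum_nbij' (fun q => (Function.update q.1 i q.2, q.1 i))
    (fun q => (Function.update q.1 i q.2, q.1 i)) hm hm (fun q _ => by simp) (fun q _ => by simp)
    fun q _ => by simp

theorem State4_hyb {ι α : Type} [Fintype ι] [DecidableEq ι] (A A' : ι → Finset α)
    (F : (ι → α) → ℝ) {ε : ℝ} (hA : ∀ i, 0 < (A i).card) (hA' : ∀ i, 0 < (A' i).card)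
    (h : ∀ i t, ∑ v ∈ A i, ∑ v' ∈ A' i, |F (Function.update t i v) - F (Function.update t i v')| ≤
      ε * (A i).card * (A' i).card) (s : Finset ι) :
    ∑ t ∈ Fintype.piFinset A, ∑ t' ∈ Fintype.piFinset A', |F t - F (s.piecewise t' t)| ≤
      s.card * ε * ((Fintype.piFinset A).card * (Fintype.piFinset A').card) := by
  induction s using Finset.induction_on with
  | empty => simp
  | insert i s hi ih =>
    have e1 : ∀ (t t' : ι → α) v v', s.piecewise (Function.update t' i v') (Function.update t i v) =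
        Function.update (s.piecewise t' t) i v := fun t t' v v' => funext fun j => by
      rcases eq_or_ne j i with rfl | hj
      · simp [hi]
      · simp [piecewise, hj]
    have e2 : ∀ (t t' : ι → α) v v',
        (insert i s).piecewise (Function.update t' i v') (Function.update t i v) =
        Function.update (s.piecewise t' t) i v' := fun t t' v v' => funext fun j => by
      rcases eq_or_ne j i with rfl | hj
      · simp
      · simp [piecewise, hj]
    have k1 : ((A i).card : ℝ) * ((A' i).card * ∑ t ∈ Fintype.piFinset A,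
        ∑ t' ∈ Fintype.piFinset A', |F (s.piecewise t' t) - F ((insert i s).piecewise t' t)|) ≤
        (A i).card * ((A' i).card *
          (ε * ((Fintype.piFinset A).card * (Fintype.piFinset A').card))) := by
      rw [mul_sum, sum_congr rfl fun t _ => State4_avg A' i _, State4_avg A i]
      simp only [e1, e2]
      refine (sum_le_sum fun t _ => sum_comm.le.trans (sum_le_sum fun t' _ => h i _)).trans_eq ?_
      simp only [sum_const, nsmul_eq_mul]
      ring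
    have k2 := le_of_mul_le_mul_left (le_of_mul_le_mul_left k1 (Nat.cast_pos.2 (hA i)))
      (Nat.cast_pos.2 (hA' i))
    refine (sum_le_sum fun t _ => sum_le_sum fun t' _ =>
      abs_sub_le _ (F (s.piecewise t' t)) _).trans ?_
    simp only [sum_add_distrib]
    rw [card_insert_of_notMem hi]
    push_cast
    linarith

theorem State4_comm {k : ℕ} (G : Finset V → ℝ) (x y : Fin k → V) : Gam G x y = Gam G y x := by
  simp only [Gam, and_comm, union_comm]

theorem State4_mem {k : ℕ} {G : Finset V → ℝ} (h : IsState G) (x y : Fin k → V) :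
    0 ≤ Gam G x y ∧ Gam G x y ≤ 1 := by
  unfold Gam
  split_ifs
  exacts [⟨h.nonneg _, h.le_one _⟩, ⟨le_rfl, zero_le_one⟩]

/-- The dependence on one coordinate. -/
theorem State4_coord {k : ℕ} {G : Finset V → ℝ} (h : IsState G) (b : Prop) (x y : Fin k → V)
    (i : Fin k) : ∃ φ : V → ℝ, Energy b φ ∧ (∀ v, 0 ≤ φ v ∧ φ v ≤ 1) ∧
      ∀ v, (∀ j, y j ≠ v) → Gam G (Function.update x i v) y = φ v := by
  by_cases hc : (∃ v, Function.Injective (Function.update x i v)) ∧ Function.Injective y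
  · obtain ⟨⟨v₀, h0⟩, hy⟩ := hc
    refine ⟨_, h.energy ((univ.erase i).image x ∪ univ.image y) b, fun v => ?_, fun v hv => ?_⟩
    · split_ifs
      exacts [⟨le_rfl, zero_le_one⟩, ⟨h.nonneg _, h.le_one _⟩]
    · by_cases hm : v ∈ (univ.erase i).image x
      · obtain ⟨j, hj, e⟩ := mem_image.1 hm
        rw [if_pos (mem_union_left _ hm)]
        refine if_neg fun hi => ne_of_mem_erase hj (hi.1 ?_)
        rw [Function.update_self, Function.update_of_ne (ne_of_mem_erase hj), e]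
      · have h1 : ∀ j, j ≠ i → x j ≠ v := fun j hj e =>
          hm (mem_image.2 ⟨j, mem_erase.2 ⟨hj, mem_univ _⟩, e⟩)
        have h2 : Function.Injective (Function.update x i v) := fun j j' e => by
          by_cases hj : j = i <;> by_cases hj' : j' = i
          · exact hj.trans hj'.symm
          · rw [hj, Function.update_self, Function.update_of_ne hj'] at e
            exact absurd e.symm (h1 _ hj')
          · rw [hj', Function.update_self, Function.update_of_ne hj] at e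
            exact absurd e (h1 _ hj)
          · refine h0 ?_
            rwa [Function.update_of_ne hj, Function.update_of_ne hj'] at e ⊢
        rw [if_neg (notMem_union.2 ⟨hm, by simpa using hv⟩), Gam, if_pos ⟨h2, hy⟩, ← insert_union]
        congr 2
        conv_lhs => rw [← insert_erase (mem_univ i), image_insert, Function.update_self]
        exact congrArg _ (image_congr fun j hj => Function.update_of_ne (ne_of_mem_erase hj) _ _)
  · exact ⟨fun _ => 0, fun Y _ => by simp, fun _ => ⟨le_rfl, zero_le_one⟩, fun v _ =>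
      if_neg fun hi => hc ⟨⟨v, hi.1⟩, hi.2⟩⟩

/-- Tuples with values in `U`. -/
abbrev State4_P (k : ℕ) (U : Finset V) : Finset (Fin k → V) := Fintype.piFinset fun _ => U

theorem State4_card (k : ℕ) (U : Finset V) : ((State4_P k U).card : ℝ) = (U.card : ℝ) ^ k := by
  simp

section close

variable {k K : ℕ} {ε : ℝ} {G : Finset V → ℝ} (hK1 : 1 ≤ K)
  (hK : ∀ (b : Prop) (φ : V → ℝ), Energy b φ → (∀ x, 0 ≤ φ x ∧ φ x ≤ 1) →
    ∀ A A' : Finset V, (∀ x ∈ A, ¬ IsEven x ↔ b) → (∀ x ∈ A', ¬ IsEven x ↔ b) →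
      K ≤ A.card → K ≤ A'.card → ∑ x ∈ A, ∑ x' ∈ A', |φ x - φ x'| ≤ ε * A.card * A'.card)
  (h : IsState G)

include hK1 hK h

theorem State4_one {b : Prop} {A A' : Finset V} (hA : ∀ x ∈ A, ¬ IsEven x ↔ b)
    (hA' : ∀ x ∈ A', ¬ IsEven x ↔ b) (c : K ≤ A.card) (c' : K ≤ A'.card) {y : Fin k → V}
    (hy : ∀ j, IsEven (y j) ↔ b) :
    ∑ x ∈ State4_P k A, ∑ x' ∈ State4_P k A', |Gam G x y - Gam G x' y| ≤
      k * ε * ((State4_P k A).card * (State4_P k A').card) := by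
  have := State4_hyb (fun _ : Fin k => A) (fun _ => A') (fun x => Gam G x y) (ε := ε)
    (fun _ => hK1.trans c) (fun _ => hK1.trans c') (fun i t => by
      obtain ⟨φ, h1, h2, h3⟩ := State4_coord h b t y i
      have h4 : ∀ v, (¬ IsEven v ↔ b) → ∀ j, y j ≠ v := fun v hv j e => by
        have := hy j
        rw [e] at this
        tauto
      refine le_of_eq_of_le (sum_congr rfl fun v hv => sum_congr rfl fun v' hv' => ?_)
        (hK b φ h1 h2 A A' hA hA' c c')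
      rw [h3 v (h4 v (hA v hv)), h3 v' (h4 v' (hA' v' hv'))]) univ
  simpa only [piecewise_univ, card_univ, Fintype.card_fin] using this

theorem State4_two {U U' W W' : Finset V} (hU : ∀ x ∈ U, IsEven x) (hU' : ∀ x ∈ U', IsEven x)
    (hW : ∀ x ∈ W, ¬ IsEven x) (hW' : ∀ x ∈ W', ¬ IsEven x) (c : K ≤ U.card) (c' : K ≤ U'.card)
    (d : K ≤ W.card) (d' : K ≤ W'.card) :
    ∑ x ∈ State4_P k U, ∑ y ∈ State4_P k W, ∑ x' ∈ State4_P k U', ∑ y' ∈ State4_P k W',
      |Gam G x y - Gam G x' y'| ≤ 2 * k * ε * ((U.card : ℝ) ^ k * (W.card : ℝ) ^ k) *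
        ((U'.card : ℝ) ^ k * (W'.card : ℝ) ^ k) := by
  have h1 : ∑ y ∈ State4_P k W, ∑ x ∈ State4_P k U, ∑ x' ∈ State4_P k U',
      |Gam G x y - Gam G x' y| ≤ _ := sum_le_sum fun y hy =>
    State4_one hK1 hK h (b := False) (fun x hx => by simp [hU x hx]) (fun x hx => by simp [hU' x hx])
      c c' fun j => by simp [hW _ (Fintype.mem_piFinset.1 hy j)]
  have h2 : ∑ x' ∈ State4_P k U', ∑ y ∈ State4_P k W, ∑ y' ∈ State4_P k W',
      |Gam G x' y - Gam G x' y'| ≤ _ := sum_le_sum fun x' hx' => le_of_eq_of_le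
    (by simp only [State4_comm G x']) (State4_one hK1 hK h (b := True) (y := x')
      (fun x hx => by simp [hW x hx]) (fun x hx => by simp [hW' x hx])
      d d' fun j => by simp [hU' _ (Fintype.mem_piFinset.1 hx' j)])
  rw [sum_comm] at h1 h2
  refine (sum_le_sum fun x _ => sum_le_sum fun y _ => sum_le_sum fun x' _ => sum_le_sum fun y' _ =>
    abs_sub_le _ (Gam G x' y) _).trans ?_
  simp only [sum_add_distrib, sum_const, nsmul_eq_mul, ← mul_sum, State4_card] at h1 h2 ⊢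
  have h3 := mul_le_mul_of_nonneg_left h1 (by positivity : 0 ≤ (W'.card : ℝ) ^ k)
  have h4 := mul_le_mul_of_nonneg_left h2 (by positivity : 0 ≤ (U.card : ℝ) ^ k)
  linarith

end close

theorem State4_ref {k : ℕ} (U : Finset V) {g : Finset V → ℝ} (hg : ∀ A, 0 ≤ g A) :
    ∑ A ∈ powersetCard k U, g A ≤
      ∑ x ∈ (State4_P k U).filter Function.Injective, g (univ.image x) := by
  refine le_trans (sum_le_sum_of_subset_of_nonneg (fun A hA => ?_) fun A _ _ => hg A)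
    (sum_image_le_of_nonneg fun A _ => hg A)
  obtain ⟨h1, h2⟩ := mem_powersetCard.1 hA
  refine mem_image.2 ⟨fun i => (A.equivFinOfCardEq h2).symm i, mem_filter.2
    ⟨Fintype.mem_piFinset.2 fun i => h1 (Subtype.mem _),
      Subtype.val_injective.comp (Equiv.injective _)⟩, ?_⟩
  ext v
  simp only [mem_image, mem_univ, true_and]
  exact ⟨fun ⟨i, e⟩ => e ▸ Subtype.mem _, fun hv => ⟨A.equivFinOfCardEq h2 ⟨v, hv⟩, by simp⟩⟩

theorem State4_ref2 {k : ℕ} {G : Finset V → ℝ} (h : IsState G) (U W : Finset V) :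
    ∑ A ∈ powersetCard k U, ∑ B ∈ powersetCard k W, G (A ∪ B) ≤
      ∑ x ∈ State4_P k U, ∑ y ∈ State4_P k W, Gam G x y := by
  refine (State4_ref U fun A => sum_nonneg fun B _ => h.nonneg _).trans
    (le_trans (sum_le_sum fun x hx => ?_) (sum_le_sum_of_subset_of_nonneg (filter_subset _ _)
      fun x _ _ => sum_nonneg fun y _ => (State4_mem h x y).1))
  refine (State4_ref W fun B => h.nonneg _).trans
    (le_trans (sum_le_sum fun y hy => ?_) (sum_le_sum_of_subset_of_nonneg (filter_subset _ _)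
      fun y _ _ => (State4_mem h x y).1))
  rw [Gam, if_pos ⟨(mem_filter.1 hx).2, (mem_filter.1 hy).2⟩]

theorem State4_tr {k : ℕ} (U : Finset V) (g : (Fin k → V) → ℝ) :
    ∑ x ∈ State4_P k U, g (fun i => x i + e0) = ∑ x ∈ State4_P k (tr e0 U), g x :=
  sum_nbij' (fun x i => x i + e0) (fun x i => x i - e0)
    (fun x hx => Fintype.mem_piFinset.2 fun i => mem_tr.2 (by
      simpa using Fintype.mem_piFinset.1 hx i))
    (fun x hx => Fintype.mem_piFinset.2 fun i => mem_tr.1 (Fintype.mem_piFinset.1 hx i))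
    (fun x _ => by simp) (fun x _ => by simp) fun _ _ => rfl

/-- A number is at least the mean of a family minus the mean distance to it. -/
theorem State4_low {α β : Type} (S : Finset α) (T : Finset β) (f : α → β → ℝ) (a : ℝ) {c : ℝ}
    (h : c * (S.card * T.card) ≤ ∑ x ∈ S, ∑ y ∈ T, f x y) :
    (c - a) * (S.card * T.card) ≤ ∑ x ∈ S, ∑ y ∈ T, |a - f x y| := by
  have h1 : ∑ x ∈ S, ∑ y ∈ T, (f x y - a) ≤ ∑ x ∈ S, ∑ y ∈ T, |a - f x y| :=
    sum_le_sum fun x _ => sum_le_sum fun y _ => (le_abs_self _).trans_eq (abs_sub_comm _ _)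
  simp only [sum_sub_distrib, sum_const, nsmul_eq_mul] at h1
  linarith

theorem states (k : ℕ) : ∃ c : ℝ, 0 < c ∧ ∃ K : ℕ, ∀ G₁ G₂, IsState G₁ → IsState G₂ →
    ∀ U W : Finset V, (∀ x ∈ U, IsEven x) → (∀ y ∈ W, ¬ IsEven y) → K ≤ U.card → K ≤ W.card →
      c * (U.card : ℝ) ^ k * (W.card : ℝ) ^ k ≤
        ∑ x ∈ Fintype.piFinset fun _ : Fin k => U, ∑ y ∈ Fintype.piFinset fun _ : Fin k => W,
          Gam G₁ x y * Gam G₂ (fun i => y i + e0) (fun i => x i + e0) := by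
  obtain ⟨c₀, hc₀, n₀, hn⟩ := kpoint k
  obtain ⟨c, hc, hc1, hcc⟩ : ∃ c : ℝ, 0 < c ∧ c ≤ 1 ∧ c ≤ c₀ :=
    ⟨min 1 c₀, lt_min one_pos hc₀, min_le_left _ _, min_le_right _ _⟩
  obtain ⟨ε, hε, he⟩ : ∃ ε : ℝ, 0 < ε ∧ 8 * (k + 1) * ε = c ^ 2 :=
    ⟨c ^ 2 / (8 * (k + 1)), by positivity, mul_div_cancel₀ _ (by positivity)⟩
  obtain ⟨K, hK1, hK⟩ := l1_close hε
  refine ⟨c ^ 2 / 2, by positivity, max K n₀, fun G₁ G₂ h₁ h₂ U W hU hW cU cW => ?_⟩
  have dU := (le_max_left _ _).trans cU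
  have dW := (le_max_left _ _).trans cW
  have par : ∀ {S : Finset V} {x : V}, x ∈ tr e0 S → ∃ y ∈ S, (IsEven x ↔ ¬ IsEven y) :=
    fun hx => by
      obtain ⟨y, hy, rfl⟩ := mem_image.1 hx
      exact ⟨y, hy, by rw [e0_eq, isEven_add_dv]⟩
  have hU' : ∀ x ∈ tr e0 U, ¬ IsEven x := fun x hx e => by
    obtain ⟨y, hy, h⟩ := par hx
    exact h.1 e (hU y hy)
  have hW' : ∀ x ∈ tr e0 W, IsEven x := fun x hx => by
    obtain ⟨y, hy, h⟩ := par hx
    exact h.2 (hW y hy)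
  have a1 := State4_two (k := k) hK1 hK h₁ hU hU hW hU' dU dU dW (by rwa [card_tr])
  have a2 := State4_two (k := k) hK1 hK h₂ hW' hU hU' hU' (by rwa [card_tr]) dU
    (by rwa [card_tr]) (by rwa [card_tr])
  rw [← State4_tr, sum_congr rfl fun y _ => (State4_tr U _).symm, sum_comm] at a2
  simp only [card_tr] at a1 a2
  have hp : (0 : ℝ) < (U.card : ℝ) ^ k := pow_pos (Nat.cast_pos.2 (hK1.trans dU)) k
  have hq : (0 : ℝ) < (W.card : ℝ) ^ k := pow_pos (Nat.cast_pos.2 (hK1.trans dW)) k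
  have low : ∀ G, IsState G → ∀ a : ℝ, (c - a) * ((U.card : ℝ) ^ k * (U.card : ℝ) ^ k) ≤
      ∑ x ∈ State4_P k U, ∑ y ∈ State4_P k (tr e0 U), |a - Gam G x y| := fun G h a => by
    have := State4_low (State4_P k U) (State4_P k (tr e0 U)) (Gam G) a (c := c) (by
      refine le_trans ?_ ((hn G h U hU ((le_max_right _ _).trans cU)).trans (State4_ref2 h _ _))
      rw [State4_card, State4_card, card_tr, two_mul, pow_add]
      exact mul_le_mul_of_nonneg_right hcc (by positivity))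
    rwa [State4_card, State4_card, card_tr] at this
  have key : ∑ x ∈ State4_P k U, ∑ y ∈ State4_P k W, c ^ 2 * ((U.card : ℝ) ^ k * (U.card : ℝ) ^ k) ≤
      ∑ x ∈ State4_P k U, ∑ y ∈ State4_P k W,
        (Gam G₁ x y * Gam G₂ (fun i => y i + e0) (fun i => x i + e0) *
          ((U.card : ℝ) ^ k * (U.card : ℝ) ^ k) +
        ∑ x' ∈ State4_P k U, ∑ y' ∈ State4_P k (tr e0 U), |Gam G₁ x y - Gam G₁ x' y'| +
        ∑ x' ∈ State4_P k U, ∑ y' ∈ State4_P k (tr e0 U),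
          |Gam G₂ (fun i => y i + e0) (fun i => x i + e0) - Gam G₂ x' y'|) :=
    sum_le_sum fun x _ => sum_le_sum fun y _ => by
      have b1 := low G₁ h₁ (Gam G₁ x y)
      have b2 := low G₂ h₂ (Gam G₂ (fun i => y i + e0) (fun i => x i + e0))
      obtain ⟨b3, b4⟩ := State4_mem h₂ (fun i => y i + e0) (fun i => x i + e0)
      have b5 := mul_le_mul_of_nonneg_left b1 b3
      have b6 := mul_le_mul_of_nonneg_left b2 hc.le
      have b7 := mul_le_of_le_one_left (sum_nonneg fun x' (_ : x' ∈ State4_P k U) =>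
        sum_nonneg fun y' (_ : y' ∈ State4_P k (tr e0 U)) =>
          abs_nonneg (Gam G₁ x y - Gam G₁ x' y')) b4
      have b8 := mul_le_of_le_one_left (sum_nonneg fun x' (_ : x' ∈ State4_P k U) =>
        sum_nonneg fun y' (_ : y' ∈ State4_P k (tr e0 U)) => abs_nonneg
          (Gam G₂ (fun i => y i + e0) (fun i => x i + e0) - Gam G₂ x' y')) hc1
      linarith
  simp only [sum_add_distrib, sum_const, nsmul_eq_mul, ← sum_mul, State4_card] at key
  refine le_of_mul_le_mul_right ?_ (mul_pos hp hp)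
  have a3 : 0 ≤ ε * ((U.card : ℝ) ^ k * (W.card : ℝ) ^ k) *
    ((U.card : ℝ) ^ k * (U.card : ℝ) ^ k) := by clear * - ε U k W hε hp hq; positivity
  rw [← he] at key ⊢
  clear * - k ε U W G₁ G₂ a1 a2 key a3; linarith

end Pool.Agent.Work.MP_5cb0a4_pr.Z
end

-- merged part: Pool.Agent.Work.MP_5cb0a4_pr.N.StartA
section
open MeasureTheory Finset Filter Topology
open scoped Classical

namespace Pool.Agent.Work.MP_5cb0a4_pr.Z

/-- Port of `limit_states`. -/
theorem limit_statesK {ν : Measure Dimer} (h : IM ν)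
    (hq : ∀ (D : Finset Edge) (M : Edge → Bool → Bool → ℝ), (∀ e ∈ D, ContrR (M e)) →
      Tendsto (fun N : ℕ => ∫ τ, max (Ysum D M (Mr (box N) τ.1) - 1) 0 ∂ν) atTop (𝓝 0)) :
    ∃ φ : ℕ → ℕ, StrictMono φ ∧ ∀ᵐ τ ∂ν, ∀ 𝒰 : Ultrafilter ℕ, (𝒰 : Filter ℕ) ≤ atTop →
      ∃ G, IsState G ∧ ∀ X, Tendsto (fun j => Mr (box (φ j)) τ.1 X) (𝒰 : Filter ℕ) (𝓝 (G X)) := by
  have := h.prob
  choose t t1 t2 t3 using fun D : Finset Edge => Limit_dense
    {M : Edge → Bool → Bool → ℝ | ∀ e ∈ D, ContrR (M e)}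
  have c : ∀ D, Countable (insert Limit_U (t D) : Set _) := fun D => (t1 D).insert _
  have hi : ∀ (D : Finset Edge) (M : Edge → Bool → Bool → ℝ) (N : ℕ) (ν : Measure Dimer)
      [IsFiniteMeasure ν], Integrable (fun τ : Dimer =>
        max (Ysum D M (Mr (box N) τ.1) - 1) 0) ν := fun D M N ν _ =>
    Local.integrable (Λ := box N) (g := fun σ => max (Ysum D M (Mr (box N) σ) - 1) 0)
      (fun σ σ' a b h => congrArg (fun G => max (Ysum D M G - 1) 0)
        (funext fun X => local_Mr _ X σ σ' a b h)) ν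
  have ne : Nonempty (Σ D : Finset Edge, (insert Limit_U (t D) : Set _)) :=
    ⟨⟨∅, _, Set.mem_insert _ _⟩⟩
  obtain ⟨φ, hφ, h⟩ := Limit_sub (ι := Σ D : Finset Edge, (insert Limit_U (t D) : Set _))
    ν (fun i N τ => max (Ysum i.1 i.2.1 (Mr (box N) τ.1) - 1) 0)
    (fun _ _ _ => le_max_right _ _) (fun _ _ => hi _ _ _ _) fun ⟨D, M, hM⟩ => by
      have hM : ∀ e ∈ D, ContrR (M e) := by
        rcases hM with rfl | hM
        · exact fun e _ => Limit_contr e
        · exact t2 D hM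
      exact hq D M hM
  refine ⟨φ, hφ, Eventually.mono h fun τ h 𝒰 hU => ?_⟩
  have ex : ∀ X, ∃ g, Tendsto (fun j => Mr (box (φ j)) τ.1 X) (𝒰 : Filter ℕ) (𝓝 g) := fun X => by
    have e := (h ⟨X.image fun x => ((x, 0) : Edge), _, Set.mem_insert _ _⟩).eventually
      (ge_mem_nhds one_pos)
    obtain ⟨g, -, hg⟩ := (isCompact_Icc (a := (0 : ℝ)) (b := 2)).ultrafilter_le_nhds
      (𝒰.map fun j => Mr (box (φ j)) τ.1 X) (le_principal_iff.2 (hU (e.mono fun j hj => by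
        simp only [Limit_unit] at hj
        exact ⟨Mr_nonneg _ _ _, by linarith [le_max_left (Mr (box (φ j)) τ.1 X - 1) 0]⟩)))
    exact ⟨g, hg⟩
  choose G hG using ex
  have z := fun j => zz_dimer_pos (box (φ j)) τ
  have hY : ∀ D M, Tendsto (fun j => Ysum D M (Mr (box (φ j)) τ.1)) (𝒰 : Filter ℕ)
      (𝓝 (Ysum D M G)) := fun D M => tendsto_finsetSum _ fun X _ => (hG X).const_mul _
  refine ⟨G, ⟨?_, fun X => ge_of_tendsto' (hG X) fun _ => Mr_nonneg _ _ _, fun X hX => ?_,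
    fun x => ?_, fun X Y x a b c d => ?_, fun D M hM => ?_⟩, hG⟩
  · exact tendsto_nhds_unique (hG ∅) (by simp only [Mr_empty (z _)]; exact tendsto_const_nhds)
  · obtain ⟨j, hj⟩ := ((hG X).eventually_ne hX).exists
    exact Mr_neutral hj
  · refine tendsto_nhds_unique (tendsto_finsetSum _ fun d _ => hG _)
      (tendsto_const_nhds.congr' (hU ?_))
    filter_upwards [hφ.tendsto_atTop.eventually (Limit_box x), hφ.tendsto_atTop.eventually
      (eventually_all.2 fun d : Dir => Limit_box (x + dv d))] with j a b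
    exact (Mr_sum (z j) a b).symm
  · exact le_of_tendsto_of_tendsto' (hG _) (tendsto_finsetSum _ fun y _ => (hG _).mul (hG _))
      fun j => Mr_switch _ _ X Y x a b c d
  · refine closure_minimal (t := {M | Ysum D M G ≤ 1}) (fun M hM => ?_) (isClosed_le
      (continuous_finsetSum _ fun X _ => (continuous_cX D X).mul continuous_const)
      continuous_const) (t3 D hM)
    have e := tendsto_nhds_unique ((((hY D M).sub_const 1).max tendsto_const_nhds))
      ((h ⟨D, M, Set.mem_insert_of_mem _ hM⟩).mono_left hU)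
    have := le_max_left (Ysum D M G - 1) 0
    change Ysum D M G ≤ 1
    linarith

/-- Two point lower bound for translates of a large set (`states 1`, `IsState.energy`,
`avg_close`). -/
theorem state_shift : ∃ c : ℝ, 0 < c ∧ ∃ K : ℕ, ∀ G, IsState G → ∀ U W : Finset V,
    (∀ x ∈ U, IsEven x) → (∀ w ∈ W, ¬ IsEven w) → K ≤ U.card → K ≤ W.card →
      c * U.card * W.card ≤ ∑ x ∈ U, ∑ w ∈ W, G {x, x + w} := by
  obtain ⟨c, hc, K₁, h1⟩ := two_point
  obtain ⟨K₂, hK₂, h2⟩ := avg_close (half_pos hc)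
  refine ⟨c / 2, half_pos hc, K₁ + K₂, fun G hG U W hU hW hUc hWc => ?_⟩
  have hW0 : (0 : ℝ) < W.card := by exact_mod_cast (by omega : 0 < W.card)
  have h3 : ∀ x ∈ U, ∑ y ∈ W, G {x, y} - c / 2 * W.card ≤ ∑ w ∈ W, G {x, x + w} := by
    intro x hx
    have ho : ∀ y ∈ tr x W, ¬ IsEven y := fun y hy => by
      obtain ⟨w, hw, rfl⟩ := mem_image.1 hy
      have := hW w hw
      have := hU x hx
      rw [isEven_add]
      tauto
    have h4 := h2 True _ (hG.energy {x} True) W (tr x W) (fun y hy => iff_true_intro (hW y hy))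
      (fun y hy => iff_true_intro (ho y hy)) (by omega) (by rw [card_tr]; omega)
    have h5 : ∀ A : Finset V, (∀ y ∈ A, ¬ IsEven y) →
        ∑ y ∈ A, (if y ∈ ({x} : Finset V) then 0 else G (insert y {x})) = ∑ y ∈ A, G {x, y} :=
      fun A hA => sum_congr rfl fun y hy => by
        have h6 : y ∉ ({x} : Finset V) := fun h => hA y hy (by rw [mem_singleton.1 h]; exact hU x hx)
        rw [if_neg h6, pair_comm]
    rw [h5 W hW, h5 _ ho, card_tr, State2_sum_tr, ← sub_div] at h4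
    have h6 := (div_le_iff₀ hW0).1 (abs_le.1 h4).2
    simp only [add_comm x]
    linarith
  have h4 := sum_le_sum h3
  rw [sum_sub_distrib, sum_const, nsmul_eq_mul] at h4
  have h5 := h1 G hG U W hU hW (by omega) (by omega)
  linarith

theorem NStartA_mono {ν : Measure Dimer} (h : IM ν) {Λ' Λ : Finset V} (hΛ : Λ' ⊆ Λ) (X : Finset V) :
    ∫ τ, Mr Λ' τ.1 X ∂ν ≤ ∫ τ, Mr Λ τ.1 X ∂ν := by
  have := h.prob
  by_cases hX : X ⊆ Λ'
  · rw [← h.dlr Λ _ _ (local_Mr Λ' X)]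
    exact integral_mono ((local_gam (local_Mr Λ' X)).integrable ν) ((local_Mr Λ X).integrable ν)
      fun τ => Mr_super hΛ hX τ.1
  · have e : ∀ σ, Mr Λ' σ X = 0 := fun σ => by
      have : Zm Λ' σ X = 0 :=
        card_eq_zero.2 (filter_eq_empty_iff.2 fun ρ _ e => hX (e ▸ filter_subset _ _))
      rw [Mr, this, Nat.cast_zero, zero_div]
    simp only [e, integral_zero]
    exact integral_nonneg fun τ => Mr_nonneg _ _ _

theorem NStartA_shift {ν : Measure Dimer} (h : IM ν) (N : ℕ) {x : V} (hx : IsEven x) (w : V) :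
    ∃ m, ∫ τ, Mr (box N) τ.1 {x, x + w} ∂ν ≤ ∫ τ, M2 (box m) τ.1 0 w ∂ν := by
  refine ⟨N + ∑ i, (x i).natAbs, ?_⟩
  have hs : box N ⊆ tr x (box (N + ∑ i, (x i).natAbs)) := fun y hy => mem_tr.2 (mem_box.2 fun i => by
    have := single_le_sum (f := fun i => (x i).natAbs) (fun _ _ => Nat.zero_le _) (mem_univ i)
    have := mem_box.1 hy i
    simp only [Pi.sub_apply]
    omega)
  have e : ({x, x + w} : Finset V) = tr x {0, w} := by simp [tr, add_comm]
  have e' : tr x ∅ = ∅ := image_empty _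
  refine (NStartA_mono h hs _).trans_eq ?_
  rw [← h.integral_sh (local_Mr _ _) hx, e]
  refine integral_congr_ae (Eventually.of_forall fun τ => ?_)
  simp only [M2, Mr, zz_eq]
  rw [Zm_sh, ← Zm_sh x _ τ.1 ∅, e']

theorem startA {ν : Measure Dimer} (h : IM ν)
    (hq : ∀ (D : Finset Edge) (M : Edge → Bool → Bool → ℝ), (∀ e ∈ D, ContrR (M e)) →
      Tendsto (fun N : ℕ => ∫ τ, max (Ysum D M (Mr (box N) τ.1) - 1) 0 ∂ν) atTop (𝓝 0)) :
    ∃ c : ℝ, 0 < c ∧ ∃ F : Finset V, ∀ w ∉ F, ¬ IsEven w →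
      ∃ m, c ≤ ∫ τ, M2 (box m) τ.1 0 w ∂ν := by
  have := h.prob
  obtain ⟨c, hc, K, hK⟩ := state_shift
  obtain ⟨φ, -, hl⟩ := limit_statesK h hq
  have hfin : {w : V | ¬ IsEven w ∧ ∀ m, ∫ τ, M2 (box m) τ.1 0 w ∂ν < c / 2}.Finite := by
    by_contra hinf
    obtain ⟨W, hW, hWc⟩ := Set.Infinite.exists_subset_card_eq hinf (K + 1)
    have hU : ∀ x ∈ tr e0 W, IsEven x := fun x hx => by
      obtain ⟨w, hw, rfl⟩ := mem_image.1 hx
      rw [e0_eq, isEven_add_dv]
      exact (hW hw).1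
    have hUc : (tr e0 W).card = K + 1 := by rw [card_tr, hWc]
    generalize tr e0 W = U at hU hUc
    set T : ℝ := c * U.card * W.card with hT
    have hT0 : 0 < T := by rw [hT, hUc, hWc]; positivity
    let S : ℕ → Dimer → ℝ := fun j τ => ∑ x ∈ U, ∑ w ∈ W, Mr (box (φ j)) τ.1 {x, x + w}
    have hi : ∀ j x w, Integrable (fun τ : Dimer => Mr (box (φ j)) τ.1 {x, x + w}) ν :=
      fun j x w => (local_Mr _ _).integrable ν
    have hS : ∀ j, Integrable (S j) ν := fun j =>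
      integrable_finsetSum _ fun x _ => integrable_finsetSum _ fun w _ => hi j x w
    have hS0 : ∀ j τ, 0 ≤ S j τ := fun j τ =>
      sum_nonneg fun x _ => sum_nonneg fun w _ => Mr_nonneg _ _ _
    have h1 : ∀ᵐ τ ∂ν, ∀ᶠ j in atTop, 3 / 4 * T < S j τ := hl.mono fun τ hτ => by
      by_contra hn
      have hfr : ∃ᶠ j in atTop, S j τ ≤ 3 / 4 * T :=
        (Filter.not_eventually.1 hn).mono fun j hj => not_lt.1 hj
      have := frequently_iff_neBot.1 hfr
      have hU' := Ultrafilter.of_le (atTop ⊓ 𝓟 {j | S j τ ≤ 3 / 4 * T})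
      obtain ⟨G, hG, t⟩ := hτ _ (hU'.trans inf_le_left)
      have hle := le_of_tendsto (tendsto_finsetSum U fun x _ => tendsto_finsetSum W fun w _ =>
        t {x, x + w}) (le_principal_iff.1 (hU'.trans inf_le_right))
      have := hK G hG U W hU (fun w hw => (hW hw).1) (by omega) (by omega)
      linarith
    have h2 : Tendsto (fun j => ∫ τ, min (S j τ) (3 / 4 * T) ∂ν) atTop (𝓝 (∫ _, 3 / 4 * T ∂ν)) :=
      tendsto_integral_of_dominated_convergence (fun _ => 3 / 4 * T)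
        (fun j => ((hS j).inf (integrable_const _)).aestronglyMeasurable) (integrable_const _)
        (fun j => Eventually.of_forall fun τ => by
          clear * - S j τ T hS0 hT0
          rw [Real.norm_of_nonneg (le_min (hS0 j τ) (by positivity))]
          exact min_le_right _ _)
        (h1.mono fun τ hτ => tendsto_const_nhds.congr' (hτ.mono fun j hj => (min_eq_right hj.le).symm))
    have h3 : ∀ j, ∫ τ, min (S j τ) (3 / 4 * T) ∂ν ≤ T / 2 := fun j => by
      refine (integral_mono ((hS j).inf (integrable_const _)) (hS j) fun τ => min_le_left _ _).trans ?_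
      rw [integral_finsetSum _ fun x _ => integrable_finsetSum _ fun w _ => hi j x w]
      have h4 : ∀ x ∈ U, ∫ τ, ∑ w ∈ W, Mr (box (φ j)) τ.1 {x, x + w} ∂ν ≤ W.card • (c / 2) :=
        fun x hx => by
          rw [integral_finsetSum _ fun w _ => hi j x w]
          refine sum_le_card_nsmul _ _ _ fun w hw => ?_
          obtain ⟨m, hm⟩ := NStartA_shift h (φ j) (hU x hx) w
          exact hm.trans ((hW hw).2 m).le
      refine (sum_le_card_nsmul _ _ _ h4).trans_eq ?_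
      rw [nsmul_eq_mul, nsmul_eq_mul, hT]
      ring
    have h4 := le_of_tendsto' h2 h3
    rw [integral_const, probReal_univ, one_smul] at h4
    linarith
  refine ⟨c / 2, half_pos hc, hfin.toFinset, fun w hw ho => by_contra fun hn => hw ?_⟩
  exact hfin.mem_toFinset.2 ⟨ho, fun m => not_le.1 fun k => hn ⟨m, k⟩⟩

end Pool.Agent.Work.MP_5cb0a4_pr.Z
end

-- merged part: Pool.Agent.Work.MP_5cb0a4_pr.N.Compact
section
open MeasureTheory Finset Filter Topology
open scoped Classical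

namespace Pool.Agent.Work.MP_5cb0a4_pr.Z

theorem NCompact_eval (x : V) : Continuous fun τ : Dimer => τ.1 x :=
  (continuous_apply x).comp continuous_subtype_val

theorem NCompact_compact : CompactSpace Dimer := by
  refine isCompact_iff_compactSpace.1 ((isCompact_univ_pi fun x : V =>
    (Set.finite_range fun d : Dir => x + dv d).isCompact).of_isClosed_subset
      (t := {τ : V → V | ∀ x, Nbr x (τ x) ∧ τ (τ x) = x}) ?_ fun τ h x _ => ?_)
  · have e : {τ : V → V | ∀ x, Nbr x (τ x) ∧ τ (τ x) = x} =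
        ⋂ x, ⋂ y, (fun τ : V → V => (τ x, τ y)) ⁻¹' {p | Nbr x p.1 ∧ (p.1 = y → p.2 = x)} := by
      ext τ
      simp only [Set.mem_ofPred_eq, Set.mem_iInter, Set.mem_preimage]
      exact ⟨fun h x y => ⟨(h x).1, fun k => k ▸ (h x).2⟩, fun h x => ⟨(h x x).1, (h x _).2 rfl⟩⟩
    rw [e]
    exact isClosed_iInter fun x => isClosed_iInter fun y => (isClosed_discrete _).preimage (by fun_prop)
  · obtain ⟨d, hd⟩ := nbr_iff.1 (h x).1
    exact ⟨d, hd.symm⟩

theorem NCompact_local {Λ : Finset V} {g : (V → V) → ℝ} (hg : Local Λ g) :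
    Continuous fun τ : Dimer => g τ.1 := by
  have h : (fun τ : Dimer => g τ.1).FactorsThrough fun τ : Dimer => Meas_r Λ τ.1 := fun τ τ' h =>
    hg _ _ (isExt_dimer τ) (isExt_dimer τ') fun x hx => congrFun h ⟨x, hx⟩
  rw [← h.extend_comp fun _ => (0 : ℝ)]
  exact continuous_of_discreteTopology.comp (continuous_pi fun x => NCompact_eval x)

theorem NCompact_shift (v : V) : Continuous (shift v) :=
  (continuous_pi fun x => (NCompact_eval (x - v)).add continuous_const).subtype_mk _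

/-- Weak limits along an ultrafilter (the space of configurations is compact, local functions are
continuous). -/
theorem exists_limit (ν : ℕ → Measure Dimer) (h : ∀ n, IM (ν n)) : ∃ μ : Measure Dimer, IM μ ∧
    ∀ (Λ : Finset V) (g : (V → V) → ℝ), Local Λ g →
      Tendsto (fun n => ∫ τ, g τ.1 ∂ν n) (hyperfilter ℕ : Filter ℕ) (𝓝 (∫ τ, g τ.1 ∂μ)) := by
  have : BorelSpace Dimer := Subtype.borelSpace {τ : V → V | ∀ x, Nbr x (τ x) ∧ τ (τ x) = x}
  have := NCompact_compact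
  have : TopologicalSpace.PseudoMetrizableSpace Dimer := IsInducing.subtypeVal.pseudoMetrizableSpace
  let P : ℕ → ProbabilityMeasure Dimer := fun n => ⟨ν n, (h n).prob⟩
  obtain ⟨μ, -, hμ⟩ := isCompact_univ.ultrafilter_le_nhds ((hyperfilter ℕ).map P) (by simp)
  have k : ∀ f : Dimer → ℝ, Continuous f →
      Tendsto (fun n => ∫ τ, f τ ∂ν n) (hyperfilter ℕ : Filter ℕ) (𝓝 (∫ τ, f τ ∂μ)) := fun f hf =>
    ProbabilityMeasure.tendsto_iff_forall_integral_tendsto.1 hμ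
      (BoundedContinuousFunction.mkOfCompact ⟨f, hf⟩)
  refine ⟨μ, ⟨inferInstance, fun v hv => ⟨measurable_shift v, ?_⟩, fun Λ Λ' g hg => ?_⟩,
    fun Λ g hg => k _ (NCompact_local hg)⟩
  · refine ext_of_forall_integral_eq_of_IsFiniteMeasure fun f => ?_
    rw [integral_map (measurable_shift v).aemeasurable f.continuous.aestronglyMeasurable]
    refine tendsto_nhds_unique (k _ (f.continuous.comp (NCompact_shift v)))
      ((k _ f.continuous).congr fun n => ?_)
    conv_lhs => rw [← ((h n).inv v hv).map_eq]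
    exact integral_map (measurable_shift v).aemeasurable f.continuous.aestronglyMeasurable
  · exact tendsto_nhds_unique (k _ (NCompact_local (local_gam hg)))
      ((k _ (NCompact_local hg)).congr fun n => ((h n).dlr Λ Λ' g hg).symm)

end Pool.Agent.Work.MP_5cb0a4_pr.Z
end

-- merged part: Pool.Agent.Work.MP_5cb0a4_pr.N.Start
section
open MeasureTheory Finset Filter Topology
open scoped Classical

namespace Pool.Agent.Work.MP_5cb0a4_pr.Z



theorem startK {ν : Measure Dimer} (h : KM ν) : ∃ c : ℝ, 0 < c ∧ ∃ F : Finset V, ∀ w ∉ F,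
    ¬ IsEven w → ∃ m, c ≤ ∫ τ, M2 (box m) τ.1 0 w ∂ν := by
  have := h.im.prob
  obtain ⟨J, hJ⟩ := exists_J h.im
  obtain ⟨n, hn⟩ : ∃ n : ℕ, ν (J ⁻¹' {s | n1 s ≤ 1 - 1 / ((n : ℝ) + 1)}) ≠ 0 := by
    by_contra h1
    push Not at h1
    refine caseB h hJ ?_
    filter_upwards [ae_all_iff.2 fun n => measure_eq_zero_iff_ae_notMem.1 (h1 n)] with τ hτ
    by_contra h2
    obtain ⟨n, hn⟩ := exists_nat_one_div_lt (sub_pos.2 (not_le.1 h2))
    exact hτ n (by simp only [Set.mem_preimage, Set.mem_ofPred_eq]; linarith)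
  have hc : Continuous n1 := by unfold n1; fun_prop
  have hB := hJ.aInv (measurableSet_le hc.measurable (measurable_const (a := 1 - 1 / ((n : ℝ) + 1))))
  have hK := h.cond hB hn
  obtain ⟨c, hc0, F, hF⟩ := startA hK.im (qgdK hK (hJ.cond h.im hB.1 hn) Nat.one_div_pos_of_nat
    (ProbabilityTheory.ae_cond_mem hB.1))
  have hp := ENNReal.toReal_pos hn (measure_ne_top ν _)
  refine ⟨_, mul_pos hp hc0, F, fun w hw hw' => (hF w hw hw').imp fun m hm => ?_⟩
  rw [ProbabilityTheory.cond, integral_smul_measure, ENNReal.toReal_inv, smul_eq_mul,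
    le_inv_mul_iff₀ hp] at hm
  exact hm.trans (setIntegral_le_integral ((local_M2 _ 0 w).integrable ν)
    (Eventually.of_forall fun τ => M2_nonneg _ _ _ _))



theorem mN_ge {c : ℝ} (hc : 0 < c) (F : Finset V) : ∃ N₀ : ℕ, ∀ N ≥ N₀, ∀ G : V → ℝ,
    (∀ w, 0 ≤ G w) → (∀ w ∈ box (2 * N + 1), w ∉ F → ¬ IsEven w → c ≤ G w) →
      ∀ d, c ^ 2 / 2 ≤ mN G N d := by
  obtain ⟨n₀, hn⟩ := pk_small (ε := 1 / (4 * ((F.card : ℝ) + 1))) (by positivity)
  refine ⟨n₀, fun N hN G h0 hG d => ?_⟩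
  obtain ⟨B, hB, hB'⟩ : ∃ B : Finset V, B.card ≤ 2 * F.card ∧
      ∀ z ∉ B, z + dv d ∉ F ∧ -z + dv d ∉ F := by
    refine ⟨F.image (· - dv d) ∪ F.image (dv d - ·), ?_, fun z hz => ⟨fun h => hz ?_, fun h => hz ?_⟩⟩
    · rw [two_mul]
      exact (card_union_le _ _).trans (add_le_add card_image_le card_image_le)
    · exact mem_union_left _ (mem_image.2 ⟨_, h, by abel⟩)
    · exact mem_union_right _ (mem_image.2 ⟨_, h, by abel⟩)
  have h1 : ∑ z ∈ box (2 * N) ∩ B, pk (2 * N) z ≤ 1 / 2 := by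
    refine (sum_le_card_nsmul _ _ _ fun z _ => hn (2 * N) (by omega) z).trans ?_
    have h2 : ((box (2 * N) ∩ B).card : ℝ) ≤ 2 * F.card := by
      exact_mod_cast (card_le_card inter_subset_right).trans hB
    rw [nsmul_eq_mul, mul_one_div, div_le_iff₀ (by positivity)]
    linarith
  have h2 := sum_inter_add_sum_sdiff (box (2 * N)) B (pk (2 * N))
  rw [sum_pk] at h2
  have h3 : ∑ z ∈ box (2 * N) \ B, pk (2 * N) z * c ^ 2 ≤ mN G N d := by
    refine le_trans (sum_le_sum fun z hz => ?_) (sum_le_sum_of_subset_of_nonneg sdiff_subset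
      fun z _ _ => mul_nonneg (pk_nonneg _ _) (mul_nonneg (h0 _) (h0 _)))
    by_cases h4 : pk (2 * N) z = 0
    · rw [h4, zero_mul, zero_mul]
    have h5 := (pk_parity h4).2 (even_two_mul N)
    obtain ⟨h6, h7⟩ := mem_sdiff.1 hz
    have h8 : -z ∈ box (2 * N) := mem_box.2 fun i => by
      have := mem_box.1 h6 i
      simp only [Pi.neg_apply]
      omega
    refine mul_le_mul_of_nonneg_left ?_ (pk_nonneg _ _)
    rw [pow_two, sub_eq_neg_add]
    exact mul_le_mul (hG _ (add_dv_mem_box h6 d) (hB' z h7).1 fun h => isEven_add_dv.1 h h5)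
      (hG _ (add_dv_mem_box h8 d) (hB' z h7).2 fun h => isEven_add_dv.1 h (isEven_neg.2 h5))
      hc.le (h0 _)
  rw [← sum_mul] at h3
  nlinarith [sq_nonneg c]



/-- Long range order for small mean current. -/
theorem start : ∃ s₀ : ℝ, 0 < s₀ ∧ s₀ < 1 ∧ ∀ ν : Measure Dimer, IsErgodicGibbs ν →
    n1 (meanCurrent ν) < s₀ → FinPos ν ∧ LRO (Gbar ν) := by
  obtain ⟨sp, hsp, hpos⟩ := positivity
  by_contra hc
  have h1 : ∀ n : ℕ, ∃ ν : Measure Dimer, IsErgodicGibbs ν ∧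
      n1 (meanCurrent ν) < min (min sp (1 / 2)) (1 / ((n : ℝ) + 1)) ∧
      ¬ (FinPos ν ∧ LRO (Gbar ν)) := fun n => by
    by_contra h2
    refine hc ⟨min (min sp (1 / 2)) (1 / ((n : ℝ) + 1)), by positivity,
      ((min_le_left _ _).trans (min_le_right _ _)).trans_lt (by norm_num), fun ν h3 h4 => ?_⟩
    by_contra h5
    exact h2 ⟨ν, h3, h4, h5⟩
  choose ν hν hs hl using h1
  simp only [lt_min_iff] at hs
  have him := fun n => im_of_eg (hν n)
  have hfl := fun n => fluxAt_eg (hν n)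
  have hs1 : ∀ n, n1 (meanCurrent (ν n)) < 1 := fun n => (hs n).1.2.trans (by norm_num)
  have hlp := fun n => lp2 (him n) (him n) (hs1 n) (hfl n) (hfl n)
  have hfp := fun n => finPos (him n) (hlp n) (hpos _ _ (him n) (hfl n) (hs n).1.1.le)
  obtain ⟨μ, hμ, hlim⟩ := exists_limit ν him
  have hK : KM μ := ⟨hμ, fun ε hε => by
    obtain ⟨ε', hε', m₀, hm⟩ := lp_unif hε
    obtain ⟨s₁, hs₁, h3⟩ := lp_small hε'
    refine ⟨m₀, fun m hm' => le_of_tendsto (hlim _ _ (Double_local_log m)) ?_⟩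
    filter_upwards [Nat.hyperfilter_le_atTop
      (tendsto_one_div_add_atTop_nhds_zero_nat.eventually (ge_mem_nhds hs₁))] with n hn
    exact hm m hm' _ (him n) (h3 _ _ (him n) (hfl n) ((hs n).2.le.trans hn))⟩
  obtain ⟨c, hc0, F, hF⟩ := startK hK
  obtain ⟨N₀, hN₀⟩ := mN_ge (half_pos hc0) F
  obtain ⟨N₁, hN₁⟩ := scale_step (m₀ := (c / 2) ^ 2 / 2) (by positivity)
  have h4 : ∀ᶠ n in (hyperfilter ℕ : Filter ℕ), ∀ w ∈ box (2 * (N₀ + N₁) + 1), w ∉ F →
      ¬ IsEven w → c / 2 ≤ Gbar (ν n) w := by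
    refine (eventually_all_finset _).2 fun w _ => ?_
    by_cases hw : w ∉ F ∧ ¬ IsEven w
    · obtain ⟨m, hm⟩ := hF w hw.1 hw.2
      filter_upwards [(hlim _ _ (local_M2 (box m) 0 w)).eventually
        (le_mem_nhds ((half_lt_self hc0).trans_le hm))] with n hn _ _
      simpa using hn.trans (le_Gbar (him n) (hfp n) (by simp [IsEven]) hw.2 m)
    · exact Eventually.of_forall fun n a b => absurd ⟨a, b⟩ hw
  obtain ⟨n, hn⟩ := h4.exists
  exact hl n ⟨hfp n, hN₁ (N₀ + N₁) (by omega) _ (Gbar_nonneg _) (Gbar_dv (him n))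
    ((tr_of (him n) (him n) (hlp n) (hfp n) (hfp n) (hs1 n) (hfl n) (hfl n)).psd_bar (him n) (hfp n))
    (hN₀ _ (by omega) _ (Gbar_nonneg _) hn)⟩

end Pool.Agent.Work.MP_5cb0a4_pr.Z
end

-- merged part: Pool.Agent.Work.MP_5cb0a4_pr.N.Doob
section
open MeasureTheory Finset Filter Topology
open scoped Classical

namespace Pool.Agent.Work.MP_5cb0a4_pr.Z

lemma NDoob_off (Λ : Finset V) (g : (V → V) → ℝ) : Off Λ (gam Λ g) :=
  Cls2_off_cls Λ fun s => (∑ ρ ∈ s.filter (fun ρ => mon Λ ρ = ∅), g ρ) /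
    ((s.filter fun ρ => mon Λ ρ = ∅).card : ℝ)

lemma NDoob_mul {Λ Λ' : Finset V} {f g : (V → V) → ℝ} (hf : Local Λ f) (hg : Local Λ' g) :
    Local (Λ ∪ Λ') fun σ => f σ * g σ := fun σ σ' a b e => by
  simp only [hf σ σ' a b fun x hx => e x (mem_union_left _ hx),
    hg σ σ' a b fun x hx => e x (mem_union_right _ hx)]

lemma NDoob_pull {ν : Measure Dimer} (h : IM ν) {Λ Λ₁ Λ₂ : Finset V} {f g : (V → V) → ℝ}
    (hf : Local Λ₁ f) (ho : Off Λ f) (hg : Local Λ₂ g) :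
    ∫ τ, f τ.1 * gam Λ g τ.1 ∂ν = ∫ τ, f τ.1 * g τ.1 ∂ν := by
  rw [← h.dlr Λ _ _ (NDoob_mul hf hg)]
  refine integral_congr_ae (.of_forall fun τ => ?_)
  simp only [gam]
  rw [← mul_div_assoc, mul_sum]
  congr 1
  refine sum_congr rfl fun ρ hρ => ?_
  rw [ho ρ τ.1 (mem_perf.1 hρ).1.1 (isExt_dimer τ) (mem_perf.1 hρ).1.2]

/-- The level is exceeded at a radius in `[N, N + k)`. -/
def NDoob_E (g : (V → V) → ℝ) (η : ℝ) (N k : ℕ) (σ : V → V) : Prop :=
  ∃ M, N ≤ M ∧ M < N + k ∧ η < gam (box M) g σ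

lemma NDoob_Eloc {Λ : Finset V} {g : (V → V) → ℝ} (hg : Local Λ g) (η : ℝ) (N k : ℕ) :
    Local (box (N + k) ∪ Λ) (NDoob_E g η N k) := fun σ σ' a b e => by
  refine propext (exists_congr fun M => and_congr_right fun _ => and_congr_right fun hM => ?_)
  rw [(local_gam (Λ := box M) hg).mono (union_subset_union_left (box_mono hM.le)) σ σ' a b e]

lemma NDoob_Eoff (g : (V → V) → ℝ) (η : ℝ) (N k : ℕ) : Off (box N) (NDoob_E g η N k) :=
  fun σ σ' a b e => by
    refine propext (exists_congr fun M => and_congr_right fun hM => and_congr_right fun _ => ?_)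
    rw [Cls2_off_mono (NDoob_off (box M) g) (box_mono hM) σ σ' a b e]

lemma NDoob_ind {ν : Measure Dimer} (h : IM ν) {Λ : Finset V} {g : (V → V) → ℝ} (hg : Local Λ g)
    (η : ℝ) (k : ℕ) : ∀ N, ∫ τ, (if NDoob_E g η N k τ.1 then 1 else 0 : ℝ) * η ∂ν ≤
      ∫ τ, (if NDoob_E g η N k τ.1 then 1 else 0 : ℝ) * g τ.1 ∂ν := by
  have := h.prob
  induction k with
  | zero =>
    intro N
    have e : ∀ σ, ¬ NDoob_E g η N 0 σ := fun σ ⟨M, a, b, _⟩ => by omega
    simp [e]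
  | succ k ih =>
    intro N
    let J : (V → V) → ℝ := fun σ => if NDoob_E g η (N + 1) k σ then 1 else 0
    let I : (V → V) → ℝ := fun σ =>
      if NDoob_E g η N (k + 1) σ ∧ ¬ NDoob_E g η (N + 1) k σ then 1 else 0
    have lJ : Local (box (N + 1 + k) ∪ Λ) J := fun σ σ' a b e => by
      simp only [J, NDoob_Eloc hg η (N + 1) k σ σ' a b e]
    have lI : Local (box (N + 1 + k) ∪ Λ) I := fun σ σ' a b e => by
      have e' : ∀ x ∈ box (N + (k + 1)) ∪ Λ, σ x = σ' x := by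
        rwa [show N + (k + 1) = N + 1 + k by omega]
      simp only [I, NDoob_Eloc hg η (N + 1) k σ σ' a b e, NDoob_Eloc hg η N (k + 1) σ σ' a b e']
    have oI : Off (box N) I := fun σ σ' a b e => by
      simp only [I, NDoob_Eoff g η N (k + 1) σ σ' a b e,
        Cls2_off_mono (NDoob_Eoff g η (N + 1) k) (box_mono N.le_succ) σ σ' a b e]
    have e1 : ∀ σ, (if NDoob_E g η N (k + 1) σ then 1 else 0 : ℝ) = J σ + I σ := fun σ => by
      by_cases h1 : NDoob_E g η (N + 1) k σ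
      · have h2 : NDoob_E g η N (k + 1) σ := by
          obtain ⟨M, a, b, c⟩ := h1
          exact ⟨M, by omega, by omega, c⟩
        simp [I, J, h1, h2]
      · simp [I, J, h1]
    have lc : Local (∅ : Finset V) fun _ : V → V => η := fun _ _ _ _ _ => rfl
    simp only [e1, add_mul]
    rw [integral_add ((NDoob_mul lJ lc).integrable ν) ((NDoob_mul lI lc).integrable ν),
      integral_add ((NDoob_mul lJ hg).integrable ν) ((NDoob_mul lI hg).integrable ν),
      ← NDoob_pull h lI oI hg]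
    refine add_le_add (ih (N + 1)) (integral_mono ((NDoob_mul lI lc).integrable ν)
      ((NDoob_mul lI (local_gam hg)).integrable ν) fun τ => ?_)
    simp only [I]
    split_ifs with h1
    · obtain ⟨⟨M, a, b, c⟩, h2⟩ := h1
      have : M = N := by
        by_contra hn
        exact h2 ⟨M, by omega, by omega, c⟩
      subst this
      simpa using c.le
    · simp

/-- Weak type maximal inequality for the Gibbs kernels: stop at the largest `N ≤ N₀` where the
level is exceeded; that event does not depend on the configuration in the box of radius `N`. -/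
theorem doob {ν : Measure Dimer} (h : IM ν) {Λ : Finset V} {g : (V → V) → ℝ} (hg : Local Λ g)
    (h0 : ∀ σ, IsExt σ → 0 ≤ g σ) {η : ℝ} (hη : 0 < η) :
    ν.real {τ | ∃ N : ℕ, η < gam (box N) g τ.1} ≤ (∫ τ, g τ.1 ∂ν) / η := by
  have := h.prob
  let S : ℕ → Set Dimer := fun k => {τ | NDoob_E g η 0 k τ.1}
  have lJ : ∀ k, Local (box (0 + k) ∪ Λ) fun σ => (if NDoob_E g η 0 k σ then 1 else 0 : ℝ) :=
    fun k σ σ' a b e => by simp only [NDoob_Eloc hg η 0 k σ σ' a b e]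
  have hm : ∀ k, MeasurableSet (S k) := fun k => by
    have := (lJ k).measurable (measurableSet_singleton 1)
    convert this using 1
    ext τ
    simp [S]
  have h1 : ∀ k, ν.real (S k) ≤ (∫ τ, g τ.1 ∂ν) / η := fun k => by
    rw [le_div_iff₀ hη, ← integral_indicator_one (hm k), ← integral_mul_const]
    refine le_trans (le_of_eq ?_) ((NDoob_ind h hg η k 0).trans (integral_mono
      ((NDoob_mul (lJ k) hg).integrable ν) (hg.integrable ν) fun τ => ?_))
    · refine integral_congr_ae (.of_forall fun τ => ?_)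
      simp [S, Set.indicator_apply]
    · have := h0 _ (isExt_dimer τ)
      dsimp only
      split_ifs <;> simp [this]
  have e : {τ : Dimer | ∃ N : ℕ, η < gam (box N) g τ.1} = ⋃ k, S k := by
    ext τ
    simp only [Set.mem_ofPred_eq, Set.mem_iUnion, S]
    exact ⟨fun ⟨N, hN⟩ => ⟨N + 1, N, by omega, by omega, hN⟩, fun ⟨_, M, _, _, c⟩ => ⟨M, c⟩⟩
  have mono : Monotone S := fun k k' hk τ ⟨M, a, b, c⟩ => ⟨M, a, by omega, c⟩
  rw [e, Measure.real, mono.measure_iUnion]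
  refine ENNReal.toReal_le_of_le_ofReal ((measureReal_nonneg).trans (h1 0)) (iSup_le fun k => ?_)
  rw [← ofReal_measureReal (measure_ne_top _ _)]
  exact ENNReal.ofReal_le_ofReal (h1 k)

section Hilbert

variable {H : Type} [NormedAddCommGroup H] [InnerProductSpace ℝ H]

/-- The average along the direction `e`. -/
noncomputable def NDoob_S (n : ℕ) (e : V) (ψ : V → H) (x : V) : H :=
  (n : ℝ)⁻¹ • ∑ a ∈ range n, ψ (x + (a : ℤ) • e)

lemma NDoob_bs {A : H →L[ℝ] H} {e : V} {ψ : V → H} (h : ∀ x, A (ψ x) = ψ (x + e)) (n : ℕ) (x : V) :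
    birkhoffAverage ℝ A id n (ψ x) = NDoob_S n e ψ x := by
  have h1 : ∀ k : ℕ, A^[k] (ψ x) = ψ (x + (k : ℤ) • e) := fun k => by
    induction k with
    | zero => simp
    | succ k ih =>
      rw [Function.iterate_succ_apply', ih, h, add_assoc]
      push_cast
      rw [add_smul, one_smul]
  simp only [birkhoffAverage, birkhoffSum, NDoob_S, id, h1]

lemma NDoob_eqv {A : H →L[ℝ] H} {v : V} {ψ : V → H} (h : ∀ x, A (ψ x) = ψ (x + v)) (n : ℕ) (e : V)
    (x : V) : A (NDoob_S n e ψ x) = NDoob_S n e ψ (x + v) := by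
  simp only [NDoob_S, map_smul, map_sum, h, add_right_comm x]

lemma NDoob_norm {ψ : V → H} {C : ℝ} (h : ∀ x, ‖ψ x‖ ≤ C) (n : ℕ) (e x : V) :
    ‖NDoob_S n e ψ x‖ ≤ C := by
  have hC : 0 ≤ C := (norm_nonneg _).trans (h 0)
  rw [NDoob_S, norm_smul, Real.norm_of_nonneg (by positivity)]
  refine (mul_le_mul_of_nonneg_left (norm_sum_le_of_le _ fun a _ => h _) (by positivity)).trans ?_
  rw [sum_const, card_range, nsmul_eq_mul, ← mul_assoc]
  exact mul_le_of_le_one_left hC inv_mul_le_one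

lemma NDoob_comm (n : ℕ) (e e' : V) (ψ : V → H) :
    NDoob_S n e (NDoob_S n e' ψ) = NDoob_S n e' (NDoob_S n e ψ) := by
  funext x
  simp only [NDoob_S, ← smul_sum]
  rw [sum_comm]
  simp only [add_right_comm x]

lemma NDoob_step {ψ : V → H} {C : ℝ} (h : ∀ x, ‖ψ x‖ ≤ C) (n : ℕ) (e x : V) :
    dist (NDoob_S n e ψ (x + e)) (NDoob_S n e ψ x) ≤ 2 * C / n := by
  have e1 : ∑ a ∈ range n, ψ (x + e + (a : ℤ) • e) - ∑ a ∈ range n, ψ (x + (a : ℤ) • e) =
      ψ (x + (n : ℤ) • e) - ψ (x + ((0 : ℕ) : ℤ) • e) := by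
    rw [← sum_sub_distrib, ← sum_range_sub fun a : ℕ => ψ (x + (a : ℤ) • e)]
    refine sum_congr rfl fun a _ => ?_
    push_cast
    rw [add_smul, one_smul, add_assoc, add_comm e]
  rw [dist_eq_norm, NDoob_S, NDoob_S, ← smul_sub, e1, norm_smul,
    Real.norm_of_nonneg (by positivity), div_eq_inv_mul]
  refine mul_le_mul_of_nonneg_left ((norm_sub_le _ _).trans ?_) (by positivity)
  linarith [h (x + (n : ℤ) • e), h (x + ((0 : ℕ) : ℤ) • e)]

/-- The generators of the even lattice. -/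
def NDoob_e : Fin 3 → V := ![![1, 1, 0], ![1, 0, 1], ![0, 1, 1]]

lemma NDoob_even (i : Fin 3) : IsEven (NDoob_e i) := by
  fin_cases i <;> decide

lemma NDoob_gen {v : V} (hv : IsEven v) :
    ∃ a b c : ℤ, v = a • NDoob_e 0 + b • NDoob_e 1 + c • NDoob_e 2 := by
  obtain ⟨r, hr⟩ := hv
  rw [Fin.sum_univ_three] at hr
  refine ⟨r - v 2, r - v 1, r - v 0, funext fun i => ?_⟩
  fin_cases i <;> simp [NDoob_e] <;> omega

/-- The average over a cell of the even lattice. -/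
noncomputable def NDoob_T (n : ℕ) (φ : V → H) : V → H :=
  NDoob_S n (NDoob_e 0) (NDoob_S n (NDoob_e 1) (NDoob_S n (NDoob_e 2) φ))

lemma NDoob_hil [CompleteSpace H] {φ : V → H} {C : ℝ} (U : ∀ v, IsEven v → H →L[ℝ] H)
    (h1 : ∀ v hv, ‖U v hv‖ ≤ 1) (h2 : ∀ v hv x, U v hv (φ x) = φ (x + v)) (h3 : ∀ x, ‖φ x‖ ≤ C) :
    ∃ G, (∀ v hv, U v hv G = G) ∧ Tendsto (fun n => NDoob_T n φ 0) atTop (𝓝 G) := by
  have hlim : ∀ c, ∃ G, Tendsto (fun n => NDoob_T n φ c) atTop (𝓝 G) := fun c => by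
    have a2 := (U _ (NDoob_even 2)).tendsto_birkhoffAverage_orthogonalProjection (h1 _ _) (φ c)
    obtain ⟨G1, a1⟩ := Ergo_av _ (h1 _ (NDoob_even 1)) a2
    obtain ⟨G0, a0⟩ := Ergo_av _ (h1 _ (NDoob_even 0)) a1
    refine ⟨G0, a0.congr fun n => ?_⟩
    rw [NDoob_bs (h2 _ _), NDoob_bs (NDoob_eqv (h2 _ _) n _),
      NDoob_bs (NDoob_eqv (NDoob_eqv (h2 _ _) n _) n _), NDoob_T]
  choose G hG using hlim
  have s1 : ∀ i c, G (c + NDoob_e i) = G c := fun i c => by
    refine tendsto_nhds_unique ((hG _).congr_dist (squeeze_zero (fun _ => dist_nonneg) (fun n => ?_)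
      (tendsto_const_div_atTop_nhds_zero_nat (2 * C)))) (hG c)
    have k := fun e e' => NDoob_norm (NDoob_norm h3 n e') n e
    fin_cases i
    · exact NDoob_step (k _ _) n _ c
    · rw [NDoob_T, NDoob_comm]
      exact NDoob_step (k _ _) n _ c
    · rw [NDoob_T, NDoob_comm n (NDoob_e 1), NDoob_comm]
      exact NDoob_step (k _ _) n _ c
  have s2 : ∀ i (n : ℤ) c, G (c + n • NDoob_e i) = G c := fun i n c => by
    induction n using Int.induction_on with
    | zero => simp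
    | succ n ih => rw [add_smul, one_smul, ← add_assoc, s1, ih]
    | pred n ih => rw [← s1 i, sub_smul, one_smul, add_assoc, sub_add_cancel, ih]
  refine ⟨G 0, fun v hv => ?_, hG 0⟩
  obtain ⟨a, b, c, e⟩ := NDoob_gen hv
  have s3 : G (0 + v) = G 0 := by rw [e, ← add_assoc, ← add_assoc, s2, s2, s2]
  refine tendsto_nhds_unique ((((U v hv).continuous.tendsto _).comp (hG 0)).congr fun n => ?_)
    (s3 ▸ hG (0 + v))
  exact NDoob_eqv (NDoob_eqv (NDoob_eqv (h2 v hv) n _) n _) n _ 0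

/-- The cell. -/
def NDoob_C (n : ℕ) : Finset V := (range n ×ˢ range n ×ˢ range n).image fun p =>
  (p.1 : ℤ) • NDoob_e 0 + (p.2.1 : ℤ) • NDoob_e 1 + (p.2.2 : ℤ) • NDoob_e 2

lemma NDoob_inj : Function.Injective fun p : ℕ × ℕ × ℕ =>
    (p.1 : ℤ) • NDoob_e 0 + (p.2.1 : ℤ) • NDoob_e 1 + (p.2.2 : ℤ) • NDoob_e 2 := by
  rintro ⟨a, b, c⟩ ⟨a', b', c'⟩ h
  have h0 := congrFun h 0
  have h1 := congrFun h 1
  have h2 := congrFun h 2
  simp [NDoob_e] at h0 h1 h2
  simp only [Prod.mk.injEq]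
  omega

lemma NDoob_card (n : ℕ) : (NDoob_C n).card = n ^ 3 := by
  rw [NDoob_C, card_image_of_injective _ NDoob_inj, card_product, card_product, card_range]
  ring

lemma NDoob_Ceven {n : ℕ} {c : V} (hc : c ∈ NDoob_C n) : IsEven c := by
  obtain ⟨⟨a, b, d⟩, -, rfl⟩ := mem_image.1 hc
  refine ⟨a + b + d, ?_⟩
  simp [NDoob_e, Fin.sum_univ_three]
  ring

lemma NDoob_Teq (n : ℕ) (φ : V → H) :
    NDoob_T n φ 0 = ((n : ℝ) ^ 3)⁻¹ • ∑ c ∈ NDoob_C n, φ c := by
  rw [NDoob_C, sum_image fun _ _ _ _ h => NDoob_inj h]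
  simp only [NDoob_T, NDoob_S, ← smul_sum, smul_smul, sum_product, zero_add]
  congr 1
  ring

end Hilbert

/-- Mean ergodic theorem for the even sublattice (iterate the von Neumann theorem for the three
generators `(1,1,0)`, `(1,0,1)`, `(0,1,1)`; see `Ergo_av`). -/
theorem erg_avg {ν : Measure Dimer} (h : IsErgodicGibbs ν) {Λ : Finset V} {g : (V → V) → ℝ}
    (hg : Local Λ g) {η : ℝ} (hη : 0 < η) (n₀ : ℕ) : ∃ C : Finset V, (∀ c ∈ C, IsEven c) ∧
      n₀ ≤ C.card ∧ ∫ τ, |(∑ c ∈ C, g (sh (-c) τ.1)) / C.card - ∫ τ', g τ'.1 ∂ν| ∂ν ≤ η := by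
  have := h.prob
  set m := ∫ τ', g τ'.1 ∂ν with hm
  obtain ⟨C, hC⟩ := hg.bdd
  have bd : ∀ (x : V) (τ : Dimer), ‖g (sh (-x) τ.1) - m‖ ≤ C + |m| := fun x τ =>
    (abs_sub _ _).trans (add_le_add_left (hC _ (isExt_sh (isExt_dimer τ) _)) _)
  have mem : ∀ x : V, MemLp (fun τ : Dimer => g (sh (-x) τ.1) - m) 2 ν := fun x =>
    .of_bound ((hg.sh x).measurable.sub_const m).aestronglyMeasurable _ (.of_forall (bd x))
  let φ : V → Lp ℝ 2 ν := fun x => (mem x).toLp _
  have hφ : ∀ x, φ x =ᵐ[ν] fun τ => g (sh (-x) τ.1) - m := fun x => MemLp.coeFn_toLp _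
  obtain ⟨G, hG, hT⟩ := NDoob_hil (φ := φ) (C := C + |m|) (fun v hv =>
    (Lp.compMeasurePreservingₗᵢ ℝ (shift (-v))
      (h.invariant _ (isEven_neg.2 hv))).toContinuousLinearMap)
    (fun _ _ => LinearIsometry.norm_toContinuousLinearMap_le _) (fun v hv x => by
      refine (Lp.toLp_compMeasurePreserving (mem x) _).trans
        (MemLp.toLp_congr _ _ (.of_forall fun τ => ?_))
      simp only [Function.comp, shift_val, sh_sh, neg_add]) (fun x => by
      have h0 : 0 ≤ C + |m| := (norm_nonneg _).trans (bd 0 (nonempty_of_isProbabilityMeasure ν).some)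
      simpa [measureUnivNNReal] using
        Lp.norm_le_of_ae_bound (f := φ x) h0 ((hφ x).mono fun τ e => e ▸ bd x τ))
  obtain ⟨κ, hκ⟩ : ∃ κ, G =ᵐ[ν] Function.const _ κ := by
    refine exists_eventuallyEq_const_of_forall_separating MeasurableSet fun S hS => ?_
    have hm := (Lp.stronglyMeasurable G).measurable hS
    refine (h.ergodic _ hm fun v hv => ?_).symm.imp (mem_ae_iff_prob_eq_one hm).2
      measure_eq_zero_iff_ae_notMem.1
    have := Lp.coeFn_compMeasurePreserving G (h.invariant _ (isEven_neg.2 (isEven_neg.2 hv)))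
    rw [show Lp.compMeasurePreserving _ _ G = G from hG _ (isEven_neg.2 hv), neg_neg] at this
    exact this.symm.preimage S
  have e : ∀ x, IsEven x → Inner.inner ℝ G (φ x) = 0 := fun x hx => by
    have e1 : ∫ τ, (g (sh (-x) τ.1) - m) * κ ∂ν = 0 := by
      rw [integral_mul_const, integral_sub ((hg.sh x).integrable ν) (integrable_const m),
        integral_sh h hg (isEven_neg.2 hx)]
      simp [hm]
    rw [← e1, L2.inner_def]
    refine integral_congr_ae ?_
    filter_upwards [hκ, hφ x] with τ a b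
    simp [a, b]
  have g0 : G = 0 := by
    refine inner_self_eq_zero.1 (tendsto_nhds_unique
      ((tendsto_const_nhds (x := G)).inner (𝕜 := ℝ) hT) (tendsto_const_nhds.congr fun n => ?_))
    rw [NDoob_Teq, inner_smul_right, inner_sum, sum_eq_zero fun x hx => e x (NDoob_Ceven hx),
      mul_zero]
  have hN := hT.norm
  rw [g0, norm_zero] at hN
  obtain ⟨n, a1, a2, a3⟩ := ((hN.eventually_le_const hη).and
    ((eventually_ge_atTop 1).and (eventually_ge_atTop n₀))).exists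
  refine ⟨NDoob_C n, fun c hc => NDoob_Ceven hc, ?_, le_trans ?_ a1⟩
  · rw [NDoob_card]
    exact a3.trans (Nat.le_self_pow (by norm_num) n)
  have hF : (NDoob_T n φ 0 : Lp ℝ 2 ν) =ᵐ[ν] fun τ =>
      (∑ c ∈ NDoob_C n, g (sh (-c) τ.1)) / (NDoob_C n).card - m := by
    rw [NDoob_Teq]
    filter_upwards [Lp.coeFn_smul (((n : ℝ) ^ 3)⁻¹) (∑ c ∈ NDoob_C n, φ c),
      Lp.coeFn_fun_finsetSum (NDoob_C n) φ, ae_all_iff.2 hφ] with τ b1 b2 b3
    have hn : (0 : ℝ) < n := by exact_mod_cast a2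
    rw [b1, Pi.smul_apply, b2, sum_congr rfl fun x _ => b3 x, sum_sub_distrib, sum_const,
      NDoob_card, smul_eq_mul, nsmul_eq_mul]
    push_cast
    field_simp
  rw [← integral_congr_ae (hF.mono fun τ b => congrArg abs b), Lp.norm_def]
  refine le_trans (le_of_eq ?_) (ENNReal.toReal_mono (Lp.eLpNorm_ne_top _)
    (eLpNorm_le_eLpNorm_of_exponent_le one_le_two (Lp.aestronglyMeasurable _)))
  rw [eLpNorm_one_eq_lintegral_enorm, ← integral_norm_eq_lintegral_enorm (Lp.aestronglyMeasurable _)]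
  rfl

end Pool.Agent.Work.MP_5cb0a4_pr.Z
end

-- merged part: Pool.Agent.Work.MP_5cb0a4_pr.N.Ref
section
open MeasureTheory Finset Filter Topology
open scoped Classical

namespace Pool.Agent.Work.MP_5cb0a4_pr.Z

theorem NRef_Mr (Λ T : Finset V) (c : V) (ρ : V → V) : Mr Λ (sh (-c) ρ) T =
    (∑ ρ' ∈ cls (tr c Λ) ρ, if mon (tr c Λ) ρ' = tr c T then (1 : ℝ) else 0) / zz (tr c Λ) ρ := by
  have h1 := Zm_sh c Λ (sh (-c) ρ)
  rw [sh_sh, add_neg_cancel, sh_zero] at h1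
  rw [Mr, zz_eq, zz_eq, ← h1, ← h1, sum_boole]
  rfl

theorem NRef_cr (U : Finset V) (σ : V → V) (S Λ : Finset V) (T : V → Finset V)
    (hsub : ∀ c ∈ S, tr c Λ ⊆ U)
    (hdisj : ∀ c ∈ S, ∀ c' ∈ S, c ≠ c' → Disjoint (tr c Λ) (tr c' Λ)) :
    ∑ ρ ∈ perf U σ, ∏ c ∈ S, Mr Λ (sh (-c) ρ) (T c) ≤
      (Zm U σ (S.biUnion fun c => tr c (T c)) : ℝ) := by
  simp only [NRef_Mr]
  have key := class_replace U σ S (fun c => tr c Λ) hsub hdisj
    (fun c ρ' => if mon (tr c Λ) ρ' = tr c (T c) then (1 : ℝ) else 0)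
    (fun c _ a b ha hb h => by simp only [local_mon (tr c Λ) a b ha hb h])
    (fun c _ ρ _ => sum_nonneg fun _ _ => by split_ifs <;> norm_num) (fun _ => 1)
    (fun _ _ => zero_le_one) (fun _ _ _ _ _ => rfl)
  simp only [one_mul] at key
  refine key.trans ?_
  rw [← Cls2_card_I, sum_filter]
  refine sum_le_sum fun ρ _ => ?_
  unfold Cls2_I
  by_cases h1 : mon U ρ ⊆ S.biUnion fun c => tr c Λ
  · rw [if_pos h1]
    by_cases h2 : ∀ c ∈ S, mon (tr c Λ) ρ = tr c (T c)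
    · rw [prod_congr rfl fun c hc => if_pos (h2 c hc), prod_const_one, if_pos]
      ext v
      rw [mem_biUnion]
      constructor
      · intro hv
        obtain ⟨c, hc, h3⟩ := mem_biUnion.1 (h1 hv)
        exact ⟨c, hc, h2 c hc ▸ mem_mon.2 ⟨h3, (mem_mon.1 hv).2⟩⟩
      · rintro ⟨c, hc, h3⟩
        rw [← h2 c hc, mem_mon] at h3
        exact mem_mon.2 ⟨hsub c hc h3.1, h3.2⟩
    · push Not at h2
      obtain ⟨c, hc, h3⟩ := h2
      rw [prod_eq_zero hc (if_neg h3)]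
      split_ifs
      exacts [zero_le_one, le_rfl]
  · rw [if_neg h1]
    split_ifs
    exacts [zero_le_one, le_rfl]

theorem NRef_zero_mem (m : ℕ) : (0 : V) ∈ box m :=
  mem_box.2 fun i => by simp

/-- Monomers in disjoint boxes (`class_replace`). -/
theorem ref_det {j m N : ℕ} (c : Fin j → V) (X : Fin j → Finset V) (hX : ∀ i, X i ⊆ box m)
    (hsub : ∀ i, tr (c i) (box m) ⊆ box N)
    (hdisj : ∀ i i', i ≠ i' → Disjoint (tr (c i) (box m)) (tr (c i') (box m))) (σ : V → V) :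
    gam (box N) (fun ρ => ∏ i, Mr (box m) (sh (-c i) ρ) (X i)) σ ≤
      Mr (box N) σ (univ.biUnion fun i => tr (c i) (X i)) := by
  have hinj : Function.Injective c := fun i i' e => by
    by_contra hne
    have h0 : c i ∈ tr (c i) (box m) := mem_tr.2 (by simpa using NRef_zero_mem m)
    exact disjoint_left.1 (hdisj i i' hne) h0 (e ▸ h0)
  have key := NRef_cr (box N) σ (univ.image c) (box m) (Function.extend c X fun _ => ∅)
    (fun v hv => by
      obtain ⟨i, -, rfl⟩ := mem_image.1 hv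
      exact hsub i)
    (fun v hv v' hv' hne => by
      obtain ⟨i, -, rfl⟩ := mem_image.1 hv
      obtain ⟨i', -, rfl⟩ := mem_image.1 hv'
      exact hdisj i i' fun e => hne (e ▸ rfl))
  rw [image_biUnion] at key
  simp only [prod_image hinj.injOn, hinj.extend_apply] at key
  unfold gam Mr
  exact div_le_div_of_nonneg_right key (Nat.cast_nonneg _)

theorem NRef_box (X : Finset V) : ∃ n : ℕ, X ⊆ box n := by
  refine ⟨X.sup fun x => univ.sup fun i => (x i).natAbs, fun x hx => mem_box.2 fun i => ?_⟩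
  have h1 : (x i).natAbs ≤ univ.sup fun i => (x i).natAbs :=
    le_sup (f := fun i => (x i).natAbs) (mem_univ i)
  have h2 : (univ.sup fun i => (x i).natAbs) ≤ X.sup fun x => univ.sup fun i => (x i).natAbs :=
    le_sup (f := fun x : V => univ.sup fun i => (x i).natAbs) hx
  omega

theorem NRef_ev_box (X : Finset V) : ∀ᶠ n : ℕ in atTop, X ⊆ box n := by
  obtain ⟨n, hn⟩ := NRef_box X
  exact (eventually_ge_atTop n).mono fun _ h => hn.trans (box_mono h)

theorem NRef_hd_sub (g : Fin 3 → ℝ) (x y : V) : hd g (y - x) = hd g y - hd g x := by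
  simp only [hd, Pi.sub_apply, Int.cast_sub, mul_sub, sum_sub_distrib]

theorem NRef_gz (g : Fin 3 → ℝ) {j : ℕ} {x y : Fin j → V} (hx : ∀ i, IsEven (x i))
    (hy : ∀ i, ¬ IsEven (y i)) (ix : Function.Injective x) (iy : Function.Injective y) :
    gz g (univ.image x ∪ univ.image y) = ∏ i, Real.exp (-hd g (y i - x i)) := by
  have hd' : Disjoint (univ.image x) (univ.image y) := disjoint_left.2 fun v h1 h2 => by
    obtain ⟨i, -, rfl⟩ := mem_image.1 h1
    obtain ⟨i', -, e⟩ := mem_image.1 h2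
    exact hy i' (e ▸ hx i)
  rw [gz, prod_union hd', prod_image ix.injOn, prod_image iy.injOn, ← prod_mul_distrib]
  refine prod_congr rfl fun i _ => ?_
  rw [← Real.exp_add, sg, sg, if_pos (hx i), if_neg (hy i), NRef_hd_sub]
  congr 1
  ring

theorem NRef_gam_sum {ι : Type} (Λ : Finset V) (s : Finset ι) (f : ι → (V → V) → ℝ) (σ : V → V) :
    gam Λ (fun ρ => ∑ i ∈ s, f i ρ) σ = ∑ i ∈ s, gam Λ (f i) σ := by
  unfold gam
  rw [sum_comm, sum_div]

theorem NRef_gam_mul (Λ : Finset V) (f : (V → V) → ℝ) (a : ℝ) (σ : V → V) :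
    gam Λ (fun ρ => f ρ * a) σ = gam Λ f σ * a := by
  unfold gam
  rw [← sum_mul]
  ring

theorem NRef_jensen {Λ : Finset V} {σ : V → V} (hz : 0 < zz Λ σ) (f : (V → V) → ℝ)
    (hf : ∀ ρ ∈ perf Λ σ, 0 ≤ f ρ) (j : ℕ) : gam Λ f σ ^ j ≤ gam Λ (fun ρ => f ρ ^ j) σ := by
  have hz' : (0 : ℝ) < zz Λ σ := Nat.cast_pos.2 hz
  have key := Real.pow_arith_mean_le_arith_mean_pow (perf Λ σ) (fun _ => ((zz Λ σ : ℝ))⁻¹) f
    (fun _ _ => by positivity) (by
      rw [sum_const, nsmul_eq_mul]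
      exact mul_inv_cancel₀ hz'.ne') hf j
  simp only [← mul_sum] at key
  unfold gam
  rw [div_eq_inv_mul, div_eq_inv_mul]
  exact key

/-- The gauged two point function summed over a pair of sets. -/
noncomputable def NRef_V (g : Fin 3 → ℝ) (m : ℕ) (U W : Finset V) (ρ : V → V) : ℝ :=
  ∑ x ∈ U, ∑ y ∈ W, M2 (box m) ρ x y * Real.exp (-hd g (y - x))

theorem NRef_V_nonneg (g : Fin 3 → ℝ) (m : ℕ) (U W : Finset V) (ρ : V → V) :
    0 ≤ NRef_V g m U W ρ :=
  sum_nonneg fun _ _ => sum_nonneg fun _ _ => mul_nonneg (M2_nonneg _ _ _ _) (Real.exp_pos _).le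

theorem NRef_V_local (g : Fin 3 → ℝ) (m : ℕ) (U W : Finset V) :
    Local (box m) (NRef_V g m U W) := fun σ σ' a b h => by
  unfold NRef_V
  refine sum_congr rfl fun x _ => sum_congr rfl fun y _ => ?_
  have := local_M2 (box m) x y σ σ' a b h
  simp only at this
  rw [this]

theorem NRef_V_tr (g : Fin 3 → ℝ) (m : ℕ) (U W : Finset V) (c : V) (ρ : V → V) :
    NRef_V g m U W ρ = ∑ x ∈ tr c U, ∑ y ∈ tr c W,
      Mr (box m) ρ {x - c, y - c} * Real.exp (-hd g (y - x)) := by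
  unfold NRef_V tr
  rw [sum_image (add_left_injective c).injOn]
  refine sum_congr rfl fun x _ => ?_
  rw [sum_image (add_left_injective c).injOn]
  refine sum_congr rfl fun y _ => ?_
  simp only [add_sub_cancel_right, add_sub_add_right_eq_sub, M2]

theorem NRef_even_tr {c x : V} (hc : IsEven c) : IsEven (x - c) ↔ IsEven x := by
  rw [sub_eq_add_neg, isEven_add, isEven_neg]
  tauto

theorem NRef_expand (g : Fin 3 → ℝ) {j m N : ℕ} {U W : Finset V} (hU : ∀ x ∈ U, IsEven x)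
    (hW : ∀ y ∈ W, ¬ IsEven y) (hUm : U ⊆ box m) (hWm : W ⊆ box m) (c : Fin j → V)
    (hc : ∀ i, IsEven (c i)) (hsub : ∀ i, tr (c i) (box m) ⊆ box N)
    (hdisj : ∀ i i', i ≠ i' → Disjoint (tr (c i) (box m)) (tr (c i') (box m))) (σ : V → V) :
    gam (box N) (fun ρ => ∏ i, NRef_V g m U W (sh (-c i) ρ)) σ ≤
      ∑ x ∈ Fintype.piFinset (fun i => tr (c i) U), ∑ y ∈ Fintype.piFinset (fun i => tr (c i) W),
        Gam (fun X => Mr (box N) σ X * gz g X) x y := by
  have e : (fun ρ => ∏ i, NRef_V g m U W (sh (-c i) ρ)) = fun ρ =>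
      ∑ x ∈ Fintype.piFinset (fun i => tr (c i) U), ∑ y ∈ Fintype.piFinset (fun i => tr (c i) W),
        (∏ i, Mr (box m) (sh (-c i) ρ) {x i - c i, y i - c i}) *
          ∏ i, Real.exp (-hd g (y i - x i)) := by
    funext ρ
    rw [prod_congr rfl fun i _ => NRef_V_tr g m U W (c i) (sh (-c i) ρ), prod_univ_sum]
    refine sum_congr rfl fun x _ => ?_
    rw [prod_univ_sum]
    exact sum_congr rfl fun y _ => prod_mul_distrib
  rw [e, NRef_gam_sum]
  refine sum_le_sum fun x hx => ?_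
  rw [NRef_gam_sum]
  refine sum_le_sum fun y hy => ?_
  have hx' : ∀ i, x i - c i ∈ U := fun i => mem_tr.1 (Fintype.mem_piFinset.1 hx i)
  have hy' : ∀ i, y i - c i ∈ W := fun i => mem_tr.1 (Fintype.mem_piFinset.1 hy i)
  have inj : ∀ z : Fin j → V, (∀ i, z i - c i ∈ box m) → Function.Injective z := fun z hz i i' e => by
    by_contra hne
    exact disjoint_left.1 (hdisj i i' hne) (mem_tr.2 (hz i)) (e ▸ mem_tr.2 (hz i'))
  have ix := inj x fun i => hUm (hx' i)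
  have iy := inj y fun i => hWm (hy' i)
  have hdet := ref_det c (fun i => {x i - c i, y i - c i}) (fun i v hv => by
    rcases mem_insert.1 hv with rfl | hv
    · exact hUm (hx' i)
    · rw [mem_singleton.1 hv]
      exact hWm (hy' i)) hsub hdisj σ
  have eu : (univ.biUnion fun i => tr (c i) {x i - c i, y i - c i}) =
      univ.image x ∪ univ.image y := by
    ext v
    simp only [mem_biUnion, mem_univ, true_and, mem_tr, mem_insert, mem_singleton, sub_left_inj,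
      mem_union, mem_image]
    constructor
    · rintro ⟨i, h | h⟩
      exacts [Or.inl ⟨i, h.symm⟩, Or.inr ⟨i, h.symm⟩]
    · rintro (⟨i, h⟩ | ⟨i, h⟩)
      exacts [⟨i, Or.inl h.symm⟩, ⟨i, Or.inr h.symm⟩]
  rw [eu] at hdet
  rw [NRef_gam_mul, Gam, if_pos ⟨ix, iy⟩,
    NRef_gz g (fun i => (NRef_even_tr (hc i)).1 (hU _ (hx' i)))
      (fun i h => hW _ (hy' i) ((NRef_even_tr (hc i)).2 h)) ix iy]
  exact mul_le_mul_of_nonneg_right hdet (prod_nonneg fun _ _ => (Real.exp_pos _).le)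

/-- Tuples of centres with disjoint boxes. -/
def NRef_Dj (m : ℕ) {j : ℕ} (c : Fin j → V) : Prop :=
  ∀ i i', i ≠ i' → Disjoint (tr (c i) (box m)) (tr (c i') (box m))

theorem NRef_pair (C D : Finset V) {j : ℕ} {i i' : Fin j} (h : i ≠ i') :
    ((Fintype.piFinset fun _ : Fin j => C).filter fun c => c i' - c i ∈ D).card * C.card ≤
      C.card ^ j * D.card := by
  rw [← card_product, ← Fintype.card_piFinset_const, ← card_product]
  refine card_le_card_of_injOn (fun p => (Function.update p.1 i' p.2, p.1 i' - p.1 i)) ?_ ?_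
  · rintro ⟨c, v⟩ hp
    obtain ⟨h1, h2⟩ := mem_product.1 (mem_coe.1 hp)
    obtain ⟨h3, h4⟩ := mem_filter.1 h1
    refine mem_coe.2 (mem_product.2 ⟨Fintype.mem_piFinset.2 fun k => ?_, h4⟩)
    by_cases hk : k = i'
    · subst hk
      simpa using h2
    · simpa [Function.update_of_ne hk] using Fintype.mem_piFinset.1 h3 k
  · rintro ⟨c, v⟩ - ⟨c', v'⟩ - e
    simp only [Prod.mk.injEq] at e
    obtain ⟨e1, e2⟩ := e
    have h1 : ∀ k, k ≠ i' → c k = c' k := fun k hk => by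
      simpa [Function.update_of_ne hk] using congrFun e1 k
    have h2 : v = v' := by simpa using congrFun e1 i'
    refine Prod.ext (funext fun k => ?_) h2
    by_cases hk : k = i'
    · subst hk
      rw [h1 i h] at e2
      exact sub_left_injective e2
    · exact h1 k hk

theorem NRef_bad (C : Finset V) (m j : ℕ) :
    ((Fintype.piFinset fun _ : Fin j => C).filter fun c => ¬ NRef_Dj m c).card * C.card ≤
      j ^ 2 * (C.card ^ j * (box (2 * m)).card) := by
  have hs : ((Fintype.piFinset fun _ : Fin j => C).filter fun c => ¬ NRef_Dj m c) ⊆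
      (univ.filter fun q : Fin j × Fin j => q.1 ≠ q.2).biUnion fun q =>
        (Fintype.piFinset fun _ : Fin j => C).filter fun c => c q.2 - c q.1 ∈ box (2 * m) := by
    intro c hc
    obtain ⟨h1, h2⟩ := mem_filter.1 hc
    unfold NRef_Dj at h2
    push Not at h2
    obtain ⟨i, i', hne, h3⟩ := h2
    obtain ⟨v, h4, h5⟩ := not_disjoint_iff.1 h3
    refine mem_biUnion.2 ⟨(i, i'), by simpa using hne, mem_filter.2 ⟨h1, mem_box.2 fun k => ?_⟩⟩
    have h6 := mem_box.1 (mem_tr.1 h4) k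
    have h7 := mem_box.1 (mem_tr.1 h5) k
    simp only [Pi.sub_apply] at h6 h7 ⊢
    push_cast
    omega
  refine (Nat.mul_le_mul_right _ ((card_le_card hs).trans card_biUnion_le)).trans ?_
  rw [sum_mul]
  refine (sum_le_card_nsmul _ _ _ fun q hq => NRef_pair C _ (mem_filter.1 hq).2).trans ?_
  rw [smul_eq_mul]
  refine Nat.mul_le_mul_right _ ((card_filter_le _ _).trans ?_)
  simp [pow_two]

theorem NRef_pigeon {Λ C : Finset V} {σ : V → V} (hz : 0 < zz Λ σ) (m j : ℕ)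
    (f : V → (V → V) → ℝ) {a B μ : ℝ} (ha : 0 < a) (hμ : 2 * a ≤ μ)
    (hf : ∀ c ρ, IsExt ρ → 0 ≤ f c ρ ∧ f c ρ ≤ B)
    (hC : 2 * (j : ℝ) ^ 2 * (box (2 * m)).card * B ^ j / a ^ j < C.card) (hC0 : 0 < C.card)
    (hav : gam Λ (fun ρ => |(∑ c ∈ C, f c ρ) / C.card - μ|) σ ≤ a) :
    ∃ c ∈ Fintype.piFinset fun _ : Fin j => C, NRef_Dj m c ∧
      a ^ j / 2 ≤ gam Λ (fun ρ => ∏ i, f (c i) ρ) σ := by
  have hn : (0 : ℝ) < C.card := Nat.cast_pos.2 hC0
  have hext : ∀ ρ ∈ perf Λ σ, IsExt ρ := fun ρ hρ => (mem_perf.1 hρ).1.1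
  have hB : 0 ≤ B := (hf 0 id isExt_id).1.trans (hf 0 id isExt_id).2
  have h1 : C.card * a ≤ gam Λ (fun ρ => ∑ c ∈ C, f c ρ) σ := by
    have h2 : gam Λ (fun _ => μ * C.card) σ ≤ gam Λ (fun ρ => ∑ i : Bool,
        if i then ∑ c ∈ C, f c ρ else |(∑ c ∈ C, f c ρ) / C.card - μ| * C.card) σ := by
      refine gam_mono fun ρ _ => ?_
      rw [Fintype.sum_bool, if_pos rfl, if_neg (by simp)]
      have h3 := mul_le_mul_of_nonneg_right (neg_abs_le ((∑ c ∈ C, f c ρ) / C.card - μ)) hn.le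
      rw [sub_mul, div_mul_cancel₀ _ hn.ne'] at h3
      linarith
    rw [gam_const hz, NRef_gam_sum, Fintype.sum_bool] at h2
    simp only [if_true, Bool.false_eq_true, if_false] at h2
    rw [NRef_gam_mul] at h2
    nlinarith [mul_le_mul_of_nonneg_right hav hn.le, mul_le_mul_of_nonneg_right hμ hn.le]
  have h2 : (C.card * a) ^ j ≤ ∑ c ∈ Fintype.piFinset fun _ : Fin j => C,
      gam Λ (fun ρ => ∏ i, f (c i) ρ) σ := by
    refine (pow_le_pow_left₀ (by positivity) h1 j).trans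
      ((NRef_jensen hz _ (fun ρ hρ => sum_nonneg fun c _ => (hf c ρ (hext ρ hρ)).1) j).trans ?_)
    rw [← NRef_gam_sum]
    exact gam_mono fun ρ _ => (sum_pow' C (fun c => f c ρ) j).le
  by_contra hcon
  push Not at hcon
  have h3 : ∀ c ∈ Fintype.piFinset fun _ : Fin j => C, gam Λ (fun ρ => ∏ i, f (c i) ρ) σ ≤
      a ^ j / 2 + if ¬ NRef_Dj m c then B ^ j else 0 := by
    intro c hc
    by_cases hd : NRef_Dj m c
    · rw [if_neg (not_not.2 hd), add_zero]
      exact (hcon c hc hd).le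
    · rw [if_pos hd]
      have h4 : gam Λ (fun ρ => ∏ i, f (c i) ρ) σ ≤ gam Λ (fun _ => B ^ j) σ := by
        refine gam_mono fun ρ hρ => ?_
        have := prod_le_prod (s := (univ : Finset (Fin j))) (f := fun i => f (c i) ρ)
          (g := fun _ => B) (fun i _ => (hf _ ρ (hext ρ hρ)).1) fun i _ => (hf _ ρ (hext ρ hρ)).2
        simpa using this
      rw [gam_const hz] at h4
      have : 0 < a ^ j / 2 := by positivity
      linarith
  have h4 := h2.trans (sum_le_sum h3)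
  rw [sum_add_distrib, sum_const, Fintype.card_piFinset_const, ← sum_filter, sum_const,
    nsmul_eq_mul, nsmul_eq_mul, mul_pow] at h4
  have h5 : (((Fintype.piFinset fun _ : Fin j => C).filter fun c => ¬ NRef_Dj m c).card : ℝ) *
      C.card ≤ (j : ℝ) ^ 2 * ((C.card : ℝ) ^ j * (box (2 * m)).card) := by
    exact_mod_cast NRef_bad C m j
  push_cast at h4
  rw [div_lt_iff₀ (by positivity)] at hC
  have h6 : (0 : ℝ) < (C.card : ℝ) ^ j := by positivity
  have h7 := mul_le_mul_of_nonneg_right h5 (pow_nonneg hB j)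
  have h8 := mul_le_mul_of_nonneg_right h4 hn.le
  have h9 := mul_lt_mul_of_pos_right hC h6
  clear * - j m C B a h7 h8 h9; nlinarith

theorem NRef_ae {ν : Measure Dimer} (h : IsErgodicGibbs ν) {Λ : Finset V} {f : (V → V) → ℝ}
    (hf : Local Λ f) {a : ℝ} (ha : 0 < a) (n₀ : ℕ) : ∃ C : ℕ → Finset V,
      (∀ n, (∀ c ∈ C n, IsEven c) ∧ n₀ ≤ (C n).card) ∧ ∀ᵐ τ ∂ν, ∃ n, ∀ N : ℕ,
        gam (box N) (fun ρ => |(∑ c ∈ C n, f (sh (-c) ρ)) / (C n).card - ∫ τ', f τ'.1 ∂ν|) τ.1 ≤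
          a := by
  have := h.prob
  choose C h1 h2 h3 using fun n : ℕ =>
    erg_avg h hf (η := a * (1 / ((n : ℝ) + 1))) (by positivity) n₀
  refine ⟨C, fun n => ⟨h1 n, h2 n⟩, ?_⟩
  rw [ae_iff, ← measureReal_eq_zero_iff]
  refine le_antisymm (ge_of_tendsto' tendsto_one_div_add_atTop_nhds_zero_nat fun n => ?_)
    measureReal_nonneg
  have hl : Local ((C n).biUnion fun c => tr c Λ) fun ρ =>
      |(∑ c ∈ C n, f (sh (-c) ρ)) / (C n).card - ∫ τ', f τ'.1 ∂ν| := fun σ σ' e e' hh => by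
    have : ∑ c ∈ C n, f (sh (-c) σ) = ∑ c ∈ C n, f (sh (-c) σ') :=
      sum_congr rfl fun c hc => hf.sh c σ σ' e e' fun x hx => hh x (mem_biUnion.2 ⟨c, hc, hx⟩)
    simp only [this]
  refine (measureReal_mono ?_).trans ((doob (im_of_eg h) hl (fun _ _ => abs_nonneg _) ha).trans ?_)
  · intro τ hτ
    simp only [Set.mem_ofPred_eq, not_exists, not_forall, not_le] at hτ ⊢
    exact hτ n
  · rw [div_le_iff₀ ha, mul_comm]
    exact h3 n

theorem NRef_mean {ν : Measure Dimer} (h : IM ν) (hf : FinPos ν) {g : Fin 3 → ℝ} {g₁ : ℝ}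
    (h0 : 0 < g₁) (hg : ∀ w, ¬ IsEven w → g₁ ≤ Gbar ν w * Real.exp (-hd g w)) {U W : Finset V}
    (hU : ∀ x ∈ U, IsEven x) (hW : ∀ y ∈ W, ¬ IsEven y) : ∃ m : ℕ, U ⊆ box m ∧ W ⊆ box m ∧
      g₁ / 2 * (U.card * W.card) ≤ ∫ τ, NRef_V g m U W τ.1 ∂ν := by
  have := h.prob
  have h1 : ∀ᶠ m : ℕ in atTop, ∀ x ∈ U, ∀ y ∈ W,
      g₁ / 2 ≤ (∫ τ, M2 (box m) τ.1 x y ∂ν) * Real.exp (-hd g (y - x)) := by
    refine (eventually_all_finset U).2 fun x hx => (eventually_all_finset W).2 fun y hy => ?_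
    have h2 := hg (y - x) fun e => hW y hy ((NRef_even_tr (hU x hx)).1 e)
    exact (((tendsto_Gbar h hf (hU x hx) (hW y hy)).mul_const _).eventually_const_lt
      (lt_of_lt_of_le (by linarith) h2)).mono fun _ => le_of_lt
  obtain ⟨m, h2, h3, h4⟩ := ((NRef_ev_box U).and ((NRef_ev_box W).and h1)).exists
  refine ⟨m, h2, h3, ?_⟩
  have hi : ∀ x y, Integrable (fun τ : Dimer => M2 (box m) τ.1 x y * Real.exp (-hd g (y - x))) ν :=
    fun x y => ((local_M2 (box m) x y).integrable ν).mul_const _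
  unfold NRef_V
  rw [integral_finsetSum _ fun x _ => integrable_finsetSum _ fun y _ => hi x y]
  have h5 : ∑ _x ∈ U, ∑ _y ∈ W, g₁ / 2 = g₁ / 2 * (U.card * W.card) := by
    simp only [sum_const, nsmul_eq_mul]
    ring
  rw [← h5]
  refine sum_le_sum fun x hx => ?_
  rw [integral_finsetSum _ fun y _ => hi x y]
  refine sum_le_sum fun y hy => ?_
  rw [integral_mul_const]
  exact h4 x hx y hy

/-- The reference lower bound: `erg_avg` for the mean of the gauged two point function over a fixed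
pair of sets, `doob`, `ref_det`, Jensen, and the small fraction of overlapping centres. -/
theorem ref_ae {ν : Measure Dimer} (h : IsErgodicGibbs ν) (hf : FinPos ν) {g : Fin 3 → ℝ}
    (hg : Gauged (Gbar ν) g) : ∃ cs : ℕ → ℝ, (∀ j, 0 < cs j) ∧ ∀ᵐ τ ∂ν, ∀ j K : ℕ,
      ∃ S : Finset ((Fin j → Finset V) × (Fin j → Finset V)), (∀ p ∈ S, Fam K p.1 p.2) ∧
        ∀ᶠ N : ℕ in atTop, ∃ p ∈ S, cs j * fsz p.1 p.2 ≤
          ∑ x ∈ Fintype.piFinset p.1, ∑ y ∈ Fintype.piFinset p.2,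
            Gam (fun X => Mr (box N) τ.1 X * gz g X) x y := by
  obtain ⟨g₁, g₂, E, h0, hb, -⟩ := hg
  refine ⟨fun j => (g₁ / 4) ^ j / 2, fun j => by positivity, ?_⟩
  refine ae_all_iff.2 fun j => ae_all_iff.2 fun K => ?_
  obtain ⟨U, hU, hUK⟩ := exists_large True (K + 1) ∅
  obtain ⟨W, hW, hWK⟩ := exists_large False (K + 1) ∅
  have hU' : ∀ x ∈ U, IsEven x := fun x hx => (hU x hx).1.2 trivial
  have hW' : ∀ y ∈ W, ¬ IsEven y := fun y hy => (hW y hy).1.1
  obtain ⟨m, hUm, hWm, hμ⟩ := NRef_mean (im_of_eg h) hf h0 (fun w hw => (hb w hw).1) hU' hW'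
  obtain ⟨B, hB⟩ := (NRef_V_local g m U W).bdd
  have hUp : (0 : ℝ) < U.card := Nat.cast_pos.2 (by omega)
  have hWp : (0 : ℝ) < W.card := Nat.cast_pos.2 (by omega)
  have ha : 0 < g₁ / 4 * (U.card * W.card) := by positivity
  obtain ⟨n₀, hn₀⟩ := exists_nat_gt (2 * (j : ℝ) ^ 2 * (box (2 * m)).card * B ^ j /
    (g₁ / 4 * (U.card * W.card)) ^ j)
  obtain ⟨C, hC, hae⟩ := NRef_ae h (NRef_V_local g m U W) ha (n₀ + 1)
  refine hae.mono fun τ ⟨n, hn⟩ => ?_
  obtain ⟨hCe, hCn⟩ := hC n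
  refine ⟨(Fintype.piFinset fun _ : Fin j => C n).image fun c =>
    (fun i => tr (c i) U, fun i => tr (c i) W), fun p hp => ?_, ?_⟩
  · obtain ⟨c, hc, rfl⟩ := mem_image.1 hp
    intro i
    have he := hCe _ (Fintype.mem_piFinset.1 hc i)
    refine ⟨fun x hx => (NRef_even_tr he).1 (hU' _ (mem_tr.1 hx)),
      fun y hy e => hW' _ (mem_tr.1 hy) ((NRef_even_tr he).2 e), ?_, ?_⟩
    · simp only [card_tr]
      omega
    · simp only [card_tr]
      omega
  · refine (NRef_ev_box ((C n).biUnion fun c => tr c (box m))).mono fun N hN => ?_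
    obtain ⟨c, hc, hd, hle⟩ := NRef_pigeon (zz_dimer_pos (box N) τ) m j
      (fun c ρ => NRef_V g m U W (sh (-c) ρ)) (B := B) ha (by linarith)
      (fun c ρ hρ => ⟨NRef_V_nonneg _ _ _ _ _, (le_abs_self _).trans (hB _ (isExt_sh hρ _))⟩)
      (hn₀.trans_le (Nat.cast_le.2 (by omega))) (by omega) (hn N)
    have hc' := Fintype.mem_piFinset.1 hc
    refine ⟨_, mem_image_of_mem _ hc, le_trans (le_of_eq ?_) (hle.trans
      (NRef_expand g hU' hW' hUm hWm c (fun i => hCe _ (hc' i))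
        (fun i x hx => hN (mem_biUnion.2 ⟨_, hc' i, hx⟩)) hd τ.1))⟩
    simp only [fsz, card_tr, prod_const, card_univ, Fintype.card_fin, mul_pow]
    ring

end Pool.Agent.Work.MP_5cb0a4_pr.Z
end

-- merged part: Pool.Agent.Work.MP_5cb0a4_pr.N.Limit2
section
open MeasureTheory Finset Filter Topology
open scoped Classical

namespace Pool.Agent.Work.MP_5cb0a4_pr.Z

theorem NLimit2_pair (g : Fin 3 → ℝ) {x y : V} (hx : IsEven x) (hy : ¬ IsEven y) :
    gz g {x, y} = Real.exp (-hd g (y - x)) := by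
  have := gz_insert g hx hy (notMem_empty x) (notMem_empty y)
  rwa [gz_empty, one_mul, insert_empty_eq] at this

theorem NLimit2_many (Λ : Finset V) (σ : V → V) (g : Fin 3 → ℝ) {B : ℝ} (hB : 1 ≤ B) (n : ℕ)
    (hz : 0 < zz Λ σ) (X : Finset V) : ∀ Y : Finset V, (∀ x ∈ X, IsEven x) →
      (∀ y ∈ Y, ¬ IsEven y) → Y.card ≤ n →
      (∀ x ∈ X, ∀ y ∈ Y, Mr Λ σ {x, y} * gz g {x, y} ≤ B) →
      Mr Λ σ (X ∪ Y) * gz g (X ∪ Y) ≤ (n * B + 1) ^ X.card := by
  have h0 : (0 : ℝ) ≤ n * B := by positivity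
  induction X using Finset.induction_on with
  | empty =>
    intro Y _ hY _ _
    rw [empty_union, card_empty, pow_zero]
    by_cases e : Mr Λ σ Y = 0
    · rw [e, zero_mul]
      exact zero_le_one
    have h1 := Mr_neutral e
    rw [filter_false_of_mem hY, filter_true_of_mem hY, card_empty, eq_comm, card_eq_zero] at h1
    rw [h1, Mr_empty hz, gz_empty, one_mul]
  | insert x X hx ih =>
    intro Y hX hY hn h
    have ex := hX x (mem_insert_self _ _)
    have hX' : ∀ v ∈ X, IsEven v := fun v hv => hX v (mem_insert_of_mem hv)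
    refine (mul_le_mul_of_nonneg_right (Mr_switch Λ σ X Y x hX' hY ex hx) (gz_pos _ _).le).trans ?_
    rw [sum_mul, card_insert_of_notMem hx, pow_succ']
    refine (sum_le_card_nsmul _ _ (B * (n * B + 1) ^ X.card) fun y hy => ?_).trans ?_
    · have e : insert x X ∪ Y = insert x (insert y (X ∪ Y.erase y)) := by
        rw [← union_insert, insert_erase hy, insert_union]
      have e1 : gz g (insert x X ∪ Y) = gz g {x, y} * gz g (X ∪ Y.erase y) := by
        rw [e, NLimit2_pair g ex (hY y hy), mul_comm]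
        refine gz_insert g ex (hY y hy) (fun h1 => ?_) fun h1 => ?_
        · exact (mem_union.1 h1).elim hx fun h2 => hY x (mem_of_mem_erase h2) ex
        · exact (mem_union.1 h1).elim (fun h2 => hY y hy (hX' y h2)) (notMem_erase y Y)
      rw [e1, mul_mul_mul_comm]
      exact mul_le_mul (h x (mem_insert_self _ _) y hy)
        (ih _ hX' (fun v hv => hY v (mem_of_mem_erase hv)) (card_erase_le.trans hn)
          fun u hu v hv => h u (mem_insert_of_mem hu) v (mem_of_mem_erase hv))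
        (mul_nonneg (Mr_nonneg _ _ _) (gz_pos _ _).le) (zero_le_one.trans hB)
    · rw [nsmul_eq_mul, ← mul_assoc]
      refine mul_le_mul_of_nonneg_right ?_ (by positivity)
      have : (Y.card : ℝ) ≤ n := Nat.cast_le.2 hn
      nlinarith

/-- Bounds for many monomers from bounds for pairs (`Mr_switch`, `Mr_neutral`). -/
theorem many_le (Λ : Finset V) (σ : V → V) (g : Fin 3 → ℝ) {B : ℝ} (hB : 1 ≤ B) (X : Finset V)
    (hz : 0 < zz Λ σ)
    (h : ∀ x ∈ X, ∀ y ∈ X, IsEven x → ¬ IsEven y → Mr Λ σ {x, y} * gz g {x, y} ≤ B) :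
    Mr Λ σ X * gz g X ≤ (X.card * B + 1) ^ X.card := by
  have h1 := NLimit2_many Λ σ g hB X.card hz (X.filter IsEven) (X.filter fun v => ¬ IsEven v)
    (fun _ hx => (mem_filter.1 hx).2) (fun _ hx => (mem_filter.1 hx).2) (card_filter_le _ _)
    fun x hx y hy => h x (mem_filter.1 hx).1 y (mem_filter.1 hy).1 (mem_filter.1 hx).2
      (mem_filter.1 hy).2
  rw [filter_union_filter_not_eq] at h1
  exact h1.trans (pow_le_pow_right₀ (le_add_of_nonneg_left (by positivity)) (card_filter_le _ _))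

theorem NLimit2_int (Φ : (Finset V → ℝ) → ℝ) (N : ℕ) (ν : Measure Dimer) [IsFiniteMeasure ν] :
    Integrable (fun τ : Dimer => Φ (Mr (box N) τ.1)) ν :=
  Local.integrable (Λ := box N) (g := fun σ => Φ (Mr (box N) σ))
    (fun σ σ' a b h => congrArg Φ (funext fun X => local_Mr _ X σ σ' a b h)) ν

theorem NLimit2_Gb (M : Finset V → ℝ) (g : Fin 3 → ℝ) (bg : Finset V) (x y : V) (hx : IsEven x)
    (hy : ¬ IsEven y) : Gb (fun X => M X * gz g X) bg x y =
      Gb M bg x y * (gz g bg * Real.exp (-hd g (y - x))) := by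
  unfold Gb
  split_ifs with e
  · rw [zero_mul]
  · rw [← gz_insert g hx hy (fun h => e (Or.inl h)) fun h => e (Or.inr h)]

theorem NLimit2_lim {l : Filter ℕ} {F : ℕ → Finset V → ℝ} {G : Finset V → ℝ}
    (h : ∀ X, Tendsto (fun j => F j X) l (𝓝 (G X))) (bg : Finset V) (x y : V) :
    Tendsto (fun j => Gb (F j) bg x y) l (𝓝 (Gb G bg x y)) := by
  unfold Gb
  split_ifs
  exacts [tendsto_const_nhds, h _]

/-- The bound for a pair. -/
theorem NLimit2_bound {G : V → ℝ} {g : Fin 3 → ℝ} {g₁ M : ℝ} {x y : V} (h₁ : 0 < g₁) (hM : 0 ≤ M)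
    (d : Dir) (hg : g₁ ≤ G (x + dv d - (y - dv d)) * Real.exp (-hd g (x + dv d - (y - dv d))))
    (h : M * G (x + dv d - (y - dv d)) ≤ 2) :
    M * Real.exp (-hd g (y - x)) ≤ 2 * Real.exp (-(2 * hd g (dv d))) / g₁ := by
  have e : Real.exp (-hd g (x + dv d - (y - dv d))) * Real.exp (-hd g (y - x)) =
      Real.exp (-(2 * hd g (dv d))) := by
    rw [← Real.exp_add]
    congr 1
    simp only [hd, Fin.sum_univ_three, Pi.sub_apply, Pi.add_apply]
    push_cast
    ring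
  rw [le_div_iff₀ h₁, ← e]
  have h2 := Real.exp_pos (-hd g (x + dv d - (y - dv d)))
  have h3 := Real.exp_pos (-hd g (y - x))
  have h4 := mul_le_mul_of_nonneg_left hg (mul_nonneg hM h3.le)
  have h5 := mul_le_mul_of_nonneg_right h (mul_pos h2 h3).le
  linarith

/-- Along a subsequence, almost surely every limit of the monomer correlations in the gauge is a
quenched state. -/
theorem limit2 {ν : Measure Dimer} (h : IsErgodicGibbs ν) (hf : FinPos ν) (ht : TR ν ν)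
    {g : Fin 3 → ℝ} (hg : Gauged (Gbar ν) g) : ∃ (C cs : ℕ → ℝ) (a : ℝ), (∀ j, 0 < cs j) ∧ 0 < a ∧
      PSD (Gt (Gbar ν) g) (Gt (Gbar ν) g) a ∧ ∀ ψ : ℕ → ℕ, StrictMono ψ → ∃ φ : ℕ → ℕ,
        StrictMono φ ∧ ∀ᵐ τ ∂ν, ∀ 𝒰 : Ultrafilter ℕ, (𝒰 : Filter ℕ) ≤ atTop →
          ∃ G, QS C cs a (Gt (Gbar ν) g) G ∧ ∀ X,
            Tendsto (fun j => Mr (box (ψ (φ j))) τ.1 X * gz g X) (𝒰 : Filter ℕ) (𝓝 (G X)) := by
  have := h.prob
  obtain ⟨cs, c0, href⟩ := ref_ae h hf hg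
  obtain ⟨g₁, g₂, E, h₁, hg, -⟩ := hg
  obtain ⟨B, hB, hB'⟩ : ∃ B : ℝ, 1 ≤ B ∧ 2 * Real.exp (-(2 * hd g (dv (0, true)))) / g₁ ≤ B :=
    ⟨max _ _, le_max_left _ _, le_max_right _ _⟩
  have gt : ∀ x y, IsEven x → ¬ IsEven y → Gt (Gbar ν) g x y =
      TG (Gbar ν) x y * (1 * Real.exp (-hd g (y - x))) := fun x y _ _ => by rw [one_mul]; rfl
  refine ⟨fun k => (k * B + 1) ^ k, cs, 2 * (1 * 1 * Real.exp (2 * n1 g)), c0, by positivity,
    ((ht.psd_bar (im_of_eg h) hf).gauge zero_le_two g zero_le_one zero_le_one).congr gt gt,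
    fun ψ hψ => ?_⟩
  obtain ⟨T, T1, T2⟩ := TopologicalSpace.exists_countable_dense (V × Dir → ℝ)
  have := T1.to_subtype
  have e0 : IsEven 0 := by simp [IsEven]
  have ne : Nonempty ({p : (V × Dir) × V × Dir // IsEven p.1.1 ∧ IsEven p.2.1} ⊕
      {D : Finset (V × Dir) // ∀ e ∈ D, IsEven e.1} × T) :=
    ⟨.inl ⟨((0, 0, true), 0, 0, true), e0, e0⟩⟩
  obtain ⟨φ, hφ, hl⟩ := Limit_sub (ι := {p : (V × Dir) × V × Dir // IsEven p.1.1 ∧ IsEven p.2.1} ⊕
      {D : Finset (V × Dir) // ∀ e ∈ D, IsEven e.1} × T) ν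
    (Sum.elim (fun p N τ => max (M2 (box (ψ N)) τ.1 p.1.1.1 (oe p.1.2) *
      Gbar ν (oe p.1.1 - p.1.2.1) - 1) 0) fun p N τ =>
        max (-Kq (M2 (box (ψ N)) τ.1) (TG (Gbar ν)) p.1.1 p.2.1 - 2 * ∑ e ∈ p.1.1, p.2.1 e ^ 2) 0)
    (by rintro (p | p) N τ <;> exact le_max_right _ _)
    (by
      rintro (p | p) N
      · exact NLimit2_int (fun M => max (M {p.1.1.1, oe p.1.2} *
          Gbar ν (oe p.1.1 - p.1.2.1) - 1) 0) _ ν
      · exact NLimit2_int (fun M => max (-Kq (fun x y => M {x, y}) (TG (Gbar ν)) p.1.1 p.2.1 -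
          2 * ∑ e ∈ p.1.1, p.2.1 e ^ 2) 0) _ ν)
    (by
      rintro (p | p)
      · exact (ht.le _ _ p.2.1 p.2.2).comp hψ.tendsto_atTop
      · exact (ht.psd _ p.1.2 _).comp hψ.tendsto_atTop)
  refine ⟨φ, hφ, ?_⟩
  filter_upwards [hl, href] with τ hl href 𝒰 hU
  have z := fun j => zz_dimer_pos (box (ψ (φ j))) τ
  have nn : ∀ j X, 0 ≤ Mr (box (ψ (φ j))) τ.1 X * gz g X := fun j X =>
    mul_nonneg (Mr_nonneg _ _ _) (gz_pos _ _).le
  have pb : ∀ x y, IsEven x → ¬ IsEven y → ∀ᶠ j in atTop,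
      Mr (box (ψ (φ j))) τ.1 {x, y} * gz g {x, y} ≤ B := fun x y hx hy => by
    have h2 : IsEven (y - dv (0, true)) := by
      by_contra h2
      exact hy (by simpa using (isEven_add_dv (d := (0, true))).2 h2)
    have h3 : ¬ IsEven (x + dv (0, true) - (y - dv (0, true))) := by
      rw [sub_eq_add_neg, isEven_add, isEven_neg, isEven_add_dv]
      tauto
    refine ((hl (.inl ⟨((x, 0, true), y - dv (0, true), 0, true), hx, h2⟩)).eventually
      (ge_mem_nhds one_pos)).mono fun j hj => ?_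
    have h4 := (le_max_left _ _).trans hj
    simp only [oe, sub_add_cancel] at h4
    rw [NLimit2_pair g hx hy]
    exact (NLimit2_bound h₁ (Mr_nonneg _ _ _) _ (hg _ h3).1 (by rw [M2] at h4; linarith)).trans hB'
  have ex : ∀ X : Finset V, ∃ c, c ≤ (X.card * B + 1) ^ X.card ∧
      Tendsto (fun j => Mr (box (ψ (φ j))) τ.1 X * gz g X) (𝒰 : Filter ℕ) (𝓝 c) := fun X => by
    have e : ∀ᶠ j in atTop, ∀ x ∈ X, ∀ y ∈ X, IsEven x → ¬ IsEven y →
        Mr (box (ψ (φ j))) τ.1 {x, y} * gz g {x, y} ≤ B :=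
      (eventually_all_finset _).2 fun x _ => (eventually_all_finset _).2 fun y _ =>
        eventually_all.2 fun hx => eventually_all.2 fun hy => pb x y hx hy
    obtain ⟨c, c1, c2⟩ := (isCompact_Icc (a := (0 : ℝ))
      (b := (X.card * B + 1) ^ X.card)).ultrafilter_le_nhds
      (𝒰.map fun j => Mr (box (ψ (φ j))) τ.1 X * gz g X) (le_principal_iff.2 (hU (e.mono fun j hj =>
        ⟨nn j X, many_le _ _ g hB X (z j) hj⟩)))
    exact ⟨c, c1.2, c2⟩
  choose G hb hG using ex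
  refine ⟨G, ⟨?_, fun X => ge_of_tendsto' (hG X) fun j => nn j X, hb, fun bg => ?_,
    fun bg x₀ y₀ a b c d => ?_, ?_, fun j K => ?_⟩, hG⟩
  · exact tendsto_nhds_unique (hG ∅)
      (by simp only [Mr_empty (z _), gz_empty, mul_one]; exact tendsto_const_nhds)
  · refine PSD.lim (l := (𝒰 : Filter ℕ)) (fun j => (((exact_self _ (isExt_dimer τ) bg).gauge (by positivity) g
      (gz_pos g bg).le (gz_pos g bg).le).congr (NLimit2_Gb _ g bg) (NLimit2_Gb _ g bg)))
      (NLimit2_lim hG bg) (NLimit2_lim hG bg) ((((hG bg).pow 2).const_mul _).congr fun j => ?_)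
    ring
  · refine PSD.lim (l := (𝒰 : Filter ℕ)) (fun j => (((exact_cross _ (isExt_dimer τ) bg a b c d).gauge
      (mul_nonneg zero_le_two (mul_nonneg (Mr_nonneg _ _ _) (Mr_nonneg _ _ _))) g
      (gz_pos g bg).le (gz_pos g _).le).congr
      (H := trunc (Gb (fun X => Mr (box (ψ (φ j))) τ.1 X * gz g X) bg) x₀ y₀) (fun x y hx hy => ?_)
      (NLimit2_Gb _ g _))) (fun x y => ?_) (NLimit2_lim hG _)
      ((((hG bg).mul (hG _)).const_mul _).congr fun j => ?_)
    · unfold trunc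
      split_ifs
      exacts [(zero_mul _).symm, NLimit2_Gb _ g bg x y hx hy]
    · unfold trunc
      split_ifs
      exacts [tendsto_const_nhds, NLimit2_lim hG bg x y]
    · ring
  · have h2 : PSD (fun x y => G {x, y} / gz g {x, y}) (TG (Gbar ν)) 2 := fun D hD t => by
      refine T2.induction (P := fun t => 0 ≤ Kq (fun x y => G {x, y} / gz g {x, y}) (TG (Gbar ν)) D t +
        2 * ∑ e ∈ D, t e ^ 2) (fun t ht => ?_) (isClosed_le continuous_const ?_) t
      · have h3 : Tendsto (fun j => Kq (M2 (box (ψ (φ j))) τ.1) (TG (Gbar ν)) D t) (𝒰 : Filter ℕ)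
            (𝓝 (Kq (fun x y => G {x, y} / gz g {x, y}) (TG (Gbar ν)) D t)) :=
          tendsto_finsetSum _ fun e _ => tendsto_finsetSum _ fun f _ =>
            (((((hG _).div_const _).congr fun j =>
              mul_div_cancel_right₀ _ (gz_pos _ _).ne').mul_const _).const_mul _)
        have h4 := tendsto_nhds_unique ((h3.neg.sub_const _).max tendsto_const_nhds)
          ((hl (.inr (⟨D, hD⟩, ⟨t, ht⟩))).mono_left hU)
        have h5 := (le_max_left _ _).trans h4.le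
        linarith
      · unfold Kq
        fun_prop
    refine (h2.symm.gauge zero_le_two g zero_le_one zero_le_one).congr gt fun x y hx hy => ?_
    rw [one_mul, ← NLimit2_pair g hx hy, div_mul_cancel₀ _ (gz_pos _ _).ne', Gb, if_neg (by simp),
      insert_empty_eq]
  · obtain ⟨S, S1, S2⟩ := href j K
    obtain ⟨p, p1, p2⟩ := (Ultrafilter.eventually_exists_mem_iff S.finite_toSet).1
      (hU ((hψ.comp hφ).tendsto_atTop.eventually S2))
    refine ⟨p.1, p.2, S1 p p1, ge_of_tendsto (tendsto_finsetSum _ fun x _ =>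
      tendsto_finsetSum _ fun y _ => ?_) p2⟩
    unfold Gam
    split_ifs
    exacts [hG _, tendsto_const_nhds]

end Pool.Agent.Work.MP_5cb0a4_pr.Z
end

-- merged part: Pool.Agent.Work.MP_5cb0a4_pr.N.S1H
section
open MeasureTheory Finset Filter Topology
open scoped Classical

namespace Pool.Agent.Work.MP_5cb0a4_pr.Z

theorem NS1H_fix {k R m : ℕ} {x y : Fin k → V} (hp : Pos x y R m) {T T' : Finset V}
    (hT : ∀ t, t ∈ T ↔ (∃ i, x i = t) ∨ ∃ i, y i = t) (hT' : ∀ t, t ∈ T' ↔ t - e0 ∈ T)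
    {L : ℕ} (hL : 1 ≤ L) {C : Finset V} (hCe : ∀ c ∈ C, IsEven c)
    (hCs : ∀ c ∈ C, tr c (box m) ⊆ box (L - 1))
    (hCd : ∀ c ∈ C, ∀ c' ∈ C, c ≠ c' → Disjoint (tr c (box m)) (tr c' (box m)))
    (σ₁ σ₂ : V → V) {δ : ℝ} (hδ1 : δ ≤ 1) {S : Finset V} (hS : S ⊆ C)
    {H : (V → Sym2 V) → ℝ} (hH0 : ∀ U, 0 ≤ H U) {N : Set V} (hH : LocU N H)
    (hN1 : ∀ v ∈ N, v ∈ box (L - 1)) (hN2 : ∀ v ∈ N, ∀ c ∈ C, v ∉ tr c (box m)) :
    ∑ ρ₁ ∈ perf (box L) σ₁, (∑ ρ₂ ∈ perf (box L) σ₂,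
      (H (un2 ρ₁ ρ₂) * ∏ c ∈ C \ S, (1 - δ * S1_e x R c ρ₁ ρ₂)) *
      ∏ c ∈ S, Mr (box m) (sh (-c) ρ₂) T') * ∏ c ∈ S, Mr (box m) (sh (-c) ρ₁) T ≤
    ∑ p ∈ PL L ×ˢ PL L, H (un2 p.1 p.2) *
      ((∏ c ∈ S, S1_e x R c p.1 p.2) * ∏ c ∈ C \ S, (1 - δ * S1_e x R c p.1 p.2)) := by
  have hm : R ≤ m := by have := hp.hm; omega
  have hs : ∀ c ∈ S, tr c (box m) ⊆ box (L - 1) := fun c hc => hCs c (hS hc)
  have hs' : ∀ c ∈ S, tr c (box m) ⊆ box L := fun c hc =>
    (hs c hc).trans (box_mono (Nat.sub_le L 1))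
  have hd : ∀ c ∈ S, ∀ c' ∈ S, c ≠ c' → Disjoint (tr c (box m)) (tr c' (box m)) :=
    fun c hc c' hc' => hCd c (hS hc) c' (hS hc')
  have hd' : ∀ c ∈ C \ S, ∀ c' ∈ S, Disjoint (tr c (box m)) (tr c' (box m)) := fun c hc c' hc' =>
    hCd c (mem_sdiff.1 hc).1 c' (hS hc') fun h => (mem_sdiff.1 hc).2 (h ▸ hc')
  have hn : ∀ c ∈ C \ S, ∀ v ∈ tr c (box m), v ∉ S.biUnion fun c => tr c (box m) := by
    intro c hc v hv h
    obtain ⟨c', k1, k2⟩ := mem_biUnion.1 h
    exact disjoint_left.1 (hd' c hc c' k1) hv k2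
  have hn' : ∀ v ∈ N, v ∉ S.biUnion fun c => tr c (box m) := fun v hv h => by
    obtain ⟨c, k1, k2⟩ := mem_biUnion.1 h
    exact hN2 v hv c (hS k1) k2
  have hG0 : ∀ ρ₁ ρ₂, 0 ≤ ∏ c ∈ C \ S, (1 - δ * S1_e x R c ρ₁ ρ₂) := fun ρ₁ ρ₂ =>
    prod_nonneg fun c _ => S1_e_le x R c ρ₁ ρ₂ hδ1
  have hG : ∀ ρ₁ ρ₂, 0 ≤ H (un2 ρ₁ ρ₂) * ∏ c ∈ C \ S, (1 - δ * S1_e x R c ρ₁ ρ₂) := fun ρ₁ ρ₂ =>
    mul_nonneg (hH0 _) (hG0 ρ₁ ρ₂)
  refine (sum_le_sum fun ρ₁ _ => mul_le_mul_of_nonneg_right (S1_cr (box L) σ₂ S (box m) T' hs' hd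
    _ (hG ρ₁) fun a b _ _ h => congrArg₂ _ (hH _ _ fun v hv => by simp only [un2, h v (hn' v hv)])
      (prod_congr rfl fun c hc => by rw [S1_e_congr x hm fun v hv => by rw [h v (hn c hc v hv)]]))
    (prod_nonneg fun c _ => Mr_nonneg _ _ _)).trans ?_
  refine (S1_cr (box L) σ₁ S (box m) T hs' hd _ (fun ρ₁ => sum_nonneg fun ρ₂ _ => hG ρ₁ ρ₂)
    fun a b _ _ h => sum_congr rfl fun ρ₂ _ => congrArg₂ _
      (hH _ _ fun v hv => by simp only [un2, h v (hn' v hv)]) (prod_congr rfl fun c hc => by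
        rw [S1_e_congr x hm fun v hv => by rw [h v (hn c hc v hv)]])).trans ?_
  rw [← sum_product']
  have key : ∀ p ∈ ((cls (box L) σ₁).filter fun ρ => mon (box L) ρ = S.biUnion fun c => tr c T) ×ˢ
      ((cls (box L) σ₂).filter fun ρ => mon (box L) ρ = S.biUnion fun c => tr c T'),
      p.1 ∈ cls (box L) σ₁ ∧ p.2 ∈ cls (box L) σ₂ ∧
      (∀ v ∈ box L, p.1 v = v ↔ v ∈ S.biUnion fun c => tr c T) ∧
      ∀ v ∈ box L, p.2 v = v ↔ v - e0 ∈ S.biUnion fun c => tr c T := by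
    intro p hp
    obtain ⟨h1, h2⟩ := mem_product.1 hp
    rw [mem_filter] at h1 h2
    refine ⟨h1.1, h2.1, fun v hv => ?_, fun v hv => ?_⟩
    · rw [← h1.2, mem_mon, and_iff_right hv]
    · rw [← and_iff_right (b := p.2 v = v) hv, ← mem_mon, h2.2]
      simp only [mem_biUnion, mem_tr, hT', sub_right_comm v]
  refine S1_inj _ _ _ _ (fun p => mul_nonneg (hH0 _) (mul_nonneg
    (prod_nonneg fun c _ => S1_e_nonneg x R c _ _) (hG0 _ _)))
    (fun p q => Post (S.biUnion fun c => tr c T) (res (box L) p.1) (res (box L) p.2)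
      q.1 q.2) (fun p h => ?_) (fun p h q hq => ?_) fun p h p' h' q hq hq' => ?_
  · obtain ⟨k1, k2, k3, k4⟩ := key p h
    obtain ⟨a, b, hab⟩ := recolour _ (S1_hA hp hT hd)
      (S1_pre hp hT hd hL hs (mem_cls.1 k1).1 (mem_cls.1 k2).1 k3 k4)
    exact ⟨(a, b), hab⟩
  · obtain ⟨k1, k2, k3, k4⟩ := key p h
    have e₁ := (mem_cls.1 k1).1
    have e₂ := (mem_cls.1 k2).1
    refine ⟨mem_product.2 (S1_mem hp hT hd hL hs e₁ e₂ k3 k4 hq), ?_⟩
    rw [prod_congr rfl fun c hc => S1_in hp hT hd hL hs e₁ e₂ k3 k4 hq hc (hCe c (hS hc)),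
      prod_const_one, one_mul]
    refine congrArg₂ _ (hH _ _ fun v hv => ?_) (prod_congr rfl fun c hc => by
      rw [S1_out hp hT hL e₁ e₂ hq (hCs c (mem_sdiff.1 hc).1) (hd' c hc)])
    unfold un2
    rw [hq.off v (fun h => ?_) fun h => ?_, S1_res hL e₁ (hN1 v hv), S1_res hL e₂ (hN1 v hv)]
    · obtain ⟨c', l1, -, l2, -⟩ := S1_A hp hT h
      exact hN2 v hv c' (hS l1) l2
    · obtain ⟨c', l1, -, -, l2⟩ := S1_A hp hT h
      rw [sub_add_cancel] at l2
      exact hN2 v hv c' (hS l1) l2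
  · obtain ⟨k1, k2, k3, k4⟩ := key p h
    obtain ⟨l1, l2, l3, l4⟩ := key p' h'
    obtain ⟨u1, u2⟩ := recolour_unique _ (S1_hA hp hT hd)
      (S1_pre hp hT hd hL hs (mem_cls.1 k1).1 (mem_cls.1 k2).1 k3 k4)
      (S1_pre hp hT hd hL hs (mem_cls.1 l1).1 (mem_cls.1 l2).1 l3 l4) hq hq'
    exact Prod.ext (res_injOn _ _ (mem_coe.2 k1) (mem_coe.2 l1) u1)
      (res_injOn _ _ (mem_coe.2 k2) (mem_coe.2 l2) u2)

/-- The product bound of the double transfer with a weight that depends on the union between the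
boxes (port of `S1_fix` and `s1count`). -/
theorem s1countH {k R m : ℕ} {x y : Fin k → V} (hp : Pos x y R m) (J : ℕ) {σ₁ σ₂ : V → V}
    (h₁ : IsExt σ₁) (h₂ : IsExt σ₂) {δ : ℝ} (hδ0 : 0 ≤ δ) (hδ1 : δ ≤ 1)
    (H : (V → Sym2 V) → ℝ) (hH0 : ∀ U, 0 ≤ H U)
    (hH : LocU {v | v ∈ box (gL m J - 1) ∧ Gap m v} H) :
    ∑ ρ₁ ∈ perf (box (gL m J)) σ₁, ∑ ρ₂ ∈ perf (box (gL m J)) σ₂, H (un2 ρ₁ ρ₂) *
      ∏ c ∈ grid m J, (1 + δ * fD x y R m (sh (-c) ρ₁) (sh (-c) ρ₂)) ≤ Z2 (gL m J) H := by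
  have _ := h₁
  have _ := h₂
  obtain ⟨T, T', hT, hT', hf⟩ : ∃ T T' : Finset V,
      (∀ t, t ∈ T ↔ (∃ i, x i = t) ∨ ∃ i, y i = t) ∧ (∀ t, t ∈ T' ↔ t - e0 ∈ T) ∧
      ∀ c ρ₁ ρ₂, fD x y R m (sh (-c) ρ₁) (sh (-c) ρ₂) =
        Mr (box m) (sh (-c) ρ₁) T * Mr (box m) (sh (-c) ρ₂) T' - S1_e x R c ρ₁ ρ₂ := by
    refine ⟨_, _, fun t => ?_, fun t => ?_, fun _ _ _ => rfl⟩
    · simp only [mem_union, mem_image, mem_univ, true_and]
    · simp only [mem_union, mem_image, mem_univ, true_and, eq_sub_iff_add_eq, or_comm]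
  have h1 : ∀ ρ₁ ρ₂, H (un2 ρ₁ ρ₂) * ∏ c ∈ grid m J, (1 + δ * fD x y R m (sh (-c) ρ₁) (sh (-c) ρ₂)) =
      ∑ S ∈ (grid m J).powerset, δ ^ S.card * ((H (un2 ρ₁ ρ₂) *
        ∏ c ∈ grid m J \ S, (1 - δ * S1_e x R c ρ₁ ρ₂)) *
        (∏ c ∈ S, Mr (box m) (sh (-c) ρ₂) T') * ∏ c ∈ S, Mr (box m) (sh (-c) ρ₁) T) := by
    intro ρ₁ ρ₂
    rw [prod_congr rfl fun c _ => show _ = δ * (Mr (box m) (sh (-c) ρ₂) T' *
      Mr (box m) (sh (-c) ρ₁) T) + (1 - δ * S1_e x R c ρ₁ ρ₂) by rw [hf]; ring, prod_add, mul_sum]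
    refine sum_congr rfl fun S _ => ?_
    rw [prod_mul_distrib, prod_mul_distrib, prod_const]
    ring
  have h2 : ∀ p : (V → V) × (V → V), ∑ S ∈ (grid m J).powerset, δ ^ S.card * (H (un2 p.1 p.2) *
      ((∏ c ∈ S, S1_e x R c p.1 p.2) * ∏ c ∈ grid m J \ S, (1 - δ * S1_e x R c p.1 p.2))) =
      H (un2 p.1 p.2) := by
    intro p
    have := prod_add (fun c => δ * S1_e x R c p.1 p.2) (fun c => 1 - δ * S1_e x R c p.1 p.2) (grid m J)
    simp only [add_sub_cancel, prod_const_one, prod_mul_distrib, prod_const, mul_assoc] at this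
    rw [sum_congr rfl fun S _ => mul_left_comm _ _ _, ← mul_sum, ← this, mul_one]
  rw [sum_congr rfl fun ρ₁ _ => sum_congr rfl fun ρ₂ _ => h1 ρ₁ ρ₂,
    sum_congr rfl fun ρ₁ _ => sum_comm, sum_comm]
  simp only [← mul_sum, ← sum_mul]
  refine (sum_le_sum fun S hS => mul_le_mul_of_nonneg_left
    (NS1H_fix hp hT hT' (L := gL m J) (Nat.le_add_left 1 _) (fun c => grid_even) (fun c => grid_sub)
      (fun c hc c' => grid_disj hc) σ₁ σ₂ hδ1 (mem_powerset.1 hS) hH0 hH (fun v hv => hv.1)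
      fun v hv c hc k => grid_not_gap hc k hv.2) (pow_nonneg hδ0 _)).trans ?_
  simp only [mul_sum]
  rw [sum_comm, sum_congr rfl fun p _ => h2 p, Z2, sum_product]

end Pool.Agent.Work.MP_5cb0a4_pr.Z
end

-- merged part: Pool.Agent.Work.MP_5cb0a4_pr.N.Double2
section
open MeasureTheory Finset Filter Topology
open scoped Classical

namespace Pool.Agent.Work.MP_5cb0a4_pr.Z

lemma NDouble2_jensen {α β : Type} (s : Finset α) (t : Finset β) (Q : α → β → ℝ) {W : ℝ}
    (hQ : ∀ a ∈ s, ∀ b ∈ t, 0 ≤ Q a b) (hz : 0 < (s.card : ℝ) * t.card)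
    (h : ∑ a ∈ s, ∑ b ∈ t, Q a b ≤ W) :
    (∑ a ∈ s, ∑ b ∈ t, Real.log (1 + Q a b)) / ((s.card : ℝ) * t.card) ≤
      Real.log (1 + W / ((s.card : ℝ) * t.card)) := by
  obtain ⟨z, e⟩ : ∃ z, z = (s.card : ℝ) * t.card := ⟨_, rfl⟩
  rw [← e] at hz ⊢
  have hW : 0 ≤ W := (sum_nonneg fun a ha => sum_nonneg (hQ a ha)).trans h
  have hK : 0 < 1 + W / z := by positivity
  have h1 : ∀ a ∈ s, ∀ b ∈ t, Real.log (1 + Q a b) ≤
      (Real.log (1 + W / z) + z / (z + W) - 1) + z / (z + W) * Q a b := fun a ha b hb => by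
    have p := hQ a ha b hb
    have h3 := Real.log_le_sub_one_of_pos (div_pos (by linarith : 0 < 1 + Q a b) hK)
    rw [Real.log_div (by linarith) hK.ne'] at h3
    have h4 : (1 + Q a b) / (1 + W / z) = z / (z + W) + z / (z + W) * Q a b := by field_simp
    linarith
  have h2 := sum_le_sum fun a ha => sum_le_sum (h1 a ha)
  simp only [sum_add_distrib, sum_const, nsmul_eq_mul, ← mul_sum] at h2
  rw [← mul_assoc, ← e] at h2
  rw [div_le_iff₀ hz]
  have h3 : z / (z + W) * ∑ a ∈ s, ∑ b ∈ t, Q a b ≤ z / (z + W) * W :=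
    mul_le_mul_of_nonneg_left h (by positivity)
  have h4 : z * (z / (z + W)) + z / (z + W) * W = z := by field_simp
  nlinarith

lemma NDouble2_pos {ν₁ ν₂ : Measure Dimer} (h₁ : IM ν₁) (h₂ : IM ν₂) {Λ : Finset V}
    {Q : (V → V) → (V → V) → ℝ} (hQ : Local2 Λ Q) {W : ℝ}
    (hpos : ∀ ρ₁ ρ₂, IsExt ρ₁ → IsExt ρ₂ → 0 ≤ Q ρ₁ ρ₂)
    (hs : ∀ σ₁ σ₂, IsExt σ₁ → IsExt σ₂ → ∑ ρ₁ ∈ perf Λ σ₁, ∑ ρ₂ ∈ perf Λ σ₂, Q ρ₁ ρ₂ ≤ W) :
    ∫ p, Real.log (1 + Q p.1.1 p.2.1) ∂(ν₁.prod ν₂) ≤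
      ∫ p, Real.log (1 + W / ((zz Λ p.1.1 : ℝ) * zz Λ p.2.1)) ∂(ν₁.prod ν₂) := by
  have := h₁.prob
  have := h₂.prob
  have hg : Local2 Λ fun ρ₁ ρ₂ => Real.log (1 + Q ρ₁ ρ₂) :=
    fun _ _ _ _ a b c d e f => by simp only [hQ _ _ _ _ a b c d e f]
  have hw : Local2 Λ fun ρ₁ ρ₂ => Real.log (1 + W / ((zz Λ ρ₁ : ℝ) * zz Λ ρ₂)) :=
    fun _ _ _ _ a b c d e f => by
      have e1 : Zm Λ _ ∅ = Zm Λ _ ∅ := local_Zm Λ ∅ _ _ a c e
      have e2 : Zm Λ _ ∅ = Zm Λ _ ∅ := local_Zm Λ ∅ _ _ b d f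
      simp only [zz_eq, e1, e2]
  rw [← h₁.dlr2 h₂ Λ hg]
  refine integral_mono (Meas_int2 (local2_gam2 hg) _) (Meas_int2 hw _) fun p => ?_
  exact NDouble2_jensen (perf Λ p.1.1) (perf Λ p.2.1) Q
    (fun a ha b hb => hpos a b (mem_perf.1 ha).1.1 (mem_perf.1 hb).1.1)
    (mul_pos (Nat.cast_pos.2 (zz_dimer_pos _ _)) (Nat.cast_pos.2 (zz_dimer_pos _ _)))
    (hs _ _ (isExt_dimer p.1) (isExt_dimer p.2))

lemma NDouble2_log {ν₁ ν₂ : Measure Dimer} (h₁ : IM ν₁) (h₂ : IM ν₂) (hlp : LP2 ν₁ ν₂)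
    {k R m : ℕ} {x y : Fin k → V} (hp : Pos x y R m) {A : Set (Dimer × Dimer)}
    (hA : MeasurableSet A)
    (hinv : ∀ v, IsEven v → (fun p : Dimer × Dimer => (shift v p.1, shift v p.2)) ⁻¹' A = A)
    {δ : ℝ} (h0 : 0 ≤ δ) (h1 : δ ≤ 1)
    (hpos : ∀ ρ₁ ρ₂, IsExt ρ₁ → IsExt ρ₂ → 0 < 1 + δ * fD x y R m ρ₁ ρ₂)
    (hle : ∀ ρ₁ ρ₂, IsExt ρ₁ → IsExt ρ₂ → δ * fD x y R m ρ₁ ρ₂ ≤ 1) :
    ∫ p in A, Real.log (1 + δ * fD x y R m p.1.1 p.2.1) ∂(ν₁.prod ν₂) ≤ 0 := by
  have := h₁.prob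
  have := h₂.prob
  have hf := local2_fD x y (R := R) (m := m) (by have := hp.hm; omega)
  have hF : Local2 (box m) fun ρ₁ ρ₂ => Real.log (1 + δ * fD x y R m ρ₁ ρ₂) :=
    fun _ _ _ _ a b c d e f => by simp only [hf _ _ _ _ a b c d e f]
  refine le_of_forall_pos_le_add fun η hη => ?_
  have hε : 0 < η / (((m : ℝ) + 1) ^ 3 + 1) := by positivity
  obtain ⟨J, hJ⟩ := hlp m _ hε
  obtain ⟨H, l1, l2, l3⟩ := hJ J le_rfl
  have i0 : ∀ U, 0 ≤ ind H U ∧ ind H U ≤ 1 := fun U => by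
    unfold ind
    split_ifs <;> norm_num
  have l4 : LocU {v | v ∈ box (gL m J - 1) ∧ Gap m v} (ind H) := fun U U' h =>
    congrArg (fun q : Prop => if q then (1 : ℝ) else 0) (l1 U U' h)
  have hI : Local2 (box (gL m J)) fun ρ₁ ρ₂ => ind H (un2 ρ₁ ρ₂) := fun _ _ _ _ _ _ _ _ e f =>
    l4 _ _ fun v hv => by
      have := box_mono (Nat.sub_le _ 1) hv.1
      simp only [un2, e v this, f v this]
  have hP : Local2 (box (gL m J)) fun ρ₁ ρ₂ =>
      ∏ c ∈ grid m J, (1 + δ * fD x y R m (sh (-c) ρ₁) (sh (-c) ρ₂)) := fun _ _ _ _ a b c d e f =>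
    prod_congr rfl fun v hv => by
      have hs := (grid_sub hv).trans (box_mono (Nat.le_succ _))
      have := hf.sh v _ _ _ _ a b c d (fun z hz => e z (hs hz)) fun z hz => f z (hs hz)
      exact congrArg (1 + δ * ·) this
  have hQ : Local2 (box (gL m J)) fun ρ₁ ρ₂ => ind H (un2 ρ₁ ρ₂) *
      ∏ c ∈ grid m J, (1 + δ * fD x y R m (sh (-c) ρ₁) (sh (-c) ρ₂)) := fun _ _ _ _ a b c d e f =>
    congrArg₂ (· * ·) (hI _ _ _ _ a b c d e f) (hP _ _ _ _ a b c d e f)
  have pP : ∀ ρ₁ ρ₂, IsExt ρ₁ → IsExt ρ₂ →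
      0 < ∏ c ∈ grid m J, (1 + δ * fD x y R m (sh (-c) ρ₁) (sh (-c) ρ₂)) :=
    fun ρ₁ ρ₂ a b => prod_pos fun c _ => hpos _ _ (isExt_sh a _) (isExt_sh b _)
  have key := (NDouble2_pos h₁ h₂ hQ (fun ρ₁ ρ₂ a b => mul_nonneg (i0 _).1 (pP _ _ a b).le)
    fun σ₁ σ₂ a b => s1countH hp J a b h0 h1 (ind H) (fun U => (i0 U).1) l4).trans l3
  have hg : Local2 (box (gL m J)) fun ρ₁ ρ₂ => Real.log (1 + ind H (un2 ρ₁ ρ₂) *
      ∏ c ∈ grid m J, (1 + δ * fD x y R m (sh (-c) ρ₁) (sh (-c) ρ₂))) :=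
    fun _ _ _ _ a b c d e f => congrArg (fun u => Real.log (1 + u)) (hQ _ _ _ _ a b c d e f)
  have hS : MeasurableSet {p : Dimer × Dimer | ¬ H (un2 p.1.1 p.2.1)} := by
    have e : {p : Dimer × Dimer | ¬ H (un2 p.1.1 p.2.1)} =
        (fun p : Dimer × Dimer => ind H (un2 p.1.1 p.2.1)) ⁻¹' {0} := by
      ext p
      simp [ind]
    rw [e]
    exact hI.measurable (measurableSet_singleton _)
  have s1 : ((grid m J).card : ℝ) *
      ∫ p in A, Real.log (1 + δ * fD x y R m p.1.1 p.2.1) ∂(ν₁.prod ν₂) =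
      ∫ p in A, ∑ c ∈ grid m J, Real.log (1 + δ * fD x y R m (sh (-c) p.1.1) (sh (-c) p.2.1))
        ∂(ν₁.prod ν₂) := by
    rw [integral_finsetSum _ fun c _ => Meas_int2 (hF.sh c) _, ← nsmul_eq_mul, ← sum_const]
    exact sum_congr rfl fun c hc => (h₁.setIntegral_sh2 h₂ hF hA (isEven_neg.2 (grid_even hc))
      (hinv _ (isEven_neg.2 (grid_even hc)))).symm
  have j1 := Meas_int2 hg (ν₁.prod ν₂)
  have j2 : Integrable ({p : Dimer × Dimer | ¬ H (un2 p.1.1 p.2.1)}.indicator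
      fun _ => ((grid m J).card : ℝ)) (ν₁.prod ν₂) := (integrable_const _).indicator hS
  have s2 : ∫ p in A, ∑ c ∈ grid m J,
      Real.log (1 + δ * fD x y R m (sh (-c) p.1.1) (sh (-c) p.2.1)) ∂(ν₁.prod ν₂) ≤
      ∫ p, (Real.log (1 + ind H (un2 p.1.1 p.2.1) *
        ∏ c ∈ grid m J, (1 + δ * fD x y R m (sh (-c) p.1.1) (sh (-c) p.2.1))) +
        {p : Dimer × Dimer | ¬ H (un2 p.1.1 p.2.1)}.indicator
          (fun _ => ((grid m J).card : ℝ)) p) ∂(ν₁.prod ν₂) := by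
    refine le_trans (integral_mono (integrable_finsetSum _ fun c _ => Meas_int2 (hF.sh c) _)
      (j1.add j2).integrableOn fun p => ?_) (setIntegral_le_integral (j1.add j2)
        (Eventually.of_forall fun p => ?_))
    · have a := isExt_dimer p.1
      have b := isExt_dimer p.2
      by_cases h : H (un2 p.1.1 p.2.1)
      · simp only [Pi.add_apply, ind, Set.indicator, Set.mem_ofPred_eq, h, if_true, one_mul,
          not_true, if_false, add_zero]
        rw [← Real.log_prod fun c _ => (hpos _ _ (isExt_sh a _) (isExt_sh b _)).ne']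
        exact Real.log_le_log (pP _ _ a b) (by linarith)
      · simp only [Pi.add_apply, ind, Set.indicator, Set.mem_ofPred_eq, h, if_false, zero_mul,
          not_false_iff, if_true, add_zero, Real.log_one, zero_add]
        rw [card_eq_sum_ones, Nat.cast_sum]
        refine sum_le_sum fun c _ => ?_
        have u1 := Real.log_le_sub_one_of_pos (hpos _ _ (isExt_sh a (-c)) (isExt_sh b (-c)))
        have u2 := hle _ _ (isExt_sh a (-c)) (isExt_sh b (-c))
        push_cast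
        linarith
    · exact add_nonneg (Real.log_nonneg (le_add_of_nonneg_right (mul_nonneg (i0 _).1
        (pP _ _ (isExt_dimer p.1) (isExt_dimer p.2)).le)))
        (Set.indicator_nonneg (fun _ _ => Nat.cast_nonneg _) p)
  rw [integral_add j1 j2, integral_indicator_const _ hS, smul_eq_mul, ← s1] at s2
  have s3 := s2.trans (add_le_add key (mul_le_mul_of_nonneg_right l2 (Nat.cast_nonneg _)))
  have eL : (gL m J : ℝ) = (m + 1) * (2 * J + 1) := by
    rw [gL]
    push_cast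
    ring
  have hn : (0 : ℝ) < 2 * J + 1 := by positivity
  rw [card_grid, eL] at s3
  push_cast at s3
  generalize (2 * (J : ℝ) + 1) = n at s3 hn
  refine le_of_mul_le_mul_left (s3.trans (le_of_eq ?_)) (pow_pos hn 3)
  field_simp
  ring

/-- The switching inequality on every invariant event (port of `dtrans`). -/
theorem dtransH {ν₁ ν₂ : Measure Dimer} (h₁ : IM ν₁) (h₂ : IM ν₂) (hlp : LP2 ν₁ ν₂) {k R m : ℕ}
    {x y : Fin k → V} (hp : Pos x y R m) (A : Set (Dimer × Dimer)) (hA : MeasurableSet A)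
    (hinv : ∀ v, IsEven v → (fun p : Dimer × Dimer => (shift v p.1, shift v p.2)) ⁻¹' A = A) :
    ∫ p in A, fD x y R m p.1.1 p.2.1 ∂(ν₁.prod ν₂) ≤ 0 := by
  have := h₁.prob
  have := h₂.prob
  have hf := local2_fD x y (R := R) (m := m) (by have := hp.hm; omega)
  obtain ⟨C₀, hC₀⟩ := hf.bdd
  obtain ⟨C, c1, hC⟩ : ∃ C : ℝ, 1 ≤ C ∧ ∀ σ₁ σ₂, IsExt σ₁ → IsExt σ₂ → |fD x y R m σ₁ σ₂| ≤ C :=
    ⟨max 1 C₀, le_max_left _ _, fun _ _ a b => (hC₀ _ _ a b).trans (le_max_right _ _)⟩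
  refine le_of_forall_pos_le_add fun η hη => ?_
  obtain ⟨δ, d0, d1, d2⟩ : ∃ δ : ℝ, 0 < δ ∧ δ * C ≤ 1 / 2 ∧ 2 * δ * C ^ 2 ≤ η := by
    refine ⟨min (1 / (2 * C)) (η / (2 * C ^ 2)), by positivity, ?_, ?_⟩
    · have := min_le_left (1 / (2 * C)) (η / (2 * C ^ 2))
      rw [le_div_iff₀ (by positivity)] at this
      linarith
    · have := min_le_right (1 / (2 * C)) (η / (2 * C ^ 2))
      rw [le_div_iff₀ (by positivity)] at this
      linarith
  have hu : ∀ ρ₁ ρ₂, IsExt ρ₁ → IsExt ρ₂ → |δ * fD x y R m ρ₁ ρ₂| ≤ δ * C := fun _ _ a b => by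
    rw [abs_mul, abs_of_pos d0]
    exact mul_le_mul_of_nonneg_left (hC _ _ a b) d0.le
  have key := NDouble2_log h₁ h₂ hlp hp hA hinv d0.le (by nlinarith)
    (fun _ _ a b => by linarith [(abs_le.1 (hu _ _ a b)).1])
    fun _ _ a b => by linarith [(abs_le.1 (hu _ _ a b)).2]
  have hF : Local2 (box m) fun ρ₁ ρ₂ => Real.log (1 + δ * fD x y R m ρ₁ ρ₂) :=
    fun _ _ _ _ a b c d e f => by simp only [hf _ _ _ _ a b c d e f]
  have i1 := Meas_int2 hf ((ν₁.prod ν₂).restrict A)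
  have i2 := Meas_int2 hF ((ν₁.prod ν₂).restrict A)
  have h3 : ∫ p in A, δ * fD x y R m p.1.1 p.2.1 ∂(ν₁.prod ν₂) ≤
      ∫ p in A, (Real.log (1 + δ * fD x y R m p.1.1 p.2.1) + δ * η) ∂(ν₁.prod ν₂) := by
    refine integral_mono (i1.const_mul δ) (i2.add (integrable_const _)) fun p => ?_
    have h4 := hu _ _ (isExt_dimer p.1) (isExt_dimer p.2)
    have h5 := sq_le_sq' (abs_le.1 h4).1 (abs_le.1 h4).2
    have h6 := (abs_le.1 h4).1
    simp only
    generalize δ * fD x y R m p.1.1 p.2.1 = u at h5 h6 ⊢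
    have h7 : 0 < 1 + u := by linarith
    have h8 := Real.one_sub_inv_le_log_of_pos h7
    have h9 : (1 + u)⁻¹ ≤ 1 - u + 2 * u ^ 2 := by
      clear * - u h7 δ C d1 h6
      rw [inv_eq_one_div, div_le_iff₀ h7]
      nlinarith [mul_nonneg (sq_nonneg u) (by linarith : 0 ≤ 1 + 2 * u)]
    clear * - u δ η C h5 h8 h9 d2 d0; nlinarith [mul_le_mul_of_nonneg_left d2 d0.le]
  rw [integral_const_mul, integral_add i2 (integrable_const _), setIntegral_const,
    smul_eq_mul] at h3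
  have h4 : (ν₁.prod ν₂).real A * (δ * η) ≤ δ * η :=
    mul_le_of_le_one_left (by positivity) measureReal_le_one
  refine le_of_mul_le_mul_left ?_ d0
  linarith

end Pool.Agent.Work.MP_5cb0a4_pr.Z
end

-- merged part: Pool.Agent.Work.MP_5cb0a4_pr.Z.Main
section
open MeasureTheory Finset MvPolynomial Filter Topology

namespace Pool.Agent.Work.MP_5cb0a4_pr.Z

/-- `n` points on the first axis, starting at `a`, two apart. -/
def Main_pts (a n : ℕ) : Finset V :=
  (range n).image fun j : ℕ => (Pi.single 0 ((a : ℤ) + 2 * j) : V)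

lemma Main_card (a n : ℕ) : (Main_pts a n).card = n := by
  rw [Main_pts, card_image_of_injective, card_range]
  intro j j' h
  have := congrFun h 0
  simp only [Pi.single_eq_same] at this
  omega

lemma Main_even {a n : ℕ} {x : V} (hx : x ∈ Main_pts a n) : IsEven x ↔ Even a := by
  obtain ⟨j, -, rfl⟩ := mem_image.1 hx
  simp only [IsEven, Fin.sum_univ_three]
  simp [Int.even_add]

lemma Main_in {a n : ℕ} {x : V} (hx : x ∈ Main_pts a n) : x ∈ box (a + 2 * n) := by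
  obtain ⟨j, hj, rfl⟩ := mem_image.1 hx
  have := mem_range.1 hj
  refine mem_box.2 fun i => ?_
  simp only [Pi.single_apply]
  split_ifs <;> omega

lemma Main_out {a n t : ℕ} {x : V} (hx : x ∈ Main_pts a n) (h : t < a) : x ∉ box t := by
  obtain ⟨j, -, rfl⟩ := mem_image.1 hx
  intro hb
  have := mem_box.1 hb 0
  simp only [Pi.single_eq_same] at this
  omega

lemma Main_inj {k : ℕ} {x : Fin k → V} (h : Function.Injective x) :
    Function.Injective fun i => x i + e0 := fun _ _ hij => h (add_right_cancel hij)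

lemma Main_Gam_nonneg {k : ℕ} {G : Finset V → ℝ} (h : ∀ X, 0 ≤ G X) (x y : Fin k → V) :
    0 ≤ Gam G x y := by
  unfold Gam
  split_ifs
  · exact h _
  · exact le_rfl

lemma Main_Gam_local {k : ℕ} (Λ : Finset V) (x y : Fin k → V) :
    Local Λ fun σ => Gam (Mr Λ σ) x y := by
  intro σ σ' h h' ha
  unfold Gam
  split_ifs
  · exact local_Mr Λ _ σ σ' h h' ha
  · rfl

lemma Main_Gam_tendsto {k : ℕ} {F : ℕ → Finset V → ℝ} {G : Finset V → ℝ} {l : Filter ℕ}
    (h : ∀ X, Tendsto (fun j => F j X) l (𝓝 (G X))) (x y : Fin k → V) :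
    Tendsto (fun j => Gam (F j) x y) l (𝓝 (Gam G x y)) := by
  unfold Gam
  split_ifs
  · exact h _
  · exact tendsto_const_nhds

/-- The sum of products of monomer correlations. -/
noncomputable def Main_Th (k : ℕ) (U W : Finset V) (m : ℕ) (σ₁ σ₂ : V → V) : ℝ :=
  ∑ x ∈ Fintype.piFinset fun _ : Fin k => U, ∑ y ∈ Fintype.piFinset fun _ : Fin k => W,
    Gam (Mr (box m) σ₁) x y * Gam (Mr (box m) σ₂) (fun i => y i + e0) (fun i => x i + e0)

lemma Main_term_local {k : ℕ} (m : ℕ) (x y : Fin k → V) : Local2 (box m) fun σ₁ σ₂ =>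
    Gam (Mr (box m) σ₁) x y * Gam (Mr (box m) σ₂) (fun i => y i + e0) (fun i => x i + e0) := by
  intro σ₁ σ₂ σ₁' σ₂' a b c d e f
  have h1 := Main_Gam_local (box m) x y σ₁ σ₁' a c e
  have h2 := Main_Gam_local (box m) (fun i => y i + e0) (fun i => x i + e0) σ₂ σ₂' b d f
  simp only at h1 h2 ⊢
  rw [h1, h2]

lemma Main_integrable {Λ : Finset V} {g : (V → V) → (V → V) → ℝ} (hg : Local2 Λ g)
    (μ : Measure (Dimer × Dimer)) [IsFiniteMeasure μ] :
    Integrable (fun p : Dimer × Dimer => g p.1.1 p.2.1) μ := by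
  obtain ⟨C, hC⟩ := hg.bdd
  exact Integrable.of_bound hg.measurable.aestronglyMeasurable C
    (ae_of_all _ fun p => hC _ _ (isExt_dimer _) (isExt_dimer _))

open Classical in
lemma Main_ind_local {k : ℕ} (x : Fin k → V) (R : ℕ) :
    Local2 (box R) fun σ₁ σ₂ => if Ev x R σ₁ σ₂ then (1 : ℝ) else 0 := by
  intro σ₁ σ₂ σ₁' σ₂' a b c d e f
  have := local2_ev x R σ₁ σ₂ σ₁' σ₂' a b c d e f
  simp only [this]

lemma Main_eventually {ν₁ ν₂ : Measure Dimer} (h₁ : EG0 ν₁) (h₂ : EG0 ν₂) {k : ℕ}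
    {U W : Finset V} {c : ℝ} (hc : 0 < c)
    (hst : ∀ G₁ G₂, IsState G₁ → IsState G₂ → 2 * c ≤
      ∑ x ∈ Fintype.piFinset fun _ : Fin k => U, ∑ y ∈ Fintype.piFinset fun _ : Fin k => W,
        Gam G₁ x y * Gam G₂ (fun i => y i + e0) (fun i => x i + e0)) :
    ∃ φ : ℕ → ℕ, StrictMono φ ∧
      ∀ᵐ p ∂(ν₁.prod ν₂), ∀ᶠ j in atTop, c < Main_Th k U W (φ j) p.1.1 p.2.1 := by
  have := h₁.eg.prob
  have := h₂.eg.prob
  obtain ⟨φ, hφ, hl⟩ := limit_states h₁ h₂
  refine ⟨φ, hφ, ?_⟩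
  have a1 := (Measure.quasiMeasurePreserving_fst (μ := ν₁) (ν := ν₂)).ae (hl ν₁ (Or.inl rfl))
  have a2 := (Measure.quasiMeasurePreserving_snd (μ := ν₁) (ν := ν₂)).ae (hl ν₂ (Or.inr rfl))
  filter_upwards [a1, a2] with p p1 p2
  by_contra hn
  have hfr : ∃ᶠ j in atTop, Main_Th k U W (φ j) p.1.1 p.2.1 ≤ c :=
    (Filter.not_eventually.1 hn).mono fun j hj => not_lt.1 hj
  have := frequently_iff_neBot.1 hfr
  let 𝒰 := Ultrafilter.of (atTop ⊓ 𝓟 {j | Main_Th k U W (φ j) p.1.1 p.2.1 ≤ c})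
  have hU : (𝒰 : Filter ℕ) ≤ atTop ⊓ 𝓟 {j | Main_Th k U W (φ j) p.1.1 p.2.1 ≤ c} :=
    Ultrafilter.of_le _
  obtain ⟨G₁, hG₁, t₁⟩ := p1 𝒰 (hU.trans inf_le_left)
  obtain ⟨G₂, hG₂, t₂⟩ := p2 𝒰 (hU.trans inf_le_left)
  have ht : Tendsto (fun j => Main_Th k U W (φ j) p.1.1 p.2.1) (𝒰 : Filter ℕ) (𝓝
      (∑ x ∈ Fintype.piFinset fun _ : Fin k => U, ∑ y ∈ Fintype.piFinset fun _ : Fin k => W,
        Gam G₁ x y * Gam G₂ (fun i => y i + e0) (fun i => x i + e0))) :=
    tendsto_finsetSum _ fun x _ => tendsto_finsetSum _ fun y _ =>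
      (Main_Gam_tendsto t₁ x y).mul (Main_Gam_tendsto t₂ _ _)
  have hle := le_of_tendsto ht (le_principal_iff.1 (hU.trans inf_le_right))
  have := hst G₁ G₂ hG₁ hG₂
  linarith

open Classical in
lemma Main_upper {ν₁ ν₂ : Measure Dimer} (h₁ : EG0 ν₁) (h₂ : EG0 ν₂) {k R m : ℕ}
    {U W : Finset V} (hU : ∀ x ∈ U, IsEven x ∧ x ∈ box (R - 2))
    (hW : ∀ y ∈ W, ¬ IsEven y ∧ y ∉ box (R + 1) ∧ y ∈ box (m - 1)) (hR : 2 ≤ R) (hm : R + 2 ≤ m)
    (A : Set (Dimer × Dimer)) (hA : MeasurableSet A)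
    (hinv : ∀ v, IsEven v → (fun p : Dimer × Dimer => (shift v p.1, shift v p.2)) ⁻¹' A = A) :
    ∫ p in A, Main_Th k U W m p.1.1 p.2.1 ∂(ν₁.prod ν₂) ≤
      (W.card : ℝ) ^ k * ∑ x ∈ Fintype.piFinset fun _ : Fin k => U,
        ∫ p in A, (if Ev x R p.1.1 p.2.1 then (1 : ℝ) else 0) ∂(ν₁.prod ν₂) := by
  have := h₁.eg.prob
  have := h₂.eg.prob
  unfold Main_Th
  rw [integral_finsetSum _ fun x _ => integrable_finsetSum _ fun y _ =>
    Main_integrable (Main_term_local m x y) _, mul_sum]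
  refine sum_le_sum fun x hx => ?_
  rw [integral_finsetSum _ fun y _ => Main_integrable (Main_term_local m x y) _]
  have hcard : ((Fintype.piFinset fun _ : Fin k => W).card : ℝ) = (W.card : ℝ) ^ k := by
    rw [Fintype.card_piFinset]; simp
  rw [← hcard, ← nsmul_eq_mul]
  refine sum_le_card_nsmul _ _ _ fun y hy => ?_
  by_cases hi : Function.Injective x ∧ Function.Injective y
  · have hx' := Fintype.mem_piFinset.1 hx
    have hy' := Fintype.mem_piFinset.1 hy
    have hp : Pos x y R m := ⟨hi.1, hi.2, fun i => (hU _ (hx' i)).1, fun i => (hW _ (hy' i)).1,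
      fun i => (hU _ (hx' i)).2, fun i => (hW _ (hy' i)).2.1, fun i => (hW _ (hy' i)).2.2, hR, hm⟩
    have hd := dtrans h₁ h₂ hp A hA hinv
    have he : ∀ p : Dimer × Dimer, fD x y R m p.1.1 p.2.1 =
        Gam (Mr (box m) p.1.1) x y *
          Gam (Mr (box m) p.2.1) (fun i => y i + e0) (fun i => x i + e0) -
        (if Ev x R p.1.1 p.2.1 then (1 : ℝ) else 0) := by
      intro p
      simp only [fD, Gam, hi, Main_inj hi.1, Main_inj hi.2, and_self, if_true]
    simp only [he] at hd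
    rw [integral_sub (Main_integrable (Main_term_local m x y) _)
      (Main_integrable (Main_ind_local x R) _)] at hd
    linarith
  · have : ∀ p : Dimer × Dimer, Gam (Mr (box m) p.1.1) x y *
        Gam (Mr (box m) p.2.1) (fun i => y i + e0) (fun i => x i + e0) = 0 := by
      intro p
      simp only [Gam, hi, if_false, zero_mul]
    simp only [this, integral_zero]
    exact integral_nonneg fun p => by dsimp only; split_ifs <;> norm_num

lemma Main_Th_nonneg (k : ℕ) (U W : Finset V) (m : ℕ) (σ₁ σ₂ : V → V) :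
    0 ≤ Main_Th k U W m σ₁ σ₂ :=
  sum_nonneg fun _ _ => sum_nonneg fun _ _ =>
    mul_nonneg (Main_Gam_nonneg (Mr_nonneg _ _) _ _) (Main_Gam_nonneg (Mr_nonneg _ _) _ _)

lemma Main_Th_local (k : ℕ) (U W : Finset V) (m : ℕ) : Local2 (box m) (Main_Th k U W m) := by
  intro σ₁ σ₂ σ₁' σ₂' a b c d e f
  exact sum_congr rfl fun x _ => sum_congr rfl fun y _ =>
    Main_term_local m x y σ₁ σ₂ σ₁' σ₂' a b c d e f

open Classical in
lemma Main_null {ν₁ ν₂ : Measure Dimer} (h₁ : EG0 ν₁) (h₂ : EG0 ν₂) (k : ℕ) :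
    (ν₁.prod ν₂).real (Ik k)ᶜ ≤ 0 := by
  have := h₁.eg.prob
  have := h₂.eg.prob
  obtain ⟨c, hc, K, hst⟩ := states k
  set μ := ν₁.prod ν₂ with hμ
  set A := (Ik k)ᶜ with hAdef
  have hA : MeasurableSet A := (measurableSet_Ik k).compl
  have hinv : ∀ v, IsEven v →
      (fun p : Dimer × Dimer => (shift v p.1, shift v p.2)) ⁻¹' A = A := fun v _ => by
    rw [hAdef, Set.preimage_compl, Ik_shift]
  set U := Main_pts 0 (K + 1) with hUdef
  have hUc : U.card = K + 1 := Main_card _ _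
  have key : ∀ R ≥ 2 * (K + 1) + 2, c / 2 * (U.card : ℝ) ^ k * μ.real A ≤
      ∑ x ∈ Fintype.piFinset fun _ : Fin k => U,
        ∫ p in A, (if Ev x R p.1.1 p.2.1 then (1 : ℝ) else 0) ∂μ := by
    intro R hR
    set W := Main_pts (2 * R + 3) (K + 1) with hWdef
    have hWc : W.card = K + 1 := Main_card _ _
    have hWpos : (0 : ℝ) < (W.card : ℝ) ^ k := by rw [hWc]; positivity
    have hUpos : (0 : ℝ) < (U.card : ℝ) ^ k := by rw [hUc]; positivity
    have hUe : ∀ x ∈ U, IsEven x := fun x hx => (Main_even hx).2 (by simp)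
    have hWo : ∀ y ∈ W, ¬ IsEven y := fun y hy h => by
      have := (Main_even hy).1 h
      rw [Nat.even_iff] at this
      omega
    set c' := c / 2 * (U.card : ℝ) ^ k * (W.card : ℝ) ^ k with hc'
    have hc'pos : 0 < c' := by clear * - c U k W hc hUpos hWpos; positivity
    obtain ⟨φ, hφ, hev⟩ := Main_eventually h₁ h₂ (k := k) (U := U) (W := W) hc'pos
      fun G₁ G₂ a b => by
        clear * - c U k W G₁ G₂ hst a b hUe hWo K hUc R hWc c' hc'
        have := hst G₁ G₂ a b U W hUe hWo (by omega) (by omega)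
        rw [hc']; linarith
    have hlim : Tendsto (fun j => ∫ p in A, min (Main_Th k U W (φ j) p.1.1 p.2.1) c' ∂μ) atTop
        (𝓝 (∫ _ in A, c' ∂μ)) := by
      refine tendsto_integral_of_dominated_convergence (fun _ => c') (fun j => ?_)
        (integrable_const _) (fun j => ae_of_all _ fun p => ?_) ?_
      · exact ((Main_Th_local k U W (φ j)).measurable.min measurable_const).aestronglyMeasurable
      · rw [Real.norm_eq_abs, abs_of_nonneg (le_min (Main_Th_nonneg _ _ _ _ _ _) hc'pos.le)]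
        exact min_le_right _ _
      · filter_upwards [ae_restrict_of_ae hev] with p hp
        refine tendsto_const_nhds.congr' ?_
        filter_upwards [hp] with j hj
        rw [min_eq_right hj.le]
    have hle : ∫ _ in A, c' ∂μ ≤ (W.card : ℝ) ^ k * ∑ x ∈ Fintype.piFinset fun _ : Fin k => U,
        ∫ p in A, (if Ev x R p.1.1 p.2.1 then (1 : ℝ) else 0) ∂μ := by
      refine le_of_tendsto hlim ?_
      filter_upwards [hφ.tendsto_atTop.eventually_ge_atTop (2 * R + 3 + 2 * (K + 1) + 1)]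
        with j hj
      refine le_trans ?_ (Main_upper h₁ h₂ (m := φ j) (fun x hx => ⟨hUe x hx, ?_⟩)
        (fun y hy => ⟨hWo y hy, Main_out hy (by omega), ?_⟩) (by omega) (by omega) A hA hinv)
      · refine integral_mono ?_ (Main_integrable (Main_Th_local k U W (φ j)) _)
          fun p => min_le_left _ _
        exact (Main_integrable (Main_Th_local k U W (φ j)) _).inf (integrable_const _)
      · exact box_mono (by omega) (Main_in hx)
      · exact box_mono (by omega) (Main_in hy)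
    rw [setIntegral_const, smul_eq_mul, hc'] at hle
    have : (W.card : ℝ) ^ k * (c / 2 * (U.card : ℝ) ^ k * μ.real A) ≤ (W.card : ℝ) ^ k *
        ∑ x ∈ Fintype.piFinset fun _ : Fin k => U,
          ∫ p in A, (if Ev x R p.1.1 p.2.1 then (1 : ℝ) else 0) ∂μ := by clear * - W k c U μ A R hle; linarith
    exact le_of_mul_le_mul_left this hWpos
  have hz : Tendsto (fun R => ∑ x ∈ Fintype.piFinset fun _ : Fin k => U,
      ∫ p in A, (if Ev x R p.1.1 p.2.1 then (1 : ℝ) else 0) ∂μ) atTop (𝓝 0) := by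
    have : 𝓝 (0 : ℝ) =
        𝓝 (∑ _x ∈ Fintype.piFinset fun _ : Fin k => U, ∫ _ in A, (0 : ℝ) ∂μ) := by simp
    rw [this]
    refine tendsto_finsetSum _ fun x _ => ?_
    refine tendsto_integral_of_dominated_convergence (fun _ => 1) (fun R => ?_)
      (integrable_const _) (fun R => ae_of_all _ fun p => ?_) ?_
    · exact (Main_ind_local x R).measurable.aestronglyMeasurable
    · split_ifs <;> simp
    · filter_upwards [ae_restrict_mem hA] with p hp
      refine tendsto_const_nhds.congr' ?_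
      filter_upwards [eventually_not_ev hp x] with R hR
      rw [if_neg hR]
  have hfin : c / 2 * (U.card : ℝ) ^ k * μ.real A ≤ 0 :=
    ge_of_tendsto hz (eventually_atTop.2 ⟨_, key⟩)
  have hpos : 0 < c / 2 * (U.card : ℝ) ^ k := by rw [hUc]; positivity
  by_contra hn
  have := mul_pos hpos (not_le.1 hn)
  linarith

theorem main {ν₁ ν₂ : Measure Dimer} (h₁ : EG0 ν₁) (h₂ : EG0 ν₂) :
    ∀ᵐ p ∂(ν₁.prod ν₂), (infinitePaths p.1 p.2).Infinite := by
  have := h₁.eg.prob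
  have := h₂.eg.prob
  have : ∀ k, ∀ᵐ p ∂(ν₁.prod ν₂), p ∈ Ik k := fun k => by
    have h := le_antisymm (Main_null h₁ h₂ k) measureReal_nonneg
    rw [measureReal_eq_zero_iff] at h
    exact h
  filter_upwards [ae_all_iff.2 this] with p hp using infinite_of_Ik hp

end Pool.Agent.Work.MP_5cb0a4_pr.Z
end

-- merged part: Pool.Agent.Work.MP_5cb0a4_pr.N.Concl
section
open MeasureTheory Finset Filter Topology
open scoped Classical

namespace Pool.Agent.Work.MP_5cb0a4_pr.Z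

lemma NConcl_upper {ν₁ ν₂ : Measure Dimer} (h₁ : IM ν₁) (h₂ : IM ν₂) (hlp : LP2 ν₁ ν₂)
    {k R m : ℕ}
    {U W : Finset V} (hU : ∀ x ∈ U, IsEven x ∧ x ∈ box (R - 2))
    (hW : ∀ y ∈ W, ¬ IsEven y ∧ y ∉ box (R + 1) ∧ y ∈ box (m - 1)) (hR : 2 ≤ R) (hm : R + 2 ≤ m)
    (A : Set (Dimer × Dimer)) (hA : MeasurableSet A)
    (hinv : ∀ v, IsEven v → (fun p : Dimer × Dimer => (shift v p.1, shift v p.2)) ⁻¹' A = A) :
    ∫ p in A, Main_Th k U W m p.1.1 p.2.1 ∂(ν₁.prod ν₂) ≤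
      (W.card : ℝ) ^ k * ∑ x ∈ Fintype.piFinset fun _ : Fin k => U,
        ∫ p in A, (if Ev x R p.1.1 p.2.1 then (1 : ℝ) else 0) ∂(ν₁.prod ν₂) := by
  have := h₁.prob
  have := h₂.prob
  unfold Main_Th
  rw [integral_finsetSum _ fun x _ => integrable_finsetSum _ fun y _ =>
    Main_integrable (Main_term_local m x y) _, mul_sum]
  refine sum_le_sum fun x hx => ?_
  rw [integral_finsetSum _ fun y _ => Main_integrable (Main_term_local m x y) _]
  have hcard : ((Fintype.piFinset fun _ : Fin k => W).card : ℝ) = (W.card : ℝ) ^ k := by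
    rw [Fintype.card_piFinset]; simp
  rw [← hcard, ← nsmul_eq_mul]
  refine sum_le_card_nsmul _ _ _ fun y hy => ?_
  by_cases hi : Function.Injective x ∧ Function.Injective y
  · have hx' := Fintype.mem_piFinset.1 hx
    have hy' := Fintype.mem_piFinset.1 hy
    have hp : Pos x y R m := ⟨hi.1, hi.2, fun i => (hU _ (hx' i)).1, fun i => (hW _ (hy' i)).1,
      fun i => (hU _ (hx' i)).2, fun i => (hW _ (hy' i)).2.1, fun i => (hW _ (hy' i)).2.2, hR, hm⟩
    have hd := dtransH h₁ h₂ hlp hp A hA hinv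
    have he : ∀ p : Dimer × Dimer, fD x y R m p.1.1 p.2.1 =
        Gam (Mr (box m) p.1.1) x y *
          Gam (Mr (box m) p.2.1) (fun i => y i + e0) (fun i => x i + e0) -
        (if Ev x R p.1.1 p.2.1 then (1 : ℝ) else 0) := by
      intro p
      simp only [fD, Gam, hi, Main_inj hi.1, Main_inj hi.2, and_self, if_true]
    simp only [he] at hd
    rw [integral_sub (Main_integrable (Main_term_local m x y) _)
      (Main_integrable (Main_ind_local x R) _)] at hd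
    linarith
  · have : ∀ p : Dimer × Dimer, Gam (Mr (box m) p.1.1) x y *
        Gam (Mr (box m) p.2.1) (fun i => y i + e0) (fun i => x i + e0) = 0 := by
      intro p
      simp only [Gam, hi, if_false, zero_mul]
    simp only [this, integral_zero]
    exact integral_nonneg fun p => by dsimp only; split_ifs <;> norm_num

lemma NConcl_null {ν₁ ν₂ : Measure Dimer} (h₁ : IM ν₁) (h₂ : IM ν₂) (hlp : LP2 ν₁ ν₂) (k : ℕ)
    {c : ℝ} (hc : 0 < c) {K : ℕ} (hst : ∀ U W : Finset V, (∀ x ∈ U, IsEven x) →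
      (∀ y ∈ W, ¬ IsEven y) → K ≤ U.card → K ≤ W.card → ∃ φ : ℕ → ℕ, StrictMono φ ∧
        ∀ᵐ p ∂(ν₁.prod ν₂), ∀ᶠ j in atTop,
          c * (U.card : ℝ) ^ k * (W.card : ℝ) ^ k < Main_Th k U W (φ j) p.1.1 p.2.1) :
    (ν₁.prod ν₂).real (Ik k)ᶜ ≤ 0 := by
  have := h₁.prob
  have := h₂.prob
  set μ := ν₁.prod ν₂ with hμ
  set A := (Ik k)ᶜ with hAdef
  have hA : MeasurableSet A := (measurableSet_Ik k).compl
  have hinv : ∀ v, IsEven v →
      (fun p : Dimer × Dimer => (shift v p.1, shift v p.2)) ⁻¹' A = A := fun v _ => by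
    rw [hAdef, Set.preimage_compl, Ik_shift]
  set U := Main_pts 0 (K + 1) with hUdef
  have hUc : U.card = K + 1 := Main_card _ _
  have key : ∀ R ≥ 2 * (K + 1) + 2, c * (U.card : ℝ) ^ k * μ.real A ≤
      ∑ x ∈ Fintype.piFinset fun _ : Fin k => U,
        ∫ p in A, (if Ev x R p.1.1 p.2.1 then (1 : ℝ) else 0) ∂μ := by
    intro R hR
    set W := Main_pts (2 * R + 3) (K + 1) with hWdef
    have hWc : W.card = K + 1 := Main_card _ _
    have hWpos : (0 : ℝ) < (W.card : ℝ) ^ k := by rw [hWc]; positivity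
    have hUpos : (0 : ℝ) < (U.card : ℝ) ^ k := by rw [hUc]; positivity
    have hUe : ∀ x ∈ U, IsEven x := fun x hx => (Main_even hx).2 (by simp)
    have hWo : ∀ y ∈ W, ¬ IsEven y := fun y hy h => by
      have := (Main_even hy).1 h
      rw [Nat.even_iff] at this
      omega
    set c' := c * (U.card : ℝ) ^ k * (W.card : ℝ) ^ k with hc'
    have hc'pos : 0 < c' := by clear * - c U k W hc hUpos hWpos; positivity
    obtain ⟨φ, hφ, hev⟩ := hst U W hUe hWo (by omega) (by omega)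
    have hlim : Tendsto (fun j => ∫ p in A, min (Main_Th k U W (φ j) p.1.1 p.2.1) c' ∂μ) atTop
        (𝓝 (∫ _ in A, c' ∂μ)) := by
      refine tendsto_integral_of_dominated_convergence (fun _ => c') (fun j => ?_)
        (integrable_const _) (fun j => ae_of_all _ fun p => ?_) ?_
      · exact ((Main_Th_local k U W (φ j)).measurable.min measurable_const).aestronglyMeasurable
      · rw [Real.norm_eq_abs, abs_of_nonneg (le_min (Main_Th_nonneg _ _ _ _ _ _) hc'pos.le)]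
        exact min_le_right _ _
      · filter_upwards [ae_restrict_of_ae hev] with p hp
        refine tendsto_const_nhds.congr' ?_
        filter_upwards [hp] with j hj
        rw [min_eq_right hj.le]
    have hle : ∫ _ in A, c' ∂μ ≤ (W.card : ℝ) ^ k * ∑ x ∈ Fintype.piFinset fun _ : Fin k => U,
        ∫ p in A, (if Ev x R p.1.1 p.2.1 then (1 : ℝ) else 0) ∂μ := by
      refine le_of_tendsto hlim ?_
      filter_upwards [hφ.tendsto_atTop.eventually_ge_atTop (2 * R + 3 + 2 * (K + 1) + 1)]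
        with j hj
      refine le_trans ?_ (NConcl_upper h₁ h₂ hlp (m := φ j) (fun x hx => ⟨hUe x hx, ?_⟩)
        (fun y hy => ⟨hWo y hy, Main_out hy (by omega), ?_⟩) (by omega) (by omega) A hA hinv)
      · refine integral_mono ?_ (Main_integrable (Main_Th_local k U W (φ j)) _)
          fun p => min_le_left _ _
        exact (Main_integrable (Main_Th_local k U W (φ j)) _).inf (integrable_const _)
      · exact box_mono (by omega) (Main_in hx)
      · exact box_mono (by omega) (Main_in hy)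
    rw [setIntegral_const, smul_eq_mul, hc'] at hle
    have : (W.card : ℝ) ^ k * (c * (U.card : ℝ) ^ k * μ.real A) ≤ (W.card : ℝ) ^ k *
        ∑ x ∈ Fintype.piFinset fun _ : Fin k => U,
          ∫ p in A, (if Ev x R p.1.1 p.2.1 then (1 : ℝ) else 0) ∂μ := by linarith
    exact le_of_mul_le_mul_left this hWpos
  have hz : Tendsto (fun R => ∑ x ∈ Fintype.piFinset fun _ : Fin k => U,
      ∫ p in A, (if Ev x R p.1.1 p.2.1 then (1 : ℝ) else 0) ∂μ) atTop (𝓝 0) := by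
    have : 𝓝 (0 : ℝ) =
        𝓝 (∑ _x ∈ Fintype.piFinset fun _ : Fin k => U, ∫ _ in A, (0 : ℝ) ∂μ) := by simp
    rw [this]
    refine tendsto_finsetSum _ fun x _ => ?_
    refine tendsto_integral_of_dominated_convergence (fun _ => 1) (fun R => ?_)
      (integrable_const _) (fun R => ae_of_all _ fun p => ?_) ?_
    · exact (Main_ind_local x R).measurable.aestronglyMeasurable
    · split_ifs <;> simp
    · filter_upwards [ae_restrict_mem hA] with p hp
      refine tendsto_const_nhds.congr' ?_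
      filter_upwards [eventually_not_ev hp x] with R hR
      rw [if_neg hR]
  have hfin : c * (U.card : ℝ) ^ k * μ.real A ≤ 0 :=
    ge_of_tendsto hz (eventually_atTop.2 ⟨_, key⟩)
  have hpos : 0 < c * (U.card : ℝ) ^ k := by rw [hUc]; positivity
  by_contra hn
  have := mul_pos hpos (not_le.1 hn)
  linarith

/-- The conclusion from a lower bound for the products of monomer correlations (port of
`Main_upper`, `Main_null`, `main`). -/
theorem concl {ν₁ ν₂ : Measure Dimer} (h₁ : IM ν₁) (h₂ : IM ν₂) (hlp : LP2 ν₁ ν₂)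
    (h : ∀ k : ℕ, ∃ c : ℝ, 0 < c ∧ ∃ K : ℕ, ∀ U W : Finset V, (∀ x ∈ U, IsEven x) →
      (∀ y ∈ W, ¬ IsEven y) → K ≤ U.card → K ≤ W.card → ∃ φ : ℕ → ℕ, StrictMono φ ∧
        ∀ᵐ p ∂(ν₁.prod ν₂), ∀ᶠ j in atTop,
          c * (U.card : ℝ) ^ k * (W.card : ℝ) ^ k < Main_Th k U W (φ j) p.1.1 p.2.1) :
    ∀ᵐ p ∂(ν₁.prod ν₂), (infinitePaths p.1 p.2).Infinite := by
  have := h₁.prob
  have := h₂.prob
  have : ∀ k, ∀ᵐ p ∂(ν₁.prod ν₂), p ∈ Ik k := fun k => by
    obtain ⟨c, hc, K, hst⟩ := h k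
    have h0 := le_antisymm (NConcl_null h₁ h₂ hlp k hc hst) measureReal_nonneg
    rw [measureReal_eq_zero_iff] at h0
    exact h0
  filter_upwards [ae_all_iff.2 this] with p hp using infinite_of_Ik hp

end Pool.Agent.Work.MP_5cb0a4_pr.Z
end

-- merged part: Pool.Agent.Work.MP_5cb0a4_pr.N.MainN
section
open MeasureTheory Finset Filter Topology
open scoped Classical

namespace Pool.Agent.Work.MP_5cb0a4_pr.Z

/-- Most pairs of tuples are good for both states. -/
theorem NMainN_sum {k : ℕ} {U W : Finset V} {G₁ G₂ : Finset V → ℝ} {c₁ c₂ : ℝ} (h₁ : 0 < c₁)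
    (h₂ : 0 < c₂) (n₁ : ∀ X, 0 ≤ G₁ X) (n₂ : ∀ X, 0 ≤ G₂ X)
    (b₁ : (((Fintype.piFinset (fun _ : Fin k => U) ×ˢ Fintype.piFinset fun _ : Fin k => W).filter
      fun p => Gam G₁ p.1 p.2 < c₁).card : ℝ) ≤ fsz (fun _ : Fin k => U) (fun _ => W) / 4)
    (b₂ : (((Fintype.piFinset (fun _ : Fin k => tr e0 W) ×ˢ
      Fintype.piFinset fun _ : Fin k => tr e0 U).filter fun p => Gam G₂ p.1 p.2 < c₂).card : ℝ) ≤
      fsz (fun _ : Fin k => tr e0 W) (fun _ => tr e0 U) / 4) :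
    c₁ * c₂ / 2 * (U.card : ℝ) ^ k * (W.card : ℝ) ^ k ≤
      ∑ x ∈ Fintype.piFinset fun _ : Fin k => U, ∑ y ∈ Fintype.piFinset fun _ : Fin k => W,
        Gam G₁ x y * Gam G₂ (fun i => y i + e0) (fun i => x i + e0) := by
  simp only [fsz, prod_const, card_univ, Fintype.card_fin, card_tr] at b₁ b₂
  set P := Fintype.piFinset (fun _ : Fin k => U) ×ˢ Fintype.piFinset fun _ : Fin k => W with hP
  have cP : (P.card : ℝ) = (U.card : ℝ) ^ k * (W.card : ℝ) ^ k := by simp [hP]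
  have b₃ : ((P.filter fun p => Gam G₂ (fun i => p.2 i + e0) (fun i => p.1 i + e0) < c₂).card : ℝ) ≤
      (W.card : ℝ) ^ k * (U.card : ℝ) ^ k / 4 := by
    refine le_trans (Nat.cast_le.2 ?_) b₂
    refine card_le_card_of_injOn (fun p => (fun i => p.2 i + e0, fun i => p.1 i + e0))
      (fun p hp => ?_) fun p _ q _ h => ?_
    · obtain ⟨h3, h4⟩ := mem_filter.1 (mem_coe.1 hp)
      obtain ⟨h5, h6⟩ := mem_product.1 h3
      refine mem_coe.2 (mem_filter.2 ⟨mem_product.2 ⟨Fintype.mem_piFinset.2 fun i => ?_,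
        Fintype.mem_piFinset.2 fun i => ?_⟩, h4⟩)
      · exact mem_tr.2 (by simpa using Fintype.mem_piFinset.1 h6 i)
      · exact mem_tr.2 (by simpa using Fintype.mem_piFinset.1 h5 i)
    · obtain ⟨h3, h4⟩ := Prod.ext_iff.1 h
      exact Prod.ext (funext fun i => add_right_cancel (congrFun h4 i))
        (funext fun i => add_right_cancel (congrFun h3 i))
  rw [← sum_product']
  have key : ∀ p ∈ P, c₁ * c₂ * (1 - (if Gam G₁ p.1 p.2 < c₁ then 1 else 0) -
      if Gam G₂ (fun i => p.2 i + e0) (fun i => p.1 i + e0) < c₂ then 1 else 0) ≤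
      Gam G₁ p.1 p.2 * Gam G₂ (fun i => p.2 i + e0) (fun i => p.1 i + e0) := by
    intro p _
    have a := Main_Gam_nonneg n₁ p.1 p.2
    have b := Main_Gam_nonneg n₂ (fun i => p.2 i + e0) (fun i => p.1 i + e0)
    have c := mul_pos h₁ h₂
    have d := mul_nonneg a b
    split_ifs with u v v
    · clear * - c₁ c₂ k G₁ p G₂ c d; nlinarith
    · clear * - c₁ c₂ k G₁ p G₂ d; nlinarith
    · clear * - c₁ c₂ k G₁ p G₂ d; nlinarith
    · have := mul_le_mul (not_lt.1 u) (not_lt.1 v) h₂.le a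
      linarith
  refine le_trans ?_ (sum_le_sum key)
  rw [← mul_sum, sum_sub_distrib, sum_sub_distrib, sum_const, nsmul_eq_mul, mul_one, sum_boole,
    sum_boole, cP]
  have c := mul_pos h₁ h₂
  nlinarith

theorem mainN : ∃ s₀ : ℝ, 0 < s₀ ∧ ∀ ν₁ ν₂ : Measure Dimer, IsErgodicGibbs ν₁ →
    IsErgodicGibbs ν₂ → meanCurrent ν₁ = meanCurrent ν₂ → ∑ i, |meanCurrent ν₁ i| < s₀ →
    ∀ᵐ p ∂(ν₁.prod ν₂), (infinitePaths p.1 p.2).Infinite := by
  obtain ⟨s₀, hs0, hs1, hst⟩ := start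
  refine ⟨s₀, hs0, fun ν₁ ν₂ h₁ h₂ heq hs => ?_⟩
  have i₁ := im_of_eg h₁
  have i₂ := im_of_eg h₂
  have := i₁.prob
  have := i₂.prob
  have hs' : n1 (meanCurrent ν₁) < s₀ := hs
  have hn : n1 (meanCurrent ν₁) < 1 := hs'.trans hs1
  have f₁ := fluxAt_eg h₁
  have f₂ : FluxAt ν₂ (meanCurrent ν₁) := heq ▸ fluxAt_eg h₂
  obtain ⟨p₁, l₁⟩ := hst ν₁ h₁ hs'
  obtain ⟨p₂, l₂⟩ := hst ν₂ h₂ (heq ▸ hs')
  have t11 := tr_of i₁ i₁ (lp2 i₁ i₁ hn f₁ f₁) p₁ p₁ hn f₁ f₁
  have t22 := tr_of i₂ i₂ (lp2 i₂ i₂ hn f₂ f₂) p₂ p₂ hn f₂ f₂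
  have lp12 := lp2 i₁ i₂ hn f₁ f₂
  have t12 := tr_of i₁ i₂ lp12 p₁ p₂ hn f₁ f₂
  obtain ⟨g, hg₁⟩ := gauge_h (Gbar_nonneg ν₁) (fun w hw => Gbar_pos i₁ p₁ hw) (Gbar_dv i₁)
    (t11.psd_bar i₁ p₁) l₁
  obtain ⟨g₂, hg₂⟩ := gauge_h (Gbar_nonneg ν₂) (fun w hw => Gbar_pos i₂ p₂ hw) (Gbar_dv i₂)
    (t22.psd_bar i₂ p₂) l₂
  obtain rfl : g = g₂ := gauge_eq hg₁ hg₂ fun w hw => t12.le_bar i₁ p₁ hw
  obtain ⟨C₁, cs₁, a₁, q₁, ha₁, ps₁, lm₁⟩ := limit2 h₁ p₁ t11 hg₁
  obtain ⟨C₂, cs₂, a₂, q₂, ha₂, ps₂, lm₂⟩ := limit2 h₂ p₂ t22 hg₂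
  obtain ⟨B₁, d₁, E₁, hd₁, bd₁, ni₁, -⟩ := nice_gauged hg₁
  obtain ⟨B₂, d₂, E₂, hd₂, bd₂, ni₂, -⟩ := nice_gauged hg₂
  refine concl i₁ i₂ lp12 fun k => ?_
  obtain ⟨c₁, hc₁, K₁, s₁⟩ := qstates C₁ cs₁ q₁ ha₁ hd₁ bd₁ ni₁ ps₁ k
  obtain ⟨c₂, hc₂, K₂, s₂⟩ := qstates C₂ cs₂ q₂ ha₂ hd₂ bd₂ ni₂ ps₂ k
  refine ⟨c₁ * c₂ / 4, by positivity, K₁ + K₂ + 1, fun U W hU hW cU cW => ?_⟩
  obtain ⟨φ₁, m₁, r₁⟩ := lm₁ id strictMono_id
  obtain ⟨φ₂, m₂, r₂⟩ := lm₂ φ₁ m₁
  refine ⟨fun j => φ₁ (φ₂ j), m₁.comp m₂, ?_⟩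
  have a1 := (Measure.quasiMeasurePreserving_fst (μ := ν₁) (ν := ν₂)).ae r₁
  have a2 := (Measure.quasiMeasurePreserving_snd (μ := ν₁) (ν := ν₂)).ae r₂
  filter_upwards [a1, a2] with p p1 p2
  by_contra hne
  have hfr : ∃ᶠ j in atTop, Main_Th k U W (φ₁ (φ₂ j)) p.1.1 p.2.1 ≤
      c₁ * c₂ / 4 * (U.card : ℝ) ^ k * (W.card : ℝ) ^ k :=
    (Filter.not_eventually.1 hne).mono fun j hj => not_lt.1 hj
  have := frequently_iff_neBot.1 hfr
  let 𝒰 := Ultrafilter.of (atTop ⊓ 𝓟 {j | Main_Th k U W (φ₁ (φ₂ j)) p.1.1 p.2.1 ≤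
      c₁ * c₂ / 4 * (U.card : ℝ) ^ k * (W.card : ℝ) ^ k})
  have hU' : (𝒰 : Filter ℕ) ≤ atTop ⊓ 𝓟 {j | Main_Th k U W (φ₁ (φ₂ j)) p.1.1 p.2.1 ≤
      c₁ * c₂ / 4 * (U.card : ℝ) ^ k * (W.card : ℝ) ^ k} := Ultrafilter.of_le _
  have hU1 : (𝒰 : Filter ℕ) ≤ atTop := hU'.trans inf_le_left
  obtain ⟨G₁, hG₁, t₁⟩ := p1 (𝒰.map φ₂) ((m₂.tendsto_atTop).mono_left hU1)
  obtain ⟨G₂, hG₂, t₂⟩ := p2 𝒰 hU1
  have t₁' : ∀ X, Tendsto (fun j => Mr (box (φ₁ (φ₂ j))) p.1.1 X * gz g X) (𝒰 : Filter ℕ)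
      (𝓝 (G₁ X)) := fun X => by
    have := t₁ X
    rw [Ultrafilter.coe_map, tendsto_map'_iff] at this
    exact this
  have ht : Tendsto (fun j => Main_Th k U W (φ₁ (φ₂ j)) p.1.1 p.2.1) (𝒰 : Filter ℕ) (𝓝
      (∑ x ∈ Fintype.piFinset fun _ : Fin k => U, ∑ y ∈ Fintype.piFinset fun _ : Fin k => W,
        Gam G₁ x y * Gam G₂ (fun i => y i + e0) (fun i => x i + e0))) := by
    refine tendsto_finsetSum _ fun x hx => tendsto_finsetSum _ fun y hy => ?_
    refine ((Main_Gam_tendsto t₁' x y).mul (Main_Gam_tendsto t₂ _ _)).congr fun j => ?_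
    exact gz_cancel g (fun i => hU _ (Fintype.mem_piFinset.1 hx i))
      (fun i => hW _ (Fintype.mem_piFinset.1 hy i)) _ _
  have hle := le_of_tendsto ht (le_principal_iff.1 (hU'.trans inf_le_right))
  have he0 : ¬ IsEven e0 := e0_eq ▸ not_isEven_dv _
  have hlow := NMainN_sum hc₁ hc₂ hG₁.nonneg hG₂.nonneg
    (s₁ G₁ hG₁ (fun _ => U) (fun _ => W) fun _ => ⟨hU, hW, show K₁ ≤ U.card by omega,
      show K₁ ≤ W.card by omega⟩)
    (s₂ G₂ hG₂ (fun _ => tr e0 W) (fun _ => tr e0 U) fun _ => ⟨fun x hx => ?_, fun x hx => ?_,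
      by rw [card_tr]; omega, by rw [card_tr]; omega⟩)
  · have u1 : (0 : ℝ) < (U.card : ℝ) ^ k := pow_pos (Nat.cast_pos.2 (by omega)) k
    have u2 : (0 : ℝ) < (W.card : ℝ) ^ k := pow_pos (Nat.cast_pos.2 (by omega)) k
    have := mul_pos (mul_pos (mul_pos hc₁ hc₂) u1) u2
    clear * - k U W G₁ G₂ c₁ c₂ hle hlow this; nlinarith
  · have h3 := hW _ (mem_tr.1 hx)
    rw [sub_eq_add_neg, isEven_add, isEven_neg] at h3
    clear * - x h3 he0; tauto
  · have h3 := hU _ (mem_tr.1 hx)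
    rw [sub_eq_add_neg, isEven_add, isEven_neg] at h3
    clear * - x h3 he0; tauto

end Pool.Agent.Work.MP_5cb0a4_pr.Z
end
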